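import Pool.Agent.MP_17db17_lc.H93.Spec

set_option autoImplicit false

namespace Pool.Agent.MP_17db17_lc.H93

namespace Alg

/-- functions constant on the classes of a cross-free family lie in the span of `1` and the family -/
theorem mem_span {V κ : Type} [Fintype V] (W : κ → V → ℤ)
    (h2 : ∀ i, ∃ ε : ℤ, (ε = 1 ∨ ε = -1) ∧ ∀ x, W i x = 0 ∨ W i x = ε)
    (hc : ∀ i j, i ≠ j → ∃ r s : ℤ, ∀ x, W i x ≠ r → W j x = s)
    (N : Submodule ℤ (V → ℤ)) (h1 : (fun _ => (1 : ℤ)) ∈ N) (hW : ∀ i, W i ∈ N) :
    ∀ (n : ℕ) (s : Finset κ), s.card = n → ∀ f : V → ℤ,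
      (∀ x x', (∀ i ∈ s, W i x = W i x') → f x = f x') → f ∈ N := by
  classical
  intro n
  induction n with
  | zero =>
    intro s hs f hf
    have hs0 : s = ∅ := Finset.card_eq_zero.mp hs
    rcases isEmpty_or_nonempty V with hV | ⟨⟨x0⟩⟩
    · have : f = 0 := funext fun x => (hV.false x).elim
      rw [this]; exact N.zero_mem
    · have : f = f x0 • (fun _ => (1 : ℤ)) := by
        funext x
        have := hf x x0 (by simp [hs0])
        simp [this]
      rw [this]; exact N.smul_mem _ h1
  | succ n ih =>
    intro s hs f hf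
    rcases isEmpty_or_nonempty V with hV | hV
    · have : f = 0 := funext fun x => (hV.false x).elim
      rw [this]; exact N.zero_mem
    have hne : (s ×ˢ (Finset.univ : Finset V)).Nonempty := by
      apply Finset.Nonempty.product
      · exact Finset.card_pos.mp (by omega)
      · exact Finset.univ_nonempty
    obtain ⟨⟨i, x0⟩, hi, hmin⟩ := Finset.exists_min_image (s ×ˢ (Finset.univ : Finset V))
      (fun p : κ × V => (Finset.univ.filter fun y => W p.1 y = W p.1 p.2).card) hne
    have his : i ∈ s := (Finset.mem_product.mp hi).1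
    have hconst : ∀ j ∈ s, ∀ x, W i x = W i x0 → W j x = W j x0 := by
      intro j hj
      by_cases hij : i = j
      · subst hij; exact fun x hx => hx
      obtain ⟨r, t, hrt⟩ := hc i j hij
      by_cases hr : W i x0 = r
      · have key : ∀ x x', W i x = W i x0 → W i x' = W i x0 → W j x ≠ t → W j x' = W j x := by
          intro x x' _ hx' hne'
          have hsub : (Finset.univ.filter fun y => W j y = W j x) ⊆
              (Finset.univ.filter fun y => W i y = W i x0) := by
            intro y hy
            simp only [Finset.mem_filter, Finset.mem_univ, true_and] at hy ⊢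
            by_contra hy'
            exact hne' (hy ▸ hrt y (hr ▸ hy'))
          have hle := hmin (j, x) (Finset.mem_product.mpr ⟨hj, Finset.mem_univ _⟩)
          have heq := Finset.eq_of_subset_of_card_le hsub hle
          have : x' ∈ (Finset.univ.filter fun y => W j y = W j x) := by
            rw [heq]; simp [hx']
          simpa using this
        intro x hx
        by_cases hxt : W j x = t
        · by_cases h0t : W j x0 = t
          · rw [hxt, h0t]
          · exact key x0 x rfl hx h0t
        · exact (key x x0 hx rfl hxt).symm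
      · intro x hx
        rw [hrt x (hx ▸ hr), hrt x0 hr]
    obtain ⟨ε, hε, hv⟩ := h2 i
    have hout : ∀ x x', W i x ≠ W i x0 → W i x' ≠ W i x0 → W i x = W i x' := by
      intro x x' hx hx'
      rcases hv x with a | a <;> rcases hv x' with b | b <;> rcases hv x0 with c | c <;>
        simp_all
    have hind : (fun x => if W i x = W i x0 then (1 : ℤ) else 0) ∈ N := by
      rcases hv x0 with c | c
      · have : (fun x => if W i x = W i x0 then (1 : ℤ) else 0) =
            (fun _ => (1 : ℤ)) - ε • W i := by
          funext x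
          simp only [Pi.sub_apply, Pi.smul_apply, smul_eq_mul, c]
          rcases hv x with a | a <;> rcases hε with e | e <;> simp [a, e]
        rw [this]; exact N.sub_mem h1 (N.smul_mem _ (hW i))
      · have : (fun x => if W i x = W i x0 then (1 : ℤ) else 0) = ε • W i := by
          funext x
          simp only [Pi.smul_apply, smul_eq_mul, c]
          rcases hv x with a | a <;> rcases hε with e | e <;> simp [a, e]
        rw [this]; exact N.smul_mem _ (hW i)
    have hex : ∃ c' : ℤ, ∀ y, W i y ≠ W i x0 → (∀ j ∈ s.erase i, W j y = W j x0) → f y = c' := by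
      by_cases h : ∃ y, W i y ≠ W i x0 ∧ ∀ j ∈ s.erase i, W j y = W j x0
      · obtain ⟨y0, hy0, hy0'⟩ := h
        refine ⟨f y0, fun y hy hy' => hf y y0 fun j hj => ?_⟩
        by_cases hji : j = i
        · subst hji; exact hout y y0 hy hy0
        · have hj' : j ∈ s.erase i := Finset.mem_erase.mpr ⟨hji, hj⟩
          rw [hy' j hj', hy0' j hj']
      · exact ⟨0, fun y hy hy' => (h ⟨y, hy, hy'⟩).elim⟩
    obtain ⟨c', hc'⟩ := hex
    have hin : ∀ x, W i x = W i x0 → f x = f x0 := fun x hx =>
      hf x x0 fun j hj => hconst j hj x hx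
    have hf' : (f - (f x0 - c') • fun x => if W i x = W i x0 then (1 : ℤ) else 0) ∈ N := by
      apply ih (s.erase i) (by rw [Finset.card_erase_of_mem his]; omega)
      intro x x' hxx
      simp only [Pi.sub_apply, Pi.smul_apply, smul_eq_mul]
      by_cases hx : W i x = W i x0 <;> by_cases hx' : W i x' = W i x0
      · simp [hx, hx', hin x hx, hin x' hx']
      · have := hc' x' hx' fun j hj => by
          rw [← hxx j hj]; exact hconst j (Finset.mem_of_mem_erase hj) x hx
        simp [hx, hx', hin x hx, this]
      · have := hc' x hx fun j hj => by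
          rw [hxx j hj]; exact hconst j (Finset.mem_of_mem_erase hj) x' hx'
        simp [hx, hx', hin x' hx', this]
      · have : f x = f x' := hf x x' fun j hj => by
          by_cases hji : j = i
          · subst hji; exact hout x x' hx hx'
          · exact hxx j (Finset.mem_erase.mpr ⟨hji, hj⟩)
        simp [hx, hx', this]
    have := N.add_mem hf' (N.smul_mem (f x0 - c') hind)
    simpa using this

/-- second differences of a product -/
def bb {V : Type} (φ ψ : V → ℤ) : (V × V) × V × V → ℤ := dd fun x y => φ x * ψ y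

theorem bb_apply {V : Type} (φ ψ : V → ℤ) (p : (V × V) × V × V) :
    bb φ ψ p = (φ p.1.1 - φ p.1.2) * (ψ p.2.1 - ψ p.2.2) := by
  simp only [bb, dd]; ring

theorem sum_mem {M α : Type} [AddCommGroup M] (S : Submodule ℤ M) (t : α → α → ℤ)
    (g : α → α → M) (ht : ∀ a b, t a b = t b a) (h1 : ∀ a, g a a ∈ S)
    (h2 : ∀ a b, g a b + g b a ∈ S) (s : Finset α) :
    ∑ a ∈ s, ∑ b ∈ s, t a b • g a b ∈ S := by
  classical
  induction s using Finset.induction_on with
  | empty => simp
  | insert a s ha ih =>
    simp only [Finset.sum_insert ha, Finset.sum_add_distrib]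
    have h3 : ∑ b ∈ s, t a b • g a b + ∑ b ∈ s, t b a • g b a ∈ S := by
      rw [← Finset.sum_add_distrib]
      apply S.sum_mem
      intro b _
      rw [ht b a, ← smul_add]
      exact S.smul_mem _ (h2 a b)
    have := S.add_mem (S.add_mem (S.smul_mem (t a a) (h1 a)) h3) ih
    simpa only [add_assoc] using this

end Alg

open Alg in
theorem algS : AlgStmt := by
  classical
  intro V κ _ _ W 𝒲 T h2 hc hW hW2 hsym hcl
  set S := Submodule.span ℤ ((fun U : V → ℤ => dd fun x y => U x * U y) '' 𝒲) with hS
  have hU : ∀ U ∈ 𝒲, bb U U ∈ S := fun U hU => Submodule.subset_span ⟨U, hU, rfl⟩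
  have hWW : ∀ i j, bb (W i) (W j) + bb (W j) (W i) ∈ S := by
    intro i j
    by_cases hij : i = j
    · subst hij; exact S.add_mem (hU _ (hW i)) (hU _ (hW i))
    rcases hW2 i j hij with h | h | h
    · have e : bb (W i) (W j) + bb (W j) (W i) =
          bb (W i + W j) (W i + W j) - bb (W i) (W i) - bb (W j) (W j) := by
        funext p; simp only [Pi.add_apply, Pi.sub_apply, bb_apply]; ring
      rw [e]; exact S.sub_mem (S.sub_mem (hU _ h) (hU _ (hW i))) (hU _ (hW j))
    · have e : bb (W i) (W j) + bb (W j) (W i) =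
          bb (W i) (W i) + bb (W j) (W j) - bb (W i - W j) (W i - W j) := by
        funext p; simp only [Pi.add_apply, Pi.sub_apply, bb_apply]; ring
      rw [e]; exact S.sub_mem (S.add_mem (hU _ (hW i)) (hU _ (hW j))) (hU _ h)
    · have e : bb (W i) (W j) + bb (W j) (W i) =
          bb (W i) (W i) + bb (W j) (W j) - bb (W j - W i) (W j - W i) := by
        funext p; simp only [Pi.add_apply, Pi.sub_apply, bb_apply]; ring
      rw [e]; exact S.sub_mem (S.add_mem (hU _ (hW i)) (hU _ (hW j))) (hU _ h)
  set N : Submodule ℤ (V → ℤ) :=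
    Submodule.span ℤ (insert (fun _ => (1 : ℤ)) (Set.range W)) with hN
  have hgen : ∀ φ ∈ insert (fun _ : V => (1 : ℤ)) (Set.range W), ∀ ψ ∈ N,
      bb φ ψ + bb ψ φ ∈ S := by
    intro φ hφ ψ hψ
    rcases hφ with rfl | ⟨i, rfl⟩
    · have e : bb (fun _ : V => (1 : ℤ)) ψ + bb ψ (fun _ => 1) = 0 := by
        funext p; simp [bb_apply]
      rw [e]; exact S.zero_mem
    · induction hψ using Submodule.span_induction with
      | mem ψ hψ =>
        rcases hψ with rfl | ⟨j, rfl⟩
        · have e : bb (W i) (fun _ : V => (1 : ℤ)) + bb (fun _ => 1) (W i) = 0 := by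
            funext p; simp [bb_apply]
          rw [e]; exact S.zero_mem
        · exact hWW i j
      | zero =>
        have e : bb (W i) 0 + bb 0 (W i) = 0 := by funext p; simp [bb_apply]
        rw [e]; exact S.zero_mem
      | add a b _ _ ha hb =>
        have e : bb (W i) (a + b) + bb (a + b) (W i) =
            (bb (W i) a + bb a (W i)) + (bb (W i) b + bb b (W i)) := by
          funext p; simp only [Pi.add_apply, bb_apply]; ring
        rw [e]; exact S.add_mem ha hb
      | smul c a _ ha =>
        have e : bb (W i) (c • a) + bb (c • a) (W i) = c • (bb (W i) a + bb a (W i)) := by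
          funext p; simp only [Pi.add_apply, Pi.smul_apply, smul_eq_mul, bb_apply]; ring
        rw [e]; exact S.smul_mem _ ha
  have hsymN : ∀ φ ∈ N, ∀ ψ ∈ N, bb φ ψ + bb ψ φ ∈ S := by
    intro φ hφ ψ hψ
    induction hφ using Submodule.span_induction with
    | mem φ hφ => exact hgen φ hφ ψ hψ
    | zero =>
      have e : bb 0 ψ + bb ψ 0 = 0 := by funext p; simp [bb_apply]
      rw [e]; exact S.zero_mem
    | add a b _ _ ha hb =>
      have e : bb (a + b) ψ + bb ψ (a + b) = (bb a ψ + bb ψ a) + (bb b ψ + bb ψ b) := by
        funext p; simp only [Pi.add_apply, bb_apply]; ring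
      rw [e]; exact S.add_mem ha hb
    | smul c a _ ha =>
      have e : bb (c • a) ψ + bb ψ (c • a) = c • (bb a ψ + bb ψ a) := by
        funext p; simp only [Pi.add_apply, Pi.smul_apply, smul_eq_mul, bb_apply]; ring
      rw [e]; exact S.smul_mem _ ha
  have hdiag : ∀ φ ∈ N, bb φ φ ∈ S := by
    intro φ hφ
    induction hφ using Submodule.span_induction with
    | mem φ hφ =>
      rcases hφ with rfl | ⟨i, rfl⟩
      · have e : bb (fun _ : V => (1 : ℤ)) (fun _ => 1) = 0 := by funext p; simp [bb_apply]
        rw [e]; exact S.zero_mem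
      · exact hU _ (hW i)
    | zero =>
      have e : bb (0 : V → ℤ) 0 = 0 := by funext p; simp [bb_apply]
      rw [e]; exact S.zero_mem
    | add a b ha' hb' ha hb =>
      have e : bb (a + b) (a + b) = bb a a + bb b b + (bb a b + bb b a) := by
        funext p; simp only [Pi.add_apply, bb_apply]; ring
      rw [e]; exact S.add_mem (S.add_mem ha hb) (hsymN a ha' b hb')
    | smul c a _ ha =>
      have e : bb (c • a) (c • a) = (c * c) • bb a a := by
        funext p; simp only [Pi.smul_apply, smul_eq_mul, bb_apply]; ring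
      rw [e]; exact S.smul_mem _ ha
  have hrep : ∃ rep : V → V, (∀ x i, W i (rep x) = W i x) ∧
      ∀ x x', (∀ i, W i x = W i x') → rep x = rep x' := by
    have hex : ∀ x : V, ∃ y, (fun i => W i y) = fun i => W i x := fun x => ⟨x, rfl⟩
    let pick : (κ → ℤ) → V → V := fun w x =>
      if h : ∃ y, (fun i => W i y) = w then h.choose else x
    refine ⟨fun x => pick (fun i => W i x) x, fun x i => ?_, fun x x' h => ?_⟩
    · simp only [pick, dif_pos (hex x)]
      exact congrFun (hex x).choose_spec i
    · have e : (fun i => W i x) = fun i => W i x' := funext h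
      simp only [pick, e, dif_pos (hex x')]
  obtain ⟨rep, hr1, hr2⟩ := hrep
  let e : V → V → ℤ := fun c x => if rep x = c then 1 else 0
  have heN : ∀ c, e c ∈ N := by
    intro c
    refine mem_span W h2 hc N (Submodule.subset_span (Set.mem_insert _ _))
      (fun i => Submodule.subset_span (Set.mem_insert_of_mem _ ⟨i, rfl⟩))
      _ Finset.univ rfl (e c) fun x x' h => ?_
    simp only [e, hr2 x x' fun i => h i (Finset.mem_univ i)]
  have hT : ∀ x y, T x y = ∑ a, ∑ b, T a b * (e a x * e b y) := by
    intro x y
    have h1 : T x y = T (rep x) (rep y) := by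
      rw [hcl (rep y) y (hr1 y) (rep x), hsym (rep x) y, hcl (rep x) x (hr1 x) y, hsym y x]
    rw [h1, Finset.sum_eq_single (rep x), Finset.sum_eq_single (rep y)]
    · simp [e]
    · intro b _ hb; simp [e, hb.symm]
    · simp
    · intro a _ ha; simp [e, ha.symm]
    · simp
  have hfin : dd T = ∑ a, ∑ b, T a b • bb (e a) (e b) := by
    funext p
    simp only [Finset.sum_apply, Pi.smul_apply, smul_eq_mul, bb, dd]
    rw [hT p.1.1 p.2.1, hT p.1.1 p.2.2, hT p.1.2 p.2.1, hT p.1.2 p.2.2]
    simp only [← Finset.sum_sub_distrib, ← Finset.sum_add_distrib]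
    refine Finset.sum_congr rfl fun a _ => Finset.sum_congr rfl fun b _ => ?_
    ring
  rw [hfin]
  exact sum_mem S T (fun a b => bb (e a) (e b)) hsym (fun a => hdiag _ (heN a))
    (fun a b => hsymN _ (heN a) _ (heN b)) Finset.univ

end Pool.Agent.MP_17db17_lc.H93
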