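import Pool.Agent.MP_17db17_lc.H93.Basic2

set_option autoImplicit false

namespace Pool.Agent.MP_17db17_lc.H93

variable {ι V α β : Type} {G : Gr ι V} {D : Sys ι V α}

/-- `y` is an inner point of `e` or a vertex -/
def Sys.Pt (D : Sys ι V α) (e : ι) (y : α) : Prop := y ∈ D.mid e ∨ ∃ x, y = D.pos x

theorem Sys.pt_of_mem_path {e : ι} {y : α} (h : y ∈ D.path G e) : D.Pt e y := by
  rcases Sys.mem_path.1 h with h | h | h
  · exact Or.inr ⟨_, h⟩
  · exact Or.inl h
  · exact Or.inr ⟨_, h⟩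

/-- new positions for all points, chosen separately for each element -/
def Sys.remap (D : Sys ι V α) (φV : V → β) (φ : ι → α → β) : Sys ι V β :=
  ⟨φV, D.sp, fun e => (D.mid e).map (φ e)⟩

/-- new positions for all points -/
def Sys.map (D : Sys ι V α) (f : α → β) : Sys ι V β := D.remap (fun x => f (D.pos x)) fun _ => f

theorem Sys.path_remap {φV : V → β} {φ : ι → α → β} (hV : ∀ e x, φ e (D.pos x) = φV x) (e : ι) :
    (D.remap φV φ).path G e = (D.path G e).map (φ e) := by simp [Sys.path, Sys.remap, hV]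

theorem Sys.chs_remap {φV : V → β} {φ : ι → α → β} (hV : ∀ e x, φ e (D.pos x) = φV x) (e : ι) :
    (D.remap φV φ).chs G e = (D.chs G e).map fun c => (c.1, φ e c.2.1, φ e c.2.2) := by
  rw [Sys.chs, Sys.path_remap hV, chords_map]; rfl

theorem Sys.path_map (f : α → β) (e : ι) : (D.map f).path G e = (D.path G e).map f :=
  Sys.path_remap (fun _ _ => rfl) e

theorem Sys.chs_map (f : α → β) (e : ι) :
    (D.map f).chs G e = (D.chs G e).map fun c => (c.1, f c.2.1, f c.2.2) :=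
  Sys.chs_remap (fun _ _ => rfl) e

theorem Sys.norm_remap [Fintype ι] (φV : V → β) (φ : ι → α → β) :
    (D.remap φV φ).norm = D.norm := by simp [Sys.norm, Sys.remap]

variable [LinearOrder α] [LinearOrder β]

/-- hypotheses of the re-sorting lemma -/
structure RemapOK (G : Gr ι V) (D : Sys ι V α) (φV : V → β) (φ : ι → α → β) : Prop where
  vert : ∀ e x, φ e (D.pos x) = φV x
  ord : ∀ x y, D.pos x < D.pos y → φV x < φV y
  mono : ∀ e e', e = e' ∨ G.H e e' → ∀ y y', D.Pt e y → D.Pt e' y' → y < y' → φ e y < φ e' y'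
  disj : ∀ e e', e ≠ e' → ∀ y ∈ D.mid e, ∀ y' ∈ D.mid e', φ e y ≠ φ e' y'

namespace RemapOK
variable {φV : V → β} {φ : ι → α → β}

theorem lt_iff (r : RemapOK G D φV φ) (hs : G.Symm) (h : D.Valid G) {e e' : ι}
    (he : e = e' ∨ G.H e e') {y y' : α} (hy : D.Pt e y) (hy' : D.Pt e' y') :
    y < y' ↔ φ e y < φ e' y' := by
  refine ⟨r.mono e e' he y y' hy hy', fun h1 => ?_⟩
  rcases lt_trichotomy y y' with h2 | rfl | h2
  · exact h2
  · exfalso
    by_cases hee : e = e'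
    · subst hee; exact lt_irrefl _ h1
    · rcases hy with hy | ⟨x, rfl⟩
      · rcases hy' with hy' | ⟨x, rfl⟩
        · exact h.disj e e' hee y hy hy'
        · exact h.notV _ _ hy
      · rw [r.vert, r.vert] at h1; exact lt_irrefl _ h1
  · exact absurd (r.mono e' e (he.imp Eq.symm (hs _ _)) y' y hy' hy h2) (not_lt_of_gt h1)

theorem sameOrd (r : RemapOK G D φV φ) (h : D.Valid G) : D.SameOrd (D.remap φV φ) := by
  intro x y
  refine ⟨r.ord x y, fun h1 => ?_⟩
  rcases lt_trichotomy (D.pos x) (D.pos y) with h2 | h2 | h2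
  · exact h2
  · rw [h.inj h2] at h1; exact absurd h1 (lt_irrefl _)
  · exact absurd (r.ord y x h2) (not_lt_of_gt h1)

theorem cross_iff (r : RemapOK G D φV φ) (hs : G.Symm) (h : D.Valid G) {e e' : ι}
    (he : e = e' ∨ G.H e e') {c d : Chord α} (hc : c ∈ D.chs G e) (hd : d ∈ D.chs G e') :
    Cross c d ↔ Cross (c.1, φ e c.2.1, φ e c.2.2) (d.1, φ e' d.2.1, φ e' d.2.2) := by
  obtain ⟨c1, c2⟩ := mem_of_mem_chords hc
  obtain ⟨d1, d2⟩ := mem_of_mem_chords hd
  have he' : e' = e ∨ G.H e' e := he.imp Eq.symm (hs _ _)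
  have k := fun y y' (hy : y ∈ D.path G e) (hy' : y' ∈ D.path G e') => And.intro
    (r.lt_iff hs h he (y := y) (y' := y') (Sys.pt_of_mem_path hy) (Sys.pt_of_mem_path hy'))
    (r.lt_iff hs h he' (y := y') (y' := y) (Sys.pt_of_mem_path hy') (Sys.pt_of_mem_path hy))
  exact cross_transfer (k _ _ c1 d1) (k _ _ c1 d2) (k _ _ c2 d1) (k _ _ c2 d2)

theorem valid (r : RemapOK G D φV φ) (hs : G.Symm) (h : D.Valid G) : (D.remap φV φ).Valid G := by
  have inj : ∀ e y y', D.Pt e y → D.Pt e y' → φ e y = φ e y' → y = y' := by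
    intro e y y' hy hy' e'
    rcases lt_trichotomy y y' with h2 | h2 | h2
    · exact absurd e' (r.mono e e (Or.inl rfl) _ _ hy hy' h2).ne
    · exact h2
    · exact absurd e' (r.mono e e (Or.inl rfl) _ _ hy' hy h2).ne'
  have nc : ∀ e e', e = e' ∨ G.H e e' → NoCross (D.sp e) ((D.remap φV φ).path G e) (D.sp e')
      ((D.remap φV φ).path G e') := by
    intro e e' he c hc d hd
    change c ∈ (D.remap φV φ).chs G e at hc
    change d ∈ (D.remap φV φ).chs G e' at hd
    rw [Sys.chs_remap r.vert] at hc hd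
    obtain ⟨c0, hc0, rfl⟩ := List.mem_map.1 hc
    obtain ⟨d0, hd0, rfl⟩ := List.mem_map.1 hd
    rw [← r.cross_iff hs h he hc0 hd0]
    exact h.noCross he c0 hc0 d0 hd0
  refine ⟨fun x y e => ?_, fun e => ?_, fun e e' he y hy hy' => ?_, fun e x hx => ?_,
    fun e he => by simpa [Sys.remap] using h.odd e he, fun e => nc e e (Or.inl rfl),
    fun e e' he => nc e e' (Or.inr he)⟩
  · rcases lt_trichotomy (D.pos x) (D.pos y) with h2 | h2 | h2
    · exact absurd e (r.ord x y h2).ne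
    · exact h.inj h2
    · exact absurd e (r.ord y x h2).ne'
  · exact (h.nodup e).map_on fun y hy y' hy' => inj e y y' (Or.inl hy) (Or.inl hy')
  · obtain ⟨a, ha, rfl⟩ := List.mem_map.1 hy
    obtain ⟨a', ha', e2⟩ := List.mem_map.1 hy'
    exact r.disj e e' he a ha a' ha' e2.symm
  · obtain ⟨a, ha, e2⟩ := List.mem_map.1 hx
    have := inj e a (D.pos x) (Or.inl ha) (Or.inr ⟨x, rfl⟩) (e2.trans (r.vert e x).symm)
    exact h.notV e x (this ▸ ha)

theorem cv_eq (r : RemapOK G D φV φ) (hs : G.Symm) (h : D.Valid G) (e : ι) (x : V) :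
    (D.remap φV φ).cv G e x = D.cv G e x := by
  change covL true ((D.remap φV φ).chs G e) (φV x) = covL true (D.chs G e) (D.pos x)
  rw [Sys.chs_remap r.vert]
  unfold covL
  rw [List.map_map]
  congr 1
  refine List.map_congr_left fun c hc => ?_
  obtain ⟨c1, c2⟩ := mem_of_mem_chords hc
  have k := fun y hy => r.lt_iff hs h (Or.inl (rfl : e = e)) (y := D.pos x) (y' := y)
    (Or.inr ⟨x, rfl⟩) (Sys.pt_of_mem_path (G := G) hy)
  simp only [Function.comp, ind, k _ c1, k _ c2, r.vert]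

theorem reduced (r : RemapOK G D φV φ) (hs : G.Symm) (h : D.Valid G) (hr : D.Reduced G) :
    (D.remap φV φ).Reduced G := by
  intro e c0 hc0
  rw [Sys.chs_remap r.vert] at hc0
  obtain ⟨c, hc, rfl⟩ := List.mem_map.1 hc0
  obtain ⟨x, hx⟩ := hr e c hc
  obtain ⟨c1, c2⟩ := mem_of_mem_chords hc
  have k := fun y hy => r.lt_iff hs h (Or.inl (rfl : e = e)) (y := D.pos x) (y' := y)
    (Or.inr ⟨x, rfl⟩) (Sys.pt_of_mem_path (G := G) hy)
  have k' := fun y hy => r.lt_iff hs h (Or.inl (rfl : e = e)) (y' := D.pos x) (y := y)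
    (Sys.pt_of_mem_path (G := G) hy) (Or.inr ⟨x, rfl⟩)
  refine ⟨x, ?_⟩
  change InW (φ e c.2.1) (φ e c.2.2) (φV x)
  simp only [InW, ← not_lt, k _ c1, k _ c2, k' _ c1, k' _ c2, r.vert] at hx ⊢
  exact hx

end RemapOK

/-- a map that is strictly monotone on all points of the system -/
theorem remapOK_map (h : D.Valid G) {f : α → β}
    (hf : ∀ y y', (∃ e, y ∈ D.mid e) ∨ (∃ x, y = D.pos x) → (∃ e, y' ∈ D.mid e) ∨ (∃ x, y' = D.pos x) →
      y < y' → f y < f y') : RemapOK G D (fun x => f (D.pos x)) fun _ => f := by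
  refine ⟨fun _ _ => rfl, fun x y => hf _ _ (Or.inr ⟨x, rfl⟩) (Or.inr ⟨y, rfl⟩),
    fun e e' _ y y' hy hy' => hf _ _ (hy.imp_left fun a => ⟨e, a⟩) (hy'.imp_left fun a => ⟨e', a⟩),
    fun e e' he y hy y' hy' => ?_⟩
  rcases lt_trichotomy y y' with h2 | h2 | h2
  · exact (hf _ _ (Or.inl ⟨e, hy⟩) (Or.inl ⟨e', hy'⟩) h2).ne
  · exact absurd (h2 ▸ hy') (h.disj e e' he y hy)
  · exact (hf _ _ (Or.inl ⟨e', hy'⟩) (Or.inl ⟨e, hy⟩) h2).ne'

/-- rank of `z` in the finite set `S` -/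
def rank (S : Finset α) (z : α) : ℤ := (S.filter (· < z)).card

theorem rank_lt {S : Finset α} {x y : α} (hx : x ∈ S) (h : x < y) : rank S x < rank S y := by
  unfold rank
  exact_mod_cast Finset.card_lt_card ⟨fun z hz => by
    simp only [Finset.mem_filter] at hz ⊢; exact ⟨hz.1, hz.2.trans h⟩, fun h' => by
    have := h' (Finset.mem_filter.2 ⟨hx, h⟩); simp at this⟩

theorem rank_lt_iff {S : Finset α} {x y : α} (hx : x ∈ S) (hy : y ∈ S) :
    rank S x < rank S y ↔ x < y := by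
  refine ⟨fun h => ?_, rank_lt hx⟩
  rcases lt_trichotomy x y with h2 | rfl | h2
  · exact h2
  · exact absurd h (lt_irrefl _)
  · exact absurd (rank_lt hy h2) (not_lt_of_gt h)

/-- Back to integer positions; `S` is any further finite set of places to be kept in order. -/
theorem Sys.toInt [Fintype ι] [Fintype V] (hs : G.Symm) (h : D.Valid G) (S : Finset α) :
    ∃ (ρ : α → ℤ) (S' : Finset α), S ⊆ S' ∧ (∀ x, D.pos x ∈ S') ∧ (∀ e, ∀ y ∈ D.mid e, y ∈ S') ∧
      (∀ e, ∀ y ∈ D.path G e, y ∈ S') ∧ (∀ y ∈ S', ∀ y' ∈ S', ρ y < ρ y' ↔ y < y') ∧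
      (D.map ρ).Valid G ∧ D.SameOrd (D.map ρ) ∧ (∀ e x, (D.map ρ).cv G e x = D.cv G e x) ∧
      (D.Reduced G → (D.map ρ).Reduced G) ∧ (D.map ρ).norm = D.norm := by
  classical
  let S' : Finset α := S ∪ Finset.univ.image D.pos ∪ Finset.univ.biUnion fun e => (D.mid e).toFinset
  have h1 : ∀ x, D.pos x ∈ S' := fun x => by simp [S']
  have h2 : ∀ e, ∀ y ∈ D.mid e, y ∈ S' := fun e y hy => by
    simp only [S', Finset.mem_union, Finset.mem_biUnion, List.mem_toFinset]
    exact Or.inr ⟨e, Finset.mem_univ _, hy⟩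
  have r : RemapOK G D (fun x => rank S' (D.pos x)) fun _ => rank S' := by
    refine remapOK_map h fun y y' hy _ => rank_lt ?_
    rcases hy with ⟨e, hy⟩ | ⟨x, rfl⟩
    · exact h2 e y hy
    · exact h1 x
  refine ⟨rank S', S', fun y hy => by simp [S', hy], h1, h2, fun e y hy => ?_,
    fun y hy y' hy' => rank_lt_iff hy hy', r.valid hs h, r.sameOrd h, r.cv_eq hs h, r.reduced hs h,
    Sys.norm_remap _ _⟩
  rcases Sys.pt_of_mem_path hy with hy | ⟨x, rfl⟩
  · exact h2 e y hy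
  · exact h1 x

theorem cross_map_iff {ρ : α → β} {S : Finset α} (hρ : ∀ y ∈ S, ∀ y' ∈ S, ρ y < ρ y' ↔ y < y')
    {c d : Chord α} (hc : c.2.1 ∈ S ∧ c.2.2 ∈ S) (hd : d.2.1 ∈ S ∧ d.2.2 ∈ S) :
    Cross (c.1, ρ c.2.1, ρ c.2.2) (d.1, ρ d.2.1, ρ d.2.2) ↔ Cross c d :=
  cross_transfer ⟨hρ _ hc.1 _ hd.1, hρ _ hd.1 _ hc.1⟩ ⟨hρ _ hc.1 _ hd.2, hρ _ hd.2 _ hc.1⟩
    ⟨hρ _ hc.2 _ hd.1, hρ _ hd.1 _ hc.2⟩ ⟨hρ _ hc.2 _ hd.2, hρ _ hd.2 _ hc.2⟩

section comap
variable {ι' V' : Type} {G' : Gr ι' V'}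

/-- restriction (or renaming) of elements and vertices -/
def Sys.comap (D : Sys ι V α) (f : ι' → ι) (g : V' → V) : Sys ι' V' α :=
  ⟨fun x => D.pos (g x), fun e => D.sp (f e), fun e => D.mid (f e)⟩

structure ComapOK (G' : Gr ι' V') (G : Gr ι V) (f : ι' → ι) (g : V' → V) : Prop where
  finj : Function.Injective f
  ginj : Function.Injective g
  s : ∀ e, g (G'.s e) = G.s (f e)
  t : ∀ e, g (G'.t e) = G.t (f e)
  H : ∀ e e', G'.H e e' → G.H (f e) (f e')

variable {f : ι' → ι} {g : V' → V}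

omit [LinearOrder α] in
theorem ComapOK.path (r : ComapOK G' G f g) (e : ι') :
    (D.comap f g).path G' e = D.path G (f e) := by simp [Sys.path, Sys.comap, r.s, r.t]

theorem ComapOK.cv (r : ComapOK G' G f g) (e : ι') (x : V') :
    (D.comap f g).cv G' e x = D.cv G (f e) (g x) := by rw [Sys.cv, r.path]; rfl

theorem ComapOK.alg (r : ComapOK G' G f g) (e e' : ι') :
    (D.comap f g).alg G' e e' = D.alg G (f e) (f e') := by
  simp only [Sys.alg, r.cv, r.s, r.t]
  simp only [Sys.comap, r.s, r.t]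

theorem ComapOK.valid (r : ComapOK G' G f g) (h : D.Valid G) : (D.comap f g).Valid G' := by
  refine ⟨h.inj.comp r.ginj, fun e => h.nodup _, fun e e' he => h.disj _ _ (r.finj.ne he),
    fun e x => h.notV _ _, fun e he => h.odd _ (by rw [← r.s, ← r.t, he]), fun e => ?_,
    fun e e' he => ?_⟩
  · rw [r.path]; exact h.self _
  · rw [r.path, r.path]; exact h.adj _ _ (r.H _ _ he)

end comap

section subst
variable {emb : α → β} {ins : ι → Chord α → List β}

/-- insert the points `ins e c` into the chord `c` of `e` -/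
def Sys.subst (D : Sys ι V α) (G : Gr ι V) (emb : α → β) (ins : ι → Chord α → List β) :
    Sys ι V β :=
  ⟨fun x => emb (D.pos x), D.sp,
    fun e => smid emb (ins e) (D.sp e) (D.pos (G.s e)) (D.mid e) (D.pos (G.t e))⟩

structure SubstOK (G : Gr ι V) (D : Sys ι V α) (emb : α → β) (ins : ι → Chord α → List β) :
    Prop where
  mono : StrictMono emb
  even : ∀ e, ∀ c ∈ D.chs G e, (ins e c).length % 2 = 0
  nodup : ∀ e, ∀ c ∈ D.chs G e, (ins e c).Nodup
  new : ∀ e, ∀ c ∈ D.chs G e, ∀ w, emb w ∉ ins e c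
  disj : ∀ e e', ∀ c ∈ D.chs G e, ∀ c' ∈ D.chs G e', e ≠ e' ∨ c ≠ c' →
    ∀ z ∈ ins e c, z ∉ ins e' c'
  nc : ∀ e e', e = e' ∨ G.H e e' → ∀ c ∈ D.chs G e, ∀ c' ∈ D.chs G e',
    NoCross c.1 (spc emb (ins e) c) c'.1 (spc emb (ins e') c')

theorem SubstOK.chs (r : SubstOK G D emb ins) (e : ι) : (D.subst G emb ins).chs G e =
    (D.chs G e).flatMap fun c => chords c.1 (spc emb (ins e) c) := chords_smid (r.even e)

theorem SubstOK.cv (r : SubstOK G D emb ins) (e : ι) (x : V) : (D.subst G emb ins).cv G e x =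
    ((D.chs G e).map fun c => cov true c.1 (spc emb (ins e) c) (emb (D.pos x))).sum := by
  change covL true ((D.subst G emb ins).chs G e) _ = _
  rw [r.chs, covL_flatMap]; rfl

theorem SubstOK.sameOrd (r : SubstOK G D emb ins) : D.SameOrd (D.subst G emb ins) :=
  fun _ _ => r.mono.lt_iff_lt.symm

omit [LinearOrder α] [LinearOrder β] in
theorem Sys.mid_subst_of_nil {e : ι} (h : ∀ c ∈ D.chs G e, ins e c = []) :
    (D.subst G emb ins).mid e = (D.mid e).map emb := smid_of_nil h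

theorem SubstOK.valid (r : SubstOK G D emb ins) (h : D.Valid G) : (D.subst G emb ins).Valid G := by
  have nc : ∀ e e', e = e' ∨ G.H e e' → NoCross (D.sp e) ((D.subst G emb ins).path G e) (D.sp e')
      ((D.subst G emb ins).path G e') := by
    intro e e' he c hc d hd
    change c ∈ (D.subst G emb ins).chs G e at hc
    change d ∈ (D.subst G emb ins).chs G e' at hd
    rw [r.chs] at hc hd
    obtain ⟨c0, hc0, hc⟩ := List.mem_flatMap.1 hc
    obtain ⟨d0, hd0, hd⟩ := List.mem_flatMap.1 hd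
    exact r.nc e e' he c0 hc0 d0 hd0 c hc d hd
  refine ⟨r.mono.injective.comp h.inj, fun e => ?_, fun e e' he y hy hy' => ?_, fun e x hx => ?_,
    fun e he => ?_, fun e => nc e e (Or.inl rfl), fun e e' he => nc e e' (Or.inr he)⟩
  · exact nodup_smid r.mono.injective (h.nodup e) (h.chs_nodup e)
      (fun c hc => ⟨r.nodup e c hc, r.new e c hc⟩) fun c hc c' hc' hne =>
        r.disj e e c hc c' hc' (Or.inr hne)
  · rcases mem_smid.1 hy with ⟨w, hw, rfl⟩ | ⟨c, hc, hy⟩ <;>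
      rcases mem_smid.1 hy' with ⟨w', hw', e2⟩ | ⟨c', hc', hy'⟩
    · exact h.disj e e' he w hw (r.mono.injective e2 ▸ hw')
    · exact r.new e' c' hc' _ hy'
    · exact r.new e c hc _ (e2 ▸ hy)
    · exact r.disj e e' c hc c' hc' (Or.inl he) _ hy hy'
  · rcases mem_smid.1 hx with ⟨w, hw, e2⟩ | ⟨c, hc, hy⟩
    · exact h.notV e x (r.mono.injective e2 ▸ hw)
    · exact r.new e c hc _ hy
  · have := Nat.odd_iff.1 (h.odd e he)
    exact Nat.odd_iff.2 ((length_smid_mod (r.even e)).trans this)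

end subst

end Pool.Agent.MP_17db17_lc.H93
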