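import Pool.Agent.MP_17db17_lc.H93.Spec

set_option autoImplicit false

namespace Pool.Agent.MP_17db17_lc.H93

section lists
variable {α β : Type}

/-- page after `n` changes -/
def flipN (b : Bool) (n : ℕ) : Bool := if n % 2 = 0 then b else !b

@[simp] theorem flipN_zero (b : Bool) : flipN b 0 = b := rfl

theorem flipN_succ (b : Bool) (n : ℕ) : flipN b (n + 1) = !flipN b n := by
  unfold flipN
  rcases Nat.mod_two_eq_zero_or_one n with h | h <;> simp [h, Nat.add_mod]

theorem flipN_not (b : Bool) (n : ℕ) : flipN (!b) n = !flipN b n := by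
  unfold flipN; split_ifs <;> simp

theorem flipN_add (b : Bool) (m n : ℕ) : flipN b (m + n) = flipN (flipN b m) n := by
  induction n with
  | zero => rfl
  | succ n ih => rw [← Nat.add_assoc, flipN_succ, flipN_succ, ih]

theorem flipN_eq_iff (b : Bool) (m n : ℕ) : flipN b m = flipN b n ↔ m % 2 = n % 2 := by
  unfold flipN
  rcases Nat.mod_two_eq_zero_or_one n with h | h <;>
    rcases Nat.mod_two_eq_zero_or_one m with h' | h' <;> simp [h, h']

theorem pg_eq (t : ℕ) : pg t = flipN true t := by
  unfold pg flipN; split_ifs with h <;> simp [h]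

theorem pg_succ (t : ℕ) : pg (t + 1) = !pg t := by rw [pg_eq, pg_eq, flipN_succ]

@[simp] theorem chords_nil (b : Bool) : chords b ([] : List α) = [] := by simp [chords]
@[simp] theorem chords_single (b : Bool) (x : α) : chords b [x] = [] := by simp [chords]
@[simp] theorem chords_cons_cons (b : Bool) (x y : α) (l : List α) :
    chords b (x :: y :: l) = (b, x, y) :: chords (!b) (y :: l) := rfl

theorem length_chords (b : Bool) (l : List α) : (chords b l).length = l.length - 1 := by
  induction l generalizing b with
  | nil => simp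
  | cons x l ih =>
    cases l with
    | nil => simp
    | cons y l => simp [ih]

theorem chords_append (b : Bool) (l : List α) (x : α) (l' : List α) :
    chords b (l ++ x :: l') = chords b (l ++ [x]) ++ chords (flipN b l.length) (x :: l') := by
  induction l generalizing b with
  | nil => simp
  | cons y l ih =>
    cases l with
    | nil => simp [flipN]
    | cons z l =>
      have := ih (!b)
      simp only [List.cons_append, chords_cons_cons, List.length_cons] at this ⊢
      rw [this, flipN_not, flipN_succ b (l.length + 1)]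

theorem chords_concat (b : Bool) (l : List α) (x y : α) :
    chords b (l ++ [x, y]) = chords b (l ++ [x]) ++ [(flipN b l.length, x, y)] := by
  rw [chords_append]; simp

theorem chords_map (f : α → β) (b : Bool) (l : List α) :
    chords b (l.map f) = (chords b l).map fun c => (c.1, f c.2.1, f c.2.2) := by
  induction l generalizing b with
  | nil => simp
  | cons x l ih =>
    cases l with
    | nil => simp
    | cons y l =>
      have := ih (!b)
      simp only [List.map_cons, chords_cons_cons] at this ⊢
      rw [this]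

theorem chords_reverse (b : Bool) (l : List α) :
    chords (flipN b l.length) l.reverse = ((chords b l).map fun c => (c.1, c.2.2, c.2.1)).reverse := by
  induction l generalizing b with
  | nil => simp
  | cons x l ih =>
    cases l with
    | nil => simp
    | cons y l =>
      have h := ih (!b)
      have e : (x :: y :: l).reverse = l.reverse ++ [y, x] := by simp
      have e2 : (y :: l).reverse = l.reverse ++ [y] := by simp
      have e3 : flipN b (x :: y :: l).length = flipN (!b) (y :: l).length := by
        simp only [List.length_cons]; rw [flipN_not, flipN_succ b (l.length + 1)]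
      rw [e, chords_concat, e3, ← e2, h]
      simp only [chords_cons_cons, List.map_cons, List.reverse_cons, List.length_cons,
        List.length_reverse]
      congr 3
      rw [← flipN_add]
      unfold flipN
      rw [if_neg (by omega)]; simp

theorem getElem_chords (b : Bool) (l : List α) (i : ℕ) (h : i < (chords b l).length) :
    (chords b l)[i] = (flipN b i, l[i]'(by rw [length_chords] at h; omega),
      l[i + 1]'(by rw [length_chords] at h; omega)) := by
  induction l generalizing b i with
  | nil => simp at h
  | cons x l ih =>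
    cases l with
    | nil => simp at h
    | cons y l =>
      cases i with
      | zero => simp
      | succ i =>
        simp only [chords_cons_cons, List.getElem_cons_succ]
        rw [ih, flipN_not, flipN_succ]
        simp

theorem mem_chords_iff {b : Bool} {l : List α} {c : Chord α} :
    c ∈ chords b l ↔ ∃ i, ∃ h : i + 1 < l.length, c = (flipN b i, l[i], l[i + 1]) := by
  rw [List.mem_iff_getElem]
  constructor
  · rintro ⟨i, hi, rfl⟩
    exact ⟨i, by rw [length_chords] at hi; omega, getElem_chords b l i hi⟩
  · rintro ⟨i, hi, rfl⟩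
    exact ⟨i, by rw [length_chords]; omega, getElem_chords b l i _⟩

theorem mem_of_mem_chords {b : Bool} {l : List α} {c : Chord α} (h : c ∈ chords b l) :
    c.2.1 ∈ l ∧ c.2.2 ∈ l := by
  obtain ⟨i, hi, rfl⟩ := mem_chords_iff.1 h
  exact ⟨List.getElem_mem _, List.getElem_mem _⟩

/-- ends of the chords of a path `x :: (m ++ [y])` -/
theorem mem_of_mem_chords' {b : Bool} {x y : α} {m : List α} {c : Chord α}
    (h : c ∈ chords b (x :: (m ++ [y]))) :
    (c.2.1 = x ∨ c.2.1 ∈ m) ∧ (c.2.2 ∈ m ∨ c.2.2 = y) := by
  induction m generalizing b x with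
  | nil => simp at h; simp [h]
  | cons z m ih =>
    simp only [List.cons_append, chords_cons_cons, List.mem_cons] at h ⊢
    rcases h with rfl | h
    · simp
    · have := ih h; tauto

theorem chords_sublist_cons (b : Bool) (x : α) (l : List α) :
    (chords (!b) l).Sublist (chords b (x :: l)) := by
  cases l with
  | nil => simp
  | cons y l => simp

/-- telescoping along a path -/
theorem sum_chords (φ : α → ℤ) (b : Bool) (x : α) (m : List α) (y : α) :
    ((chords b (x :: (m ++ [y]))).map fun c => φ c.2.2 - φ c.2.1).sum = φ y - φ x := by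
  induction m generalizing b x with
  | nil => simp
  | cons z m ih =>
    have := ih (!b) z
    simp only [List.cons_append, chords_cons_cons, List.map_cons, List.sum_cons] at this ⊢
    rw [this]; ring

/-- boundary of a list of chords, applied to a function -/
def bd (C : List (Chord α)) (φ : α → ℤ) : ℤ := (C.map fun c => φ c.2.2 - φ c.2.1).sum

@[simp] theorem bd_nil (φ : α → ℤ) : bd [] φ = 0 := rfl
@[simp] theorem bd_cons (c : Chord α) (C : List (Chord α)) (φ : α → ℤ) :
    bd (c :: C) φ = φ c.2.2 - φ c.2.1 + bd C φ := by simp [bd]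
@[simp] theorem bd_append (C D : List (Chord α)) (φ : α → ℤ) :
    bd (C ++ D) φ = bd C φ + bd D φ := by simp [bd]

theorem bd_path (φ : α → ℤ) (b : Bool) (x : α) (m : List α) (y : α) :
    bd (chords b (x :: (m ++ [y]))) φ = φ y - φ x := sum_chords φ b x m y

theorem bd_congr {C : List (Chord α)} {φ ψ : α → ℤ}
    (h : ∀ c ∈ C, φ c.2.2 - φ c.2.1 = ψ c.2.2 - ψ c.2.1) : bd C φ = bd C ψ := by
  unfold bd; rw [List.map_congr_left h]

theorem bd_add (C : List (Chord α)) (φ ψ : α → ℤ) :
    bd C (fun z => φ z + ψ z) = bd C φ + bd C ψ := by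
  induction C with
  | nil => simp
  | cons c C ih => simp [ih]; ring

theorem bd_filter_add (C : List (Chord α)) (P : Chord α → Bool) (φ : α → ℤ) :
    bd (C.filter P) φ + bd (C.filter fun c => !P c) φ = bd C φ := by
  induction C with
  | nil => simp
  | cons c C ih => cases h : P c <;> simp [h, ← ih] <;> ring

end lists

section order
variable {α β : Type} [LinearOrder α] [LinearOrder β]

theorem ind_add_ind {z p : α} (h : z ≠ p) : ind z p + ind p z = 1 := by
  unfold ind
  rcases lt_or_gt_of_ne h with h | h <;> simp [h, not_lt_of_gt h]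

theorem ind_self (z : α) : ind z z = 0 := by simp [ind]

@[simp] theorem covL_nil (π : Bool) (z : α) : covL π [] z = 0 := rfl
theorem covL_cons (π : Bool) (c : Chord α) (C : List (Chord α)) (z : α) :
    covL π (c :: C) z = (if c.1 = π then ind z c.2.2 - ind z c.2.1 else 0) + covL π C z := by
  simp [covL]
@[simp] theorem covL_append (π : Bool) (C D : List (Chord α)) (z : α) :
    covL π (C ++ D) z = covL π C z + covL π D z := by simp [covL]

theorem covL_add (C : List (Chord α)) (z : α) :
    covL true C z + covL false C z = bd C (ind z) := by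
  induction C with
  | nil => simp
  | cons c C ih =>
    rw [covL_cons, covL_cons, bd_cons, ← ih]
    cases c.1 <;> simp <;> ring

theorem cov_add (b : Bool) (x : α) (m : List α) (y z : α) :
    cov true b (x :: (m ++ [y])) z + cov false b (x :: (m ++ [y])) z = ind z y - ind z x := by
  unfold cov; rw [covL_add, bd_path]

theorem covL_filter_add (π : Bool) (C : List (Chord α)) (P : Chord α → Bool) (z : α) :
    covL π (C.filter P) z + covL π (C.filter fun c => !P c) z = covL π C z := by
  induction C with
  | nil => simp
  | cons c C ih => cases h : P c <;> simp [h, ← ih, covL_cons] <;> ring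

theorem covL_flatMap {γ : Type} (π : Bool) (S : List γ) (f : γ → List (Chord α)) (z : α) :
    covL π (S.flatMap f) z = (S.map fun s => covL π (f s) z).sum := by
  induction S with
  | nil => simp
  | cons s S ih => simp [ih]

theorem covL_congr {π : Bool} {C : List (Chord α)} {z z' : α}
    (h : ∀ c ∈ C, c.1 = π → ind z c.2.2 - ind z c.2.1 = ind z' c.2.2 - ind z' c.2.1) :
    covL π C z = covL π C z' := by
  unfold covL
  congr 1
  refine List.map_congr_left fun c hc => ?_
  split_ifs with h1
  · exact h c hc h1
  · rfl

theorem cov_reverse (π b : Bool) (l : List α) (z : α) :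
    cov π (flipN b l.length) l.reverse z = -cov π b l z := by
  unfold cov; rw [chords_reverse]
  generalize chords b l = C
  induction C with
  | nil => simp
  | cons c C ih =>
    simp only [List.map_cons, List.reverse_cons, covL_append, ih, covL_cons, covL_nil]
    split_ifs <;> ring

theorem abs_covL_le (π : Bool) (C : List (Chord α)) (z : α) : |covL π C z| ≤ C.length := by
  induction C with
  | nil => simp
  | cons c C ih =>
    rw [covL_cons, abs_le] at *
    simp only [List.length_cons, ind]
    push_cast
    split_ifs <;> constructor <;> omega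

theorem cross_symm {c d : Chord α} (h : Cross c d) : Cross d c := by
  obtain ⟨π, p, q⟩ := c
  obtain ⟨π', r, s⟩ := d
  simp only [Cross, Btw, Out] at h ⊢
  obtain ⟨h0, h⟩ := h
  refine ⟨h0.symm, ?_⟩
  rcases h with ⟨h | h, h' | h'⟩ | ⟨h | h, h' | h'⟩ <;> grind

theorem cross_swap_left {π : Bool} {p q : α} {d : Chord α} :
    Cross (π, q, p) d ↔ Cross (π, p, q) d := by
  simp only [Cross, Btw, Out]; tauto

theorem cross_swap_right {π : Bool} {p q : α} {d : Chord α} :
    Cross d (π, q, p) ↔ Cross d (π, p, q) := by
  simp only [Cross, Btw, Out]; tauto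

theorem Cross.ne {c d : Chord α} (h : Cross c d) : c.2.1 ≠ c.2.2 ∧ d.2.1 ≠ d.2.2 ∧
    d.2.1 ≠ c.2.1 ∧ d.2.1 ≠ c.2.2 ∧ d.2.2 ≠ c.2.1 ∧ d.2.2 ≠ c.2.2 := by
  obtain ⟨π, p, q⟩ := c
  obtain ⟨π', r, s⟩ := d
  simp only [Cross, Btw, Out] at h ⊢
  grind

theorem NoCross.symm {b b' : Bool} {l l' : List α} (h : NoCross b l b' l') : NoCross b' l' b l :=
  fun c hc d hd hx => h d hd c hc (cross_symm hx)

/-- Side principle. -/
theorem not_cross_iff {π : Bool} {p q r s : α} (h1 : r ≠ p) (h2 : r ≠ q) (h3 : s ≠ p)
    (h4 : s ≠ q) : ¬ Cross (π, p, q) (π, r, s) ↔ ind r q - ind r p = ind s q - ind s p := by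
  simp only [Cross, Btw, Out, ind]
  split_ifs <;> grind

/-- `covL` is the same at both ends of a chord that crosses nothing. -/
theorem covL_eq_of_not_cross {π : Bool} {C : List (Chord α)} {r s : α}
    (h : ∀ c ∈ C, ¬ Cross c (π, r, s))
    (hr : ∀ c ∈ C, c.1 = π → r ≠ c.2.1 ∧ r ≠ c.2.2 ∧ s ≠ c.2.1 ∧ s ≠ c.2.2) :
    covL π C r = covL π C s := by
  refine covL_congr fun c hc h1 => ?_
  obtain ⟨π', p, q⟩ := c
  obtain ⟨a1, a2, a3, a4⟩ := hr _ hc h1
  subst h1
  exact (not_cross_iff a1 a2 a3 a4).1 (h _ hc)

theorem ind_map {f : α → β} {z p : α} (h : ∀ x y, x ∈ [z, p] → y ∈ [z, p] → x < y → f x < f y) :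
    ind (f z) (f p) = ind z p := by
  unfold ind
  rcases lt_trichotomy z p with h1 | rfl | h1
  · simp [h1, h z p (by simp) (by simp) h1]
  · simp
  · simp [not_lt_of_gt h1, not_lt_of_gt (h p z (by simp) (by simp) h1)]

/-- `Cross` only depends on the order of the ends of one chord against the ends of the other. -/
theorem cross_transfer {π π' : Bool} {p q r s : α} {p' q' r' s' : β}
    (h1 : (p < r ↔ p' < r') ∧ (r < p ↔ r' < p')) (h2 : (p < s ↔ p' < s') ∧ (s < p ↔ s' < p'))
    (h3 : (q < r ↔ q' < r') ∧ (r < q ↔ r' < q')) (h4 : (q < s ↔ q' < s') ∧ (s < q ↔ s' < q')) :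
    Cross (π, p, q) (π', r, s) ↔ Cross (π, p', q') (π', r', s') := by
  simp only [Cross, Btw, Out, h1.1, h1.2, h2.1, h2.2, h3.1, h3.2, h4.1, h4.2]

/-- signed crossing number of two chords -/
def xs (c d : Chord α) : ℤ :=
  if c.1 = d.1 then (if c.1 = true then 1 else -1) *
    ((ind c.2.2 d.2.2 - ind c.2.2 d.2.1) - (ind c.2.1 d.2.2 - ind c.2.1 d.2.1)) else 0

/-- signed crossing number of two lists of chords -/
def XS (C D : List (Chord α)) : ℤ := (C.map fun c => (D.map fun d => xs c d).sum).sum

theorem xs_eq_zero_iff {c d : Chord α} (h : c.1 = d.1 →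
    c.2.1 ≠ d.2.1 ∧ c.2.1 ≠ d.2.2 ∧ c.2.2 ≠ d.2.1 ∧ c.2.2 ≠ d.2.2) : xs c d = 0 ↔ ¬ Cross c d := by
  obtain ⟨π, p, q⟩ := c
  obtain ⟨π', r, s⟩ := d
  by_cases h0 : π = π'
  · subst h0
    obtain ⟨a1, a2, a3, a4⟩ := h rfl
    have := @not_cross_iff _ _ π r s p q a1 a2 a3 a4
    have e : Cross (π, p, q) (π, r, s) ↔ Cross (π, r, s) (π, p, q) := ⟨cross_symm, cross_symm⟩
    rw [e, this]
    cases π <;> simp [xs] <;> omega
  · simp [xs, Cross, h0]

theorem XS_eq_zero {C D : List (Chord α)} (h : ∀ c ∈ C, ∀ d ∈ D, xs c d = 0) : XS C D = 0 := by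
  unfold XS
  refine List.sum_eq_zero fun x hx => ?_
  obtain ⟨c, hc, rfl⟩ := List.mem_map.1 hx
  refine List.sum_eq_zero fun y hy => ?_
  obtain ⟨d, hd, rfl⟩ := List.mem_map.1 hy
  exact h c hc d hd

@[simp] theorem XS_nil_left (D : List (Chord α)) : XS [] D = 0 := rfl
theorem XS_cons_left (c : Chord α) (C D : List (Chord α)) :
    XS (c :: C) D = (D.map fun d => xs c d).sum + XS C D := by simp [XS]
theorem XS_append_left (C C' D : List (Chord α)) : XS (C ++ C') D = XS C D + XS C' D := by
  simp [XS]
theorem XS_append_right (C D D' : List (Chord α)) : XS C (D ++ D') = XS C D + XS C D' := by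
  induction C with
  | nil => simp
  | cons c C ih => simp [XS_cons_left, ih]; ring
theorem XS_filter_right (C D : List (Chord α)) (P : Chord α → Bool) :
    XS C (D.filter P) + XS C (D.filter fun c => !P c) = XS C D := by
  have h : ∀ c, ((D.filter P).map fun d => xs c d).sum +
      ((D.filter fun c => !P c).map fun d => xs c d).sum = (D.map fun d => xs c d).sum := by
    intro c
    induction D with
    | nil => simp
    | cons d D ih => cases h : P d <;> simp [h, ← ih] <;> ring
  induction C with
  | nil => simp
  | cons c C ih => simp only [XS_cons_left]; rw [← h c, ← ih]; ring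

theorem sum_xs (c : Chord α) (D : List (Chord α)) : (D.map fun d => xs c d).sum =
    (if c.1 = true then 1 else -1) * (covL c.1 D c.2.2 - covL c.1 D c.2.1) := by
  induction D with
  | nil => simp
  | cons d D ih =>
    rw [List.map_cons, List.sum_cons, ih, covL_cons, covL_cons]
    unfold xs
    by_cases h : c.1 = d.1
    · rw [if_pos h, if_pos h.symm, if_pos h.symm]; ring
    · rw [if_neg h, if_neg (Ne.symm h), if_neg (Ne.symm h)]; ring

/-- L0. The hypothesis only concerns the ends of the lower chords of `C`. -/
theorem XS_eq (C D : List (Chord α)) (h : ∀ c ∈ C, c.1 = false → ∀ d ∈ D,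
    c.2.1 ≠ d.2.1 ∧ c.2.1 ≠ d.2.2 ∧ c.2.2 ≠ d.2.1 ∧ c.2.2 ≠ d.2.2) :
    XS C D = bd C (covL true D) + bd D (covL false C) := by
  induction C with
  | nil => simp [bd]
  | cons c C ih =>
    have e : bd D (covL false (c :: C)) =
        bd D (fun z => if c.1 = false then ind z c.2.2 - ind z c.2.1 else 0) +
          bd D (covL false C) := by
      rw [← bd_add]; congr 1
    rw [XS_cons_left, ih fun c' hc' => h c' (List.mem_cons_of_mem _ hc'), sum_xs, bd_cons, e]
    cases hc : c.1
    · have h1 := covL_add D c.2.2
      have h2 := covL_add D c.2.1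
      have h3 : bd D (fun z => ind z c.2.2 - ind z c.2.1) =
          bd D (ind c.2.1) - bd D (ind c.2.2) := by
        have hh := h c List.mem_cons_self hc
        clear h ih e h1 h2
        induction D with
        | nil => simp
        | cons d D ih =>
          obtain ⟨a1, a2, a3, a4⟩ := hh d List.mem_cons_self
          rw [bd_cons, bd_cons, bd_cons, ih fun d' hd' => hh d' (List.mem_cons_of_mem _ hd')]
          have := ind_add_ind a1; have := ind_add_ind a2
          have := ind_add_ind a3; have := ind_add_ind a4
          omega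
      simp only [if_true, Bool.false_eq_true, if_false, h3]
      omega
    · simp [bd, add_assoc]

/-- L0 when only the ends of `D` as a path matter. -/
theorem XS_path (b : Bool) (u : α) (m : List α) (v : α) (b' : Bool) (x : α) (m' : List α) (y : α)
    (h : ∀ z ∈ u :: (m ++ [v]), z ∉ x :: (m' ++ [y])) :
    XS (chords b (u :: (m ++ [v]))) (chords b' (x :: (m' ++ [y]))) =
      cov true b' (x :: (m' ++ [y])) v - cov true b' (x :: (m' ++ [y])) u +
        (cov false b (u :: (m ++ [v])) y - cov false b (u :: (m ++ [v])) x) := by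
  rw [XS_eq, bd_path, bd_path]
  · rfl
  · intro c hc _ d hd
    obtain ⟨h1, h2⟩ := mem_of_mem_chords hc
    obtain ⟨h3, h4⟩ := mem_of_mem_chords hd
    exact ⟨fun e => h _ h1 (e ▸ h3), fun e => h _ h1 (e ▸ h4), fun e => h _ h2 (e ▸ h3),
      fun e => h _ h2 (e ▸ h4)⟩

end order

end Pool.Agent.MP_17db17_lc.H93
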