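import Pool.Agent.MP_17db17_lc.H93.Basic0

set_option autoImplicit false

namespace Pool.Agent.MP_17db17_lc.H93

section pieces
variable {α β : Type}

theorem Piece.lastPage_eq (p : Piece α) : p.lastPage = flipN p.1 p.2.2.1.length := rfl

/-- the first piece starts at `x` on page `b` -/
theorem pieces_eq_cons (P : α → Bool) (b : Bool) (x : α) (m : List α) (y : α) :
    ∃ m' y' r, pieces P b x m y = (b, x, m', y') :: r := by
  induction m generalizing b x with
  | nil => exact ⟨_, _, _, rfl⟩
  | cons z m ih =>
    obtain ⟨m', y', r, h⟩ := ih (!b) z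
    unfold pieces
    split_ifs
    · exact ⟨_, _, _, rfl⟩
    · rw [h]; exact ⟨_, _, _, rfl⟩

theorem pieces_cons_pos {P : α → Bool} {z : α} (h : P z = true) (b : Bool) (x : α) (m : List α)
    (y : α) : pieces P b x (z :: m) y = (b, x, [], z) :: pieces P (!b) z m y := by
  rw [pieces, if_pos h]

theorem pieces_cons_neg {P : α → Bool} {z : α} (h : P z = false) {b : Bool} (x : α) {m : List α}
    {y : α} {m' : List α} {y' : α} {r : List (Piece α)}
    (e : pieces P (!b) z m y = (!b, z, m', y') :: r) :
    pieces P b x (z :: m) y = (b, x, z :: m', y') :: r := by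
  rw [pieces, if_neg (by simp [h]), e]

/-- An induction principle that follows the definition of `pieces`. -/
theorem pieces_induction {P : α → Bool} {y : α}
    {Q : Bool → α → List α → List (Piece α) → Prop}
    (h0 : ∀ b x, Q b x [] [(b, x, [], y)])
    (h1 : ∀ b x z m S, P z = true → Q (!b) z m S → Q b x (z :: m) ((b, x, [], z) :: S))
    (h2 : ∀ b x z m m' y' r, P z = false → Q (!b) z m ((!b, z, m', y') :: r) →
      Q b x (z :: m) ((b, x, z :: m', y') :: r)) (b : Bool) (x : α) (m : List α) :
    Q b x m (pieces P b x m y) := by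
  induction m generalizing b x with
  | nil => exact h0 b x
  | cons z m ih =>
    cases h : P z
    · obtain ⟨m', y', r, e⟩ := pieces_eq_cons P (!b) z m y
      rw [pieces_cons_neg h x e]
      exact h2 _ _ _ _ _ _ _ h (e ▸ ih (!b) z)
    · rw [pieces_cons_pos h]
      exact h1 _ _ _ _ _ h (ih (!b) z)

theorem pieces_chords (P : α → Bool) (b : Bool) (x : α) (m : List α) (y : α) :
    (pieces P b x m y).flatMap Piece.chs = chords b (x :: (m ++ [y])) := by
  refine pieces_induction (Q := fun b x m S => S.flatMap Piece.chs = chords b (x :: (m ++ [y])))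
    ?_ ?_ ?_ b x m
  · intro b x; simp [Piece.chs, Piece.l]
  · intro b x z m S _ h; simp [Piece.chs, Piece.l, h] at h ⊢
  · intro b x z m m' y' r _ h
    simp only [List.flatMap_cons, Piece.chs, Piece.l, List.cons_append, chords_cons_cons] at h ⊢
    rw [h]

theorem chs_sub_of_mem_pieces {P : α → Bool} {b : Bool} {x : α} {m : List α} {y : α}
    {p : Piece α} (h : p ∈ pieces P b x m y) {c : Chord α} (hc : c ∈ p.chs) :
    c ∈ chords b (x :: (m ++ [y])) := by
  rw [← pieces_chords P]; exact List.mem_flatMap.2 ⟨p, h, hc⟩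

theorem pieces_starts (P : α → Bool) (b : Bool) (x : α) (m : List α) (y : α) :
    (pieces P b x m y).map (·.2.1) = x :: m.filter P := by
  refine pieces_induction (Q := fun _ x m S => S.map (·.2.1) = x :: m.filter P) ?_ ?_ ?_ b x m
  · intro b x; simp
  · intro b x z m S hz h; simp [hz, h]
  · intro b x z m m' y' r hz h; simpa [hz] using h

theorem pieces_ends (P : α → Bool) (b : Bool) (x : α) (m : List α) (y : α) :
    (pieces P b x m y).map (·.2.2.2) = m.filter P ++ [y] := by
  refine pieces_induction (Q := fun _ _ m S => S.map (·.2.2.2) = m.filter P ++ [y]) ?_ ?_ ?_ b x m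
  · intro b x; simp
  · intro b x z m S hz h; simp [hz, h]
  · intro b x z m m' y' r hz h; simpa [hz] using h

theorem pieces_points (P : α → Bool) (b : Bool) (x : α) (m : List α) (y : α) :
    ((pieces P b x m y).flatMap fun p => p.2.1 :: p.2.2.1) = x :: m := by
  refine pieces_induction (Q := fun _ x m S => (S.flatMap fun p => p.2.1 :: p.2.2.1) = x :: m)
    ?_ ?_ ?_ b x m
  · intro b x; simp
  · intro b x z m S hz h; simp [h]
  · intro b x z m m' y' r hz h; simpa using h

theorem pieces_points' (P : α → Bool) (b : Bool) (x : α) (m : List α) (y : α) :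
    ((pieces P b x m y).flatMap fun p => p.2.2.1 ++ [p.2.2.2]) = m ++ [y] := by
  refine pieces_induction (Q := fun _ _ m S => (S.flatMap fun p => p.2.2.1 ++ [p.2.2.2]) = m ++ [y])
    ?_ ?_ ?_ b x m
  · intro b x; simp
  · intro b x z m S hz h; simp [h]
  · intro b x z m m' y' r hz h; simpa using h

theorem pieces_inner (P : α → Bool) (b : Bool) (x : α) (m : List α) (y : α) :
    ((pieces P b x m y).flatMap fun p => p.2.2.1) = m.filter fun z => !P z := by
  refine pieces_induction (Q := fun _ _ m S => (S.flatMap fun p => p.2.2.1) =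
    m.filter fun z => !P z) ?_ ?_ ?_ b x m
  · intro b x; simp
  · intro b x z m S hz h; simp [h, hz]
  · intro b x z m m' y' r hz h; simpa [hz] using h

theorem mem_pieces {P : α → Bool} {b : Bool} {x : α} {m : List α} {y : α} {p : Piece α}
    (h : p ∈ pieces P b x m y) :
    (p.2.1 = x ∨ (p.2.1 ∈ m ∧ P p.2.1 = true)) ∧ (p.2.2.2 = y ∨ (p.2.2.2 ∈ m ∧ P p.2.2.2 = true)) ∧
      ∀ z ∈ p.2.2.1, z ∈ m ∧ P z = false := by
  refine ⟨?_, ?_, fun z hz => ?_⟩
  · have : p.2.1 ∈ x :: m.filter P := by
      rw [← pieces_starts P b x m y]; exact List.mem_map_of_mem h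
    simpa using this
  · have : p.2.2.2 ∈ m.filter P ++ [y] := by
      rw [← pieces_ends P b x m y]; exact List.mem_map_of_mem h
    simpa [or_comm] using this
  · have : z ∈ m.filter fun z => !P z := by
      rw [← pieces_inner P b x m y]; exact List.mem_flatMap.2 ⟨p, h, hz⟩
    simpa using this

theorem mem_l_of_mem_pieces {P : α → Bool} {b : Bool} {x : α} {m : List α} {y : α} {p : Piece α}
    (h : p ∈ pieces P b x m y) {z : α} (hz : z ∈ p.l) : z ∈ x :: (m ++ [y]) := by
  obtain ⟨h1, h2, h3⟩ := mem_pieces h
  simp only [Piece.l, List.mem_cons, List.mem_append, List.not_mem_nil, or_false] at hz ⊢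
  rcases hz with rfl | hz | rfl
  · tauto
  · exact Or.inr (Or.inl (h3 z hz).1)
  · tauto

/-- consecutive pieces fit together -/
theorem pieces_chain (P : α → Bool) (b : Bool) (x : α) (m : List α) (y : α) :
    (pieces P b x m y).IsChain fun p q => q.2.1 = p.2.2.2 ∧ q.1 = !p.lastPage := by
  refine (pieces_induction (Q := fun b x _ S => (∃ m' y' r, S = (b, x, m', y') :: r) ∧
    S.IsChain fun p q => q.2.1 = p.2.2.2 ∧ q.1 = !p.lastPage) ?_ ?_ ?_ b x m).2
  · intro b x; simp
  · rintro b x z m S hz ⟨⟨m', y', r, rfl⟩, h⟩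
    exact ⟨⟨_, _, _, rfl⟩, List.IsChain.cons_cons ⟨rfl, rfl⟩ h⟩
  · rintro b x z m m' y' r hz ⟨-, h⟩
    refine ⟨⟨_, _, _, rfl⟩, ?_⟩
    cases r with
    | nil => simp
    | cons q r =>
      rw [List.isChain_cons_cons] at h ⊢
      refine ⟨⟨h.1.1, ?_⟩, h.2⟩
      rw [h.1.2]
      simp only [Piece.lastPage_eq, List.length_cons, flipN_succ, flipN_not]

/-- If every piece has an odd number of chords, the pieces are the chords of the filtered path. -/
theorem chords_filter (P : α → Bool) (b : Bool) (x : α) (m : List α) (y : α)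
    (h : ∀ p ∈ pieces P b x m y, p.2.2.1.length % 2 = 0) :
    chords b (x :: (m.filter P ++ [y])) = (pieces P b x m y).map fun p => (p.1, p.2.1, p.2.2.2) := by
  have hc := pieces_chain P b x m y
  have he := pieces_ends P b x m y
  obtain ⟨m', y', r, e⟩ := pieces_eq_cons P b x m y
  rw [← he]
  rw [e] at h hc ⊢
  clear he e
  induction r generalizing b x m' y' with
  | nil => simp
  | cons q r ih =>
    obtain ⟨b', x', m'', y''⟩ := q
    rw [List.isChain_cons_cons] at hc
    obtain ⟨⟨h1, h2⟩, h3⟩ := hc
    have h4 : m'.length % 2 = 0 := h _ List.mem_cons_self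
    simp only [Piece.lastPage, h4, if_true] at h1 h2
    subst h1 h2
    have := ih (!b) x' m'' y'' h3 (fun p hp => h p (List.mem_cons_of_mem _ hp))
    simp only [List.map_cons, chords_cons_cons] at this ⊢
    rw [this]

theorem pieces_map (f : α → β) (P : β → Bool) (b : Bool) (x : α) (m : List α) (y : α) :
    pieces P b (f x) (m.map f) (f y) = (pieces (fun z => P (f z)) b x m y).map
      fun p => (p.1, f p.2.1, p.2.2.1.map f, f p.2.2.2) := by
  refine pieces_induction (P := fun z => P (f z)) (Q := fun b x m S =>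
    pieces P b (f x) (m.map f) (f y) = S.map fun p => (p.1, f p.2.1, p.2.2.1.map f, f p.2.2.2))
    ?_ ?_ ?_ b x m
  · intro b x; rfl
  · intro b x z m S hz h
    rw [List.map_cons, pieces_cons_pos hz, h]; rfl
  · intro b x z m m' y' r hz h
    rw [List.map_cons, pieces_cons_neg hz _ h]; rfl

/-- For a path without repetition, an earlier piece meets a later one at most in the point where
the first ends and the second starts. -/
theorem pieces_pairwise (P : α → Bool) (b : Bool) (x : α) (m : List α) (y : α)
    (h1 : (x :: m).Nodup) (h2 : (m ++ [y]).Nodup) :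
    (pieces P b x m y).Pairwise (fun p q =>
      (∀ z ∈ p.2.1 :: p.2.2.1, z ∉ q.2.1 :: q.2.2.1) ∧
      ∀ z ∈ p.2.2.1 ++ [p.2.2.2], z ∉ q.2.2.1 ++ [q.2.2.2]) ∧
    ∀ p ∈ pieces P b x m y, (p.2.1 :: p.2.2.1).Nodup ∧ (p.2.2.1 ++ [p.2.2.2]).Nodup := by
  rw [← pieces_points P b x m y, List.nodup_flatMap] at h1
  rw [← pieces_points' P b x m y, List.nodup_flatMap] at h2
  refine ⟨(h1.2.and h2.2).imp fun h => ⟨fun z a b => h.1 a b, fun z a b => h.2 a b⟩,
    fun p hp => ⟨h1.1 p hp, h2.1 p hp⟩⟩

end pieces

section subst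
variable {α β : Type}

/-- inner points of a path after inserting `ins c` into every chord `c` -/
def smid (emb : α → β) (ins : Chord α → List β) : Bool → α → List α → α → List β
  | b, x, [], y => ins (b, x, y)
  | b, x, z :: m, y => ins (b, x, z) ++ emb z :: smid emb ins (!b) z m y

/-- the path that replaces the chord `c` -/
def spc (emb : α → β) (ins : Chord α → List β) (c : Chord α) : List β :=
  emb c.2.1 :: (ins c ++ [emb c.2.2])

variable {emb : α → β} {ins : Chord α → List β}

theorem chords_smid {b : Bool} {x : α} {m : List α} {y : α}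
    (h : ∀ c ∈ chords b (x :: (m ++ [y])), (ins c).length % 2 = 0) :
    chords b (emb x :: (smid emb ins b x m y ++ [emb y])) =
      (chords b (x :: (m ++ [y]))).flatMap fun c => chords c.1 (spc emb ins c) := by
  induction m generalizing b x with
  | nil => simp [smid, spc]
  | cons z m ih =>
    have h0 : (ins (b, x, z)).length % 2 = 0 := h _ (by simp)
    have := ih (b := !b) (x := z) fun c hc => h c (by simp [hc])
    simp only [smid, List.cons_append, chords_cons_cons, List.flatMap_cons, List.append_assoc]
    rw [← List.cons_append, chords_append, ← this]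
    congr 2
    simp only [List.length_cons, flipN_succ]
    unfold flipN; rw [if_pos h0]

theorem mem_smid {b : Bool} {x : α} {m : List α} {y : α} {z : β} :
    z ∈ smid emb ins b x m y ↔
      (∃ w ∈ m, z = emb w) ∨ ∃ c ∈ chords b (x :: (m ++ [y])), z ∈ ins c := by
  induction m generalizing b x with
  | nil => simp [smid]
  | cons w m ih =>
    simp only [smid, List.mem_append, List.mem_cons, ih, List.cons_append, chords_cons_cons,
      exists_eq_or_imp]
    grind

theorem length_smid {b : Bool} {x : α} {m : List α} {y : α} :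
    (smid emb ins b x m y).length =
      m.length + ((chords b (x :: (m ++ [y]))).map fun c => (ins c).length).sum := by
  induction m generalizing b x with
  | nil => simp [smid]
  | cons w m ih => simp [smid, ih]; omega

theorem smid_of_nil {b : Bool} {x : α} {m : List α} {y : α}
    (h : ∀ c ∈ chords b (x :: (m ++ [y])), ins c = []) : smid emb ins b x m y = m.map emb := by
  induction m generalizing b x with
  | nil => simpa [smid] using h
  | cons w m ih =>
    rw [smid, h _ (by simp), ih fun c hc => h c (by simp [hc])]; simp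

theorem length_smid_mod {b : Bool} {x : α} {m : List α} {y : α}
    (h : ∀ c ∈ chords b (x :: (m ++ [y])), (ins c).length % 2 = 0) :
    (smid emb ins b x m y).length % 2 = m.length % 2 := by
  induction m generalizing b x with
  | nil => simpa [smid] using h
  | cons w m ih =>
    have h0 : (ins (b, x, w)).length % 2 = 0 := h _ (by simp)
    have := ih (b := !b) (x := w) fun c hc => h c (by simp [hc])
    simp only [smid, List.length_append, List.length_cons]
    omega

theorem nodup_smid {b : Bool} {x : α} {m : List α} {y : α} (he : Function.Injective emb)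
    (hm : m.Nodup) (hc : (chords b (x :: (m ++ [y]))).Nodup)
    (h1 : ∀ c ∈ chords b (x :: (m ++ [y])), (ins c).Nodup ∧ ∀ w, emb w ∉ ins c)
    (h2 : ∀ c ∈ chords b (x :: (m ++ [y])), ∀ c' ∈ chords b (x :: (m ++ [y])), c ≠ c' →
      ∀ z ∈ ins c, z ∉ ins c') : (smid emb ins b x m y).Nodup := by
  induction m generalizing b x with
  | nil => exact (h1 _ (by simp)).1
  | cons w m ih =>
    simp only [List.cons_append, chords_cons_cons, List.nodup_cons] at hc hm
    have := ih (b := !b) (x := w) hm.2 hc.2 (fun c hc => h1 c (by simp [hc]))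
      fun c hc c' hc' => h2 c (by simp [hc]) c' (by simp [hc'])
    rw [smid, List.nodup_append]
    refine ⟨(h1 _ (by simp)).1, List.nodup_cons.2 ⟨fun h => ?_, this⟩, fun a ha b' hb e => ?_⟩
    · rcases mem_smid.1 h with ⟨w', hw, e⟩ | ⟨c, hc', e⟩
      · exact hm.1 (he e ▸ hw)
      · exact (h1 c (by simp [hc'])).2 _ e
    · subst e
      rcases List.mem_cons.1 hb with rfl | hb
      · exact (h1 (b, x, w) (by simp)).2 _ ha
      · rcases mem_smid.1 hb with ⟨w', hw, e⟩ | ⟨c, hc', e⟩
        · exact (h1 (b, x, w) (by simp)).2 _ (e ▸ ha)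
        · exact h2 (b, x, w) (by simp) c (by simp [hc']) (fun e' => hc.1 (by rw [e']; exact hc')) _ ha e

end subst

end Pool.Agent.MP_17db17_lc.H93
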