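import Pool.Agent.MP_17db17_lc.H93.Basic1

set_option autoImplicit false

namespace Pool.Agent.MP_17db17_lc.H93

variable {ι V α β : Type} {G : Gr ι V} {D : Sys ι V α}

theorem Sys.length_path (D : Sys ι V α) (G : Gr ι V) (e : ι) :
    (D.path G e).length = (D.mid e).length + 2 := by simp [Sys.path]

theorem Sys.length_chs (D : Sys ι V α) (G : Gr ι V) (e : ι) :
    (D.chs G e).length = (D.mid e).length + 1 := by
  rw [Sys.chs, length_chords, Sys.length_path]; rfl

theorem Sys.mem_path {e : ι} {y : α} :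
    y ∈ D.path G e ↔ y = D.pos (G.s e) ∨ y ∈ D.mid e ∨ y = D.pos (G.t e) := by simp [Sys.path]

theorem Sys.mem_of_mem_chs {e : ι} {c : Chord α} (h : c ∈ D.chs G e) :
    (c.2.1 = D.pos (G.s e) ∨ c.2.1 ∈ D.mid e) ∧ (c.2.2 ∈ D.mid e ∨ c.2.2 = D.pos (G.t e)) :=
  mem_of_mem_chords' h

theorem Sys.Ch.symm {e : ι} {π : Bool} {x y : α} (h : D.Ch G e π x y) : D.Ch G e π y x := Or.symm h

theorem Sys.Ch.mem {e : ι} {π : Bool} {x y : α} (h : D.Ch G e π x y) :
    x ∈ D.path G e ∧ y ∈ D.path G e := by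
  rcases h with h | h
  · exact mem_of_mem_chords h
  · exact (mem_of_mem_chords h).symm

theorem Sys.ch_iff {e : ι} {π : Bool} {x y : α} : D.Ch G e π x y ↔ ∃ i, π = flipN (D.sp e) i ∧
    (((D.path G e)[i]? = some x ∧ (D.path G e)[i + 1]? = some y) ∨
      ((D.path G e)[i]? = some y ∧ (D.path G e)[i + 1]? = some x)) := by
  unfold Sys.Ch Sys.chs
  simp only [mem_chords_iff, Prod.mk.injEq, List.getElem?_eq_some_iff]
  constructor
  · rintro (⟨i, hi, h1, h2, h3⟩ | ⟨i, hi, h1, h2, h3⟩)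
    · exact ⟨i, h1, Or.inl ⟨⟨by omega, h2.symm⟩, hi, h3.symm⟩⟩
    · exact ⟨i, h1, Or.inr ⟨⟨by omega, h2.symm⟩, hi, h3.symm⟩⟩
  · rintro ⟨i, h1, ⟨⟨_, h2⟩, hi, h3⟩ | ⟨⟨_, h2⟩, hi, h3⟩⟩
    · exact Or.inl ⟨i, hi, h1, h2.symm, h3.symm⟩
    · exact Or.inr ⟨i, hi, h1, h2.symm, h3.symm⟩

theorem Sys.path_zero (D : Sys ι V α) (G : Gr ι V) (e : ι) :
    (D.path G e)[0]? = some (D.pos (G.s e)) := rfl

theorem Sys.path_last (D : Sys ι V α) (G : Gr ι V) (e : ι) :
    (D.path G e)[(D.mid e).length + 1]? = some (D.pos (G.t e)) := by simp [Sys.path]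

theorem Sys.path_mid {e : ι} {i : ℕ} (h : i < (D.mid e).length) :
    (D.path G e)[i + 1]? = some (D.mid e)[i] := by
  simp [Sys.path, List.getElem?_append_left h]

theorem Sys.mem_mid_iff {e : ι} {y : α} :
    y ∈ D.mid e ↔ ∃ i, 1 ≤ i ∧ i ≤ (D.mid e).length ∧ (D.path G e)[i]? = some y := by
  constructor
  · intro h
    obtain ⟨i, hi, rfl⟩ := List.getElem_of_mem h
    exact ⟨i + 1, by omega, by omega, Sys.path_mid hi⟩
  · rintro ⟨i, h1, h2, h3⟩
    obtain ⟨i, rfl⟩ : ∃ j, i = j + 1 := ⟨i - 1, by omega⟩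
    rw [Sys.path_mid (by omega)] at h3
    exact Option.some.inj h3 ▸ List.getElem_mem _

theorem Sys.path_some {e : ι} {i : ℕ} (h : i ≤ (D.mid e).length + 1) :
    ∃ y, (D.path G e)[i]? = some y :=
  ⟨_, List.getElem?_eq_getElem (by rw [Sys.length_path]; omega)⟩

theorem Sys.le_of_path {e : ι} {i : ℕ} {y : α} (h : (D.path G e)[i]? = some y) :
    i ≤ (D.mid e).length + 1 := by
  obtain ⟨h, -⟩ := List.getElem?_eq_some_iff.1 h
  rw [Sys.length_path] at h; omega

/-- every inner point has a chord on each page -/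
theorem Sys.ch_exists (G : Gr ι V) {e : ι} {y : α} (h : y ∈ D.mid e) (π : Bool) :
    ∃ y', D.Ch G e π y y' := by
  obtain ⟨i, h1, h2, h3⟩ := (Sys.mem_mid_iff (G := G)).1 h
  obtain ⟨i, rfl⟩ : ∃ j, i = j + 1 := ⟨i - 1, by omega⟩
  obtain ⟨a, ha⟩ := Sys.path_some (D := D) (G := G) (e := e) (i := i) (by omega)
  obtain ⟨c, hc⟩ := Sys.path_some (D := D) (G := G) (e := e) (i := i + 1 + 1) (by omega)
  by_cases hp : π = flipN (D.sp e) i
  · exact ⟨a, Sys.ch_iff.2 ⟨i, hp, Or.inr ⟨ha, h3⟩⟩⟩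
  · refine ⟨c, Sys.ch_iff.2 ⟨i + 1, ?_, Or.inl ⟨h3, hc⟩⟩⟩
    rw [flipN_succ]; revert hp; cases π <;> cases flipN (D.sp e) i <;> simp

variable [LinearOrder α] [LinearOrder β]

namespace Sys.Valid

theorem nodup_init (h : D.Valid G) (e : ι) : (D.pos (G.s e) :: D.mid e).Nodup :=
  List.nodup_cons.2 ⟨h.notV e _, h.nodup e⟩

theorem nodup_tail (h : D.Valid G) (e : ι) : (D.mid e ++ [D.pos (G.t e)]).Nodup := by
  rw [List.nodup_append]
  refine ⟨h.nodup e, by simp, fun a ha b hb e' => ?_⟩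
  rw [List.mem_singleton] at hb
  exact h.notV e _ (hb ▸ e' ▸ ha)

/-- a point occurs twice on a path only as the two ends of a loop -/
theorem path_inj (h : D.Valid G) {e : ι} {i j : ℕ} {y : α} (hi : (D.path G e)[i]? = some y)
    (hj : (D.path G e)[j]? = some y) : i = j ∨ (((i = 0 ∧ j = (D.mid e).length + 1) ∨
      (j = 0 ∧ i = (D.mid e).length + 1)) ∧ (D.mid e).length % 2 = 1) := by
  wlog hij : i < j generalizing i j
  · rcases Nat.lt_or_eq_of_le (not_lt.1 hij) with h' | h'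
    · have := this hj hi h'; omega
    · exact Or.inl h'.symm
  have hjl := Sys.le_of_path hj
  by_cases h0 : i = 0
  · by_cases h1 : j = (D.mid e).length + 1
    · subst h0 h1
      rw [Sys.path_zero] at hi
      rw [Sys.path_last, ← hi] at hj
      have := h.odd e (h.inj (Option.some.inj hj)).symm
      exact Or.inr ⟨Or.inl ⟨rfl, rfl⟩, Nat.odd_iff.1 this⟩
    · subst h0
      rw [Sys.path_zero] at hi
      have : y ∈ D.mid e := (Sys.mem_mid_iff (G := G)).2 ⟨j, by omega, by omega, hj⟩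
      exact absurd (Option.some.inj hi ▸ this) (h.notV e _)
  · obtain ⟨i, rfl⟩ : ∃ k, i = k + 1 := ⟨i - 1, by omega⟩
    obtain ⟨j, rfl⟩ : ∃ k, j = k + 1 := ⟨j - 1, by omega⟩
    simp only [Sys.path, List.getElem?_cons_succ] at hi hj
    have := (List.getElem?_inj (by simp; omega) (h.nodup_tail e)).1 (hi.trans hj.symm)
    omega

/-- every point, vertices included, has at most one chord of `e` on each page -/
theorem ch_unique (h : D.Valid G) {e : ι} {π : Bool} {x y y' : α} (h1 : D.Ch G e π x y)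
    (h2 : D.Ch G e π x y') : y = y' := by
  obtain ⟨i, p1, a1⟩ := Sys.ch_iff.1 h1
  obtain ⟨j, p2, a2⟩ := Sys.ch_iff.1 h2
  have hp := (flipN_eq_iff _ _ _).1 (p1.symm.trans p2)
  rcases a1 with ⟨a1, b1⟩ | ⟨a1, b1⟩ <;> rcases a2 with ⟨a2, b2⟩ | ⟨a2, b2⟩
  · have := h.path_inj a1 a2
    have := Sys.le_of_path b1; have := Sys.le_of_path b2
    obtain rfl : i = j := by omega
    exact Option.some.inj (b1.symm.trans b2)
  · have := h.path_inj a1 b2
    have := Sys.le_of_path b1
    omega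
  · have := h.path_inj b1 a2
    have := Sys.le_of_path b2
    omega
  · have := h.path_inj b1 b2
    obtain rfl : i = j := by omega
    exact Option.some.inj (a1.symm.trans a2)

theorem ch_ne (h : D.Valid G) {e : ι} {π : Bool} {x y : α} (h1 : D.Ch G e π x y) : x ≠ y := by
  rintro rfl
  obtain ⟨i, -, a⟩ := Sys.ch_iff.1 h1
  rw [or_self] at a
  have := h.path_inj a.1 a.2
  omega

theorem chs_nodup (h : D.Valid G) (e : ι) : (D.chs G e).Nodup := by
  rw [List.nodup_iff_injective_getElem]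
  rintro ⟨i, hi⟩ ⟨j, hj⟩ hij
  simp only [Sys.chs, getElem_chords, Prod.mk.injEq] at hij
  rw [Sys.length_chs] at hi hj
  have hl := D.length_path G e
  have := h.path_inj (e := e) (i := i) (j := j) (List.getElem?_eq_getElem (by omega))
    (by rw [hij.2.1]; exact List.getElem?_eq_getElem (by omega))
  exact Fin.ext (show i = j by omega)

theorem noCross (h : D.Valid G) {e e' : ι} (he : e = e' ∨ G.H e e') :
    NoCross (D.sp e) (D.path G e) (D.sp e') (D.path G e') := by
  rcases he with rfl | he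
  · exact h.self e
  · exact h.adj e e' he

theorem ch_not_cross (h : D.Valid G) {e e' : ι} (he : e = e' ∨ G.H e e') {π π' : Bool}
    {x y x' y' : α} (h1 : D.Ch G e π x y) (h2 : D.Ch G e' π' x' y') :
    ¬ Cross (π, x, y) (π', x', y') := by
  have := h.noCross he
  rcases h1 with h1 | h1 <;> rcases h2 with h2 | h2
  · exact this _ h1 _ h2
  · rw [cross_swap_right]; exact this _ h1 _ h2
  · rw [cross_swap_left]; exact this _ h1 _ h2
  · rw [cross_swap_left, cross_swap_right]; exact this _ h1 _ h2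

/-- an inner point of `e` is not on the path of another element -/
theorem not_mem_path (h : D.Valid G) {e e' : ι} (he : e ≠ e') {y : α} (hy : y ∈ D.mid e) :
    y ∉ D.path G e' := by
  rw [Sys.mem_path]
  rintro (rfl | h' | rfl)
  · exact h.notV _ _ hy
  · exact h.disj e e' he y hy h'
  · exact h.notV _ _ hy

/-- A sequence joined by chords of alternating pages runs along the path in one direction. -/
theorem strand_index (h : D.Valid G) {e : ι} {b : Bool} {q : ℕ → α} {T : ℕ} (hT : 0 < T)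
    (hc : ∀ t < T, D.Ch G e (flipN b t) (q t) (q (t + 1))) (hm : ∀ t, 0 < t → t < T → q t ∈ D.mid e) :
    ∃ i, (b = flipN (D.sp e) i ∧ ∀ t ≤ T, (D.path G e)[i + t]? = some (q t)) ∨
      (b = flipN (D.sp e) (i + 1) ∧ T ≤ i ∧ ∀ t ≤ T, (D.path G e)[i - t]? = some (q t)) := by
  induction T, hT using Nat.le_induction with
  | base =>
    obtain ⟨i, p, ⟨a1, a2⟩ | ⟨a1, a2⟩⟩ := Sys.ch_iff.1 (hc 0 (by omega))
    · refine ⟨i, Or.inl ⟨p, fun t ht => ?_⟩⟩
      interval_cases t
      · exact a1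
      · exact a2
    · refine ⟨i + 1, Or.inr ⟨?_, by omega, fun t ht => ?_⟩⟩
      · rw [flipN_succ, flipN_succ, Bool.not_not]; exact p
      · interval_cases t
        · exact a2
        · exact a1
  | succ T hT ih =>
    obtain ⟨k, k1, k2, k3⟩ := (Sys.mem_mid_iff (G := G)).1 (hm T hT (by omega))
    obtain ⟨i, ⟨p, a⟩ | ⟨p, hi, a⟩⟩ := ih (fun t ht => hc t (by omega)) fun t h0 ht => hm t h0 (by omega)
    · have e1 : i + T = k := by have := h.path_inj (a T le_rfl) k3; omega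
      obtain ⟨c, hc'⟩ := Sys.path_some (D := D) (G := G) (e := e) (i := i + T + 1) (by omega)
      have : D.Ch G e (flipN b T) (q T) c :=
        Sys.ch_iff.2 ⟨i + T, by rw [flipN_add, ← p], Or.inl ⟨a T le_rfl, hc'⟩⟩
      refine ⟨i, Or.inl ⟨p, fun t ht => ?_⟩⟩
      rcases Nat.lt_or_eq_of_le ht with ht | rfl
      · exact a t (by omega)
      · rw [h.ch_unique (hc T (by omega)) this]; exact hc'
    · have e1 : i - T = k := by have := h.path_inj (a T le_rfl) k3; omega
      obtain ⟨c, hc'⟩ := Sys.path_some (D := D) (G := G) (e := e) (i := i - (T + 1)) (by omega)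
      have : D.Ch G e (flipN b T) (q T) c := by
        refine Sys.ch_iff.2 ⟨i - (T + 1), ?_, Or.inr ⟨hc', ?_⟩⟩
        · rw [p, ← flipN_add, flipN_eq_iff]; omega
        · rw [show i - (T + 1) + 1 = i - T by omega]; exact a T le_rfl
      refine ⟨i, Or.inr ⟨p, by omega, fun t ht => ?_⟩⟩
      rcases Nat.lt_or_eq_of_le ht with ht | rfl
      · exact a t (by omega)
      · rw [h.ch_unique (hc T (by omega)) this]; exact hc'

/-- a strand of inner points does not repeat and is not longer than the path -/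
theorem strand_inj (h : D.Valid G) {e : ι} {b : Bool} {q : ℕ → α} {T : ℕ}
    (hc : ∀ t < T, D.Ch G e (flipN b t) (q t) (q (t + 1))) (hm : ∀ t ≤ T, q t ∈ D.mid e) :
    T < (D.mid e).length ∧ ∀ t ≤ T, ∀ t' ≤ T, q t = q t' → t = t' := by
  rcases Nat.eq_zero_or_pos T with rfl | hT
  · exact ⟨List.length_pos_of_mem (hm 0 le_rfl), fun t ht t' ht' _ => by omega⟩
  have key : ∀ t ≤ T, ∀ k, (D.path G e)[k]? = some (q t) → 1 ≤ k ∧ k ≤ (D.mid e).length := by
    intro t ht k hk
    obtain ⟨k', k1, k2, k3⟩ := (Sys.mem_mid_iff (G := G)).1 (hm t ht)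
    have := h.path_inj hk k3
    omega
  obtain ⟨i, ⟨-, a⟩ | ⟨-, hi, a⟩⟩ := h.strand_index hT hc fun t _ ht => hm t ht.le
  · have h1 := key 0 (by omega) _ (a 0 (by omega))
    have h2 := key T le_rfl _ (a T le_rfl)
    refine ⟨by omega, fun t ht t' ht' e' => ?_⟩
    have := h.path_inj (a t ht) (e' ▸ a t' ht')
    omega
  · have h1 := key 0 (by omega) _ (a 0 (by omega))
    have h2 := key T le_rfl _ (a T le_rfl)
    refine ⟨by omega, fun t ht t' ht' e' => ?_⟩
    have := h.path_inj (a t ht) (e' ▸ a t' ht')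
    omega

end Sys.Valid

theorem Sys.Sep.symm {p q : α} (h : D.Sep p q) : D.Sep q p := by
  obtain ⟨x, hx⟩ := h; exact ⟨x, Or.symm hx⟩

theorem Sys.Reduced.ch_sep (h : D.Reduced G) {e : ι} {π : Bool} {x y : α} (h1 : D.Ch G e π x y) :
    D.Sep x y := by
  rcases h1 with h1 | h1
  · exact h e _ h1
  · exact (h e _ h1).symm

/-- `alg` is the signed number of crossings for elements without common points -/
theorem Sys.alg_eq_XS {f g : ι} (h : ∀ z ∈ D.path G f, z ∉ D.path G g) :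
    D.alg G f g = XS (D.chs G f) (D.chs G g) := by
  have h0 := XS_path (D.sp f) _ _ _ (D.sp g) _ _ _ h
  have h1 := cov_add (D.sp f) (D.pos (G.s f)) (D.mid f) (D.pos (G.t f)) (D.pos (G.t g))
  have h2 := cov_add (D.sp f) (D.pos (G.s f)) (D.mid f) (D.pos (G.t f)) (D.pos (G.s g))
  simp only [Sys.alg, Sys.cv, Sys.chs, Sys.path]
  omega

theorem Sys.SameOrd.ind_eq {D' : Sys ι V β} (h : D.SameOrd D') (x y : V) :
    ind (D'.pos x) (D'.pos y) = ind (D.pos x) (D.pos y) := by
  unfold ind; simp only [h x y]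

theorem Sys.SameOrd.trans {γ : Type} [LinearOrder γ] {D' : Sys ι V β} {D'' : Sys ι V γ}
    (h : D.SameOrd D') (h' : D'.SameOrd D'') : D.SameOrd D'' := fun x y => (h x y).trans (h' x y)

theorem Sys.alg_congr {D' : Sys ι V β} (h : D.SameOrd D') (h' : ∀ e x, D'.cv G e x = D.cv G e x)
    (f g : ι) : D'.alg G f g = D.alg G f g := by
  simp only [Sys.alg, h', h.ind_eq]

end Pool.Agent.MP_17db17_lc.H93
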