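import Pool.Agent.MP_17db17_lc.H93.Model
import Pool.Agent.Shared.H27.TypedNP

set_option autoImplicit false

namespace Pool.Agent.MP_17db17_lc.H93

open Pool.Agent.Shared.H56 Pool.Agent.Shared.H27

/-! ## Cells and chord counts -/

/-- cell of a place: `2j+1` for the `j`-th vertex, `2j` for the open segment before it -/
def cell (vp : List ℤ) (p : ℤ) : ℕ :=
  2 * (vp.filter fun v => decide (v < p)).length + if p ∈ vp then 1 else 0

/-- index of the chord type (page, start cell, end cell) in a table -/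
def code (C : ℕ) (π : Bool) (c c' : ℕ) : ℕ := (π.toNat * C + c) * C + c'

/-- number of chords of type `i` on the path -/
def cnt (vp : List ℤ) (b : Bool) (l : List ℤ) (i : ℕ) : ℕ :=
  ((chords b l).filter fun c =>
    decide (code (2 * vp.length + 1) c.1 (cell vp c.2.1) (cell vp c.2.2) = i)).length

/-- size of a table of chord types -/
def tsz (vp : List ℤ) : ℕ := 2 * (2 * vp.length + 1) * (2 * vp.length + 1)

/-- `cv` at the vertex of rank `j`, read off a table of chord counts; `n` vertices -/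
def cvOf (n : ℕ) (w : List ℕ) (j : ℕ) : ℤ :=
  ((List.range (2 * n + 1)).map fun c => ((List.range (2 * n + 1)).map fun c' =>
    (w.getD (code (2 * n + 1) true c c') 0 : ℤ) *
      ((if 2 * j + 1 < c' then 1 else 0) - (if 2 * j + 1 < c then 1 else 0))).sum).sum

/-- a simple reduced path between two vertices -/
structure PathOK (vp : List ℤ) (b : Bool) (u : ℤ) (m : List ℤ) (v : ℤ) : Prop where
  hu : u ∈ vp
  hv : v ∈ vp
  nodup : m.Nodup
  notV : ∀ y ∈ m, y ∉ vp
  odd : u = v → Odd m.length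
  self : NoCross b (u :: (m ++ [v])) b (u :: (m ++ [v]))
  red : ∀ c ∈ chords b (u :: (m ++ [v])), cell vp c.2.1 ≠ cell vp c.2.2

/-- a drawing of the two elements `e`, `e'` alone, with prescribed chord counts -/
def PairSys {ι V : Type} (G : Gr ι V) (n : ℕ) (rk : V → ℕ) (sp : ι → Bool) (w : ι → List ℕ)
    (e e' : ι) : Prop :=
  ∃ (vp m1 m2 : List ℤ), vp.Pairwise (· < ·) ∧ vp.length = n ∧
    PathOK vp (sp e) (vp.getD (rk (G.s e)) 0) m1 (vp.getD (rk (G.t e)) 0) ∧
    PathOK vp (sp e') (vp.getD (rk (G.s e')) 0) m2 (vp.getD (rk (G.t e')) 0) ∧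
    (e ≠ e' → ∀ y ∈ m1, y ∉ m2) ∧
    NoCross (sp e) (vp.getD (rk (G.s e)) 0 :: (m1 ++ [vp.getD (rk (G.t e)) 0]))
      (sp e') (vp.getD (rk (G.s e')) 0 :: (m2 ++ [vp.getD (rk (G.t e')) 0])) ∧
    (∀ i < tsz vp, cnt vp (sp e) (vp.getD (rk (G.s e)) 0 :: (m1 ++ [vp.getD (rk (G.t e)) 0])) i =
      (w e).getD i 0) ∧
    (∀ i < tsz vp, cnt vp (sp e') (vp.getD (rk (G.s e')) 0 :: (m2 ++ [vp.getD (rk (G.t e')) 0])) i =
      (w e').getD i 0)

/-! ## Blocks, facts, derivations -/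

/-- A block `(π, a, b, W)`: the chords `(a + i, b - i)`, `i < W`, of page `π`. -/
abbrev Block : Type := Bool × ℤ × ℤ × ℕ

/-- `x` and `y` are joined by a chord of page `π` of one of the blocks -/
def BCh (B : List Block) (π : Bool) (x y : ℤ) : Prop :=
  ∃ k ∈ B, k.1 = π ∧ ∃ i < k.2.2.2,
    (x = k.2.1 + i ∧ y = k.2.2.1 - i) ∨ (y = k.2.1 + i ∧ x = k.2.2.1 - i)

/-- `x < y`, or both are the same vertex -/
def leV (vp : List ℤ) (x y : ℤ) : Bool := decide (x < y) || (decide (x = y) && decide (x ∈ vp))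

def blockOK (vp : List ℤ) (k : Block) : Bool :=
  decide (1 ≤ k.2.2.2) && decide (k.2.1 + k.2.2.2 - 1 < k.2.2.1 - k.2.2.2 + 1) &&
  decide (cell vp k.2.1 = cell vp (k.2.1 + k.2.2.2 - 1)) &&
  decide (cell vp k.2.2.1 = cell vp (k.2.2.1 - k.2.2.2 + 1)) &&
  decide (cell vp k.2.1 ≠ cell vp k.2.2.1)

def blockPair (vp : List ℤ) (k k' : Block) : Bool :=
  decide (k = k') || decide (k.1 ≠ k'.1) || leV vp k.2.2.1 k'.2.1 || leV vp k'.2.2.1 k.2.1 ||
  (leV vp (k.2.1 + k.2.2.2 - 1) k'.2.1 && leV vp k'.2.2.1 (k.2.2.1 - k.2.2.2 + 1)) ||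
  (leV vp (k'.2.1 + k'.2.2.2 - 1) k.2.1 && leV vp k.2.2.1 (k'.2.2.1 - k'.2.2.2 + 1))

def blocksOK (vp : List ℤ) (B : List Block) : Bool :=
  B.all fun k => blockOK vp k && B.all fun k' => blockPair vp k k'

/-- One end of a fact: page of the end chord, first place, step, cell. -/
abbrev Side : Type := Bool × ℤ × ℤ × ℕ

/-- A fact: two sides, width, number of chords, table of chord counts. -/
abbrev Fact : Type := Side × Side × ℕ × ℕ × List ℕ

/-- the walk `u :: (m ++ [v])` starting on page `π` uses chords of the blocks and has no inner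
vertex -/
def Walk (vp : List ℤ) (B : List Block) (π : Bool) (u : ℤ) (m : List ℤ) (v : ℤ) : Prop :=
  (∀ c ∈ chords π (u :: (m ++ [v])), BCh B c.1 c.2.1 c.2.2) ∧ ∀ y ∈ m, y ∉ vp

/-- the meaning of a fact -/
def Holds (vp : List ℤ) (B : List Block) (φ : Fact) : Prop :=
  ∀ i < φ.2.2.1, ∃ m : List ℤ,
    Walk vp B φ.1.1 (φ.1.2.1 + φ.1.2.2.1 * i) m (φ.2.1.2.1 + φ.2.1.2.2.1 * i) ∧
    m.length + 1 = φ.2.2.2.1 ∧
    φ.2.1.1 = (if m.length % 2 = 0 then φ.1.1 else !φ.1.1) ∧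
    cell vp (φ.1.2.1 + φ.1.2.2.1 * i) = φ.1.2.2.2 ∧
    cell vp (φ.2.1.2.1 + φ.2.1.2.2.1 * i) = φ.2.1.2.2.2 ∧
    ∀ j < tsz vp, cnt vp φ.1.1
      ((φ.1.2.1 + φ.1.2.2.1 * i) :: (m ++ [φ.2.1.2.1 + φ.2.1.2.2.1 * i])) j = φ.2.2.2.2.getD j 0

def basicF (vp : List ℤ) (k : Block) : Fact :=
  ((k.1, k.2.1, 1, cell vp k.2.1), (k.1, k.2.2.1, -1, cell vp k.2.2.1), k.2.2.2, 1,
    (List.range (tsz vp)).map fun j =>
      if j = code (2 * vp.length + 1) k.1 (cell vp k.2.1) (cell vp k.2.2.1) then 1 else 0)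

/-- index of the reversed chord type -/
def trIdx (C j : ℕ) : ℕ := (j / (C * C) * C + j % C) * C + j / C % C

def swapF (vp : List ℤ) (φ : Fact) : Fact :=
  (φ.2.1, φ.1, φ.2.2.1, φ.2.2.2.1,
    (List.range (tsz vp)).map fun j => φ.2.2.2.2.getD (trIdx (2 * vp.length + 1) j) 0)

/-- the places `o + δ i`, `i < L`, of a fact -/
def subF (φ : Fact) (o δ : ℤ) (L : ℕ) : Fact :=
  ((φ.1.1, φ.1.2.1 + φ.1.2.2.1 * o, φ.1.2.2.1 * δ, φ.1.2.2.2),
    (φ.2.1.1, φ.2.1.2.1 + φ.2.1.2.2.1 * o, φ.2.1.2.2.1 * δ, φ.2.1.2.2.2), L, φ.2.2.2)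

def subOK (φ : Fact) (o δ : ℤ) (L : ℕ) : Bool :=
  decide (0 ≤ o) && decide (o < φ.2.2.1) && decide (0 ≤ o + δ * (L - 1)) &&
    decide (o + δ * (L - 1) < φ.2.2.1)

def compF (vp : List ℤ) (φ ψ : Fact) : Fact :=
  (φ.1, ψ.2.1, φ.2.2.1, φ.2.2.2.1 + ψ.2.2.2.1,
    (List.range (tsz vp)).map fun j => φ.2.2.2.2.getD j 0 + ψ.2.2.2.2.getD j 0)

def compOK (φ ψ : Fact) : Bool :=
  decide (ψ.1 = (!φ.2.1.1, φ.2.1.2)) && decide (φ.2.1.2.2.2 % 2 = 0) &&
    decide (φ.2.2.1 = ψ.2.2.1)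

/-- An entry of a derivation: the fact and the arguments of the rule `subF`. -/
abbrev Entry : Type := Fact × ℤ × ℤ

def stepOK (vp : List ℤ) (B : List Block) (P : List Entry) (x : Entry) : Bool :=
  (B.any fun k => decide (x.1 = basicF vp k)) ||
  P.any fun y => decide (x.1 = swapF vp y.1) ||
    (subOK y.1 x.2.1 x.2.2 x.1.2.2.1 && decide (x.1 = subF y.1 x.2.1 x.2.2 x.1.2.2.1)) ||
    P.any fun z => compOK y.1 z.1 && decide (x.1 = compF vp y.1 z.1)

def derivOK (vp : List ℤ) (B : List Block) (Γ : List Entry) : Bool :=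
  (List.range Γ.length).all fun i =>
    stepOK vp B (Γ.take i) (Γ.getD i (((false, 0, 0, 0), (false, 0, 0, 0), 0, 0, []), 0, 0))

/-- `Γ` contains a fact about a walk from `u` to `v` with table `w` -/
def finalOK (vp : List ℤ) (Γ : List Entry) (b : Bool) (u v : ℤ) (w : List ℕ) : Bool :=
  Γ.any fun x => decide (x.1.1.1 = b) && decide (x.1.1.2.1 = u) && decide (x.1.2.1.2.1 = v) &&
    decide (1 ≤ x.1.2.2.1) && (decide (u ≠ v) || decide (x.1.2.1.1 ≠ b)) &&
    (List.range (tsz vp)).all fun j => decide (x.1.2.2.2.2.getD j 0 = w.getD j 0)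

/-- all numbers of an entry are at most `N` in absolute value -/
def SmallE (vp : List ℤ) (N : ℕ) (x : Entry) : Prop :=
  x.1.1.2.1.natAbs ≤ N ∧ x.1.1.2.2.1.natAbs ≤ N ∧ x.1.1.2.2.2 ≤ N ∧
  x.1.2.1.2.1.natAbs ≤ N ∧ x.1.2.1.2.2.1.natAbs ≤ N ∧ x.1.2.1.2.2.2 ≤ N ∧
  x.1.2.2.1 ≤ N ∧ x.1.2.2.2.1 ≤ N ∧ x.1.2.2.2.2.length ≤ tsz vp ∧
  (∀ y ∈ x.1.2.2.2.2, y ≤ N) ∧ x.2.1.natAbs ≤ N ∧ x.2.2.natAbs ≤ N

/-- The blocks describe a real system of paths on the places `0, …, N - 1`. -/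
structure Packed (vp : List ℤ) (B : List Block) (N : ℕ) : Prop where
  sorted : vp.Pairwise (· < ·)
  ok : blocksOK vp B = true
  vin : ∀ v ∈ vp, 0 ≤ v ∧ v < N
  bin : ∀ π x y, BCh B π x y → 0 ≤ x ∧ x < N
  cover : ∀ x : ℤ, 0 ≤ x → x < N → x ∉ vp → ∀ π, ∃ y, BCh B π x y
  acyc : ∀ π u m v, Walk vp B π u m v → m.Nodup ∧ u ∉ m ∧ v ∉ m ∧ (u = v → u ∈ vp)

/-- bound on the length of a derivation: `k` blocks, `2 ^ lam` places -/
def zB (k lam : ℕ) : ℕ := 100 * (k + lam + 1) ^ 4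

/-! ## The verifier -/

abbrev PC : Type := List ℤ × List Block × List Entry

abbrev Inp : Type := List (List Bool) × ℕ

/-- handles `(A, I)`, twist numbers, ranks of vertices, start pages, tables, pair data -/
abbrev Crt : Type :=
  List (List ℕ × List ℕ) × List ℤ × List ℕ × List Bool × List (List ℕ) × List (List PC)

/-- the edges of `graphOf A` -/
def EL (A : List (List Bool)) : List (ℕ × ℕ) :=
  ((List.range A.length).flatMap fun i => (List.range A.length).map fun j => (i, j)).filter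
    fun p => decide (p.1 < p.2) &&
      ((A.getD p.1 []).getD p.2 false || (A.getD p.2 []).getD p.1 false)

def sN (n : ℕ) (E : List (ℕ × ℕ)) (e : ℕ) : ℕ :=
  if e < E.length then (E.getD e (0, 0)).1 else n + (e - E.length)

def tN (n : ℕ) (E : List (ℕ × ℕ)) (e : ℕ) : ℕ :=
  if e < E.length then (E.getD e (0, 0)).2 else n + (e - E.length)

def adjN (E : List (ℕ × ℕ)) (e e' : ℕ) : Bool :=
  decide (e ≠ e') && (decide ((E.getD e (0, 0)).1 = (E.getD e' (0, 0)).1) ||
    decide ((E.getD e (0, 0)).1 = (E.getD e' (0, 0)).2) ||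
    decide ((E.getD e (0, 0)).2 = (E.getD e' (0, 0)).1) ||
    decide ((E.getD e (0, 0)).2 = (E.getD e' (0, 0)).2))

def HN (E : List (ℕ × ℕ)) (hs : List (List ℕ × List ℕ)) (e e' : ℕ) : Bool :=
  if e < E.length ∧ e' < E.length then adjN E e e' else
    (decide (e < e') && decide (e ∈ (hs.getD (e' - E.length) ([], [])).2)) ||
    (decide (e' < e) && decide (e' ∈ (hs.getD (e - E.length) ([], [])).2))

def pairOK (n' : ℕ) (pc : PC) (b : Bool) (u v : ℕ) (w : List ℕ) (b' : Bool) (u' v' : ℕ)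
    (w' : List ℕ) : Bool :=
  decide (pc.1.length = n') &&
  ((List.range n').all fun i => (List.range n').all fun j =>
    decide (j ≤ i) || decide (pc.1.getD i 0 < pc.1.getD j 0)) &&
  blocksOK pc.1 pc.2.1 && derivOK pc.1 pc.2.1 pc.2.2 &&
  finalOK pc.1 pc.2.2 b (pc.1.getD u 0) (pc.1.getD v 0) w &&
  finalOK pc.1 pc.2.2 b' (pc.1.getD u' 0) (pc.1.getD v' 0) w'

def indN (z p : ℕ) : ℤ := if z < p then 1 else 0

/-- `cv` of element `e` at vertex `x` according to the certificate -/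
def cvC (n' : ℕ) (c : Crt) (e x : ℕ) : ℤ := cvOf n' (c.2.2.2.2.1.getD e []) (c.2.2.1.getD x 0)

/-- the value of `alg f g` after all twists -/
def algC (n : ℕ) (E : List (ℕ × ℕ)) (c : Crt) (f g : ℕ) : ℤ :=
  cvC (n + c.1.length) c g (tN n E f) - cvC (n + c.1.length) c g (sN n E f) -
    cvC (n + c.1.length) c f (tN n E g) + cvC (n + c.1.length) c f (sN n E g) +
    (indN (c.2.2.1.getD (tN n E g) 0) (c.2.2.1.getD (tN n E f) 0) -
      indN (c.2.2.1.getD (tN n E g) 0) (c.2.2.1.getD (sN n E f) 0)) -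
    (indN (c.2.2.1.getD (sN n E g) 0) (c.2.2.1.getD (tN n E f) 0) -
      indN (c.2.2.1.getD (sN n E g) 0) (c.2.2.1.getD (sN n E f) 0)) +
  ((List.range c.1.length).map fun j => c.2.1.getD j 0 *
    (((if f ∈ (c.1.getD j ([], [])).1 then 1 else 0) -
      (if g ∈ (c.1.getD j ([], [])).1 then 1 else 0)) *
    ((cvC (n + c.1.length) c (E.length + j) (tN n E f) -
        cvC (n + c.1.length) c (E.length + j) (sN n E f)) *
      (cvC (n + c.1.length) c (E.length + j) (tN n E g) -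
        cvC (n + c.1.length) c (E.length + j) (sN n E g))))).sum

def check (n : ℕ) (E : List (ℕ × ℕ)) (k : ℕ) (c : Crt) : Bool :=
  ((List.range (n + c.1.length)).all fun x => decide (c.2.2.1.getD x 0 < n + c.1.length) &&
    (List.range (n + c.1.length)).all fun y =>
      decide (x = y) || decide (c.2.2.1.getD x 0 ≠ c.2.2.1.getD y 0)) &&
  ((List.range c.1.length).all fun j => (List.range (E.length + j)).all fun e =>
    !decide (e ∈ (c.1.getD j ([], [])).1) || (!decide (e ∈ (c.1.getD j ([], [])).2) &&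
      (List.range (E.length + j)).all fun e' => !HN E c.1 e e' ||
        decide (e' ∈ (c.1.getD j ([], [])).1) || decide (e' ∈ (c.1.getD j ([], [])).2))) &&
  ((List.range (E.length + c.1.length)).all fun e =>
    (List.range (E.length + c.1.length)).all fun e' =>
      !(decide (e = e') || HN E c.1 e e') ||
      pairOK (n + c.1.length) ((c.2.2.2.2.2.getD e []).getD e' ([], [], []))
        (c.2.2.2.1.getD e false) (c.2.2.1.getD (sN n E e) 0) (c.2.2.1.getD (tN n E e) 0)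
        (c.2.2.2.2.1.getD e [])
        (c.2.2.2.1.getD e' false) (c.2.2.1.getD (sN n E e') 0) (c.2.2.1.getD (tN n E e') 0)
        (c.2.2.2.2.1.getD e' [])) &&
  decide (((List.range E.length).map fun f => ((List.range E.length).map fun g =>
    if sN n E f < sN n E g ∧ adjN E f g = false then (algC n E c f g).natAbs else 0).sum).sum ≤ k)

/-- the numbered graph of an edge list -/
def ngOf (n : ℕ) (E : List (ℕ × ℕ)) (h : ∀ p ∈ E, p.1 < n ∧ p.2 < n) : NG where
  m := E.length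
  n := n
  s e := (E.getD e (0, 0)).1
  t e := (E.getD e (0, 0)).2
  H e e' := adjN E e e' = true
  hs e he := by rw [List.getD_eq_getElem _ _ he]; exact (h _ (List.getElem_mem he)).1
  ht e he := by rw [List.getD_eq_getElem _ _ he]; exact (h _ (List.getElem_mem he)).2

/-! ## The hardness gadget -/

/-- three terminal multiway cut; the terminals are `0, 1, 2` -/
def MWC (E : List (ℕ × ℕ)) (κ : ℕ) : Prop :=
  ∃ lab : ℕ → Fin 3, lab 0 = 0 ∧ lab 1 = 1 ∧ lab 2 = 2 ∧
    (E.filter fun p => decide (lab p.1 ≠ lab p.2)).length ≤ κ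

/-- multiplicity of the frame -/
def gOm (l : ℕ) : ℕ := 9 * l * l + l + 1

/-- ends of the twelve bundles; `0, 1` are the poles, `2, 3, 4` the middles of the walls and
`5, 6, 7` the terminals -/
def bund : List (ℕ × ℕ) :=
  [(0, 2), (0, 3), (0, 4), (1, 2), (1, 3), (1, 4), (2, 5), (5, 3), (3, 6), (6, 4), (4, 7), (7, 2)]

/-- number of vertices of the gadget graph for `l` light edges: five frame vertices, `3 + 2 l`
vertices of the cut instance, two inner vertices for each light edge, the middles of bundles -/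
def gN (l : ℕ) : ℕ := 8 + 4 * l + 12 * gOm l

/-- inner vertex `j` of light edge `e` -/
def gZ (l e j : ℕ) : ℕ := 8 + 2 * l + 2 * e + j

/-- middle vertex of copy `r` of bundle `h` -/
def gM (l h r : ℕ) : ℕ := 8 + 4 * l + 12 * r + h

def gEdges (E : List (ℕ × ℕ)) : List (ℕ × ℕ) :=
  ((List.range E.length).flatMap fun e =>
    [(5 + (E.getD e (0, 0)).1, gZ E.length e 0), (gZ E.length e 0, gZ E.length e 1),
      (5 + (E.getD e (0, 0)).2, gZ E.length e 1)]) ++
  (List.range (gOm E.length)).flatMap fun r => (List.range 12).flatMap fun h =>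
    [((bund.getD h (0, 0)).1, gM E.length h r), ((bund.getD h (0, 0)).2, gM E.length h r)]

def gMat (E : List (ℕ × ℕ)) : List (List Bool) :=
  (List.range (gN E.length)).map fun i => (List.range (gN E.length)).map fun j =>
    decide ((i, j) ∈ gEdges E)

def gK (E : List (ℕ × ℕ)) (κ : ℕ) : ℕ := gOm E.length * κ + 9 * E.length * E.length

end Pool.Agent.MP_17db17_lc.H93
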