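import Pool.Agent.MP_17db17_lc.H93.Basic

set_option autoImplicit false

namespace Pool.Agent.MP_17db17_lc.H93

namespace Clo

/-- ends and pages of the chords of a path -/
theorem mem_chords_page {b : Bool} {x y : ℤ} {m : List ℤ} {c : Chord ℤ}
    (h : c ∈ chords b (x :: (m ++ [y]))) :
    ((c.2.1 = x ∧ c.1 = b) ∨ c.2.1 ∈ m) ∧
      (c.2.2 ∈ m ∨ (c.2.2 = y ∧ c.1 = flipN b m.length)) := by
  induction m generalizing b x with
  | nil => simp at h; simp [h]
  | cons z m ih =>
    simp only [List.cons_append, chords_cons_cons, List.mem_cons] at h ⊢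
    rcases h with rfl | h
    · simp
    · have := ih h
      rw [flipN_not] at this
      rw [List.length_cons, flipN_succ]
      tauto

theorem lower_ends {x y : ℤ} {m : List ℤ} {c : Chord ℤ} (hm : m.length % 2 = 0)
    (h : c ∈ chords true (x :: (m ++ [y]))) (hc : c.1 = false) : c.2.1 ∈ m ∧ c.2.2 ∈ m := by
  have := mem_chords_page h
  simp only [flipN, hm, if_true, hc, Bool.false_eq_true, and_false, false_or, or_false] at this
  exact this

/-- `d` is a chord of one of the pieces, up to direction -/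
def Old (S : List (Piece ℤ)) (d : Chord ℤ) : Prop :=
  ∃ p ∈ S, d ∈ p.chs ∨ (d.1, d.2.2, d.2.1) ∈ p.chs

/-- no chord of the pieces crosses `c` -/
def Far (S : List (Piece ℤ)) (c : Chord ℤ) : Prop := ∀ p ∈ S, ∀ d ∈ p.chs, ¬ Cross d c

/-- `y` can be joined to the window on the lower page along the pieces -/
def Port (a a' : ℤ) (S : List (Piece ℤ)) (y : ℤ) : Prop :=
  (∃ p ∈ S, y ∈ p.l) ∧ ∃ s, InW a a' s ∧ ∀ c, Far S c → ¬ Cross (false, s, y) c

theorem Old.not_cross {S : List (Piece ℤ)} {d c : Chord ℤ} (h : Old S d) (hc : Far S c) :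
    ¬ Cross d c := by
  obtain ⟨p, hp, h | h⟩ := h
  · exact hc p hp d h
  · have := hc p hp _ h
    rwa [cross_swap_left] at this

theorem Old.far {S : List (Piece ℤ)} (hS : ∀ p ∈ S, ∀ q ∈ S, NoCross p.1 p.l q.1 q.l)
    {d : Chord ℤ} (h : Old S d) : Far S d := by
  intro q hq c hc
  obtain ⟨p, hp, h | h⟩ := h
  · exact hS q hq p hp c hc d h
  · have := hS q hq p hp c hc _ h
    rwa [cross_swap_right] at this

theorem Old.mono {S S' : List (Piece ℤ)} (hS : ∀ p ∈ S, p ∈ S') {d : Chord ℤ} (h : Old S d) :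
    Old S' d := by
  obtain ⟨p, hp, h⟩ := h
  exact ⟨p, hS p hp, h⟩

theorem Port.mono {a a' : ℤ} {S S' : List (Piece ℤ)} (hS : ∀ p ∈ S, p ∈ S') {y : ℤ}
    (h : Port a a' S y) : Port a a' S' y := by
  obtain ⟨⟨p, hp, h1⟩, s, hs, h2⟩ := h
  exact ⟨⟨p, hS p hp, h1⟩, s, hs, fun c hc => h2 c fun q hq => hc q (hS q hq)⟩

theorem join {a a' s t u v : ℤ} {c : Chord ℤ} (hs : InW a a' s) (ht : InW a a' t)
    (h1 : ¬ InW a a' c.2.1) (h2 : ¬ InW a a' c.2.2) (h3 : c.2.1 ≠ u) (h4 : c.2.1 ≠ v)
    (h5 : c.2.2 ≠ u) (h6 : c.2.2 ≠ v) (h7 : ¬ Cross (false, s, u) c)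
    (h8 : ¬ Cross (false, t, v) c) : ¬ Cross (false, u, v) c := by
  obtain ⟨π, r, r'⟩ := c
  cases π
  · dsimp only at h1 h2 h3 h4 h5 h6
    have k : ∀ y, ¬ InW a a' y → y ≠ s ∧ y ≠ t ∧ ind y s = ind y t := by
      intro y hy
      refine ⟨fun e => hy (e ▸ hs), fun e => hy (e ▸ ht), ?_⟩
      simp only [InW, ind] at hs ht hy ⊢
      split_ifs <;> omega
    obtain ⟨a1, a2, a3⟩ := k r h1
    obtain ⟨b1, b2, b3⟩ := k r' h2
    rw [not_cross_iff a1 h3 b1 h5] at h7
    rw [not_cross_iff a2 h4 b2 h6] at h8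
    rw [not_cross_iff h3 h4 h5 h6]
    omega
  · simp [Cross]

theorem closing_of {a a' : ℤ} {S : List (Piece ℤ)} {z : ℤ} {m : List ℤ}
    (hS : ∀ p ∈ S, ∀ q ∈ S, NoCross p.1 p.l q.1 q.l) (hodd : Odd m.length)
    (hnd : (z :: m).Nodup) (hsub : ∀ y ∈ z :: m, ∃ p ∈ S, y ∈ p.l) (E : List ℤ)
    (hE : ∀ y ∈ E, Port a a' S y) (N : List (Chord ℤ))
    (hN : ∀ d ∈ N, d.1 = false ∧ d.2.1 ∈ E ∧ d.2.2 ∈ E)
    (hNN : ∀ d ∈ N, ∀ d' ∈ N, ¬ Cross d d')
    (hch : ∀ d ∈ chords true (z :: (m ++ [z])), d ∈ N ∨ (Old S d ∧ (d.1 = false →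
      d.2.1 ∉ E ∧ d.2.2 ∉ E ∧ ¬ InW a a' d.2.1 ∧ ¬ InW a a' d.2.2))) :
    Closing a a' S z m := by
  have key : ∀ d ∈ N, ∀ c : Chord ℤ, c.2.1 ∉ E → c.2.2 ∉ E → ¬ InW a a' c.2.1 →
      ¬ InW a a' c.2.2 → Far S c → ¬ Cross d c := by
    rintro ⟨π, u, v⟩ hd c h1 h2 h3 h4 h5
    obtain ⟨e, hu, hv⟩ := hN _ hd
    dsimp only at e hu hv
    subst e
    obtain ⟨-, s, hs, hs'⟩ := hE u hu
    obtain ⟨-, t, ht, ht'⟩ := hE v hv
    exact join hs ht h3 h4 (fun e => h1 (e ▸ hu)) (fun e => h1 (e ▸ hv)) (fun e => h2 (e ▸ hu))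
      (fun e => h2 (e ▸ hv)) (hs' c h5) (ht' c h5)
  have key2 : ∀ d ∈ N, ∀ c : Chord ℤ, Old S c → (c.1 = false →
      c.2.1 ∉ E ∧ c.2.2 ∉ E ∧ ¬ InW a a' c.2.1 ∧ ¬ InW a a' c.2.2) → ¬ Cross d c := by
    intro d hd c h1 h2 hx
    obtain ⟨g1, g2, g3, g4⟩ := h2 (hx.1.symm.trans (hN d hd).1)
    exact key d hd c g1 g2 g3 g4 (h1.far hS) hx
  refine ⟨hodd, hnd, hsub, fun c hc d hd => ?_, fun c h1 h2 h3 d hd => ?_⟩
  · rcases hch c hc with h | ⟨h, h'⟩ <;> rcases hch d hd with g | ⟨g, g'⟩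
    · exact hNN c h d g
    · exact key2 c h d g g'
    · exact fun hx => key2 d g c h h' (cross_symm hx)
    · exact h.not_cross (g.far hS)
  · have hf : Far S c := fun p hp => (h3 p hp).2.2
    rcases hch d hd with g | ⟨g, -⟩
    · refine key d g c (fun he => ?_) (fun he => ?_) h1 h2 hf
      · obtain ⟨⟨p, hp, h⟩, -⟩ := hE _ he
        exact (h3 p hp).1 h
      · obtain ⟨⟨p, hp, h⟩, -⟩ := hE _ he
        exact (h3 p hp).2.1 h
    · exact g.not_cross hf

/-- the part of a piece from its first to its last upper chord, in one of the two directions -/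
structure Arc (a a' : ℤ) (p : Piece ℤ) (u : ℤ) (M : List ℤ) (v : ℤ) (δ : ℤ) : Prop where
  even : M.length % 2 = 0
  nodup : (u :: (M ++ [v])).Nodup
  sub : ∀ y ∈ u :: (M ++ [v]),
    y ∈ p.2.2.1 ∨ (y = p.2.1 ∧ p.1 = true) ∨ (y = p.2.2.2 ∧ p.lastPage = true)
  inner : ∀ y ∈ M, y ∈ p.2.2.1
  old : ∀ c ∈ chords true (u :: (M ++ [v])), Old [p] c
  cov : ∀ x, cov true true (u :: (M ++ [v])) x = δ * cov true p.1 p.l x
  pu : Port a a' [p] u
  pv : Port a a' [p] v

theorem Arc.mem_l {a a' : ℤ} {p : Piece ℤ} {u v δ : ℤ} {M : List ℤ} (h : Arc a a' p u M v δ)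
    {y : ℤ} (hy : y ∈ u :: (M ++ [v])) : y ∈ p.l := by
  rcases h.sub y hy with g | ⟨g, -⟩ | ⟨g, -⟩ <;> simp [Piece.l, g]

theorem Arc.rev {a a' : ℤ} {p : Piece ℤ} {u v δ : ℤ} {M : List ℤ} (h : Arc a a' p u M v δ) :
    Arc a a' p v M.reverse u (-δ) := by
  have e : v :: (M.reverse ++ [u]) = (u :: (M ++ [v])).reverse := by simp
  have f : flipN true (u :: (M ++ [v])).length = true := by
    have := h.even
    unfold flipN
    rw [if_pos (by simp; omega)]
  refine ⟨by simpa using h.even, ?_, ?_, fun y hy => h.inner y (by simpa using hy), ?_, ?_,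
    h.pv, h.pu⟩
  · rw [e]; exact List.nodup_reverse.2 h.nodup
  · intro y hy
    rw [e, List.mem_reverse] at hy
    exact h.sub y hy
  · intro c hc
    have g := chords_reverse true (u :: (M ++ [v]))
    rw [f] at g
    rw [e, g, List.mem_reverse, List.mem_map] at hc
    obtain ⟨d, hd, rfl⟩ := hc
    obtain ⟨q, hq, g⟩ := h.old d hd
    exact ⟨q, hq, g.symm⟩
  · intro x
    have g := cov_reverse true true (u :: (M ++ [v])) x
    rw [f] at g
    rw [e, g, h.cov]
    ring

theorem port_self {a a' : ℤ} {p : Piece ℤ} {y : ℤ} (h : y ∈ p.l) (hy : InW a a' y) :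
    Port a a' [p] y :=
  ⟨⟨p, by simp, h⟩, y, hy, fun _ _ hx => hx.ne.1 rfl⟩

theorem port_old {a a' : ℤ} {p : Piece ℤ} {y s : ℤ} (h : y ∈ p.l) (hs : InW a a' s)
    (ho : Old [p] (false, s, y)) : Port a a' [p] y :=
  ⟨⟨p, by simp, h⟩, s, hs, fun _ hc => ho.not_cross hc⟩

theorem old_of_mem {p : Piece ℤ} {c : Chord ℤ} (h : c ∈ p.chs) : Old [p] c :=
  ⟨p, by simp, Or.inl h⟩

theorem exists_arc {a a' : ℤ} {p : Piece ℤ} (hp : Slit a a' p) (hn : p.l.Nodup) :
    ∃ u M v, Arc a a' p u M v 1 := by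
  obtain ⟨b, s, m, t⟩ := p
  obtain ⟨hs, ht, -, hne⟩ := hp
  dsimp only at hs ht hne
  rcases Nat.mod_two_eq_zero_or_one m.length with hm | hm <;> cases b
  · -- first and last chord on the lower page
    obtain ⟨u, m1, rfl⟩ := List.exists_cons_of_ne_nil hne
    have hne1 : m1 ≠ [] := by rintro rfl; simp at hm
    obtain ⟨M, v, rfl⟩ : ∃ M v, m1 = M ++ [v] :=
      ⟨m1.dropLast, m1.getLast hne1, (List.dropLast_append_getLast hne1).symm⟩
    have hM : M.length % 2 = 0 := by simp at hm; omega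
    have e : Piece.chs (false, s, u :: (M ++ [v]), t) =
        (false, s, u) :: (chords true (u :: (M ++ [v])) ++ [(false, v, t)]) := by
      have g := chords_concat true (u :: M) v t
      have f : flipN true (u :: M).length = false := by
        unfold flipN
        rw [if_neg (by simp; omega)]; rfl
      rw [f] at g
      simp only [Piece.chs, Piece.l, List.cons_append, chords_cons_cons, List.append_assoc,
        Bool.not_false, List.nil_append] at g ⊢
      rw [g]
    refine ⟨u, M, v, hM, ?_, fun y hy => Or.inl hy, fun y hy => by simp [hy],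
      fun c hc => old_of_mem (by rw [e]; simp [hc]), fun x => ?_,
      port_old (by simp [Piece.l]) hs (old_of_mem (by rw [e]; simp)),
      port_old (by simp [Piece.l]) ht ⟨_, List.mem_singleton_self _, Or.inr (by rw [e]; simp)⟩⟩
    · exact hn.sublist ((List.sublist_append_left _ _).trans (List.sublist_cons_self _ _))
    · change _ = 1 * covL true (Piece.chs (false, s, u :: (M ++ [v]), t)) x
      rw [e]
      simp [covL_cons, H93.cov]
  · -- both on the upper page
    refine ⟨s, m, t, hm, hn, fun y hy => ?_, fun y hy => hy, fun c hc => old_of_mem hc,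
      fun x => by simp [Piece.l], port_self (by simp [Piece.l]) hs,
      port_self (by simp [Piece.l]) ht⟩
    simp only [List.mem_cons, List.mem_append, List.not_mem_nil, or_false] at hy
    simp only [Piece.lastPage, hm, if_true, and_true]
    tauto
  · -- first lower, last upper
    obtain ⟨u, M, rfl⟩ := List.exists_cons_of_ne_nil hne
    have hM : M.length % 2 = 0 := by simp at hm; omega
    have e : Piece.chs (false, s, u :: M, t) = (false, s, u) :: chords true (u :: (M ++ [t])) := by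
      simp [Piece.chs, Piece.l]
    refine ⟨u, M, t, hM, ?_, fun y hy => ?_, fun y hy => by simp [hy],
      fun c hc => old_of_mem (by rw [e]; simp [hc]), fun x => ?_,
      port_old (by simp [Piece.l]) hs (old_of_mem (by rw [e]; simp)),
      port_self (by simp [Piece.l]) ht⟩
    · exact hn.sublist (List.sublist_cons_self _ _)
    · simp only [List.mem_cons, List.mem_append, List.not_mem_nil, or_false] at hy
      simp only [Piece.lastPage, hm, List.mem_cons]
      simp only [one_ne_zero, if_false, Bool.not_false, and_true]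
      tauto
    · change _ = 1 * covL true (Piece.chs (false, s, u :: M, t)) x
      rw [e]
      simp [covL_cons, H93.cov]
  · -- first upper, last lower
    obtain ⟨M, v, rfl⟩ : ∃ M v, m = M ++ [v] :=
      ⟨m.dropLast, m.getLast hne, (List.dropLast_append_getLast hne).symm⟩
    have hM : M.length % 2 = 0 := by simp at hm; omega
    have e : Piece.chs (true, s, M ++ [v], t) =
        chords true (s :: (M ++ [v])) ++ [(false, v, t)] := by
      have g := chords_concat true (s :: M) v t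
      have f : flipN true (s :: M).length = false := by
        unfold flipN
        rw [if_neg (by simp; omega)]; rfl
      rw [f] at g
      simp only [Piece.chs, Piece.l, List.cons_append, List.append_assoc,
        List.nil_append] at g ⊢
      rw [g]
    refine ⟨s, M, v, hM, ?_, fun y hy => ?_, fun y hy => by simp [hy],
      fun c hc => old_of_mem (by rw [e]; simp [hc]), fun x => ?_,
      port_self (by simp [Piece.l]) hs,
      port_old (by simp [Piece.l]) ht ⟨_, List.mem_singleton_self _, Or.inr (by rw [e]; simp)⟩⟩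
    · exact hn.sublist ((List.sublist_append_left _ _).cons_cons _)
    · simp only [List.mem_cons] at hy
      simp only [and_true]
      tauto
    · change _ = 1 * covL true (Piece.chs (true, s, M ++ [v], t)) x
      rw [e]
      simp [covL_cons, H93.cov]

theorem chords_close {u v : ℤ} {M : List ℤ} (hM : M.length % 2 = 0) (w : ℤ) (l : List ℤ) :
    chords true (u :: ((M ++ [v]) ++ w :: l)) =
      chords true (u :: (M ++ [v])) ++ (false, v, w) :: chords true (w :: l) := by
  have g := chords_append true (u :: M) v (w :: l)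
  have f : flipN true (u :: M).length = false := by
    unfold flipN
    rw [if_neg (by simp; omega)]; rfl
  rw [f] at g
  simpa using g

theorem Arc.not_mem {a a' : ℤ} {p : Piece ℤ} {u v δ : ℤ} {M : List ℤ} (h : Arc a a' p u M v δ)
    {y : ℤ} (hy : y ∈ M) : y ≠ u ∧ y ≠ v := by
  have := h.nodup
  simp only [List.nodup_cons, List.mem_append, List.nodup_append] at this
  exact ⟨fun e => this.1 (Or.inl (e ▸ hy)), this.2.2.2 y hy v (by simp)⟩

theorem one {a a' : ℤ} {p : Piece ℤ} (hp : Slit a a' p) (hn : p.l.Nodup)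
    (hc : NoCross p.1 p.l p.1 p.l) : ∃ z m, Closing a a' [p] z m ∧ ∀ x, ¬ InW a a' x →
      cov true true (z :: (m ++ [z])) x = cov true p.1 p.l x := by
  obtain ⟨u, M, v, h⟩ := exists_arc hp hn
  have e := chords_close (u := u) (v := v) h.even u []
  refine ⟨u, M ++ [v], closing_of (by simpa using hc) ?_ h.nodup
    (fun y hy => ⟨p, by simp, h.mem_l hy⟩) [u, v] (by simpa using ⟨h.pu, h.pv⟩) [(false, v, u)]
    (by simp) ?_ ?_, fun x _ => ?_⟩
  · have := h.even
    rw [Nat.odd_iff]; simp; omega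
  · intro d hd d' hd' hx
    rw [List.mem_singleton] at hd hd'
    subst hd hd'
    exact hx.ne.2.2.1 rfl
  · intro d hd
    rw [e, List.mem_append] at hd
    rcases hd with hd | hd
    · refine Or.inr ⟨h.old d hd, fun h0 => ?_⟩
      obtain ⟨g1, g2⟩ := lower_ends h.even hd h0
      exact ⟨by simpa using h.not_mem g1, by simpa using h.not_mem g2,
        hp.out _ (h.inner _ g1), hp.out _ (h.inner _ g2)⟩
    · exact Or.inl (by simpa using hd)
  · have := h.cov x
    unfold H93.cov at this ⊢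
    rw [e]
    simp [covL_cons, this]

theorem two_of {a a' : ℤ} {p q : Piece ℤ} (hp : Slit a a' p) (hq : Slit a a' q)
    (hS : ∀ r ∈ [p, q], ∀ r' ∈ [p, q], NoCross r.1 r.l r'.1 r'.l)
    {u v w z δ : ℤ} {M M' : List ℤ} (h : Arc a a' p u M v 1) (g : Arc a a' q w M' z δ)
    (hd : ∀ y ∈ u :: (M ++ [v]), y ∉ w :: (M' ++ [z]))
    (hx : ¬ Cross (false, v, w) (false, z, u)) :
    Closing a a' [p, q] u ((M ++ [v]) ++ w :: (M' ++ [z])) ∧ ∀ x,
      cov true true (u :: (((M ++ [v]) ++ w :: (M' ++ [z])) ++ [u])) x =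
        cov true p.1 p.l x + δ * cov true q.1 q.l x := by
  have e : chords true (u :: (((M ++ [v]) ++ w :: (M' ++ [z])) ++ [u])) =
      chords true (u :: (M ++ [v])) ++ (false, v, w) ::
        (chords true (w :: (M' ++ [z])) ++ [(false, z, u)]) := by
    rw [List.append_assoc, List.cons_append, chords_close h.even, chords_close g.even]
    simp
  have m1 : ∀ r ∈ [p], r ∈ [p, q] := by simp
  have m2 : ∀ r ∈ [q], r ∈ [p, q] := by simp
  refine ⟨closing_of hS ?_ ?_ ?_ [u, v, w, z] ?_ [(false, v, w), (false, z, u)] (by simp) ?_ ?_,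
    fun x => ?_⟩
  · have := h.even
    have := g.even
    rw [Nat.odd_iff]; simp; omega
  · rw [← List.cons_append, List.nodup_append]
    exact ⟨h.nodup, g.nodup, fun y hy y' hy' e => hd y hy (e ▸ hy')⟩
  · intro y hy
    rw [← List.cons_append, List.mem_append] at hy
    rcases hy with hy | hy
    · exact ⟨p, by simp, h.mem_l hy⟩
    · exact ⟨q, by simp, g.mem_l hy⟩
  · simpa using ⟨h.pu.mono m1, h.pv.mono m1, g.pu.mono m2, g.pv.mono m2⟩
  · intro d hd d' hd' hx'
    simp only [List.mem_cons, List.not_mem_nil, or_false] at hd hd'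
    rcases hd with rfl | rfl <;> rcases hd' with rfl | rfl
    · exact hx'.ne.2.2.1 rfl
    · exact hx hx'
    · exact hx (cross_symm hx')
    · exact hx'.ne.2.2.1 rfl
  · have k1 : ∀ y ∈ M, y ∉ [u, v, w, z] := by
      intro y hy
      have h1 := h.not_mem hy
      have h2 := hd y (by simp [hy])
      simp only [List.mem_cons, List.mem_append, List.not_mem_nil, or_false] at h2 ⊢
      tauto
    have k2 : ∀ y ∈ M', y ∉ [u, v, w, z] := by
      intro y hy
      have h1 := g.not_mem hy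
      have h2 : y ∉ u :: (M ++ [v]) := fun h3 => hd y h3 (by simp [hy])
      simp only [List.mem_cons, List.mem_append, List.not_mem_nil, or_false] at h2 ⊢
      tauto
    intro d hd
    rw [e] at hd
    simp only [List.mem_append, List.mem_cons, List.not_mem_nil, or_false] at hd
    rcases hd with hd | hd | hd | hd
    · refine Or.inr ⟨(h.old d hd).mono m1, fun h0 => ?_⟩
      obtain ⟨g1, g2⟩ := lower_ends h.even hd h0
      exact ⟨k1 _ g1, k1 _ g2, hp.out _ (h.inner _ g1), hp.out _ (h.inner _ g2)⟩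
    · exact Or.inl (by simp [hd])
    · refine Or.inr ⟨(g.old d hd).mono m2, fun h0 => ?_⟩
      obtain ⟨g1, g2⟩ := lower_ends g.even hd h0
      exact ⟨k2 _ g1, k2 _ g2, hq.out _ (g.inner _ g1), hq.out _ (g.inner _ g2)⟩
    · exact Or.inl (by simp [hd])
  · have h1 := h.cov x
    have h2 := g.cov x
    unfold H93.cov at h1 h2 ⊢
    rw [e]
    simp [covL_cons, h1, h2]

theorem pairing {u v w z : ℤ} (h : Cross (false, v, w) (false, z, u)) :
    ¬ Cross (false, v, z) (false, w, u) := by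
  simp only [Cross, Btw, Out, true_and] at *
  omega

end Clo

theorem clo : CloseStmt := by
  refine ⟨fun a a' p hp hn hc => Clo.one hp hn hc,
    fun a a' p q hp hq np nq cp cq cpq hd h1 h2 h3 h4 => ?_⟩
  obtain ⟨u, M, v, h⟩ := Clo.exists_arc hp np
  obtain ⟨w, M', z, g⟩ := Clo.exists_arc hq nq
  have hS : ∀ r ∈ [p, q], ∀ r' ∈ [p, q], NoCross r.1 r.l r'.1 r'.l := by
    simpa using ⟨⟨cp, cpq⟩, cpq.symm, cq⟩
  have hdis : ∀ y ∈ u :: (M ++ [v]), y ∉ w :: (M' ++ [z]) := by
    intro y hy hy'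
    rcases h.sub y hy with k | ⟨k, k'⟩ | ⟨k, k'⟩ <;>
      rcases g.sub y hy' with j | ⟨j, j'⟩ | ⟨j, j'⟩
    · exact hd y k j
    · exact hp.out y k (j ▸ hq.s)
    · exact hp.out y k (j ▸ hq.t)
    · exact hq.out y j (k ▸ hp.s)
    · exact h1 (k.symm.trans j)
    · exact h2 (k.symm.trans j)
    · exact hq.out y j (k ▸ hp.t)
    · exact h4 (k.symm.trans j) (k'.trans j'.symm)
    · exact h3 (k.symm.trans j)
  by_cases hx : Cross (false, v, w) (false, z, u)
  · have := Clo.two_of hp hq hS h g.rev (fun y hy hy' => hdis y hy (by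
      simp only [List.mem_cons, List.mem_append, List.mem_reverse, List.not_mem_nil,
        or_false] at hy' ⊢
      tauto)) (Clo.pairing hx)
    exact ⟨_, _, this.1, -1, Or.inr rfl, fun x _ => this.2 x⟩
  · have := Clo.two_of hp hq hS h g hdis hx
    exact ⟨_, _, this.1, 1, Or.inl rfl, fun x _ => this.2 x⟩

end Pool.Agent.MP_17db17_lc.H93
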