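import Pool.Agent.MP_17db17_lc.H93.Basic

set_option autoImplicit false

namespace Pool.Agent.MP_17db17_lc.H93

namespace Comb

/-- refined places -/
abbrev PP : Type := ℤ ×ₗ ℤ

def pp (x a : ℤ) : PP := toLex (x, a)

theorem pp_lt {x a y b : ℤ} : pp x a < pp y b ↔ x < y ∨ (x = y ∧ a < b) :=
  Prod.Lex.toLex_lt_toLex

theorem pp_inj {x a y b : ℤ} : pp x a = pp y b ↔ x = y ∧ a = b := by simp [pp]

def emb (x : ℤ) : PP := pp x 0

theorem emb_mono : StrictMono emb := fun _ _ h => pp_lt.2 (Or.inl h)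

theorem emb_lt {x y : ℤ} : emb x < emb y ↔ x < y := emb_mono.lt_iff_lt

theorem pp_lt' {x a b : ℤ} : pp x a < pp x b ↔ a < b := by simp [pp_lt]

theorem emb_lt_pp {x w a : ℤ} (h : x ≠ w) : emb x < pp w a ↔ x < w := by simp [emb, pp_lt, h]

theorem pp_lt_emb {x w a : ℤ} (h : x ≠ w) : pp w a < emb x ↔ w < x := by simp [emb, pp_lt, h.symm]

theorem emb_lt_pp' {w a : ℤ} : emb w < pp w a ↔ 0 < a := pp_lt'

theorem pp_lt_emb' {w a : ℤ} : pp w a < emb w ↔ a < 0 := pp_lt'

/-- the three chords that replace a chord from `y` to `β` -/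
def TC (π : Bool) (y β w a : ℤ) : List (Chord PP) :=
  [(π, emb y, pp w (-a)), (!π, pp w (-a), pp w a), (π, pp w a, emb β)]

/-- a chord from `y` to `β` that crosses the chord from `z` to `w`, with its offset -/
def Tok (z w y β a : ℤ) : Prop :=
  (z < y ∧ y < w ∧ (β < z ∨ w < β) ∧ 0 < a) ∨ (w < y ∧ y < z ∧ (β < w ∨ z < β) ∧ a < 0)

theorem Tok.ne {z w y β a : ℤ} (h : Tok z w y β a) : y ≠ w ∧ β ≠ w ∧ z ≠ w ∧ a ≠ 0 := by
  unfold Tok at h; omega

theorem tok_other {π π' : Bool} {z w y β a r s : ℤ} (h : Tok z w y β a) (hr : r ≠ w) (hs : s ≠ w)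
    (h1 : ¬ Cross (π, y, β) (π', r, s)) (h2 : ¬ Cross (π, z, w) (π', r, s)) :
    ∀ c ∈ TC π y β w a, ¬ Cross c (π', emb r, emb s) := by
  simp only [TC, List.mem_cons, List.not_mem_nil, or_false, forall_eq_or_imp, forall_eq]
  simp only [Cross, Btw, Out, emb_lt, emb_lt_pp hr, emb_lt_pp hs, pp_lt_emb hr, pp_lt_emb hs,
    not_and] at h1 h2 ⊢
  refine ⟨fun e => ?_, fun _ => by omega, fun e => ?_⟩ <;>
  · have := h1 e; have := h2 e
    rcases h with ⟨_, _, _ | _, _⟩ | ⟨_, _, _ | _, _⟩ <;> omega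

theorem tok_d {π : Bool} {z w y β a : ℤ} (h : Tok z w y β a) :
    ∀ c ∈ TC π y β w a, ¬ Cross c (π, emb z, emb w) := by
  obtain ⟨n1, n2, n3, -⟩ := h.ne
  simp only [TC, List.mem_cons, List.not_mem_nil, or_false, forall_eq_or_imp, forall_eq]
  simp only [Cross, Btw, Out, emb_lt, emb_lt_pp n3, pp_lt_emb n3, emb_lt_pp', pp_lt_emb', Tok,
    not_and] at h ⊢
  exact ⟨fun _ => by omega, fun e => by simp at e, fun _ => by omega⟩

/-- the order of two tokens -/
def Ord (z w y β a y' β' a' : ℤ) : Prop :=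
  (z < w ∧ a ≤ a' ∧ y ≤ y' ∧ ((β' ≤ β ∧ β < z) ∨ (β < z ∧ w < β') ∨ (w < β' ∧ β' ≤ β))) ∨
  (w < z ∧ a' ≤ a ∧ y' ≤ y ∧ ((β ≤ β' ∧ z < β) ∨ (z < β ∧ β' < w) ∨ (β' < w ∧ β ≤ β')))

theorem tok_tok {π : Bool} {z w y β a y' β' a' : ℤ} (h : Tok z w y β a) (h' : Tok z w y' β' a')
    (ho : Ord z w y β a y' β' a') : ∀ c ∈ TC π y β w a, ∀ c' ∈ TC π y' β' w a', ¬ Cross c c' := by
  obtain ⟨n1, n2, -⟩ := h.ne
  obtain ⟨n3, n4, -⟩ := h'.ne
  simp only [TC, List.mem_cons, List.not_mem_nil, or_false, forall_eq_or_imp, forall_eq]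
  simp only [Cross, Btw, Out, emb_lt, emb_lt_pp n1, emb_lt_pp n2, emb_lt_pp n3, emb_lt_pp n4,
    pp_lt_emb n1, pp_lt_emb n2, pp_lt_emb n3, pp_lt_emb n4, pp_lt', not_and]
  refine ⟨⟨fun _ => ?_, fun e => by simp at e, fun _ => ?_⟩, ⟨fun e => by simp at e, fun _ => ?_,
    fun e => by simp at e⟩, fun _ => ?_, fun e => by simp at e, fun _ => ?_⟩ <;>
  rcases h with ⟨_, _, _, _⟩ | ⟨_, _, _, _⟩ <;> rcases h' with ⟨_, _, _, _⟩ | ⟨_, _, _, _⟩ <;>
  rcases ho with ⟨_, _, _, _⟩ | ⟨_, _, _, _⟩ <;> omega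

/-- the sorting key of a token -/
def key (z w y β n p : ℤ) : ℤ ×ₗ ℤ ×ₗ ℤ ×ₗ ℤ ×ₗ ℤ :=
  if z < w then toLex (y, toLex (if w < β then 1 else 0, toLex (-β, toLex (n, p))))
  else toLex (-y, toLex (if β < w then 1 else 0, toLex (β, toLex (n, p))))

theorem key_inj {z w y β n p y' β' n' p' : ℤ} (h : key z w y β n p = key z w y' β' n' p') :
    y = y' ∧ β = β' ∧ n = n' ∧ p = p' := by
  unfold key at h
  by_cases hz : z < w
  · simp only [if_pos hz, toLex_inj, Prod.mk.injEq] at h; omega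
  · simp only [if_neg hz, toLex_inj, Prod.mk.injEq] at h; omega

theorem ord_of {π : Bool} {z w y β a n p y' β' a' n' p' : ℤ} (h : Tok z w y β a)
    (h' : Tok z w y' β' a') (hc : ¬ Cross (π, y, β) (π, y', β'))
    (hk : key z w y β n p ≤ key z w y' β' n' p') (ha : (z < w → a ≤ a') ∧ (w < z → a' ≤ a)) :
    Ord z w y β a y' β' a' := by
  unfold key at hk
  simp only [Cross, Btw, Out, true_and] at hc
  by_cases hz : z < w
  · simp only [if_pos hz, Prod.Lex.toLex_le_toLex] at hk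
    refine Or.inl ?_
    rcases h with ⟨_, _, _ | _, _⟩ | ⟨_, _, _, _⟩ <;>
      rcases h' with ⟨_, _, _ | _, _⟩ | ⟨_, _, _, _⟩ <;> split_ifs at hk <;> omega
  · simp only [if_neg hz, Prod.Lex.toLex_le_toLex] at hk
    refine Or.inr ?_
    rcases h with ⟨_, _, _, _⟩ | ⟨_, _, _ | _, _⟩ <;>
      rcases h' with ⟨_, _, _, _⟩ | ⟨_, _, _ | _, _⟩ <;> split_ifs at hk <;> omega

open Classical in
/-- the end of `c` between `z` and `w` -/
noncomputable def inE (z w : ℤ) (c : Chord ℤ) : ℤ := if Btw z w c.2.1 then c.2.1 else c.2.2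

open Classical in
/-- the other end -/
noncomputable def outE (z w : ℤ) (c : Chord ℤ) : ℤ := if Btw z w c.2.1 then c.2.2 else c.2.1

theorem cross_norm {z w : ℤ} {c x : Chord ℤ} : Cross (c.1, inE z w c, outE z w c) x ↔ Cross c x := by
  unfold inE outE
  split_ifs
  · rfl
  · exact cross_swap_left

theorem tok_of {π : Bool} {z w k : ℤ} {c : Chord ℤ} (h : Cross (π, z, w) c) (hk : 0 < k) :
    Tok z w (inE z w c) (outE z w c) (if z < w then k else -k) := by
  have h2 := h.2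
  unfold inE outE
  by_cases h1 : Btw z w c.2.1
  · rw [if_pos h1, if_pos h1]
    simp only [Btw, Out, Tok] at h1 h2 ⊢
    split_ifs <;> omega
  · rw [if_neg h1, if_neg h1]
    simp only [Btw, Out, Tok] at h1 h2 ⊢
    split_ifs <;> omega

variable {ι V : Type} {G : Gr ι V} {D : Sys ι V ℤ} {π : Bool} {z w : ℤ}

/-- offsets of the tokens -/
structure Off (G : Gr ι V) (D : Sys ι V ℤ) (π : Bool) (z w : ℤ) (a : ι → Chord ℤ → ℤ) : Prop where
  tok : ∀ e c, Cross (π, z, w) c → Tok z w (inE z w c) (outE z w c) (a e c)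
  inj : ∀ e e', ∀ c ∈ D.chs G e, ∀ c' ∈ D.chs G e', Cross (π, z, w) c → Cross (π, z, w) c' →
    a e c = a e' c' → e = e' ∧ c = c'
  ord : ∀ e e', ∀ c ∈ D.chs G e, ∀ c' ∈ D.chs G e', Cross (π, z, w) c → Cross (π, z, w) c' →
    ¬ Cross c c' → Ord z w (inE z w c) (outE z w c) (a e c) (inE z w c') (outE z w c') (a e' c') ∨
      Ord z w (inE z w c') (outE z w c') (a e' c') (inE z w c) (outE z w c) (a e c)

theorem exists_off [Fintype ι] (G : Gr ι V) (D : Sys ι V ℤ) (π : Bool) (z w : ℤ) :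
    ∃ a, Off G D π z w a := by
  classical
  let κ := fun (e : ι) (c : Chord ℤ) =>
    key z w (inE z w c) (outE z w c) ((Fintype.equivFin ι e : ℕ) : ℤ) c.2.1
  let S := Finset.univ.biUnion fun e => (D.chs G e).toFinset.image (κ e)
  have hS : ∀ e, ∀ c ∈ D.chs G e, κ e c ∈ S := fun e c hc =>
    Finset.mem_biUnion.2 ⟨e, Finset.mem_univ _, Finset.mem_image_of_mem _ (List.mem_toFinset.2 hc)⟩
  let k := fun e c => rank S (κ e c) + 1
  have hk : ∀ e c, 0 < k e c := fun e c => Int.lt_add_one_of_le (Int.natCast_nonneg _)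
  have tok : ∀ e c, Cross (π, z, w) c →
      Tok z w (inE z w c) (outE z w c) (if z < w then k e c else -k e c) :=
    fun e c h => tok_of h (hk e c)
  have half : ∀ e e', ∀ c ∈ D.chs G e, ∀ c' ∈ D.chs G e', Cross (π, z, w) c → Cross (π, z, w) c' →
      ¬ Cross c c' → κ e c ≤ κ e' c' → Ord z w (inE z w c) (outE z w c)
        (if z < w then k e c else -k e c) (inE z w c') (outE z w c')
        (if z < w then k e' c' else -k e' c') := by
    intro e e' c hc c' hc' h h' hn hle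
    have h1 : k e c ≤ k e' c' := by
      have := (rank_lt_iff (hS e' c' hc') (hS e c hc)).not.2 (not_lt.2 hle)
      simp only [k]; omega
    refine ord_of (π := π) (tok e c h) (tok e' c' h') (fun hx => hn ?_) hle ?_
    · have e1 : π = c.1 := h.1
      have e2 : π = c'.1 := h'.1
      rw [e1, cross_norm] at hx
      have := cross_symm hx
      rw [← e1, e2, cross_norm] at this
      exact cross_symm this
    · split_ifs <;> omega
  refine ⟨fun e c => if z < w then k e c else -k e c, tok, ?_, ?_⟩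
  · intro e e' c hc c' hc' h h' he
    have h1 : rank S (κ e c) = rank S (κ e' c') := by
      simp only [k] at he
      split_ifs at he <;> omega
    have h2 : κ e c = κ e' c' := le_antisymm
      (not_lt.1 fun hl => by have := rank_lt (hS e' c' hc') hl; omega)
      (not_lt.1 fun hl => by have := rank_lt (hS e c hc) hl; omega)
    obtain ⟨a1, a2, a3, a4⟩ := key_inj h2
    refine ⟨(Fintype.equivFin ι).injective (Fin.ext (by exact_mod_cast a3)),
      Prod.ext (h.1.symm.trans h'.1) (Prod.ext a4 ?_)⟩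
    unfold inE at a1
    unfold outE at a2
    rw [← a4] at a1 a2
    split_ifs at a1 a2
    exacts [a2, a1]
  · intro e e' c hc c' hc' h h' hn
    exact (le_total _ _).imp (half e e' c hc c' hc' h h' hn)
      (half e' e c' hc' c hc h' h fun hx => hn (cross_symm hx))

open Classical in
/-- the two new points of a token -/
noncomputable def ins (A : ι → Prop) (π : Bool) (z w : ℤ) (a : ι → Chord ℤ → ℤ) (e : ι)
    (c : Chord ℤ) : List PP :=
  if A e ∧ Cross (π, z, w) c then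
    (if Btw z w c.2.1 then [pp w (-a e c), pp w (a e c)] else [pp w (a e c), pp w (-a e c)])
  else []

variable {A : ι → Prop} {a : ι → Chord ℤ → ℤ} {e e' e0 : ι} {c c' : Chord ℤ}

theorem mem_ins {u : PP} (h : u ∈ ins A π z w a e c) :
    A e ∧ Cross (π, z, w) c ∧ (u = pp w (a e c) ∨ u = pp w (-a e c)) := by
  unfold ins at h
  split_ifs at h with h1 h2
  · exact ⟨h1.1, h1.2, by simpa [or_comm] using h⟩
  · exact ⟨h1.1, h1.2, by simpa using h⟩
  · simp at h

theorem new_cases {c₁ : Chord PP} (h : c₁ ∈ chords c.1 (spc emb (ins A π z w a e) c)) :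
    (¬ (A e ∧ Cross (π, z, w) c) ∧ c₁ = (c.1, emb c.2.1, emb c.2.2)) ∨
    ((A e ∧ Cross (π, z, w) c) ∧
      ∃ c₂ ∈ TC π (inE z w c) (outE z w c) w (a e c), ∀ x, Cross c₁ x ↔ Cross c₂ x) := by
  unfold spc ins at h
  by_cases h1 : A e ∧ Cross (π, z, w) c
  · refine Or.inr ⟨h1, ?_⟩
    have e1 : c.1 = π := h1.2.1.symm
    rw [if_pos h1, e1] at h
    unfold inE outE TC
    by_cases h2 : Btw z w c.2.1
    · simp only [if_pos h2] at h ⊢
      exact ⟨c₁, by simpa using h, fun _ => Iff.rfl⟩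
    · simp only [if_neg h2] at h ⊢
      simp only [List.cons_append, List.nil_append, chords_cons_cons, chords_single,
        Bool.not_not, List.mem_cons, List.not_mem_nil, or_false] at h
      rcases h with rfl | rfl | rfl <;> exact ⟨_, by simp, fun _ => cross_swap_left⟩
  · rw [if_neg h1] at h
    exact Or.inl ⟨h1, by simpa using h⟩

theorem cross_emb {c c' : Chord ℤ} :
    Cross (c.1, emb c.2.1, emb c.2.2) (c'.1, emb c'.2.1, emb c'.2.2) ↔ Cross c c' := by
  simp only [Cross, Btw, Out, emb_lt]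

/-- the new chords against an old chord -/
theorem new_other (o : Off G D π z w a) {x : Chord ℤ} (h1 : ¬ Cross c x)
    (h2 : A e → Cross (π, z, w) c → ¬ Cross (π, z, w) x ∧ x.2.1 ≠ w ∧ x.2.2 ≠ w) :
    ∀ c₁ ∈ chords c.1 (spc emb (ins A π z w a e) c), ¬ Cross c₁ (x.1, emb x.2.1, emb x.2.2) := by
  intro c₁ h
  rcases new_cases h with ⟨-, rfl⟩ | ⟨h3, c₂, h4, h5⟩
  · rwa [cross_emb]
  · obtain ⟨a1, a2, a3⟩ := h2 h3.1 h3.2
    rw [h5]
    refine tok_other (o.tok e c h3.2) a2 a3 (fun hx => h1 ?_) a1 c₂ h4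
    have e1 : π = c.1 := h3.2.1
    rwa [e1, cross_norm] at hx

theorem cov_new {x : ℤ} (hx : x ≠ w) :
    cov true c.1 (spc emb (ins A π z w a e) c) (emb x) =
      if c.1 = true then ind x c.2.2 - ind x c.2.1 else 0 := by
  unfold spc ins
  split_ifs <;> simp [cov, covL, ind, emb_lt, emb_lt_pp hx, *]

theorem subst_ok (hs : G.Symm) (hH : Handle G A e0) (h : D.Valid G) (hd : (π, z, w) ∈ D.chs G e0)
    (o : Off G D π z w a) : SubstOK G D emb (ins A π z w a) := by
  have hw : ∀ e', e' ≠ e0 → w ∉ D.path G e' := fun e' he' hm => by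
    rcases (Sys.mem_of_mem_chs hd).2 with h1 | h1
    · exact h.not_mem_path he'.symm h1 hm
    · have h2 : w = D.pos (G.s e0) := h1.trans (by rw [hH.loop])
      rw [h2] at hm
      rcases Sys.mem_path.1 hm with h3 | h3 | h3
      exacts [(hH.own e' he').1 (h.inj h3).symm, h.notV _ _ h3, (hH.own e' he').2 (h.inj h3).symm]
  have one : ∀ e e', e = e' ∨ G.H e e' → ∀ c ∈ D.chs G e, ∀ c' ∈ D.chs G e',
      ¬ (A e' ∧ Cross (π, z, w) c') → ∀ c₁ ∈ chords c.1 (spc emb (ins A π z w a e) c),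
      ¬ Cross c₁ (c'.1, emb c'.2.1, emb c'.2.2) := by
    intro e e' he c hc c' hc' hn
    refine new_other o (h.noCross he c hc c' hc') fun hA _ => ?_
    have h1 : e' ≠ e0 := by
      rintro rfl
      rcases he with rfl | he
      exacts [hH.notA hA, hH.far e hA (hs _ _ he)]
    obtain ⟨m1, m2⟩ := mem_of_mem_chords hc'
    refine ⟨fun hx => ?_, fun e1 => hw e' h1 (e1 ▸ m1), fun e1 => hw e' h1 (e1 ▸ m2)⟩
    have h2 : A e' ∨ G.H e0 e' := by
      rcases he with rfl | he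
      exacts [Or.inl hA, hH.sep e e' hA he]
    rcases h2 with h2 | h2
    exacts [hn ⟨h2, hx⟩, h.adj e0 e' h2 _ hd _ hc' hx]
  refine ⟨emb_mono, fun e c _ => ?_, fun e c _ => ?_, fun e c _ u hu => ?_,
    fun e e' c hc c' hc' hne u hu hu' => ?_, fun e e' he c hc c' hc' c₁ h1 c₁' h2 => ?_⟩
  · unfold ins; split_ifs <;> simp
  · unfold ins
    split_ifs with h1 h2
    · have := (o.tok e c h1.2).ne
      exact List.nodup_cons.2 ⟨by rw [List.mem_singleton, pp_inj]; omega, List.nodup_singleton _⟩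
    · have := (o.tok e c h1.2).ne
      exact List.nodup_cons.2 ⟨by rw [List.mem_singleton, pp_inj]; omega, List.nodup_singleton _⟩
    · exact List.nodup_nil
  · obtain ⟨-, h1, h2⟩ := mem_ins hu
    have := (o.tok e c h1).ne
    simp only [emb, pp_inj] at h2
    omega
  · obtain ⟨-, h1, h2⟩ := mem_ins hu
    obtain ⟨-, h3, h4⟩ := mem_ins hu'
    have t1 := o.tok e c h1
    have t2 := o.tok e' c' h3
    have : a e c = a e' c' := by
      unfold Tok at t1 t2
      rcases h2 with rfl | rfl <;> simp only [pp_inj] at h4 <;> omega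
    have := o.inj e e' c hc c' hc' h1 h3 this
    tauto
  · rcases new_cases h2 with ⟨n2, rfl⟩ | ⟨t2, c₂', m2, i2⟩
    · exact one e e' he c hc c' hc' n2 c₁ h1
    rcases new_cases h1 with ⟨n1, rfl⟩ | ⟨t1, c₂, m1, i1⟩
    · exact fun hx => one e' e (he.imp Eq.symm (hs _ _)) c' hc' c hc n1 c₁' h2 (cross_symm hx)
    intro hx
    have h3 : Cross c₂' c₂ := (i2 _).1 (cross_symm ((i1 _).1 hx))
    rcases o.ord e e' c hc c' hc' t1.2 t2.2 (h.noCross he c hc c' hc') with h4 | h4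
    · exact tok_tok (o.tok e c t1.2) (o.tok e' c' t2.2) h4 _ m1 _ m2 (cross_symm h3)
    · exact tok_tok (o.tok e' c' t2.2) (o.tok e c t1.2) h4 _ m2 _ m1 h3

theorem ins_handle (hH : Handle G A e0) (c : Chord ℤ) : ins A π z w a e0 c = [] :=
  if_neg fun h => hH.notA h.1

theorem chs_handle (hH : Handle G A e0) (r : SubstOK G D emb (ins A π z w a)) :
    (D.subst G emb (ins A π z w a)).chs G e0 =
      (D.chs G e0).map fun c => (c.1, emb c.2.1, emb c.2.2) := by
  rw [r.chs, List.map_eq_flatMap]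
  simp [spc, ins_handle hH]

/-- the end of chord `i` is an end of chord `j` only for `j = i` and the next index -/
theorem next_only (h : D.Valid G) {i j : ℕ} (hi : (D.chs G e0)[i]? = some (π, z, w))
    {x : Chord ℤ} (hj : (D.chs G e0)[j]? = some x) (h1 : j ≠ i)
    (h2 : j ≠ (i + 1) % (D.chs G e0).length) : x.2.1 ≠ w ∧ x.2.2 ≠ w := by
  obtain ⟨li, ei⟩ := List.getElem?_eq_some_iff.1 hi
  obtain ⟨lj, ej⟩ := List.getElem?_eq_some_iff.1 hj
  have hl := D.length_path G e0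
  have hc := D.length_chs G e0
  simp only [Sys.chs, getElem_chords, Prod.mk.injEq] at ei ej
  have a1 : (D.path G e0)[i + 1]? = some w := by
    rw [← ei.2.2]; exact List.getElem?_eq_getElem _
  have a2 : (D.path G e0)[j]? = some x.2.1 := by
    rw [← ej]; exact List.getElem?_eq_getElem _
  have a3 : (D.path G e0)[j + 1]? = some x.2.2 := by
    rw [← ej]; exact List.getElem?_eq_getElem _
  refine ⟨fun e1 => ?_, fun e1 => ?_⟩
  · rcases h.path_inj a1 (e1 ▸ a2) with h3 | ⟨h3 | h3, -⟩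
    · exact h2 (by rw [Nat.mod_eq_of_lt (by omega)]; omega)
    · omega
    · exact h2 (by rw [hc, h3.2, Nat.mod_self]; exact h3.1)
  · have := h.path_inj a1 (e1 ▸ a3)
    omega

end Comb

open Comb in
theorem comb : CombStmt := by
  intro ι V _ _ G hs A e0 hH D h i hi
  obtain ⟨⟨π, z, w⟩, hd⟩ : ∃ d, (D.chs G e0)[i]? = some d := ⟨_, List.getElem?_eq_getElem hi⟩
  have hd' : (π, z, w) ∈ D.chs G e0 := List.mem_of_getElem? hd
  obtain ⟨a, o⟩ := exists_off G D π z w
  have r := subst_ok hs hH h hd' o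
  obtain ⟨ρ, S, -, -, -, p1, p2, v, so, cv, -, -⟩ := Sys.toInt hs (r.valid h) ∅
  have clear : ∀ j, (∀ e, A e → ∀ c ∈ D.chs G e, ∀ x, (D.chs G e0)[j]? = some x →
      ∀ c₁ ∈ chords c.1 (spc emb (ins A π z w a e) c), ¬ Cross c₁ (x.1, emb x.2.1, emb x.2.2)) →
      Clear G A e0 ((D.subst G emb (ins A π z w a)).map ρ) j := by
    intro j H e he c₂ h2 x₂ hx
    rw [Sys.chs_map] at h2 hx
    obtain ⟨c₁, h1, rfl⟩ := List.mem_map.1 h2
    rw [List.getElem?_map, Option.map_eq_some_iff] at hx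
    obtain ⟨x₁, hx₁, rfl⟩ := hx
    have m1 := mem_of_mem_chords h1
    have m2 := mem_of_mem_chords (List.mem_of_getElem? hx₁)
    rw [cross_map_iff p2 ⟨p1 _ _ m1.1, p1 _ _ m1.2⟩ ⟨p1 _ _ m2.1, p1 _ _ m2.2⟩]
    rw [chs_handle hH r, List.getElem?_map, Option.map_eq_some_iff] at hx₁
    obtain ⟨x, hx, rfl⟩ := hx₁
    rw [r.chs] at h1
    obtain ⟨c, hc, h1⟩ := List.mem_flatMap.1 h1
    exact H e he c hc x hx c₁ h1
  have ci : Clear G A e0 ((D.subst G emb (ins A π z w a)).map ρ) i := by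
    refine clear i fun e _ c _ x hx c₁ h1 => ?_
    obtain rfl : (π, z, w) = x := Option.some.inj (hd.symm.trans hx)
    rcases new_cases h1 with ⟨n, rfl⟩ | ⟨t, c₂, m, k⟩
    · rw [cross_emb]
      exact fun hx => n ⟨‹_›, cross_symm hx⟩
    · rw [k]
      exact tok_d (o.tok e c t.2) c₂ m
  refine ⟨_, v, r.sameOrd.trans so, ?_, fun e x hx => ?_, ci, fun j hj H => ?_⟩
  · change (((D.subst G emb (ins A π z w a)).mid e0).map ρ).length = _
    rw [Sys.mid_subst_of_nil fun c _ => ins_handle hH c, List.length_map, List.length_map]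
  · have hw : D.pos x ≠ w := fun e1 => by
      rcases (Sys.mem_of_mem_chs hd').2 with h1 | h1
      · exact h.notV e0 x (e1 ▸ h1)
      · exact hx ((h.inj (e1.trans h1)).trans hH.loop.symm)
    rw [cv, r.cv]
    simp only [cov_new hw]
    rfl
  · by_cases hji : j = i
    · exact hji ▸ ci
    refine clear j fun e he c hc x hx => new_other o (H e he c hc x hx) fun _ _ => ?_
    exact ⟨h.self e0 _ hd' _ (List.mem_of_getElem? hx), next_only h hd hx hji hj⟩

namespace Comb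

theorem combed (hC : CombStmt) {ι V : Type} [Fintype ι] [Fintype V] {G : Gr ι V} (hs : G.Symm)
    {A : ι → Prop} {e0 : ι} (hH : Handle G A e0) {D : Sys ι V ℤ} (h : D.Valid G) (n : ℕ) :
    ∃ D' : Sys ι V ℤ, D'.Valid G ∧ D.SameOrd D' ∧ (D'.mid e0).length = (D.mid e0).length ∧
      (∀ e x, x ≠ G.s e0 → D'.cv G e x = D.cv G e x) ∧
      ∀ j, j ≠ 0 → j ≤ n → Clear G A e0 D' j := by
  induction n with
  | zero => exact ⟨D, h, fun _ _ => Iff.rfl, rfl, fun _ _ _ => rfl, fun j h1 h2 => by omega⟩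
  | succ n ih =>
    obtain ⟨D₁, v, so, ln, cv, cl⟩ := ih
    by_cases hn : n + 1 < (D₁.chs G e0).length
    · obtain ⟨D₂, v', so', ln', cv', c1, c2⟩ := hC ι V G hs A e0 hH D₁ v (n + 1) hn
      refine ⟨D₂, v', so.trans so', ln'.trans ln, fun e x hx => (cv' e x hx).trans (cv e x hx),
        fun j h1 h2 => ?_⟩
      rcases Nat.lt_or_eq_of_le h2 with h3 | rfl
      · refine c2 j (fun h4 => ?_) (cl j h1 (by omega))
        rcases Nat.lt_or_eq_of_le (Nat.succ_le_of_lt hn) with h5 | h5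
        · rw [Nat.mod_eq_of_lt h5] at h4; omega
        · rw [← h5, Nat.mod_self] at h4; exact h1 h4
      · exact c1
    · refine ⟨D₁, v, so, ln, cv, fun j h1 h2 => ?_⟩
      rcases Nat.lt_or_eq_of_le h2 with h3 | rfl
      · exact cl j h1 (by omega)
      · intro e _ c _ d hd
        exact absurd (List.getElem?_eq_some_iff.1 hd).1 hn

end Comb

theorem twist : CombStmt → SpinStmt → TwistStmt := by
  classical
  intro hC hS ι V _ _ G hs A e0 hH D h τ
  have step : ∀ (τ ε : ℤ), (ε = 1 ∨ ε = -1) → (∃ D' : Sys ι V ℤ, D'.Valid G ∧ D.SameOrd D' ∧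
      ∀ e x, x ≠ G.s e0 → D'.cv G e x = D.cv G e x +
        if A e then τ * (D.cv G e0 (G.t e) - D.cv G e0 (G.s e)) * D.cv G e0 x else 0) →
      ∃ D' : Sys ι V ℤ, D'.Valid G ∧ D.SameOrd D' ∧ ∀ e x, x ≠ G.s e0 → D'.cv G e x = D.cv G e x +
        if A e then (τ + ε) * (D.cv G e0 (G.t e) - D.cv G e0 (G.s e)) * D.cv G e0 x else 0 := by
    rintro τ ε hε ⟨D₁, v₁, s₁, c₁⟩
    obtain ⟨D₂, v₂, s₂, ln, c₂, cl⟩ := Comb.combed hC hs hH v₁ (D₁.mid e0).length
    obtain ⟨D₃, v₃, s₃, c₃⟩ := hS ι V G hs A e0 hH D₂ v₂ (fun j hj => by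
      by_cases h1 : j ≤ (D₁.mid e0).length
      · exact cl j hj h1
      · intro e _ c _ d hd
        have := (List.getElem?_eq_some_iff.1 hd).1
        rw [Sys.length_chs] at this
        omega) ε hε
    have c0 : ∀ x, x ≠ G.s e0 → D₂.cv G e0 x = D.cv G e0 x := fun x hx => by
      rw [c₂ e0 x hx, c₁ e0 x hx, if_neg hH.notA, add_zero]
    refine ⟨D₃, v₃, s₁.trans (s₂.trans s₃), fun e x hx => ?_⟩
    rw [c₃ e x hx, c₂ e x hx, c₁ e x hx]
    by_cases hA : A e
    · have := hH.own e fun e1 => hH.notA (e1 ▸ hA)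
      simp only [if_pos hA]
      rw [c0 x hx, c0 _ this.1, c0 _ this.2]
      ring
    · simp only [if_neg hA, add_zero]
  induction τ using Int.induction_on with
  | zero => exact ⟨D, h, fun _ _ => Iff.rfl, fun e x _ => by simp⟩
  | succ n ih => exact step _ 1 (Or.inl rfl) ih
  | pred n ih => exact step _ (-1) (Or.inr rfl) ih

end Pool.Agent.MP_17db17_lc.H93
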