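import Pool.Agent.MP_17db17_lc.H93.Basic

set_option autoImplicit false

namespace Pool.Agent.MP_17db17_lc.H93

namespace CoreAux

open Classical

variable {ι V : Type} {G : Gr ι V} {D : Sys ι V ℤ} {F : ι → Prop} {b : Bool} {a a' : ℤ}
  {M : List ℤ}

theorem arc_l_sub {p : Piece ℤ} (hp : p ∈ arcs b a M a') {y : ℤ} (hy : y ∈ p.l) :
    y ∈ a :: (M ++ [a']) := mem_l_of_mem_pieces hp hy

theorem arc_slit (L : Leaf D G F b a M a') {p : Piece ℤ} (hp : p ∈ arcs b a M a') :
    Slit a a' p := by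
  obtain ⟨h1, h2, h3⟩ := mem_pieces hp
  have s1 : InW a a' p.2.1 := by
    rcases h1 with h1 | h1
    · rw [h1]; unfold InW; omega
    · simpa using h1.2
  have s2 : InW a a' p.2.2.2 := by
    rcases h2 with h2 | h2
    · rw [h2]; unfold InW; omega
    · simpa using h2.2
  refine ⟨s1, s2, fun y hy => by simpa using (h3 y hy).2, fun h0 => ?_⟩
  have : (p.1, p.2.1, p.2.2.2) ∈ p.chs := by simp [Piece.chs, Piece.l, h0]
  obtain ⟨x, hx⟩ := L.red _ (chs_sub_of_mem_pieces hp this)
  refine L.noV x ?_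
  unfold InW at *
  dsimp only at hx
  omega

theorem arc_noCross (L : Leaf D G F b a M a') {p q : Piece ℤ} (hp : p ∈ arcs b a M a')
    (hq : q ∈ arcs b a M a') : NoCross p.1 p.l q.1 q.l := fun c hc d hd =>
  L.self c (chs_sub_of_mem_pieces hp hc) d (chs_sub_of_mem_pieces hq hd)

theorem leaf_nd (L : Leaf D G F b a M a') : (a :: M).Nodup ∧ (M ++ [a']).Nodup ∧ a ≠ a' := by
  have h := L.nodup
  refine ⟨h.sublist (by simp), h.of_cons, fun e => ?_⟩
  simp [e] at h

theorem arc_start_lt (L : Leaf D G F b a M a') :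
    ((arcs b a M a').map (·.2.1) ++ [a']).Nodup ∧ (a :: (arcs b a M a').map (·.2.2.2)).Nodup ∧
      (arcs b a M a').map (·.2.1) ++ [a'] = a :: (arcs b a M a').map (·.2.2.2) := by
  unfold arcs
  rw [pieces_starts, pieces_ends]
  have : (a :: (M.filter (fun y => decide (InW a a' y)) ++ [a'])).Nodup :=
    L.nodup.sublist ((List.filter_sublist.append_right _).cons_cons _)
  exact ⟨this, this, rfl⟩

theorem arc_nodup (L : Leaf D G F b a M a') {p : Piece ℤ} (hp : p ∈ arcs b a M a') :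
    p.l.Nodup := by
  obtain ⟨h1, h2, -⟩ := leaf_nd L
  obtain ⟨n1, n2⟩ := (pieces_pairwise _ b a M a' h1 h2).2 p hp
  obtain ⟨i, hi, rfl⟩ := List.getElem_of_mem hp
  obtain ⟨k1, -, k3⟩ := arc_start_lt L
  refine List.nodup_cons.2 ⟨fun h => ?_, n2⟩
  rcases List.mem_append.1 h with h | h
  · exact (List.nodup_cons.1 n1).1 h
  · have e1 : ((arcs b a M a').map (·.2.1) ++ [a'])[i]? = some (arcs b a M a')[i].2.1 := by
      rw [List.getElem?_append_left (by simpa using hi)]; simp [hi]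
    have e2 : ((arcs b a M a').map (·.2.1) ++ [a'])[i + 1]? = some (arcs b a M a')[i].2.2.2 := by
      rw [k3]; simp [hi]
    rw [← List.mem_singleton.1 h, ← e1] at e2
    have := (List.getElem?_inj (by simp; omega) k1).1 e2
    omega

/-- the ends of two different arcs -/
theorem arc_ends (L : Leaf D G F b a M a') {i j : ℕ} (hij : i < j)
    (hj : j < (arcs b a M a').length) :
    (∀ y ∈ (arcs b a M a')[i].2.2.1, y ∉ (arcs b a M a')[j].2.2.1) ∧
    (arcs b a M a')[i].2.1 ≠ (arcs b a M a')[j].2.1 ∧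
    (arcs b a M a')[i].2.1 ≠ (arcs b a M a')[j].2.2.2 ∧
    (arcs b a M a')[i].2.2.2 ≠ (arcs b a M a')[j].2.2.2 ∧
    ((arcs b a M a')[i].2.2.2 = (arcs b a M a')[j].2.1 →
      (arcs b a M a')[i].lastPage ≠ (arcs b a M a')[j].1) := by
  obtain ⟨h1, h2, -⟩ := leaf_nd L
  have hp := List.pairwise_iff_getElem.1 (pieces_pairwise (fun y => decide (InW a a' y)) b a M a'
    h1 h2).1 i j (hij.trans hj) hj hij
  obtain ⟨k1, -, k3⟩ := arc_start_lt L
  have e1 : ∀ i (hi : i < (arcs b a M a').length),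
      ((arcs b a M a').map (·.2.1) ++ [a'])[i]? = some (arcs b a M a')[i].2.1 := by
    intro i hi
    rw [List.getElem?_append_left (by simpa using hi)]; simp [hi]
  have e2 : ∀ i (hi : i < (arcs b a M a').length),
      ((arcs b a M a').map (·.2.1) ++ [a'])[i + 1]? = some (arcs b a M a')[i].2.2.2 := by
    intro i hi
    rw [k3]; simp [hi]
  refine ⟨fun y hy hy' => hp.1 y (List.mem_cons_of_mem _ hy) (List.mem_cons_of_mem _ hy'),
    fun e => hp.1 _ List.mem_cons_self (e ▸ List.mem_cons_self), fun e => ?_,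
    fun e => hp.2 _ (List.mem_append_right _ (List.mem_singleton.2 rfl)) (List.mem_append_right _ (List.mem_singleton.2 e)), fun e => ?_⟩
  · have := (List.getElem?_inj (by simp; omega) k1).1
      ((e1 i (hij.trans hj)).trans (e ▸ (e2 j hj).symm))
    omega
  · have := (List.getElem?_inj (by simp; omega) k1).1
      ((e2 i (hij.trans hj)).trans (e ▸ (e1 j hj).symm))
    subst this
    have hc := List.isChain_iff_getElem.1 (pieces_chain (fun y => decide (InW a a' y)) b a M a') i hj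
    have : (arcs b a M a')[i + 1].1 = !(arcs b a M a')[i].lastPage := hc.2
    rw [this]; simp

/-- a closed curve along the leaf is a new handle -/
theorem extend (hD : D.Valid G) (L : Leaf D G F b a M a') {S : List (Piece ℤ)}
    (hS : ∀ p ∈ S, p ∈ arcs b a M a') {z : ℤ} {m : List ℤ} (C : Closing a a' S z m) :
    ∃ D1 : Sys (Option ι) (Option V) ℤ, D1.Valid (G.ext (G.Nb F)) ∧
      (∀ x, D1.pos (some x) = D.pos x) ∧
      (∀ e x, D1.cv (G.ext (G.Nb F)) (some e) (some x) = D.cv G e x) ∧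
      ∀ x, D1.cv (G.ext (G.Nb F)) none (some x) = cov true true (z :: (m ++ [z])) (D.pos x) := by
  have hL : ∀ y ∈ z :: m, y ∈ a :: (M ++ [a']) := fun y hy => by
    obtain ⟨p, hp, h⟩ := C.sub y hy
    exact arc_l_sub (hS p hp) h
  have hav : ∀ e, G.Nb F e → NoCross true (z :: (m ++ [z])) (D.sp e) (D.path G e) := by
    intro e he d hd c hc
    have hout : ∀ y ∈ D.path G e, ¬ InW a a' y ∧ y ∉ a :: (M ++ [a']) := by
      intro y hy
      rcases Sys.pt_of_mem_path hy with h | ⟨x, rfl⟩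
      · exact ⟨L.noI e he y h, L.notM e y h⟩
      · exact ⟨L.noV x, L.notV x⟩
    obtain ⟨c1, c2⟩ := mem_of_mem_chords hc
    refine C.avoid c (hout _ c1).1 (hout _ c2).1 (fun p hp => ⟨fun h => (hout _ c1).2
      (arc_l_sub (hS p hp) h), fun h => (hout _ c2).2 (arc_l_sub (hS p hp) h), fun d' hd' => ?_⟩) d hd
    exact L.avoid e (Or.inr he) d' (chs_sub_of_mem_pieces (hS p hp) hd') c hc
  refine ⟨⟨fun x => x.elim z D.pos, fun e => e.elim true D.sp, fun e => e.elim m D.mid⟩,
    ⟨?_, ?_, ?_, ?_, ?_, ?_, ?_⟩, fun _ => rfl, fun _ _ => rfl, fun _ => rfl⟩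
  · rintro (_ | x) (_ | y) h
    · rfl
    · exact absurd (hL z List.mem_cons_self) (by rw [show z = D.pos y from h]; exact L.notV y)
    · exact absurd (hL z List.mem_cons_self) (by rw [← show D.pos x = z from h]; exact L.notV x)
    · rw [hD.inj h]
  · rintro (_ | e)
    · exact C.nodup.of_cons
    · exact hD.nodup e
  · rintro (_ | e) (_ | e') he y hy hy'
    · exact he rfl
    · exact L.notM e' y hy' (hL y (List.mem_cons_of_mem _ hy))
    · exact L.notM e y hy (hL y (List.mem_cons_of_mem _ hy'))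
    · exact hD.disj e e' (fun h => he (by rw [h])) y hy hy'
  · rintro (_ | e) (_ | x) h
    · exact (List.nodup_cons.1 C.nodup).1 h
    · exact L.notV x (hL _ (List.mem_cons_of_mem _ h))
    · exact L.notM e z h (hL z List.mem_cons_self)
    · exact hD.notV e x h
  · rintro (_ | e) h
    · exact C.odd
    · exact hD.odd e (Option.some.inj h)
  · rintro (_ | e)
    · exact C.self
    · exact hD.self e
  · rintro (_ | e) (_ | e') h
    · exact h.elim
    · exact hav e' h
    · exact (hav e h).symm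
    · exact hD.adj e e' h

open Classical in
/-- from second differences to twist vectors -/
noncomputable def lam (G : Gr ι V) (F : ι → Prop) :
    (((V × V) × V × V) → ℤ) →ₗ[ℤ] (ι × ι → ℤ) where
  toFun φ p := ((if F p.1 then 1 else 0) - (if F p.2 then 1 else 0)) *
    φ ((G.t p.1, G.s p.1), G.t p.2, G.s p.2)
  map_add' φ ψ := by funext p; simp [mul_add]
  map_smul' r φ := by funext p; simp; ring

end CoreAux

open CoreAux in
theorem core (hred : RedStmt) (hwin : WinStmt) (hstrip : StripStmt) (hgaps : GapsStmt)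
    (hleaf : LeafStmt) (hfil : FilterStmt) (hlam : LamStmt) (hform : FormStmt) (hclo : CloseStmt)
    (halg : AlgStmt) : CoreStmt := by
  classical
  intro ι V _ _ G hs D hD hB
  obtain ⟨D0, v0, r0, p0, n0, c0⟩ := hred ι V G hs D hD
  have o0 : D.SameOrd D0 := fun x y => by rw [p0]
  rcases Nat.lt_or_eq_of_le n0 with n0 | n0
  · refine ⟨fun _ => False, D0, ∅, v0, n0, o0, fun e _ x x' => by rw [c0, c0], ?_, by simp⟩
    have : (fun p : ι × ι => D.alg G p.1 p.2 - D0.alg G p.1 p.2) = 0 := by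
      funext p; simp [Sys.alg_congr o0 c0]
    rw [this]; exact Submodule.zero_mem _
  obtain ⟨f0, lo, hi, κ, hw⟩ := hwin ι V G D0 v0 (bigK (Fintype.card ι) (Fintype.card V))
    (Nat.mul_pos (by omega) (by omega)) (by rw [n0]; exact hB)
  obtain ⟨T0, s, hst⟩ := hstrip ι V G D0 v0 r0 f0 lo hi ((6 * Fintype.card ι + 4) * κ + 1)
    (2 ^ Fintype.card V + 1) hw.free (by omega) (by
      refine le_trans ?_ hw.many
      rw [bigK, mul_assoc _ _ κ]
      refine Nat.mul_le_mul_left _ ?_
      have := hw.pos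
      nlinarith)
  obtain ⟨F, l, h, hg⟩ := hgaps ι V G hs D0 v0 r0 f0 lo hi κ _ _ T0 s hw hst
  obtain ⟨D1, v1, r1, o1, n1, c1, b, a, M, a', L⟩ := hleaf ι V G hs D0 v0 r0 F f0 T0 l h hg
  obtain ⟨D2, v2, p2, n2, c2⟩ := hfil ι V G hs D1 v1 r1 F b a M a' L
  obtain ⟨T, t1, t2, t3⟩ := hform ι V G D1 v1 r1 F b a M a' L
  have o01 : D.SameOrd D1 := o0.trans o1
  have c01 : ∀ e x, D1.cv G e x = D.cv G e x := fun e x => (c1 e x).trans (c0 e x)
  have o12 : D1.SameOrd D2 := fun x y => by rw [p2]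
  let 𝒲 : Set (V → ℤ) := {W | (∀ x x', |W x - W x'| ≤ 2) ∧
    ∃ D1 : Sys (Option ι) (Option V) ℤ, D1.Valid (G.ext (G.Nb F)) ∧
      (∀ x y, D.pos x < D.pos y ↔ D1.pos (some x) < D1.pos (some y)) ∧
      (∀ e x, D1.cv (G.ext (G.Nb F)) (some e) (some x) = D.cv G e x) ∧
      ∀ x, D1.cv (G.ext (G.Nb F)) none (some x) = W x}
  let A := arcs b a M a'
  let W : Fin A.length → V → ℤ := fun i x => cov true A[i].1 A[i].l (D1.pos x)
  have hm : ∀ i : Fin A.length, A[i] ∈ arcs b a M a' := fun i => List.getElem_mem _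
  have hin : ∀ (i : Fin A.length) x, D1.pos x ∉ A[i].2.2.1 := fun i x hx =>
    L.notV x (arc_l_sub (hm i) (List.mem_cons_of_mem _ (List.mem_append_left _ hx)))
  have two : ∀ i, ∃ ε : ℤ, (ε = 1 ∨ ε = -1) ∧ ∀ x, W i x = 0 ∨ W i x = ε := by
    intro i
    obtain ⟨ε, h1, h2⟩ := hlam.2 a a' A[i] (arc_slit L (hm i))
      ((arc_nodup L (hm i)).of_cons.sublist (by simp)) (arc_noCross L (hm i) (hm i))
    exact ⟨ε, h1, fun x => h2 _ (L.noV x) (hin i x)⟩
  have avail : ∀ (U : V → ℤ) (S : List (Piece ℤ)) z m, (∀ p ∈ S, p ∈ arcs b a M a') →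
      Closing a a' S z m → (∀ x, cov true true (z :: (m ++ [z])) (D1.pos x) = U x) →
      (∀ x x', |U x - U x'| ≤ 2) → U ∈ 𝒲 := by
    intro U S z m hS C hU hb
    obtain ⟨D3, v3, p3, c3, w3⟩ := extend v1 L hS C
    exact ⟨hb, D3, v3, fun x y => by rw [p3, p3]; exact o01 x y,
      fun e x => (c3 e x).trans (c01 e x), fun x => (w3 x).trans (hU x)⟩
  have dis : ∀ i j : Fin A.length, i ≠ j → ∀ y ∈ A[i].2.2.1, y ∉ A[j].2.2.1 := by
    intro i j hij y hy hy'
    rcases lt_or_gt_of_ne hij with h' | h'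
    · exact (arc_ends L h' j.2).1 y hy hy'
    · exact (arc_ends L h' i.2).1 y hy' hy
  have pair : ∀ i j : Fin A.length, i < j → W i + W j ∈ 𝒲 ∨ W i - W j ∈ 𝒲 := by
    intro i j hij
    obtain ⟨e1, e2, e3, e4, e5⟩ := arc_ends L hij j.2
    obtain ⟨z, m, C, δ, hδ, hc⟩ := hclo.2 a a' A[i] A[j] (arc_slit L (hm i)) (arc_slit L (hm j))
      (arc_nodup L (hm i)) (arc_nodup L (hm j)) (arc_noCross L (hm i) (hm i))
      (arc_noCross L (hm j) (hm j)) (arc_noCross L (hm i) (hm j)) e1 e2 e3 e4 e5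
    obtain ⟨ε, h1, h2⟩ := two i
    obtain ⟨ε', h1', h2'⟩ := two j
    have hS : ∀ p ∈ [A[i], A[j]], p ∈ arcs b a M a' := by
      intro p hp
      rcases List.mem_pair.1 hp with rfl | rfl <;> exact hm _
    rcases hδ with rfl | rfl
    · refine Or.inl (avail _ _ z m hS C (fun x => by rw [hc _ (L.noV x)]; simp [W]) fun x x' => ?_)
      have := h2 x; have := h2 x'; have := h2' x; have := h2' x'
      simp only [Pi.add_apply, abs_le]; omega
    · refine Or.inr (avail _ _ z m hS C (fun x => by rw [hc _ (L.noV x)]; simp [W]; ring)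
        fun x x' => ?_)
      have := h2 x; have := h2 x'; have := h2' x; have := h2' x'
      simp only [Pi.sub_apply, abs_le]; omega
  have key := halg V (Fin A.length) W 𝒲 T two ?_ ?_ ?_ t1 ?_
  · refine ⟨F, D2, 𝒲, v2, by omega, o01.trans o12, fun e he x x' => ?_, ?_, fun W hW => hW⟩
    · rw [c2, c2, c01, c01]
      split_ifs with hF
      · have := t2 e hF x x'
        rw [he] at this
        omega
      · ring
    · have h1 := Submodule.mem_map_of_mem (f := lam G F) key
      rw [Submodule.map_span, ← Set.image_comp] at h1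
      have e1 : (⇑(lam G F) ∘ fun U : V → ℤ => dd fun x y => U x * U y) = tv G F := by
        funext U p
        simp only [Function.comp, lam, LinearMap.coe_mk, AddHom.coe_mk, dd, tv]
        ring
      rw [e1] at h1
      convert Submodule.neg_mem _ h1 using 1
      funext p
      rw [← Sys.alg_congr o01 c01]
      simp only [Sys.alg, c2, p2, Pi.neg_apply, lam, LinearMap.coe_mk, AddHom.coe_mk, dd]
      by_cases h1 : F p.1 <;> by_cases h2 : F p.2 <;> simp only [h1, h2, if_true, if_false]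
      · have a1 := t2 _ h1 (G.t p.2) (G.s p.2)
        have a2 := t2 _ h2 (G.t p.1) (G.s p.1)
        have := t1 (G.t p.1) (G.t p.2); have := t1 (G.t p.1) (G.s p.2)
        have := t1 (G.s p.1) (G.t p.2); have := t1 (G.s p.1) (G.s p.2)
        omega
      · have a1 := t2 _ h1 (G.t p.2) (G.s p.2)
        have := t1 (G.t p.1) (G.t p.2); have := t1 (G.t p.1) (G.s p.2)
        have := t1 (G.s p.1) (G.t p.2); have := t1 (G.s p.1) (G.s p.2)
        omega
      · have a2 := t2 _ h2 (G.t p.1) (G.s p.1)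
        omega
      · omega
  · intro i j hij
    obtain ⟨y, hy⟩ := List.exists_mem_of_ne_nil _ (arc_slit L (hm j)).ne
    obtain ⟨z, hz⟩ := List.exists_mem_of_ne_nil _ (arc_slit L (hm i)).ne
    exact ⟨_, _, fun x hx => (hlam.1 a a' A[i] A[j] (arc_slit L (hm i)) (arc_slit L (hm j))
      (dis i j hij) (arc_noCross L (hm i) (hm j))).2 _ (L.noV x) (hin i x) (hin j x) y hy z hz hx⟩
  · intro i
    obtain ⟨z, m, C, hc⟩ := hclo.1 a a' A[i] (arc_slit L (hm i)) (arc_nodup L (hm i))
      (arc_noCross L (hm i) (hm i))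
    obtain ⟨ε, h1, h2⟩ := two i
    refine avail _ _ z m (fun p hp => List.mem_singleton.1 hp ▸ hm i) C (fun x => hc _ (L.noV x)) fun x x' => ?_
    have := h2 x; have := h2 x'
    rw [abs_le]; omega
  · intro i j hij
    rcases lt_or_gt_of_ne hij with h' | h'
    · exact (pair i j h').imp_right Or.inl
    · exact (pair j i h').imp (fun h => add_comm (W i) (W j) ▸ h) Or.inr
  · intro x x' hx
    refine t3 x x' fun p hp => ?_
    obtain ⟨i, hi, rfl⟩ := List.getElem_of_mem hp
    exact hx ⟨i, hi⟩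

end Pool.Agent.MP_17db17_lc.H93
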