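import Mathlib
import Pool.Prelude.Def_F_458e953d

set_option autoImplicit false

namespace Pool.Agent.MP_17db17_lc.H93

open Classical

/-- Points of the plane. -/
abbrev Pt := ℝ × ℝ

/-- The determinant of two plane vectors. -/
def det (a b : Pt) : ℝ := a.1 * b.2 - a.2 * b.1

/-- The straight pieces of the polygonal arc through the listed points. -/
def segs (l : List Pt) : List (Pt × Pt) := l.zip l.tail

/-- The point set of the polygonal arc through the listed points. -/
def carrier (l : List Pt) : Set Pt := {x | ∃ p ∈ segs l, x ∈ segment ℝ p.1 p.2}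

/-- The polygonal arc is simple: no piece is a point, and each piece meets the rest of the arc
after it only in their common bend. -/
def IsSimple : List Pt → Prop
  | a :: b :: l => a ≠ b ∧ (∀ x ∈ segment ℝ a b, x ∈ carrier (b :: l) → x = b) ∧ IsSimple (b :: l)
  | _ => True

/-- `x` is a proper crossing of the two arcs: it lies in the interior of a piece of each, and the
two pieces are not parallel. -/
def ProperCrossing (l l' : List Pt) (x : Pt) : Prop :=
  ∃ p ∈ segs l, ∃ q ∈ segs l', x ∈ openSegment ℝ p.1 p.2 ∧ x ∈ openSegment ℝ q.1 q.2 ∧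
    det (p.2 - p.1) (q.2 - q.1) ≠ 0

/-- The sign of the crossing of two directed pieces, and `0` if their interiors are disjoint. -/
noncomputable def crossSign (p q : Pt × Pt) : ℤ :=
  if (openSegment ℝ p.1 p.2 ∩ openSegment ℝ q.1 q.2).Nonempty then
    (SignType.sign (det (p.2 - p.1) (q.2 - q.1)) : ℤ) else 0

/-- The sum of the signs of all crossings of two directed arcs. -/
noncomputable def algCross (l l' : List Pt) : ℤ :=
  ((segs l).map fun p => ((segs l').map fun q => crossSign p q).sum).sum

/-- Positions of the vertices and bends of the edges. -/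
structure Drawing (ι V : Type) where
  pos : V → Pt
  bends : ι → List Pt

variable {ι V : Type}

/-- The arc of edge `e`, directed from `s e` to `t e`. -/
def Drawing.arc (d : Drawing ι V) (s t : ι → V) (e : ι) : List Pt :=
  d.pos (s e) :: (d.bends e ++ [d.pos (t e)])

/-- `x` is an end of the edge `e`. -/
def IsEnd (s t : ι → V) (e : ι) (x : V) : Prop := x = s e ∨ x = t e

/-- A drawing in which adjacent edges do not cross. -/
structure Drawing.IsPlus (d : Drawing ι V) (s t : ι → V) : Prop where
  inj : Function.Injective d.pos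
  simple : ∀ e, IsSimple (d.arc s t e)
  avoid : ∀ e x, d.pos x ∈ carrier (d.arc s t e) → IsEnd s t e x
  proper : ∀ e f, e ≠ f → ∀ z ∈ carrier (d.arc s t e), z ∈ carrier (d.arc s t f) →
    (∃ x, IsEnd s t e x ∧ IsEnd s t f x ∧ z = d.pos x) ∨
      ProperCrossing (d.arc s t e) (d.arc s t f) z
  plus : ∀ e f, e ≠ f → (∃ x, IsEnd s t e x ∧ IsEnd s t f x) →
    ∀ z, ¬ ProperCrossing (d.arc s t e) (d.arc s t f) z

/-- The edges of a graph on `Fin n`, each directed from its smaller to its larger end. -/
abbrev Edge {n : ℕ} (G : SimpleGraph (Fin n)) : Type :=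
  {p : Fin n × Fin n // p.1 < p.2 ∧ G.Adj p.1 p.2}

/-- The smaller end of an edge. -/
def Edge.src {n : ℕ} {G : SimpleGraph (Fin n)} (e : Edge G) : Fin n := e.1.1

/-- The larger end of an edge. -/
def Edge.tgt {n : ℕ} {G : SimpleGraph (Fin n)} (e : Edge G) : Fin n := e.1.2

/-- `acr` of a drawing: the sum of `|a(e,f)|` over unordered pairs of edges, each pair taken once
with `e` lexicographically before `f`. -/
noncomputable def acr {n : ℕ} {G : SimpleGraph (Fin n)} (d : Drawing (Edge G) (Fin n)) : ℕ :=
  ∑ e : Edge G, ∑ f : Edge G, if toLex e.1 < toLex f.1 then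
    (algCross (d.arc Edge.src Edge.tgt e) (d.arc Edge.src Edge.tgt f)).natAbs else 0

/-- `acr₊(G) ≤ k`. -/
def AcrPlusLE {n : ℕ} (G : SimpleGraph (Fin n)) (k : ℕ) : Prop :=
  ∃ d : Drawing (Edge G) (Fin n), d.IsPlus Edge.src Edge.tgt ∧ acr d ≤ k

/-- The graph of a Boolean matrix: distinct `i`, `j` are adjacent if entry `(i,j)` or `(j,i)` is
true; missing entries count as false. -/
def graphOf (A : List (List Bool)) : SimpleGraph (Fin A.length) :=
  SimpleGraph.fromRel fun i j => (A.getD i []).getD j false = true

/-- The language ACR₊: binary codes of pairs (adjacency matrix, `k`) with `acr₊ ≤ k`. -/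
noncomputable def ACRplus : N68a2faeb.DecisionProblem := fun x =>
  decide (∃ (A : List (List Bool)) (k : ℕ),
    x = N487b59b3.bitEncode (A, k) ∧ AcrPlusLE (graphOf A) k)

end Pool.Agent.MP_17db17_lc.H93
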