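import Pool.Agent.MP_17db17_lc.H93.Spec

/-!
Soundness of derivations: every fact that is derived from blocks holds.
-/

set_option autoImplicit false

namespace Pool.Agent.MP_17db17_lc.H93

namespace Der

/-- The page reached after `k` changes of page. -/
def pgN (b : Bool) (k : ℕ) : Bool := if k % 2 = 0 then b else !b

lemma pgN_succ (b : Bool) (k : ℕ) : pgN b (k + 1) = pgN (!b) k := by
  unfold pgN
  rcases Nat.mod_two_eq_zero_or_one k with h | h
  · rw [if_neg (by omega), if_pos h]
  · rw [if_pos (by omega), if_neg (by omega), Bool.not_not]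

lemma pgN_not (b : Bool) (k : ℕ) : pgN (!b) k = !pgN b k := by
  unfold pgN
  split_ifs <;> rfl

lemma pgN_add (b : Bool) (k l : ℕ) : pgN b (k + l) = pgN (pgN b k) l := by
  induction l with
  | zero => rfl
  | succ l ih => rw [← add_assoc, pgN_succ, pgN_not, ih, pgN_succ, pgN_not]

lemma pgN_pgN (b : Bool) (k : ℕ) : pgN (pgN b k) k = b := by
  unfold pgN
  split_ifs
  · rfl
  · exact Bool.not_not b

lemma chords_app {α : Type} (v : α) (l : List α) :
    ∀ (m : List α) (b : Bool) (u : α), chords b (u :: (m ++ v :: l)) =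
      chords b (u :: (m ++ [v])) ++ chords (!pgN b m.length) (v :: l)
  | [], b, u => rfl
  | x :: m, b, u => by
    have := chords_app v l m (!b) x
    simp only [List.cons_append, chords, List.length_cons, pgN_succ] at this ⊢
    rw [this]

/-- The reversed chord. -/
def rv {α : Type} (c : Chord α) : Chord α := (c.1, c.2.2, c.2.1)

lemma chords_rev {α : Type} (v : α) :
    ∀ (m : List α) (b : Bool) (u : α), chords (pgN b m.length) (v :: (m.reverse ++ [u])) =
      ((chords b (u :: (m ++ [v]))).map rv).reverse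
  | [], b, u => rfl
  | x :: m, b, u => by
    have h := chords_rev v m (!b) x
    rw [List.reverse_cons, List.append_assoc, List.singleton_append, chords_app, List.length_cons,
      pgN_succ, h, List.length_reverse, pgN_pgN, Bool.not_not]
    simp [chords, rv]

lemma cell_mono (vp : List ℤ) {p q : ℤ} (h : p ≤ q) : cell vp p ≤ cell vp q := by
  rcases h.eq_or_lt with rfl | h
  · exact le_rfl
  have key : (vp.filter fun v => decide (v < p)).length + (if p ∈ vp then 1 else 0) ≤
      (vp.filter fun v => decide (v < q)).length := by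
    induction vp with
    | nil => simp
    | cons a vp ih =>
      simp only [List.filter_cons, List.mem_cons, decide_eq_true_eq]
      by_cases h1 : p ∈ vp
      · simp only [h1, if_true, or_true] at ih ⊢
        split_ifs <;> (try simp only [List.length_cons]) <;> omega
      · simp only [h1, if_false, or_false] at ih ⊢
        split_ifs <;> (try simp only [List.length_cons]) <;> omega
  unfold cell
  split_ifs at key ⊢ <;> omega

lemma cell_lt (vp : List ℤ) (p : ℤ) : cell vp p < 2 * vp.length + 1 := by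
  unfold cell
  split_ifs with h
  · have : (vp.filter fun v => decide (v < p)).length < vp.length :=
      List.length_filter_lt_length_iff_exists.2 ⟨p, h, by simp⟩
    omega
  · have := List.length_filter_le (fun v => decide (v < p)) vp
    omega

lemma not_mem_of_even {vp : List ℤ} {p : ℤ} (h : cell vp p % 2 = 0) : p ∉ vp := by
  intro h'
  rw [cell, if_pos h'] at h
  omega

lemma dig {C p a p' a' : ℕ} (ha : a < C) (ha' : a' < C) (h : p * C + a = p' * C + a') :
    p = p' ∧ a = a' := by
  have h1 : (p * C + a) % C = a := by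
    rw [Nat.mul_add_mod_of_lt ha]
  have h2 : (p' * C + a') % C = a' := by
    rw [Nat.mul_add_mod_of_lt ha']
  have e : a = a' := by rw [← h1, h, h2]
  subst e
  exact ⟨Nat.eq_of_mul_eq_mul_right (by omega) (Nat.add_right_cancel h), rfl⟩

lemma split3 (C j : ℕ) : (j / (C * C) * C + j / C % C) * C + j % C = j := by
  rw [← Nat.div_div_eq_div_mul, Nat.div_add_mod', Nat.div_add_mod']

lemma code_tr {C : ℕ} (π : Bool) {c c' : ℕ} (hc : c < C) (hc' : c' < C) (j : ℕ) :
    code C π c' c = j ↔ code C π c c' = trIdx C j := by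
  have h0 : 0 < C := by omega
  have m1 : j % C < C := Nat.mod_lt _ h0
  have m2 : j / C % C < C := Nat.mod_lt _ h0
  unfold code trIdx
  constructor
  · intro h
    obtain ⟨h1, h2⟩ := dig hc m1 (h.trans (split3 C j).symm)
    obtain ⟨h3, h4⟩ := dig hc' m2 h1
    rw [← h2, ← h3, ← h4]
  · intro h
    obtain ⟨h1, h2⟩ := dig hc' m2 h
    obtain ⟨h3, h4⟩ := dig hc m1 h1
    rw [h2, h3, h4, split3]

lemma trIdx_lt {C j : ℕ} (h : j < 2 * C * C) : trIdx C j < 2 * C * C := by
  have h0 : 0 < C := Nat.pos_of_ne_zero fun e => by simp [e] at h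
  have m1 : j % C < C := Nat.mod_lt _ h0
  have m2 : j / C % C < C := Nat.mod_lt _ h0
  have m3 : j / (C * C) < 2 := Nat.div_lt_of_lt_mul (by rw [mul_comm, ← mul_assoc]; exact h)
  unfold trIdx
  generalize j % C = a at *
  generalize j / C % C = b at *
  generalize j / (C * C) = p at *
  have h1 : p * C + a + 1 ≤ 2 * C := by nlinarith
  nlinarith

lemma getD_tab (n : ℕ) (f : ℕ → ℕ) {j : ℕ} (h : j < n) :
    ((List.range n).map f).getD j 0 = f j := by
  rw [List.getD_eq_getElem _ _ (by simpa using h)]
  simp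

lemma bch_symm {B : List Block} {π : Bool} {x y : ℤ} (h : BCh B π x y) : BCh B π y x := by
  obtain ⟨k, h1, h2, i, h3, h4⟩ := h
  exact ⟨k, h1, h2, i, h3, h4.symm⟩

variable {vp : List ℤ} {B : List Block}

lemma basic {k : Block} (hk : k ∈ B) (h : blockOK vp k = true) : Holds vp B (basicF vp k) := by
  obtain ⟨π, a, b, W⟩ := k
  simp only [blockOK, Bool.and_eq_true, decide_eq_true_eq] at h
  obtain ⟨⟨⟨⟨-, -⟩, h3⟩, h4⟩, -⟩ := h
  intro i hi
  have hi' : i < W := hi
  have e1 : cell vp (a + 1 * i) = cell vp a :=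
    le_antisymm (h3 ▸ cell_mono vp (by omega)) (cell_mono vp (by omega))
  have e2 : cell vp (b + -1 * i) = cell vp b :=
    le_antisymm (cell_mono vp (by omega)) (h4 ▸ cell_mono vp (by omega))
  refine ⟨[], ⟨fun c hc => ?_, by simp⟩, rfl, rfl, e1, e2, fun j hj => ?_⟩
  · simp only [basicF, List.nil_append, chords, List.mem_singleton] at hc
    subst hc
    exact ⟨_, hk, rfl, i, hi', Or.inl ⟨by simp, by simp [sub_eq_add_neg]⟩⟩
  · simp only [basicF, getD_tab _ _ hj, cnt, List.nil_append, chords, List.filter_cons, e1, e2,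
      decide_eq_true_eq, List.filter_nil]
    by_cases e : j = code (2 * vp.length + 1) π (cell vp a) (cell vp b)
    · rw [if_pos e, if_pos e.symm]; rfl
    · rw [if_neg e, if_neg (Ne.symm e)]; rfl

lemma swap {φ : Fact} (h : Holds vp B φ) : Holds vp B (swapF vp φ) := by
  intro i hi
  obtain ⟨m, ⟨h1, h2⟩, h3, h4, h5, h6, h7⟩ := h i hi
  change φ.2.1.1 = pgN φ.1.1 m.length at h4
  refine ⟨m.reverse, ⟨fun c hc => ?_, fun y hy => h2 y (List.mem_reverse.1 hy)⟩,
    by rw [List.length_reverse]; exact h3, ?_, h6, h5, fun j hj => ?_⟩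
  · simp only [swapF, h4, chords_rev, List.mem_reverse, List.mem_map] at hc
    obtain ⟨d, hd, rfl⟩ := hc
    exact bch_symm (h1 d hd)
  · change φ.1.1 = pgN φ.2.1.1 m.reverse.length
    rw [h4, List.length_reverse, pgN_pgN]
  · simp only [swapF, getD_tab _ _ hj]
    rw [← h7 _ (trIdx_lt hj), h4, cnt, cnt, chords_rev, List.filter_reverse, List.length_reverse,
      List.filter_map, List.length_map]
    congr 2
    funext c
    exact decide_eq_decide.2 (code_tr _ (cell_lt _ _) (cell_lt _ _) j)

lemma sub {φ : Fact} (h : Holds vp B φ) {o δ : ℤ} {L : ℕ} (ho : subOK φ o δ L = true) :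
    Holds vp B (subF φ o δ L) := by
  simp only [subOK, Bool.and_eq_true, decide_eq_true_eq] at ho
  obtain ⟨⟨⟨a1, a2⟩, a3⟩, a4⟩ := ho
  intro i hi
  have hi' : (i : ℤ) ≤ L - 1 := by
    have : i < L := hi
    omega
  have i0 : (0 : ℤ) ≤ i := Int.natCast_nonneg i
  have b1 : 0 ≤ o + δ * i := by
    rcases le_total 0 δ with hd | hd <;> nlinarith
  have b2 : o + δ * i < φ.2.2.1 := by
    rcases le_total 0 δ with hd | hd <;> nlinarith
  obtain ⟨i', e⟩ := Int.eq_ofNat_of_zero_le b1
  have e1 : ∀ x s : ℤ, x + s * o + s * δ * i = x + s * i' := fun x s => by rw [← e]; ring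
  have := h i' (by omega)
  simpa only [subF, e1] using this

lemma comp {φ ψ : Fact} (h : Holds vp B φ) (h' : Holds vp B ψ) (ho : compOK φ ψ = true) :
    Holds vp B (compF vp φ ψ) := by
  simp only [compOK, Bool.and_eq_true, decide_eq_true_eq] at ho
  obtain ⟨⟨a1, a2⟩, a3⟩ := ho
  intro i hi
  obtain ⟨m, ⟨h1, h2⟩, h3, h4, h5, h6, h7⟩ := h i hi
  obtain ⟨m', ⟨g1, g2⟩, g3, g4, -, g6, g7⟩ := h' i (a3 ▸ hi)
  change φ.2.1.1 = pgN φ.1.1 m.length at h4
  change ψ.2.1.1 = pgN ψ.1.1 m'.length at g4
  simp only [a1, h4] at g1 g4 g7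
  refine ⟨m ++ (φ.2.1.2.1 + φ.2.1.2.2.1 * i) :: m', ⟨fun c hc => ?_, fun y hy => ?_⟩, ?_, ?_, h5,
    g6, fun j hj => ?_⟩
  · simp only [compF] at hc
    rw [List.append_assoc, List.cons_append, chords_app, List.mem_append] at hc
    exact hc.elim (h1 c) (g1 c)
  · rcases List.mem_append.1 hy with hy | hy
    · exact h2 y hy
    · rcases List.mem_cons.1 hy with rfl | hy
      · exact not_mem_of_even (h6 ▸ a2)
      · exact g2 y hy
  · simp only [compF, List.length_append, List.length_cons]
    omega
  · change ψ.2.1.1 = pgN φ.1.1 _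
    rw [g4, List.length_append, List.length_cons, pgN_add, pgN_succ]
  · simp only [compF, getD_tab _ _ hj]
    rw [← h7 j hj, ← g7 j hj, cnt, cnt, cnt, List.append_assoc, List.cons_append, chords_app,
      List.filter_append, List.length_append]

lemma step (hB : blocksOK vp B = true) {P : List Entry} (hP : ∀ y ∈ P, Holds vp B y.1)
    {x : Entry} (h : stepOK vp B P x = true) : Holds vp B x.1 := by
  simp only [stepOK, Bool.or_eq_true, List.any_eq_true, Bool.and_eq_true, decide_eq_true_eq] at h
  rcases h with ⟨k, hk, e⟩ | ⟨y, hy, (e | ⟨ho, e⟩) | ⟨z, hz, ho, e⟩⟩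
  · simp only [blocksOK, List.all_eq_true, Bool.and_eq_true] at hB
    rw [e]
    exact basic hk (hB k hk).1
  · rw [e]
    exact swap (hP y hy)
  · rw [e]
    exact sub (hP y hy) ho
  · rw [e]
    exact comp (hP y hy) (hP z hz) ho

end Der

theorem der : DerStmt := by
  intro vp B Γ hB hΓ
  simp only [derivOK, List.all_eq_true, List.mem_range] at hΓ
  have key : ∀ i, i ≤ Γ.length → ∀ x ∈ Γ.take i, Holds vp B x.1 := by
    intro i
    induction i with
    | zero => simp
    | succ i ih =>
      intro hi x hx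
      rw [List.take_succ_eq_append_getElem hi, List.mem_append, List.mem_singleton] at hx
      rcases hx with hx | rfl
      · exact ih (by omega) x hx
      · have := hΓ i hi
        rw [List.getD_eq_getElem _ _ hi] at this
        exact Der.step hB (ih (by omega)) this
  simpa using key Γ.length le_rfl

end Pool.Agent.MP_17db17_lc.H93
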