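import Pool.Agent.MP_17db17_lc.H93.Spec

set_option autoImplicit false

namespace Pool.Agent.MP_17db17_lc.H93

namespace Det

/-- page of chord number `i` of a path that starts on page `b` -/
def pgi (b : Bool) (i : ℕ) : Bool := if i % 2 = 0 then b else !b

theorem pgi_succ (b : Bool) (i : ℕ) : pgi b (i + 1) = pgi (!b) i := by
  unfold pgi
  rcases Nat.mod_two_eq_zero_or_one i with h | h
  · have h1 : (i + 1) % 2 = 1 := by omega
    simp [h, h1]
  · have h1 : (i + 1) % 2 = 0 := by omega
    simp [h, h1]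

theorem pgi_congr (b : Bool) {i j : ℕ} (h : i % 2 = j % 2) : pgi b i = pgi b j := by
  unfold pgi
  rw [h]

theorem pgi_not (b : Bool) {i j : ℕ} (h : i % 2 ≠ j % 2) : pgi b i = !pgi b j := by
  unfold pgi
  rcases Nat.mod_two_eq_zero_or_one i with h1 | h1 <;>
    rcases Nat.mod_two_eq_zero_or_one j with h2 | h2 <;> simp_all

theorem mem_chords (l : List ℤ) : ∀ (b : Bool) (i : ℕ), i + 1 < l.length →
    (pgi b i, l.getD i 0, l.getD (i + 1) 0) ∈ chords b l := by
  induction l with
  | nil => intro b i h; simp at h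
  | cons x l ih =>
    intro b i h
    cases l with
    | nil => simp at h
    | cons y l =>
      cases i with
      | zero => simp [chords, pgi]
      | succ i =>
        have := ih (!b) i (by simpa using h)
        rw [pgi_succ]
        simp only [chords, List.mem_cons]
        right
        simpa using this

theorem bch_symm {B : List Block} {π : Bool} {x y : ℤ} (h : BCh B π x y) : BCh B π y x := by
  obtain ⟨k, hk, hp, i, hi, h⟩ := h
  exact ⟨k, hk, hp, i, hi, h.symm⟩

theorem cell_mono (vp : List ℤ) {x y : ℤ} (h : x ≤ y) : cell vp x ≤ cell vp y := by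
  rcases h.eq_or_lt with h | h
  · rw [h]
  · have key : ∀ l : List ℤ, (l.filter fun v => decide (v < x)).length +
        (if x ∈ l then 1 else 0) ≤ (l.filter fun v => decide (v < y)).length := by
      intro l
      induction l with
      | nil => simp
      | cons a l ih =>
        simp only [List.filter_cons, List.mem_cons]
        by_cases h1 : a < x
        · have h2 : a < y := h1.trans h
          have h3 : ¬ x = a := by omega
          simp only [h1, h2, decide_true, if_true, List.length_cons, h3, false_or]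
          omega
        · by_cases h3 : x = a
          · subst h3
            simp only [h1, h, decide_true, decide_false, if_true, List.length_cons, true_or]
            split_ifs at ih <;> simp_all <;> omega
          · simp only [h1, decide_false, h3, false_or]
            by_cases h2 : a < y
            · simp only [h2, decide_true, if_true, List.length_cons]
              simp only [Bool.false_eq_true, if_false]
              omega
            · simp only [h2, decide_false, Bool.false_eq_true, if_false]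
              exact ih
    have := key vp
    unfold cell
    split_ifs at this ⊢ <;> omega

theorem leV_le {vp : List ℤ} {p q : ℤ} (h : leV vp p q = true) : p ≤ q := by
  unfold leV at h
  simp only [Bool.or_eq_true, Bool.and_eq_true, decide_eq_true_eq] at h
  omega

theorem leV_ne {vp : List ℤ} {p q x : ℤ} (hx : x ∉ vp) (h : leV vp p q = true) :
    p < q ∨ (p = q ∧ p ≠ x) := by
  unfold leV at h
  simp only [Bool.or_eq_true, Bool.and_eq_true, decide_eq_true_eq] at h
  rcases h with h | ⟨h1, h2⟩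
  · exact Or.inl h
  · exact Or.inr ⟨h1, fun e => hx (e ▸ h2)⟩

section blocks
variable {vp : List ℤ} {B : List Block}

theorem ok1 (h : blocksOK vp B = true) {k : Block} (hk : k ∈ B) :
    1 ≤ k.2.2.2 ∧ k.2.1 + k.2.2.2 - 1 < k.2.2.1 - k.2.2.2 + 1 ∧
      cell vp k.2.1 = cell vp (k.2.1 + k.2.2.2 - 1) ∧
      cell vp k.2.2.1 = cell vp (k.2.2.1 - k.2.2.2 + 1) ∧ cell vp k.2.1 ≠ cell vp k.2.2.1 := by
  unfold blocksOK at h
  rw [List.all_eq_true] at h
  have := h k hk
  rw [Bool.and_eq_true] at this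
  have h1 := this.1
  unfold blockOK at h1
  simp only [Bool.and_eq_true, decide_eq_true_eq] at h1
  exact ⟨h1.1.1.1.1, h1.1.1.1.2, h1.1.1.2, h1.1.2, h1.2⟩

theorem ok2 (h : blocksOK vp B = true) {k k' : Block} (hk : k ∈ B) (hk' : k' ∈ B)
    (hp : k.1 = k'.1) :
    k = k' ∨ leV vp k.2.2.1 k'.2.1 = true ∨ leV vp k'.2.2.1 k.2.1 = true ∨
      (leV vp (k.2.1 + k.2.2.2 - 1) k'.2.1 = true ∧
        leV vp k'.2.2.1 (k.2.2.1 - k.2.2.2 + 1) = true) ∨
      (leV vp (k'.2.1 + k'.2.2.2 - 1) k.2.1 = true ∧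
        leV vp k.2.2.1 (k'.2.2.1 - k'.2.2.2 + 1) = true) := by
  unfold blocksOK at h
  rw [List.all_eq_true] at h
  have := h k hk
  rw [Bool.and_eq_true, List.all_eq_true] at this
  have h1 := this.2 k' hk'
  unfold blockPair at h1
  simp only [Bool.or_eq_true, Bool.and_eq_true, decide_eq_true_eq] at h1
  tauto

theorem uniq (h : blocksOK vp B = true) {π : Bool} {x y y' : ℤ} (hx : x ∉ vp)
    (h1 : BCh B π x y) (h2 : BCh B π x y') : y = y' := by
  obtain ⟨k, hk, hp, i, hi, e⟩ := h1
  obtain ⟨k', hk', hp', i', hi', e'⟩ := h2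
  obtain ⟨-, a2, -⟩ := ok1 h hk
  obtain ⟨-, b2, -⟩ := ok1 h hk'
  rcases ok2 h hk hk' (hp.trans hp'.symm) with c | c | c | ⟨c, d⟩ | ⟨c, d⟩
  · subst c
    omega
  · have := leV_ne hx c
    omega
  · have := leV_ne hx c
    omega
  · have := leV_ne hx c
    have := leV_ne hx d
    omega
  · have := leV_ne hx c
    have := leV_ne hx d
    omega

theorem ne_cell (h : blocksOK vp B = true) {π : Bool} {x y : ℤ} (h1 : BCh B π x y) :
    x ≠ y ∧ cell vp x ≠ cell vp y := by
  obtain ⟨k, hk, -, i, hi, e⟩ := h1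
  obtain ⟨-, a2, a3, a4, a5⟩ := ok1 h hk
  have m1 : cell vp k.2.1 ≤ cell vp (k.2.1 + i) := cell_mono vp (by omega)
  have m2 : cell vp (k.2.1 + i) ≤ cell vp (k.2.1 + k.2.2.2 - 1) := cell_mono vp (by omega)
  have m3 : cell vp (k.2.2.1 - i) ≤ cell vp k.2.2.1 := cell_mono vp (by omega)
  have m4 : cell vp (k.2.2.1 - k.2.2.2 + 1) ≤ cell vp (k.2.2.1 - i) := cell_mono vp (by omega)
  rcases e with ⟨e1, e2⟩ | ⟨e1, e2⟩
  · subst e1 e2
    exact ⟨by omega, by omega⟩
  · subst e1 e2
    exact ⟨by omega, by omega⟩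

theorem noCross (h : blocksOK vp B = true) {π : Bool} {x y x' y' : ℤ} (h1 : BCh B π x y)
    (h2 : BCh B π x' y') : ¬ Cross (π, x, y) (π, x', y') := by
  obtain ⟨k, hk, hp, i, hi, e⟩ := h1
  obtain ⟨k', hk', hp', i', hi', e'⟩ := h2
  obtain ⟨-, a2, -⟩ := ok1 h hk
  obtain ⟨-, b2, -⟩ := ok1 h hk'
  rintro ⟨-, hc⟩
  simp only [Btw, Out] at hc
  rcases ok2 h hk hk' (hp.trans hp'.symm) with c | c | c | ⟨c, d⟩ | ⟨c, d⟩
  · subst c
    omega
  · have := leV_le c
    omega
  · have := leV_le c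
    omega
  · have := leV_le c
    have := leV_le d
    omega
  · have := leV_le c
    have := leV_le d
    omega

/-- a walk as a sequence of points -/
structure Sq (vp : List ℤ) (B : List Block) (π : Bool) (n : ℕ) (P : ℕ → ℤ) : Prop where
  ch : ∀ i ≤ n, BCh B (pgi π i) (P i) (P (i + 1))
  inner : ∀ i, 1 ≤ i → i ≤ n → P i ∉ vp

theorem getD_mid (u v : ℤ) (m : List ℤ) (i : ℕ) (hi : i < m.length) :
    (u :: (m ++ [v])).getD (i + 1) 0 = m[i] := by
  simp [List.getD_eq_getElem?_getD, List.getElem?_append_left hi, List.getElem?_eq_getElem hi]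

theorem getD_last (u v : ℤ) (m : List ℤ) :
    (u :: (m ++ [v])).getD (m.length + 1) 0 = v := by
  simp [List.getD_eq_getElem?_getD]

theorem walk_sq {π : Bool} {u v : ℤ} {m : List ℤ} (w : Walk vp B π u m v) :
    Sq vp B π m.length fun i => (u :: (m ++ [v])).getD i 0 := by
  refine ⟨fun i hi => ?_, fun i h1 h2 => ?_⟩
  · exact w.1 _ (mem_chords (u :: (m ++ [v])) π i (by simp; omega))
  · obtain ⟨j, rfl⟩ : ∃ j, i = j + 1 := ⟨i - 1, by omega⟩
    rw [getD_mid u v m j (by omega)]
    exact w.2 _ (List.getElem_mem _)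

theorem sq_odd (h : blocksOK vp B = true) {π : Bool} {n : ℕ} {P : ℕ → ℤ} (s : Sq vp B π n P) :
    ∀ d i, 1 ≤ i → i + (2 * d + 1) ≤ n → P i ≠ P (i + (2 * d + 1)) := by
  intro d
  induction d with
  | zero => intro i _ h2; exact (ne_cell h (s.ch i (by omega))).1
  | succ d ih =>
    intro i h1 h2 e
    have c1 := s.ch i (by omega)
    have c2 := bch_symm (s.ch (i + (2 * d + 2)) (by omega))
    rw [pgi_congr π (show (i + (2 * d + 2)) % 2 = i % 2 by omega),
      show i + (2 * d + 2) + 1 = i + (2 * (d + 1) + 1) by omega, ← e] at c2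
    have := uniq h (s.inner i h1 (by omega)) c1 c2
    exact ih (i + 1) (by omega) (by omega)
      (by rw [this, show i + 1 + (2 * d + 1) = i + (2 * d + 2) by omega])

theorem sq_even (h : blocksOK vp B = true) {π : Bool} {n : ℕ} {P : ℕ → ℤ} (s : Sq vp B π n P)
    (h0 : P 0 ∈ vp) (d : ℕ) : ∀ i, i + (2 * d + 2) ≤ n → P i ≠ P (i + (2 * d + 2)) := by
  intro i
  induction i with
  | zero => intro h2 e; exact s.inner _ (by omega) h2 (e ▸ h0)
  | succ i ih =>
    intro h2 e
    have c1 := bch_symm (s.ch i (by omega))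
    have c2 := bch_symm (s.ch (i + (2 * d + 2)) (by omega))
    rw [pgi_congr π (show (i + (2 * d + 2)) % 2 = i % 2 by omega),
      show i + (2 * d + 2) + 1 = i + 1 + (2 * d + 2) by omega, ← e] at c2
    exact ih (by omega) (uniq h (s.inner (i + 1) (by omega) (by omega)) c1 c2)

theorem walk_nodup (h : blocksOK vp B = true) {π : Bool} {u v : ℤ} {m : List ℤ}
    (w : Walk vp B π u m v) (hu : u ∈ vp) : m.Nodup := by
  have s := walk_sq w
  rw [List.nodup_iff_pairwise_ne, List.pairwise_iff_getElem]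
  intro i j hi hj hij
  rw [← getD_mid u v m i hi, ← getD_mid u v m j hj]
  rcases Nat.even_or_odd' (j - i) with ⟨d, hd | hd⟩
  · have := sq_even h s (by simpa using hu) (d - 1) (i + 1) (by omega)
    rwa [show i + 1 + (2 * (d - 1) + 2) = j + 1 by omega] at this
  · have := sq_odd h s d (i + 1) (by omega) (by omega)
    rwa [show i + 1 + (2 * d + 1) = j + 1 by omega] at this

/-- two strands that start at the same inner point on the same page end at the same vertex -/
theorem strand (h : blocksOK vp B = true) : ∀ (n n' : ℕ) (α : ℕ → Bool) (f g : ℕ → ℤ),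
    (∀ t ≤ n, BCh B (α t) (f t) (f (t + 1))) → (∀ t ≤ n', BCh B (α t) (g t) (g (t + 1))) →
    (∀ t ≤ n, f t ∉ vp) → (∀ t ≤ n', g t ∉ vp) → f (n + 1) ∈ vp → g (n' + 1) ∈ vp →
    f 0 = g 0 → f (n + 1) = g (n' + 1) := by
  intro n
  induction n with
  | zero =>
    intro n' α f g c1 c2 i1 i2 e1 e2 h0
    have a := c2 0 (by omega)
    rw [← h0] at a
    have b := uniq h (i1 0 le_rfl) (c1 0 le_rfl) a
    cases n' with
    | zero => exact b
    | succ n' => exact absurd (b ▸ e1) (i2 (0 + 1) (by omega))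
  | succ n ih =>
    intro n' α f g c1 c2 i1 i2 e1 e2 h0
    have a := c2 0 (by omega)
    rw [← h0] at a
    have b := uniq h (i1 0 (by omega)) (c1 0 (by omega)) a
    cases n' with
    | zero => exact absurd (b ▸ e2) (i1 (0 + 1) (by omega))
    | succ n' =>
      exact ih n' (fun t => α (t + 1)) (fun t => f (t + 1)) (fun t => g (t + 1))
        (fun t ht => c1 (t + 1) (by omega)) (fun t ht => c2 (t + 1) (by omega))
        (fun t ht => i1 (t + 1) (by omega)) (fun t ht => i2 (t + 1) (by omega)) e1 e2 b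

theorem pgi_add (b : Bool) (i t : ℕ) : pgi b (i + t) = pgi (pgi b i) t := by
  unfold pgi
  rcases Nat.mod_two_eq_zero_or_one i with h1 | h1 <;>
    rcases Nat.mod_two_eq_zero_or_one t with h2 | h2
  · have : (i + t) % 2 = 0 := by omega
    simp [h1, h2, this]
  · have : (i + t) % 2 = 1 := by omega
    simp [h1, h2, this]
  · have : (i + t) % 2 = 1 := by omega
    simp [h1, h2, this]
  · have : (i + t) % 2 = 0 := by omega
    simp [h1, h2, this]

theorem fwd {π : Bool} {n : ℕ} {P : ℕ → ℤ} (s : Sq vp B π n P) {i : ℕ} (h1 : 1 ≤ i)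
    (h2 : i ≤ n) :
    (∀ t ≤ n - i, BCh B (pgi (pgi π i) t) (P (i + t)) (P (i + (t + 1)))) ∧
      ∀ t ≤ n - i, P (i + t) ∉ vp :=
  ⟨fun t ht => by rw [← pgi_add]; exact s.ch (i + t) (by omega),
    fun t ht => s.inner _ (by omega) (by omega)⟩

theorem bwd {π : Bool} {n : ℕ} {P : ℕ → ℤ} (s : Sq vp B π n P) {i : ℕ} (h1 : 1 ≤ i)
    (h2 : i ≤ n) :
    (∀ t ≤ i - 1, BCh B (pgi (!pgi π i) t) (P (i - t)) (P (i - (t + 1)))) ∧
      ∀ t ≤ i - 1, P (i - t) ∉ vp := by
  refine ⟨fun t ht => ?_, fun t ht => s.inner _ (by omega) (by omega)⟩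
  have c := bch_symm (s.ch (i - (t + 1)) (by omega))
  rw [show i - (t + 1) + 1 = i - t by omega] at c
  rw [← pgi_succ, ← pgi_add, pgi_congr π (show (i + (t + 1)) % 2 = (i - (t + 1)) % 2 by omega)]
  exact c

theorem sq_ends (h : blocksOK vp B = true) {π π' : Bool} {n n' : ℕ} {P Q : ℕ → ℤ}
    (s : Sq vp B π n P) (s' : Sq vp B π' n' Q) (p0 : P 0 ∈ vp) (p1 : P (n + 1) ∈ vp)
    (q0 : Q 0 ∈ vp) (q1 : Q (n' + 1) ∈ vp) {i j : ℕ} (i1 : 1 ≤ i) (i2 : i ≤ n) (j1 : 1 ≤ j)
    (j2 : j ≤ n') (e : P i = Q j) :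
    (P 0 = Q 0 ∧ P (n + 1) = Q (n' + 1)) ∨ (P 0 = Q (n' + 1) ∧ P (n + 1) = Q 0) := by
  obtain ⟨f1, f2⟩ := fwd s i1 i2
  obtain ⟨b1, b2⟩ := bwd s i1 i2
  obtain ⟨f3, f4⟩ := fwd s' j1 j2
  obtain ⟨b3, b4⟩ := bwd s' j1 j2
  have e1 : i + (n - i + 1) = n + 1 := by omega
  have e2 : j + (n' - j + 1) = n' + 1 := by omega
  have e3 : i - (i - 1 + 1) = 0 := by omega
  have e4 : j - (j - 1 + 1) = 0 := by omega
  by_cases hp : pgi π' j = pgi π i
  · left
    rw [hp] at f3 b3
    have a := strand h (n - i) (n' - j) _ (fun t => P (i + t)) (fun t => Q (j + t)) f1 f3 f2 f4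
      (by simpa only [e1] using p1) (by simpa only [e2] using q1) e
    have b := strand h (i - 1) (j - 1) _ (fun t => P (i - t)) (fun t => Q (j - t)) b1 b3 b2 b4
      (by simpa only [e3] using p0) (by simpa only [e4] using q0) e
    simp only [e1, e2, e3, e4] at a b
    exact ⟨b, a⟩
  · right
    have hp' : pgi π' j = !pgi π i := by
      cases h1 : pgi π' j <;> cases h2 : pgi π i <;> simp_all
    rw [hp'] at f3 b3
    rw [Bool.not_not] at b3
    have a := strand h (n - i) (j - 1) _ (fun t => P (i + t)) (fun t => Q (j - t)) f1 b3 f2 b4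
      (by simpa only [e1] using p1) (by simpa only [e4] using q0) e
    have b := strand h (i - 1) (n' - j) _ (fun t => P (i - t)) (fun t => Q (j + t)) b1 f3 b2 f4
      (by simpa only [e3] using p0) (by simpa only [e2] using q1) e
    simp only [e1, e2, e3, e4] at a b
    exact ⟨b, a⟩

end blocks

end Det

theorem detB : DetStmt := by
  intro vp B h
  refine ⟨fun π x y y' hx h1 h2 => Det.uniq h hx h1 h2, fun π x y h1 => Det.ne_cell h h1,
    fun π x y x' y' h1 h2 => Det.noCross h h1 h2,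
    fun π u m v w hu => Det.walk_nodup h w hu, ?_⟩
  rintro π u m v π' u' m' v' w w' hu hv hu' hv' ⟨y, hy, hy'⟩
  obtain ⟨i, hi, ei⟩ := List.getElem_of_mem hy
  obtain ⟨j, hj, ej⟩ := List.getElem_of_mem hy'
  have := Det.sq_ends h (Det.walk_sq w) (Det.walk_sq w') (by simpa using hu)
    (by rw [Det.getD_last]; exact hv) (by simpa using hu') (by rw [Det.getD_last]; exact hv')
    (i := i + 1) (j := j + 1) (by omega) (by omega) (by omega) (by omega)
    (by rw [Det.getD_mid u v m i hi, Det.getD_mid u' v' m' j hj, ei, ej])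
  rw [Det.getD_last, Det.getD_last] at this
  simpa using this

end Pool.Agent.MP_17db17_lc.H93
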