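import Pool.Agent.MP_17db17_lc.H93.Basic

set_option autoImplicit false

namespace Pool.Agent.MP_17db17_lc.H93

open Classical

namespace Fil

/-- a function that is the same at both ends of each chord is constant on the path -/
theorem const {α : Type} (φ : α → ℤ) {b : Bool} {x y : α} {m : List α}
    (h : ∀ c ∈ chords b (x :: (m ++ [y])), φ c.2.1 = φ c.2.2) : ∀ z ∈ m, φ z = φ x := by
  induction m generalizing b x with
  | nil => simp
  | cons u m ih =>
    simp only [List.cons_append, chords_cons_cons, List.mem_cons] at h ⊢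
    have h0 : φ x = φ u := h (b, x, u) (Or.inl rfl)
    rintro z (rfl | hz)
    · exact h0.symm
    · rw [h0]
      exact ih (b := !b) (x := u) (fun c hc => h c (Or.inr hc)) z hz

/-- the shape of a piece between two consecutive even points -/
theorem shape {α : Type} (w : α → ℤ) (p : Piece α) (hs : Even (w p.2.1)) (ht : Even (w p.2.2.2))
    (hm : ∀ z ∈ p.2.2.1, Odd (w z)) (hc : ∀ c ∈ p.chs, c.1 = true → w c.2.1 = w c.2.2) :
    p.2.2.1.length % 2 = 0 ∧ (p.1 = true → p.2.2.1 = []) ∧
      (p.1 = false → ∀ c ∈ p.chs, c.1 = true → Odd (w c.2.1)) := by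
  obtain ⟨π, x, m, y⟩ := p
  simp only [Piece.chs, Piece.l] at hs ht hm hc ⊢
  have h1 : π = true → m = [] := by
    rintro rfl
    cases m with
    | nil => rfl
    | cons z m =>
      have e : w x = w z := hc (true, x, z) (by simp) rfl
      exact absurd (hm z (by simp)) (Int.not_odd_iff_even.2 (e ▸ hs))
  refine ⟨?_, h1, ?_⟩
  · rcases m.eq_nil_or_concat with rfl | ⟨m, z, rfl⟩
    · rfl
    · have hπ : π = false := by
        cases π
        · rfl
        · simpa using h1 rfl
      subst hπ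
      have e : x :: (m.concat z ++ [y]) = (x :: m) ++ [z, y] := by simp
      rw [e, chords_concat] at hc
      have hz : Odd (w z) := hm z (by simp)
      by_contra hne
      have e2 : w z = w y := hc (_, z, y) (List.mem_append_right _ (List.mem_singleton_self _)) (by
        simp only [List.length_concat, List.length_cons] at hne ⊢
        unfold flipN
        rw [if_neg hne]
        rfl)
      exact absurd hz (Int.not_odd_iff_even.2 (e2 ▸ ht))
  · rintro rfl c hcm hc1
    cases m with
    | nil =>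
      simp only [List.nil_append, chords_cons_cons, chords_single, List.mem_singleton] at hcm
      subst hcm
      simp at hc1
    | cons z m =>
      simp only [List.cons_append, chords_cons_cons, List.mem_cons] at hcm
      rcases hcm with rfl | hcm
      · simp at hc1
      · rcases (mem_of_mem_chords' hcm).1 with e | e
        · rw [e]; exact hm z (by simp)
        · exact hm _ (by simp [e])

theorem covL_zero {α : Type} [LinearOrder α] {π : Bool} {C : List (Chord α)}
    (h : ∀ c ∈ C, c.1 ≠ π) (z : α) : covL π C z = 0 := by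
  induction C with
  | nil => rfl
  | cons c C ih =>
    rw [covL_cons, if_neg (h c List.mem_cons_self), ih fun d hd => h d (List.mem_cons_of_mem _ hd)]
    rfl

theorem covL_map {α γ : Type} [LinearOrder α] (π : Bool) (S : List γ) (f : γ → Chord α) (z : α) :
    covL π (S.map f) z = (S.map fun s => covL π [f s] z).sum := by
  induction S with
  | nil => rfl
  | cons s S ih =>
    rw [List.map_cons, List.map_cons, List.sum_cons, ← ih, covL_cons, covL_cons, covL_nil, add_zero]

variable {ι V : Type} {G : Gr ι V} {D : Sys ι V ℤ} {F : ι → Prop} {b : Bool} {a a' : ℤ}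
  {M : List ℤ}

/-- the points that stay -/
def keep (b : Bool) (L : List ℤ) (y : ℤ) : Bool := decide (Even (cov true b L y))

/-- the pieces of an element -/
def pcs (D : Sys ι V ℤ) (G : Gr ι V) (b : Bool) (L : List ℤ) (e : ι) : List (Piece ℤ) :=
  pieces (keep b L) (D.sp e) (D.pos (G.s e)) (D.mid e) (D.pos (G.t e))

theorem notL (l : Leaf D G F b a M a') {e : ι} {y : ℤ} (hy : y ∈ D.path G e) :
    y ∉ a :: (M ++ [a']) := by
  rcases Sys.pt_of_mem_path hy with h | ⟨x, rfl⟩
  · exact l.notM e y h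
  · exact l.notV x

theorem pres (l : Leaf D G F b a M a') {e : ι} (he : F e ∨ G.Nb F e) {c : Chord ℤ}
    (hc : c ∈ D.chs G e) :
    cov c.1 b (a :: (M ++ [a'])) c.2.1 = cov c.1 b (a :: (M ++ [a'])) c.2.2 := by
  obtain ⟨c1, c2⟩ := mem_of_mem_chords hc
  refine covL_eq_of_not_cross (fun d hd => l.avoid e he d hd c hc) fun d hd _ => ?_
  obtain ⟨d1, d2⟩ := mem_of_mem_chords hd
  exact ⟨fun h => notL l c1 (h ▸ d1), fun h => notL l c1 (h ▸ d2), fun h => notL l c2 (h ▸ d1),
    fun h => notL l c2 (h ▸ d2)⟩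

theorem out_zero {y : ℤ} (h : ¬ InW a a' y) :
    cov true b (a :: (M ++ [a'])) y + cov false b (a :: (M ++ [a'])) y = 0 := by
  rw [cov_add]
  unfold InW at h
  unfold ind
  split_ifs <;> omega

theorem in_odd {y : ℤ} (h : InW a a' y) (h' : y ∉ a :: (M ++ [a'])) :
    Odd (cov true b (a :: (M ++ [a'])) y + cov false b (a :: (M ++ [a'])) y) := by
  rw [cov_add]
  have h1 : y ≠ a := fun e => h' (by simp [e])
  have h2 : y ≠ a' := fun e => h' (by simp [e])
  unfold InW at h
  unfold ind
  rw [Int.odd_iff]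
  split_ifs <;> omega

/-- neighbours lose nothing -/
theorem nb_keep (l : Leaf D G F b a M a') {e : ι} (he : G.Nb F e) :
    (D.mid e).filter (keep b (a :: (M ++ [a']))) = D.mid e := by
  rw [List.filter_eq_self]
  intro z hz
  have out : ∀ y ∈ D.path G e, ¬ InW a a' y := fun y hy => by
    rcases Sys.pt_of_mem_path hy with h | ⟨x, rfl⟩
    · exact l.noI e he y h
    · exact l.noV x
  have := const (cov true b (a :: (M ++ [a']))) (b := D.sp e) (x := D.pos (G.s e))
    (y := D.pos (G.t e)) (m := D.mid e) (fun c hc => by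
      have h0 := pres l (Or.inr he) hc
      obtain ⟨c1, c2⟩ := mem_of_mem_chords hc
      have h1 := out_zero (b := b) (M := M) (out _ c1)
      have h2 := out_zero (b := b) (M := M) (out _ c2)
      cases hπ : c.1 <;> rw [hπ] at h0 <;> omega) z hz
  unfold keep
  rw [this]
  exact decide_eq_true (l.even _)

theorem pc_ends (l : Leaf D G F b a M a') {e : ι} {p : Piece ℤ}
    (hp : p ∈ pcs D G b (a :: (M ++ [a'])) e) :
    Even (cov true b (a :: (M ++ [a'])) p.2.1) ∧ Even (cov true b (a :: (M ++ [a'])) p.2.2.2) ∧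
      ∀ z ∈ p.2.2.1, z ∈ D.mid e ∧ Odd (cov true b (a :: (M ++ [a'])) z) := by
  obtain ⟨h1, h2, h3⟩ := mem_pieces hp
  refine ⟨?_, ?_, fun z hz => ⟨(h3 z hz).1, ?_⟩⟩
  · rcases h1 with h | h
    · rw [h]; exact l.even _
    · exact of_decide_eq_true h.2
  · rcases h2 with h | h
    · rw [h]; exact l.even _
    · exact of_decide_eq_true h.2
  · exact Int.not_even_iff_odd.1 (of_decide_eq_false (h3 z hz).2)

theorem pc_shape (l : Leaf D G F b a M a') {e : ι} (he : F e ∨ G.Nb F e) {p : Piece ℤ}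
    (hp : p ∈ pcs D G b (a :: (M ++ [a'])) e) :
    p.2.2.1.length % 2 = 0 ∧ (p.1 = true → p.2.2.1 = []) ∧
      (p.1 = false → ∀ c ∈ p.chs, c.1 = true → Odd (cov true b (a :: (M ++ [a'])) c.2.1)) := by
  obtain ⟨h1, h2, h3⟩ := pc_ends l hp
  refine shape _ p h1 h2 (fun z hz => (h3 z hz).2) fun c hc h => ?_
  have := pres l he (chs_sub_of_mem_pieces hp hc)
  rwa [h] at this

theorem new_chs (l : Leaf D G F b a M a') {e : ι} (he : F e ∨ G.Nb F e) :
    chords (D.sp e) (D.pos (G.s e) ::
        ((D.mid e).filter (keep b (a :: (M ++ [a']))) ++ [D.pos (G.t e)])) =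
      (pcs D G b (a :: (M ++ [a'])) e).map fun p => (p.1, p.2.1, p.2.2.2) :=
  chords_filter _ _ _ _ _ fun _ hp => (pc_shape l he hp).1

theorem pc_up (l : Leaf D G F b a M a') {e : ι} (he : F e ∨ G.Nb F e) {p : Piece ℤ}
    (hp : p ∈ pcs D G b (a :: (M ++ [a'])) e) (h : p.1 = true) :
    p.chs = [(p.1, p.2.1, p.2.2.2)] := by
  simp [Piece.chs, Piece.l, (pc_shape l he hp).2.1 h]

theorem pc_even (l : Leaf D G F b a M a') {e : ι} (he : F e ∨ G.Nb F e) {p : Piece ℤ}
    (hp : p ∈ pcs D G b (a :: (M ++ [a'])) e) (z : ℤ) :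
    covL true [(p.1, p.2.1, p.2.2.2)] z =
      covL true (p.chs.filter fun c => !oddC b (a :: (M ++ [a'])) c) z := by
  cases h : p.1
  · rw [covL_zero (by simp), covL_zero]
    intro c hc h1
    obtain ⟨hc, h2⟩ := List.mem_filter.1 hc
    have := (pc_shape l he hp).2.2 h c hc h1
    simp [oddC, h1, this] at h2
  · have h1 := (pc_ends l hp).1
    rw [pc_up l he hp h, h, List.filter_cons_of_pos]
    · rfl
    · simp [oddC, h1]

theorem pc_wodd (l : Leaf D G F b a M a') {e : ι} (he : F e ∨ G.Nb F e) {p : Piece ℤ}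
    (hp : p ∈ pcs D G b (a :: (M ++ [a'])) e) (h : p.1 = false) (z : ℤ) :
    wodd b (a :: (M ++ [a'])) p.1 p.l z = cov true p.1 p.l z := by
  have h1 := covL_filter_add true p.chs (oddC b (a :: (M ++ [a']))) z
  rw [← pc_even l he hp, covL_zero (C := [_]) (by simp [h]), add_zero] at h1
  exact h1

theorem new_cv (l : Leaf D G F b a M a') {e : ι} (he : F e ∨ G.Nb F e) (z : ℤ) :
    cov true (D.sp e) (D.pos (G.s e) ::
        ((D.mid e).filter (keep b (a :: (M ++ [a']))) ++ [D.pos (G.t e)])) z =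
      cov true (D.sp e) (D.path G e) z - wodd b (a :: (M ++ [a'])) (D.sp e) (D.path G e) z := by
  have h1 := covL_filter_add true (chords (D.sp e) (D.path G e)) (oddC b (a :: (M ++ [a']))) z
  have h2 : chords (D.sp e) (D.path G e) = (pcs D G b (a :: (M ++ [a'])) e).flatMap Piece.chs :=
    (pieces_chords _ _ _ _ _).symm
  unfold cov wodd
  rw [← h1, add_sub_cancel_left, new_chs l he, h2, List.filter_flatMap, covL_flatMap, covL_map]
  exact congrArg List.sum (List.map_congr_left fun p hp => pc_even l he hp z)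

theorem new_len (l : Leaf D G F b a M a') {e : ι} (he : F e ∨ G.Nb F e) :
    ((D.mid e).filter (keep b (a :: (M ++ [a'])))).length % 2 = (D.mid e).length % 2 := by
  have h1 := List.length_eq_length_filter_add (l := D.mid e) (keep b (a :: (M ++ [a'])))
  have h2 : ((D.mid e).filter fun z => !keep b (a :: (M ++ [a'])) z).length % 2 = 0 := by
    rw [← pieces_inner _ (D.sp e) (D.pos (G.s e)) _ (D.pos (G.t e)), List.length_flatMap,
      ← Nat.dvd_iff_mod_eq_zero]
    refine List.dvd_sum fun n hn => ?_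
    obtain ⟨p, hp, rfl⟩ := List.mem_map.1 hn
    exact Nat.dvd_of_mod_eq_zero (pc_shape l he hp).1
  omega

theorem inner_disj (h : D.Valid G) {e e' : ι} (l : Leaf D G F b a M a') {p q : Piece ℤ}
    (hp : p ∈ pcs D G b (a :: (M ++ [a'])) e) (hq : q ∈ pcs D G b (a :: (M ++ [a'])) e')
    (hne : p ≠ q) : ∀ z ∈ p.2.2.1, z ∉ q.2.2.1 := by
  intro z h1 h2
  by_cases hee : e = e'
  · subst hee
    have hn : ((pcs D G b (a :: (M ++ [a'])) e).flatMap fun p => p.2.2.1).Nodup := by
      unfold pcs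
      rw [pieces_inner]
      exact (h.nodup e).filter _
    have := (List.nodup_flatMap.1 hn).2
    have _ : Std.Symm fun p q : Piece ℤ => p.2.2.1.Disjoint q.2.2.1 := ⟨fun _ _ k => k.symm⟩
    exact List.Pairwise.forall (R := fun p q : Piece ℤ => p.2.2.1.Disjoint q.2.2.1) this hp hq hne
      h1 h2
  · exact h.disj e e' hee z ((pc_ends l hp).2.2 z h1).1 ((pc_ends l hq).2.2 z h2).1

theorem pc_nc (sy : SymStmt) (h : D.Valid G) (l : Leaf D G F b a M a') {e e' : ι}
    (hee : e = e' ∨ G.H e e') (he : F e ∨ G.Nb F e) (he' : F e' ∨ G.Nb F e') {p q : Piece ℤ}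
    (hp : p ∈ pcs D G b (a :: (M ++ [a'])) e) (hq : q ∈ pcs D G b (a :: (M ++ [a'])) e') :
    ¬ Cross (p.1, p.2.1, p.2.2.2) (q.1, q.2.1, q.2.2.2) := by
  intro hx
  have hπ : p.1 = q.1 := hx.1
  have nc : ∀ c ∈ p.chs, ∀ d ∈ q.chs, ¬ Cross c d := fun c hc d hd =>
    h.noCross hee c (chs_sub_of_mem_pieces hp hc) d (chs_sub_of_mem_pieces hq hd)
  cases h1 : p.1
  swap
  · refine nc _ ?_ _ ?_ hx
    · rw [pc_up l he hp h1]; exact List.mem_singleton_self _
    · rw [pc_up l he' hq (hπ ▸ h1)]; exact List.mem_singleton_self _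
  obtain ⟨-, -, n1, n2, n3, n4⟩ := hx.ne
  simp only at n1 n2 n3 n4
  obtain ⟨p1, p2, p3⟩ := pc_ends l hp
  obtain ⟨q1, q2, q3⟩ := pc_ends l hq
  have dj : ∀ z ∈ p.l, z ∉ q.l := by
    intro z z1 z2
    simp only [Piece.l, List.mem_cons, List.mem_append, List.not_mem_nil, or_false] at z1 z2
    have k : ∀ y, Even (cov true b (a :: (M ++ [a'])) y) → ¬ Odd (cov true b (a :: (M ++ [a'])) y) :=
      fun y => Int.not_odd_iff_even.2
    rcases z1 with rfl | z1 | rfl <;> rcases z2 with z2 | z2 | z2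
    · exact n1 z2.symm
    · exact k _ p1 (q3 _ z2).2
    · exact n3 z2.symm
    · exact k _ q1 (z2 ▸ (p3 _ z1).2)
    · exact inner_disj h l hp hq (fun e => n1 (e ▸ rfl)) z z1 z2
    · exact k _ q2 (z2 ▸ (p3 _ z1).2)
    · exact n2 z2.symm
    · exact k _ p2 (q3 _ z2).2
    · exact n4 z2.symm
  have x0 : XS p.chs q.chs = 0 := XS_eq_zero fun c hc d hd => by
    obtain ⟨c1, c2⟩ := mem_of_mem_chords hc
    obtain ⟨d1, d2⟩ := mem_of_mem_chords hd
    exact (xs_eq_zero_iff (c := c) (d := d) fun _ => ⟨fun e => dj _ c1 (e ▸ d1),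
      fun e => dj _ c1 (e ▸ d2), fun e => dj _ c2 (e ▸ d1), fun e => dj _ c2 (e ▸ d2)⟩).2
      (nc c hc d hd)
  have x1 := XS_path p.1 p.2.1 p.2.2.1 p.2.2.2 q.1 q.2.1 q.2.2.1 q.2.2.2 dj
  have x2 := sy b a M a' p q (fun y hy => notL l (e := e) (mem_l_of_mem_pieces hp hy))
    (fun y hy => notL l (e := e') (mem_l_of_mem_pieces hq hy)) dj
    (fun c hc d hd => l.avoid e he c hc d (chs_sub_of_mem_pieces hp hd))
    (fun c hc d hd => l.avoid e' he' c hc d (chs_sub_of_mem_pieces hq hd)) p1 p2 q1 q2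
  rw [pc_wodd l he hp h1, pc_wodd l he hp h1, pc_wodd l he' hq (hπ ▸ h1),
    pc_wodd l he' hq (hπ ▸ h1)] at x2
  have x3 := cov_add p.1 p.2.1 p.2.2.1 p.2.2.2 q.2.1
  have x4 := cov_add p.1 p.2.1 p.2.2.1 p.2.2.2 q.2.2.2
  unfold Piece.chs at x0
  unfold Piece.l at x0 x2
  rw [← hπ] at hx
  refine (not_cross_iff n1 n2 n3 n4).2 ?_ hx
  omega

theorem drop (hr : D.Reduced G) (l : Leaf D G F b a M a') :
    ∃ e, F e ∧ ∃ y ∈ D.mid e, keep b (a :: (M ++ [a'])) y = false := by
  obtain ⟨e, he, y, hy, hw⟩ := l.hit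
  refine ⟨e, he, ?_⟩
  by_cases h0 : Even (cov true b (a :: (M ++ [a'])) y)
  swap
  · exact ⟨y, hy, decide_eq_false h0⟩
  obtain ⟨y', hc⟩ := Sys.ch_exists G hy false
  obtain ⟨x, hx⟩ := hr.ch_sep hc
  have h1 : ¬ InW a a' y' := fun k => l.noV x (by unfold InW at *; omega)
  have h2 : cov false b (a :: (M ++ [a'])) y = cov false b (a :: (M ++ [a'])) y' := by
    rcases hc with hc | hc
    · exact pres l (Or.inl he) hc
    · exact (pres l (Or.inl he) hc).symm
  have h3 := out_zero (b := b) (M := M) h1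
  have h4 := in_odd (b := b) hw (l.notM e y hy)
  have h5 : ¬ Even (cov true b (a :: (M ++ [a'])) y') := by
    rw [Int.even_iff] at h0 ⊢
    rw [Int.odd_iff] at h4
    omega
  rcases Sys.pt_of_mem_path hc.mem.2 with k | ⟨x', rfl⟩
  · exact ⟨y', k, decide_eq_false h5⟩
  · exact absurd (l.even x') h5

end Fil

theorem fil : SymStmt → FilterStmt := by
  intro sy ι V _ G hs D h hr F b a M a' l
  let D' : Sys ι V ℤ := ⟨D.pos, D.sp, fun e =>
    if F e then (D.mid e).filter (Fil.keep b (a :: (M ++ [a']))) else D.mid e⟩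
  have hA : ∀ e, F e ∨ G.Nb F e →
      D'.mid e = (D.mid e).filter (Fil.keep b (a :: (M ++ [a']))) := by
    rintro e (he | he)
    · exact if_pos he
    · rw [Fil.nb_keep l he]; exact if_neg he.1
  have hB : ∀ e, ¬ F e → D'.path G e = D.path G e := fun e he => by
    simp only [Sys.path, D', if_neg he]
  have sub : ∀ e, (D'.mid e).Sublist (D.mid e) := fun e => by
    simp only [D']
    split_ifs
    · exact List.filter_sublist
    · exact List.Sublist.refl _
  have nc : ∀ e e', e = e' ∨ G.H e e' → NoCross (D.sp e) (D'.path G e) (D.sp e') (D'.path G e') := by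
    intro e e' hee
    by_cases k : F e ∨ F e'
    · have he : F e ∨ G.Nb F e := by
        by_cases k1 : F e
        · exact Or.inl k1
        · rcases hee with rfl | hee
          · exact absurd (k.elim id id) k1
          · exact Or.inr ⟨k1, e', k.resolve_left k1, hs _ _ hee⟩
      have he' : F e' ∨ G.Nb F e' := by
        by_cases k1 : F e'
        · exact Or.inl k1
        · rcases hee with rfl | hee
          · exact absurd (k.elim id id) k1
          · exact Or.inr ⟨k1, e, k.resolve_right k1, hee⟩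
      intro c hc d hd
      unfold Sys.path at hc hd
      rw [hA e he] at hc
      rw [hA e' he'] at hd
      obtain ⟨p, hp, rfl⟩ := List.mem_map.1 (Fil.new_chs l he ▸ hc)
      obtain ⟨q, hq, rfl⟩ := List.mem_map.1 (Fil.new_chs l he' ▸ hd)
      exact Fil.pc_nc sy h l hee he he' hp hq
    · rw [hB e fun k1 => k (Or.inl k1), hB e' fun k1 => k (Or.inr k1)]
      exact h.noCross hee
  refine ⟨D', ⟨h.inj, fun e => (h.nodup e).sublist (sub e),
    fun e e' he y hy hy' => h.disj e e' he y ((sub e).subset hy) ((sub e').subset hy'),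
    fun e x hx => h.notV e x ((sub e).subset hx), fun e he => ?_, fun e => nc e e (Or.inl rfl),
    fun e e' he => nc e e' (Or.inr he)⟩, rfl, ?_, fun e x => ?_⟩
  · by_cases k : F e
    · rw [hA e (Or.inl k), Nat.odd_iff, Fil.new_len l (Or.inl k)]
      exact Nat.odd_iff.1 (h.odd e he)
    · have : D'.mid e = D.mid e := if_neg k
      rw [this]
      exact h.odd e he
  · obtain ⟨e, he, y, hy, hk⟩ := Fil.drop hr l
    refine Finset.sum_lt_sum (fun e _ => (sub e).length_le) ⟨e, Finset.mem_univ _, ?_⟩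
    rw [hA e (Or.inl he)]
    exact List.length_filter_lt_length_iff_exists.2 ⟨y, hy, by simp [hk]⟩
  · by_cases k : F e
    · rw [if_pos k]
      have := Fil.new_cv l (Or.inl k) (D.pos x)
      rw [← hA e (Or.inl k)] at this
      exact this
    · rw [if_neg k, sub_zero]
      unfold Sys.cv
      rw [hB e k]

end Pool.Agent.MP_17db17_lc.H93
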