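import Pool.Agent.MP_17db17_lc.H93.Spec

set_option autoImplicit false

namespace Pool.Agent.MP_17db17_lc.H93

open Pool.Agent.Shared.H56 Pool.Agent.Shared.H27

theorem acrPlus_enc (a : Inp) : ACRplus (enc a) = true ↔ AcrPlusLE (graphOf a.1) a.2 := by
  simp only [ACRplus, decide_eq_true_eq]
  constructor
  · rintro ⟨A, k, h1, h2⟩
    have : a = (A, k) := enc_inj h1
    rw [this]
    exact h2
  · intro h
    exact ⟨a.1, a.2, rfl, h⟩

theorem length_EL (A : List (List Bool)) : (EL A).length ≤ A.length * A.length := by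
  refine (List.length_filter_le _ _).trans ?_
  simp [List.length_flatMap]

theorem poly_mono (P : Polynomial ℕ) {a b : ℕ} (h : a ≤ b) : P.eval a ≤ P.eval b := by
  induction P using Polynomial.induction_on' with
  | add p q hp hq => simp only [Polynomial.eval_add]; omega
  | monomial n c =>
    simp only [Polynomial.eval_monomial]
    exact Nat.mul_le_mul_left _ (Nat.pow_le_pow_left h _)

theorem fin_mem (hPT : VerPTStmt) (hS : VerSoundStmt) (hC : VerComplStmt) (hE : EnumStmt)
    (hB : BridgeStmt) : ACRplus ∈ N68a2faeb.NP := by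
  classical
  obtain ⟨P, hP⟩ := hC
  let dec : List Bool → Inp := fun z => (N487b59b3.bitDecode z : Option Inp).getD ([], 0)
  let decw : List Bool → Crt := fun z =>
    (N487b59b3.bitDecode z : Option Crt).getD ([], [], [], [], [], [])
  have hdec : PT dec := by unfold dec; fun_prop
  have hdecw : PT decw := by unfold decw; fun_prop
  let R : Inp × Crt → Bool := fun p => check p.1.1.length (EL p.1.1) p.1.2 p.2
  have hR : PT R := hPT
  refine ⟨P.comp (Polynomial.X + Polynomial.X * Polynomial.X + Polynomial.X),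
    fun p => decide (enc (dec p.1) = p.1) && R (dec p.1, decw p.2),
    PT.isPolyTime (by fun_prop), fun z => ?_⟩
  constructor
  · intro h
    obtain ⟨a, rfl⟩ : ∃ a : Inp, z = enc a := by
      simp only [ACRplus, decide_eq_true_eq] at h
      obtain ⟨A, k, h1, -⟩ := h
      exact ⟨(A, k), h1⟩
    obtain ⟨hg, he⟩ := hE a.1
    obtain ⟨c, hc, hsz⟩ := hP _ _ hg a.2 ((he _).2 ((hB _ _ _).1 ((acrPlus_enc a).1 h)))
    have hd : dec (enc a) = a := by simp [dec, enc]
    have hw : decw (enc c) = c := by simp [decw, enc]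
    refine ⟨enc c, ?_, by simpa [hd, hw, R] using hc⟩
    refine hsz.trans ?_
    simp only [Polynomial.eval_comp, Polynomial.eval_add, Polynomial.eval_mul, Polynomial.eval_X]
    apply poly_mono
    have h1 : (enc a).length = 2 * sz a.1 + 1 + sz a.2 := sz_pair a.1 a.2
    have h2 := length_le_sz a.1
    have h3 := length_EL a.1
    have h4 : a.1.length ≤ (enc a).length := by omega
    have h5 := Nat.mul_le_mul h4 h4
    omega
  · rintro ⟨w, -, hw⟩
    simp only [Bool.and_eq_true, decide_eq_true_eq] at hw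
    obtain ⟨hg, he⟩ := hE (dec z).1
    rw [← hw.1, acrPlus_enc]
    exact (hB _ _ _).2 ((he _).1 (hS _ _ hg _ _ hw.2))

theorem fin : VerPTStmt → VerSoundStmt → VerComplStmt → EnumStmt → BridgeStmt → MwcStmt →
    GadPTStmt → GadUpStmt → GadLoStmt → N793a5b8e.IsCompleteFor N68a2faeb.NP ACRplus := by
  intro hPT hS hC hE hB ⟨g, hg, hM⟩ hG hU hL
  refine ⟨fin_mem hPT hS hC hE hB, fun L hL' => ?_⟩
  obtain ⟨f, h1, h2, h3⟩ := cookLevin3 L hL'
  refine ⟨fun x => enc ((gMat (g (f x)).1, gK (g (f x)).1 (g (f x)).2) : Inp),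
    (PT.comp hG (hg.comp h1)).enc.isPolyTime, fun x => ?_⟩
  obtain ⟨m1, m2⟩ := hM (f x) (h2 x)
  rw [Bool.eq_iff_iff, h3, m2, acrPlus_enc, hB]
  exact ⟨hU _ _ m1, hL _ _ m1⟩

end Pool.Agent.MP_17db17_lc.H93
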