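import Pool.Agent.MP_17db17_lc.H93.Basic

set_option autoImplicit false

namespace Pool.Agent.MP_17db17_lc.H93

namespace Form

/-! ### Scaling -/

/-- multiplication by eight -/
def sc (y : ℤ) : ℤ := 8 * y

theorem sc_lt {x y : ℤ} : sc x < sc y ↔ x < y := by unfold sc; omega

theorem sc_inj : Function.Injective sc := fun x y h => by unfold sc at h; omega

theorem covL_sc (π : Bool) (C : List (Chord ℤ)) (z : ℤ) :
    covL π (C.map fun c => (c.1, sc c.2.1, sc c.2.2)) (sc z) = covL π C z := by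
  unfold covL
  rw [List.map_map]
  congr 1
  exact List.map_congr_left fun c _ => by simp only [Function.comp, ind, sc_lt]

theorem cov_sc (π b : Bool) (l : List ℤ) (z : ℤ) : cov π b (l.map sc) (sc z) = cov π b l z := by
  unfold cov; rw [chords_map, covL_sc]

theorem noCross_sc {b b' : Bool} {l l' : List ℤ} (h : NoCross b l b' l') :
    NoCross b (l.map sc) b' (l'.map sc) := by
  intro c hc d hd
  rw [chords_map, List.mem_map] at hc hd
  obtain ⟨c, hc, rfl⟩ := hc
  obtain ⟨d, hd, rfl⟩ := hd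
  rw [cross_transfer (p' := c.2.1) (q' := c.2.2) (r' := d.2.1) (s' := d.2.2) ⟨sc_lt, sc_lt⟩
    ⟨sc_lt, sc_lt⟩ ⟨sc_lt, sc_lt⟩ ⟨sc_lt, sc_lt⟩]
  exact h c hc d hd

theorem wodd_sc (b bf : Bool) (L lf : List ℤ) (z : ℤ) :
    wodd b (L.map sc) bf (lf.map sc) (sc z) = wodd b L bf lf z := by
  unfold wodd
  rw [chords_map, List.filter_map, covL_sc]
  congr 1
  exact List.filter_congr fun c _ => by simp only [Function.comp, oddC, cov_sc]

theorem inW_sc {a a' z : ℤ} : InW (sc a) (sc a') (sc z) ↔ InW a a' z := by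
  unfold InW sc; omega

theorem arcs_sc (b : Bool) (a : ℤ) (M : List ℤ) (a' : ℤ) : arcs b (sc a) (M.map sc) (sc a') =
    (arcs b a M a').map fun p => (p.1, sc p.2.1, p.2.2.1.map sc, sc p.2.2.2) := by
  unfold arcs
  rw [pieces_map]
  congr 2
  exact funext fun z => decide_eq_decide.2 inW_sc

/-! ### Parities -/

variable {b : Bool} {a a' : ℤ} {M : List ℤ}

theorem cov_shift {L : List ℤ} (h : ∀ y ∈ L, 8 ∣ y) (π : Bool) {z j : ℤ} (hz : 8 ∣ z) (h0 : 0 ≤ j)
    (h7 : j ≤ 7) : cov π b L (z + j) = cov π b L z := by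
  refine covL_congr fun c hc _ => ?_
  have h1 := h _ (mem_of_mem_chords hc).1
  have h2 := h _ (mem_of_mem_chords hc).2
  unfold ind
  split_ifs <;> omega

theorem cov_chord {L lf : List ℤ} {bf : Bool} (h : NoCross b L bf lf) (hn : ∀ y ∈ lf, y ∉ L)
    {c : Chord ℤ} (hc : c ∈ chords bf lf) : cov c.1 b L c.2.1 = cov c.1 b L c.2.2 := by
  have h1 := hn _ (mem_of_mem_chords hc).1
  have h2 := hn _ (mem_of_mem_chords hc).2
  refine covL_eq_of_not_cross (fun d hd => h d hd c hc) fun d hd _ => ?_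
  obtain ⟨h3, h4⟩ := mem_of_mem_chords hd
  exact ⟨fun e => h1 (e ▸ h3), fun e => h1 (e ▸ h4), fun e => h2 (e ▸ h3), fun e => h2 (e ▸ h4)⟩

theorem wodd_shift {L lf : List ℤ} {bf : Bool} (d8 : ∀ y ∈ L, 8 ∣ y) (h : NoCross b L bf lf)
    (hn : ∀ y ∈ lf, y ∉ L) {z j : ℤ} (hz : 8 ∣ z) (he : Even (cov true b L z)) (h0 : 0 ≤ j)
    (h7 : j ≤ 7) : wodd b L bf lf (z + j) = wodd b L bf lf z := by
  have key : ∀ p, Odd (cov true b L p) → ind (z + j) p = ind z p := fun p hp => by
    by_cases h1 : z < p ∧ p ≤ z + j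
    · have := cov_shift (b := b) d8 true hz (j := p - z) (by omega) (by omega)
      rw [add_sub_cancel] at this
      exact absurd he (Int.not_even_iff_odd.2 (this ▸ hp))
    · unfold ind
      split_ifs <;> omega
  refine covL_congr fun c hc h1 => ?_
  obtain ⟨hc, ho⟩ := List.mem_filter.1 hc
  have h2 := cov_chord h hn hc
  simp only [oddC, decide_eq_true_eq, h1] at ho h2
  rw [key _ ho, key _ (h2 ▸ ho)]

theorem odd_out {z : ℤ} (h : ¬ InW a a' z) (π : Bool) :
    Odd (cov π b (a :: (M ++ [a'])) z) ↔ Odd (cov true b (a :: (M ++ [a'])) z) := by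
  have h1 := cov_add b a M a' z
  have h2 : ind z a' - ind z a = 0 := by
    unfold InW at h
    unfold ind
    split_ifs <;> omega
  cases π
  · rw [show cov false b (a :: (M ++ [a'])) z = -cov true b (a :: (M ++ [a'])) z by omega, odd_neg]
  · rfl

/-- the chords of a piece whose inner points are outside the window have one parity -/
theorem piece_par (π : Bool) (s : ℤ) (m : List ℤ) (t : ℤ) (hm : ∀ y ∈ m, ¬ InW a a' y)
    (h : ∀ c ∈ chords π (s :: (m ++ [t])),
      cov c.1 b (a :: (M ++ [a'])) c.2.1 = cov c.1 b (a :: (M ++ [a'])) c.2.2) :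
    (∀ c ∈ chords π (s :: (m ++ [t])),
      oddC b (a :: (M ++ [a'])) c = decide (Odd (cov π b (a :: (M ++ [a'])) s))) ∧
    (∀ y ∈ m, Odd (cov true b (a :: (M ++ [a'])) y) ↔ Odd (cov π b (a :: (M ++ [a'])) s)) ∧
    ∃ π', Odd (cov π' b (a :: (M ++ [a'])) t) ↔ Odd (cov π b (a :: (M ++ [a'])) s) := by
  induction m generalizing π s with
  | nil =>
    refine ⟨fun c hc => ?_, by simp, π, by rw [h (π, s, t) (by simp)]⟩
    simp only [List.nil_append, chords_cons_cons, chords_single, List.mem_singleton] at hc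
    rw [hc]; rfl
  | cons z m ih =>
    have hz := hm z List.mem_cons_self
    have e : Odd (cov (!π) b (a :: (M ++ [a'])) z) ↔ Odd (cov π b (a :: (M ++ [a'])) s) := by
      rw [h (π, s, z) (by simp), odd_out hz, odd_out hz π]
    obtain ⟨h1, h2, π', h3⟩ := ih (!π) z (fun y hy => hm y (List.mem_cons_of_mem _ hy))
      fun c hc => h c (by simp [hc])
    refine ⟨fun c hc => ?_, fun y hy => ?_, π', h3.trans e⟩
    · simp only [List.cons_append, chords_cons_cons, List.mem_cons] at hc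
      rcases hc with rfl | hc
      · rfl
      · rw [h1 c hc, decide_eq_decide.2 e]
    · rcases List.mem_cons.1 hy with rfl | hy
      · rw [← e, odd_out hz (!π)]
      · exact (h2 y hy).trans e

theorem filter_flatMap {γ δ : Type} (S : List γ) (f : γ → List δ) (P : δ → Bool) :
    (S.flatMap f).filter P = S.flatMap fun s => (f s).filter P := by
  induction S with
  | nil => simp
  | cons s S ih => simp [ih]

/-- `wodd` of a path with even ends does not separate points of one class -/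
theorem const (hL : LamStmt) (sl : ∀ p ∈ arcs b a M a', p.2.2.1 ≠ []) {u v : ℤ} {m : List ℤ}
    (h : NoCross b (a :: (M ++ [a'])) true (u :: (m ++ [v])))
    (hn : ∀ y ∈ u :: (m ++ [v]), y ∉ a :: (M ++ [a'])) (hu : ¬ InW a a' u) (hv : ¬ InW a a' v)
    (eu : Even (cov true b (a :: (M ++ [a'])) u)) (ev : Even (cov true b (a :: (M ++ [a'])) v))
    {x x' : ℤ} (hx : ¬ InW a a' x ∧ x ∉ M ∧ x ∉ m) (hx' : ¬ InW a a' x' ∧ x' ∉ M ∧ x' ∉ m)
    (ex : Even (cov true b (a :: (M ++ [a'])) x))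
    (hc : ∀ p ∈ arcs b a M a', cov true p.1 p.l x = cov true p.1 p.l x') :
    wodd b (a :: (M ++ [a'])) true (u :: (m ++ [v])) x =
      wodd b (a :: (M ++ [a'])) true (u :: (m ++ [v])) x' := by
  classical
  unfold wodd
  rw [← pieces_chords fun y => decide (InW a a' y), filter_flatMap, covL_flatMap, covL_flatMap]
  congr 1
  refine List.map_congr_left fun q hq => ?_
  obtain ⟨q1, q2, q3⟩ := mem_pieces hq
  have qo : ∀ y ∈ q.2.2.1, ¬ InW a a' y := fun y hy => by simpa using (q3 y hy).2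
  obtain ⟨h1, h2, π', h3⟩ := piece_par (b := b) (M := M) q.1 q.2.1 q.2.2.1 q.2.2.2 qo
    fun c hc => cov_chord h hn (chs_sub_of_mem_pieces hq hc)
  by_cases ho : Odd (cov q.1 b (a :: (M ++ [a'])) q.2.1)
  swap
  · rw [List.filter_eq_nil_iff.2 fun c hc => by rw [h1 c hc]; simpa using ho]
    rfl
  rw [List.filter_eq_self.2 fun c hc => by rw [h1 c hc]; simpa using ho]
  have s1 : InW a a' q.2.1 := by
    rcases q1 with e | e
    · rw [e, odd_out hu] at ho
      exact absurd eu (Int.not_even_iff_odd.2 ho)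
    · simpa using e.2
  have s2 : InW a a' q.2.2.2 := by
    rcases q2 with e | e
    · rw [e, odd_out hv] at h3
      exact absurd ev (Int.not_even_iff_odd.2 (h3.2 ho))
    · simpa using e.2
  by_cases hne : q.2.2.1 = []
  · refine covL_congr fun c hc _ => ?_
    simp only [Piece.chs, Piece.l, hne, List.nil_append, chords_cons_cons, chords_single,
      List.mem_singleton] at hc
    have t1 := hx.1
    have t2 := hx'.1
    subst hc
    unfold InW at s1 s2 t1 t2
    unfold ind
    dsimp only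
    split_ifs <;> omega
  obtain ⟨y, hy⟩ := List.exists_mem_of_ne_nil _ hne
  obtain ⟨p, hp, hd⟩ : ∃ p ∈ arcs b a M a', cov true p.1 p.l x ≠ cov true p.1 p.l y := by
    by_contra! hh
    have : cov true b (a :: (M ++ [a'])) x = cov true b (a :: (M ++ [a'])) y := by
      unfold cov
      rw [← pieces_chords fun y => decide (InW a a' y), covL_flatMap, covL_flatMap]
      exact congrArg _ (List.map_congr_left hh)
    exact absurd (this ▸ ex) (Int.not_even_iff_odd.2 ((h2 y hy).2 ho))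
  obtain ⟨p1, p2, p3⟩ := mem_pieces hp
  have sp : Slit a a' p := by
    refine ⟨?_, ?_, fun y hy => by simpa using (p3 y hy).2, sl p hp⟩
    · rcases p1 with e | e
      · rw [e]; unfold InW; omega
      · simpa using e.2
    · rcases p2 with e | e
      · rw [e]; unfold InW; omega
      · simpa using e.2
  obtain ⟨z, hz⟩ := List.exists_mem_of_ne_nil _ sp.ne
  have key := (hL.1 a a' p q sp ⟨s1, s2, qo, hne⟩
    (fun w hw hw' => hn w (by simp [(q3 w hw').1]) (by simp [(p3 w hw).1]))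
    fun c hc d hd => h c (chs_sub_of_mem_pieces hp hc) d (chs_sub_of_mem_pieces hq hd)).2
  exact (key x hx.1 (fun e => hx.2.1 (p3 _ e).1) (fun e => hx.2.2 (q3 _ e).1) y hy z hz hd).trans
    (key x' hx'.1 (fun e => hx'.2.1 (p3 _ e).1) (fun e => hx'.2.2 (q3 _ e).1) y hy z hz
      (hc p hp ▸ hd)).symm

theorem core (hS : SymStmt) (hL : LamStmt) (hR : RefStmt) {V : Type} (X : V → ℤ)
    (nd : (a :: (M ++ [a'])).Nodup) (d8 : ∀ y ∈ a :: (M ++ [a']), 8 ∣ y)
    (self : NoCross b (a :: (M ++ [a'])) b (a :: (M ++ [a']))) (X8 : ∀ x, 8 ∣ X x)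
    (XL : ∀ x, X x ∉ a :: (M ++ [a'])) (noV : ∀ x, ¬ InW a a' (X x))
    (ev : ∀ x, Even (cov true b (a :: (M ++ [a'])) (X x)))
    (sl : ∀ p ∈ arcs b a M a', p.2.2.1 ≠ []) :
    ∃ T : V → V → ℤ, (∀ x y, T x y = T y x) ∧
      (∀ (bf : Bool) (s t : V) (m : List ℤ), (∀ y ∈ m, 8 ∣ y ∧ y ∉ a :: (M ++ [a'])) →
        NoCross b (a :: (M ++ [a'])) bf (X s :: (m ++ [X t])) → ∀ x x',
        wodd b (a :: (M ++ [a'])) bf (X s :: (m ++ [X t])) (X x) -
          wodd b (a :: (M ++ [a'])) bf (X s :: (m ++ [X t])) (X x') =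
        T x t - T x s - T x' t + T x' s) ∧
      ∀ x x', (∀ p ∈ arcs b a M a', cov true p.1 p.l (X x) = cov true p.1 p.l (X x')) →
        ∀ y, T y x = T y x' := by
  rcases isEmpty_or_nonempty V with hV | ⟨⟨o⟩⟩
  · exact ⟨fun _ _ => 0, fun _ _ => rfl, fun _ s => hV.elim s, fun x => hV.elim x⟩
  have far : ∀ x (k : ℤ), 1 ≤ k → k ≤ 3 → ∀ y ∈ a :: (M ++ [a']), 4 ≤ |X x + k - y| :=
    fun x k h1 h3 y hy => by
      have := d8 y hy
      have := X8 x
      have : X x ≠ y := fun e => XL x (e ▸ hy)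
      rw [le_abs]
      omega
  choose! r hr hr' using fun (k : ℤ) (h1 : 1 ≤ k) (h3 : k ≤ 3) (y : V) =>
    hR b _ nd d8 self k h1 h3 (X o + k) (X y + k) fun z hz => ⟨far o k h1 h3 z hz, far y k h1 h3 z hz⟩
  have md : ∀ k : ℤ, 1 ≤ k → k ≤ 3 → ∀ y, ∀ z ∈ (X o + k) :: (r k y ++ [X y + k]),
      z % 8 = k ∨ z % 8 = 8 - k := fun k h1 h3 y z hz => by
    have := X8 o
    have := X8 y
    simp only [List.mem_cons, List.mem_append, List.not_mem_nil, or_false] at hz
    rcases hz with rfl | hz | rfl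
    · omega
    · obtain ⟨w, hw, e⟩ := hr k h1 h3 y z hz
      have := d8 w hw
      omega
    · omega
  have nL : ∀ k : ℤ, 1 ≤ k → k ≤ 3 → ∀ y, ∀ z ∈ (X o + k) :: (r k y ++ [X y + k]),
      z ∉ a :: (M ++ [a']) := fun k h1 h3 y z hz hz' => by
    have := md k h1 h3 y z hz
    have := d8 z hz'
    omega
  have evk : ∀ k : ℤ, 1 ≤ k → k ≤ 3 → ∀ y, Even (cov true b (a :: (M ++ [a'])) (X y + k)) :=
    fun k h1 h3 y => by rw [cov_shift d8 true (X8 y) (by omega) (by omega)]; exact ev y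
  let W : ℤ → V → ℤ → ℤ := fun k y =>
    wodd b (a :: (M ++ [a'])) true ((X o + k) :: (r k y ++ [X y + k]))
  have sh : ∀ k : ℤ, 1 ≤ k → k ≤ 3 → ∀ j : ℤ, 1 ≤ j → j ≤ 3 → ∀ y x, W k y (X x + j) = W k y (X x) :=
    fun k h1 h3 j j1 j3 y x =>
      wodd_shift d8 (hr' k h1 h3 y) (nL k h1 h3 y) (X8 x) (ev x) (by omega) (by omega)
  have sy : ∀ k : ℤ, 1 ≤ k → k ≤ 3 → ∀ j : ℤ, 1 ≤ j → j ≤ 3 → k ≠ j → ∀ y x,
      W k y (X x) - W k y (X o) = W j x (X y) - W j x (X o) := fun k h1 h3 j j1 j3 hne y x => by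
    rw [← sh k h1 h3 j j1 j3 y x, ← sh k h1 h3 j j1 j3 y o, ← sh j j1 j3 k h1 h3 x y,
      ← sh j j1 j3 k h1 h3 x o]
    refine hS b a M a' (true, X o + k, r k y, X y + k) (true, X o + j, r j x, X x + j)
      (nL k h1 h3 y) (nL j j1 j3 x) (fun z hz hz' => ?_) (hr' k h1 h3 y) (hr' j j1 j3 x)
      (evk k h1 h3 o) (evk k h1 h3 y) (evk j j1 j3 o) (evk j j1 j3 x)
    have := md k h1 h3 y z hz
    have := md j j1 j3 x z hz'
    omega
  have out : ∀ x, ¬ InW a a' (X x + 1) := fun x => by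
    have := noV x
    have := X8 x
    have := d8 a (by simp)
    have := d8 a' (by simp)
    unfold InW at *
    omega
  refine ⟨fun y x => W 1 y (X x) - W 1 y (X o), fun x y => ?_, fun bf s t m hm nc x x' => ?_,
    fun x x' hc y => ?_⟩
  · exact ((sy 1 (by omega) (by omega) 2 (by omega) (by omega) (by omega) x y).trans
      (sy 2 (by omega) (by omega) 3 (by omega) (by omega) (by omega) y x)).trans
      (sy 3 (by omega) (by omega) 1 (by omega) (by omega) (by omega) x y)
  · have hp : ∀ z ∈ X s :: (m ++ [X t]), 8 ∣ z ∧ z ∉ a :: (M ++ [a']) := fun z hz => by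
      simp only [List.mem_cons (a := z) (b := X s), List.mem_append (a := z) (s := m),
        List.mem_singleton] at hz
      rcases hz with rfl | hz | rfl
      exacts [⟨X8 s, XL s⟩, hm z hz, ⟨X8 t, XL t⟩]
    have key : ∀ x, wodd b (a :: (M ++ [a'])) bf (X s :: (m ++ [X t])) (X x) -
        wodd b (a :: (M ++ [a'])) bf (X s :: (m ++ [X t])) (X o) =
        W 1 x (X t) - W 1 x (X s) := fun x => by
      rw [← wodd_shift (j := 1) d8 nc (fun z hz => (hp z hz).2) (X8 x) (ev x) (by omega) (by omega),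
        ← wodd_shift (j := 1) d8 nc (fun z hz => (hp z hz).2) (X8 o) (ev o) (by omega) (by omega)]
      refine hS b a M a' (bf, X s, m, X t) (true, X o + 1, r 1 x, X x + 1)
        (fun z hz => (hp z hz).2) (nL 1 (by omega) (by omega) x) (fun z hz hz' => ?_) nc
        (hr' 1 (by omega) (by omega) x) (ev s) (ev t) (evk 1 (by omega) (by omega) o)
        (evk 1 (by omega) (by omega) x)
      have := (hp z hz).1
      have := md 1 (by omega) (by omega) x z hz'
      omega
    have k1 := key x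
    have k2 := key x'
    dsimp only
    omega
  · have nm : ∀ x, ¬ InW a a' (X x) ∧ X x ∉ M ∧ X x ∉ r 1 y := fun x =>
      ⟨noV x, fun h => XL x (by simp [h]), fun h => by
        have := md 1 (by omega) (by omega) y (X x) (by simp [h])
        have := X8 x
        omega⟩
    exact congrArg (· - W 1 y (X o)) (const hL sl (hr' 1 (by omega) (by omega) y)
      (nL 1 (by omega) (by omega) y) (out o) (out y) (evk 1 (by omega) (by omega) o)
      (evk 1 (by omega) (by omega) y) (nm x) (nm x') (ev x) hc)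

end Form

open Form in
theorem form : SymStmt → LamStmt → RefStmt → FormStmt := by
  intro hS hL hR ι V _ _ G D _ _ F b a M a' h
  have e : sc a :: (M.map sc ++ [sc a']) = (a :: (M ++ [a'])).map sc := by simp
  have mm : ∀ y, sc y ∈ sc a :: (M.map sc ++ [sc a']) ↔ y ∈ a :: (M ++ [a']) := fun y => by
    rw [e, List.mem_map_of_injective sc_inj]
  obtain ⟨T, h1, h2, h3⟩ := core (b := b) (a := sc a) (a' := sc a') (M := M.map sc) hS hL hR
    (fun x => sc (D.pos x)) (e ▸ h.nodup.map sc_inj)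
    (fun y hy => by
      rw [e] at hy
      obtain ⟨z, -, rfl⟩ := List.mem_map.1 hy
      exact dvd_mul_right _ _)
    (e ▸ noCross_sc h.self) (fun x => dvd_mul_right _ _) (fun x hx => h.notV x ((mm _).1 hx))
    (fun x hx => h.noV x (inW_sc.1 hx)) (fun x => by rw [e, cov_sc]; exact h.even x)
    (fun p hp => by
      rw [arcs_sc, List.mem_map] at hp
      obtain ⟨p, hp, rfl⟩ := hp
      intro h0
      have h0' : p.2.2.1 = [] := List.map_eq_nil_iff.1 h0
      obtain ⟨x, hx⟩ := h.red (p.1, p.2.1, p.2.2.2)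
        (chs_sub_of_mem_pieces hp (by simp [Piece.chs, Piece.l, h0']))
      obtain ⟨p1, p2, -⟩ := mem_pieces hp
      have := h.noV x
      simp only [decide_eq_true_eq] at p1 p2
      unfold InW at *
      dsimp only at hx
      omega)
  refine ⟨T, h1, fun f hf x x' => ?_, fun x x' hc => h3 x x' fun p hp => ?_⟩
  · have e' : sc (D.pos (G.s f)) :: ((D.mid f).map sc ++ [sc (D.pos (G.t f))]) =
        (D.path G f).map sc := by simp [Sys.path]
    have := h2 (D.sp f) (G.s f) (G.t f) ((D.mid f).map sc) (fun y hy => by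
      obtain ⟨z, hz, rfl⟩ := List.mem_map.1 hy
      exact ⟨dvd_mul_right _ _, fun h' => h.notM f z hz ((mm _).1 h')⟩)
      (by rw [e, e']; exact noCross_sc (h.avoid f (Or.inl hf))) x x'
    rwa [e, e', wodd_sc, wodd_sc] at this
  · rw [arcs_sc, List.mem_map] at hp
    obtain ⟨p, hp, rfl⟩ := hp
    have e' : Piece.l (p.1, sc p.2.1, p.2.2.1.map sc, sc p.2.2.2) = p.l.map sc := by simp [Piece.l]
    rw [e', cov_sc, cov_sc]
    exact hc p hp

end Pool.Agent.MP_17db17_lc.H93
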