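import Pool.Agent.MP_17db17_lc.H93.G1B

/-!
From a drawing in the plane to a two page system.
-/

set_option autoImplicit false

namespace Pool.Agent.MP_17db17_lc.H93

namespace G1

/-- the arc `a :: l` changes the page exactly at the listed points -/
def Dec (η : Pt → ℝ) : Bool → Pt → List Pt → List Pt → Prop
  | _, _, l, [] => l = []
  | π, a, l, c :: L => ∃ m l', l = m ++ c :: l' ∧ (∀ x ∈ carrier (a :: (m ++ [c])), On η π x) ∧
      η c = 0 ∧ Dec η (!π) c l' L

variable {ξ η : Pt → ℝ} {up dn : Pt → Pt → Pt → ℤ}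

theorem exists_dec (l : List Pt) : ∀ a, One η (a :: l) → η (l.getLastD a) = 0 →
    ∃ π L, Dec η π a l L := by
  induction l with
  | nil => exact fun a _ _ => ⟨true, [], rfl⟩
  | cons b l ih =>
    intro a ho hl
    rw [List.getLastD_cons] at hl
    obtain ⟨π, L, h⟩ := ih b (fun s hs => ho s (List.mem_cons_of_mem _ hs)) hl
    obtain ⟨π0, h0⟩ := ho (a, b) (by simp)
    cases L with
    | nil =>
      obtain rfl : l = [] := h
      exact ⟨π0, [b], [], [], rfl, by simpa [car_two] using h0, hl, rfl⟩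
    | cons c L =>
      by_cases hπ : π0 = π
      · obtain ⟨m, l', rfl, h1, h2, h3⟩ := h
        refine ⟨π, c :: L, b :: m, l', rfl, fun x hx => ?_, h2, h3⟩
        rw [List.cons_append, car_cons] at hx
        exact hx.elim (hπ ▸ h0 x) (h1 x)
      · have e : (!π0) = π := by cases π0 <;> cases π <;> simp_all
        refine ⟨π0, b :: c :: L, [], l, rfl, by simpa [car_two] using h0, ?_, e ▸ h⟩
        obtain ⟨m, l', rfl, h1, -, -⟩ := h
        have k1 := h0 b (right_mem_segment _ _ _)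
        have k2 := h1 b (head_mem (by simp))
        subst e
        cases π0 <;> simp only [On, Bool.not_true, Bool.not_false, if_true, Bool.false_eq_true,
          if_false] at k1 k2 <;> linarith

theorem getLastD_app (a : Pt) (m : List Pt) (c : Pt) (l : List Pt) :
    (m ++ c :: l).getLastD a = l.getLastD c := by
  induction m generalizing a with
  | nil => simp only [List.nil_append, List.getLastD_cons]
  | cons b m ih => simp only [List.cons_append, List.getLastD_cons, ih]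

theorem Dec.last {L : List Pt} : ∀ {π a l}, Dec η π a l L → L.getLastD a = l.getLastD a := by
  induction L with
  | nil => rintro π a l (rfl : l = []); rfl
  | cons c L ih =>
    rintro π a l ⟨m, l', rfl, -, -, h⟩
    rw [List.getLastD_cons, getLastD_app, ih h]

theorem Dec.mem {L : List Pt} : ∀ {π a l}, Dec η π a l L → ∀ y ∈ L, η y = 0 ∧ y ∈ l := by
  induction L with
  | nil => simp
  | cons c L ih =>
    rintro π a l ⟨m, l', rfl, -, h1, h⟩ y hy
    rcases List.mem_cons.1 hy with rfl | hy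
    · exact ⟨h1, by simp⟩
    · exact ⟨(ih h y hy).1, by simp [(ih h y hy).2]⟩

theorem Dec.nodup {L : List Pt} : ∀ {π a l}, Dec η π a l L → IsSimple (a :: l) →
    (a :: L).Nodup := by
  induction L with
  | nil => simp
  | cons c L ih =>
    intro π a l h hs
    refine List.nodup_cons.2 ⟨fun h1 => head_notMem hs (h.mem a h1).2, ?_⟩
    obtain ⟨m, l', rfl, -, -, h⟩ := h
    exact ih h (simple_split hs).2.1

theorem ind_flip (F : Frame ξ η up dn) {z p : Pt} (hz : η z = 0) (hp : η p = 0) (h : z ≠ p) :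
    ind (ξ p) (ξ z) = 1 - ind (ξ z) (ξ p) := by
  have := ind_add_ind fun e => h (F.inj z p hz hp e)
  omega

theorem Dec.sum (F : Frame ξ η up dn) {z : Pt} (hz : η z = 0) {L : List Pt} : ∀ {π a l},
    Dec η π a l L → η a = 0 → z ∉ carrier (a :: l) →
    sm (up z) (a :: l) = cov true π ((a :: L).map ξ) (ξ z) ∧
      sm (dn z) (a :: l) = -cov false π ((a :: L).map ξ) (ξ z) := by
  induction L with
  | nil => rintro π a l (rfl : l = []) - -; simp [cov]
  | cons c L ih =>
    rintro π a l ⟨m, l', rfl, h1, h2, h⟩ ha hn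
    rw [car_append, Set.mem_union, not_or] at hn
    obtain ⟨k1, k2⟩ := ih h h2 hn.2
    obtain ⟨k3, k4⟩ := F.run hz _ a h1 hn.1
    rw [getLastD_app, List.getLastD_nil] at k3 k4
    rw [ind_flip F hz ha fun e => hn.1 (e ▸ mem_car' (by simp)),
      ind_flip F hz h2 fun e => hn.1 (e ▸ mem_car' (by simp))] at k4
    rw [sm_append, sm_append (dn z), k1, k2, k3, k4]
    simp only [cov, List.map_cons, chords, covL_cons]
    cases π <;> simp
    ring

/-- the part of the arc that belongs to a chord -/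
structure Run (η : Pt → ℝ) (c : Chord Pt) (m : List Pt) : Prop where
  on : ∀ x ∈ carrier (c.2.1 :: (m ++ [c.2.2])), On η c.1 x
  s : η c.2.1 = 0
  t : η c.2.2 = 0

theorem Run.not_cross (F : Frame ξ η up dn) {c d : Chord Pt} {m m' : List Pt} (h : Run η c m)
    (h' : Run η d m') (hx : ∀ x ∈ carrier (c.2.1 :: (m ++ [c.2.2])),
      x ∈ carrier (d.2.1 :: (m' ++ [d.2.2])) →
        (x = c.2.1 ∨ x = c.2.2) ∧ (x = d.2.1 ∨ x = d.2.2)) :
    ¬ Cross (c.1, ξ c.2.1, ξ c.2.2) (d.1, ξ d.2.1, ξ d.2.2) := by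
  obtain ⟨π, p, q⟩ := c
  obtain ⟨π', r, s⟩ := d
  intro hc
  obtain rfl : π = π' := hc.1
  obtain ⟨-, -, n1, n2, n3, n4⟩ := hc.ne
  dsimp only at n1 n2 n3 n4 hx hc
  have dj : ∀ x ∈ carrier (p :: (m ++ [q])), x ∉ carrier (r :: (m' ++ [s])) := fun x h1 h2 => by
    obtain ⟨rfl | rfl, rfl | rfl⟩ := hx x h1 h2
    exacts [n1 rfl, n3 rfl, n2 rfl, n4 rfl]
  have e := F.sum2 r (m' ++ [s]) (m ++ [q]) p (fun y hy => dj y (mem_car' hy))
    fun y hy h1 => dj y h1 (mem_car' hy)
  have a1 := (F.run h.s _ r h'.on (dj p (mem_car' (by simp)))).1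
  have a2 := (F.run h.t _ r h'.on (dj q (mem_car' (by simp)))).1
  have a3 := (F.run h'.s _ p h.on fun h1 => dj r h1 (mem_car' (by simp))).2
  have a4 := (F.run h'.t _ p h.on fun h1 => dj s h1 (mem_car' (by simp))).2
  simp only [getLastD_app, List.getLastD_nil] at e a1 a2 a3 a4
  rw [algCross_zero dj, a1, a2, a3, a4] at e
  refine (not_cross_iff n1.symm n3.symm n2.symm n4.symm).2 ?_ (cross_symm hc)
  cases π <;> simp only [Bool.false_eq_true, if_false, if_true] at e <;> omega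

theorem Dec.run {L : List Pt} : ∀ {π a l}, Dec η π a l L → IsSimple (a :: l) → η a = 0 →
    ∀ c ∈ chords π (a :: L), ∃ m, Run η c m ∧ ∀ x ∈ carrier (c.2.1 :: (m ++ [c.2.2])),
      x ∈ carrier (a :: l) ∧ (x = a → x = c.2.1) ∧ (x = l.getLastD a → x = c.2.2) := by
  induction L with
  | nil => simp [chords]
  | cons b L ih =>
    rintro π a l ⟨m, l', rfl, h1, h2, h⟩ hs ha c hc
    obtain ⟨-, s2, s3⟩ := simple_split hs
    rw [getLastD_app, car_append]
    rcases List.mem_cons.1 hc with rfl | hc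
    · refine ⟨m, ⟨h1, ha, h2⟩, fun x hx => ⟨Or.inl hx, id, fun e => ?_⟩⟩
      rcases List.mem_cons.1 (List.getLastD_mem_cons (l := l') (a := b)) with h3 | h3
      exacts [e.trans h3, s3 x hx (e ▸ mem_car h3)]
    · obtain ⟨m', r, k⟩ := ih h s2 h2 c hc
      exact ⟨m', r, fun x hx => ⟨Or.inr (k x hx).1, fun e => (k x hx).2.1
        (s3 x (e ▸ mem_car' (by simp)) (k x hx).1), (k x hx).2.2⟩⟩

theorem Dec.self (F : Frame ξ η up dn) {L : List Pt} : ∀ {π a l}, Dec η π a l L →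
    IsSimple (a :: l) → η a = 0 → ∀ c ∈ chords π (a :: L), ∀ d ∈ chords π (a :: L),
      ¬ Cross (c.1, ξ c.2.1, ξ c.2.2) (d.1, ξ d.2.1, ξ d.2.2) := by
  induction L with
  | nil => simp [chords]
  | cons b L ih =>
    rintro π a l ⟨m, l', rfl, h1, h2, h⟩ hs ha
    obtain ⟨-, s2, s3⟩ := simple_split hs
    have k : ∀ d ∈ chords (!π) (b :: L), ¬ Cross (π, ξ a, ξ b) (d.1, ξ d.2.1, ξ d.2.2) :=
      fun d hd => by
      obtain ⟨m', r, k⟩ := h.run s2 h2 d hd
      exact Run.not_cross F (c := (π, a, b)) ⟨h1, ha, h2⟩ r fun x hx hx' =>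
        ⟨Or.inr (s3 x hx (k x hx').1), Or.inl ((k x hx').2.1 (s3 x hx (k x hx').1))⟩
    intro c hc d hd
    rcases List.mem_cons.1 hc with rfl | hc <;> rcases List.mem_cons.1 hd with rfl | hd
    exacts [fun h3 => h3.ne.2.2.1 rfl, k d hd, fun h3 => k c hc (cross_symm h3),
      ih h s2 h2 c hc d hd]

/-- what is needed of the spine points of an arc from `a` to `b` -/
structure Arc (ξ η : Pt → ℝ) (up dn : Pt → Pt → Pt → ℤ) (P : List Pt) (a b : Pt) (π : Bool)
    (M : List Pt) : Prop where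
  nodup : (a :: (M ++ [b])).Nodup
  mem : ∀ y ∈ a :: (M ++ [b]), η y = 0 ∧ y ∈ carrier P
  sum : ∀ z, η z = 0 → z ∉ carrier P →
    sm (up z) P = cov true π ((a :: (M ++ [b])).map ξ) (ξ z) ∧
      sm (dn z) P = -cov false π ((a :: (M ++ [b])).map ξ) (ξ z)
  run : ∀ c ∈ chords π (a :: (M ++ [b])), ∃ m, Run η c m ∧
    ∀ x ∈ carrier (c.2.1 :: (m ++ [c.2.2])), x ∈ carrier P ∧ (x = a → x = c.2.1) ∧
      (x = b → x = c.2.2)
  self : ∀ c ∈ chords π (a :: (M ++ [b])), ∀ d ∈ chords π (a :: (M ++ [b])),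
    ¬ Cross (c.1, ξ c.2.1, ξ c.2.2) (d.1, ξ d.2.1, ξ d.2.2)

theorem exists_arc (F : Frame ξ η up dn) {a b : Pt} {m : List Pt}
    (hs : IsSimple (a :: (m ++ [b]))) (ha : η a = 0) (hb : η b = 0) :
    ∃ π M, Arc ξ η up dn (a :: (m ++ [b])) a b π M := by
  obtain ⟨l, r, o⟩ := F.refine _ a hs
  have hl : l.getLastD a = b := by rw [r.last, getLastD_app, List.getLastD_nil]
  obtain ⟨π, L, h⟩ := exists_dec l a o (hl ▸ hb)
  have hab : a ≠ b := fun e => head_notMem hs (by simp [e])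
  have h1 := h.last.trans hl
  rcases L.eq_nil_or_concat' with rfl | ⟨M, c, rfl⟩
  · exact absurd h1 hab
  rw [getLastD_app, List.getLastD_nil] at h1
  subst h1
  have s := r.simple hs
  refine ⟨π, M, h.nodup s, fun y hy => ?_, fun z hz hn => ?_, ?_, h.self F s ha⟩
  · rcases List.mem_cons.1 hy with rfl | hy
    · exact ⟨ha, head_mem (by simp)⟩
    · exact ⟨(h.mem y hy).1, r.car ▸ mem_car (h.mem y hy).2⟩
  · rw [← r.sum z _ (F.addU z) hn, ← r.sum z _ (F.addD z) hn]
    exact h.sum F hz ha (r.car ▸ hn)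
  · have := h.run s ha
    rwa [r.car, hl] at this

end G1

open G1 in
theorem g1 (hP : ParStmt) : G1Stmt := by
  classical
  intro ι V _ _ G hG d hd
  obtain ⟨ξ, η, up, dn, F, hv⟩ := exists_frame hP hd.inj
  choose π M A using fun e => exists_arc F (hd.simple e) (hv (G.s e)) (hv (G.t e))
  obtain ⟨idx, hidx⟩ := Countable.exists_injective_nat ι
  let key : ι → Pt → ℝ ×ₗ ℕ := fun e p =>
    toLex (ξ p, if p ∈ Set.range d.pos then 0 else idx e + 1)
  let D : Sys ι V (ℝ ×ₗ ℕ) := ⟨fun x => toLex (ξ (d.pos x), 0), π, fun e => (M e).map (key e)⟩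
  have kv : ∀ e x, key e (d.pos x) = D.pos x := fun e x => by simp [key, D]
  have path : ∀ e, D.path G e = (d.pos (G.s e) :: (M e ++ [d.pos (G.t e)])).map (key e) :=
    fun e => by simp [Sys.path, kv, D]
  have keq : ∀ {e e' p q}, η p = 0 → η q = 0 → key e p = key e' q → p = q :=
    fun h1 h2 h => F.inj _ _ h1 h2 (congrArg (fun z => (ofLex z).1) h)
  have klt : ∀ {e e' p q}, η p = 0 → η q = 0 → (p = q → key e p = key e' q) →
      (key e p < key e' q ↔ ξ p < ξ q) := fun {e e' p q} h1 h2 h => by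
    by_cases h3 : ξ p = ξ q
    · rw [h (F.inj _ _ h1 h2 h3), h3, lt_self_iff_false, lt_self_iff_false]
    · simp [key, Prod.Lex.toLex_lt_toLex, h3]
  have mM : ∀ {e y}, y ∈ M e → y ∈ d.pos (G.s e) :: (M e ++ [d.pos (G.t e)]) :=
    fun h => by simp [h]
  have nV : ∀ e, ∀ y ∈ M e, y ∉ Set.range d.pos := by
    rintro e _ hy ⟨x, rfl⟩
    have h1 := (A e).nodup
    rcases hd.avoid e x ((A e).mem _ (mM hy)).2 with rfl | rfl
    · exact (List.nodup_cons.1 h1).1 (by simp [hy])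
    · exact List.disjoint_of_nodup_append (List.nodup_cons.1 h1).2 hy (by simp)
  have com : ∀ {e f}, G.H e f → ∀ z ∈ carrier (d.arc G.s G.t e), z ∈ carrier (d.arc G.s G.t f) →
      ∃ x, IsEnd G.s G.t e x ∧ IsEnd G.s G.t f x ∧ z = d.pos x := fun {e f} h z h1 h2 =>
    (hd.proper e f ((hG.adj e f).1 h).1 z h1 h2).resolve_right
      (hd.plus e f ((hG.adj e f).1 h).1 ((hG.adj e f).1 h).2 z)
  have hs : G.Symm := fun e f h => by
    obtain ⟨h1, x, h2, h3⟩ := (hG.adj e f).1 h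
    exact (hG.adj f e).2 ⟨h1.symm, x, h3, h2⟩
  have nc : ∀ e f, e = f ∨ G.H e f →
      (∀ c ∈ chords (π e) (d.pos (G.s e) :: (M e ++ [d.pos (G.t e)])),
        ∀ c' ∈ chords (π f) (d.pos (G.s f) :: (M f ++ [d.pos (G.t f)])),
          ¬ Cross (c.1, ξ c.2.1, ξ c.2.2) (c'.1, ξ c'.2.1, ξ c'.2.2)) →
      NoCross (D.sp e) (D.path G e) (D.sp f) (D.path G f) := by
    intro e f hef h c0 hc0 c0' hc0'
    rw [path, chords_map] at hc0 hc0'
    obtain ⟨c, hc, rfl⟩ := List.mem_map.1 hc0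
    obtain ⟨c', hc', rfl⟩ := List.mem_map.1 hc0'
    have k : ∀ p ∈ d.pos (G.s e) :: (M e ++ [d.pos (G.t e)]),
        ∀ q ∈ d.pos (G.s f) :: (M f ++ [d.pos (G.t f)]),
        (key e p < key f q ↔ ξ p < ξ q) ∧ (key f q < key e p ↔ ξ q < ξ p) := fun p hp q hq => by
      have h1 := (A e).mem p hp
      have h2 := (A f).mem q hq
      have h3 : p = q → key e p = key f q := by
        rintro rfl
        rcases hef with rfl | hef
        · rfl
        · obtain ⟨x, -, -, rfl⟩ := com hef p h1.2 h2.2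
          rw [kv, kv]
      exact ⟨klt h1.1 h2.1 h3, klt h2.1 h1.1 fun e => (h3 e.symm).symm⟩
    obtain ⟨c1, c2⟩ := mem_of_mem_chords hc
    obtain ⟨d1, d2⟩ := mem_of_mem_chords hc'
    rw [cross_transfer (k _ c1 _ d1) (k _ c1 _ d2) (k _ c2 _ d1) (k _ c2 _ d2)]
    exact h c hc c' hc'
  have val : D.Valid G := by
    refine ⟨fun x y h => hd.inj (F.inj _ _ (hv x) (hv y) (congrArg (fun z => (ofLex z).1) h)),
      fun e => ?_, fun e f hef y hy hy' => ?_, fun e x hx => ?_,
      fun e he => absurd he (hG.loop e), fun e => nc e e (Or.inl rfl) (A e).self,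
      fun e f hef => nc e f (Or.inr hef) fun c hc c' hc' => ?_⟩
    · exact (List.nodup_append.1 (List.nodup_cons.1 (A e).nodup).2).1.map_on
        fun y hy y' hy' => keq ((A e).mem _ (mM hy)).1 ((A e).mem _ (mM hy')).1
    · obtain ⟨p, hp, rfl⟩ := List.mem_map.1 hy
      obtain ⟨q, hq, h⟩ := List.mem_map.1 hy'
      have h1 := congrArg (fun z => (ofLex z).2) h
      simp only [key, ofLex_toLex, if_neg (nV e p hp), if_neg (nV f q hq), add_left_inj] at h1
      exact hef (hidx h1).symm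
    · obtain ⟨p, hp, h⟩ := List.mem_map.1 hx
      exact nV e p hp ⟨x, (keq ((A e).mem _ (mM hp)).1 (hv x) (h.trans (kv e x).symm)).symm⟩
    · obtain ⟨m, r, k⟩ := (A e).run c hc
      obtain ⟨m', r', k'⟩ := (A f).run c' hc'
      refine r.not_cross F r' fun z h1 h2 => ?_
      obtain ⟨x, h3, h4, rfl⟩ := com hef z (k z h1).1 (k' z h2).1
      exact ⟨h3.imp (fun h => (k _ h1).2.1 (congrArg _ h)) fun h => (k _ h1).2.2 (congrArg _ h),
        h4.imp (fun h => (k' _ h2).2.1 (congrArg _ h)) fun h => (k' _ h2).2.2 (congrArg _ h)⟩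
  have hcv : ∀ e x, D.cv G e x = cov true (π e)
      ((d.pos (G.s e) :: (M e ++ [d.pos (G.t e)])).map ξ) (ξ (d.pos x)) := fun e x => by
    rw [Sys.cv, path, cov, cov, chords_map, chords_map, covL, covL, List.map_map, List.map_map]
    refine congrArg _ (List.map_congr_left fun c hc => ?_)
    obtain ⟨c1, c2⟩ := mem_of_mem_chords hc
    simp only [Function.comp, ind, ← kv e x,
      klt (e := e) (e' := e) (hv x) ((A e).mem _ c1).1 (congrArg _),
      klt (e := e) (e' := e) (hv x) ((A e).mem _ c2).1 (congrArg _)]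
  obtain ⟨ρ, S, -, -, -, -, -, v', so, cv', -, -⟩ := Sys.toInt hs val ∅
  refine ⟨D.map ρ, v', fun e f hef hn => congrArg _ ?_⟩
  have hi : ∀ x y, ind ((D.map ρ).pos x) ((D.map ρ).pos y) = ind (ξ (d.pos x)) (ξ (d.pos y)) :=
    fun x y => by
    simp only [ind, ← so x y, ← kv e, klt (e := e) (e' := e) (hv x) (hv y) (congrArg _)]
  have off : ∀ {e f}, e ≠ f → ¬ G.H e f → ∀ y ∈ d.arc G.s G.t e,
      y ∉ carrier (d.arc G.s G.t f) := fun {e f} h1 h2 y hy hy' => by
    rcases hd.proper e f h1 y (mem_car' hy) hy' with ⟨x, h3, h4, -⟩ | ⟨p, hp, -, -, h3, -⟩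
    exacts [h2 ((hG.adj e f).2 ⟨h1, x, h3, h4⟩), bend (hd.simple e) hy hp h3]
  have o1 := off hef hn
  have o2 := off hef.symm fun h => hn (hs _ _ h)
  have e1 := F.sum2 _ _ _ _ o1 o2
  rw [getLastD_app, getLastD_app, List.getLastD_nil, List.getLastD_nil,
    ((A f).sum _ (hv _) (o1 _ (by simp [Drawing.arc]))).1,
    ((A f).sum _ (hv _) (o1 _ (by simp [Drawing.arc]))).1,
    ((A e).sum _ (hv _) (o2 _ (by simp [Drawing.arc]))).2,
    ((A e).sum _ (hv _) (o2 _ (by simp [Drawing.arc]))).2] at e1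
  have t1 := cov_add (π e) (ξ (d.pos (G.s e))) ((M e).map ξ) (ξ (d.pos (G.t e)))
  refine e1.trans ?_
  simp only [Sys.alg, cv', hcv, hi, List.map_cons, List.map_append, List.map_nil]
  have t2 := t1 (ξ (d.pos (G.s f)))
  have t3 := t1 (ξ (d.pos (G.t f)))
  omega

end Pool.Agent.MP_17db17_lc.H93
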