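import Pool.Agent.MP_17db17_lc.H93.Basic

/-!
A spine through finitely many points of the plane: the graph of a polynomial over a generic
direction, and the signed crossings of segments with the rays above and below its points.
-/

set_option autoImplicit false

namespace Pool.Agent.MP_17db17_lc.H93.G1

open Polynomial

/-- the point lies on page `π` -/
def On (η : Pt → ℝ) (π : Bool) (x : Pt) : Prop := if π then 0 ≤ η x else η x ≤ 0

/-- additive under subdivision of segments that miss `z` -/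
def Add (z : Pt) (f : Pt → Pt → ℤ) : Prop :=
  ∀ a b c, c ∈ segment ℝ a b → z ∉ segment ℝ a b → f a b = f a c + f c b

structure Frame (ξ η : Pt → ℝ) (up dn : Pt → Pt → Pt → ℤ) : Prop where
  par : ∀ p0 p1 q0 q1 : Pt, p0 ∉ segment ℝ q0 q1 → p1 ∉ segment ℝ q0 q1 → q0 ∉ segment ℝ p0 p1 →
    q1 ∉ segment ℝ p0 p1 →
    crossSign (p0, p1) (q0, q1) = up p1 q0 q1 - up p0 q0 q1 + dn q0 p0 p1 - dn q1 p0 p1
  addU : ∀ z, Add z (up z)
  addD : ∀ z, Add z (dn z)
  seg : ∀ π z a b, η z = 0 → z ∉ segment ℝ a b → (∀ x ∈ segment ℝ a b, On η π x) →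
    up z a b = (if π then ind (ξ z) (ξ b) - ind (ξ z) (ξ a) else 0) ∧
      dn z a b = if π then 0 else ind (ξ b) (ξ z) - ind (ξ a) (ξ z)
  inj : ∀ p q, η p = 0 → η q = 0 → ξ p = ξ q → p = q
  fin : ∀ a b, (∀ x ∈ segment ℝ a b, η x = 0) ∨ {x | Sbtw ℝ a x b ∧ η x = 0}.Finite
  side : ∀ a b, a ≠ b → (∀ x, Sbtw ℝ a x b → η x ≠ 0) → ∃ π, ∀ x ∈ segment ℝ a b, On η π x

/-- the shear -/
def sh (ε : ℝ) (p : Pt) : Pt := (p.1 + ε * p.2, p.2)

theorem sh_inj (ε : ℝ) : Function.Injective (sh ε) := fun p q h => by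
  have h1 := congrArg Prod.fst h
  have h2 : p.2 = q.2 := (congrArg Prod.snd h :)
  simp only [sh, h2, add_left_inj] at h1
  exact Prod.ext h1 h2

theorem sh_lin (ε s t : ℝ) (x y : Pt) : sh ε (s • x + t • y) = s • sh ε x + t • sh ε y := by
  ext <;> simp [sh]
  ring

theorem seg_iff {f : Pt → Pt} (hi : Function.Injective f)
    (hf : ∀ (s t : ℝ) x y, s + t = 1 → f (s • x + t • y) = s • f x + t • f y) {a b x : Pt} :
    f x ∈ segment ℝ (f a) (f b) ↔ x ∈ segment ℝ a b :=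
  ⟨fun ⟨s, t, h1, h2, h3, h4⟩ => ⟨s, t, h1, h2, h3, hi (by rw [hf _ _ _ _ h3, h4])⟩,
    fun ⟨s, t, h1, h2, h3, h4⟩ => ⟨s, t, h1, h2, h3, by rw [← hf _ _ _ _ h3, h4]⟩⟩

theorem cross_sh (ε : ℝ) (p0 p1 q0 q1 : Pt) :
    crossSign (sh ε p0, sh ε p1) (sh ε q0, sh ε q1) = crossSign (p0, p1) (q0, q1) := by
  have h1 : (openSegment ℝ (sh ε p0) (sh ε p1) ∩ openSegment ℝ (sh ε q0) (sh ε q1)).Nonempty ↔
      (openSegment ℝ p0 p1 ∩ openSegment ℝ q0 q1).Nonempty := by
    constructor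
    · rintro ⟨z, ⟨s, t, a1, a2, a3, a4⟩, s', t', b1, b2, b3, b4⟩
      exact ⟨_, ⟨s, t, a1, a2, a3, rfl⟩, s', t', b1, b2, b3,
        sh_inj ε (by rw [sh_lin, sh_lin, a4, b4])⟩
    · rintro ⟨z, ⟨s, t, a1, a2, a3, a4⟩, s', t', b1, b2, b3, b4⟩
      exact ⟨sh ε z, ⟨s, t, a1, a2, a3, by rw [← sh_lin, a4]⟩, s', t', b1, b2, b3,
        by rw [← sh_lin, b4]⟩
  have h2 : det (sh ε p1 - sh ε p0) (sh ε q1 - sh ε q0) = det (p1 - p0) (q1 - q0) := by
    simp only [det, sh, Prod.fst_sub, Prod.snd_sub]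
    ring
  classical
  simp only [crossSign, h2]
  exact if_congr h1 rfl rfl

theorem add_of (hP : ParStmt) {f : Pt → Pt} (hi : Function.Injective f)
    (hf : ∀ (s t : ℝ) x y, s + t = 1 → f (s • x + t • y) = s • f x + t • f y) {z : Pt}
    (hz : f z = 0) : Add z fun a b => om (f a) (f b) := fun _ _ _ h1 h2 =>
  hP.2 _ _ _ ((seg_iff hi hf).2 h1) fun h => h2 ((seg_iff hi hf).1 (hz ▸ h))

/-- the point of a segment over a given abscissa -/
theorem key {a b : Pt} (h : (a.1 ≤ 0 ∧ 0 ≤ b.1) ∨ (b.1 ≤ 0 ∧ 0 ≤ a.1)) (hne : a.1 ≠ b.1) :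
    ∃ w ∈ segment ℝ a b, w.1 = 0 ∧ det a b = (a.1 - b.1) * w.2 := by
  have h0 : b.1 - a.1 ≠ 0 := sub_ne_zero.2 hne.symm
  refine ⟨_, ⟨b.1 / (b.1 - a.1), -a.1 / (b.1 - a.1), ?_, ?_, ?_, rfl⟩, ?_, ?_⟩
  · rcases h with h | h
    · exact div_nonneg h.2 (by linarith [h.1, h.2])
    · exact div_nonneg_of_nonpos h.1 (by linarith [h.1, h.2])
  · rcases h with h | h
    · exact div_nonneg (by linarith [h.1]) (by linarith [h.1, h.2])
    · exact div_nonneg_of_nonpos (by linarith [h.2]) (by linarith [h.1, h.2])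
  · field_simp
    ring
  · simp only [Prod.fst_add, Prod.smul_fst, smul_eq_mul]
    field_simp
    ring
  · simp only [det, Prod.snd_add, Prod.smul_snd, smul_eq_mul]
    field_simp
    ring

theorem om_above {a b : Pt} (h : ∀ w ∈ segment ℝ a b, w.1 = 0 → 0 < w.2) :
    om a b = ind 0 b.1 - ind 0 a.1 := by
  unfold om ind
  by_cases h1 : 0 < a.1 <;> by_cases h2 : 0 < b.1
  · simp [h1, h2, not_le_of_gt h1, not_le_of_gt h2]
  · obtain ⟨w, hw, w1, w2⟩ := key (a := a) (b := b) (Or.inr ⟨not_lt.1 h2, h1.le⟩) (by linarith)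
    have : 0 < det a b := w2 ▸ mul_pos (by linarith) (h w hw w1)
    simp [h1, h2, not_lt.1 h2, this]
  · obtain ⟨w, hw, w1, w2⟩ := key (a := a) (b := b) (Or.inl ⟨not_lt.1 h1, h2.le⟩) (by linarith)
    have : det a b < 0 := w2 ▸ mul_neg_of_neg_of_pos (by linarith) (h w hw w1)
    simp [h1, h2, not_lt.1 h1, this]
  · simp [h1, h2]

theorem om_below {a b : Pt} (h : ∀ w ∈ segment ℝ a b, w.1 = 0 → w.2 < 0) : om a b = 0 := by
  unfold om
  rw [if_neg, if_neg]
  · rintro ⟨h1, h2, h3⟩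
    obtain ⟨w, hw, w1, w2⟩ := key (a := a) (b := b) (Or.inr ⟨h1, h2.le⟩) (by linarith)
    have : det a b < 0 := w2 ▸ mul_neg_of_pos_of_neg (by linarith) (h w hw w1)
    linarith
  · rintro ⟨h1, h2, h3⟩
    obtain ⟨w, hw, w1, w2⟩ := key (a := a) (b := b) (Or.inl ⟨h1, h2.le⟩) (by linarith)
    have : 0 < det a b := w2 ▸ mul_pos_of_neg_of_neg (by linarith) (h w hw w1)
    linarith

theorem seg_pull {f : Pt → Pt}
    (hf : ∀ (s t : ℝ) x y, s + t = 1 → f (s • x + t • y) = s • f x + t • f y) {a b w : Pt}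
    (h : w ∈ segment ℝ (f a) (f b)) : ∃ x ∈ segment ℝ a b, f x = w := by
  obtain ⟨s, t, h1, h2, h3, h4⟩ := h
  exact ⟨_, ⟨s, t, h1, h2, h3, rfl⟩, by rw [hf _ _ _ _ h3, h4]⟩

theorem side_of_cont {η : Pt → ℝ} (hc : Continuous η) {a b : Pt} (hab : a ≠ b)
    (h : ∀ x, Sbtw ℝ a x b → η x ≠ 0) : ∃ π, ∀ x ∈ segment ℝ a b, On η π x := by
  by_contra hn
  push Not at hn
  obtain ⟨x, hx, h1⟩ := hn true
  obtain ⟨y, hy, h2⟩ := hn false
  rw [segment_eq_image_lineMap] at hx hy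
  obtain ⟨s, hs, rfl⟩ := hx
  obtain ⟨t, ht, rfl⟩ := hy
  simp only [On, if_true, Bool.false_eq_true, if_false, not_le] at h1 h2
  have hg : Continuous fun u : ℝ => η (AffineMap.lineMap a b u) :=
    hc.comp AffineMap.lineMap_continuous
  have : ∃ u ∈ Set.Ioo (0 : ℝ) 1, η (AffineMap.lineMap a b u) = 0 := by
    rcases le_total s t with h3 | h3
    · obtain ⟨u, hu, h4⟩ := intermediate_value_Ioo h3 hg.continuousOn ⟨h1, h2⟩
      exact ⟨u, ⟨hs.1.trans_lt hu.1, hu.2.trans_le ht.2⟩, h4⟩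
    · obtain ⟨u, hu, h4⟩ := intermediate_value_Ioo' h3 hg.continuousOn ⟨h1, h2⟩
      exact ⟨u, ⟨ht.1.trans_lt hu.1, hu.2.trans_le hs.2⟩, h4⟩
  obtain ⟨u, hu, h4⟩ := this
  exact h _ (sbtw_iff_mem_image_Ioo_and_ne.2 ⟨⟨u, hu, rfl⟩, hab⟩) h4

theorem frame (hP : ParStmt) (ε : ℝ) (h : ℝ[X]) :
    Frame (fun p => (sh ε p).1) (fun p => p.2 - h.eval (sh ε p).1)
      (fun z a b => om (sh ε a - sh ε z) (sh ε b - sh ε z))
      (fun z a b => om (sh ε z - sh ε a) (sh ε z - sh ε b)) := by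
  have a1 : ∀ z, ∀ (s t : ℝ) x y, s + t = 1 → sh ε (s • x + t • y) - sh ε z =
      s • (sh ε x - sh ε z) + t • (sh ε y - sh ε z) := fun z s t x y hst => by
    rw [sh_lin, smul_sub, smul_sub, sub_add_sub_comm, ← add_smul, hst, one_smul]
  have a2 : ∀ z, ∀ (s t : ℝ) x y, s + t = 1 → sh ε z - sh ε (s • x + t • y) =
      s • (sh ε z - sh ε x) + t • (sh ε z - sh ε y) := fun z s t x y hst => by
    rw [sh_lin, smul_sub, smul_sub, sub_add_sub_comm, ← add_smul, hst, one_smul]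
  have hinj : ∀ p q : Pt, (sh ε p).1 = (sh ε q).1 → p.2 = q.2 → p = q := fun p q h1 h2 =>
    sh_inj ε (Prod.ext h1 h2)
  refine ⟨fun p0 p1 q0 q1 h1 h2 h3 h4 => ?_,
    fun z => add_of hP (f := fun x => sh ε x - sh ε z)
      (sub_left_injective.comp (sh_inj ε)) (a1 z) (sub_self _),
    fun z => add_of hP (f := fun x => sh ε z - sh ε x)
      (sub_right_injective.comp (sh_inj ε)) (a2 z) (sub_self _),
    fun π z a b hz hn hs => ?_, fun p q h1 h2 h3 => ?_, fun a b => ?_,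
    fun a b => side_of_cont ?_⟩
  · have k := fun a b x => seg_iff (a := a) (b := b) (x := x) (sh_inj ε)
      fun s t x y _ => sh_lin ε s t x y
    rw [← cross_sh ε]
    exact hP.1 _ _ _ _ (mt (k _ _ _).1 h1) (mt (k _ _ _).1 h2) (mt (k _ _ _).1 h3)
      (mt (k _ _ _).1 h4)
  · have k : ∀ x ∈ segment ℝ a b, (sh ε x).1 = (sh ε z).1 →
        if π then z.2 < x.2 else x.2 < z.2 := fun x hx h1 => by
      have h2 := hs x hx
      have h3 : x.2 ≠ z.2 := fun h3 => hn (hinj _ _ h1 h3 ▸ hx)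
      simp only [On, h1] at h2 hz
      cases π
      · exact lt_of_le_of_ne (by simp only [Bool.false_eq_true, if_false] at h2; linarith) h3
      · exact lt_of_le_of_ne (by simp only [if_true] at h2; linarith) h3.symm
    cases π
    · simp only [Bool.false_eq_true, if_false] at k ⊢
      constructor
      · refine om_below fun w hw h1 => ?_
        obtain ⟨x, hx, rfl⟩ := seg_pull (f := fun x => sh ε x - sh ε z) (a1 z) hw
        exact sub_neg.2 (k x hx (sub_eq_zero.1 h1))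
      · rw [om_above fun w hw h1 => ?_]
        · simp only [ind, Prod.fst_sub, sub_pos]
        · obtain ⟨x, hx, rfl⟩ := seg_pull (f := fun x => sh ε z - sh ε x) (a2 z) hw
          exact sub_pos.2 (k x hx (sub_eq_zero.1 h1).symm)
    · simp only [if_true] at k ⊢
      constructor
      · rw [om_above fun w hw h1 => ?_]
        · simp only [ind, Prod.fst_sub, sub_pos]
        · obtain ⟨x, hx, rfl⟩ := seg_pull (f := fun x => sh ε x - sh ε z) (a1 z) hw
          exact sub_pos.2 (k x hx (sub_eq_zero.1 h1))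
      · refine om_below fun w hw h1 => ?_
        obtain ⟨x, hx, rfl⟩ := seg_pull (f := fun x => sh ε z - sh ε x) (a2 z) hw
        exact sub_neg.2 (k x hx (sub_eq_zero.1 h1).symm)
  · refine hinj p q h3 ?_
    simp only [h3] at h1 h2
    linarith
  · let q : ℝ[X] := C a.2 + C (b.2 - a.2) * X -
      h.comp (C (sh ε a).1 + C ((sh ε b).1 - (sh ε a).1) * X)
    have hq : ∀ t : ℝ, q.eval t = (AffineMap.lineMap a b t : Pt).2 -
        h.eval (sh ε (AffineMap.lineMap a b t)).1 := fun t => by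
      simp only [q, eval_sub, eval_add, eval_mul, eval_C, eval_X, eval_comp, sh,
        AffineMap.lineMap_apply_module, Prod.fst_add, Prod.snd_add, Prod.smul_fst, Prod.smul_snd,
        smul_eq_mul]
      congr 1
      · ring
      · congr 1
        ring
    by_cases h0 : q = 0
    · refine Or.inl fun x hx => ?_
      rw [segment_eq_image_lineMap] at hx
      obtain ⟨t, -, rfl⟩ := hx
      rw [← hq, h0, eval_zero]
    · refine Or.inr (((q.roots.toFinset.finite_toSet).image (AffineMap.lineMap a b)).subset ?_)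
      rintro x ⟨⟨⟨t, -, rfl⟩, -⟩, h1⟩
      exact ⟨t, by simpa [h0] using (hq t).trans h1, rfl⟩
  · unfold sh
    fun_prop

theorem exists_frame (hP : ParStmt) {V : Type} [Fintype V] {pos : V → Pt}
    (hi : Function.Injective pos) :
    ∃ ξ η up dn, Frame ξ η up dn ∧ ∀ x, η (pos x) = 0 := by
  classical
  obtain ⟨ε, hε⟩ := Infinite.exists_notMem_finset (Finset.univ.image fun p : V × V =>
    ((pos p.2).1 - (pos p.1).1) / ((pos p.1).2 - (pos p.2).2))
  have h1 : Function.Injective fun x => (sh ε (pos x)).1 := fun x y h => by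
    by_cases h2 : (pos x).2 = (pos y).2
    · exact hi (sh_inj ε (Prod.ext h h2))
    · refine absurd (Finset.mem_image.2 ⟨(x, y), Finset.mem_univ _, ?_⟩) hε
      simp only [sh] at h
      rw [div_eq_iff (sub_ne_zero.2 h2)]
      linarith
  refine ⟨_, _, _, _, frame hP ε (Lagrange.interpolate Finset.univ (fun x => (sh ε (pos x)).1)
    fun x => (pos x).2), fun x => ?_⟩
  exact sub_eq_zero.2 (Lagrange.eval_interpolate_at_node (fun x => (pos x).2) h1.injOn
    (Finset.mem_univ x)).symm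

end Pool.Agent.MP_17db17_lc.H93.G1
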