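import Pool.Agent.MP_17db17_lc.H93.G1A

/-!
Polygonal arcs: subdivision at the spine, sums over the pieces.
-/

set_option autoImplicit false

namespace Pool.Agent.MP_17db17_lc.H93.G1

@[simp] theorem segs_one (a : Pt) : segs [a] = [] := rfl

@[simp] theorem segs_cons (a b : Pt) (l : List Pt) :
    segs (a :: b :: l) = (a, b) :: segs (b :: l) := rfl

@[simp] theorem car_one (a : Pt) : carrier [a] = ∅ := by simp [carrier]

theorem car_cons (a b : Pt) (l : List Pt) :
    carrier (a :: b :: l) = segment ℝ a b ∪ carrier (b :: l) := by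
  ext x
  simp [carrier]

theorem car_two (a b : Pt) : carrier [a, b] = segment ℝ a b := by simp [car_cons]

theorem car_append (a : Pt) (m : List Pt) (c : Pt) (l : List Pt) :
    carrier (a :: (m ++ c :: l)) = carrier (a :: (m ++ [c])) ∪ carrier (c :: l) := by
  induction m generalizing a with
  | nil => simp [car_cons]
  | cons b m ih => simp only [List.cons_append, car_cons, ih, Set.union_assoc]

theorem mem_car {a y : Pt} {l : List Pt} (h : y ∈ l) : y ∈ carrier (a :: l) := by
  induction l generalizing a with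
  | nil => simp at h
  | cons b l ih =>
    rw [car_cons]
    rcases List.mem_cons.1 h with rfl | h
    exacts [Or.inl (right_mem_segment _ _ _), Or.inr (ih h)]

theorem head_mem {a : Pt} {l : List Pt} (h : l ≠ []) : a ∈ carrier (a :: l) := by
  obtain ⟨b, l, rfl⟩ := List.exists_cons_of_ne_nil h
  rw [car_cons]
  exact Or.inl (left_mem_segment _ _ _)

theorem mem_car' {a b y : Pt} {m : List Pt} (h : y ∈ a :: (m ++ [b])) :
    y ∈ carrier (a :: (m ++ [b])) := by
  rcases List.mem_cons.1 h with rfl | h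
  exacts [head_mem (by simp), mem_car h]

theorem seg_sub {l : List Pt} {p : Pt × Pt} (h : p ∈ segs l) : segment ℝ p.1 p.2 ⊆ carrier l :=
  fun _ hx => ⟨p, h, hx⟩

theorem simple_split {a : Pt} {m : List Pt} {c : Pt} {l : List Pt}
    (h : IsSimple (a :: (m ++ c :: l))) : IsSimple (a :: (m ++ [c])) ∧ IsSimple (c :: l) ∧
      ∀ x ∈ carrier (a :: (m ++ [c])), x ∈ carrier (c :: l) → x = c := by
  induction m generalizing a with
  | nil => exact ⟨⟨h.1, by simp, trivial⟩, h.2.2, by simpa [car_two] using h.2.1⟩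
  | cons b m ih =>
    obtain ⟨h1, h2, h3⟩ := h
    obtain ⟨k1, k2, k3⟩ := ih h3
    rw [List.append_eq, car_append] at h2
    refine ⟨⟨h1, fun x hx hx' => h2 x hx (Or.inl hx'), k1⟩, k2, fun x hx hx' => ?_⟩
    rw [List.cons_append, car_cons] at hx
    rcases hx with hx | hx
    · have := h2 x hx (Or.inr hx')
      subst this
      exact k3 _ (head_mem (by simp)) hx'
    · exact k3 x hx hx'

theorem head_notMem {a : Pt} {l : List Pt} (h : IsSimple (a :: l)) : a ∉ l := by
  cases l with
  | nil => simp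
  | cons b l =>
    intro h1
    rcases List.mem_cons.1 h1 with h1 | h1
    exacts [h.1 h1, h.1 (h.2.1 a (left_mem_segment _ _ _) (mem_car h1))]

theorem bend {l : List Pt} (h : IsSimple l) {y : Pt} (hy : y ∈ l) {p : Pt × Pt} (hp : p ∈ segs l) :
    y ∉ openSegment ℝ p.1 p.2 := by
  induction l with
  | nil => simp at hy
  | cons a l ih =>
    cases l with
    | nil => simp at hp
    | cons b l =>
      intro h1
      have h2 := openSegment_subset_segment ℝ _ _ h1
      rcases List.mem_cons.1 hp with rfl | hq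
      · rcases List.mem_cons.1 hy with rfl | hy
        · exact h.1 (left_mem_openSegment_iff.1 h1)
        · have : y = b := (List.mem_cons.1 hy).elim id fun hy => h.2.1 y h2 (mem_car hy)
          subst this
          exact h.1 (right_mem_openSegment_iff.1 h1)
      · rcases List.mem_cons.1 hy with rfl | hy
        · exact h.1 (h.2.1 y (left_mem_segment _ _ _) (seg_sub (l := b :: l) hq h2))
        · exact ih h.2.2 hy hq h1

/-- sum over the pieces -/
def sm (f : Pt → Pt → ℤ) (l : List Pt) : ℤ := ((segs l).map fun s => f s.1 s.2).sum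

@[simp] theorem sm_one (f : Pt → Pt → ℤ) (a : Pt) : sm f [a] = 0 := rfl

theorem sm_cons (f : Pt → Pt → ℤ) (a b : Pt) (l : List Pt) :
    sm f (a :: b :: l) = f a b + sm f (b :: l) := by simp [sm]

theorem sm_append (f : Pt → Pt → ℤ) (a : Pt) (m : List Pt) (c : Pt) (l : List Pt) :
    sm f (a :: (m ++ c :: l)) = sm f (a :: (m ++ [c])) + sm f (c :: l) := by
  induction m generalizing a with
  | nil => simp [sm_cons]
  | cons b m ih => simp only [List.cons_append, sm_cons, ih, add_assoc]

/-- `a :: l'` is a subdivision of `a :: l` -/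
structure Ref (a : Pt) (l l' : List Pt) : Prop where
  simple : IsSimple (a :: l) → IsSimple (a :: l')
  car : carrier (a :: l') = carrier (a :: l)
  last : l'.getLastD a = l.getLastD a
  sum : ∀ z f, Add z f → z ∉ carrier (a :: l) → sm f (a :: l') = sm f (a :: l)

theorem Ref.refl (a : Pt) (l : List Pt) : Ref a l l := ⟨id, rfl, rfl, fun _ _ _ _ => rfl⟩

theorem Ref.trans {a : Pt} {l l' l'' : List Pt} (h : Ref a l l') (h' : Ref a l' l'') :
    Ref a l l'' :=
  ⟨h'.simple ∘ h.simple, h'.car.trans h.car, h'.last.trans h.last,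
    fun z f hf hz => (h'.sum z f hf (h.car ▸ hz)).trans (h.sum z f hf hz)⟩

theorem Ref.cons {b : Pt} {l l' : List Pt} (h : Ref b l l') (a : Pt) :
    Ref a (b :: l) (b :: l') := by
  refine ⟨fun h1 => ⟨h1.1, h.car ▸ h1.2.1, h.simple h1.2.2⟩, by rw [car_cons, car_cons, h.car],
    by simpa only [List.getLastD_cons] using h.last, fun z f hf hz => ?_⟩
  rw [car_cons] at hz
  rw [sm_cons, sm_cons, h.sum z f hf fun h1 => hz (Or.inr h1)]

theorem seg_union {a b c : Pt} (h : Wbtw ℝ a c b) :
    segment ℝ a c ∪ segment ℝ c b = segment ℝ a b := by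
  refine Set.Subset.antisymm (Set.union_subset
    (fun x hx => (h.trans_left (mem_segment_iff_wbtw.1 hx)).mem_segment)
    fun x hx => (h.trans_right (mem_segment_iff_wbtw.1 hx)).mem_segment) ?_
  rw [← insert_endpoints_openSegment ℝ a b]
  rintro x (rfl | rfl | hx)
  · exact Or.inl (left_mem_segment _ _ _)
  · exact Or.inr (right_mem_segment _ _ _)
  · obtain ⟨t, -, ht⟩ := h
    rcases openSegment_subset_union a b ⟨t, ht⟩ hx with rfl | h1 | h1
    exacts [Or.inl (right_mem_segment _ _ _), Or.inl (openSegment_subset_segment _ _ _ h1),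
      Or.inr (openSegment_subset_segment _ _ _ h1)]

theorem Ref.cut {a b c : Pt} (h : Sbtw ℝ a c b) (l : List Pt) :
    Ref a (b :: l) (c :: b :: l) := by
  have e := seg_union h.wbtw
  refine ⟨fun h1 => ⟨h.left_ne, fun x hx hx' => ?_, h.ne_right,
      fun x hx => h1.2.1 x (e ▸ Or.inr hx), h1.2.2⟩,
    by rw [car_cons, car_cons, car_cons, ← Set.union_assoc, e],
    by simp only [List.getLastD_cons], fun z f hf hz => ?_⟩
  · rw [car_cons] at hx'
    have h2 := mem_segment_iff_wbtw.1 hx
    rcases hx' with hx' | hx'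
    · exact (h.wbtw.trans_left_right h2).swap_left_iff.1 (mem_segment_iff_wbtw.1 hx')
    · have := h1.2.1 x (e ▸ Or.inl hx) hx'
      subst this
      exact (h.wbtw.swap_right_iff.1 h2).symm
  · rw [car_cons] at hz
    rw [sm_cons, sm_cons, sm_cons, hf a b c h.wbtw.mem_segment fun h1 => hz (Or.inl h1), add_assoc]

/-- every piece lies on one page -/
def One (η : Pt → ℝ) (l : List Pt) : Prop :=
  ∀ s ∈ segs l, ∃ π, ∀ x ∈ segment ℝ s.1 s.2, On η π x

variable {ξ η : Pt → ℝ} {up dn : Pt → Pt → Pt → ℤ} (F : Frame ξ η up dn)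
include F

theorem Frame.cut (n : ℕ) : ∀ a b l, a ≠ b → {x | Sbtw ℝ a x b ∧ η x = 0}.Finite →
    {x | Sbtw ℝ a x b ∧ η x = 0}.ncard ≤ n → One η (b :: l) →
    ∃ l', Ref a (b :: l) l' ∧ One η (a :: l') := by
  induction n using Nat.strong_induction_on with
  | _ n ih =>
    intro a b l hab hf hn ho
    by_cases h : ∃ c, Sbtw ℝ a c b ∧ η c = 0
    · obtain ⟨c, h1, h2⟩ := h
      have s1 : {x | Sbtw ℝ a x c ∧ η x = 0} ⊂ {x | Sbtw ℝ a x b ∧ η x = 0} :=
        ⟨fun x hx => ⟨h1.trans_left hx.1, hx.2⟩, fun h3 => (h3 ⟨h1, h2⟩).1.ne_right rfl⟩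
      have s2 : {x | Sbtw ℝ c x b ∧ η x = 0} ⊂ {x | Sbtw ℝ a x b ∧ η x = 0} :=
        ⟨fun x hx => ⟨h1.trans_right hx.1, hx.2⟩, fun h3 => (h3 ⟨h1, h2⟩).1.ne_left rfl⟩
      obtain ⟨l1, r1, o1⟩ := ih _ ((Set.ncard_lt_ncard s2 hf).trans_le hn) c b l h1.ne_right
        (hf.subset s2.1) le_rfl ho
      obtain ⟨l2, r2, o2⟩ := ih _ ((Set.ncard_lt_ncard s1 hf).trans_le hn) a c l1 h1.left_ne
        (hf.subset s1.1) le_rfl o1
      exact ⟨l2, (Ref.cut h1 l).trans ((r1.cons a).trans r2), o2⟩
    · refine ⟨_, .refl _ _, fun s hs => ?_⟩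
      rcases List.mem_cons.1 hs with rfl | hs
      exacts [F.side a b hab fun x h1 h2 => h ⟨x, h1, h2⟩, ho s hs]

theorem Frame.refine (l : List Pt) : ∀ a, IsSimple (a :: l) →
    ∃ l', Ref a l l' ∧ One η (a :: l') := by
  induction l with
  | nil => exact fun a _ => ⟨[], .refl _ _, by simp [One]⟩
  | cons b l ih =>
    intro a h
    obtain ⟨l1, r1, o1⟩ := ih b h.2.2
    rcases F.fin a b with h1 | h1
    · refine ⟨_, r1.cons a, fun s hs => ?_⟩
      rcases List.mem_cons.1 hs with rfl | hs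
      exacts [⟨true, fun x hx => (h1 x hx).ge⟩, o1 s hs]
    · obtain ⟨l2, r2, o2⟩ := F.cut _ a b l1 h.1 h1 le_rfl o1
      exact ⟨l2, (r1.cons a).trans r2, o2⟩

theorem Frame.sum1 (p0 p1 : Pt) (l : List Pt) : ∀ c, p0 ∉ carrier (c :: l) →
    p1 ∉ carrier (c :: l) → (∀ y ∈ c :: l, y ∉ segment ℝ p0 p1) →
    ((segs (c :: l)).map fun q => crossSign (p0, p1) q).sum =
      sm (up p1) (c :: l) - sm (up p0) (c :: l) + dn c p0 p1 - dn (l.getLastD c) p0 p1 := by
  induction l with
  | nil => simp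
  | cons e l ih =>
    intro c h0 h1 h2
    rw [car_cons, Set.mem_union, not_or] at h0 h1
    rw [segs_cons, List.map_cons, List.sum_cons, sm_cons, sm_cons, List.getLastD_cons,
      ih e h0.2 h1.2 fun y hy => h2 y (List.mem_cons_of_mem _ hy),
      F.par p0 p1 c e h0.1 h1.1 (h2 c (by simp)) (h2 e (by simp))]
    ring

theorem Frame.sum2 (c : Pt) (l' l : List Pt) : ∀ a, (∀ y ∈ a :: l, y ∉ carrier (c :: l')) →
    (∀ y ∈ c :: l', y ∉ carrier (a :: l)) →
    algCross (a :: l) (c :: l') = sm (up (l.getLastD a)) (c :: l') - sm (up a) (c :: l') +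
      sm (dn c) (a :: l) - sm (dn (l'.getLastD c)) (a :: l) := by
  induction l with
  | nil => simp [algCross]
  | cons b l ih =>
    intro a h1 h2
    simp only [car_cons, Set.mem_union, not_or] at h2
    have := ih b (fun y hy => h1 y (List.mem_cons_of_mem _ hy)) fun y hy => (h2 y hy).2
    unfold algCross at this ⊢
    rw [segs_cons, List.map_cons, List.sum_cons, this, sm_cons, sm_cons, List.getLastD_cons,
      F.sum1 a b l' c (h1 a (by simp)) (h1 b (by simp)) fun y hy => (h2 y hy).1]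
    ring

theorem Frame.run {π : Bool} {z : Pt} (hz : η z = 0) (l : List Pt) : ∀ a,
    (∀ x ∈ carrier (a :: l), On η π x) → z ∉ carrier (a :: l) →
    sm (up z) (a :: l) = (if π then ind (ξ z) (ξ (l.getLastD a)) - ind (ξ z) (ξ a) else 0) ∧
      sm (dn z) (a :: l) = if π then 0 else ind (ξ (l.getLastD a)) (ξ z) - ind (ξ a) (ξ z) := by
  induction l with
  | nil => simp
  | cons b l ih =>
    intro a h1 h2
    rw [car_cons] at h1 h2
    obtain ⟨k1, k2⟩ := ih b (fun x hx => h1 x (Or.inr hx)) fun h => h2 (Or.inr h)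
    obtain ⟨k3, k4⟩ := F.seg π z a b hz (fun h => h2 (Or.inl h)) fun x hx => h1 x (Or.inl hx)
    rw [sm_cons, sm_cons, k1, k2, k3, k4, List.getLastD_cons]
    cases π <;> simp

omit F in
theorem algCross_zero {l l' : List Pt} (h : ∀ x ∈ carrier l, x ∉ carrier l') :
    algCross l l' = 0 := by
  refine List.sum_eq_zero fun x hx => ?_
  obtain ⟨p, hp, rfl⟩ := List.mem_map.1 hx
  refine List.sum_eq_zero fun x hx => ?_
  obtain ⟨q, hq, rfl⟩ := List.mem_map.1 hx
  exact if_neg fun ⟨z, h1, h2⟩ => h z (seg_sub hp (openSegment_subset_segment _ _ _ h1))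
    (seg_sub hq (openSegment_subset_segment _ _ _ h2))

end Pool.Agent.MP_17db17_lc.H93.G1
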