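import Pool.Agent.MP_17db17_lc.H93.G2a

set_option autoImplicit false

namespace Pool.Agent.MP_17db17_lc.H93

namespace G2

variable {K : ℕ} {c d : Chord ℤ} {z : Pt}

/-- the two sides of a tent, directed -/
noncomputable def legs (K : ℕ) (c : Chord ℤ) : List (Pt × Pt) :=
  [(ax c.2.1, apex K c), (apex K c, ax c.2.2)]

/-- the points of a tent -/
def Tent (K : ℕ) (c : Chord ℤ) (z : Pt) : Prop := ∃ p ∈ legs K c, z ∈ segment ℝ p.1 p.2

theorem tent_iff : Tent K c z ↔
    z ∈ segment ℝ (ax c.2.1) (apex K c) ∨ z ∈ segment ℝ (apex K c) (ax c.2.2) := by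
  simp [Tent, legs]

theorem det_neg_left (a b p : Pt) : det (a - b) p = -det (b - a) p := by
  simp only [det, Prod.fst_sub, Prod.snd_sub]; ring

theorem det_neg_right (a b p : Pt) : det p (a - b) = -det p (b - a) := by
  simp only [det, Prod.fst_sub, Prod.snd_sub]; ring

/-- two different tents -/
theorem meet (h : Ok K c) (h' : Ok K d) (hn : ¬ Same c d) (hz : Tent K c z) (hz' : Tent K d z) :
    (∃ y, (y = c.2.1 ∨ y = c.2.2) ∧ (y = d.2.1 ∨ y = d.2.2) ∧ z = ax y) ∨
      (Cross c d ∧ ∃ p ∈ legs K c, ∃ q ∈ legs K d, z ∈ openSegment ℝ p.1 p.2 ∧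
        z ∈ openSegment ℝ q.1 q.2 ∧ det (p.2 - p.1) (q.2 - q.1) ≠ 0) := by
  obtain ⟨π, u, v⟩ := c
  obtain ⟨π', u', v'⟩ := d
  rw [tent_iff] at hz hz'
  rcases hz with hz | hz <;> rcases hz' with hz' | hz'
  · refine (meet_leg h h' hn hz hz').imp (fun k => ⟨u, Or.inl rfl, Or.inl k.1, k.2⟩) fun k =>
      ⟨k.1, _, List.mem_cons_self, _, List.mem_cons_self, k.2⟩
  · rw [segment_symm, ← apex_swap] at hz'
    refine (meet_leg h h'.swap (by unfold Same at *; tauto) hz hz').imp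
      (fun k => ⟨u, Or.inl rfl, Or.inr k.1, k.2⟩) fun ⟨k1, k2, k3, k4⟩ =>
      ⟨cross_swap_right.1 k1, _, List.mem_cons_self, _,
        List.mem_cons_of_mem _ List.mem_cons_self, k2, ?_, ?_⟩
    · rwa [openSegment_symm, apex_swap] at k3
    · rwa [det_neg_right, neg_ne_zero, apex_swap (π := π') (u := u')] at k4
  · rw [segment_symm, ← apex_swap] at hz
    refine (meet_leg h.swap h' (by unfold Same at *; tauto) hz hz').imp
      (fun k => ⟨v, Or.inr rfl, Or.inl k.1, k.2⟩) fun ⟨k1, k2, k3, k4⟩ =>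
      ⟨cross_swap_left.1 k1, _, List.mem_cons_of_mem _ List.mem_cons_self, _,
        List.mem_cons_self, ?_, k3, ?_⟩
    · rwa [openSegment_symm, apex_swap] at k2
    · rwa [det_neg_left, neg_ne_zero, apex_swap] at k4
  · rw [segment_symm, ← apex_swap] at hz hz'
    refine (meet_leg h.swap h'.swap (by unfold Same at *; tauto) hz hz').imp
      (fun k => ⟨v, Or.inr rfl, Or.inr k.1, k.2⟩) fun ⟨k1, k2, k3, k4⟩ =>
      ⟨cross_swap_right.1 (cross_swap_left.1 k1), _, List.mem_cons_of_mem _ List.mem_cons_self, _,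
        List.mem_cons_of_mem _ List.mem_cons_self, ?_, ?_, ?_⟩
    · rwa [openSegment_symm, apex_swap] at k2
    · rwa [openSegment_symm, apex_swap] at k3
    · rwa [det_neg_left, det_neg_right, neg_neg, apex_swap, apex_swap (π := π')] at k4

/-- a tent meets the axis only at its ends -/
theorem Tent.axis (h : Ok K c) {y : ℤ} (hz : Tent K c (ax y)) : y = c.2.1 ∨ y = c.2.2 := by
  obtain ⟨π, u, v⟩ := c
  rcases tent_iff.1 hz with hz | hz
  · rcases on_of_mem h hz with e | ⟨a, o⟩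
    · exact Or.inl (ax_inj e)
    · exact absurd rfl (o.ne h)
  · rw [segment_symm, ← apex_swap] at hz
    rcases on_of_mem h.swap hz with e | ⟨a, o⟩
    · exact Or.inr (ax_inj e)
    · exact absurd rfl (o.ne h.swap)

theorem open_leg (h : Ok K c) {p : Pt × Pt} (hp : p ∈ legs K c)
    (hz : z ∈ openSegment ℝ p.1 p.2) : z.2 ≠ 0 := by
  simp only [legs, List.mem_cons, List.not_mem_nil, or_false] at hp
  rcases hp with rfl | rfl
  · exact open_ne h hz
  · exact open_ne h (by rwa [openSegment_symm] at hz)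

/-- the top of a tent is not on another tent -/
theorem apex_not (h : Ok K c) (h' : Ok K d) (hn : ¬ Same c d) : ¬ Tent K d (apex K c) := by
  obtain ⟨π, u, v⟩ := c
  obtain ⟨π', u', v'⟩ := d
  have key : ∀ u' v', Ok K (π', u', v') → ¬ Same (π, u, v) (π', u', v') →
      apex K (π, u, v) ∉ segment ℝ (ax u') (apex K (π', u', v')) := by
    intro u' v' h' hn hz
    rcases meet_leg h h' hn (right_mem_segment _ _ _) hz with k | k
    · exact h.apex_ne (by rw [k.2]; rfl)
    · exact h.apex_ne (by rw [← right_mem_openSegment_iff.1 k.2.1]; rfl)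
  intro hz
  rcases tent_iff.1 hz with hz | hz
  · exact key _ _ h' hn hz
  · rw [segment_symm, ← apex_swap] at hz
    exact key _ _ h'.swap (by unfold Same at *; tauto) hz

open Classical in
theorem om_up {α μ H : ℝ} (h : α ≠ 0) (hH : H ≠ 0) : om (α, 0) (μ, H) =
    if 0 < H then (if 0 < μ then 1 else 0) - (if 0 < α then 1 else 0) else 0 := by
  simp only [om, det, zero_mul, sub_zero]
  rcases lt_or_gt_of_ne h with h1 | h1 <;> rcases lt_or_gt_of_ne hH with h2 | h2 <;>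
    by_cases h3 : 0 < μ <;>
    simp [h1, h2, h3, h1.le, h1.not_gt, h1.not_ge, h2.not_gt, mul_neg_iff, mul_pos_iff,
      ← not_lt (a := (0 : ℝ)) (b := μ)]

open Classical in
theorem om_down {β μ H : ℝ} (h : β ≠ 0) (hH : H ≠ 0) : om (μ, H) (β, 0) =
    if 0 < H then (if 0 < β then 1 else 0) - (if 0 < μ then 1 else 0) else 0 := by
  simp only [om, det, mul_zero, zero_sub]
  rcases lt_or_gt_of_ne h with h1 | h1 <;> rcases lt_or_gt_of_ne hH with h2 | h2 <;>
    by_cases h3 : 0 < μ <;>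
    simp [h1, h2, h3, h1.le, h1.not_gt, h1.not_ge, h2.not_gt, mul_neg_iff, mul_pos_iff,
      ← not_lt (a := (0 : ℝ)) (b := μ)]

theorem Ok.apex_pos (h : Ok K c) : 0 < (apex K c).2 ↔ c.1 = true := by
  have h2 : (0 : ℝ) < len c := by exact_mod_cast h.len_pos
  have := mul_pos h.hpos h2
  cases h3 : c.1 <;> simp [apex, sg, h3, this, this.le]

theorem up_eq (h : Ok K c) {y : ℤ} (h1 : y ≠ c.2.1) (h2 : y ≠ c.2.2) :
    om (ax c.2.1 - ax y) (apex K c - ax y) + om (apex K c - ax y) (ax c.2.2 - ax y) =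
      if c.1 = true then ind y c.2.2 - ind y c.2.1 else 0 := by
  have e : ∀ w : ℤ, ax w - ax y = ((w : ℝ) - y, 0) := fun w => by simp [ax]
  have e' : apex K c - ax y = ((apex K c).1 - y, (apex K c).2) := Prod.ext rfl (by simp [ax])
  rw [e, e, e', om_up (sub_ne_zero.2 (by exact_mod_cast h1.symm)) h.apex_ne,
    om_down (sub_ne_zero.2 (by exact_mod_cast h2.symm)) h.apex_ne]
  simp only [h.apex_pos, ind, sub_pos, Int.cast_lt]
  split_ifs <;> simp

theorem down_eq (h : Ok K c) {y : ℤ} (h1 : y ≠ c.2.1) (h2 : y ≠ c.2.2) :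
    om (ax y - ax c.2.1) (ax y - apex K c) + om (ax y - apex K c) (ax y - ax c.2.2) =
      if c.1 = true then 0 else ind c.2.2 y - ind c.2.1 y := by
  have e : ∀ w : ℤ, ax y - ax w = ((y : ℝ) - w, 0) := fun w => by simp [ax]
  have e' : ax y - apex K c = (y - (apex K c).1, -(apex K c).2) := Prod.ext rfl (by simp [ax])
  have hp : 0 < -(apex K c).2 ↔ ¬ c.1 = true := by
    rw [← h.apex_pos, neg_pos, not_lt, le_iff_lt_or_eq, or_iff_left h.apex_ne]
  rw [e, e, e', om_up (sub_ne_zero.2 (by exact_mod_cast h1)) (neg_ne_zero.2 h.apex_ne),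
    om_down (sub_ne_zero.2 (by exact_mod_cast h2)) (neg_ne_zero.2 h.apex_ne)]
  simp only [hp, ind, sub_pos, Int.cast_lt]
  split_ifs <;> simp_all

/-- the signed number of crossings of two tents -/
theorem tent_xs (hP : ParStmt) (h : Ok K c) (h' : Ok K d)
    (hn : c.2.1 ≠ d.2.1 ∧ c.2.1 ≠ d.2.2 ∧ c.2.2 ≠ d.2.1 ∧ c.2.2 ≠ d.2.2) :
    ((legs K c).map fun p => ((legs K d).map fun q => crossSign p q).sum).sum = xs c d := by
  obtain ⟨n1, n2, n3, n4⟩ := hn
  have hs : ¬ Same c d := by unfold Same; tauto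
  have a0 : ¬ Tent K d (ax c.2.1) := fun k => by have := k.axis h'; tauto
  have a1 := apex_not h h' hs
  have a2 : ¬ Tent K d (ax c.2.2) := fun k => by have := k.axis h'; tauto
  have b0 : ¬ Tent K c (ax d.2.1) := fun k => by have := k.axis h; tauto
  have b1 := apex_not h' h fun k => hs k.symm
  have b2 : ¬ Tent K c (ax d.2.2) := fun k => by have := k.axis h; tauto
  rw [tent_iff, not_or] at a0 a1 a2 b0 b1 b2
  have u1 := up_eq h' n1 n2
  have u2 := up_eq h' n3 n4
  have d1 := down_eq h n1.symm n3.symm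
  have d2 := down_eq h n2.symm n4.symm
  simp only [legs, List.map_cons, List.map_nil, List.sum_cons, List.sum_nil,
    hP.1 _ _ _ _ a0.1 a1.1 b0.1 b1.1, hP.1 _ _ _ _ a0.2 a1.2 b1.1 b2.1,
    hP.1 _ _ _ _ a1.1 a2.1 b0.2 b1.2, hP.1 _ _ _ _ a1.2 a2.2 b1.2 b2.2, xs]
  cases h1 : c.1 <;> cases h2 : d.1 <;> simp only [h1, h2] at u1 u2 d1 d2 ⊢ <;>
    simp at u1 u2 d1 d2 ⊢ <;> omega

/-- the bends of the arc of a path -/
noncomputable def bn (K : ℕ) : Bool → ℤ → List ℤ → ℤ → List Pt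
  | b, x, [], y => [apex K (b, x, y)]
  | b, x, w :: m, y => apex K (b, x, w) :: ax w :: bn K (!b) w m y

theorem segs_cons (a b : Pt) (l : List Pt) : segs (a :: b :: l) = (a, b) :: segs (b :: l) := rfl

theorem segs_bn (b : Bool) (x : ℤ) (m : List ℤ) (y : ℤ) :
    segs (ax x :: (bn K b x m y ++ [ax y])) =
      (chords b (x :: (m ++ [y]))).flatMap (legs K) := by
  induction m generalizing b x with
  | nil => simp [bn, segs, legs]
  | cons w m ih =>
    simp only [bn, List.cons_append, segs_cons, ih, chords_cons_cons, List.flatMap_cons, legs,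
      List.nil_append]

theorem mem_carrier {b : Bool} {x : ℤ} {m : List ℤ} {y : ℤ} :
    z ∈ carrier (ax x :: (bn K b x m y ++ [ax y])) ↔
      ∃ c ∈ chords b (x :: (m ++ [y])), Tent K c z := by
  simp only [carrier, Set.mem_ofPred_eq, segs_bn, List.mem_flatMap, Tent]
  tauto

theorem carrier_cons (a b : Pt) (l : List Pt) :
    z ∈ carrier (a :: b :: l) ↔ z ∈ segment ℝ a b ∨ z ∈ carrier (b :: l) := by
  simp [carrier, segs_cons]

theorem simple_step {b : Bool} {x w : ℤ} {l : List Pt} (h : Ok K (b, x, w))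
    (h1 : ∀ z, Tent K (b, x, w) z → z ∈ carrier (ax w :: l) → z = ax w)
    (h2 : IsSimple (ax w :: l)) : IsSimple (ax x :: apex K (b, x, w) :: ax w :: l) := by
  refine ⟨fun e => h.apex_ne (by rw [← e]; rfl), fun z hz hz' => ?_,
    fun e => h.apex_ne (by rw [e]; rfl), fun z hz hz' => h1 z (tent_iff.2 (Or.inr hz)) hz', h2⟩
  rcases (carrier_cons _ _ _).1 hz' with k | k
  · rw [segment_symm, ← apex_swap] at k
    exact meet_self h hz k
  · have e := h1 z (tent_iff.2 (Or.inl hz)) k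
    rcases on_of_mem h hz with e' | ⟨a, o⟩
    · exact absurd (ax_inj (e'.symm.trans e)) h.1
    · exact absurd (by rw [e]; rfl) (o.ne h)

theorem simple_bn (b : Bool) (x : ℤ) (m : List ℤ) (y : ℤ) (hn : (x :: (m ++ [y])).Nodup)
    (ho : ∀ c ∈ chords b (x :: (m ++ [y])), Ok K c)
    (hc : NoCross b (x :: (m ++ [y])) b (x :: (m ++ [y]))) :
    IsSimple (ax x :: (bn K b x m y ++ [ax y])) := by
  induction m generalizing b x with
  | nil => exact simple_step (ho _ (by simp)) (fun z _ k => by simp [carrier, segs] at k) trivial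
  | cons w m ih =>
    have sub : ∀ c ∈ chords (!b) (w :: (m ++ [y])), c ∈ chords b (x :: (w :: m ++ [y])) :=
      fun c hc => List.mem_cons_of_mem _ hc
    have hx := (List.nodup_cons.1 hn).1
    refine simple_step (ho _ (by simp)) (fun z k k' => ?_)
      (ih (!b) w (List.nodup_cons.1 hn).2 (fun c k => ho c (sub c k))
        fun c k d k' => hc c (sub c k) d (sub d k'))
    obtain ⟨d, hd, k'⟩ := mem_carrier.1 k'
    obtain ⟨d1, d2⟩ := mem_of_mem_chords hd
    have n1 : x ≠ d.2.1 := fun e => hx (e ▸ d1)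
    have n2 : x ≠ d.2.2 := fun e => hx (e ▸ d2)
    rcases meet (ho _ (by simp)) (ho d (sub d hd)) (by unfold Same; tauto) k k' with
      ⟨t, t1 | t1, t2, t3⟩ | ⟨t, -⟩
    · exact absurd t2 (by rw [t1]; tauto)
    · rw [t3, t1]
    · exact absurd t (hc _ (by simp) d (sub d hd))

theorem sum_flatMap {α β : Type} (l : List α) (g : α → List β) (f : β → ℤ) :
    ((l.flatMap g).map f).sum = (l.map fun a => ((g a).map f).sum).sum := by
  induction l with
  | nil => simp
  | cons a l ih => simp [ih]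

theorem sum_swap {α β : Type} (l : List α) (l' : List β) (f : α → β → ℤ) :
    (l.map fun a => (l'.map fun b => f a b).sum).sum =
      (l'.map fun b => (l.map fun a => f a b).sum).sum := by
  induction l with
  | nil => simp
  | cons a l ih => simp [ih, List.sum_map_add]

variable {ι V : Type} {G : Gr ι V} {D : Sys ι V ℤ}

/-- the drawing of a system -/
noncomputable def draw (K : ℕ) (G : Gr ι V) (D : Sys ι V ℤ) : Drawing ι V :=
  ⟨fun x => ax (D.pos x), fun e => bn K (D.sp e) (D.pos (G.s e)) (D.mid e) (D.pos (G.t e))⟩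

theorem segs_draw (e : ι) : segs ((draw K G D).arc G.s G.t e) = (D.chs G e).flatMap (legs K) :=
  segs_bn _ _ _ _

theorem mem_draw {e : ι} :
    z ∈ carrier ((draw K G D).arc G.s G.t e) ↔ ∃ c ∈ D.chs G e, Tent K c z := mem_carrier

theorem isEnd_of_mem (h : D.Valid G) {e : ι} {x : V} (hx : D.pos x ∈ D.path G e) :
    IsEnd G.s G.t e x := by
  rcases Sys.mem_path.1 hx with k | k | k
  · exact Or.inl (h.inj k)
  · exact absurd k (h.notV e x)
  · exact Or.inr (h.inj k)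

theorem common (h : D.Valid G) {e f : ι} (hef : e ≠ f) {y : ℤ} (h1 : y ∈ D.path G e)
    (h2 : y ∈ D.path G f) : ∃ x, IsEnd G.s G.t e x ∧ IsEnd G.s G.t f x ∧ y = D.pos x := by
  rcases Sys.pt_of_mem_path h1 with k | ⟨x, rfl⟩
  · exact absurd h2 (h.not_mem_path hef k)
  · exact ⟨x, isEnd_of_mem h h1, isEnd_of_mem h h2, rfl⟩

theorem not_same (hG : G.Simple) (h : D.Valid G) {e f : ι} (hef : e ≠ f) (hc : c ∈ D.chs G e)
    (hd : d ∈ D.chs G f) : ¬ Same c d := by
  rintro ⟨-, hs⟩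
  obtain ⟨c1, c2⟩ := mem_of_mem_chords hc
  obtain ⟨d1, d2⟩ := mem_of_mem_chords hd
  obtain ⟨c3, c4⟩ := Sys.mem_of_mem_chs hc
  obtain ⟨d3, d4⟩ := Sys.mem_of_mem_chs hd
  have c5 : c.2.1 ∈ D.path G f ∧ c.2.2 ∈ D.path G f := by
    rcases hs with ⟨k1, k2⟩ | ⟨k1, k2⟩ <;> rw [k1, k2] <;> exact ⟨‹_›, ‹_›⟩
  have d5 : d.2.1 ∈ D.path G e ∧ d.2.2 ∈ D.path G e := by
    rcases hs with ⟨k1, k2⟩ | ⟨k1, k2⟩ <;> rw [← k1, ← k2] <;> exact ⟨‹_›, ‹_›⟩
  have e1 := c3.resolve_right fun k => h.not_mem_path hef k c5.1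
  have e2 := c4.resolve_left fun k => h.not_mem_path hef k c5.2
  have e3 := d3.resolve_right fun k => h.not_mem_path hef.symm k d5.1
  have e4 := d4.resolve_left fun k => h.not_mem_path hef.symm k d5.2
  rw [e1, e2, e3, e4] at hs
  have hH : G.H e f := (hG.adj e f).2 ⟨hef, _, Or.inl rfl, isEnd_of_mem h (e1 ▸ c5.1)⟩
  obtain ⟨-, p1, p2⟩ := hG.par e f hH
  rcases hs with ⟨k1, k2⟩ | ⟨k1, k2⟩
  · exact p1 ⟨h.inj k1, h.inj k2⟩
  · exact p2 ⟨h.inj k1, h.inj k2⟩

theorem draw_plus (hG : G.Simple) (h : D.Valid G) (ho : ∀ e, ∀ c ∈ D.chs G e, Ok K c) :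
    (draw K G D).IsPlus G.s G.t := by
  have mem : ∀ {e c y}, c ∈ D.chs G e → y = c.2.1 ∨ y = c.2.2 → y ∈ D.path G e := by
    rintro e c y hc (rfl | rfl)
    · exact (mem_of_mem_chords hc).1
    · exact (mem_of_mem_chords hc).2
  refine ⟨ax_inj.comp h.inj, fun e => simple_bn _ _ _ _ ?_ (ho e) (h.self e), fun e x hx => ?_,
    fun e f hef z h1 h2 => ?_, fun e f hef hx z hz => ?_⟩
  · refine List.nodup_cons.2 ⟨fun k => ?_, h.nodup_tail e⟩
    rcases List.mem_append.1 k with k | k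
    · exact h.notV e _ k
    · exact hG.loop e (h.inj (List.mem_singleton.1 k))
  · obtain ⟨c, hc, k⟩ := mem_draw.1 hx
    exact isEnd_of_mem h (mem hc (k.axis (ho e c hc)))
  · obtain ⟨c, hc, k⟩ := mem_draw.1 h1
    obtain ⟨d, hd, k'⟩ := mem_draw.1 h2
    rcases meet (ho e c hc) (ho f d hd) (not_same hG h hef hc hd) k k' with
      ⟨y, y1, y2, rfl⟩ | ⟨-, p, hp, q, hq, r⟩
    · obtain ⟨x, x1, x2, rfl⟩ := common h hef (mem hc y1) (mem hd y2)
      exact Or.inl ⟨x, x1, x2, rfl⟩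
    · refine Or.inr ⟨p, ?_, q, ?_, r⟩ <;> rw [segs_draw, List.mem_flatMap]
      · exact ⟨c, hc, hp⟩
      · exact ⟨d, hd, hq⟩
  · obtain ⟨p, hp, q, hq, r1, r2, -⟩ := hz
    rw [segs_draw, List.mem_flatMap] at hp hq
    obtain ⟨c, hc, hp⟩ := hp
    obtain ⟨d, hd, hq⟩ := hq
    rcases meet (ho e c hc) (ho f d hd) (not_same hG h hef hc hd)
      ⟨p, hp, openSegment_subset_segment _ _ _ r1⟩ ⟨q, hq, openSegment_subset_segment _ _ _ r2⟩ with
      ⟨y, -, -, rfl⟩ | ⟨k, -⟩
    · exact open_leg (ho e c hc) hp r1 rfl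
    · exact h.adj e f ((hG.adj e f).2 ⟨hef, hx⟩) c hc d hd k

theorem draw_alg (hP : ParStmt) (hG : G.Simple) (h : D.Valid G)
    (ho : ∀ e, ∀ c ∈ D.chs G e, Ok K c) {e f : ι} (hef : e ≠ f) (hH : ¬ G.H e f) :
    algCross ((draw K G D).arc G.s G.t e) ((draw K G D).arc G.s G.t f) = D.alg G e f := by
  have dj : ∀ y ∈ D.path G e, y ∉ D.path G f := fun y h1 h2 => by
    obtain ⟨x, x1, x2, -⟩ := common h hef h1 h2
    exact hH ((hG.adj e f).2 ⟨hef, x, x1, x2⟩)
  rw [Sys.alg_eq_XS dj, algCross, segs_draw, segs_draw, sum_flatMap, XS]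
  refine congrArg List.sum (List.map_congr_left fun c hc => ?_)
  simp only [sum_flatMap]
  rw [sum_swap]
  refine congrArg List.sum (List.map_congr_left fun d hd => ?_)
  obtain ⟨c1, c2⟩ := mem_of_mem_chords hc
  obtain ⟨d1, d2⟩ := mem_of_mem_chords hd
  exact tent_xs hP (ho e c hc) (ho f d hd) ⟨fun k => dj _ c1 (k ▸ d1), fun k => dj _ c1 (k ▸ d2),
    fun k => dj _ c2 (k ▸ d1), fun k => dj _ c2 (k ▸ d2)⟩

end G2

open G2 in
theorem g2 : ParStmt → G2Stmt := by
  intro hP ι V _ _ G hG D h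
  have ho : ∀ e, ∀ c ∈ D.chs G e, Ok (∑ e, ((D.chs G e).map len).sum + 1) c := fun e c hc =>
    ⟨h.ch_ne (Or.inl hc : D.Ch G e c.1 c.2.1 c.2.2), Nat.lt_succ_of_le
      ((List.le_sum_of_mem (List.mem_map_of_mem hc)).trans
        (Finset.single_le_sum (f := fun e => ((D.chs G e).map len).sum) (fun _ _ => Nat.zero_le _)
          (Finset.mem_univ e)))⟩
  exact ⟨_, draw_plus hG h ho, fun e f hef hH => by rw [draw_alg hP hG h ho hef hH]⟩

end Pool.Agent.MP_17db17_lc.H93
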