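import Pool.Agent.MP_17db17_lc.H93.Basic

set_option autoImplicit false

namespace Pool.Agent.MP_17db17_lc.H93

namespace G2

/-- a point of the axis -/
def ax (y : ℤ) : Pt := ((y : ℝ), 0)

/-- length of a chord -/
def len (c : Chord ℤ) : ℕ := (c.2.2 - c.2.1).natAbs

/-- sign of a page -/
def sg (π : Bool) : ℝ := if π then 1 else -1

/-- the top of the tent over a chord -/
noncomputable def apex (K : ℕ) (c : Chord ℤ) : Pt :=
  (((c.2.1 : ℝ) + c.2.2) / 2, sg c.1 * ((K : ℝ) ^ len c * len c))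

/-- the chord is not a point and is short -/
def Ok (K : ℕ) (c : Chord ℤ) : Prop := c.2.1 ≠ c.2.2 ∧ len c < K

/-- the same page and the same pair of ends -/
def Same (c d : Chord ℤ) : Prop :=
  c.1 = d.1 ∧ ((c.2.1 = d.2.1 ∧ c.2.2 = d.2.2) ∨ (c.2.1 = d.2.2 ∧ c.2.2 = d.2.1))

variable {K : ℕ} {π π' : Bool} {u v u' v' : ℤ} {c d : Chord ℤ} {z : Pt}

theorem ax_inj : Function.Injective ax := fun a b h => by
  have := congrArg Prod.fst h
  simpa [ax] using this

theorem len_swap : len (π, v, u) = len (π, u, v) := by simp only [len]; omega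

theorem apex_swap : apex K (π, v, u) = apex K (π, u, v) := by
  simp only [apex, len_swap (π := π) (u := u) (v := v), add_comm]

theorem Ok.swap (h : Ok K (π, u, v)) : Ok K (π, v, u) := ⟨h.1.symm, by rw [len_swap]; exact h.2⟩

theorem Ok.len_pos (h : Ok K c) : 0 < len c := by
  have := h.1
  unfold len
  omega

theorem Ok.hpos (h : Ok K c) : 0 < (K : ℝ) ^ len c := by
  have := h.2
  have : (0 : ℝ) < K := by exact_mod_cast (by omega : 0 < K)
  positivity

theorem sg_ne (π : Bool) : sg π ≠ 0 := by cases π <;> simp [sg]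

theorem Ok.apex_ne (h : Ok K c) : (apex K c).2 ≠ 0 := by
  have h1 := h.hpos
  have h2 : (0 : ℝ) < len c := by exact_mod_cast h.len_pos
  exact mul_ne_zero (sg_ne _) (mul_pos h1 h2).ne'

/-- `z` lies on the side of the tent that starts at `u`, at distance `a / 2` from `u` -/
structure On (K : ℕ) (π : Bool) (u v : ℤ) (z : Pt) (a : ℝ) : Prop where
  pos : 0 < a
  le : a ≤ len (π, u, v)
  y : z.2 = sg π * ((K : ℝ) ^ len (π, u, v) * a)
  x : (u < v ∧ (len (π, u, v) : ℝ) = v - u ∧ z.1 = u + a / 2) ∨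
    (v < u ∧ (len (π, u, v) : ℝ) = u - v ∧ z.1 = u - a / 2)
  op : a < len (π, u, v) → z ∈ openSegment ℝ (ax u) (apex K (π, u, v))
  top : a = len (π, u, v) → z = apex K (π, u, v)

theorem len_cast (h : u ≠ v) : (u < v ∧ (len (π, u, v) : ℝ) = v - u) ∨
    (v < u ∧ (len (π, u, v) : ℝ) = u - v) := by
  rcases lt_or_gt_of_ne h with h | h
  · refine Or.inl ⟨h, ?_⟩
    have : ((len (π, u, v) : ℕ) : ℤ) = v - u := by simp only [len]; omega
    exact_mod_cast this
  · refine Or.inr ⟨h, ?_⟩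
    have : ((len (π, u, v) : ℕ) : ℤ) = u - v := by simp only [len]; omega
    exact_mod_cast this

theorem on_of_mem (h : Ok K (π, u, v)) (hz : z ∈ segment ℝ (ax u) (apex K (π, u, v))) :
    z = ax u ∨ ∃ a, On K π u v z a := by
  rw [segment_eq_image'] at hz
  obtain ⟨t, ⟨t0, t1⟩, rfl⟩ := hz
  rcases t0.eq_or_lt with rfl | t0
  · simp
  have hl : (0 : ℝ) < len (π, u, v) := by exact_mod_cast h.len_pos
  refine Or.inr ⟨t * len (π, u, v), by positivity, by nlinarith, ?_, ?_, fun h1 => ?_, fun h1 => ?_⟩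
  · simp only [ax, apex, Prod.snd_add, Prod.smul_snd, Prod.snd_sub, smul_eq_mul]
    ring
  · refine (len_cast (π := π) h.1).imp (fun h1 => ⟨h1.1, h1.2, ?_⟩) fun h1 => ⟨h1.1, h1.2, ?_⟩ <;>
    · simp only [ax, apex, Prod.fst_add, Prod.smul_fst, Prod.fst_sub, smul_eq_mul, h1.2]
      ring
  · rw [openSegment_eq_image']
    exact ⟨t, ⟨t0, by nlinarith⟩, rfl⟩
  · obtain rfl : t = 1 := by nlinarith
    simp

theorem On.ne (h : Ok K (π, u, v)) {a : ℝ} (o : On K π u v z a) : z.2 ≠ 0 := by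
  rw [o.y]
  exact mul_ne_zero (sg_ne _) (mul_pos h.hpos o.pos).ne'

theorem open_ne (h : Ok K c) {y : ℤ} (hz : z ∈ openSegment ℝ (ax y) (apex K c)) : z.2 ≠ 0 := by
  rw [openSegment_eq_image'] at hz
  obtain ⟨t, ⟨t0, -⟩, rfl⟩ := hz
  simpa [ax, t0.ne'] using h.apex_ne

theorem pow_cancel {L L' W W' : ℕ} (h : K ^ L * W = K ^ L' * W') (h0 : 0 < W) (h1 : W' < K) :
    L ≤ L' := by
  by_contra hc
  obtain ⟨j, rfl⟩ : ∃ j, L = L' + (j + 1) := ⟨L - L' - 1, by omega⟩
  have hK : 0 < K := by omega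
  rw [pow_add, mul_assoc] at h
  have h2 := Nat.eq_of_mul_eq_mul_left (pow_pos hK L') h
  have h3 : K * 1 * 1 ≤ K * K ^ j * W :=
    Nat.mul_le_mul (Nat.mul_le_mul_left _ (pow_pos hK j)) h0
  rw [pow_succ'] at h2
  omega

variable {a a' : ℝ}

theorem On.page (h : Ok K (π, u, v)) (h' : Ok K (π', u', v')) (o : On K π u v z a)
    (o' : On K π' u' v' z a') :
    π = π' ∧ (K : ℝ) ^ len (π, u, v) * a = (K : ℝ) ^ len (π', u', v') * a' := by
  have e := o.y.symm.trans o'.y
  have h1 := mul_pos h.hpos o.pos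
  have h2 := mul_pos h'.hpos o'.pos
  cases π <;> cases π' <;> simp only [sg, if_true, Bool.false_eq_true, if_false] at e
  · exact ⟨rfl, by linarith⟩
  · linarith
  · linarith
  · exact ⟨rfl, by linarith⟩

/-- the top of a tent is not on another tent -/
theorem On.lt (h : Ok K (π, u, v)) (h' : Ok K (π', u', v')) (o : On K π u v z a)
    (o' : On K π' u' v' z a') (hn : ¬ Same (π, u, v) (π', u', v')) : a < len (π, u, v) := by
  refine lt_of_le_of_ne o.le fun e => hn ?_
  obtain ⟨hp, e1⟩ := o.page h h' o'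
  have hx : 2 * z.1 = u + v := by
    rcases o.x with ⟨-, h1, h2⟩ | ⟨-, h1, h2⟩ <;> linarith
  obtain ⟨w, hw⟩ : ∃ w : ℤ, a' = w := by
    rcases o'.x with ⟨-, h1, h2⟩ | ⟨-, h1, h2⟩
    · exact ⟨u + v - 2 * u', by push_cast; linarith⟩
    · exact ⟨2 * u' - u - v, by push_cast; linarith⟩
  have hw0 : 0 < w := by have := o'.pos; rw [hw] at this; exact_mod_cast this
  obtain ⟨W, rfl⟩ := Int.eq_ofNat_of_zero_le hw0.le
  have hW : W ≤ len (π', u', v') := by have := o'.le; rw [hw] at this; exact_mod_cast this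
  have e2 : K ^ len (π, u, v) * len (π, u, v) = K ^ len (π', u', v') * W := by
    rw [e, hw] at e1
    exact_mod_cast e1
  have e3 : len (π, u, v) = len (π', u', v') :=
    le_antisymm (pow_cancel e2 h.len_pos (hW.trans_lt h'.2))
      (pow_cancel e2.symm (by exact_mod_cast hw0) h.2)
  have e4 : a = a' := by
    rw [e3] at e1
    exact mul_left_cancel₀ h'.hpos.ne' e1
  have hx' : 2 * z.1 = u' + v' := by
    have : (len (π, u, v) : ℝ) = len (π', u', v') := by rw [e3]
    rcases o'.x with ⟨-, h1, h2⟩ | ⟨-, h1, h2⟩ <;> linarith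
  have e5 : u + v = u' + v' := by exact_mod_cast hx.symm.trans hx'
  refine ⟨hp, ?_⟩
  simp only [len] at e3 ⊢
  omega

/-- nested tents do not meet -/
theorem On.nest (h : Ok K (π, u, v)) (h' : Ok K (π', u', v')) (o : On K π u v z a)
    (o' : On K π' u' v' z a') (h1 : InW u v u') (h2 : InW u v v') :
    Same (π, u, v) (π', u', v') := by
  by_contra hn
  obtain ⟨hp, e1⟩ := o.page h h' o'
  have hl : len (π', u', v') < len (π, u, v) := by
    have := h'.1
    simp only [Same, hp, true_and, len, InW] at *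
    omega
  have hK : (1 : ℝ) < K := by
    have := h.2
    have := h'.len_pos
    exact_mod_cast (by omega : 1 < K)
  have h3 := pow_lt_pow_right₀ hK hl
  have h4 : a' ≤ a := by
    have := o'.le
    rcases o.x with ⟨b0, -, b2⟩ | ⟨b0, -, b2⟩ <;> rcases o'.x with ⟨c0, c1, c2⟩ | ⟨c0, c1, c2⟩
    · have : (u : ℝ) ≤ u' := by exact_mod_cast (by unfold InW at h1; omega : u ≤ u')
      linarith
    · have : (u : ℝ) ≤ v' := by exact_mod_cast (by unfold InW at h2; omega : u ≤ v')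
      linarith
    · have : (v' : ℝ) ≤ u := by exact_mod_cast (by unfold InW at h2; omega : v' ≤ u)
      linarith
    · have : (u' : ℝ) ≤ u := by exact_mod_cast (by unfold InW at h1; omega : u' ≤ u)
      linarith
  have := o'.pos
  have := h'.hpos
  nlinarith

theorem On.btw (o : On K π u v z a) : ((u : ℝ) < z.1 ∧ z.1 < v) ∨ ((v : ℝ) < z.1 ∧ z.1 < u) := by
  have := o.pos
  have := o.le
  rcases o.x with ⟨-, h1, h2⟩ | ⟨-, h1, h2⟩
  · exact Or.inl ⟨by linarith, by linarith⟩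
  · exact Or.inr ⟨by linarith, by linarith⟩

theorem Same.symm (h : Same c d) : Same d c := by
  unfold Same at *
  tauto

theorem On.cross (h : Ok K (π, u, v)) (h' : Ok K (π', u', v')) (o : On K π u v z a)
    (o' : On K π' u' v' z a') (hn : ¬ Same (π, u, v) (π', u', v')) :
    Cross (π, u, v) (π', u', v') := by
  have n1 : ¬ (InW u v u' ∧ InW u v v') := fun k => hn (o.nest h h' o' k.1 k.2)
  have n2 : ¬ (InW u' v' u ∧ InW u' v' v) := fun k => hn (o'.nest h' h o k.1 k.2).symm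
  have k : ∀ p q : ℤ, (p : ℝ) < z.1 → z.1 < q → p < q := fun p q h1 h2 => by
    exact_mod_cast h1.trans h2
  refine ⟨(o.page h h' o').1, ?_⟩
  simp only [InW, Btw, Out] at *
  rcases o.btw with ⟨b1, b2⟩ | ⟨b1, b2⟩ <;> rcases o'.btw with ⟨c1, c2⟩ | ⟨c1, c2⟩ <;>
  · have := k _ _ b1 b2
    have := k _ _ b1 c2
    have := k _ _ c1 b2
    have := k _ _ c1 c2
    omega

theorem On.det_ne (h : Ok K (π, u, v)) (h' : Ok K (π', u', v')) (o : On K π u v z a)
    (o' : On K π' u' v' z a') (hn : ¬ Same (π, u, v) (π', u', v')) :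
    det (apex K (π, u, v) - ax u) (apex K (π', u', v') - ax u') ≠ 0 := by
  intro e
  obtain ⟨rfl, e1⟩ := o.page h h' o'
  have hl : (0 : ℝ) < len (π, u, v) := by exact_mod_cast h.len_pos
  have hl' : (0 : ℝ) < len (π, u', v') := by exact_mod_cast h'.len_pos
  have hK : (1 : ℝ) < K := by
    have := h.2
    have := h.len_pos
    exact_mod_cast (by omega : 1 < K)
  have p := h.hpos
  have p' := h'.hpos
  have e2 : ((v : ℝ) - u) * ((K : ℝ) ^ len (π, u', v') * len (π, u', v')) =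
      (K : ℝ) ^ len (π, u, v) * len (π, u, v) * (v' - u') := by
    refine mul_left_cancel₀ (sg_ne π) ?_
    simp only [det, apex, ax, Prod.fst_sub, Prod.snd_sub] at e
    linear_combination 2 * e
  have fin : (K : ℝ) ^ len (π, u', v') = (K : ℝ) ^ len (π, u, v) →
      len (π, u', v') = len (π, u, v) ∧ a = a' := fun e3 =>
    ⟨pow_right_injective₀ (by linarith) hK.ne' e3, mul_left_cancel₀ p.ne' (by rw [e1, e3])⟩
  have q := mul_pos hl hl'
  rcases o.x with ⟨b0, b1, b2⟩ | ⟨b0, b1, b2⟩ <;> rcases o'.x with ⟨c0, c1, c2⟩ | ⟨c0, c1, c2⟩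
  · rw [← b1, ← c1] at e2
    obtain ⟨e4, e5⟩ := fin (mul_left_cancel₀ q.ne' (by linarith))
    have : u = u' := by exact_mod_cast (by linarith : (u : ℝ) = u')
    refine hn ⟨rfl, Or.inl ⟨this, ?_⟩⟩
    simp only [len] at e4 ⊢
    omega
  · rw [← b1, ← neg_sub (u' : ℝ), ← c1] at e2
    nlinarith
  · rw [← neg_sub (u : ℝ), ← b1, ← c1] at e2
    nlinarith
  · rw [← neg_sub (u : ℝ), ← b1, ← neg_sub (u' : ℝ), ← c1] at e2
    obtain ⟨e4, e5⟩ := fin (mul_left_cancel₀ q.ne' (by linarith))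
    have : u = u' := by exact_mod_cast (by linarith : (u : ℝ) = u')
    refine hn ⟨rfl, Or.inl ⟨this, ?_⟩⟩
    simp only [len] at e4 ⊢
    omega

/-- two sides of different tents -/
theorem meet_leg (h : Ok K (π, u, v)) (h' : Ok K (π', u', v'))
    (hn : ¬ Same (π, u, v) (π', u', v')) (hz : z ∈ segment ℝ (ax u) (apex K (π, u, v)))
    (hz' : z ∈ segment ℝ (ax u') (apex K (π', u', v'))) :
    (u = u' ∧ z = ax u) ∨ (Cross (π, u, v) (π', u', v') ∧
      z ∈ openSegment ℝ (ax u) (apex K (π, u, v)) ∧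
      z ∈ openSegment ℝ (ax u') (apex K (π', u', v')) ∧
      det (apex K (π, u, v) - ax u) (apex K (π', u', v') - ax u') ≠ 0) := by
  rcases on_of_mem h hz with e | ⟨a, o⟩ <;> rcases on_of_mem h' hz' with e' | ⟨a', o'⟩
  · exact Or.inl ⟨ax_inj (e.symm.trans e'), e⟩
  · exact absurd (by rw [e]; rfl) (o'.ne h')
  · exact absurd (by rw [e']; rfl) (o.ne h)
  · exact Or.inr ⟨o.cross h h' o' hn, o.op (o.lt h h' o' hn),
      o'.op (o'.lt h' h o fun k => hn k.symm), o.det_ne h h' o' hn⟩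

/-- the two sides of one tent -/
theorem meet_self (h : Ok K (π, u, v)) (hz : z ∈ segment ℝ (ax u) (apex K (π, u, v)))
    (hz' : z ∈ segment ℝ (ax v) (apex K (π, v, u))) : z = apex K (π, u, v) := by
  rcases on_of_mem h hz with e | ⟨a, o⟩ <;> rcases on_of_mem h.swap hz' with e' | ⟨a', o'⟩
  · exact absurd (ax_inj (e.symm.trans e')) h.1
  · exact absurd (by rw [e]; rfl) (o'.ne h.swap)
  · exact absurd (by rw [e']; rfl) (o.ne h)
  · refine o.top ?_
    have h1 := o.le
    have h2 := o'.le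
    rw [len_swap] at h2
    rcases o.x with ⟨b0, b1, b2⟩ | ⟨b0, b1, b2⟩ <;> rcases o'.x with ⟨c0, c1, c2⟩ | ⟨c0, c1, c2⟩
    · omega
    · linarith
    · linarith
    · omega

end G2

end Pool.Agent.MP_17db17_lc.H93
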