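import Pool.Agent.MP_17db17_lc.H93.Basic

set_option autoImplicit false

namespace Pool.Agent.MP_17db17_lc.H93

namespace GapsRow

variable {ι V : Type} {G : Gr ι V} {D : Sys ι V ℤ}

/-- the coordinate in the orientation of time `t` -/
def u (t : ℕ) (y : ℤ) : ℤ := if t % 2 = 0 then y else -y

@[simp] theorem u_zero (y : ℤ) : u 0 y = y := rfl

theorem ss {π : Bool} {r q a r' q' a' : ℤ} (h1 : r < q) (h2 : q < a) (f1 : ¬ D.Sep r a)
    (f2 : ¬ D.Sep r' a') (s1 : D.Sep r r') (s2 : D.Sep q q')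
    (c1 : ¬ Cross (π, r, r') (π, q, q')) (c2 : ¬ Cross (π, a, a') (π, q, q')) :
    a' ≤ q' ∧ q' ≤ r' := by
  obtain ⟨x, hx⟩ := s1
  obtain ⟨x', hx'⟩ := s2
  have a1 : ¬ InW r a (D.pos x) := fun h => f1 ⟨x, h⟩
  have a2 : ¬ InW r' a' (D.pos x) := fun h => f2 ⟨x, h⟩
  have a3 : ¬ InW r a (D.pos x') := fun h => f1 ⟨x', h⟩
  simp only [Cross, Btw, Out, InW, true_and] at *
  omega

theorem rev {π : Bool} {r a r' a' : ℤ} (h1 : r < a) (f1 : ¬ D.Sep r a) (f2 : ¬ D.Sep r' a')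
    (s1 : D.Sep r r') (c1 : ¬ Cross (π, r, r') (π, a, a')) : a' ≤ r' := by
  obtain ⟨x, hx⟩ := s1
  have a1 : ¬ InW r a (D.pos x) := fun h => f1 ⟨x, h⟩
  have a2 : ¬ InW r' a' (D.pos x) := fun h => f2 ⟨x, h⟩
  simp only [Cross, Btw, Out, InW, true_and] at *
  omega

open Classical in
/-- the other end of the chord at `y` -/
noncomputable def nx (D : Sys ι V ℤ) (G : Gr ι V) (g : ι) (π : Bool) (y : ℤ) : ℤ :=
  if h : ∃ y', D.Ch G g π y y' then h.choose else 0

theorem nx_ch {g : ι} {y : ℤ} (h : y ∈ D.mid g) (π : Bool) : D.Ch G g π y (nx D G g π y) := by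
  have := Sys.ch_exists G h π
  rw [nx, dif_pos this]
  exact this.choose_spec

/-- the strand that starts at `q` -/
noncomputable def str (D : Sys ι V ℤ) (G : Gr ι V) (g : ι) (q : ℤ) : ℕ → ℤ
  | 0 => q
  | t + 1 => nx D G g (pg t) (str D G g q t)

/-- the point lies in the zone of time `t` -/
def Zn (z0 z1 : ℕ → ℤ) (t : ℕ) (y : ℤ) : Prop := u t (z0 t) ≤ u t y ∧ u t y ≤ u t (z1 t)

structure Ctx (D : Sys ι V ℤ) (G : Gr ι V) (T : ℕ) (z0 z1 : ℕ → ℤ) : Prop where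
  hs : G.Symm
  hv : D.Valid G
  hr : D.Reduced G
  free : ∀ t ≤ T, ∀ x, ¬ Zn z0 z1 t (D.pos x)

/-- a strand that stays in the zones -/
structure St (D : Sys ι V ℤ) (G : Gr ι V) (T : ℕ) (z0 z1 : ℕ → ℤ) (g : ι) (p : ℕ → ℤ) :
    Prop where
  mem : ∀ t ≤ T, p t ∈ D.mid g
  ch : ∀ t < T, D.Ch G g (pg t) (p t) (p (t + 1))
  zone : ∀ t ≤ T, Zn z0 z1 t (p t)

variable {T : ℕ} {z0 z1 : ℕ → ℤ}

namespace Ctx

variable (C : Ctx D G T z0 z1)
include C

theorem nsep {t : ℕ} (ht : t ≤ T) {a b : ℤ} (ha : Zn z0 z1 t a) (hb : Zn z0 z1 t b) :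
    ¬ D.Sep a b := by
  rintro ⟨x, hx⟩
  refine C.free t ht x ?_
  simp only [Zn, u, InW] at *
  split_ifs at * <;> omega

theorem same {e g : ι} {y : ℤ} (h : y ∈ D.mid e) (h' : y ∈ D.mid g) : e = g := by
  by_contra hne
  exact C.hv.disj e g hne y h h'

theorem ordstep {t t' : ℕ} (ht : t ≤ T) (ht' : t' ≤ T) (hp : t % 2 ≠ t' % 2) {π : Bool}
    {g g' : ι} (hg : g = g' ∨ G.H g g') {r a r' a' : ℤ} (m1 : r' ∈ D.mid g) (m2 : a' ∈ D.mid g')
    (c1 : D.Ch G g π r r') (c2 : D.Ch G g' π a a') (y1 : Zn z0 z1 t r) (y2 : Zn z0 z1 t a)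
    (y3 : Zn z0 z1 t' r') (y4 : Zn z0 z1 t' a') (h : u t r < u t a) : u t' r' < u t' a' := by
  have hne : r' ≠ a' := by
    rintro rfl
    obtain rfl := C.same m1 m2
    rw [C.hv.ch_unique c1.symm c2.symm] at h
    exact lt_irrefl _ h
  have k1 := fun h => rev h (C.nsep ht y1 y2) (C.nsep ht' y3 y4) (C.hr.ch_sep c1)
    (C.hv.ch_not_cross hg c1 c2)
  have k2 := fun h => rev h (C.nsep ht y2 y1) (C.nsep ht' y4 y3) (C.hr.ch_sep c2)
    (C.hv.ch_not_cross (hg.imp Eq.symm (C.hs _ _)) c2 c1)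
  simp only [u] at h ⊢
  split_ifs at h ⊢ <;> omega

theorem step {t t' : ℕ} (ht : t ≤ T) (ht' : t' ≤ T) (hp : t % 2 ≠ t' % 2) {π : Bool}
    {g e : ι} (hg : g = e ∨ G.H g e) {r a r' a' q q' : ℤ} (m1 : r ∈ D.mid g) (m2 : a ∈ D.mid g)
    (m3 : r' ∈ D.mid g) (m4 : a' ∈ D.mid g) (m5 : q ∈ D.mid e)
    (c1 : D.Ch G g π r r') (c2 : D.Ch G g π a a') (c3 : D.Ch G e π q q')
    (y1 : Zn z0 z1 t r) (y2 : Zn z0 z1 t a) (y3 : Zn z0 z1 t' r') (y4 : Zn z0 z1 t' a')
    (h1 : u t r ≤ u t q) (h2 : u t q ≤ u t a) :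
    q' ∈ D.mid e ∧ u t' r' ≤ u t' q' ∧ u t' q' ≤ u t' a' := by
  have k0 : u t' r' ≤ u t' a' := by
    by_cases h : r = a
    · subst h
      rw [C.hv.ch_unique c1 c2]
    · refine (C.ordstep ht ht' hp (Or.inl rfl) m3 m4 c1 c2 y1 y2 y3 y4 ?_).le
      simp only [u] at h1 h2 ⊢
      split_ifs at h1 h2 ⊢ <;> omega
  have key : u t' r' ≤ u t' q' ∧ u t' q' ≤ u t' a' := by
    by_cases e1 : q = r
    · subst e1
      obtain rfl := C.same m1 m5
      rw [C.hv.ch_unique c3 c1]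
      exact ⟨le_rfl, k0⟩
    by_cases e2 : q = a
    · subst e2
      obtain rfl := C.same m2 m5
      rw [C.hv.ch_unique c3 c2]
      exact ⟨k0, le_rfl⟩
    have k1 := fun h h' => ss h h' (C.nsep ht y1 y2) (C.nsep ht' y3 y4) (C.hr.ch_sep c1)
      (C.hr.ch_sep c3) (C.hv.ch_not_cross hg c1 c3) (C.hv.ch_not_cross hg c2 c3)
    have k2 := fun h h' => ss h h' (C.nsep ht y2 y1) (C.nsep ht' y4 y3) (C.hr.ch_sep c2)
      (C.hr.ch_sep c3) (C.hv.ch_not_cross hg c2 c3) (C.hv.ch_not_cross hg c1 c3)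
    simp only [u] at h1 h2 ⊢
    split_ifs at h1 h2 ⊢ <;> omega
  refine ⟨?_, key⟩
  rcases Sys.pt_of_mem_path c3.mem.2 with h | ⟨x, rfl⟩
  · exact h
  · exact absurd ⟨y3.1.trans key.1, key.2.trans y4.2⟩ (C.free t' ht' x)

/-- strands of related elements keep their order -/
theorem ord {g g' : ι} (hg : g = g' ∨ G.H g g') {p p' : ℕ → ℤ} (h : St D G T z0 z1 g p)
    (h' : St D G T z0 z1 g' p') (h0 : p 0 < p' 0) : ∀ t ≤ T, u t (p t) < u t (p' t) := by
  intro t ht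
  induction t with
  | zero => exact h0
  | succ t ih =>
    exact C.ordstep (t := t) (by omega) ht (by omega) hg (h.mem _ ht) (h'.mem _ ht) (h.ch t ht)
      (h'.ch t ht) (h.zone t (by omega)) (h'.zone t (by omega)) (h.zone _ ht) (h'.zone _ ht)
      (ih (by omega))

/-- a strand that starts between two strands stays between them -/
theorem fwd {g e : ι} (hg : g = e ∨ G.H g e) {p p' : ℕ → ℤ} (h : St D G T z0 z1 g p)
    (h' : St D G T z0 z1 g p') {q : ℤ} (hq : q ∈ D.mid e) (h1 : p 0 ≤ q) (h2 : q ≤ p' 0) :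
    St D G T z0 z1 e (str D G e q) ∧
      ∀ t ≤ T, u t (p t) ≤ u t (str D G e q t) ∧ u t (str D G e q t) ≤ u t (p' t) := by
  have key : ∀ t ≤ T, str D G e q t ∈ D.mid e ∧ u t (p t) ≤ u t (str D G e q t) ∧
      u t (str D G e q t) ≤ u t (p' t) := by
    intro t ht
    induction t with
    | zero => exact ⟨hq, h1, h2⟩
    | succ t ih =>
      obtain ⟨a1, a2, a3⟩ := ih (by omega)
      exact C.step (t := t) (by omega) ht (by omega) hg (h.mem t (by omega)) (h'.mem t (by omega))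
        (h.mem _ ht) (h'.mem _ ht) a1 (h.ch t ht) (h'.ch t ht) (nx_ch a1 _) (h.zone t (by omega))
        (h'.zone t (by omega)) (h.zone _ ht) (h'.zone _ ht) a2 a3
  exact ⟨⟨fun t ht => (key t ht).1, fun t ht => nx_ch (key t ht.le).1 _, fun t ht =>
    ⟨(h.zone t ht).1.trans (key t ht).2.1, (key t ht).2.2.trans (h'.zone t ht).2⟩⟩,
    fun t ht => (key t ht).2⟩

/-- a point between two strands lies on a strand that starts between them -/
theorem bwd {g e : ι} (hg : g = e ∨ G.H g e) {p p' : ℕ → ℤ} (h : St D G T z0 z1 g p)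
    (h' : St D G T z0 z1 g p') : ∀ t ≤ T, ∀ y ∈ D.mid e, u t (p t) ≤ u t y → u t y ≤ u t (p' t) →
      ∃ q ∈ D.mid e, p 0 ≤ q ∧ q ≤ p' 0 ∧ str D G e q t = y := by
  intro t ht
  induction t with
  | zero => exact fun y hy h1 h2 => ⟨y, hy, h1, h2, rfl⟩
  | succ t ih =>
    intro y hy h1 h2
    obtain ⟨y', hy'⟩ := Sys.ch_exists G hy (pg t)
    obtain ⟨a1, a2, a3⟩ := C.step (t' := t) ht (by omega) (by omega) hg (h.mem _ ht) (h'.mem _ ht)
      (h.mem t (by omega)) (h'.mem t (by omega)) hy (h.ch t ht).symm (h'.ch t ht).symm hy'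
      (h.zone _ ht) (h'.zone _ ht) (h.zone t (by omega)) (h'.zone t (by omega)) h1 h2
    obtain ⟨q, b1, b2, b3, b4⟩ := ih (by omega) y' a1 a2 a3
    refine ⟨q, b1, b2, b3, ?_⟩
    rw [str, b4]
    exact C.hv.ch_unique (nx_ch a1 _) hy'.symm

/-- two strands do not meet at times of different parity -/
theorem odd_ne {g : ι} {p p' : ℕ → ℤ} (h : St D G T z0 z1 g p) (h' : St D G T z0 z1 g p') :
    ∀ k t, t + 2 * k + 1 ≤ T → p t ≠ p' (t + 2 * k + 1) := by
  intro k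
  induction k with
  | zero =>
    intro t ht e
    have := h'.ch t ht
    rw [← show p t = p' (t + 1) from e] at this
    exact C.nsep (by omega) (h'.zone t (by omega)) (h.zone t (by omega)) (C.hr.ch_sep this)
  | succ k ih =>
    intro t ht e
    refine ih (t + 1) (by omega) ?_
    have h1 := h.ch t (by omega)
    have h2 := (h'.ch (t + 2 * (k + 1)) ht).symm
    have e1 : pg (t + 2 * (k + 1)) = pg t := by simp [pg]
    rw [← e, e1] at h2
    rw [C.hv.ch_unique h1 h2]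
    congr 1
    omega

end Ctx

theorem St.inj (hv : D.Valid G) {g : ι} {p : ℕ → ℤ} (h : St D G T z0 z1 g p) :
    ∀ t ≤ T, ∀ t' ≤ T, p t = p t' → t = t' :=
  (hv.strand_inj (b := true) (fun t ht => pg_eq t ▸ h.ch t ht) h.mem).2

/-- elements that are reached in at most `d` steps -/
def Lev (r : ι → ι → Prop) (f0 : ι) : ℕ → ι → Prop
  | 0, g => g = f0
  | d + 1, g => Lev r f0 d g ∨ ∃ g', Lev r f0 d g' ∧ r g' g

theorem lev_card [Fintype ι] {r : ι → ι → Prop} {f0 g : ι} (h : Relation.ReflTransGen r f0 g) :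
    Lev r f0 (Fintype.card ι) g := by
  classical
  have key : ∀ d, d < (Finset.univ.filter (Lev r f0 d)).card ∨
      ∀ g, Lev r f0 (d + 1) g → Lev r f0 d g := by
    intro d
    induction d with
    | zero => exact Or.inl (Finset.card_pos.2 ⟨f0, Finset.mem_filter.2 ⟨Finset.mem_univ _, rfl⟩⟩)
    | succ d ih =>
      by_cases hs : ∀ g, Lev r f0 (d + 1) g → Lev r f0 d g
      · right
        rintro g (h | ⟨g', h, h'⟩)
        exacts [h, Or.inr ⟨g', hs g' h, h'⟩]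
      · left
        push Not at hs
        obtain ⟨g, h1, h2⟩ := hs
        have h3 : (Finset.univ.filter (Lev r f0 d)).card <
            (Finset.univ.filter (Lev r f0 (d + 1))).card :=
          Finset.card_lt_card ⟨fun a ha => by
            simp only [Finset.mem_filter, Finset.mem_univ, true_and] at ha ⊢
            exact Or.inl ha, fun h => h2 (by simpa using h (by simpa using h1))⟩
        have := ih.resolve_right fun h => h2 (h g h1)
        omega
  have st := (key (Fintype.card ι)).resolve_left (not_lt.2 (Finset.card_le_univ _))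
  induction h with
  | refl =>
    generalize Fintype.card ι = d
    induction d with
    | zero => rfl
    | succ d ih => exact Or.inl ih
  | tail _ h2 ih => exact st _ (Or.inr ⟨_, ih, h2⟩)

section strip

variable {f0 : ι} {lo hi : ℤ} {κ K w M : ℕ} {s : ℕ → ℕ → ℤ}

theorem smono (S : Strip D G f0 lo hi w M T s) {t : ℕ} (ht : t ≤ T) {j j' : ℕ} (h : j < j')
    (h' : j' ≤ w) : u t (s j t) < u t (s j' t) := by
  induction j', h using Nat.le_induction with
  | base =>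
    have := S.mono j h' t ht
    simp only [u, Nat.succ_eq_add_one]
    split_ifs at this ⊢ <;> omega
  | succ k hk ih =>
    have h1 := S.mono k h' t ht
    refine (ih (by omega)).trans ?_
    simp only [u]
    split_ifs at h1 ⊢ <;> omega

theorem smono' (S : Strip D G f0 lo hi w M T s) {t : ℕ} (ht : t ≤ T) {j j' : ℕ} (h : j ≤ j')
    (h' : j' ≤ w) : u t (s j t) ≤ u t (s j' t) := by
  rcases h.eq_or_lt with rfl | h
  exacts [le_rfl, (smono S ht h h').le]

theorem st_s (S : Strip D G f0 lo hi w M T s) {j : ℕ} (hj : j ≤ w) :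
    St D G T (s 0) (s w) f0 (s j) :=
  ⟨S.mem j hj, S.ch j hj, fun _ ht => ⟨smono' S ht (Nat.zero_le _) hj, smono' S ht hj le_rfl⟩⟩

theorem dense (W : Window D f0 lo hi κ K) (S : Strip D G f0 lo hi w M T s) {g : ι}
    (hg : ∃ y ∈ D.mid g, lo ≤ y ∧ y ≤ hi) {j : ℕ} (hj : j + κ ≤ w) :
    ∃ y ∈ D.mid g, s j 0 ≤ y ∧ y ≤ s (j + κ) 0 := by
  refine W.dense g hg _ _ (S.start j (by omega)).1 (S.start _ hj).2 ?_
  refine lt_of_lt_of_le ?_ (List.toFinset_card_le _)
  rw [← Nat.add_one_le_iff, ← Finset.card_range (κ + 1)]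
  refine Finset.card_le_card_of_injOn (fun i => s (j + i) 0) (fun i hi => ?_) fun i hi i' hi' e => ?_
  · have hi : i < κ + 1 := by simpa using hi
    simp only [Finset.mem_coe, List.mem_toFinset, List.mem_filter, decide_eq_true_eq]
    exact ⟨S.mem _ (by omega) 0 (Nat.zero_le _),
      smono' S (Nat.zero_le _) (by omega) (by omega), smono' S (Nat.zero_le _) (by omega) hj⟩
  · have hi : i < κ + 1 := by simpa using hi
    have hi' : i' < κ + 1 := by simpa using hi'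
    rcases lt_trichotomy i i' with h | h | h
    · exact absurd e (smono S (Nat.zero_le _) (show j + i < j + i' by omega) (by omega)).ne
    · exact h
    · exact absurd e (smono S (Nat.zero_le _) (show j + i' < j + i by omega) (by omega)).ne'

/-- the relation that generates the component -/
def Rel (D : Sys ι V ℤ) (G : Gr ι V) (lo hi : ℤ) (a b : ι) : Prop :=
  G.H a b ∧ ∃ y ∈ D.mid b, lo ≤ y ∧ y ≤ hi

theorem lev_win (S : Strip D G f0 lo hi w M T s) {d : ℕ} {g : ι}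
    (h : Lev (Rel D G lo hi) f0 d g) : ∃ y ∈ D.mid g, lo ≤ y ∧ y ≤ hi := by
  induction d with
  | zero =>
    obtain rfl : g = f0 := h
    exact ⟨_, S.mem 0 (Nat.zero_le _) 0 (Nat.zero_le _), S.start 0 (Nat.zero_le _)⟩
  | succ d ih =>
    rcases h with h | ⟨g', -, h⟩
    exacts [ih h, h.2]

theorem track (C : Ctx D G T (s 0) (s w)) (W : Window D f0 lo hi κ K)
    (S : Strip D G f0 lo hi w M T s) : ∀ d g, Lev (Rel D G lo hi) f0 d g → ∀ i j, i + d * κ ≤ j →
      j + d * κ ≤ w → ∀ q ∈ D.mid g, s (i + d * κ) 0 ≤ q → q ≤ s j 0 →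
      St D G T (s 0) (s w) g (str D G g q) ∧ ∀ t ≤ T, u t (s i t) ≤ u t (str D G g q t) ∧
        u t (str D G g q t) ≤ u t (s (j + d * κ) t) := by
  intro d
  induction d with
  | zero =>
    intro g hg i j h1 h2 q hq h3 h4
    obtain rfl : g = f0 := hg
    simp only [Nat.zero_mul, Nat.add_zero] at *
    exact C.fwd (Or.inl rfl) (st_s S (by omega)) (st_s S h2) hq h3 h4
  | succ d ih =>
    intro g hg i j h1 h2 q hq h3 h4
    rw [Nat.succ_mul] at h1 h2 h3 ⊢
    rcases hg with hg | ⟨g', hg', hr⟩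
    · obtain ⟨a1, a2⟩ := ih g hg (i + κ) j (by omega) (by omega) q hq
        (by rwa [show i + κ + d * κ = i + (d * κ + κ) by omega]) h4
      exact ⟨a1, fun t ht => ⟨(smono' S ht (by omega) (by omega)).trans (a2 t ht).1,
        (a2 t ht).2.trans (smono' S ht (by omega) h2)⟩⟩
    · obtain ⟨q1, b1, b2, b3⟩ := dense W S (lev_win S hg') (j := i + d * κ) (by omega)
      obtain ⟨q2, c1, c2, c3⟩ := dense W S (lev_win S hg') (j := j) (by omega)
      obtain ⟨a1, a2⟩ := ih g' hg' i (i + d * κ + κ) (by omega) (by omega) q1 b1 b2 b3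
      obtain ⟨a3, a4⟩ := ih g' hg' (j - d * κ) (j + κ) (by omega) (by omega) q2 c1
        (by rwa [show j - d * κ + d * κ = j by omega]) c3
      obtain ⟨a5, a6⟩ := C.fwd (Or.inr hr.1) a1 a3 hq
        (b3.trans (by rwa [Nat.add_assoc])) (h4.trans c2)
      refine ⟨a5, fun t ht => ⟨(a2 t ht).1.trans (a6 t ht).1, (a6 t ht).2.trans ?_⟩⟩
      rw [show j + (d * κ + κ) = j + κ + d * κ by omega]
      exact (a4 t ht).2

end strip

theorem exists_max {l : List ℤ} {c : ℤ} (h : ∃ y ∈ l, y ≤ c) :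
    ∃ a ∈ l, a ≤ c ∧ ∀ y ∈ l, y ≤ c → y ≤ a := by
  obtain ⟨a, ⟨h1, h2⟩, h3⟩ := Int.exists_greatest_of_bdd (P := fun y => y ∈ l ∧ y ≤ c)
    ⟨c, fun _ h => h.2⟩ h
  exact ⟨a, h1, h2, fun y hy hy' => h3 y ⟨hy, hy'⟩⟩

theorem exists_min {l : List ℤ} {c : ℤ} (h : ∃ y ∈ l, c < y) :
    ∃ a ∈ l, c < a ∧ ∀ y ∈ l, c < y → a ≤ y := by
  obtain ⟨a, ⟨h1, h2⟩, h3⟩ := Int.exists_least_of_bdd (P := fun y => y ∈ l ∧ c < y)
    ⟨c, fun _ h => h.2.le⟩ h
  exact ⟨a, h1, h2, fun y hy hy' => h3 y ⟨hy, hy'⟩⟩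

end GapsRow

open GapsRow in
theorem gaps : GapsStmt := by
  intro ι V _ _ G hs D hv hr f0 lo hi κ K M T s W S
  obtain ⟨a, ha⟩ : ∃ a, a = Fintype.card ι * κ := ⟨_, rfl⟩
  obtain ⟨w, hw, S⟩ : ∃ w, w = 6 * a + 4 * κ + 1 ∧ Strip D G f0 lo hi w M T s :=
    ⟨_, by rw [ha]; ring, S⟩
  have C : Ctx D G T (s 0) (s w) := ⟨hs, hv, hr, fun t ht x hx => S.free t ht x (by
    simp only [Zn, u, InW] at *
    split_ifs at hx <;> omega)⟩
  let F : ι → Prop := fun g => Relation.ReflTransGen (Rel D G lo hi) f0 g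
  have win : ∀ g, F g → ∃ y ∈ D.mid g, lo ≤ y ∧ y ≤ hi := fun g hg => lev_win S (lev_card hg)
  have tr := fun g (hg : F g) => track C W S _ g (lev_card hg)
  rw [← ha] at tr
  have T0 := Nat.zero_le T
  have ex : ∀ g, ∃ A B : ℕ → ℤ, F g → St D G T (s 0) (s w) g A ∧ St D G T (s 0) (s w) g B ∧
      A 0 ≤ s (3 * a + 2 * κ) 0 ∧ s (3 * a + 2 * κ) 0 < B 0 ∧
      (∀ t ≤ T, u t (s (2 * a + κ) t) ≤ u t (A t) ∧ u t (B t) ≤ u t (s (4 * a + 3 * κ + 1) t)) ∧
      ∀ t ≤ T, ∀ y ∈ D.mid g, u t y ≤ u t (A t) ∨ u t (B t) ≤ u t y := by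
    intro g
    by_cases hg : F g
    swap
    · exact ⟨0, 0, fun h => absurd h hg⟩
    obtain ⟨y1, b1, b2, b3⟩ := dense W S (win g hg) (j := 3 * a + κ) (by omega)
    obtain ⟨y2, c1, c2, c3⟩ := dense W S (win g hg) (j := 3 * a + 2 * κ + 1) (by omega)
    rw [show 3 * a + κ + κ = 3 * a + 2 * κ by omega] at b3
    obtain ⟨A, d1, d2, d3⟩ := exists_max ⟨y1, b1, b3⟩
    obtain ⟨B, e1, e2, e3⟩ := exists_min (c := s (3 * a + 2 * κ) 0) ⟨y2, c1,
      (smono S T0 (Nat.lt_succ_self _) (by omega)).trans_le c2⟩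
    obtain ⟨f1, f2⟩ := tr g hg (2 * a + κ) (3 * a + 2 * κ) (by omega) (by omega) A d1
      (by rw [show 2 * a + κ + a = 3 * a + κ by omega]; exact b2.trans (d3 y1 b1 b3)) d2
    obtain ⟨f3, f4⟩ := tr g hg (2 * a + 2 * κ) (3 * a + 2 * κ + 1 + κ) (by omega) (by omega) B e1
      (by rw [show 2 * a + 2 * κ + a = 3 * a + 2 * κ by omega]; exact e2.le)
      ((e3 y2 c1 ((smono S T0 (Nat.lt_succ_self _) (by omega)).trans_le c2)).trans c3)
    refine ⟨_, _, fun _ => ⟨f1, f3, d2, e2, fun t ht => ⟨(f2 t ht).1, ?_⟩, fun t ht y hy => ?_⟩⟩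
    · rw [show 4 * a + 3 * κ + 1 = 3 * a + 2 * κ + 1 + κ + a by omega]
      exact (f4 t ht).2
    · by_contra hc
      push Not at hc
      obtain ⟨q, g1, g2, g3, rfl⟩ := C.bwd (Or.inl rfl) f1 f3 t ht y hy hc.1.le hc.2.le
      rcases le_or_gt q (s (3 * a + 2 * κ) 0) with h | h
      · obtain rfl : q = A := le_antisymm (d3 q g1 h) g2
        exact lt_irrefl _ hc.1
      · obtain rfl : q = B := le_antisymm g3 (e3 q g1 h)
        exact lt_irrefl _ hc.2
  choose A B hAB using ex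
  have lt : ∀ g g', F g → F g' → g = g' ∨ G.H g g' → ∀ t ≤ T, u t (A g t) < u t (B g' t) :=
    fun g g' hg hg' h => C.ord h (hAB g hg).1 (hAB g' hg').2.1
      ((hAB g hg).2.2.1.trans_lt (hAB g' hg').2.2.2.1)
  have nowin : ∀ y, Fixed D G F y → ¬ (lo ≤ y ∧ y ≤ hi) := by
    rintro y (⟨x, rfl⟩ | ⟨i, ⟨h1, g, h2, h3⟩, h4⟩) h
    exacts [W.free x h, h1 (h2.tail ⟨h3, y, h4, h⟩)]
  have fix : ∀ t ≤ T, ∀ y, Fixed D G F y →
      u t y < u t (s (2 * a + κ) t) ∨ u t (s (4 * a + 3 * κ + 1) t) < u t y := by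
    intro t ht y hy
    by_contra hc
    push Not at hc
    rcases hy with ⟨x, rfl⟩ | ⟨i, ⟨h1, g, h2, h3⟩, h4⟩
    · exact C.free t ht x ⟨(smono' S ht (Nat.zero_le _) (by omega)).trans hc.1,
        hc.2.trans (smono' S ht (by omega) le_rfl)⟩
    · obtain ⟨y1, b1, b2, b3⟩ := dense W S (win g h2) (j := 0 + a) (by omega)
      obtain ⟨y2, c1, c2, c3⟩ := dense W S (win g h2) (j := 4 * a + 3 * κ + 1 + a) (by omega)
      obtain ⟨f1, f2⟩ := tr g h2 0 _ (by omega) (by omega) y1 b1 b2 b3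
      obtain ⟨f3, f4⟩ := tr g h2 _ _ (by omega) (by omega) y2 c1 c2 c3
      obtain ⟨q, g1, g2, g3, -⟩ := C.bwd (Or.inr h3) f1 f3 t ht y h4
        ((f2 t ht).2.trans (by rw [show 0 + a + κ + a = 2 * a + κ by omega]; exact hc.1))
        (hc.2.trans (f4 t ht).1)
      exact nowin q (Or.inr ⟨i, ⟨h1, g, h2, h3⟩, g1⟩)
        ⟨((S.start _ (by omega)).1.trans b2).trans g2, (g3.trans c3).trans (S.start _ (by omega)).2⟩
  refine ⟨F, fun g t => if t % 2 = 0 then A g t else B g t,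
    fun g t => if t % 2 = 0 then B g t else A g t, Relation.ReflTransGen.refl, fun g hg => ?_,
    fun g hg t ht => ?_, fun g hg t ht => ?_, fun g hg t ht y hy => ?_,
    fun g g' hg hg' h t ht => ?_, fun g hg t ht => ?_, fun g hg t ht t' ht' e => ?_,
    fun g hg t ht y hy => ?_, ?_⟩
  · induction hg with
    | refl => exact Relation.ReflTransGen.refl
    | tail h1 h2 ih => exact ih.tail ⟨h1, h1.tail h2, h2.1⟩
  · have h1 := (hAB g hg).1.mem t ht
    have h2 := (hAB g hg).2.1.mem t ht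
    split_ifs
    exacts [⟨h1, h2⟩, ⟨h2, h1⟩]
  · have := lt g g hg hg (Or.inl rfl) t ht
    simp only [u] at this
    split_ifs at this ⊢ <;> omega
  · have := (hAB g hg).2.2.2.2.2 t ht y hy
    simp only [u] at this
    split_ifs at this ⊢ <;> omega
  · have h1 := lt g g' hg hg' (Or.inr h) t ht
    have h2 := lt g' g hg' hg (Or.inr (hs _ _ h)) t ht
    simp only [u] at h1 h2
    split_ifs at h1 h2 ⊢ <;> omega
  · have h1 := (hAB g hg).1.ch t ht
    have h2 := (hAB g hg).2.1.ch t ht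
    split_ifs
    · omega
    · exact ⟨h1, h2⟩
    · exact ⟨h2, h1⟩
    · omega
  · have k1 := C.odd_ne (hAB g hg).1 (hAB g hg).2.1
    have k2 := C.odd_ne (hAB g hg).2.1 (hAB g hg).1
    split_ifs at e with h1 h2 h2
    · exact (hAB g hg).1.inj hv t ht t' ht' e
    · exfalso
      rcases lt_or_gt_of_ne (show t ≠ t' by omega) with h | h
      · obtain ⟨k, rfl⟩ : ∃ k, t' = t + 2 * k + 1 := ⟨(t' - t) / 2, by omega⟩
        exact k1 k t ht' e
      · obtain ⟨k, rfl⟩ : ∃ k, t = t' + 2 * k + 1 := ⟨(t - t') / 2, by omega⟩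
        exact k2 k t' ht e.symm
    · exfalso
      rcases lt_or_gt_of_ne (show t ≠ t' by omega) with h | h
      · obtain ⟨k, rfl⟩ : ∃ k, t' = t + 2 * k + 1 := ⟨(t' - t) / 2, by omega⟩
        exact k2 k t ht' e
      · obtain ⟨k, rfl⟩ : ∃ k, t = t' + 2 * k + 1 := ⟨(t - t') / 2, by omega⟩
        exact k1 k t' ht e.symm
    · exact (hAB g hg).2.1.inj hv t ht t' ht' e
  · have h1 := fix t ht y hy
    have h2 := (hAB g hg).2.2.2.2.1 t ht
    have h3 := (hAB f0 Relation.ReflTransGen.refl).2.2.2.2.1 t ht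
    have h4 := lt g g hg hg (Or.inl rfl) t ht
    have h5 := lt f0 f0 Relation.ReflTransGen.refl Relation.ReflTransGen.refl (Or.inl rfl) t ht
    simp only [u] at h1 h2 h3 h4 h5
    split_ifs at h1 h2 h3 h4 h5 ⊢ <;> omega
  · obtain ⟨R, h1, h2⟩ := S.ret
    have key : ∀ t ∈ R, lo ≤ (if t % 2 = 0 then A f0 t else B f0 t) ∧
        (if t % 2 = 0 then A f0 t else B f0 t) ≤ hi := fun t ht => by
      have h3 := ((hAB f0 Relation.ReflTransGen.refl).1.zone t (h2 t ht).1)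
      have h4 := ((hAB f0 Relation.ReflTransGen.refl).2.1.zone t (h2 t ht).1)
      have h5 := (h2 t ht).2 0 (Nat.zero_le _)
      have h6 := (h2 t ht).2 w le_rfl
      simp only [Zn, u] at h3 h4
      split_ifs at h3 h4 ⊢ <;> omega
    refine ⟨R, h1, fun t ht => (h2 t ht).1, fun t ht t' ht' y hy => ?_⟩
    have h3 := key t ht
    have h4 := key t' ht'
    have h5 := nowin y hy
    omega

end Pool.Agent.MP_17db17_lc.H93
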