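import Pool.Agent.MP_17db17_lc.H93.Spec

set_option autoImplicit false

namespace Pool.Agent.MP_17db17_lc.H93

open Finset

namespace Glo

/-! ## Averaging over choice functions -/

lemma sum_update {ι α : Type} [Fintype ι] [DecidableEq ι] [Fintype α] (i : ι)
    (Φ : (ι → α) → ℕ) :
    ∑ ch : ι → α, ∑ a : α, Φ (Function.update ch i a) = Fintype.card α * ∑ ch, Φ ch := by
  have hinv : Function.Involutive
      (fun p : (ι → α) × α => (Function.update p.1 i p.2, p.1 i)) := by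
    rintro ⟨ch, a⟩
    simp
  have h := Equiv.sum_comp hinv.toPerm (fun p : (ι → α) × α => Φ p.1)
  rw [Fintype.sum_prod_type, Fintype.sum_prod_type] at h
  simp only [Function.Involutive.coe_toPerm, Finset.sum_const, Finset.card_univ, smul_eq_mul] at h
  rw [h, Finset.mul_sum]

lemma avg1 {ι α : Type} [Fintype ι] [DecidableEq ι] [Fintype α] (i : ι) (φ : α → ℕ) :
    Fintype.card α * ∑ ch : ι → α, φ (ch i) = ∑ _ch : ι → α, ∑ a, φ a := by
  rw [← sum_update i (fun ch => φ (ch i))]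
  simp

lemma avg2 {ι α : Type} [Fintype ι] [DecidableEq ι] [Fintype α] (i j : ι) (hij : i ≠ j)
    (ψ : α → α → ℕ) :
    Fintype.card α * (Fintype.card α * ∑ ch : ι → α, ψ (ch i) (ch j)) =
      ∑ _ch : ι → α, ∑ a, ∑ b, ψ a b := by
  rw [← sum_update i (fun ch => ψ (ch i) (ch j))]
  simp only [Function.update_self, Function.update_of_ne hij.symm]
  rw [avg1 j (fun b => ∑ a, ψ a b)]
  exact Finset.sum_congr rfl fun _ _ => Finset.sum_comm

lemma exists_choice {ι α : Type} [Fintype ι] [DecidableEq ι] [Fintype α] [Nonempty α]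
    (W1 : ι → α → ℕ) (W2 : ι → α → ι → α → ℕ) :
    ∃ ch : ι → α, Fintype.card α * ∑ h, W1 h (ch h) +
      Fintype.card α * (Fintype.card α *
        ∑ h, ∑ h', if h = h' then 0 else W2 h (ch h) h' (ch h')) ≤
      ∑ h, ∑ r, W1 h r + ∑ h, ∑ r, ∑ h', ∑ r', W2 h r h' r' := by
  have key : ∑ ch : ι → α, (Fintype.card α * ∑ h, W1 h (ch h) +
      Fintype.card α * (Fintype.card α *
        ∑ h, ∑ h', if h = h' then 0 else W2 h (ch h) h' (ch h'))) ≤
      ∑ _ch : ι → α, (∑ h, ∑ r, W1 h r + ∑ h, ∑ r, ∑ h', ∑ r', W2 h r h' r') := by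
    rw [Finset.sum_add_distrib, Finset.sum_add_distrib]
    refine add_le_add (le_of_eq ?_) ?_
    · rw [← Finset.mul_sum, Finset.sum_comm, Finset.mul_sum, Finset.sum_comm]
      exact Finset.sum_congr rfl fun h _ => avg1 h (W1 h)
    · rw [← Finset.mul_sum, ← Finset.mul_sum, Finset.sum_comm, Finset.mul_sum, Finset.mul_sum,
        Finset.sum_comm (s := (univ : Finset (ι → α)))]
      refine Finset.sum_le_sum fun h _ => ?_
      have e : ∑ _ch : ι → α, ∑ r, ∑ h', ∑ r', W2 h r h' r' =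
          ∑ h', ∑ _ch : ι → α, ∑ r, ∑ r', W2 h r h' r' := by
        rw [Finset.sum_comm (s := (univ : Finset ι))]
        exact Finset.sum_congr rfl fun _ _ => Finset.sum_comm
      rw [e, Finset.sum_comm, Finset.mul_sum, Finset.mul_sum]
      refine Finset.sum_le_sum fun h' _ => ?_
      by_cases hh : h = h'
      · simp [hh]
      · simp only [hh, if_false]
        exact le_of_eq (avg2 h h' hh (fun a b => W2 h a h' b))
  obtain ⟨ch, _, h⟩ := Finset.exists_le_of_sum_le Finset.univ_nonempty key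
  exact ⟨ch, h⟩

lemma sum_comp_le {κ β : Type} [Fintype κ] [Fintype β] (em : κ → β)
    (hem : Function.Injective em) (φ : β → ℕ) : ∑ k, φ (em k) ≤ ∑ b, φ b := by
  classical
  rw [← Finset.sum_image (s := univ) (g := em) (f := φ) (fun x _ y _ h => hem h)]
  exact Finset.sum_le_sum_of_subset (Finset.subset_univ _)

lemma sum_K {α β γ δ ε : Type} [Fintype α] [Fintype β] [Fintype γ] [Fintype δ] [Fintype ε]
    (w : (α × β × γ) ⊕ (δ × ε) → (α × β × γ) ⊕ (δ × ε) → ℕ) :
    ∑ h, ∑ r, ∑ s, ∑ e, ∑ j, w (Sum.inl (h, r, s)) (Sum.inr (e, j)) +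
      ∑ h, ∑ r, ∑ h', ∑ r', ∑ s, ∑ s', w (Sum.inl (h, r, s)) (Sum.inl (h', r', s')) ≤
      ∑ k, ∑ k', w k k' := by
  rw [Fintype.sum_sum_type]
  refine le_trans (le_of_eq ?_) (Nat.le_add_right _ _)
  simp only [Fintype.sum_sum_type, Fintype.sum_prod_type, Finset.sum_add_distrib]
  rw [add_comm]
  congr 1
  refine Finset.sum_congr rfl fun h _ => Finset.sum_congr rfl fun r _ => ?_
  rw [Finset.sum_comm (s := (univ : Finset γ)) (t := (univ : Finset α))]
  refine Finset.sum_congr rfl fun h' _ => ?_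
  rw [Finset.sum_comm (s := (univ : Finset γ))]

lemma filter_len {β : Type} (d : β) (q : β → Bool) (L : List β) :
    (L.filter q).length = ∑ e : Fin L.length, if q (L.getD e d) = true then 1 else 0 := by
  induction L with
  | nil => simp
  | cons p L ih =>
    rw [show (∑ e : Fin (p :: L).length, if q ((p :: L).getD e d) = true then 1 else 0) =
      ∑ e : Fin (L.length + 1), if q ((p :: L).getD e d) = true then 1 else 0 from rfl,
      Fin.sum_univ_succ]
    simp only [Fin.val_zero, List.getD_cons_zero, Fin.val_succ, List.getD_cons_succ, ← ih,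
      List.filter_cons]
    split_ifs
    · simp [add_comm]
    · simp

/-! ## The algebra on numbered vertices -/

/-- `alg` of the edges `(u, v)` and `(x, y)` -/
def A (c : ℕ → ℕ → ℕ → ℤ) (I : ℕ → ℕ → ℤ) (u v x y : ℕ) : ℤ :=
  c x y v - c x y u - c u v y + c u v x + (I y v - I y u) - (I x v - I x u)

/-- its contribution to the cost -/
def wN (c : ℕ → ℕ → ℕ → ℤ) (I : ℕ → ℕ → ℤ) (u v x y : ℕ) : ℕ :=
  if u < x ∧ u ≠ y ∧ v ≠ x ∧ v ≠ y then (A c I u v x y).natAbs else 0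

/-- ends of the bundles -/
def hu (h : ℕ) (s : Bool) : ℕ :=
  if s = true then (bund.getD h (0, 0)).2 else (bund.getD h (0, 0)).1

/-- smaller ends of the light edges -/
def lu (E : List (ℕ × ℕ)) (e j : ℕ) : ℕ :=
  if j = 0 then 5 + (E.getD e (0, 0)).1 else if j = 1 then gZ E.length e 0 else
    5 + (E.getD e (0, 0)).2

/-- larger ends of the light edges -/
def lv (E : List (ℕ × ℕ)) (e j : ℕ) : ℕ :=
  if j = 0 then gZ E.length e 0 else gZ E.length e 1

lemma hu_lt : ∀ (h : Fin 12) (s : Bool), hu h s < 8 := by decide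

lemma hu_wall : ∀ (h : Fin 12) (s : Bool), h.val < 6 → hu h s < 5 := by decide

lemma hu_inj : ∀ (h : Fin 12) (s s' : Bool), hu h s = hu h s' → s = s' := by decide

/-- the two bundles have four different ends -/
def Dis (h h' : Fin 12) : Prop := ∀ s s', hu h s ≠ hu h' s'

instance (h h' : Fin 12) : Decidable (Dis h h') := by
  unfold Dis
  infer_instance

/-- the frame has no algebraic crossings, so the terminals lie in different regions -/
lemma frame (C : Fin 12 → ℕ → ℤ) (I : ℕ → ℕ → ℤ)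
    (hI : ∀ z p, z < 8 → p < 8 → z ≠ p → I z p + I p z = 1)
    (hE : ∀ h h' : Fin 12, Dis h h' →
      C h' (hu h true) - C h' (hu h false) - C h (hu h' true) + C h (hu h' false) +
        (I (hu h' true) (hu h true) - I (hu h' true) (hu h false)) -
        (I (hu h' false) (hu h true) - I (hu h' false) (hu h false)) = 0) :
    (C 0 5 - C 3 5 - (C 1 5 - C 4 5) ≠ C 0 6 - C 3 6 - (C 1 6 - C 4 6)) ∧
    (C 0 5 - C 3 5 - (C 1 5 - C 4 5) ≠ C 0 7 - C 3 7 - (C 1 7 - C 4 7)) ∧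
    (C 1 6 - C 4 6 - (C 2 6 - C 5 6) ≠ C 1 7 - C 4 7 - (C 2 7 - C 5 7)) := by
  refine ⟨?_, ?_, ?_⟩
  · intro h0
    have e0_4 : C 4 2 - C 4 0 - C 0 3 + C 0 1 + (I 3 2 - I 3 0) - (I 1 2 - I 1 0) = 0 :=
      hE 0 4 (by decide)
    have e0_5 : C 5 2 - C 5 0 - C 0 4 + C 0 1 + (I 4 2 - I 4 0) - (I 1 2 - I 1 0) = 0 :=
      hE 0 5 (by decide)
    have e1_3 : C 3 3 - C 3 0 - C 1 2 + C 1 1 + (I 2 3 - I 2 0) - (I 1 3 - I 1 0) = 0 :=
      hE 1 3 (by decide)
    have e1_5 : C 5 3 - C 5 0 - C 1 4 + C 1 1 + (I 4 3 - I 4 0) - (I 1 3 - I 1 0) = 0 :=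
      hE 1 5 (by decide)
    have e2_3 : C 3 4 - C 3 0 - C 2 2 + C 2 1 + (I 2 4 - I 2 0) - (I 1 4 - I 1 0) = 0 :=
      hE 2 3 (by decide)
    have e2_4 : C 4 4 - C 4 0 - C 2 3 + C 2 1 + (I 3 4 - I 3 0) - (I 1 4 - I 1 0) = 0 :=
      hE 2 4 (by decide)
    have e1_6 : C 6 3 - C 6 0 - C 1 5 + C 1 2 + (I 5 3 - I 5 0) - (I 2 3 - I 2 0) = 0 :=
      hE 1 6 (by decide)
    have e2_6 : C 6 4 - C 6 0 - C 2 5 + C 2 2 + (I 5 4 - I 5 0) - (I 2 4 - I 2 0) = 0 :=
      hE 2 6 (by decide)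
    have e4_6 : C 6 3 - C 6 1 - C 4 5 + C 4 2 + (I 5 3 - I 5 1) - (I 2 3 - I 2 1) = 0 :=
      hE 4 6 (by decide)
    have e5_6 : C 6 4 - C 6 1 - C 5 5 + C 5 2 + (I 5 4 - I 5 1) - (I 2 4 - I 2 1) = 0 :=
      hE 5 6 (by decide)
    have e0_7 : C 7 2 - C 7 0 - C 0 3 + C 0 5 + (I 3 2 - I 3 0) - (I 5 2 - I 5 0) = 0 :=
      hE 0 7 (by decide)
    have e2_7 : C 7 4 - C 7 0 - C 2 3 + C 2 5 + (I 3 4 - I 3 0) - (I 5 4 - I 5 0) = 0 :=
      hE 2 7 (by decide)
    have e3_7 : C 7 2 - C 7 1 - C 3 3 + C 3 5 + (I 3 2 - I 3 1) - (I 5 2 - I 5 1) = 0 :=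
      hE 3 7 (by decide)
    have e5_7 : C 7 4 - C 7 1 - C 5 3 + C 5 5 + (I 3 4 - I 3 1) - (I 5 4 - I 5 1) = 0 :=
      hE 5 7 (by decide)
    have e0_9 : C 9 2 - C 9 0 - C 0 4 + C 0 6 + (I 4 2 - I 4 0) - (I 6 2 - I 6 0) = 0 :=
      hE 0 9 (by decide)
    have e1_9 : C 9 3 - C 9 0 - C 1 4 + C 1 6 + (I 4 3 - I 4 0) - (I 6 3 - I 6 0) = 0 :=
      hE 1 9 (by decide)
    have e3_9 : C 9 2 - C 9 1 - C 3 4 + C 3 6 + (I 4 2 - I 4 1) - (I 6 2 - I 6 1) = 0 :=
      hE 3 9 (by decide)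
    have e4_9 : C 9 3 - C 9 1 - C 4 4 + C 4 6 + (I 4 3 - I 4 1) - (I 6 3 - I 6 1) = 0 :=
      hE 4 9 (by decide)
    have i01 := hI 0 1 (by omega) (by omega) (by omega)
    have i02 := hI 0 2 (by omega) (by omega) (by omega)
    have i03 := hI 0 3 (by omega) (by omega) (by omega)
    have i04 := hI 0 4 (by omega) (by omega) (by omega)
    have i05 := hI 0 5 (by omega) (by omega) (by omega)
    have i06 := hI 0 6 (by omega) (by omega) (by omega)
    have i12 := hI 1 2 (by omega) (by omega) (by omega)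
    have i13 := hI 1 3 (by omega) (by omega) (by omega)
    have i14 := hI 1 4 (by omega) (by omega) (by omega)
    have i15 := hI 1 5 (by omega) (by omega) (by omega)
    have i16 := hI 1 6 (by omega) (by omega) (by omega)
    have i23 := hI 2 3 (by omega) (by omega) (by omega)
    have i24 := hI 2 4 (by omega) (by omega) (by omega)
    have i25 := hI 2 5 (by omega) (by omega) (by omega)
    have i26 := hI 2 6 (by omega) (by omega) (by omega)
    have i34 := hI 3 4 (by omega) (by omega) (by omega)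
    have i35 := hI 3 5 (by omega) (by omega) (by omega)
    have i36 := hI 3 6 (by omega) (by omega) (by omega)
    have i45 := hI 4 5 (by omega) (by omega) (by omega)
    have i46 := hI 4 6 (by omega) (by omega) (by omega)
    have i56 := hI 5 6 (by omega) (by omega) (by omega)
    omega
  · intro h0
    have e0_4 : C 4 2 - C 4 0 - C 0 3 + C 0 1 + (I 3 2 - I 3 0) - (I 1 2 - I 1 0) = 0 :=
      hE 0 4 (by decide)
    have e0_5 : C 5 2 - C 5 0 - C 0 4 + C 0 1 + (I 4 2 - I 4 0) - (I 1 2 - I 1 0) = 0 :=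
      hE 0 5 (by decide)
    have e1_3 : C 3 3 - C 3 0 - C 1 2 + C 1 1 + (I 2 3 - I 2 0) - (I 1 3 - I 1 0) = 0 :=
      hE 1 3 (by decide)
    have e1_5 : C 5 3 - C 5 0 - C 1 4 + C 1 1 + (I 4 3 - I 4 0) - (I 1 3 - I 1 0) = 0 :=
      hE 1 5 (by decide)
    have e2_3 : C 3 4 - C 3 0 - C 2 2 + C 2 1 + (I 2 4 - I 2 0) - (I 1 4 - I 1 0) = 0 :=
      hE 2 3 (by decide)
    have e2_4 : C 4 4 - C 4 0 - C 2 3 + C 2 1 + (I 3 4 - I 3 0) - (I 1 4 - I 1 0) = 0 :=
      hE 2 4 (by decide)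
    have e1_6 : C 6 3 - C 6 0 - C 1 5 + C 1 2 + (I 5 3 - I 5 0) - (I 2 3 - I 2 0) = 0 :=
      hE 1 6 (by decide)
    have e2_6 : C 6 4 - C 6 0 - C 2 5 + C 2 2 + (I 5 4 - I 5 0) - (I 2 4 - I 2 0) = 0 :=
      hE 2 6 (by decide)
    have e4_6 : C 6 3 - C 6 1 - C 4 5 + C 4 2 + (I 5 3 - I 5 1) - (I 2 3 - I 2 1) = 0 :=
      hE 4 6 (by decide)
    have e5_6 : C 6 4 - C 6 1 - C 5 5 + C 5 2 + (I 5 4 - I 5 1) - (I 2 4 - I 2 1) = 0 :=
      hE 5 6 (by decide)
    have e0_7 : C 7 2 - C 7 0 - C 0 3 + C 0 5 + (I 3 2 - I 3 0) - (I 5 2 - I 5 0) = 0 :=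
      hE 0 7 (by decide)
    have e2_7 : C 7 4 - C 7 0 - C 2 3 + C 2 5 + (I 3 4 - I 3 0) - (I 5 4 - I 5 0) = 0 :=
      hE 2 7 (by decide)
    have e3_7 : C 7 2 - C 7 1 - C 3 3 + C 3 5 + (I 3 2 - I 3 1) - (I 5 2 - I 5 1) = 0 :=
      hE 3 7 (by decide)
    have e5_7 : C 7 4 - C 7 1 - C 5 3 + C 5 5 + (I 3 4 - I 3 1) - (I 5 4 - I 5 1) = 0 :=
      hE 5 7 (by decide)
    have e0_10 : C 10 2 - C 10 0 - C 0 7 + C 0 4 + (I 7 2 - I 7 0) - (I 4 2 - I 4 0) = 0 :=
      hE 0 10 (by decide)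
    have e1_10 : C 10 3 - C 10 0 - C 1 7 + C 1 4 + (I 7 3 - I 7 0) - (I 4 3 - I 4 0) = 0 :=
      hE 1 10 (by decide)
    have e3_10 : C 10 2 - C 10 1 - C 3 7 + C 3 4 + (I 7 2 - I 7 1) - (I 4 2 - I 4 1) = 0 :=
      hE 3 10 (by decide)
    have e4_10 : C 10 3 - C 10 1 - C 4 7 + C 4 4 + (I 7 3 - I 7 1) - (I 4 3 - I 4 1) = 0 :=
      hE 4 10 (by decide)
    have i01 := hI 0 1 (by omega) (by omega) (by omega)
    have i02 := hI 0 2 (by omega) (by omega) (by omega)
    have i03 := hI 0 3 (by omega) (by omega) (by omega)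
    have i04 := hI 0 4 (by omega) (by omega) (by omega)
    have i05 := hI 0 5 (by omega) (by omega) (by omega)
    have i07 := hI 0 7 (by omega) (by omega) (by omega)
    have i12 := hI 1 2 (by omega) (by omega) (by omega)
    have i13 := hI 1 3 (by omega) (by omega) (by omega)
    have i14 := hI 1 4 (by omega) (by omega) (by omega)
    have i15 := hI 1 5 (by omega) (by omega) (by omega)
    have i17 := hI 1 7 (by omega) (by omega) (by omega)
    have i23 := hI 2 3 (by omega) (by omega) (by omega)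
    have i24 := hI 2 4 (by omega) (by omega) (by omega)
    have i25 := hI 2 5 (by omega) (by omega) (by omega)
    have i27 := hI 2 7 (by omega) (by omega) (by omega)
    have i34 := hI 3 4 (by omega) (by omega) (by omega)
    have i35 := hI 3 5 (by omega) (by omega) (by omega)
    have i37 := hI 3 7 (by omega) (by omega) (by omega)
    have i45 := hI 4 5 (by omega) (by omega) (by omega)
    have i47 := hI 4 7 (by omega) (by omega) (by omega)
    have i57 := hI 5 7 (by omega) (by omega) (by omega)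
    omega
  · intro h0
    have e0_4 : C 4 2 - C 4 0 - C 0 3 + C 0 1 + (I 3 2 - I 3 0) - (I 1 2 - I 1 0) = 0 :=
      hE 0 4 (by decide)
    have e0_5 : C 5 2 - C 5 0 - C 0 4 + C 0 1 + (I 4 2 - I 4 0) - (I 1 2 - I 1 0) = 0 :=
      hE 0 5 (by decide)
    have e1_3 : C 3 3 - C 3 0 - C 1 2 + C 1 1 + (I 2 3 - I 2 0) - (I 1 3 - I 1 0) = 0 :=
      hE 1 3 (by decide)
    have e1_5 : C 5 3 - C 5 0 - C 1 4 + C 1 1 + (I 4 3 - I 4 0) - (I 1 3 - I 1 0) = 0 :=
      hE 1 5 (by decide)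
    have e2_3 : C 3 4 - C 3 0 - C 2 2 + C 2 1 + (I 2 4 - I 2 0) - (I 1 4 - I 1 0) = 0 :=
      hE 2 3 (by decide)
    have e2_4 : C 4 4 - C 4 0 - C 2 3 + C 2 1 + (I 3 4 - I 3 0) - (I 1 4 - I 1 0) = 0 :=
      hE 2 4 (by decide)
    have e0_8 : C 8 2 - C 8 0 - C 0 6 + C 0 3 + (I 6 2 - I 6 0) - (I 3 2 - I 3 0) = 0 :=
      hE 0 8 (by decide)
    have e2_8 : C 8 4 - C 8 0 - C 2 6 + C 2 3 + (I 6 4 - I 6 0) - (I 3 4 - I 3 0) = 0 :=
      hE 2 8 (by decide)
    have e3_8 : C 8 2 - C 8 1 - C 3 6 + C 3 3 + (I 6 2 - I 6 1) - (I 3 2 - I 3 1) = 0 :=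
      hE 3 8 (by decide)
    have e5_8 : C 8 4 - C 8 1 - C 5 6 + C 5 3 + (I 6 4 - I 6 1) - (I 3 4 - I 3 1) = 0 :=
      hE 5 8 (by decide)
    have e0_9 : C 9 2 - C 9 0 - C 0 4 + C 0 6 + (I 4 2 - I 4 0) - (I 6 2 - I 6 0) = 0 :=
      hE 0 9 (by decide)
    have e1_9 : C 9 3 - C 9 0 - C 1 4 + C 1 6 + (I 4 3 - I 4 0) - (I 6 3 - I 6 0) = 0 :=
      hE 1 9 (by decide)
    have e3_9 : C 9 2 - C 9 1 - C 3 4 + C 3 6 + (I 4 2 - I 4 1) - (I 6 2 - I 6 1) = 0 :=
      hE 3 9 (by decide)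
    have e4_9 : C 9 3 - C 9 1 - C 4 4 + C 4 6 + (I 4 3 - I 4 1) - (I 6 3 - I 6 1) = 0 :=
      hE 4 9 (by decide)
    have e1_11 : C 11 3 - C 11 0 - C 1 2 + C 1 7 + (I 2 3 - I 2 0) - (I 7 3 - I 7 0) = 0 :=
      hE 1 11 (by decide)
    have e2_11 : C 11 4 - C 11 0 - C 2 2 + C 2 7 + (I 2 4 - I 2 0) - (I 7 4 - I 7 0) = 0 :=
      hE 2 11 (by decide)
    have e4_11 : C 11 3 - C 11 1 - C 4 2 + C 4 7 + (I 2 3 - I 2 1) - (I 7 3 - I 7 1) = 0 :=
      hE 4 11 (by decide)
    have e5_11 : C 11 4 - C 11 1 - C 5 2 + C 5 7 + (I 2 4 - I 2 1) - (I 7 4 - I 7 1) = 0 :=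
      hE 5 11 (by decide)
    have i01 := hI 0 1 (by omega) (by omega) (by omega)
    have i02 := hI 0 2 (by omega) (by omega) (by omega)
    have i03 := hI 0 3 (by omega) (by omega) (by omega)
    have i04 := hI 0 4 (by omega) (by omega) (by omega)
    have i06 := hI 0 6 (by omega) (by omega) (by omega)
    have i07 := hI 0 7 (by omega) (by omega) (by omega)
    have i12 := hI 1 2 (by omega) (by omega) (by omega)
    have i13 := hI 1 3 (by omega) (by omega) (by omega)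
    have i14 := hI 1 4 (by omega) (by omega) (by omega)
    have i16 := hI 1 6 (by omega) (by omega) (by omega)
    have i17 := hI 1 7 (by omega) (by omega) (by omega)
    have i23 := hI 2 3 (by omega) (by omega) (by omega)
    have i24 := hI 2 4 (by omega) (by omega) (by omega)
    have i26 := hI 2 6 (by omega) (by omega) (by omega)
    have i27 := hI 2 7 (by omega) (by omega) (by omega)
    have i34 := hI 3 4 (by omega) (by omega) (by omega)
    have i36 := hI 3 6 (by omega) (by omega) (by omega)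
    have i37 := hI 3 7 (by omega) (by omega) (by omega)
    have i46 := hI 4 6 (by omega) (by omega) (by omega)
    have i47 := hI 4 7 (by omega) (by omega) (by omega)
    have i67 := hI 6 7 (by omega) (by omega) (by omega)
    omega

lemma A_anti (c : ℕ → ℕ → ℕ → ℤ) (I : ℕ → ℕ → ℤ) (u v x y : ℕ) (h1 : I y v + I v y = 1)
    (h2 : I y u + I u y = 1) (h3 : I x v + I v x = 1) (h4 : I x u + I u x = 1) :
    A c I u v x y = - A c I x y u v := by
  unfold A
  omega

lemma wN_zero {c : ℕ → ℕ → ℕ → ℤ} {I : ℕ → ℕ → ℤ} {u v x y : ℕ} (h : wN c I u v x y = 0)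
    (h1 : u < x) (h2 : u ≠ y) (h3 : v ≠ x) (h4 : v ≠ y) : A c I u v x y = 0 := by
  unfold wN at h
  rw [if_pos ⟨h1, h2, h3, h4⟩] at h
  exact Int.natAbs_eq_zero.1 h

/-- the part of the argument after the choice of one path in every bundle -/
lemma chosen (E : List (ℕ × ℕ)) (κ N : ℕ) (c : ℕ → ℕ → ℕ → ℤ) (I : ℕ → ℕ → ℤ)
    (hE : ∀ p ∈ E, p.1 < 3 + 2 * E.length ∧ p.2 < 3 + 2 * E.length)
    (hI : ∀ z p, z < N → p < N → z ≠ p → I z p + I p z = 1) (m : Fin 12 → ℕ)
    (hm1 : ∀ h, 8 + 4 * E.length ≤ m h) (hm2 : ∀ h, m h < N) (hm3 : Function.Injective m)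
    (hG : ∀ h h' : Fin 12, h ≠ h' → ∀ s s', wN c I (hu h s) (m h) (hu h' s') (m h') = 0)
    (hF : ∑ h : Fin 12, ∑ s : Bool, ∑ e : Fin E.length, ∑ j : Fin 3,
      wN c I (hu h s) (m h) (lu E e j) (lv E e j) ≤ κ) : MWC E κ := by
  classical
  have hN : 8 < N := by
    have := hm2 0
    have := hm1 0
    have h01 : m 0 ≠ m 1 := fun h => absurd (hm3 h) (by decide)
    have := hm2 1
    have := hm1 1
    omega
  set C : Fin 12 → ℕ → ℤ := fun h z => c (hu h false) (m h) z - c (hu h true) (m h) z with hC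
  have hA : ∀ h h' : Fin 12, Dis h h' → ∀ s s', A c I (hu h s) (m h) (hu h' s') (m h') = 0 := by
    intro h h' hd s s'
    have hne : h ≠ h' := by
      rintro rfl
      exact hd s s rfl
    have a1 := hu_lt h s
    have a2 := hu_lt h' s'
    have a3 := hm1 h
    have a4 := hm1 h'
    have a5 := hm2 h
    have a6 := hm2 h'
    have a7 : m h ≠ m h' := fun e => hne (hm3 e)
    rcases lt_or_gt_of_ne (hd s s') with hlt | hlt
    · exact wN_zero (hG h h' hne s s') hlt (by omega) (by omega) a7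
    · rw [A_anti c I _ _ _ _ (hI _ _ a6 a5 a7.symm) (hI _ _ a6 (by omega) (by omega))
        (hI _ _ (by omega) a5 (by omega)) (hI _ _ (by omega) (by omega) (by omega)),
        wN_zero (hG h' h hne.symm s' s) hlt (by omega) (by omega) a7.symm, neg_zero]
  obtain ⟨f1, f2, f3⟩ := frame C I (fun z p hz hp => hI z p (by omega) (by omega)) (by
    intro h h' hd
    have e1 := hA h h' hd false false
    have e2 := hA h h' hd false true
    have e3 := hA h h' hd true false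
    have e4 := hA h h' hd true true
    simp only [A] at e1 e2 e3 e4
    simp only [hC]
    omega)
  set cls : ℕ → ℤ × ℤ := fun z =>
    (C 0 z - C 3 z - (C 1 z - C 4 z), C 1 z - C 4 z - (C 2 z - C 5 z)) with hcls
  have g1 : cls 6 ≠ cls 5 := fun h => f1 (congrArg Prod.fst h).symm
  have g2 : cls 7 ≠ cls 5 := fun h => f2 (congrArg Prod.fst h).symm
  have g3 : cls 7 ≠ cls 6 := fun h => f3 (congrArg Prod.snd h).symm
  set lab : ℕ → Fin 3 := fun x =>
    if cls (5 + x) = cls 5 then 0 else if cls (5 + x) = cls 6 then 1 else 2 with hlab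
  refine ⟨lab, by simp [hlab], by simp [hlab, g1], by simp [hlab, g2, g3], ?_⟩
  rw [filter_len (0, 0)]
  refine le_trans ?_ hF
  have e : ∑ h : Fin 12, ∑ s : Bool, ∑ e : Fin E.length, ∑ j : Fin 3,
      wN c I (hu h s) (m h) (lu E e j) (lv E e j) =
      ∑ e : Fin E.length, ∑ h : Fin 12, ∑ s : Bool, ∑ j : Fin 3,
      wN c I (hu h s) (m h) (lu E e j) (lv E e j) := by
    rw [Finset.sum_comm (s := (univ : Finset (Fin E.length)))]
    exact Finset.sum_congr rfl fun _ _ => Finset.sum_comm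
  rw [e]
  refine Finset.sum_le_sum fun e _ => ?_
  split_ifs with hq
  swap
  · exact Nat.zero_le _
  rw [Nat.one_le_iff_ne_zero]
  intro h0
  have hp := hE (E.getD e (0, 0)) (by
    rw [List.getD_eq_getElem _ _ e.2]
    exact List.getElem_mem e.2)
  have he := e.2
  have hz : ∀ j : Fin 3, cls (lu E e j) = cls (lv E e j) := by
    intro j
    have b1 : 5 ≤ lu E e j ∧ lu E e j < 8 + 4 * E.length := by
      unfold lu gZ
      split_ifs <;> omega
    have b2 : 5 ≤ lv E e j ∧ lv E e j < 8 + 4 * E.length := by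
      unfold lv gZ
      split_ifs <;> omega
    have hz0 : ∀ (h : Fin 12) (s : Bool), h.val < 6 →
        A c I (hu h s) (m h) (lu E e j) (lv E e j) = 0 := by
      intro h s hh
      have a1 := hu_wall h s hh
      have a2 := hm1 h
      have z1 := (Finset.sum_eq_zero_iff.1 h0) h (Finset.mem_univ _)
      have z2 := (Finset.sum_eq_zero_iff.1 z1) s (Finset.mem_univ _)
      have z3 := (Finset.sum_eq_zero_iff.1 z2) j (Finset.mem_univ _)
      exact wN_zero z3 (by omega) (by omega) (by omega) (by omega)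
    generalize lu E e j = x at hz0 ⊢
    generalize lv E e j = y at hz0 ⊢
    have hp : ∀ h : Fin 12, h.val < 6 →
        c x y (hu h true) - c x y (hu h false) - C h y + C h x +
          (I y (hu h true) - I y (hu h false)) - (I x (hu h true) - I x (hu h false)) = 0 := by
      intro h hh
      have e1 := hz0 h false hh
      have e2 := hz0 h true hh
      simp only [A] at e1 e2
      simp only [hC]
      omega
    have p0 : c x y 2 - c x y 0 - C 0 y + C 0 x + (I y 2 - I y 0) - (I x 2 - I x 0) = 0 :=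
      hp 0 (by decide)
    have p1 : c x y 3 - c x y 0 - C 1 y + C 1 x + (I y 3 - I y 0) - (I x 3 - I x 0) = 0 :=
      hp 1 (by decide)
    have p2 : c x y 4 - c x y 0 - C 2 y + C 2 x + (I y 4 - I y 0) - (I x 4 - I x 0) = 0 :=
      hp 2 (by decide)
    have p3 : c x y 2 - c x y 1 - C 3 y + C 3 x + (I y 2 - I y 1) - (I x 2 - I x 1) = 0 :=
      hp 3 (by decide)
    have p4 : c x y 3 - c x y 1 - C 4 y + C 4 x + (I y 3 - I y 1) - (I x 3 - I x 1) = 0 :=
      hp 4 (by decide)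
    have p5 : c x y 4 - c x y 1 - C 5 y + C 5 x + (I y 4 - I y 1) - (I x 4 - I x 1) = 0 :=
      hp 5 (by decide)
    refine Prod.ext ?_ ?_
    · show C 0 x - C 3 x - (C 1 x - C 4 x) = C 0 y - C 3 y - (C 1 y - C 4 y)
      omega
    · show C 1 x - C 4 x - (C 2 x - C 5 x) = C 1 y - C 4 y - (C 2 y - C 5 y)
      omega
  have z0 : cls (5 + (E.getD e (0, 0)).1) = cls (gZ E.length e 0) := hz 0
  have z1 : cls (gZ E.length e 0) = cls (gZ E.length e 1) := hz 1
  have z2 : cls (5 + (E.getD e (0, 0)).2) = cls (gZ E.length e 1) := hz 2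
  have hcl : cls (5 + (E.getD e (0, 0)).1) = cls (5 + (E.getD e (0, 0)).2) := by
    rw [z0, z1, z2]
  have hne : lab (E.getD e (0, 0)).1 ≠ lab (E.getD e (0, 0)).2 := of_decide_eq_true hq
  apply hne
  simp only [hlab, hcl]

/-- index set of the edges of the gadget graph -/
abbrev K (E : List (ℕ × ℕ)) : Type :=
  (Fin 12 × Fin (gOm E.length) × Bool) ⊕ (Fin E.length × Fin 3)

/-- smaller end -/
def ku (E : List (ℕ × ℕ)) : K E → ℕ
  | Sum.inl k => hu k.1 k.2.2
  | Sum.inr k => lu E k.1 k.2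

/-- larger end -/
def kv (E : List (ℕ × ℕ)) : K E → ℕ
  | Sum.inl k => gM E.length k.1 k.2.1
  | Sum.inr k => lv E k.1 k.2

lemma core (E : List (ℕ × ℕ)) (κ : ℕ) (c : ℕ → ℕ → ℕ → ℤ) (I : ℕ → ℕ → ℤ)
    (hE : ∀ p ∈ E, p.1 < 3 + 2 * E.length ∧ p.2 < 3 + 2 * E.length)
    (hI : ∀ z p, z < gN E.length → p < gN E.length → z ≠ p → I z p + I p z = 1)
    (hK : ∑ k : K E, ∑ k' : K E, wN c I (ku E k) (kv E k) (ku E k') (kv E k') ≤ gK E κ) :
    MWC E κ := by
  classical
  by_cases hκ : E.length ≤ κ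
  · refine ⟨fun x => if x = 0 then 0 else if x = 1 then 1 else 2, by simp, by simp, by simp, ?_⟩
    exact le_trans (List.length_filter_le _ _) hκ
  have : Nonempty (Fin (gOm E.length)) := ⟨⟨0, by unfold gOm; omega⟩⟩
  obtain ⟨ch, hch⟩ := exists_choice (ι := Fin 12) (α := Fin (gOm E.length))
    (fun h r => ∑ s : Bool, ∑ e : Fin E.length, ∑ j : Fin 3,
      wN c I (hu h s) (gM E.length h r) (lu E e j) (lv E e j))
    (fun h r h' r' => ∑ s : Bool, ∑ s' : Bool,
      wN c I (hu h s) (gM E.length h r) (hu h' s') (gM E.length h' r'))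
  have hT : ∑ h : Fin 12, ∑ r : Fin (gOm E.length), ∑ s : Bool, ∑ e : Fin E.length, ∑ j : Fin 3,
        wN c I (hu h s) (gM E.length h r) (lu E e j) (lv E e j) +
      ∑ h : Fin 12, ∑ r : Fin (gOm E.length), ∑ h' : Fin 12, ∑ r' : Fin (gOm E.length),
        ∑ s : Bool, ∑ s' : Bool,
        wN c I (hu h s) (gM E.length h r) (hu h' s') (gM E.length h' r') ≤ gK E κ := by
    exact le_trans (sum_K (fun k k' : K E => wN c I (ku E k) (kv E k) (ku E k') (kv E k'))) hK
  have hb := le_trans hch hT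
  rw [Fintype.card_fin] at hb
  generalize hF : (∑ h : Fin 12, ∑ s : Bool, ∑ e : Fin E.length, ∑ j : Fin 3,
      wN c I (hu h s) (gM E.length h (ch h)) (lu E e j) (lv E e j)) = F at hb
  generalize hG : (∑ h : Fin 12, ∑ h' : Fin 12, if h = h' then 0 else ∑ s : Bool, ∑ s' : Bool,
      wN c I (hu h s) (gM E.length h (ch h)) (hu h' s') (gM E.length h' (ch h'))) = G at hb
  have hom : 9 * E.length * E.length + E.length + 1 = gOm E.length := rfl
  unfold gK at hb
  generalize gOm E.length = Om at hb hom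
  have hlt : Om * F + Om * (Om * G) < Om * (κ + 1) := by
    rw [Nat.mul_add, Nat.mul_one]
    omega
  rw [← Nat.mul_add] at hlt
  have hlt' : F + Om * G < κ + 1 := Nat.lt_of_mul_lt_mul_left hlt
  have hG0 : G = 0 := by
    by_contra h
    have : Om * 1 ≤ Om * G := Nat.mul_le_mul_left _ (Nat.one_le_iff_ne_zero.2 h)
    omega
  refine chosen E κ (gN E.length) c I hE hI (fun h => gM E.length h (ch h)) ?_ ?_ ?_ ?_ ?_
  · intro h
    unfold gM
    omega
  · intro h
    have := (ch h).2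
    have := h.2
    unfold gM gN
    omega
  · intro h h' e
    have := h.2
    have := h'.2
    have e' : 8 + 4 * E.length + 12 * (ch h : ℕ) + h = 8 + 4 * E.length + 12 * (ch h' : ℕ) + h' := e
    exact Fin.ext (by omega)
  · intro h h' hne s s'
    rw [hG0] at hG
    have z1 := (Finset.sum_eq_zero_iff.1 hG) h (Finset.mem_univ _)
    have z2 := (Finset.sum_eq_zero_iff.1 z1) h' (Finset.mem_univ _)
    rw [if_neg hne] at z2
    have z3 := (Finset.sum_eq_zero_iff.1 z2) s (Finset.mem_univ _)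
    exact (Finset.sum_eq_zero_iff.1 z3) s' (Finset.mem_univ _)
  · rw [hF]
    omega

/-! ## The gadget graph -/

lemma k_mem (E : List (ℕ × ℕ)) (k : K E) : (ku E k, kv E k) ∈ gEdges E := by
  unfold gEdges
  rw [List.mem_append]
  rcases k with ⟨h, r, s⟩ | ⟨e, j⟩
  · right
    refine List.mem_flatMap.2 ⟨r, List.mem_range.2 r.2, List.mem_flatMap.2
      ⟨h, List.mem_range.2 h.2, ?_⟩⟩
    cases s <;> simp [ku, kv, hu]
  · left
    refine List.mem_flatMap.2 ⟨e, List.mem_range.2 e.2, ?_⟩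
    fin_cases j <;> simp [ku, kv, lu, lv]

lemma k_lt (E : List (ℕ × ℕ))
    (hE : ∀ p ∈ E, p.1 < 3 + 2 * E.length ∧ p.2 < 3 + 2 * E.length) (k : K E) :
    ku E k < kv E k ∧ kv E k < gN E.length := by
  rcases k with ⟨h, r, s⟩ | ⟨e, j⟩
  · have := hu_lt h s
    have := r.2
    have := h.2
    simp only [ku, kv, gM, gN]
    omega
  · have hp := hE (E.getD e (0, 0)) (by
      rw [List.getD_eq_getElem _ _ e.2]
      exact List.getElem_mem e.2)
    have := e.2
    simp only [ku, kv, lu, lv, gZ, gN]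
    split_ifs <;> omega

lemma k_inj (E : List (ℕ × ℕ))
    (hE : ∀ p ∈ E, p.1 < 3 + 2 * E.length ∧ p.2 < 3 + 2 * E.length) (k k' : K E)
    (h1 : ku E k = ku E k') (h2 : kv E k = kv E k') : k = k' := by
  rcases k with ⟨h, r, s⟩ | ⟨e, j⟩ <;> rcases k' with ⟨h', r', s'⟩ | ⟨e', j'⟩
  · have := h.2
    have := h'.2
    simp only [ku, kv, gM] at h1 h2
    obtain rfl : h = h' := Fin.ext (by omega)
    obtain rfl : r = r' := Fin.ext (by omega)
    obtain rfl : s = s' := hu_inj h s s' h1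
    rfl
  · exfalso
    have := e'.2
    simp only [kv, gM, lv, gZ] at h2
    split_ifs at h2 <;> omega
  · exfalso
    have := e.2
    simp only [kv, gM, lv, gZ] at h2
    split_ifs at h2 <;> omega
  · have hp := hE (E.getD e (0, 0)) (by
      rw [List.getD_eq_getElem _ _ e.2]
      exact List.getElem_mem e.2)
    have hp' := hE (E.getD e' (0, 0)) (by
      rw [List.getD_eq_getElem _ _ e'.2]
      exact List.getElem_mem e'.2)
    have := j.2
    have := j'.2
    simp only [ku, kv, lu, lv, gZ] at h1 h2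
    have : (e : ℕ) = e' ∧ (j : ℕ) = j' := by
      split_ifs at h1 h2 <;> omega
    obtain rfl : e = e' := Fin.ext this.1
    obtain rfl : j = j' := Fin.ext this.2
    rfl

lemma gMat_len (E : List (ℕ × ℕ)) : (gMat E).length = gN E.length := by
  simp [gMat]

lemma gMat_adj (E : List (ℕ × ℕ)) (i j : Fin (gMat E).length) (hlt : i < j)
    (hm : ((i : ℕ), (j : ℕ)) ∈ gEdges E) : (graphOf (gMat E)).Adj i j := by
  unfold graphOf
  rw [SimpleGraph.fromRel_adj]
  refine ⟨hlt.ne, Or.inl ?_⟩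
  have hi : (i : ℕ) < gN E.length := gMat_len E ▸ i.2
  have hj : (j : ℕ) < gN E.length := gMat_len E ▸ j.2
  generalize (i : ℕ) = a at hm hi ⊢
  generalize (j : ℕ) = b at hm hj ⊢
  simp [gMat, List.getD_eq_getElem?_getD, hi, hj, hm]

/-- the cost of a system dominates the sum over any numbered family of edges -/
lemma link {n : ℕ} (G : SimpleGraph (Fin n)) [Fintype (Edge G)] (D : Sys (Edge G) (Fin n) ℤ)
    (hD : Function.Injective D.pos) :
    ∃ (c : ℕ → ℕ → ℕ → ℤ) (I : ℕ → ℕ → ℤ),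
      (∀ z p, z < n → p < n → z ≠ p → I z p + I p z = 1) ∧
      ∑ f : Edge G, ∑ g : Edge G, wN c I f.1.1 f.1.2 g.1.1 g.1.2 ≤ D.cost (grE G) := by
  classical
  let P : ℕ → ℤ := fun x => if h : x < n then D.pos ⟨x, h⟩ else 0
  let c : ℕ → ℕ → ℕ → ℤ := fun u v x =>
    if h : (∃ e : Edge G, (e.1.1 : ℕ) = u ∧ (e.1.2 : ℕ) = v) ∧ x < n then
      D.cv (grE G) h.1.choose ⟨x, h.2⟩ else 0
  have hP : ∀ x : Fin n, P x = D.pos x := fun x => dif_pos x.2
  have hc : ∀ (e : Edge G) (x : Fin n), c e.1.1 e.1.2 x = D.cv (grE G) e x := by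
    intro e x
    have h : (∃ e' : Edge G, (e'.1.1 : ℕ) = e.1.1 ∧ (e'.1.2 : ℕ) = e.1.2) ∧ (x : ℕ) < n :=
      ⟨⟨e, rfl, rfl⟩, x.2⟩
    have he : h.1.choose = e :=
      Subtype.ext (Prod.ext (Fin.ext h.1.choose_spec.1) (Fin.ext h.1.choose_spec.2))
    show (if h : (∃ e' : Edge G, (e'.1.1 : ℕ) = e.1.1 ∧ (e'.1.2 : ℕ) = e.1.2) ∧ (x : ℕ) < n then
      D.cv (grE G) h.1.choose ⟨x, h.2⟩ else 0) = _
    rw [dif_pos h, he]
  refine ⟨c, fun z p => ind (P z) (P p), ?_, ?_⟩
  · intro z p hz hp hne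
    have h1 : P z ≠ P p := by
      rw [hP ⟨z, hz⟩, hP ⟨p, hp⟩]
      exact fun h => hne (congrArg Fin.val (hD h))
    show ind (P z) (P p) + ind (P p) (P z) = 1
    unfold ind
    split_ifs <;> omega
  · unfold Sys.cost
    refine Finset.sum_le_sum fun f _ => Finset.sum_le_sum fun g _ => ?_
    unfold wN
    split_ifs with h1 h2
    · refine le_of_eq ?_
      congr 1
      simp only [A, hc, hP, Sys.alg, grE, Edge.src, Edge.tgt]
    · exfalso
      apply h2
      refine ⟨h1.1, ?_⟩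
      rintro ⟨-, x, hx, hx'⟩
      obtain ⟨a1, a2, a3, a4⟩ := h1
      simp only [IsEnd, Edge.src, Edge.tgt] at hx hx'
      rcases hx with rfl | rfl <;> rcases hx' with h | h <;>
        have := congrArg Fin.val h <;> omega
    · exact Nat.zero_le _
    · exact le_rfl

end Glo

open Glo in
theorem glo : GadLoStmt := by
  intro E κ hE h
  let _ : Fintype (Edge (graphOf (gMat E))) := Fintype.ofFinite _
  obtain ⟨D, hD, hcost⟩ := h
  obtain ⟨c, I, hI, hle⟩ := link (graphOf (gMat E)) D hD.inj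
  have hl := gMat_len E
  have hu' : ∀ k : K E, ku E k < (gMat E).length := fun k => by
    have := k_lt E hE k
    omega
  have hv' : ∀ k : K E, kv E k < (gMat E).length := fun k => by
    have := k_lt E hE k
    omega
  let em : K E → Edge (graphOf (gMat E)) := fun k =>
    ⟨(⟨ku E k, hu' k⟩, ⟨kv E k, hv' k⟩), (k_lt E hE k).1,
      gMat_adj E _ _ (k_lt E hE k).1 (k_mem E k)⟩
  have hem : Function.Injective em := by
    intro k k' e
    exact k_inj E hE k k' (congrArg (fun x => (x.1.1 : ℕ)) e) (congrArg (fun x => (x.1.2 : ℕ)) e)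
  refine core E κ c I hE (fun z p hz hp => hI z p (by omega) (by omega)) ?_
  refine le_trans ?_ (le_trans hle hcost)
  refine le_trans ?_ (sum_comp_le em hem
    (fun f => ∑ g : Edge (graphOf (gMat E)), wN c I f.1.1 f.1.2 g.1.1 g.1.2))
  exact Finset.sum_le_sum fun k _ => sum_comp_le em hem
    (fun g => wN c I (ku E k) (kv E k) g.1.1 g.1.2)

end Pool.Agent.MP_17db17_lc.H93
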