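import Pool.Agent.MP_17db17_lc.H93.Basic

/-!
Pairwise drawings with the same chord counts fit together.
-/

set_option autoImplicit false

namespace Pool.Agent.MP_17db17_lc.H93

namespace Glue

/-! ### Cells -/

theorem count_le (l : List ℤ) {x y : ℤ} (h : x < y) :
    (l.filter fun v => decide (v < x)).length + (if x ∈ l then 1 else 0) ≤
      (l.filter fun v => decide (v < y)).length := by
  induction l with
  | nil => simp
  | cons a l ih =>
    simp only [List.filter_cons, List.mem_cons]
    by_cases h1 : a < x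
    · have h2 : a < y := h1.trans h
      have h3 : ¬ x = a := by omega
      simp only [h1, h2, decide_true, if_true, List.length_cons, h3, false_or]
      omega
    · by_cases h3 : x = a
      · subst h3
        simp only [h1, h, decide_true, decide_false, if_true, List.length_cons, true_or]
        split_ifs at ih <;> (simp_all; try omega)
      · simp only [h1, decide_false, h3, false_or]
        by_cases h2 : a < y
        · simp only [h2, decide_true, if_true, List.length_cons]
          simp only [Bool.false_eq_true, if_false]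
          omega
        · simp only [h2, decide_false, Bool.false_eq_true, if_false]
          exact ih

theorem cell_mono (vp : List ℤ) {x y : ℤ} (h : x ≤ y) : cell vp x ≤ cell vp y := by
  rcases h.eq_or_lt with h | h
  · rw [h]
  · have := count_le vp h
    unfold cell
    split_ifs at this ⊢ <;> omega

theorem cell_lt (vp : List ℤ) {x y : ℤ} (h : x < y) (hx : cell vp x % 2 = 1) :
    cell vp x < cell vp y := by
  have := count_le vp h
  unfold cell at hx ⊢
  split_ifs at this hx ⊢ <;> omega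

theorem cell_size (vp : List ℤ) (x : ℤ) : cell vp x < 2 * vp.length + 1 := by
  have h1 := count_le vp (lt_add_one x)
  have h2 := List.length_filter_le (fun v => decide (v < x + 1)) vp
  unfold cell
  split_ifs at h1 ⊢ <;> omega

theorem cell_even {vp : List ℤ} {x : ℤ} (h : x ∉ vp) : cell vp x % 2 = 0 := by
  rw [cell, if_neg h]; omega

theorem count_getD : ∀ (l : List ℤ), l.Pairwise (· < ·) → ∀ j < l.length,
    (l.filter fun v => decide (v < l.getD j 0)).length = j
  | [], _, j, hj => by simp at hj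
  | a :: l, h, 0, _ => by
    rw [List.pairwise_cons] at h
    rw [List.filter_eq_nil_iff.2]
    · rfl
    · intro c hc
      rcases List.mem_cons.1 hc with rfl | hc
      · simp
      · simpa using (h.1 c hc).le
  | a :: l, h, j + 1, hj => by
    rw [List.pairwise_cons] at h
    have hj' : j < l.length := by simpa using hj
    have hm : l.getD j 0 ∈ l := by
      rw [List.getD_eq_getElem _ _ hj']; exact List.getElem_mem _
    rw [List.getD_cons_succ, List.filter_cons_of_pos (by simpa using h.1 _ hm), List.length_cons,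
      count_getD l h.2 j hj']

theorem cell_getD {vp : List ℤ} (h : vp.Pairwise (· < ·)) {j : ℕ} (hj : j < vp.length) :
    cell vp (vp.getD j 0) = 2 * j + 1 := by
  have hm : vp.getD j 0 ∈ vp := by
    rw [List.getD_eq_getElem _ _ hj]; exact List.getElem_mem _
  rw [cell, count_getD vp h j hj, if_pos hm]

theorem dig {C p a p' a' : ℕ} (ha : a < C) (ha' : a' < C) (h : p * C + a = p' * C + a') :
    p = p' ∧ a = a' := by
  have e : a = a' := by
    rw [← Nat.mul_add_mod_of_lt (a := p) ha, h, Nat.mul_add_mod_of_lt ha']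
  subst e
  exact ⟨Nat.eq_of_mul_eq_mul_right (by omega) (Nat.add_right_cancel h), rfl⟩

theorem code_inj {C : ℕ} {π π' : Bool} {a b a' b' : ℕ} (ha : a < C) (hb : b < C) (ha' : a' < C)
    (hb' : b' < C) : code C π a b = code C π' a' b' ↔ π = π' ∧ a = a' ∧ b = b' := by
  refine ⟨fun h => ?_, by rintro ⟨rfl, rfl, rfl⟩; rfl⟩
  obtain ⟨h1, h2⟩ := dig hb hb' h
  obtain ⟨h3, h4⟩ := dig ha ha' h1
  refine ⟨?_, h4, h2⟩
  cases π <;> cases π' <;> simp_all

theorem code_lt {C : ℕ} (π : Bool) {a b : ℕ} (ha : a < C) (hb : b < C) :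
    code C π a b < 2 * C * C := by
  have h0 : π.toNat ≤ 1 := Bool.toNat_le π
  unfold code
  have h1 : π.toNat * C + a + 1 ≤ 2 * C := by nlinarith
  nlinarith

/-- Grouping a sum over chords by the type of the chord. -/
theorem group (vp : List ℤ) (f : ℕ → ℕ → ℤ) (L : List (Chord ℤ)) :
    (L.map fun c => if c.1 = true then f (cell vp c.2.1) (cell vp c.2.2) else 0).sum =
      ∑ a ∈ Finset.range (2 * vp.length + 1), ∑ b ∈ Finset.range (2 * vp.length + 1),
        ((L.filter fun c => decide (code (2 * vp.length + 1) c.1 (cell vp c.2.1) (cell vp c.2.2) =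
          code (2 * vp.length + 1) true a b)).length : ℤ) * f a b := by
  induction L with
  | nil => simp
  | cons c L ih =>
    have h1 := cell_size vp c.2.1
    have h2 := cell_size vp c.2.2
    have e : (if c.1 = true then f (cell vp c.2.1) (cell vp c.2.2) else 0) =
        ∑ a ∈ Finset.range (2 * vp.length + 1), ∑ b ∈ Finset.range (2 * vp.length + 1),
          if c.1 = true ∧ cell vp c.2.1 = a ∧ cell vp c.2.2 = b then f a b else 0 := by
      rw [Finset.sum_eq_single_of_mem _ (Finset.mem_range.2 h1),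
        Finset.sum_eq_single_of_mem _ (Finset.mem_range.2 h2)]
      · simp
      · exact fun b _ hb => if_neg fun h => hb h.2.2.symm
      · exact fun a _ ha => Finset.sum_eq_zero fun b _ => if_neg fun h => ha h.2.1.symm
    rw [List.map_cons, List.sum_cons, ih, e, ← Finset.sum_add_distrib]
    refine Finset.sum_congr rfl fun a ha => ?_
    rw [← Finset.sum_add_distrib]
    refine Finset.sum_congr rfl fun b hb => ?_
    simp only [List.filter_cons, decide_eq_true_eq,
      code_inj h1 h2 (Finset.mem_range.1 ha) (Finset.mem_range.1 hb)]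
    split_ifs
    · rw [List.length_cons, Nat.cast_succ]
      ring
    · rw [zero_add]

/-! ### Keys of strands -/

/-- code of the cell `a` seen from the cell `c` -/
def kc (C c a : ℕ) : ℤ := if a < c then (c : ℤ) - a else C + 1 + c - a

/-- key of a sequence of cells -/
def key (C : ℕ) (d : ℕ → ℕ) : Lex (ℕ → ℤ) :=
  toLex fun k => if k % 2 = 0 then kc C (d k) (d (k + 1)) else -kc C (d k) (d (k + 1))

theorem step (vp : List ℤ) {x y x' y' : ℤ} (hxy : x < y) (hc : cell vp x = cell vp y)
    (hx : cell vp x' ≠ cell vp x) (hy : cell vp y' ≠ cell vp y)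
    (nc : ¬ Cross (true, x, x') (true, y, y')) :
    (cell vp x' ≠ cell vp y' → kc (2 * vp.length + 1) (cell vp x) (cell vp x') <
      kc (2 * vp.length + 1) (cell vp y) (cell vp y')) ∧
    (cell vp x' = cell vp y' → x' ≠ y' → y' < x') := by
  have m : ∀ a b : ℤ, a ≤ b → cell vp a ≤ cell vp b := fun a b h => cell_mono vp h
  have m1 := m x x'
  have m2 := m x' x
  have m3 := m y y'
  have m4 := m y' y
  have m5 := m x' y
  have m6 := m x y'
  have m7 := m y' x'
  have s1 := cell_size vp y'
  simp only [Cross, Btw, Out, true_and] at nc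
  unfold kc
  refine ⟨fun h => ?_, fun h h' => ?_⟩
  · split_ifs <;> omega
  · omega

theorem strand (vp : List ℤ) {s s' : ℕ → ℤ}
    (st : ∀ k, cell vp (s k) % 2 = 1 → cell vp (s (k + 1)) = cell vp (s k))
    (st' : ∀ k, cell vp (s' k) % 2 = 1 → cell vp (s' (k + 1)) = cell vp (s' k))
    (go : ∀ k, cell vp (s k) % 2 = 0 → cell vp (s (k + 1)) ≠ cell vp (s k))
    (go' : ∀ k, cell vp (s' k) % 2 = 0 → cell vp (s' (k + 1)) ≠ cell vp (s' k))
    (ne : ∀ k, cell vp (s k) % 2 = 0 → cell vp (s' k) % 2 = 0 → s k ≠ s' k)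
    (nc : ∀ k, cell vp (s k) % 2 = 0 → cell vp (s' k) % 2 = 0 →
      ¬ Cross (true, s k, s (k + 1)) (true, s' k, s' (k + 1)))
    (h0 : cell vp (s 0) = cell vp (s' 0)) (hlt : s 0 < s' 0) :
    (key (2 * vp.length + 1) (fun k => cell vp (s k)) <
      key (2 * vp.length + 1) fun k => cell vp (s' k)) ∨ ∀ k, cell vp (s k) = cell vp (s' k) := by
  classical
  by_cases hall : ∀ k, cell vp (s k) = cell vp (s' k)
  · exact Or.inr hall
  left
  have hex : ∃ k, cell vp (s k) ≠ cell vp (s' k) := not_forall.1 hall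
  obtain ⟨k0, hk0⟩ : ∃ k0, Nat.find hex = k0 + 1 := by
    refine ⟨Nat.find hex - 1, ?_⟩
    have : Nat.find hex ≠ 0 := fun h => by
      have := Nat.find_spec hex
      rw [h] at this
      exact this h0
    omega
  have h1 : cell vp (s (k0 + 1)) ≠ cell vp (s' (k0 + 1)) := hk0 ▸ Nat.find_spec hex
  have h2 : ∀ k ≤ k0, cell vp (s k) = cell vp (s' k) := fun k hk =>
    not_not.1 (Nat.find_min hex (by omega))
  have h3 : ∀ k ≤ k0, cell vp (s k) % 2 = 0 →
      (k % 2 = 0 → s k < s' k) ∧ (k % 2 = 1 → s' k < s k) := by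
    intro k
    induction k with
    | zero => exact fun _ _ => ⟨fun _ => hlt, fun h => by omega⟩
    | succ k ih =>
      intro hk he
      have e1 := h2 k (by omega)
      have e2 := h2 (k + 1) hk
      have ev : cell vp (s k) % 2 = 0 := by
        have := st k
        omega
      obtain ⟨i1, i2⟩ := ih (by omega) ev
      have n1 := ne (k + 1) he (by omega)
      have n2 := nc k ev (by omega)
      refine ⟨fun h => ?_, fun h => ?_⟩
      · exact (step vp (i2 (by omega)) e1.symm (go' k (by omega)) (go k ev)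
          fun hc => n2 (cross_symm hc)).2 e2.symm n1.symm
      · exact (step vp (i1 (by omega)) e1 (go k ev) (go' k (by omega)) n2).2 e2 n1
  have e1 := h2 k0 le_rfl
  have ev : cell vp (s k0) % 2 = 0 := by
    have := st k0
    have := st' k0
    omega
  obtain ⟨i1, i2⟩ := h3 k0 le_rfl ev
  have n2 := nc k0 ev (by omega)
  refine ⟨k0, fun j hj => ?_, ?_⟩
  · have hj' : j < k0 := hj
    simp only [key, Pi.toLex_apply, h2 j (by omega), h2 (j + 1) (by omega)]
  · simp only [key, Pi.toLex_apply]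
    split_ifs with h
    · exact (step vp (i1 h) e1 (go k0 ev) (go' k0 (by omega)) n2).1 h1
    · exact neg_lt_neg ((step vp (i2 (by omega)) e1.symm (go' k0 (by omega)) (go k0 ev)
        fun hc => n2 (cross_symm hc)).1 h1.symm)

/-! ### Itineraries -/

structure Itin (L : ℕ) (c : ℕ → ℕ) : Prop where
  fst : c 0 % 2 = 1
  lst : c (L + 1) % 2 = 1
  mid : ∀ i, 1 ≤ i → i ≤ L → c i % 2 = 0
  red : ∀ i ≤ L, c i ≠ c (i + 1)

/-- index of the point number `k` on the strand that leaves point `i` on page `π` -/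
def dir (b π : Bool) (L i k : ℕ) : ℕ := if π = flipN b i then min (i + k) (L + 1) else i - k

theorem dir_le {b π : Bool} {L i : ℕ} (hi : i ≤ L) (k : ℕ) : dir b π L i k ≤ L + 1 := by
  unfold dir; split_ifs <;> omega

theorem dir_zero {b π : Bool} {L i : ℕ} (hi : i ≤ L) : dir b π L i 0 = i := by
  unfold dir; split_ifs <;> omega

theorem Itin.inner {L : ℕ} {c : ℕ → ℕ} (I : Itin L c) {i : ℕ} (hi : i ≤ L + 1) (h : c i % 2 = 0) :
    1 ≤ i ∧ i ≤ L := by
  have h1 := I.fst
  have h2 := I.lst
  constructor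
  · by_contra h3
    have : i = 0 := by omega
    subst this; omega
  · by_contra h3
    have : i = L + 1 := by omega
    subst this; omega

theorem Itin.stop {L : ℕ} {c : ℕ → ℕ} (I : Itin L c) {b π : Bool} {i : ℕ} (h1 : 1 ≤ i) (hi : i ≤ L)
    (k : ℕ) (h : c (dir b π L i k) % 2 = 1) : dir b π L i (k + 1) = dir b π L i k := by
  have := I.mid (dir b π L i k)
  unfold dir at *
  split_ifs at * <;> omega

/-- the chord number `k` of a strand -/
theorem dir_step {b π : Bool} {L i k : ℕ} (h1 : 1 ≤ dir b π L i k) (h2 : dir b π L i k ≤ L) :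
    ∃ t ≤ L, flipN b t = flipN π k ∧ ((dir b π L i k = t ∧ dir b π L i (k + 1) = t + 1) ∨
      (dir b π L i k = t + 1 ∧ dir b π L i (k + 1) = t)) := by
  unfold dir at *
  split_ifs at * with h
  · refine ⟨i + k, by omega, by rw [flipN_add, h], Or.inl ⟨by omega, by omega⟩⟩
  · refine ⟨i - k - 1, by omega, ?_, Or.inr ⟨by omega, by omega⟩⟩
    have e : π = flipN b (i + 1) := by
      rw [flipN_succ]
      revert h
      cases π <;> cases flipN b i <;> simp
    rw [e, ← flipN_add, flipN_eq_iff]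
    omega

/-- no crossing between the chords of two paths, in terms of indices -/
def NC (b : Bool) (L : ℕ) (p : ℕ → ℤ) (b' : Bool) (L' : ℕ) (p' : ℕ → ℤ) : Prop :=
  ∀ i ≤ L, ∀ j ≤ L', ¬ Cross (flipN b i, p i, p (i + 1)) (flipN b' j, p' j, p' (j + 1))

theorem NC.symm {b b' : Bool} {L L' : ℕ} {p p' : ℕ → ℤ} (h : NC b L p b' L' p') :
    NC b' L' p' b L p := fun i hi j hj hc => h j hj i hi (cross_symm hc)

/-- positions of the glued system -/
abbrev K : Type := ℕ ×ₗ (Lex (ℕ → ℤ) ×ₗ (Lex (ℕ → ℤ) ×ₗ (ℕ ×ₗ ℕ)))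

def vpos (c : ℕ) : K := toLex (c, toLex (toLex 0, toLex (toLex 0, toLex (0, 0))))

def ppos (C : ℕ) (b : Bool) (L : ℕ) (c : ℕ → ℕ) (a i : ℕ) : K :=
  if c i % 2 = 1 then vpos (c i) else
    toLex (c i, toLex (key C fun k => c (dir b true L i k),
      toLex (key C fun k => c (dir b false L i k), toLex (a, i))))

theorem ppos_fst (C : ℕ) (b : Bool) (L : ℕ) (c : ℕ → ℕ) (a i : ℕ) :
    (ofLex (ppos C b L c a i)).1 = c i := by
  unfold ppos vpos; split_ifs <;> rfl

theorem lt_of_fst {x y : K} (h : (ofLex x).1 < (ofLex y).1) : x < y :=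
  Prod.Lex.lt_iff.2 (Or.inl h)

theorem vpos_lt {a a' : ℕ} : vpos a < vpos a' ↔ a < a' := by
  simp [vpos, Prod.Lex.toLex_lt_toLex]

theorem vpos_lt_ppos {j C : ℕ} {b : Bool} {L : ℕ} {c : ℕ → ℕ} {a i : ℕ} :
    vpos (2 * j + 1) < ppos C b L c a i ↔ 2 * j + 1 < c i := by
  unfold ppos
  split_ifs with h
  · exact vpos_lt
  · rw [vpos, Prod.Lex.toLex_lt_toLex]
    constructor
    · rintro (h1 | ⟨h1, -⟩)
      · exact h1
      · simp only at h1; omega
    · exact fun h1 => Or.inl h1

theorem ppos_inj {C : ℕ} {b b' : Bool} {L L' : ℕ} {c c' : ℕ → ℕ} {a a' i j : ℕ} (h : c i % 2 = 0)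
    (e : ppos C b L c a i = ppos C b' L' c' a' j) : a = a' ∧ i = j := by
  have h1 : c i = c' j := by rw [← ppos_fst C b L c a i, e, ppos_fst]
  unfold ppos at e
  rw [if_neg (by omega), if_neg (by omega)] at e
  simp only [toLex_inj, Prod.mk.injEq] at e
  exact e.2.2.2

section pair
variable {vp : List ℤ} {b b' : Bool} {L L' : ℕ} {c c' : ℕ → ℕ} {p p' : ℕ → ℤ}

theorem pair_key (I : Itin L c) (I' : Itin L' c') (R : ∀ i ≤ L + 1, cell vp (p i) = c i)
    (R' : ∀ i ≤ L' + 1, cell vp (p' i) = c' i) (nc : NC b L p b' L' p') {i j : ℕ} (hi1 : 1 ≤ i)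
    (hi : i ≤ L) (hj1 : 1 ≤ j) (hj : j ≤ L') (hc : c i = c' j) (hlt : p i < p' j) (π : Bool)
    (ne : ∀ k, 1 ≤ dir b π L i k → dir b π L i k ≤ L → 1 ≤ dir b' π L' j k →
      dir b' π L' j k ≤ L' → p (dir b π L i k) ≠ p' (dir b' π L' j k)) :
    (key (2 * vp.length + 1) (fun k => c (dir b π L i k)) <
      key (2 * vp.length + 1) fun k => c' (dir b' π L' j k)) ∨
      ∀ k, c (dir b π L i k) = c' (dir b' π L' j k) := by
  have r : ∀ k, cell vp (p (dir b π L i k)) = c (dir b π L i k) := fun k => R _ (dir_le hi k)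
  have r' : ∀ k, cell vp (p' (dir b' π L' j k)) = c' (dir b' π L' j k) :=
    fun k => R' _ (dir_le hj k)
  have go : ∀ {b : Bool} {L : ℕ} {c : ℕ → ℕ} {i : ℕ}, Itin L c → i ≤ L → ∀ k,
      c (dir b π L i k) % 2 = 0 → c (dir b π L i (k + 1)) ≠ c (dir b π L i k) := by
    intro b L c i I hi k h
    obtain ⟨h1, h2⟩ := I.inner (dir_le hi k) h
    obtain ⟨t, ht, -, ⟨e1, e2⟩ | ⟨e1, e2⟩⟩ := dir_step h1 h2
    · rw [e1, e2]; exact (I.red t ht).symm
    · rw [e1, e2]; exact I.red t ht
  have := strand vp (s := fun k => p (dir b π L i k)) (s' := fun k => p' (dir b' π L' j k))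
    (fun k h => by simp only [r] at h ⊢; rw [I.stop hi1 hi k h])
    (fun k h => by simp only [r'] at h ⊢; rw [I'.stop hj1 hj k h])
    (fun k h => by simp only [r] at h ⊢; exact go I hi k h)
    (fun k h => by simp only [r'] at h ⊢; exact go I' hj k h)
    (fun k h h' => by
      simp only [r, r'] at h h'
      obtain ⟨h1, h2⟩ := I.inner (dir_le hi k) h
      obtain ⟨h3, h4⟩ := I'.inner (dir_le hj k) h'
      exact ne k h1 h2 h3 h4)
    (fun k h h' => by
      simp only [r, r'] at h h'
      obtain ⟨h1, h2⟩ := I.inner (dir_le hi k) h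
      obtain ⟨h3, h4⟩ := I'.inner (dir_le hj k) h'
      obtain ⟨t, ht, f1, e⟩ := dir_step h1 h2
      obtain ⟨t', ht', f2, e'⟩ := dir_step h3 h4
      have n := nc t ht t' ht'
      rw [f1, f2] at n
      have n' : ¬ Cross (true, p t, p (t + 1)) (true, p' t', p' (t' + 1)) :=
        fun hc => n ⟨rfl, hc.2⟩
      rcases e with ⟨e1, e2⟩ | ⟨e1, e2⟩ <;> rcases e' with ⟨e3, e4⟩ | ⟨e3, e4⟩ <;>
        simp only [e1, e2, e3, e4]
      · exact n'
      · rwa [cross_swap_right]
      · rwa [cross_swap_left]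
      · rwa [cross_swap_left, cross_swap_right])
    (by rw [r, r', dir_zero hi, dir_zero hj, hc])
    (by simp only [dir_zero hi, dir_zero hj, hlt])
  simpa only [r, r'] using this

theorem ord_core (I : Itin L c) (I' : Itin L' c') (R : ∀ i ≤ L + 1, cell vp (p i) = c i)
    (R' : ∀ i ≤ L' + 1, cell vp (p' i) = c' i) (nc : NC b L p b' L' p') {i j : ℕ}
    (hi : i ≤ L + 1) (hj : j ≤ L' + 1) (hlt : p i < p' j) (a a' : ℕ)
    (ne : ∀ π k, 1 ≤ dir b π L i k → dir b π L i k ≤ L → 1 ≤ dir b' π L' j k →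
      dir b' π L' j k ≤ L' → p (dir b π L i k) ≠ p' (dir b' π L' j k))
    (hnot : 1 ≤ i → i ≤ L → 1 ≤ j → j ≤ L' →
      ¬ ∀ π k, c (dir b π L i k) = c' (dir b' π L' j k)) :
    ppos (2 * vp.length + 1) b L c a i < ppos (2 * vp.length + 1) b' L' c' a' j := by
  have m := cell_mono vp hlt.le
  have m' := cell_lt vp hlt
  rw [R i hi, R' j hj] at m m'
  rcases m.lt_or_eq with m | m
  · exact lt_of_fst (by rwa [ppos_fst, ppos_fst])
  have ev : c i % 2 = 0 := by omega
  obtain ⟨h1, h2⟩ := I.inner hi ev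
  obtain ⟨h3, h4⟩ := I'.inner hj (by omega)
  unfold ppos
  rw [if_neg (by omega), if_neg (by omega)]
  simp only [Prod.Lex.toLex_lt_toLex]
  refine Or.inr ⟨m, ?_⟩
  rcases pair_key I I' R R' nc h1 h2 h3 h4 m hlt true (ne true) with k1 | k1
  · exact Or.inl k1
  refine Or.inr ⟨by simp only [k1], Or.inl ?_⟩
  rcases pair_key I I' R R' nc h1 h2 h3 h4 m hlt false (ne false) with k2 | k2
  · exact k2
  · exact absurd (fun π => by cases π <;> assumption) (hnot h1 h2 h3 h4)

theorem ord_diff (I : Itin L c) (I' : Itin L' c') (R : ∀ i ≤ L + 1, cell vp (p i) = c i)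
    (R' : ∀ i ≤ L' + 1, cell vp (p' i) = c' i) (nc : NC b L p b' L' p')
    (ne : ∀ i j, 1 ≤ i → i ≤ L → 1 ≤ j → j ≤ L' → p i ≠ p' j)
    (n1 : ¬ (c 0 = c' 0 ∧ c (L + 1) = c' (L' + 1))) (n2 : ¬ (c 0 = c' (L' + 1) ∧ c (L + 1) = c' 0))
    {i j : ℕ} (hi : i ≤ L + 1) (hj : j ≤ L' + 1) (hlt : p i < p' j) (a a' : ℕ) :
    ppos (2 * vp.length + 1) b L c a i < ppos (2 * vp.length + 1) b' L' c' a' j := by
  refine ord_core I I' R R' nc hi hj hlt a a' (fun π k => ne _ _) fun _ h2 _ h4 h => ?_
  have k1 := h true (L + L' + 2)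
  have k2 := h false (L + L' + 2)
  have e1 : min (i + (L + L' + 2)) (L + 1) = L + 1 := by omega
  have e2 : min (j + (L + L' + 2)) (L' + 1) = L' + 1 := by omega
  have e3 : i - (L + L' + 2) = 0 := by omega
  have e4 : j - (L + L' + 2) = 0 := by omega
  unfold dir at k1 k2
  rw [e1, e2, e3, e4] at k1 k2
  revert k1 k2
  cases flipN b i <;> cases flipN b' j <;> simp <;> tauto

theorem ord_same (I : Itin L c) (R : ∀ i ≤ L + 1, cell vp (p i) = c i) (nc : NC b L p b L p)
    (inj : ∀ i j, 1 ≤ i → i ≤ L → 1 ≤ j → j ≤ L → p i = p j → i = j)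
    (od : c 0 = c (L + 1) → L % 2 = 1) {i j : ℕ} (hi : i ≤ L + 1) (hj : j ≤ L + 1)
    (hlt : p i < p j) (a : ℕ) :
    ppos (2 * vp.length + 1) b L c a i < ppos (2 * vp.length + 1) b L c a j := by
  have hij : i ≠ j := fun h => by subst h; exact lt_irrefl _ hlt
  have par := flipN_eq_iff b i j
  refine ord_core I I R R nc hi hj hlt a a (fun π k h1 h2 h3 h4 e => ?_) fun h1 h2 h3 h4 h => ?_
  · have := inj _ _ h1 h2 h3 h4 e
    unfold dir at this h1 h2 h3 h4
    revert par this h1 h2 h3 h4
    cases π <;> cases flipN b i <;> cases flipN b j <;> simp <;> omega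
  · have f := I.fst
    have l := I.lst
    by_cases hp : flipN b i = flipN b j
    · have k1 := h (!flipN b i) (min i j)
      unfold dir at k1
      rw [if_neg (by simp), if_neg (by simp [← hp])] at k1
      rcases lt_or_gt_of_ne hij with h5 | h5
      · have := I.mid (j - i) (by omega) (by omega)
        rw [min_eq_left h5.le, Nat.sub_self] at k1
        omega
      · have := I.mid (i - j) (by omega) (by omega)
        rw [min_eq_right h5.le, Nat.sub_self] at k1
        omega
    · have k : ∀ k, c (i - k) = c (min (j + k) (L + 1)) := fun k => by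
        have k1 := h (flipN b j) k
        unfold dir at k1
        rwa [if_neg (Ne.symm hp), if_pos rfl] at k1
      have k1 := k (L + 1)
      rw [show i - (L + 1) = 0 by omega, min_eq_right (by omega)] at k1
      have o := od k1
      have o2 : ¬ i % 2 = j % 2 := fun h => hp (par.2 h)
      rcases lt_or_gt_of_ne (show i + j ≠ L + 1 by omega) with h5 | h5
      · have k2 := k i
        rw [Nat.sub_self, min_eq_left (by omega)] at k2
        have := I.mid (j + i) (by omega) (by omega)
        omega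
      · have k2 := k (L + 1 - j)
        rw [min_eq_right (by omega)] at k2
        have := I.mid (i - (L + 1 - j)) (by omega) (by omega)
        omega

end pair

/-! ### From lists to indices -/

theorem eq_range (u : ℤ) (m : List ℤ) (v : ℤ) : u :: (m ++ [v]) =
    (List.range (m.length + 2)).map fun i => (u :: (m ++ [v])).getD i 0 := by
  refine List.ext_getElem (by simp) fun i h1 h2 => ?_
  rw [List.getElem_map, List.getElem_range, List.getD_eq_getElem]

theorem mem_chords_range {α : Type} {b : Bool} {L : ℕ} {P : ℕ → α} {x : Chord α} :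
    x ∈ chords b ((List.range (L + 2)).map P) ↔ ∃ i ≤ L, x = (flipN b i, P i, P (i + 1)) := by
  rw [mem_chords_iff]
  simp only [List.length_map, List.length_range, List.getElem_map, List.getElem_range]
  constructor
  · rintro ⟨i, h, e⟩; exact ⟨i, by omega, e⟩
  · rintro ⟨i, h, e⟩; exact ⟨i, by omega, e⟩

theorem getD_mid (u : ℤ) (m : List ℤ) (v : ℤ) {i : ℕ} (h1 : 1 ≤ i) (h2 : i ≤ m.length) :
    (u :: (m ++ [v])).getD i 0 = m[i - 1]'(by omega) := by
  obtain ⟨j, rfl⟩ : ∃ j, i = j + 1 := ⟨i - 1, by omega⟩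
  rw [List.getD_cons_succ, List.getD_append _ _ _ _ (by omega), List.getD_eq_getElem]
  rfl

theorem getD_last (u : ℤ) (m : List ℤ) (v : ℤ) :
    (u :: (m ++ [v])).getD (m.length + 1) 0 = v := by
  rw [List.getD_cons_succ, List.getD_append_right _ _ _ _ le_rfl]
  simp

theorem nc_of {b b' : Bool} {u v u' v' : ℤ} {m m' : List ℤ}
    (h : NoCross b (u :: (m ++ [v])) b' (u' :: (m' ++ [v']))) :
    NC b m.length (fun i => (u :: (m ++ [v])).getD i 0) b' m'.length
      fun i => (u' :: (m' ++ [v'])).getD i 0 := by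
  intro i hi j hj
  refine h _ ?_ _ ?_
  · rw [eq_range u m v]
    refine mem_chords_range.2 ⟨i, hi, ?_⟩
    rw [← eq_range u m v]
  · rw [eq_range u' m' v']
    refine mem_chords_range.2 ⟨j, hj, ?_⟩
    rw [← eq_range u' m' v']

theorem itin_of {vp : List ℤ} {b : Bool} {u v : ℤ} {m : List ℤ} (h : PathOK vp b u m v) :
    Itin m.length fun i => cell vp ((u :: (m ++ [v])).getD i 0) := by
  refine ⟨?_, ?_, fun i h1 h2 => ?_, fun i hi => ?_⟩
  · simp only [List.getD_cons_zero, cell, if_pos h.hu]; omega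
  · simp only [getD_last, cell, if_pos h.hv]; omega
  · simp only [getD_mid u m v h1 h2]
    exact cell_even (h.notV _ (List.getElem_mem _))
  · refine h.red (flipN b i, (u :: (m ++ [v])).getD i 0, (u :: (m ++ [v])).getD (i + 1) 0) ?_
    rw [eq_range u m v]
    refine mem_chords_range.2 ⟨i, hi, ?_⟩
    rw [← eq_range u m v]

theorem cells_eq {vp vp' : List ℤ} {u v u' v' : ℤ} {m m' : List ℤ}
    (h : m.map (cell vp) = m'.map (cell vp')) (hu : cell vp u = cell vp' u')
    (hv : cell vp v = cell vp' v') : m.length = m'.length ∧ ∀ i ≤ m.length + 1,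
      cell vp ((u :: (m ++ [v])).getD i 0) = cell vp' ((u' :: (m' ++ [v'])).getD i 0) := by
  have hl : m.length = m'.length := by simpa using congrArg List.length h
  refine ⟨hl, fun i hi => ?_⟩
  have e : (u :: (m ++ [v])).map (cell vp) = (u' :: (m' ++ [v'])).map (cell vp') := by
    simp [h, hu, hv]
  have l1 : i < (u :: (m ++ [v])).length := by simp; omega
  have l2 : i < (u' :: (m' ++ [v'])).length := by simp; omega
  rw [List.getD_eq_getElem _ _ l1, List.getD_eq_getElem _ _ l2, ← List.getElem_map (cell vp)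
    (h := by simpa using l1), ← List.getElem_map (cell vp') (h := by simpa using l2)]
  exact List.getElem_of_eq e _

theorem cov_eq {vp : List ℤ} {b : Bool} {u v : ℤ} {m : List ℤ} {w : List ℕ}
    (hw : ∀ i < tsz vp, cnt vp b (u :: (m ++ [v])) i = w.getD i 0) {P : ℕ → K} (j : ℕ)
    (hP : ∀ i ≤ m.length + 1, vpos (2 * j + 1) < P i ↔
      2 * j + 1 < cell vp ((u :: (m ++ [v])).getD i 0)) :
    cov true b ((List.range (m.length + 2)).map P) (vpos (2 * j + 1)) = cvOf vp.length w j := by
  have g := group vp (fun a a' => (if 2 * j + 1 < a' then 1 else 0) -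
    (if 2 * j + 1 < a then 1 else 0)) (chords b (u :: (m ++ [v])))
  have e : cvOf vp.length w j = ∑ a ∈ Finset.range (2 * vp.length + 1),
      ∑ a' ∈ Finset.range (2 * vp.length + 1),
        (cnt vp b (u :: (m ++ [v])) (code (2 * vp.length + 1) true a a') : ℤ) *
          ((if 2 * j + 1 < a' then 1 else 0) - (if 2 * j + 1 < a then 1 else 0)) := by
    change ∑ a ∈ Finset.range (2 * vp.length + 1), ∑ a' ∈ Finset.range (2 * vp.length + 1),
      (w.getD (code (2 * vp.length + 1) true a a') 0 : ℤ) *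
        ((if 2 * j + 1 < a' then 1 else 0) - (if 2 * j + 1 < a then 1 else 0)) = _
    refine Finset.sum_congr rfl fun a ha => Finset.sum_congr rfl fun a' ha' => ?_
    rw [hw _ (code_lt true (Finset.mem_range.1 ha) (Finset.mem_range.1 ha'))]
  rw [e]
  refine Eq.trans ?_ g
  rw [eq_range u m v, chords_map, cov, chords_map, covL, List.map_map, List.map_map]
  congr 1
  refine List.map_congr_left fun c hc => ?_
  obtain ⟨c1, c2⟩ := mem_of_mem_chords hc
  rw [List.mem_range] at c1 c2
  simp only [Function.comp, ind, hP _ (Nat.lt_succ_iff.1 c1), hP _ (Nat.lt_succ_iff.1 c2)]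

end Glue

open Glue in
theorem glue : UniqStmt → GlueStmt := by
  intro hU ι V _ _ G hs hp n rk sp w hrk hn hP
  classical
  choose VP M M2 h1 h2 h3 h4 h5 h6 h7 h8 using fun e => hP e e (Or.inl rfl)
  clear h4 h5 h6 h8 M2
  let pt : ι → ℕ → ℤ := fun e i =>
    ((VP e).getD (rk (G.s e)) 0 :: (M e ++ [(VP e).getD (rk (G.t e)) 0])).getD i 0
  let c : ι → ℕ → ℕ := fun e i => cell (VP e) (pt e i)
  have I : ∀ e, Itin (M e).length (c e) := fun e => itin_of (h3 e)
  have c0 : ∀ e, c e 0 = 2 * rk (G.s e) + 1 := fun e => cell_getD (h1 e) (h2 e ▸ hn _)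
  have c1 : ∀ e, c e ((M e).length + 1) = 2 * rk (G.t e) + 1 := fun e => by
    simp only [c, pt, getD_last]
    exact cell_getD (h1 e) (h2 e ▸ hn _)
  let ix : ι → ℕ := fun e => Fintype.equivFin ι e
  have ixi : Function.Injective ix := fun e e' h => (Fintype.equivFin ι).injective (Fin.ext h)
  let P : ι → ℕ → K := fun e => ppos (2 * n + 1) (sp e) (M e).length (c e) (ix e)
  have Pv : ∀ e i, c e i % 2 = 1 → P e i = vpos (c e i) := fun e i h => if_pos h
  let D : Sys ι V K := ⟨fun x => vpos (2 * rk x + 1), sp,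
    fun e => (List.range (M e).length).map fun i => P e (i + 1)⟩
  have path : ∀ e, D.path G e = (List.range ((M e).length + 2)).map (P e) := fun e => by
    rw [List.range_succ, List.range_succ_eq_map, List.map_append, List.map_cons, List.map_map,
      List.map_singleton, Pv e 0 (I e).fst, Pv e _ (I e).lst, c0, c1]
    rfl
  have mid : ∀ e y, y ∈ D.mid e → ∃ i, 1 ≤ i ∧ i ≤ (M e).length ∧ y = P e i := by
    intro e y hy
    obtain ⟨i, hi, rfl⟩ := List.mem_map.1 hy
    exact ⟨i + 1, by omega, List.mem_range.1 hi, rfl⟩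
  -- transfer of the order from a system of two elements
  have tr : ∀ e e' (p p' : ℕ → ℤ), NC (sp e) (M e).length p (sp e') (M e').length p' →
      (∀ i ≤ (M e).length + 1, ∀ j ≤ (M e').length + 1, (p i < p' j → P e i < P e' j) ∧
        (p' j < p i → P e' j < P e i) ∧ (p i = p' j → P e i = P e' j)) →
      NoCross (sp e) (D.path G e) (sp e') (D.path G e') := by
    intro e e' p p' nc h x hx y hy
    rw [path] at hx hy
    obtain ⟨i, hi, rfl⟩ := mem_chords_range.1 hx
    obtain ⟨j, hj, rfl⟩ := mem_chords_range.1 hy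
    have k : ∀ i ≤ (M e).length + 1, ∀ j ≤ (M e').length + 1,
        (p i < p' j ↔ P e i < P e' j) ∧ (p' j < p i ↔ P e' j < P e i) := by
      intro i hi j hj
      obtain ⟨a1, a2, a3⟩ := h i hi j hj
      refine ⟨⟨a1, fun a => ?_⟩, ⟨a2, fun a => ?_⟩⟩
      · rcases lt_trichotomy (p i) (p' j) with b | b | b
        · exact b
        · exact absurd (a3 b) a.ne
        · exact absurd (a2 b) a.not_gt
      · rcases lt_trichotomy (p i) (p' j) with b | b | b
        · exact absurd (a1 b) a.not_gt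
        · exact absurd (a3 b) a.ne'
        · exact b
    rw [← cross_transfer (k i (by omega) j (by omega)) (k i (by omega) (j + 1) (by omega))
      (k (i + 1) (by omega) j (by omega)) (k (i + 1) (by omega) (j + 1) (by omega))]
    exact nc i hi j hj
  have val : D.Valid G := by
    refine ⟨fun x y h => ?_, fun e => ?_, fun e e' he y hy hy' => ?_, fun e x hx => ?_,
      fun e he => ?_, fun e => ?_, fun e e' he => ?_⟩
    · have : 2 * rk x + 1 = 2 * rk y + 1 := congrArg (fun z : K => (ofLex z).1) h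
      exact hrk (by omega)
    · refine List.nodup_range.map_on fun i hi j hj h => ?_
      have := (ppos_inj ((I e).mid (i + 1) (by omega) (List.mem_range.1 hi)) h).2
      omega
    · obtain ⟨i, i1, i2, rfl⟩ := mid e y hy
      obtain ⟨j, -, -, h⟩ := mid e' _ hy'
      exact he (ixi (ppos_inj ((I e).mid i i1 i2) h).1)
    · obtain ⟨i, i1, i2, h⟩ := mid e _ hx
      have a : 2 * rk x + 1 = (ofLex (P e i)).1 := congrArg (fun z : K => (ofLex z).1) h
      rw [ppos_fst] at a
      have := (I e).mid i i1 i2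
      omega
    · simpa [D] using (h3 e).odd (by rw [he])
    · have nc : NC (sp e) (M e).length (pt e) (sp e) (M e).length (pt e) := nc_of (h3 e).self
      have inj : ∀ i j, 1 ≤ i → i ≤ (M e).length → 1 ≤ j → j ≤ (M e).length →
          pt e i = pt e j → i = j := by
        intro i j i1 i2 j1 j2 h
        simp only [pt, getD_mid _ _ _ i1 i2, getD_mid _ _ _ j1 j2] at h
        have := (h3 e).nodup.getElem_inj_iff.1 h
        omega
      have od : c e 0 = c e ((M e).length + 1) → (M e).length % 2 = 1 := fun h => by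
        rw [c0, c1] at h
        exact Nat.odd_iff.1 ((h3 e).odd (by rw [show rk (G.s e) = rk (G.t e) by omega]))
      have o := fun i j hi hj hlt => ord_same (vp := VP e) (I e) (fun _ _ => rfl) nc inj od
        (i := i) (j := j) hi hj hlt (ix e)
      rw [h2 e] at o
      refine tr e e (pt e) (pt e) nc fun i hi j hj => ⟨o i j hi hj, o j i hj hi, fun h => ?_⟩
      have a : c e i = c e j := by simp only [c, h]
      rcases Nat.mod_two_eq_zero_or_one (c e i) with b | b
      · obtain ⟨i1, i2⟩ := (I e).inner hi b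
        obtain ⟨j1, j2⟩ := (I e).inner hj (a ▸ b)
        rw [inj i j i1 i2 j1 j2 h]
      · rw [Pv e i b, Pv e j (a ▸ b), a]
    · obtain ⟨vp, m, m', g1, g2, g3, g4, g5, g6, g7, g8⟩ := hP e e' (Or.inr he)
      obtain ⟨n0, n1, n2⟩ := hp e e' he
      have ts : ∀ e, tsz (VP e) = tsz vp := fun e => by rw [tsz, tsz, h2, g2]
      have re : ∀ e (m : List ℤ),
          PathOK vp (sp e) (vp.getD (rk (G.s e)) 0) m (vp.getD (rk (G.t e)) 0) →
          (∀ i < tsz vp, cnt vp (sp e)
            (vp.getD (rk (G.s e)) 0 :: (m ++ [vp.getD (rk (G.t e)) 0])) i = (w e).getD i 0) →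
          m.length = (M e).length ∧ ∀ i ≤ m.length + 1, cell vp
            ((vp.getD (rk (G.s e)) 0 :: (m ++ [vp.getD (rk (G.t e)) 0])).getD i 0) = c e i := by
        intro e m a1 a2
        refine cells_eq (hU vp (VP e) (sp e) _ _ m (M e) g1 (h1 e) (g2.trans (h2 e).symm)
          (g2 ▸ hn _) (g2 ▸ hn _) a1 (h3 e) fun k hk => ?_) ?_ ?_
        · rw [a2 k hk, h7 e k (ts e ▸ hk)]
        · rw [cell_getD g1 (g2 ▸ hn _), cell_getD (h1 e) (h2 e ▸ hn _)]
        · rw [cell_getD g1 (g2 ▸ hn _), cell_getD (h1 e) (h2 e ▸ hn _)]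
      obtain ⟨l1, R⟩ := re e m g3 g7
      obtain ⟨l2, R'⟩ := re e' m' g4 g8
      have nc := nc_of g6
      have ne : ∀ i j, 1 ≤ i → i ≤ m.length → 1 ≤ j → j ≤ m'.length →
          (vp.getD (rk (G.s e)) 0 :: (m ++ [vp.getD (rk (G.t e)) 0])).getD i 0 ≠
          (vp.getD (rk (G.s e')) 0 :: (m' ++ [vp.getD (rk (G.t e')) 0])).getD j 0 := by
        intro i j i1 i2 j1 j2 h
        rw [getD_mid _ _ _ i1 i2, getD_mid _ _ _ j1 j2] at h
        exact g5 n0 _ (List.getElem_mem _) (by rw [h]; exact List.getElem_mem _)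
      rw [l1] at R
      rw [l2] at R'
      rw [l1, l2] at nc ne
      have d1 : ¬ (c e 0 = c e' 0 ∧ c e ((M e).length + 1) = c e' ((M e').length + 1)) := by
        rw [c0, c0, c1, c1]
        exact fun h => n1 ⟨hrk (by omega), hrk (by omega)⟩
      have d2 : ¬ (c e 0 = c e' ((M e').length + 1) ∧ c e ((M e).length + 1) = c e' 0) := by
        rw [c0, c0, c1, c1]
        exact fun h => n2 ⟨hrk (by omega), hrk (by omega)⟩
      have o := fun i j hi hj hlt => ord_diff (I e) (I e') R R' nc ne d1 d2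
        (i := i) (j := j) hi hj hlt (ix e) (ix e')
      have o' := fun i j hi hj hlt => ord_diff (I e') (I e) R' R nc.symm
        (fun i j i1 i2 j1 j2 => (ne j i j1 j2 i1 i2).symm) (fun h => d1 ⟨h.1.symm, h.2.symm⟩)
        (fun h => d2 ⟨h.2.symm, h.1.symm⟩) (i := i) (j := j) hi hj hlt (ix e') (ix e)
      rw [g2] at o o'
      refine tr e e' _ _ nc fun i hi j hj => ⟨o i j hi hj, o' j i hj hi, fun h => ?_⟩
      have a : c e i = c e' j := by rw [← R i hi, ← R' j hj]; exact congrArg _ h
      rcases Nat.mod_two_eq_zero_or_one (c e i) with b | b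
      · obtain ⟨i1, i2⟩ := (I e).inner hi b
        obtain ⟨j1, j2⟩ := (I e').inner hj (a ▸ b)
        exact absurd h (ne i j i1 i2 j1 j2)
      · rw [Pv e i b, Pv e' j (a ▸ b), a]
  obtain ⟨ρ, S, -, -, -, -, -, r1, r2, r3, -⟩ := Sys.toInt hs val ∅
  refine ⟨D.map ρ, r1, fun x y => ?_, fun e x => ?_⟩
  · rw [← r2 x y]
    change vpos _ < vpos _ ↔ _
    rw [vpos_lt]
    omega
  · rw [r3, Sys.cv, path, ← h2 e]
    exact cov_eq (h7 e) (rk x) fun i _ => vpos_lt_ppos

end Pool.Agent.MP_17db17_lc.H93
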