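import Pool.Agent.MP_17db17_lc.H93.Spec
import Pool.Agent.Shared.H56.More

/-!
The gadget and the verifier are computable in polynomial time.
-/

set_option autoImplicit false

namespace Pool.Agent.MP_17db17_lc.H93

open Pool.Agent.Shared.H56 Pool.Agent.Shared.H27

namespace Gpt

variable {α : Type} [N487b59b3 α]

theorem un_rep {n : α → ℕ} (hn : PT fun a => un (n a)) :
    ∃ u : α → List Bool, PT u ∧ n = fun a => (u a).length :=
  ⟨_, hn, funext fun _ => (length_un _).symm⟩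

/-! ### The gadget -/

@[fun_prop] theorem pt_gOm {l : α → ℕ} (hl : PT l) : PT fun a => gOm (l a) := by
  unfold gOm
  fun_prop

@[fun_prop] theorem pt_gZ {l e j : α → ℕ} (hl : PT l) (he : PT e) (hj : PT j) :
    PT fun a => gZ (l a) (e a) (j a) := by
  unfold gZ
  fun_prop

@[fun_prop] theorem pt_gM {l e j : α → ℕ} (hl : PT l) (he : PT e) (hj : PT j) :
    PT fun a => gM (l a) (e a) (j a) := by
  unfold gM
  fun_prop

@[fun_prop] theorem pt_gEdges {E : α → List (ℕ × ℕ)} (hE : PT E) : PT fun a => gEdges (E a) := by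
  obtain ⟨R, h, e⟩ : ∃ R : α → List ℕ, PT R ∧ ∀ a, List.range (gOm (E a).length) = R a :=
    ⟨_, by unfold gOm; fun_prop, fun _ => rfl⟩
  unfold gEdges
  simp only [e]
  fun_prop

@[fun_prop] theorem pt_gMat {E : α → List (ℕ × ℕ)} (hE : PT E) : PT fun a => gMat (E a) := by
  obtain ⟨R, h, e⟩ : ∃ R : α → List ℕ, PT R ∧ ∀ a, List.range (gN (E a).length) = R a :=
    ⟨_, by unfold gN gOm; fun_prop, fun _ => rfl⟩
  unfold gMat
  simp only [e]
  fun_prop

/-! ### The verifier -/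

@[fun_prop] theorem pt_cell {vp : α → List ℤ} {p : α → ℤ} (h1 : PT vp) (h2 : PT p) :
    PT fun a => cell (vp a) (p a) := by
  unfold cell
  fun_prop

@[fun_prop] theorem pt_code {C c c' : α → ℕ} {π : α → Bool} (h1 : PT C) (h2 : PT π) (h3 : PT c)
    (h4 : PT c') : PT fun a => code (C a) (π a) (c a) (c' a) := by
  unfold code
  fun_prop

theorem pt_tsz {vp : α → List ℤ} (h1 : PT vp) :
    ∃ R : α → List ℕ, PT R ∧ ∀ a, List.range (tsz (vp a)) = R a :=
  ⟨_, by unfold tsz; fun_prop, fun _ => rfl⟩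

@[fun_prop] theorem pt_cvOf {n j : α → ℕ} {w : α → List ℕ} (h1 : PT fun a => un (n a)) (h2 : PT w)
    (h3 : PT j) : PT fun a => cvOf (n a) (w a) (j a) := by
  obtain ⟨u, hu, rfl⟩ := un_rep h1
  unfold cvOf
  fun_prop

@[fun_prop] theorem pt_leV {vp : α → List ℤ} {x y : α → ℤ} (h1 : PT vp) (h2 : PT x) (h3 : PT y) :
    PT fun a => leV (vp a) (x a) (y a) := by
  unfold leV
  fun_prop

@[fun_prop] theorem pt_blockOK {vp : α → List ℤ} {k : α → Block} (h1 : PT vp) (h2 : PT k) :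
    PT fun a => blockOK (vp a) (k a) := by
  unfold blockOK
  fun_prop

@[fun_prop] theorem pt_blockPair {vp : α → List ℤ} {k k' : α → Block} (h1 : PT vp) (h2 : PT k)
    (h3 : PT k') : PT fun a => blockPair (vp a) (k a) (k' a) := by
  unfold blockPair
  fun_prop

@[fun_prop] theorem pt_blocksOK {vp : α → List ℤ} {B : α → List Block} (h1 : PT vp) (h2 : PT B) :
    PT fun a => blocksOK (vp a) (B a) := by
  unfold blocksOK
  fun_prop

@[fun_prop] theorem pt_basicF {vp : α → List ℤ} {k : α → Block} (h1 : PT vp) (h2 : PT k) :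
    PT fun a => basicF (vp a) (k a) := by
  obtain ⟨R, h, e⟩ := pt_tsz h1
  unfold basicF
  simp only [e]
  fun_prop

@[fun_prop] theorem pt_trIdx {C j : α → ℕ} (h1 : PT C) (h2 : PT j) :
    PT fun a => trIdx (C a) (j a) := by
  unfold trIdx
  fun_prop

@[fun_prop] theorem pt_swapF {vp : α → List ℤ} {φ : α → Fact} (h1 : PT vp) (h2 : PT φ) :
    PT fun a => swapF (vp a) (φ a) := by
  obtain ⟨R, h, e⟩ := pt_tsz h1
  unfold swapF
  simp only [e]
  fun_prop

@[fun_prop] theorem pt_subF {φ : α → Fact} {o δ : α → ℤ} {L : α → ℕ} (h1 : PT φ) (h2 : PT o)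
    (h3 : PT δ) (h4 : PT L) : PT fun a => subF (φ a) (o a) (δ a) (L a) := by
  unfold subF
  fun_prop

@[fun_prop] theorem pt_subOK {φ : α → Fact} {o δ : α → ℤ} {L : α → ℕ} (h1 : PT φ) (h2 : PT o)
    (h3 : PT δ) (h4 : PT L) : PT fun a => subOK (φ a) (o a) (δ a) (L a) := by
  unfold subOK
  fun_prop

@[fun_prop] theorem pt_compF {vp : α → List ℤ} {φ ψ : α → Fact} (h1 : PT vp) (h2 : PT φ)
    (h3 : PT ψ) : PT fun a => compF (vp a) (φ a) (ψ a) := by
  obtain ⟨R, h, e⟩ := pt_tsz h1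
  unfold compF
  simp only [e]
  fun_prop

@[fun_prop] theorem pt_compOK {φ ψ : α → Fact} (h2 : PT φ) (h3 : PT ψ) :
    PT fun a => compOK (φ a) (ψ a) := by
  unfold compOK
  fun_prop

@[fun_prop] theorem pt_stepOK {vp : α → List ℤ} {B : α → List Block} {P : α → List Entry}
    {x : α → Entry} (h1 : PT vp) (h2 : PT B) (h3 : PT P) (h4 : PT x) :
    PT fun a => stepOK (vp a) (B a) (P a) (x a) := by
  unfold stepOK
  fun_prop

@[fun_prop] theorem pt_derivOK {vp : α → List ℤ} {B : α → List Block} {Γ : α → List Entry}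
    (h1 : PT vp) (h2 : PT B) (h3 : PT Γ) : PT fun a => derivOK (vp a) (B a) (Γ a) := by
  unfold derivOK
  fun_prop

@[fun_prop] theorem pt_finalOK {vp : α → List ℤ} {Γ : α → List Entry} {b : α → Bool}
    {u v : α → ℤ} {w : α → List ℕ} (h1 : PT vp) (h2 : PT Γ) (h3 : PT b) (h4 : PT u) (h5 : PT v)
    (h6 : PT w) : PT fun a => finalOK (vp a) (Γ a) (b a) (u a) (v a) (w a) := by
  obtain ⟨R, h, e⟩ := pt_tsz h1
  unfold finalOK
  simp only [e]
  fun_prop

@[fun_prop] theorem pt_EL {A : α → List (List Bool)} (h : PT A) : PT fun a => EL (A a) := by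
  unfold EL
  fun_prop

@[fun_prop] theorem pt_sN {n e : α → ℕ} {E : α → List (ℕ × ℕ)} (h1 : PT n) (h2 : PT E)
    (h3 : PT e) : PT fun a => sN (n a) (E a) (e a) := by
  unfold sN
  fun_prop

@[fun_prop] theorem pt_tN {n e : α → ℕ} {E : α → List (ℕ × ℕ)} (h1 : PT n) (h2 : PT E)
    (h3 : PT e) : PT fun a => tN (n a) (E a) (e a) := by
  unfold tN
  fun_prop

@[fun_prop] theorem pt_adjN {e e' : α → ℕ} {E : α → List (ℕ × ℕ)} (h1 : PT E) (h2 : PT e)
    (h3 : PT e') : PT fun a => adjN (E a) (e a) (e' a) := by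
  unfold adjN
  fun_prop

@[fun_prop] theorem pt_HN {e e' : α → ℕ} {E : α → List (ℕ × ℕ)} {hs : α → List (List ℕ × List ℕ)}
    (h1 : PT E) (h0 : PT hs) (h2 : PT e) (h3 : PT e') :
    PT fun a => HN (E a) (hs a) (e a) (e' a) := by
  unfold HN
  fun_prop

@[fun_prop] theorem pt_pairOK {n u v u' v' : α → ℕ} {pc : α → PC} {b b' : α → Bool}
    {w w' : α → List ℕ} (h1 : PT fun a => un (n a)) (h2 : PT pc) (h3 : PT b) (h4 : PT u)
    (h5 : PT v) (h6 : PT w) (h7 : PT b') (h8 : PT u') (h9 : PT v') (h10 : PT w') :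
    PT fun a => pairOK (n a) (pc a) (b a) (u a) (v a) (w a) (b' a) (u' a) (v' a) (w' a) := by
  obtain ⟨U, hU, rfl⟩ := un_rep h1
  unfold pairOK
  fun_prop

@[fun_prop] theorem pt_indN {z p : α → ℕ} (h1 : PT z) (h2 : PT p) :
    PT fun a => indN (z a) (p a) := by
  unfold indN
  fun_prop

@[fun_prop] theorem pt_cvC {n e x : α → ℕ} {c : α → Crt} (h1 : PT fun a => un (n a)) (h2 : PT c)
    (h3 : PT e) (h4 : PT x) : PT fun a => cvC (n a) (c a) (e a) (x a) := by
  unfold cvC
  exact pt_cvOf h1 (by fun_prop) (by fun_prop)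

@[fun_prop] theorem pt_algC {n f g : α → ℕ} {E : α → List (ℕ × ℕ)} {c : α → Crt}
    (h1 : PT fun a => un (n a)) (h2 : PT E) (h3 : PT c) (h4 : PT f) (h5 : PT g) :
    PT fun a => algC (n a) (E a) (c a) (f a) (g a) := by
  obtain ⟨U, hU, rfl⟩ := un_rep h1
  unfold algC
  fun_prop

theorem pt_check {n k : α → ℕ} {E : α → List (ℕ × ℕ)} {c : α → Crt}
    (h1 : PT fun a => un (n a)) (h2 : PT E) (h3 : PT k) (h4 : PT c) :
    PT fun a => check (n a) (E a) (k a) (c a) := by
  obtain ⟨U, hU, rfl⟩ := un_rep h1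
  have key : PT fun a => (List.range (c a).1.length).all fun j =>
      (List.range ((E a).length + min j (c a).1.length)).all fun e =>
        !decide (e ∈ ((c a).1.getD j ([], [])).1) || (!decide (e ∈ ((c a).1.getD j ([], [])).2) &&
          (List.range ((E a).length + min j (c a).1.length)).all fun e' =>
            !HN (E a) (c a).1 e e' || decide (e' ∈ ((c a).1.getD j ([], [])).1) ||
              decide (e' ∈ ((c a).1.getD j ([], [])).2)) := by
    fun_prop
  unfold check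
  refine PT.and (PT.and (PT.and (by fun_prop) (key.congr fun a => ?_)) (by fun_prop)) (by fun_prop)
  rw [Bool.eq_iff_iff, List.all_eq_true, List.all_eq_true]
  refine forall₂_congr fun j hj => ?_
  rw [min_eq_left (List.mem_range.1 hj).le]

end Gpt

open Gpt

theorem gpt : GadPTStmt := by
  unfold GadPTStmt gK
  fun_prop

theorem vpt : VerPTStmt :=
  pt_check (by fun_prop) (by fun_prop) (by fun_prop) (by fun_prop)

end Pool.Agent.MP_17db17_lc.H93
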