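import Pool.Agent.MP_17db17_lc.H93.Spec

set_option autoImplicit false

namespace Pool.Agent.MP_17db17_lc.H93

namespace Gup

/-- place of a slot on the spine -/
def PP (s : ℕ) : ℕ :=
  [17, 7, 13, 3, 20, 5, 0, 18, 12, 16, 21, 14, 8, 9, 15, 4, 2, 22, 19, 11, 6, 1, 10].getD s 0

/-- page of the first half of a bundle -/
def pgH (h : ℕ) : Bool :=
  [true, true, false, false, false, false, true, false, true, false, false, true].getD h false

/-- page of an edge between two slots -/
def pageS (a b : ℕ) : Bool :=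
  if 8 ≤ b ∧ b < 20 then
    (if a = (bund.getD (b - 8) (0, 0)).1 then pgH (b - 8) else !pgH (b - 8))
  else !(decide ((a = 20 ∧ b = 22) ∨ (a = 22 ∧ b = 20)))

def btw (a b z : ℕ) : Prop := (a ≤ z ∧ z ≤ b) ∨ (b ≤ z ∧ z ≤ a)

def out (a b z : ℕ) : Prop := (z ≤ a ∧ z ≤ b) ∨ (a ≤ z ∧ b ≤ z)

/-- edges between the slots `a b` and `c d` may cross -/
def W (a b c d : ℕ) : Prop :=
  pageS a b = pageS c d ∧ ((btw (PP a) (PP b) (PP c) ∧ out (PP a) (PP b) (PP d)) ∨
    (out (PP a) (PP b) (PP c) ∧ btw (PP a) (PP b) (PP d)))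

instance (a b c d : ℕ) : Decidable (W a b c d) := by unfold W btw out; infer_instance

/-- end of a half of a bundle -/
def bE (h : ℕ) (i : Bool) : ℕ := if i then (bund.getD h (0, 0)).1 else (bund.getD h (0, 0)).2

def uu (s : ℕ) : ℕ := if s = 1 then 3 else if s = 2 then 1 else 4

def hh (s : ℕ) : ℕ := if s = 1 then 4 else if s = 2 then 3 else 5

lemma bE_lt : ∀ h < 12, ∀ i, bE h i < 8 := by decide

lemma ff : ∀ h < 12, ∀ h' < 12, ∀ i i', bE h i ≠ bE h' i' →
    ¬ W (bE h i) (8 + h) (bE h' i') (8 + h') := by decide +kernel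

lemma fl : ∀ h < 12, ∀ i, ∀ k k' : Fin 3, W (bE h i) (8 + h) (20 + k) (20 + k') →
    k ≠ k' ∧ bE h i = uu (k + k') ∧ h = hh (k + k') := by decide +kernel

lemma ft : ∀ h < 12, ∀ i, ∀ k : Fin 3, bE h i ≠ 5 + k →
    ¬ W (bE h i) (8 + h) (5 + k) (20 + k) ∧ ¬ W (5 + k) (20 + k) (bE h i) (8 + h) := by
  decide +kernel

/-- the slot of a vertex -/
def slot (E : List (ℕ × ℕ)) (lab : ℕ → Fin 3) (v : ℕ) : ℕ :=
  if v < 8 then v else if v < 8 + 2 * E.length then 20 + lab (v - 5) else
  if v < 8 + 4 * E.length then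
    (if (v - (8 + 2 * E.length)) % 2 = 0 then
      20 + lab (E.getD ((v - (8 + 2 * E.length)) / 2) (0, 0)).1
     else 20 + lab (E.getD ((v - (8 + 2 * E.length)) / 2) (0, 0)).2)
  else 8 + (v - (8 + 4 * E.length)) % 12

variable {E : List (ℕ × ℕ)} {lab : ℕ → Fin 3}

lemma slot_fr {u : ℕ} (h : u < 8) : slot E lab u = u := by simp [slot, h]

lemma slot_M {h : ℕ} (hh : h < 12) (r : ℕ) : slot E lab (gM E.length h r) = 8 + h := by
  unfold slot gM
  rw [if_neg (by omega), if_neg (by omega), if_neg (by omega)]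
  omega

lemma slot_Z0 {e : ℕ} (he : e < E.length) :
    slot E lab (gZ E.length e 0) = 20 + lab (E.getD e (0, 0)).1 := by
  unfold slot gZ
  rw [if_neg (by omega), if_neg (by omega), if_pos (by omega), if_pos (by omega)]
  have : (8 + 2 * E.length + 2 * e + 0 - (8 + 2 * E.length)) / 2 = e := by omega
  rw [this]

lemma slot_Z1 {e : ℕ} (he : e < E.length) :
    slot E lab (gZ E.length e 1) = 20 + lab (E.getD e (0, 0)).2 := by
  unfold slot gZ
  rw [if_neg (by omega), if_neg (by omega), if_pos (by omega), if_neg (by omega)]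
  have : (8 + 2 * E.length + 2 * e + 1 - (8 + 2 * E.length)) / 2 = e := by omega
  rw [this]

lemma slot_cut (h0 : lab 0 = 0) (h1 : lab 1 = 1) (h2 : lab 2 = 2) {a : ℕ}
    (ha : a < 3 + 2 * E.length) :
    (slot E lab (5 + a) = 5 + lab a ∧ 5 + a = 5 + (lab a : ℕ)) ∨
      (slot E lab (5 + a) = 20 + lab a ∧ 8 ≤ 5 + a) := by
  by_cases h : a < 3
  · left
    have : a = (lab a : ℕ) := by
      obtain rfl | rfl | rfl : a = 0 ∨ a = 1 ∨ a = 2 := by omega
      · rw [h0]; rfl
      · rw [h1]; rfl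
      · rw [h2]; rfl
    rw [slot_fr (by omega)]
    omega
  · right
    unfold slot
    rw [if_neg (by omega), if_pos (by omega)]
    have : 5 + a - 5 = a := by omega
    rw [this]
    omega

/-- the light edges -/
def Lt (E : List (ℕ × ℕ)) : List (ℕ × ℕ) :=
  (List.range E.length).flatMap fun e =>
    [(5 + (E.getD e (0, 0)).1, gZ E.length e 0), (gZ E.length e 0, gZ E.length e 1),
      (5 + (E.getD e (0, 0)).2, gZ E.length e 1)]

lemma Lt_len : (Lt E).length = 3 * E.length := by
  simp [Lt, List.length_flatMap, mul_comm]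

lemma mem_Lt {p : ℕ × ℕ} (h : p ∈ Lt E) : ∃ e < E.length,
    p = (5 + (E.getD e (0, 0)).1, gZ E.length e 0) ∨ p = (gZ E.length e 0, gZ E.length e 1) ∨
      p = (5 + (E.getD e (0, 0)).2, gZ E.length e 1) := by
  unfold Lt at h
  obtain ⟨e, he, hp⟩ := List.mem_flatMap.1 h
  refine ⟨e, List.mem_range.1 he, ?_⟩
  simpa only [List.mem_cons, List.not_mem_nil, or_false] using hp

lemma mem_edges {p : ℕ × ℕ} (h : p ∈ gEdges E) : p ∈ Lt E ∨
    ∃ r < gOm E.length, ∃ h < 12, ∃ i, p = (bE h i, gM E.length h r) := by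
  unfold gEdges at h
  rcases List.mem_append.1 h with h | h
  · exact Or.inl h
  · right
    obtain ⟨r, hr, h⟩ := List.mem_flatMap.1 h
    obtain ⟨k, hk, h⟩ := List.mem_flatMap.1 h
    refine ⟨r, List.mem_range.1 hr, k, List.mem_range.1 hk, ?_⟩
    simp only [List.mem_cons, List.not_mem_nil, or_false] at h
    rcases h with h | h
    · exact ⟨true, h⟩
    · exact ⟨false, h⟩

lemma getD_bd (hE : ∀ p ∈ E, p.1 < 3 + 2 * E.length ∧ p.2 < 3 + 2 * E.length) {e : ℕ}
    (he : e < E.length) :
    (E.getD e (0, 0)).1 < 3 + 2 * E.length ∧ (E.getD e (0, 0)).2 < 3 + 2 * E.length := by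
  rw [List.getD_eq_getElem _ _ he]
  exact hE _ (List.getElem_mem he)

lemma edges_lt (hE : ∀ p ∈ E, p.1 < 3 + 2 * E.length ∧ p.2 < 3 + 2 * E.length) {p : ℕ × ℕ}
    (h : p ∈ gEdges E) : p.1 < p.2 := by
  rcases mem_edges h with h | ⟨r, -, k, hk, i, rfl⟩
  · obtain ⟨e, he, h⟩ := mem_Lt h
    have := getD_bd hE he
    rcases h with rfl | rfl | rfl <;> simp only [gZ] <;> omega
  · have := bE_lt k hk i
    simp only [gM]
    omega

lemma gMat_len : (gMat E).length = gN E.length := by simp [gMat]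

lemma rel_iff {i j : ℕ} (h : ((gMat E).getD i []).getD j false = true) : (i, j) ∈ gEdges E := by
  by_cases hi : i < gN E.length
  · have h1 : (gMat E).getD i [] =
        (List.range (gN E.length)).map fun j => decide ((i, j) ∈ gEdges E) := by
      unfold gMat
      rw [List.getD_eq_getElem _ _ (by simpa using hi)]
      simp only [List.getElem_map, List.getElem_range]
    rw [h1] at h
    by_cases hj : j < gN E.length
    · rw [List.getD_eq_getElem _ _ (by simpa using hj)] at h
      simpa only [List.getElem_map, List.getElem_range, decide_eq_true_eq] using h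
    · rw [List.getD_eq_default _ _ (by simpa using hj)] at h
      exact absurd h (by simp)
  · have h1 : (gMat E).getD i [] = [] := List.getD_eq_default _ _ (by rw [gMat_len]; omega)
    rw [h1] at h
    simp at h

lemma edge_mem (hE : ∀ p ∈ E, p.1 < 3 + 2 * E.length ∧ p.2 < 3 + 2 * E.length)
    (e : Edge (graphOf (gMat E))) : ((e.1.1 : ℕ), (e.1.2 : ℕ)) ∈ gEdges E := by
  obtain ⟨⟨i, j⟩, hlt, hadj⟩ := e
  unfold graphOf at hadj
  rw [SimpleGraph.fromRel_adj] at hadj
  rcases hadj.2 with h | h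
  · exact rel_iff h
  · have := edges_lt hE (rel_iff h)
    have h2 : (i : ℕ) < j := hlt
    simp only at this
    omega

/-- the indices of the cut edges -/
def cut (E : List (ℕ × ℕ)) (lab : ℕ → Fin 3) : Finset ℕ :=
  (Finset.range E.length).filter fun e => lab (E.getD e (0, 0)).1 ≠ lab (E.getD e (0, 0)).2

lemma cut_card : (cut E lab).card = (E.filter fun p => decide (lab p.1 ≠ lab p.2)).length := by
  have h : E = (List.range E.length).map fun e => E.getD e (0, 0) := by
    apply List.ext_getElem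
    · simp
    · intro i h1 h2
      simp only [List.getElem_map, List.getElem_range]
      rw [List.getD_eq_getElem _ _ h1]
  conv_rhs => rw [h, List.filter_map, List.length_map]
  unfold cut
  rw [← List.toFinset_card_of_nodup (List.nodup_range.filter _)]
  congr 1
  ext e
  simp

/-- the frame edge that crosses the middle of a cut edge -/
def phi (E : List (ℕ × ℕ)) (lab : ℕ → Fin 3) (x : ℕ × ℕ) : (ℕ × ℕ) × (ℕ × ℕ) :=
  ((uu (lab (E.getD x.1 (0, 0)).1 + lab (E.getD x.1 (0, 0)).2),
    gM E.length (hh (lab (E.getD x.1 (0, 0)).1 + lab (E.getD x.1 (0, 0)).2)) x.2),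
    (gZ E.length x.1 0, gZ E.length x.1 1))

/-- the pairs of edges that may cross -/
def T (E : List (ℕ × ℕ)) (lab : ℕ → Fin 3) : Finset ((ℕ × ℕ) × (ℕ × ℕ)) :=
  ((cut E lab ×ˢ Finset.range (gOm E.length)).image (phi E lab)) ∪
    ((Lt E).toFinset ×ˢ (Lt E).toFinset)

lemma T_card {κ : ℕ} (h : (E.filter fun p => decide (lab p.1 ≠ lab p.2)).length ≤ κ) :
    (T E lab).card ≤ gK E κ := by
  unfold T gK
  refine (Finset.card_union_le _ _).trans (add_le_add ?_ ?_)
  · refine Finset.card_image_le.trans ?_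
    rw [Finset.card_product, Finset.card_range, cut_card, mul_comm]
    exact Nat.mul_le_mul_left _ h
  · rw [Finset.card_product]
    have h1 : (Lt E).toFinset.card ≤ 3 * E.length := Lt_len ▸ List.toFinset_card_le _
    calc _ ≤ (3 * E.length) * (3 * E.length) := Nat.mul_le_mul h1 h1
      _ = _ := by ring

lemma key (hE : ∀ p ∈ E, p.1 < 3 + 2 * E.length ∧ p.2 < 3 + 2 * E.length)
    (h0 : lab 0 = 0) (h1 : lab 1 = 1) (h2 : lab 2 = 2) {p q : ℕ × ℕ} (hp : p ∈ gEdges E)
    (hq : q ∈ gEdges E) (hlt : p.1 < q.1)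
    (hW : W (slot E lab p.1) (slot E lab p.2) (slot E lab q.1) (slot E lab q.2)) :
    (p, q) ∈ T E lab := by
  unfold T
  rw [Finset.mem_union]
  rcases mem_edges hp with hp | ⟨r, hr, k, hk, i, rfl⟩
  · rcases mem_edges hq with hq | ⟨r', -, k', hk', i', rfl⟩
    · right
      simp only [Finset.mem_product, List.mem_toFinset]
      exact ⟨hp, hq⟩
    · exfalso
      have hb := bE_lt k' hk' i'
      simp only at hW hlt
      rw [slot_fr hb, slot_M hk'] at hW
      obtain ⟨e, he, h⟩ := mem_Lt hp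
      have hg := getD_bd hE he
      rcases h with rfl | rfl | rfl
      · simp only at hW hlt
        rw [slot_Z0 he] at hW
        rcases slot_cut h0 h1 h2 hg.1 with ⟨h3, h4⟩ | ⟨-, h4⟩
        · rw [h3] at hW
          exact (ft k' hk' i' _ (by omega)).2 hW
        · omega
      · simp only [gZ] at hlt
        omega
      · simp only at hW hlt
        rw [slot_Z1 he] at hW
        rcases slot_cut h0 h1 h2 hg.2 with ⟨h3, h4⟩ | ⟨-, h4⟩
        · rw [h3] at hW
          exact (ft k' hk' i' _ (by omega)).2 hW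
        · omega
  · have hb := bE_lt k hk i
    simp only at hW hlt
    rw [slot_fr hb, slot_M hk] at hW
    rcases mem_edges hq with hq | ⟨r', -, k', hk', i', rfl⟩
    · obtain ⟨e, he, h⟩ := mem_Lt hq
      have hg := getD_bd hE he
      rcases h with rfl | rfl | rfl
      · exfalso
        simp only at hW hlt
        rw [slot_Z0 he] at hW
        rcases slot_cut h0 h1 h2 hg.1 with ⟨h3, h4⟩ | ⟨h3, -⟩
        · rw [h3] at hW
          exact (ft k hk i _ (by omega)).1 hW
        · rw [h3] at hW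
          exact (fl k hk i _ _ hW).1 rfl
      · left
        simp only at hW
        rw [slot_Z0 he, slot_Z1 he] at hW
        obtain ⟨h3, h4, h5⟩ := fl k hk i _ _ hW
        refine Finset.mem_image.2 ⟨(e, r), ?_, ?_⟩
        · simp only [Finset.mem_product, cut, Finset.mem_filter, Finset.mem_range]
          exact ⟨⟨he, h3⟩, hr⟩
        · simp only [phi]
          rw [← h4, ← h5]
      · exfalso
        simp only at hW hlt
        rw [slot_Z1 he] at hW
        rcases slot_cut h0 h1 h2 hg.2 with ⟨h3, h4⟩ | ⟨h3, -⟩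
        · rw [h3] at hW
          exact (ft k hk i _ (by omega)).1 hW
        · rw [h3] at hW
          exact (fl k hk i _ _ hW).1 rfl
    · exfalso
      have hb' := bE_lt k' hk' i'
      simp only at hW hlt
      rw [slot_fr hb', slot_M hk'] at hW
      exact ff k hk k' hk' i i' (by omega) hW

lemma sum_le {ι β : Type} [Fintype ι] (emb : ι → β) (hinj : Function.Injective emb)
    (S : Finset (β × β)) (c : ι → ι → ℕ) (hc : ∀ f g, c f g ≤ 1)
    (hT : ∀ f g, c f g ≠ 0 → (emb f, emb g) ∈ S) : ∑ f, ∑ g, c f g ≤ S.card := by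
  classical
  rw [← Finset.sum_product']
  rw [← Finset.sum_filter_ne_zero]
  refine (Finset.sum_le_card_nsmul _ _ 1 fun x _ => hc _ _).trans ?_
  rw [smul_eq_mul, mul_one]
  refine Finset.card_le_card_of_injOn (fun x => (emb x.1, emb x.2)) ?_ ?_
  · intro x hx
    exact hT _ _ (Finset.mem_filter.1 hx).2
  · intro x _ y _ h
    simp only [Prod.mk.injEq] at h
    exact Prod.ext (hinj h.1) (hinj h.2)

/-- the value of `alg` for two chords -/
def alg2 (p q : Bool) (a b c d : ℤ) : ℤ :=
  cov true q [c, d] b - cov true q [c, d] a - cov true p [a, b] d + cov true p [a, b] c +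
    (ind d b - ind d a) - (ind c b - ind c a)

lemma alg2_le (p q : Bool) (a b c d : ℤ) (h1 : a ≠ c) (h2 : a ≠ d) (h3 : b ≠ c) (h4 : b ≠ d) :
    (alg2 p q a b c d).natAbs ≤ 1 ∧
      ((alg2 p q a b c d).natAbs ≠ 0 → Cross (p, a, b) (q, c, d)) := by
  unfold alg2 cov covL chords chords Cross Btw Out ind
  cases p <;> cases q <;>
    simp only [List.map_cons, List.map_nil, List.sum_cons, List.sum_nil, if_true,
      Bool.false_eq_true, if_false, Bool.true_eq_false, true_and, false_and] <;>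
    split_ifs <;> omega

lemma mono {N a b u v : ℕ} (hu : u < N) (hv : v < N)
    (h : ((a * N + u : ℕ) : ℤ) < ((b * N + v : ℕ) : ℤ)) : a ≤ b := by
  have h' : a * N + u < b * N + v := by exact_mod_cast h
  by_contra hab
  have : (b + 1) * N ≤ a * N := Nat.mul_le_mul_right _ (by omega)
  rw [add_mul, one_mul] at this
  omega

/-- the book drawing -/
def sys (E : List (ℕ × ℕ)) (lab : ℕ → Fin 3) :
    Sys (Edge (graphOf (gMat E))) (Fin (gMat E).length) ℤ where
  pos v := ((PP (slot E lab v) * (gMat E).length + v : ℕ) : ℤ)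
  sp e := pageS (slot E lab e.1.1) (slot E lab e.1.2)
  mid _ := []

lemma pos_inj : Function.Injective (sys E lab).pos := by
  intro u v h
  have h' : PP (slot E lab u) * (gMat E).length + u = PP (slot E lab v) * (gMat E).length + v := by
    exact Nat.cast_injective (R := ℤ) h
  have h2 := congrArg (· % (gMat E).length) h'
  simp only [Nat.mul_add_mod_self_right, Nat.mod_eq_of_lt u.2, Nat.mod_eq_of_lt v.2] at h2
  exact Fin.ext h2

lemma valid : (sys E lab).Valid (grE (graphOf (gMat E))) where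
  inj := pos_inj
  nodup _ := List.nodup_nil
  disj _ _ _ _ h := absurd h List.not_mem_nil
  notV _ _ := List.not_mem_nil
  odd e h := absurd h (ne_of_lt e.2.1)
  self e c hc d hd := by
    have hc' : c = _ := List.mem_singleton.1 hc
    have hd' : d = _ := List.mem_singleton.1 hd
    rw [hc', hd']
    unfold Cross Btw Out
    simp only
    omega
  adj e e' h c hc d hd := by
    have hc' : c = _ := List.mem_singleton.1 hc
    have hd' : d = _ := List.mem_singleton.1 hd
    rw [hc', hd']
    obtain ⟨-, x, hx, hx'⟩ := h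
    unfold Cross Btw Out
    simp only
    rcases hx with hx | hx <;> rcases hx' with hx' | hx' <;>
      have := congrArg (sys E lab).pos (hx.symm.trans hx') <;>
      simp only [grE] <;> omega

lemma cross_W {f g : Edge (graphOf (gMat E))}
    (h : Cross ((sys E lab).sp f, (sys E lab).pos f.1.1, (sys E lab).pos f.1.2)
      ((sys E lab).sp g, (sys E lab).pos g.1.1, (sys E lab).pos g.1.2)) :
    W (slot E lab f.1.1) (slot E lab f.1.2) (slot E lab g.1.1) (slot E lab g.1.2) := by
  have m : ∀ u v : Fin (gMat E).length, (sys E lab).pos u < (sys E lab).pos v →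
      PP (slot E lab u) ≤ PP (slot E lab v) := fun u v h => mono u.2 v.2 h
  refine ⟨h.1, ?_⟩
  have b : ∀ x y z : Fin (gMat E).length,
      Btw ((sys E lab).pos x) ((sys E lab).pos y) ((sys E lab).pos z) →
      btw (PP (slot E lab x)) (PP (slot E lab y)) (PP (slot E lab z)) := fun x y z h =>
    h.imp (fun h => ⟨m _ _ h.1, m _ _ h.2⟩) (fun h => ⟨m _ _ h.1, m _ _ h.2⟩)
  have o : ∀ x y z : Fin (gMat E).length,
      Out ((sys E lab).pos x) ((sys E lab).pos y) ((sys E lab).pos z) →
      out (PP (slot E lab x)) (PP (slot E lab y)) (PP (slot E lab z)) := fun x y z h =>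
    h.imp (fun h => ⟨m _ _ h.1, m _ _ h.2⟩) (fun h => ⟨m _ _ h.1, m _ _ h.2⟩)
  exact h.2.imp (fun h => ⟨b _ _ _ h.1, o _ _ _ h.2⟩) (fun h => ⟨o _ _ _ h.1, b _ _ _ h.2⟩)

lemma alg_bd {f g : Edge (graphOf (gMat E))}
    (h : (grE (graphOf (gMat E))).s f < (grE (graphOf (gMat E))).s g ∧
      ¬ (grE (graphOf (gMat E))).H f g) :
    ((sys E lab).alg (grE (graphOf (gMat E))) f g).natAbs ≤ 1 ∧
      (((sys E lab).alg (grE (graphOf (gMat E))) f g).natAbs ≠ 0 →
        W (slot E lab f.1.1) (slot E lab f.1.2) (slot E lab g.1.1) (slot E lab g.1.2)) := by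
  have hne : f ≠ g := by
    rintro rfl
    exact lt_irrefl _ h.1
  have hn : ∀ x, IsEnd Edge.src Edge.tgt f x → ¬ IsEnd Edge.src Edge.tgt g x :=
    fun x h1 h2 => h.2 ⟨hne, x, h1, h2⟩
  have := alg2_le ((sys E lab).sp f) ((sys E lab).sp g) ((sys E lab).pos f.1.1)
    ((sys E lab).pos f.1.2) ((sys E lab).pos g.1.1) ((sys E lab).pos g.1.2)
    (fun h => hn _ (Or.inl rfl) (Or.inl (pos_inj h)))
    (fun h => hn _ (Or.inl rfl) (Or.inr (pos_inj h)))
    (fun h => hn _ (Or.inr rfl) (Or.inl (pos_inj h)))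
    (fun h => hn _ (Or.inr rfl) (Or.inr (pos_inj h)))
  exact ⟨this.1, fun h => cross_W (this.2 h)⟩

end Gup

theorem gup : GadUpStmt := by
  rintro E κ hE ⟨lab, h0, h1, h2, hc⟩
  refine ⟨Gup.sys E lab, Gup.valid, le_trans ?_ (Gup.T_card hc)⟩
  unfold Sys.cost
  refine @Gup.sum_le _ _ (Fintype.ofFinite _)
    (fun e : Edge (graphOf (gMat E)) => ((e.1.1 : ℕ), (e.1.2 : ℕ))) ?_ _ _ ?_ ?_
  · intro e e' h
    simp only [Prod.mk.injEq] at h
    exact Subtype.ext (Prod.ext (Fin.ext h.1) (Fin.ext h.2))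
  · intro f g
    split_ifs with h
    · exact (Gup.alg_bd h).1
    · exact Nat.zero_le _
  · intro f g hfg
    split_ifs at hfg with h
    · exact Gup.key hE h0 h1 h2 (Gup.edge_mem hE f) (Gup.edge_mem hE g) h.1
        ((Gup.alg_bd h).2 hfg)
    · exact absurd rfl hfg

end Pool.Agent.MP_17db17_lc.H93
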