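import Pool.Agent.MP_17db17_lc.H93.Basic

set_option autoImplicit false

namespace Pool.Agent.MP_17db17_lc.H93

namespace Lam

theorem ex_min (l : List ℤ) (P : ℤ → Prop) (h : ∃ w ∈ l, P w) :
    ∃ w ∈ l, P w ∧ ∀ w' ∈ l, P w' → w ≤ w' := by
  classical
  obtain ⟨w0, h0, h1⟩ := h
  obtain ⟨w, hw, hm⟩ := Finset.exists_min_image (l.toFinset.filter P) id
    ⟨w0, by simp [h0, h1]⟩
  simp only [Finset.mem_filter, List.mem_toFinset, id] at hw hm
  exact ⟨w, hw.1, hw.2, fun w' a b => hm w' ⟨a, b⟩⟩

theorem ex_max (l : List ℤ) (P : ℤ → Prop) (h : ∃ w ∈ l, P w) :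
    ∃ w ∈ l, P w ∧ ∀ w' ∈ l, P w' → w' ≤ w := by
  classical
  obtain ⟨w0, h0, h1⟩ := h
  obtain ⟨w, hw, hm⟩ := Finset.exists_max_image (l.toFinset.filter P) id
    ⟨w0, by simp [h0, h1]⟩
  simp only [Finset.mem_filter, List.mem_toFinset, id] at hw hm
  exact ⟨w, hw.1, hw.2, fun w' a b => hm w' ⟨a, b⟩⟩

theorem cov_congr {π b : Bool} {l : List ℤ} {z z' : ℤ} (h : ∀ y ∈ l, (z < y ↔ z' < y)) :
    cov π b l z = cov π b l z' := by
  refine covL_congr fun c hc _ => ?_
  obtain ⟨h1, h2⟩ := mem_of_mem_chords hc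
  simp only [ind, h _ h1, h _ h2]

theorem covL_zero {π : Bool} {C : List (Chord ℤ)} {z : ℤ}
    (h : ∀ c ∈ C, (z < c.2.1 ↔ z < c.2.2)) : covL π C z = 0 := by
  induction C with
  | nil => rfl
  | cons c C ih =>
    rw [covL_cons, ih fun c' hc' => h c' (List.mem_cons_of_mem _ hc')]
    simp [ind, h c List.mem_cons_self]

/-- `z` lies on one side of all points of `l` -/
def Far (l : List ℤ) (z : ℤ) : Prop := (∀ y ∈ l, z < y) ∨ ∀ y ∈ l, ¬ z < y

theorem cov_far {π b : Bool} {l : List ℤ} {z : ℤ} (h : Far l z) : cov π b l z = 0 := by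
  refine covL_zero fun c hc => ?_
  obtain ⟨h1, h2⟩ := mem_of_mem_chords hc
  rcases h with h | h
  · simp [h _ h1, h _ h2]
  · simp [h _ h1, h _ h2]

theorem const_of_chain {β : Type} (φ : ℤ → β) (m : List ℤ)
    (h : ∀ l1 y y' l2, m = l1 ++ y :: y' :: l2 → φ y = φ y') :
    ∀ z ∈ m, ∀ z' ∈ m, φ z = φ z' := by
  induction m with
  | nil => simp
  | cons w m ih =>
    have ih' := ih fun l1 y y' l2 e => h (w :: l1) y y' l2 (by rw [e]; rfl)
    have h0 : ∀ z ∈ m, φ w = φ z := by
      intro z hz
      cases m with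
      | nil => simp at hz
      | cons w' m' => rw [h [] w w' m' rfl]; exact ih' w' List.mem_cons_self z hz
    intro z hz z' hz'
    rcases List.mem_cons.1 hz with rfl | hz1 <;> rcases List.mem_cons.1 hz' with rfl | hz2
    · rfl
    · exact h0 _ hz2
    · exact (h0 _ hz1).symm
    · exact ih' _ hz1 _ hz2

theorem chords_split (b : Bool) (s : ℤ) (l1 : List ℤ) (y y' : ℤ) (l2 : List ℤ) (t : ℤ) :
    chords b (s :: ((l1 ++ y :: y' :: l2) ++ [t])) =
      chords b (s :: (l1 ++ [y])) ++ (flipN b (l1.length + 1), y, y') ::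
        chords (!flipN b (l1.length + 1)) (y' :: (l2 ++ [t])) := by
  have := chords_append b (s :: l1) y (y' :: (l2 ++ [t]))
  simpa using this

theorem last_page {b : Bool} {x y : ℤ} {m : List ℤ} {c : Chord ℤ}
    (h : c ∈ chords b (x :: (m ++ [y]))) (hy : y ∉ m) (he : c.2.2 = y) :
    c.1 = flipN b m.length := by
  induction m generalizing b x with
  | nil => simp at h; simp [h]
  | cons z m ih =>
    simp only [List.cons_append, chords_cons_cons, List.mem_cons] at h hy
    rcases h with rfl | h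
    · exact absurd (Or.inl he.symm) hy
    · rw [ih h fun h' => hy (Or.inr h'), List.length_cons, flipN_not, flipN_succ]

theorem first_page {b : Bool} {x y : ℤ} {m : List ℤ} {c : Chord ℤ}
    (h : c ∈ chords b (x :: (m ++ [y]))) (hx : x ∉ m) (he : c.2.1 = x) : c.1 = b := by
  cases m with
  | nil => simp at h; simp [h]
  | cons z m =>
    simp only [List.cons_append, chords_cons_cons, List.mem_cons] at h hx
    rcases h with rfl | h
    · rfl
    · exfalso
      rcases (mem_of_mem_chords' h).1 with h1 | h1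
      · exact hx (Or.inl (he.symm.trans h1))
      · exact hx (Or.inr (he ▸ h1))

theorem mem_l {p : Piece ℤ} {y : ℤ} : y ∈ p.l ↔ y = p.2.1 ∨ y ∈ p.2.2.1 ∨ y = p.2.2.2 := by
  simp [Piece.l]

theorem cov_false {a a' : ℤ} {p : Piece ℤ} (hp : Slit a a' p) {z : ℤ}
    (hz : ¬ InW a a' z ∨ ¬ InW a a' (z + 1)) :
    cov false p.1 p.l z = -cov true p.1 p.l z := by
  have h := cov_add p.1 p.2.1 p.2.2.1 p.2.2.2 z
  have h1 := hp.s
  have h2 := hp.t
  have h3 : ind z p.2.2.2 - ind z p.2.1 = 0 := by
    simp only [InW, ind] at *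
    split_ifs <;> omega
  change cov true p.1 p.l z + cov false p.1 p.l z = _ at h
  omega

theorem not_mem_l {a a' : ℤ} {p : Piece ℤ} (hp : Slit a a' p) {y : ℤ} (hy : ¬ InW a a' y)
    (hm : y ∉ p.2.2.1) : y ∉ p.l := by
  rw [mem_l]
  rintro (rfl | h | rfl)
  · exact hy hp.s
  · exact hm h
  · exact hy hp.t

theorem part_i {a a' : ℤ} {p q : Piece ℤ} (hp : Slit a a' p) (hq : Slit a a' q)
    (hd : ∀ y ∈ p.2.2.1, y ∉ q.2.2.1) (hc : NoCross p.1 p.l q.1 q.l) :
    ∀ y ∈ q.2.2.1, ∀ y' ∈ q.2.2.1, cov true p.1 p.l y = cov true p.1 p.l y' := by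
  refine const_of_chain _ _ fun l1 y y' l2 e => ?_
  have hy : y ∈ q.2.2.1 := by rw [e]; simp
  have hy' : y' ∈ q.2.2.1 := by rw [e]; simp
  have hmem : (flipN q.1 (l1.length + 1), y, y') ∈ chords q.1 q.l := by
    rw [Piece.l, e, chords_split]; simp
  have n1 := not_mem_l hp (hq.out y hy) fun h => hd y h hy
  have n2 := not_mem_l hp (hq.out y' hy') fun h => hd y' h hy'
  have h := covL_eq_of_not_cross (C := chords p.1 p.l) (fun c hc' => hc c hc' _ hmem)
    fun c hc' _ => by
      obtain ⟨h1, h2⟩ := mem_of_mem_chords hc'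
      exact ⟨fun e => n1 (e ▸ h1), fun e => n1 (e ▸ h2), fun e => n2 (e ▸ h1),
        fun e => n2 (e ▸ h2)⟩
  change cov _ p.1 p.l y = cov _ p.1 p.l y' at h
  generalize flipN q.1 (l1.length + 1) = π at h
  cases π
  · rw [cov_false hp (Or.inl (hq.out y hy)), cov_false hp (Or.inl (hq.out y' hy'))] at h
    omega
  · exact h

theorem extreme {a a' : ℤ} {p q : Piece ℤ} (hp : Slit a a' p) (hq : Slit a a' q)
    (hd : ∀ y ∈ p.2.2.1, y ∉ q.2.2.1) :
    (∃ w ∈ q.2.2.1, Far p.l w) ∨ ∃ w ∈ p.2.2.1, Far q.l w := by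
  have s1 := hp.s
  have t1 := hp.t
  have s2 := hq.s
  have t2 := hq.t
  by_cases h : ∃ w ∈ p.2.2.1 ++ q.2.2.1, a < w
  · obtain ⟨w, hw, h1, h2⟩ := ex_max _ _ h
    rcases List.mem_append.1 hw with hw | hw
    · refine Or.inr ⟨w, hw, Or.inr fun y hy => ?_⟩
      have h3 := hp.out w hw
      rcases mem_l.1 hy with rfl | hy | rfl
      · simp only [InW] at *; omega
      · have := h2 y (List.mem_append_right _ hy); omega
      · simp only [InW] at *; omega
    · refine Or.inl ⟨w, hw, Or.inr fun y hy => ?_⟩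
      have h3 := hq.out w hw
      rcases mem_l.1 hy with rfl | hy | rfl
      · simp only [InW] at *; omega
      · have := h2 y (List.mem_append_left _ hy); omega
      · simp only [InW] at *; omega
  · obtain ⟨w0, hw0⟩ := List.exists_mem_of_ne_nil _ hp.ne
    obtain ⟨w, hw, -, h2⟩ := ex_min (p.2.2.1 ++ q.2.2.1) (fun _ => True)
      ⟨w0, List.mem_append_left _ hw0, trivial⟩
    have h1 : ¬ a < w := fun h' => h ⟨w, hw, h'⟩
    rcases List.mem_append.1 hw with hw | hw
    · refine Or.inr ⟨w, hw, Or.inl fun y hy => ?_⟩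
      have h3 := hp.out w hw
      rcases mem_l.1 hy with rfl | hy | rfl
      · simp only [InW] at *; omega
      · have h4 := h2 y (List.mem_append_right _ hy) trivial
        have h5 : w ≠ y := fun e => hd w hw (e ▸ hy)
        omega
      · simp only [InW] at *; omega
    · refine Or.inl ⟨w, hw, Or.inl fun y hy => ?_⟩
      have h3 := hq.out w hw
      rcases mem_l.1 hy with rfl | hy | rfl
      · simp only [InW] at *; omega
      · have h4 := h2 y (List.mem_append_left _ hy) trivial
        have h5 : w ≠ y := fun e => hd y hy (e ▸ hw)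
        omega
      · simp only [InW] at *; omega

/-- walking away from the window -/
theorem walk {a a' : ℤ} (m : List ℤ) {x : ℤ} (hx : ¬ InW a a' x) (hm : x ∉ m) :
    (∃ w ∈ m, ∀ y, InW a a' y ∨ y ∈ m → (x < y ↔ w - 1 < y)) ∨
    (∃ w ∈ m, ∀ y, InW a a' y ∨ y ∈ m → (x < y ↔ w < y)) ∨
    (∀ y, InW a a' y ∨ y ∈ m → x < y) ∨ (∀ y, InW a a' y ∨ y ∈ m → ¬ x < y) := by
  by_cases hr : a < x
  · by_cases h : ∃ w ∈ m, x < w
    · obtain ⟨w, hw, h1, h2⟩ := ex_min _ _ h
      refine Or.inl ⟨w, hw, fun y hy => ?_⟩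
      rcases hy with hy | hy
      · simp only [InW] at *; omega
      · have := h2 y hy; omega
    · refine Or.inr (Or.inr (Or.inr fun y hy => ?_))
      rcases hy with hy | hy
      · simp only [InW] at *; omega
      · exact fun h' => h ⟨y, hy, h'⟩
  · by_cases h : ∃ w ∈ m, w < x
    · obtain ⟨w, hw, h1, h2⟩ := ex_max _ _ h
      refine Or.inr (Or.inl ⟨w, hw, fun y hy => ?_⟩)
      rcases hy with hy | hy
      · simp only [InW] at *; omega
      · have h3 := h2 y hy
        have h4 : x ≠ y := fun e => hm (e ▸ hy)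
        omega
    · refine Or.inr (Or.inr (Or.inl fun y hy => ?_))
      rcases hy with hy | hy
      · simp only [InW] at *; omega
      · have h3 : ¬ y < x := fun h' => h ⟨y, hy, h'⟩
        have h4 : x ≠ y := fun e => hm (e ▸ hy)
        omega

theorem in_l {a a' : ℤ} {p : Piece ℤ} (hp : Slit a a' p) {y : ℤ} (hy : y ∈ p.l) :
    InW a a' y ∨ y ∈ p.2.2.1 := by
  rcases mem_l.1 hy with rfl | hy | rfl
  · exact Or.inl hp.s
  · exact Or.inr hy
  · exact Or.inl hp.t

theorem part_ii {a a' : ℤ} {p q : Piece ℤ} (hp : Slit a a' p) (hq : Slit a a' q)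
    (hd : ∀ y ∈ p.2.2.1, y ∉ q.2.2.1) (hc : NoCross p.1 p.l q.1 q.l) (x : ℤ)
    (hx : ¬ InW a a' x) (h1 : x ∉ p.2.2.1) (h2 : x ∉ q.2.2.1) (y : ℤ) (hy : y ∈ q.2.2.1) (z : ℤ)
    (hz : z ∈ p.2.2.1) (hne : cov true p.1 p.l x ≠ cov true p.1 p.l y) :
    cov true q.1 q.l x = cov true q.1 q.l z := by
  have hd' : ∀ y ∈ q.2.2.1, y ∉ p.2.2.1 := fun y a b => hd y b a
  have cp := part_i hp hq hd hc
  have cq := part_i hq hp hd' hc.symm
  have lp : ∀ y ∈ p.l, InW a a' y ∨ y ∈ p.2.2.1 ++ q.2.2.1 := fun y hy =>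
    (in_l hp hy).imp id (List.mem_append_left _)
  have lq : ∀ y ∈ q.l, InW a a' y ∨ y ∈ p.2.2.1 ++ q.2.2.1 := fun y hy =>
    (in_l hq hy).imp id (List.mem_append_right _)
  have far : Far p.l x → Far q.l x → cov true q.1 q.l x = cov true q.1 q.l z := by
    intro f1 f2
    rcases extreme hp hq hd with ⟨w, hw, f⟩ | ⟨w, hw, f⟩
    · exact absurd (by rw [cov_far f1, cp y hy w hw, cov_far f]) hne
    · rw [cov_far f2, cq z hz w hw, cov_far f]
  rcases walk (p.2.2.1 ++ q.2.2.1) hx (by simp [h1, h2]) with ⟨w, hw, h⟩ | ⟨w, hw, h⟩ | h | h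
  · rcases List.mem_append.1 hw with hw | hw
    · have n := not_mem_l hq (hp.out w hw) (hd w hw)
      rw [cq z hz w hw]
      refine cov_congr fun v hv => (h v (lq v hv)).trans ?_
      have : w ≠ v := fun e => n (e ▸ hv)
      omega
    · have n := not_mem_l hp (hq.out w hw) (hd' w hw)
      refine absurd ?_ hne
      rw [cp y hy w hw]
      refine cov_congr fun v hv => (h v (lp v hv)).trans ?_
      have : w ≠ v := fun e => n (e ▸ hv)
      omega
  · rcases List.mem_append.1 hw with hw | hw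
    · rw [cq z hz w hw]
      exact cov_congr fun v hv => h v (lq v hv)
    · refine absurd ?_ hne
      rw [cp y hy w hw]
      exact cov_congr fun v hv => h v (lp v hv)
  · exact far (Or.inl fun v hv => h v (lp v hv)) (Or.inl fun v hv => h v (lq v hv))
  · exact far (Or.inr fun v hv => h v (lp v hv)) (Or.inr fun v hv => h v (lq v hv))

theorem jump_zero {π b : Bool} {l : List ℤ} {y : ℤ} (h : y ∉ l) :
    cov π b l y = cov π b l (y - 1) := by
  refine cov_congr fun v hv => ?_
  have : y ≠ v := fun e => h (e ▸ hv)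
  omega

theorem cov_cons_cons (π b : Bool) (x x' : ℤ) (l : List ℤ) (z : ℤ) :
    cov π b (x :: x' :: l) z =
      (if b = π then ind z x' - ind z x else 0) + cov π (!b) (x' :: l) z := by
  simp [cov, covL_cons]

theorem jump_le (π : Bool) (y t : ℤ) (ht : y ≠ t) (m : List ℤ) (hm : m.Nodup) :
    ∀ (b : Bool) (s : ℤ), y ≠ s →
      |cov π b (s :: (m ++ [t])) y - cov π b (s :: (m ++ [t])) (y - 1)| ≤ 1 := by
  induction m with
  | nil =>
    intro b s hs
    rw [jump_zero (by simp [hs, ht])]; simp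
  | cons w m ih =>
    intro b s hs
    rw [List.nodup_cons] at hm
    simp only [List.cons_append, cov_cons_cons]
    by_cases hw : y = w
    · subst hw
      have hn : y ∉ m ++ [t] := by simp [hm.1, ht]
      obtain ⟨v, r, e⟩ : ∃ v r, m ++ [t] = v :: r := List.exists_cons_of_ne_nil (by simp)
      rw [e] at hn ⊢
      have hv : y ≠ v := fun e => hn (e ▸ List.mem_cons_self)
      rw [cov_cons_cons, cov_cons_cons, jump_zero hn, abs_le]
      simp only [ind]
      cases b <;> cases π <;> simp <;> split_ifs <;> omega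
    · have := ih hm.2 (!b) w hw
      rw [abs_le] at this ⊢
      simp only [ind]
      split_ifs <;> omega

theorem swap_step {a a' : ℤ} {p : Piece ℤ} (hp : Slit a a' p) (hn : p.2.2.1.Nodup)
    (hc : NoCross p.1 p.l p.1 p.l) (l1 : List ℤ) (y y' : ℤ) (l2 : List ℤ)
    (e : p.2.2.1 = l1 ++ y :: y' :: l2) :
    cov true p.1 p.l y = cov true p.1 p.l (y' - 1) ∧
      cov true p.1 p.l (y - 1) = cov true p.1 p.l y' := by
  have hy : y ∈ p.2.2.1 := by rw [e]; simp
  have hy' : y' ∈ p.2.2.1 := by rw [e]; simp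
  have oy := hp.out y hy
  have oy' := hp.out y' hy'
  have ys : y ≠ p.2.1 := fun h => oy (h ▸ hp.s)
  have yt : y ≠ p.2.2.2 := fun h => oy (h ▸ hp.t)
  have ys' : y' ≠ p.2.1 := fun h => oy' (h ▸ hp.s)
  have yt' : y' ≠ p.2.2.2 := fun h => oy' (h ▸ hp.t)
  have hsp : chords p.1 p.l = chords p.1 (p.2.1 :: (l1 ++ [y])) ++
      (flipN p.1 (l1.length + 1), y, y') ::
        chords (!flipN p.1 (l1.length + 1)) (y' :: (l2 ++ [p.2.2.2])) := by
    rw [Piece.l, e, chords_split]
  rw [e] at hn
  have n1 : y ∉ l1 := fun h => (List.nodup_append.1 hn).2.2 y h y (by simp) rfl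
  have n2 : y' ∉ l1 := fun h => (List.nodup_append.1 hn).2.2 y' h y' (by simp) rfl
  have n0 := (List.nodup_append.1 hn).2.1
  have n3 : y ≠ y' := by simp only [List.nodup_cons, List.mem_cons] at n0; tauto
  have n4 : y ∉ l2 := by simp only [List.nodup_cons, List.mem_cons] at n0; tauto
  have n5 : y' ∉ l2 := by simp only [List.nodup_cons, List.mem_cons] at n0; tauto
  generalize hπ : flipN p.1 (l1.length + 1) = π at hsp
  have hmem : (π, y, y') ∈ chords p.1 p.l := by rw [hsp]; simp
  have key : ∀ C : List (Chord ℤ), (∀ c ∈ C, c ∈ chords p.1 p.l) →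
      (∀ c ∈ C, c.1 = π → y ≠ c.2.1 ∧ y ≠ c.2.2 ∧ y' ≠ c.2.1 ∧ y' ≠ c.2.2) →
      covL π C y = covL π C (y' - 1) ∧ covL π C (y - 1) = covL π C y' := by
    intro C h1 h2
    have h3 := covL_eq_of_not_cross (fun c hc' => hc c (h1 c hc') _ hmem) h2
    have h4 : covL π C y = covL π C (y - 1) := covL_congr fun c hc' hp' => by
      obtain ⟨a1, a2, -, -⟩ := h2 c hc' hp'
      simp only [ind]; split_ifs <;> omega
    have h5 : covL π C y' = covL π C (y' - 1) := covL_congr fun c hc' hp' => by
      obtain ⟨-, -, a1, a2⟩ := h2 c hc' hp'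
      simp only [ind]; split_ifs <;> omega
    omega
  have k1 := key (chords p.1 (p.2.1 :: (l1 ++ [y]))) (fun c h => by rw [hsp]; simp [h])
    fun c h hp' => by
      obtain ⟨b1, b2⟩ := mem_of_mem_chords' h
      refine ⟨fun e' => ?_, fun e' => ?_, fun e' => ?_, fun e' => ?_⟩
      · rw [← e'] at b1; tauto
      · have := last_page h n1 e'.symm
        rw [hp', ← hπ, flipN_succ] at this
        simp at this
      · rw [← e'] at b1; tauto
      · rw [← e'] at b2; tauto
  have k2 := key (chords (!π) (y' :: (l2 ++ [p.2.2.2]))) (fun c h => by rw [hsp]; simp [h])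
    fun c h hp' => by
      obtain ⟨b1, b2⟩ := mem_of_mem_chords' h
      refine ⟨fun e' => ?_, fun e' => ?_, fun e' => ?_, fun e' => ?_⟩
      · rw [← e'] at b1; tauto
      · rw [← e'] at b2; tauto
      · have := first_page h n5 e'.symm
        rw [hp'] at this
        simp at this
      · rw [← e'] at b2; tauto
  have k : cov π p.1 p.l y = cov π p.1 p.l (y' - 1) ∧
      cov π p.1 p.l (y - 1) = cov π p.1 p.l y' := by
    simp only [cov, hsp, covL_append, covL_cons, if_true, ind]
    constructor <;> split_ifs <;> omega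
  cases π
  · rw [cov_false hp (Or.inl oy), cov_false hp (Or.inl oy'),
      cov_false hp (z := y - 1) (Or.inr (by simpa using oy)),
      cov_false hp (z := y' - 1) (Or.inr (by simpa using oy'))] at k
    omega
  · exact k

theorem part_two {a a' : ℤ} {p : Piece ℤ} (hp : Slit a a' p) (hn : p.2.2.1.Nodup)
    (hc : NoCross p.1 p.l p.1 p.l) :
    ∃ ε : ℤ, (ε = 1 ∨ ε = -1) ∧ ∀ x, ¬ InW a a' x → x ∉ p.2.2.1 →
      cov true p.1 p.l x = 0 ∨ cov true p.1 p.l x = ε := by
  have hconst := const_of_chain (fun y => s(cov true p.1 p.l y, cov true p.1 p.l (y - 1)))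
    p.2.2.1 fun l1 y y' l2 e => by
      obtain ⟨h1, h2⟩ := swap_step hp hn hc l1 y y' l2 e
      simp only [h1, h2, Sym2.eq_swap]
  have hext : ∃ w ∈ p.2.2.1, cov true p.1 p.l w = 0 ∨ cov true p.1 p.l (w - 1) = 0 := by
    have s1 := hp.s
    have t1 := hp.t
    by_cases h : ∃ w ∈ p.2.2.1, a < w
    · obtain ⟨w, hw, h1, h2⟩ := ex_max _ _ h
      refine ⟨w, hw, Or.inl (cov_far (Or.inr fun y hy => ?_))⟩
      have h3 := hp.out w hw
      rcases mem_l.1 hy with rfl | hy | rfl
      · simp only [InW] at *; omega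
      · have := h2 y hy; omega
      · simp only [InW] at *; omega
    · obtain ⟨w0, hw0⟩ := List.exists_mem_of_ne_nil _ hp.ne
      obtain ⟨w, hw, -, h2⟩ := ex_min p.2.2.1 (fun _ => True) ⟨w0, hw0, trivial⟩
      have h1 : ¬ a < w := fun h' => h ⟨w, hw, h'⟩
      refine ⟨w, hw, Or.inr (cov_far (Or.inl fun y hy => ?_))⟩
      have h3 := hp.out w hw
      rcases mem_l.1 hy with rfl | hy | rfl
      · simp only [InW] at *; omega
      · have := h2 y hy trivial; omega
      · simp only [InW] at *; omega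
  obtain ⟨w, hw, h0⟩ := hext
  have hj : |cov true p.1 p.l w - cov true p.1 p.l (w - 1)| ≤ 1 :=
    jump_le true w p.2.2.2 (fun h => hp.out w hw (h ▸ hp.t)) _ hn p.1 p.2.1
      fun h => hp.out w hw (h ▸ hp.s)
  rw [abs_le] at hj
  refine ⟨if cov true p.1 p.l w + cov true p.1 p.l (w - 1) = 1 then 1 else -1,
    by split_ifs <;> simp, fun x hx hm => ?_⟩
  have hval : ∀ v ∈ p.2.2.1, ∀ u, u = cov true p.1 p.l v ∨ u = cov true p.1 p.l (v - 1) →
      u = 0 ∨ u = if cov true p.1 p.l w + cov true p.1 p.l (w - 1) = 1 then 1 else -1 := by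
    intro v hv u hu
    have := Sym2.eq_iff.1 (hconst v hv w hw)
    split_ifs <;> omega
  rcases walk p.2.2.1 hx hm with ⟨v, hv, h⟩ | ⟨v, hv, h⟩ | h | h
  · exact hval v hv _ (Or.inr (cov_congr fun y hy => h y (in_l hp hy)))
  · exact hval v hv _ (Or.inl (cov_congr fun y hy => h y (in_l hp hy)))
  · exact Or.inl (cov_far (Or.inl fun y hy => h y (in_l hp hy)))
  · exact Or.inl (cov_far (Or.inr fun y hy => h y (in_l hp hy)))

theorem cover {b : Bool} {x y p q r s x1 x2 : ℤ} (hx : 8 ∣ x) (hp : 8 ∣ p) (hq : 8 ∣ q)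
    (h1 : p ≠ x) (h2 : q ≠ x) (h3 : p ≠ y) (h4 : q ≠ y) (h5 : r ≠ p) (h6 : r ≠ q) (h7 : s ≠ p)
    (h8 : s ≠ q) (c1 : Cross (b, x, y) (b, r, s)) (c2 : ¬ Cross (b, p, q) (b, x, y))
    (c3 : ¬ Cross (b, p, q) (b, r, s)) (d1 : x - 3 ≤ x1 ∧ x1 ≤ x + 3)
    (d2 : x - 3 ≤ x2 ∧ x2 ≤ x + 3) :
    ¬ Cross (b, p, q) (b, r, x1) ∧ ¬ Cross (b, p, q) (b, x2, s) := by
  have e1 := (not_cross_iff h1.symm h2.symm h3.symm h4.symm).1 c2
  have e2 := (not_cross_iff h5 h6 h7 h8).1 c3
  have e3 : ind r q - ind r p = ind x q - ind x p := by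
    simp only [Cross, Btw, Out, ind, true_and] at c1 e1 e2 ⊢
    split_ifs at e1 e2 ⊢ <;> omega
  have e4 : ∀ z, x - 3 ≤ z ∧ z ≤ x + 3 →
      z ≠ p ∧ z ≠ q ∧ ind z q - ind z p = ind x q - ind x p := by
    intro z hz
    refine ⟨by omega, by omega, ?_⟩
    simp only [ind]
    split_ifs <;> omega
  obtain ⟨f1, f2, f3⟩ := e4 x1 d1
  obtain ⟨g1, g2, g3⟩ := e4 x2 d2
  exact ⟨(not_cross_iff h5 h6 f1 f2).2 (by omega), (not_cross_iff g1 g2 h7 h8).2 (by omega)⟩

end Lam

open Lam in
theorem lam : LamStmt :=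
  ⟨fun _ _ _ _ hp hq hd hc => ⟨part_i hp hq hd hc, part_ii hp hq hd hc⟩,
    fun _ _ _ hp hn hc => part_two hp hn hc⟩

open Lam in
theorem ref : RefStmt := by
  classical
  intro b L hn h8 hc k k1 k3 u v huv
  induction L generalizing b with
  | nil => exact ⟨[], by simp, fun c hc => by simp at hc⟩
  | cons x L ih =>
    cases L with
    | nil => exact ⟨[], by simp, fun c hc => by simp at hc⟩
    | cons y l =>
      rw [List.nodup_cons] at hn
      have hsub : ∀ c ∈ chords (!b) (y :: l), c ∈ chords b (x :: y :: l) := fun c h => by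
        simp [h]
      obtain ⟨m, hm, hnc⟩ := ih (!b) hn.2 (fun z hz => h8 z (List.mem_cons_of_mem _ hz))
        (fun c h d h' => hc c (hsub c h) d (hsub d h'))
        fun z hz => huv z (List.mem_cons_of_mem _ hz)
      have hx8 := h8 x List.mem_cons_self
      have hy8 := h8 y (by simp)
      have hxy : x ≠ y := fun e => hn.1 (e ▸ List.mem_cons_self)
      let ins : Chord ℤ → List ℤ := fun c =>
        if Cross (b, x, y) c then
          (if (Btw x y c.2.1 ↔ x < y) then [x + k, x - k] else [x - k, x + k]) else []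
      have hpt : ∀ r ∈ u :: (m ++ [v]), ∀ z ∈ x :: y :: l, r ≠ z := by
        intro r hr z hz
        have hz8 := h8 z hz
        obtain ⟨a1, a2⟩ := huv z hz
        simp only [List.mem_cons, List.mem_append, List.not_mem_nil, or_false] at hr
        rcases hr with rfl | hr | rfl
        · rintro rfl; simp at a1
        · obtain ⟨z', hz', e⟩ := hm r hr
          have := h8 z' (List.mem_cons_of_mem _ hz')
          omega
        · rintro rfl; simp at a2
      refine ⟨smid id ins true u m v, fun w hw => ?_, ?_⟩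
      · rcases mem_smid.1 hw with ⟨w', hw', e'⟩ | ⟨c, -, hw'⟩
        · obtain ⟨z, hz, e⟩ := hm w' hw'
          exact ⟨z, List.mem_cons_of_mem _ hz, e' ▸ e⟩
        · refine ⟨x, List.mem_cons_self, ?_⟩
          simp only [ins] at hw'
          split_ifs at hw' <;> simp at hw' <;> tauto
      · have hs := chords_smid (emb := id) (ins := ins) (b := true) (x := u) (m := m) (y := v)
          fun c _ => by simp only [ins]; split_ifs <;> simp
        intro e he d hd
        simp only [id] at hs
        rw [hs, List.mem_flatMap] at hd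
        obtain ⟨c, hcm, hd⟩ := hd
        obtain ⟨π, r, s⟩ := c
        obtain ⟨hr, hs'⟩ := mem_of_mem_chords hcm
        have hr' := hpt r hr
        have hs'' := hpt s hs'
        by_cases hcr : Cross (b, x, y) (π, r, s)
        · have hπ : b = π := hcr.1
          subst hπ
          obtain ⟨x1, x2, hi, hx1, hx2, hk1, hk2⟩ : ∃ x1 x2, ins (b, r, s) = [x1, x2] ∧
              (x - 3 ≤ x1 ∧ x1 ≤ x + 3) ∧ (x - 3 ≤ x2 ∧ x2 ≤ x + 3) ∧
              ¬ Cross (b, x, y) (b, r, x1) ∧ ¬ Cross (b, x, y) (b, x2, s) := by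
            by_cases hb : (Btw x y r ↔ x < y)
            · refine ⟨x + k, x - k, by simp only [ins, if_pos hcr, if_pos hb], by omega, by omega,
                ?_, ?_⟩ <;>
              · simp only [Cross, Btw, Out, true_and] at hcr hb ⊢
                omega
            · refine ⟨x - k, x + k, by simp only [ins, if_pos hcr, if_neg hb], by omega, by omega,
                ?_, ?_⟩ <;>
              · simp only [Cross, Btw, Out, true_and] at hcr hb ⊢
                omega
          simp only [spc, hi, id, List.cons_append, List.nil_append, chords_cons_cons,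
            chords_single, List.mem_cons, List.not_mem_nil, or_false, Bool.not_not] at hd
          rw [chords_cons_cons, List.mem_cons] at he
          rcases he with rfl | he
          · rcases hd with rfl | rfl | rfl
            · exact hk1
            · intro h; have := h.1; simp at this
            · exact hk2
          · obtain ⟨π', p, q⟩ := e
            obtain ⟨hp, hq⟩ := mem_of_mem_chords he
            have hp8 := h8 p (List.mem_cons_of_mem _ hp)
            have hq8 := h8 q (List.mem_cons_of_mem _ hq)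
            have hpx : p ≠ x := fun e => hn.1 (e ▸ hp)
            have hqx : q ≠ x := fun e => hn.1 (e ▸ hq)
            have tiny : ¬ Cross (π', p, q) (!b, x1, x2) := by
              simp only [Cross, Btw, Out]
              omega
            by_cases hπ : π' = b
            · subst hπ
              have hyl : y ∉ l := (List.nodup_cons.1 hn.2).1
              have hpq : p ≠ y ∧ q ≠ y := by
                cases l with
                | nil => simp at he
                | cons z l =>
                  rw [chords_cons_cons, List.mem_cons] at he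
                  rcases he with he | he
                  · simp at he
                  · obtain ⟨a1, a2⟩ := mem_of_mem_chords he
                    exact ⟨fun e => hyl (e ▸ a1), fun e => hyl (e ▸ a2)⟩
              have hcov := cover hx8 hp8 hq8 hpx hqx hpq.1 hpq.2
                (hr' p (List.mem_cons_of_mem _ hp)) (hr' q (List.mem_cons_of_mem _ hq))
                (hs'' p (List.mem_cons_of_mem _ hp)) (hs'' q (List.mem_cons_of_mem _ hq)) hcr
                (hc _ (hsub _ he) _ (by simp)) (hnc _ he _ hcm) hx1 hx2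
              rcases hd with rfl | rfl | rfl
              · exact hcov.1
              · exact tiny
              · exact hcov.2
            · rcases hd with rfl | rfl | rfl
              · exact fun h => hπ h.1
              · exact tiny
              · exact fun h => hπ h.1
        · have hi : ins (π, r, s) = [] := by simp only [ins, if_neg hcr]
          simp only [spc, hi, id, List.nil_append, chords_cons_cons, chords_single,
            List.mem_singleton] at hd
          subst hd
          rw [chords_cons_cons, List.mem_cons] at he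
          rcases he with rfl | he
          · exact hcr
          · exact hnc _ he _ hcm

end Pool.Agent.MP_17db17_lc.H93
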