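import Pool.Agent.MP_17db17_lc.H93.Spec

/-!
Strict chains of lattices spanned by short vectors have polynomial length.
-/

namespace Pool.Agent.MP_17db17_lc.H93

namespace Lat1

open Finset Matrix

variable {κ : Type} [Fintype κ]

/-- The inclusion of integer vectors into rational vectors. -/
def toQ : (κ → ℤ) →+ (κ → ℚ) where
  toFun v := fun i => (v i : ℚ)
  map_zero' := by funext i; simp
  map_add' u v := by funext i; simp

omit [Fintype κ] in
theorem toQ_apply (v : κ → ℤ) (i : κ) : toQ v i = (v i : ℚ) := rfl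

/-- The rational span. -/
def spanQ (L : Submodule ℤ (κ → ℤ)) : Submodule ℚ (κ → ℚ) :=
  Submodule.span ℚ (toQ '' (L : Set (κ → ℤ)))

/-- The saturation. -/
def sat (L : Submodule ℤ (κ → ℤ)) : AddSubgroup (κ → ℤ) := (spanQ L).toAddSubgroup.comap toQ

omit [Fintype κ] in
theorem le_sat (L : Submodule ℤ (κ → ℤ)) : L.toAddSubgroup ≤ sat L := fun v hv =>
  Submodule.subset_span ⟨v, hv, rfl⟩

omit [Fintype κ] in
theorem spanQ_span (S : Set (κ → ℤ)) :
    spanQ (Submodule.span ℤ S) = Submodule.span ℚ (toQ '' S) := by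
  refine le_antisymm (Submodule.span_le.mpr ?_)
    (Submodule.span_mono (Set.image_mono Submodule.subset_span))
  rintro _ ⟨v, hv, rfl⟩
  induction hv using Submodule.span_induction with
  | mem x hx => exact Submodule.subset_span ⟨x, hx, rfl⟩
  | zero => rw [map_zero]; exact Submodule.zero_mem _
  | add x y _ _ hx hy => rw [map_add]; exact Submodule.add_mem _ hx hy
  | smul a x _ hx =>
    rw [map_zsmul]
    exact zsmul_mem hx a

theorem num_bound (r d : ℕ) (h : r ≤ d) : r.factorial * (16 * d) ^ r ≤ 2 ^ ((4 + 2 * d) * d) := by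
  have h1 : d ≤ 2 ^ d := Nat.lt_two_pow_self.le
  have h2 : r.factorial ≤ (2 ^ d) ^ r :=
    le_trans (Nat.factorial_le_pow r) (Nat.pow_le_pow_left (le_trans h h1) r)
  have h3 : (16 * d) ^ r ≤ (16 * 2 ^ d) ^ r := Nat.pow_le_pow_left (by omega) r
  calc r.factorial * (16 * d) ^ r ≤ (2 ^ d) ^ r * (16 * 2 ^ d) ^ r := Nat.mul_le_mul h2 h3
    _ = (2 ^ (4 + 2 * d)) ^ r := by
        rw [← mul_pow]
        congr 1
        ring
    _ ≤ (2 ^ (4 + 2 * d)) ^ d := Nat.pow_le_pow_right (by positivity) h
    _ = _ := by rw [← pow_mul]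

theorem exists_mult (S : Set (κ → ℤ)) (hS : ∀ u ∈ S, ∀ i, |u i| ≤ 4) :
    ∃ N : ℕ, 0 < N ∧ N ≤ 2 ^ ((4 + 2 * Fintype.card κ) * Fintype.card κ) ∧
      ∀ w : κ → ℤ, toQ w ∈ Submodule.span ℚ (toQ '' S) → (N : ℤ) • w ∈ Submodule.span ℤ S := by
  classical
  obtain ⟨ι, a, -, hsp, hli⟩ := exists_linearIndependent' ℚ (fun u : S => toQ (u : κ → ℤ))
  have : Finite ι := hli.finite
  have : Fintype ι := Fintype.ofFinite ι
  have hcard : Fintype.card ι ≤ Fintype.card κ := by
    have := hli.fintype_card_le_finrank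
    simpa using this
  set b : ι → κ → ℤ := fun j => (a j : κ → ℤ) with hb
  set G : Matrix ι ι ℤ := Matrix.of fun i j => ∑ k, b i k * b j k with hG
  have hGb : ∀ i j, |G i j| ≤ 16 * (Fintype.card κ : ℤ) := by
    intro i j
    have h1 : ∀ k, |b i k * b j k| ≤ 16 := by
      intro k
      rw [abs_mul]
      have h2 := hS _ (a i).2 k
      have h3 := hS _ (a j).2 k
      have h4 := abs_nonneg (b i k)
      have h5 := abs_nonneg (b j k)
      have h2' : |b i k| ≤ 4 := h2
      have h3' : |b j k| ≤ 4 := h3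
      nlinarith
    calc |G i j| ≤ ∑ k, |b i k * b j k| := Finset.abs_sum_le_sum_abs _ _
      _ ≤ ∑ _k : κ, (16 : ℤ) := Finset.sum_le_sum fun k _ => h1 k
      _ = _ := by simp [mul_comm]
  have hdet : G.det ≠ 0 := by
    intro h0
    obtain ⟨c, hc, hcG⟩ := Matrix.exists_vecMul_eq_zero_iff.mpr h0
    have h1 : ∑ k, (∑ i, c i * b i k) ^ 2 = 0 := by
      have h2 : ∑ k, (∑ i, c i * b i k) ^ 2 = ∑ j, (c ᵥ* G) j * c j := by
        simp only [sq, Matrix.vecMul, dotProduct, hG, Matrix.of_apply,
          Finset.sum_mul, Finset.mul_sum]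
        rw [Finset.sum_comm]
        conv_rhs => rw [Finset.sum_comm]
        refine Finset.sum_congr rfl fun i _ => ?_
        rw [Finset.sum_comm]
        refine Finset.sum_congr rfl fun j _ => Finset.sum_congr rfl fun k _ => by ring
      rw [h2, hcG]
      simp
    have h3 : ∀ k, ∑ i, c i * b i k = 0 := by
      intro k
      have := (Finset.sum_eq_zero_iff_of_nonneg fun k _ => sq_nonneg _).mp h1 k (Finset.mem_univ k)
      exact pow_eq_zero_iff (by norm_num) |>.mp this
    apply hc
    have h4 := Fintype.linearIndependent_iff.mp hli (fun i => (c i : ℚ)) (by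
      funext k
      have := congrArg (fun z : ℤ => (z : ℚ)) (h3 k)
      simpa [toQ_apply, hb] using this)
    funext i
    exact_mod_cast h4 i
  refine ⟨G.det.natAbs, Int.natAbs_pos.mpr hdet, ?_, ?_⟩
  · have h1 := Matrix.det_le (A := G) (abv := AbsoluteValue.abs) (x := 16 * (Fintype.card κ : ℤ))
      (fun i j => hGb i j)
    refine le_trans ?_ (num_bound _ _ hcard)
    have h2 : ((G.det.natAbs : ℕ) : ℤ) ≤
        (((Fintype.card ι).factorial * (16 * Fintype.card κ) ^ Fintype.card ι : ℕ) : ℤ) := by
      rw [Int.natCast_natAbs]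
      push_cast
      simpa using h1
    exact_mod_cast h2
  · intro w hw
    have hw' : toQ w ∈ Submodule.span ℚ (Set.range fun j => toQ (b j)) := by
      have h1 : toQ '' S = Set.range fun u : S => toQ (u : κ → ℤ) := by
        ext x
        simp
      rw [h1, ← hsp] at hw
      exact hw
    obtain ⟨c, hc⟩ := (Submodule.mem_span_range_iff_exists_fun ℚ).mp hw'
    set y : ι → ℤ := fun j => ∑ k, w k * b j k with hy
    have hwk : ∀ k, (w k : ℚ) = ∑ i, c i * (b i k : ℚ) := by
      intro k
      have := congrFun hc k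
      simpa [toQ_apply] using this.symm
    have h1 : c ᵥ* (G.map (Int.castRingHom ℚ)) = fun j => (y j : ℚ) := by
      funext j
      simp only [Matrix.vecMul, dotProduct, hG, Matrix.map_apply, Matrix.of_apply, hy,
        eq_intCast, Int.cast_sum, Int.cast_mul, hwk, Finset.mul_sum, Finset.sum_mul]
      rw [Finset.sum_comm]
      refine Finset.sum_congr rfl fun k _ => Finset.sum_congr rfl fun i _ => by ring
    have h2 : ∀ i, (G.det : ℚ) * c i = ((y ᵥ* G.adjugate) i : ℤ) := by
      intro i
      have h3 : c ᵥ* ((G * G.adjugate).map (Int.castRingHom ℚ)) =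
          (fun j => (y j : ℚ)) ᵥ* (G.adjugate.map (Int.castRingHom ℚ)) := by
        rw [Matrix.map_mul, ← Matrix.vecMul_vecMul, h1]
      rw [Matrix.mul_adjugate] at h3
      have h4 := congrFun h3 i
      simp only [Matrix.vecMul, dotProduct, Matrix.map_apply, Matrix.smul_apply, Matrix.one_apply,
        smul_eq_mul, mul_ite, mul_one, mul_zero, eq_intCast] at h4
      simp only [Matrix.vecMul, dotProduct, Int.cast_sum, Int.cast_mul]
      rw [← h4, Finset.sum_eq_single i]
      · simp [mul_comm]
      · intro j _ hj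
        simp [hj]
      · simp
    have h5 : G.det • w = ∑ i, (y ᵥ* G.adjugate) i • b i := by
      funext k
      have h6 : ((G.det * w k : ℤ) : ℚ) = ((∑ i, (y ᵥ* G.adjugate) i * b i k : ℤ) : ℚ) := by
        rw [Int.cast_mul, Int.cast_sum, hwk, Finset.mul_sum]
        refine Finset.sum_congr rfl fun i _ => ?_
        rw [Int.cast_mul, ← h2 i]
        ring
      have h7 : G.det * w k = ∑ i, (y ᵥ* G.adjugate) i * b i k := by exact_mod_cast h6
      simpa using h7
    have h8 : G.det • w ∈ Submodule.span ℤ S := by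
      rw [h5]
      exact Submodule.sum_mem _ fun i _ => Submodule.smul_mem _ _ (Submodule.subset_span (a i).2)
    rw [Int.natCast_natAbs]
    rcases abs_choice G.det with h | h
    · rw [h]; exact h8
    · rw [h, neg_smul]; exact Submodule.neg_mem _ h8

theorem index_bound (S : Set (κ → ℤ)) (hS : ∀ u ∈ S, ∀ i, |u i| ≤ 4) :
    (Submodule.span ℤ S).toAddSubgroup.relIndex (sat (Submodule.span ℤ S)) ≠ 0 ∧
    (Submodule.span ℤ S).toAddSubgroup.relIndex (sat (Submodule.span ℤ S)) ≤
      2 ^ (10 * (Fintype.card κ + 1) ^ 3) := by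
  classical
  obtain ⟨N, hN, hNb, hmul⟩ := exists_mult S hS
  have : NeZero N := ⟨hN.ne'⟩
  let f : (κ → ℤ) →+ (κ → ZMod N) :=
    { toFun := fun v i => (v i : ZMod N)
      map_zero' := by funext i; simp
      map_add' := fun u v => by funext i; simp }
  set V := sat (Submodule.span ℤ S) with hV
  have hle : f.ker ⊓ V ≤ (Submodule.span ℤ S).toAddSubgroup := by
    rintro v ⟨hv1, hv2⟩
    have h1 : ∀ i, (N : ℤ) ∣ v i := fun i =>
      (ZMod.intCast_zmod_eq_zero_iff_dvd _ _).mp (congrFun hv1 i)
    choose w hw using h1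
    have h2 : v = (N : ℤ) • w := by
      funext i
      simp [hw i]
    have h3 : toQ v ∈ Submodule.span ℚ (toQ '' S) := by
      rw [← spanQ_span]
      exact hv2
    have h4 : toQ w = ((N : ℚ))⁻¹ • toQ v := by
      funext i
      have hN' : (N : ℚ) ≠ 0 := by exact_mod_cast hN.ne'
      simp only [toQ_apply, Pi.smul_apply, smul_eq_mul, hw i]
      push_cast
      field_simp
    rw [h2]
    exact hmul w (by rw [h4]; exact Submodule.smul_mem _ _ h3)
  have hdvd := AddSubgroup.relIndex_dvd_of_le_left V hle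
  rw [AddSubgroup.inf_relIndex_right, AddSubgroup.relIndex_ker] at hdvd
  have hpos : 0 < Nat.card (V.map f) := Nat.card_pos
  have hcard : Nat.card (V.map f) ≤ N ^ Fintype.card κ := by
    refine le_trans (Nat.card_le_card_of_injective _ Subtype.val_injective) ?_
    simp
  refine ⟨fun h0 => ?_, le_trans (Nat.le_of_dvd hpos hdvd) (le_trans hcard ?_)⟩
  · rw [h0, zero_dvd_iff] at hdvd
    omega
  · refine le_trans (Nat.pow_le_pow_left hNb _) ?_
    rw [← pow_mul]
    refine Nat.pow_le_pow_right (by norm_num) ?_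
    generalize Fintype.card κ = d
    nlinarith [Nat.zero_le (d ^ 3), Nat.zero_le (d ^ 2)]

/-- The potential. -/
noncomputable def pot (L : Submodule ℤ (κ → ℤ)) : ℕ :=
  (Fintype.card κ - Module.finrank ℚ (spanQ L)) * (10 * (Fintype.card κ + 1) ^ 3 + 1) +
    min (10 * (Fintype.card κ + 1) ^ 3) (Nat.log 2 (L.toAddSubgroup.relIndex (sat L)))

end Lat1

open Lat1 in
theorem lat1 : Lat1Stmt := by
  intro κ _
  refine ⟨pot, fun L => ?_, fun S v hS _ hv => ?_⟩
  · unfold pot latB
    generalize 10 * (Fintype.card κ + 1) ^ 3 = T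
    have h1 : (Fintype.card κ - Module.finrank ℚ (spanQ L)) * (T + 1) ≤ Fintype.card κ * (T + 1) :=
      Nat.mul_le_mul_right _ (Nat.sub_le _ _)
    have h2 := min_le_left T (Nat.log 2 (L.toAddSubgroup.relIndex (sat L)))
    nlinarith
  · set L := Submodule.span ℤ S with hL
    set L' := Submodule.span ℤ (insert v S) with hL'
    have hle : L ≤ L' := Submodule.span_mono (Set.subset_insert v S)
    have hQ : spanQ L ≤ spanQ L' := Submodule.span_mono (Set.image_mono hle)
    obtain ⟨h0, hb⟩ := index_bound S hS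
    rw [← hL] at h0 hb
    unfold pot
    generalize 10 * (Fintype.card κ + 1) ^ 3 = T at hb ⊢
    rcases hQ.lt_or_eq with hlt | heq
    · have h1 := Submodule.finrank_lt_finrank_of_lt hlt
      have h2 : Module.finrank ℚ (spanQ L') ≤ Fintype.card κ := by
        have := Submodule.finrank_le (spanQ L')
        simpa using this
      have h3 : (Fintype.card κ - Module.finrank ℚ (spanQ L') + 1) * (T + 1) ≤
          (Fintype.card κ - Module.finrank ℚ (spanQ L)) * (T + 1) :=
        Nat.mul_le_mul_right _ (by omega)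
      have h4 := min_le_left T (Nat.log 2 (L'.toAddSubgroup.relIndex (sat L')))
      have h5 := Nat.zero_le (min T (Nat.log 2 (L.toAddSubgroup.relIndex (sat L))))
      nlinarith
    · have hsat : sat L = sat L' := by
        unfold sat
        rw [heq]
      have hmul := AddSubgroup.relIndex_mul_relIndex L.toAddSubgroup L'.toAddSubgroup (sat L')
        hle (le_sat L')
      rw [hsat] at h0 hb
      rw [heq, hsat]
      have h1 : L.toAddSubgroup.relIndex L'.toAddSubgroup ≠ 1 := by
        intro h
        exact hv (AddSubgroup.relIndex_eq_one.mp h (Submodule.subset_span (Set.mem_insert v S)))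
      have h2 : L.toAddSubgroup.relIndex L'.toAddSubgroup ≠ 0 := by
        intro h
        rw [h, zero_mul] at hmul
        exact h0 hmul.symm
      have h3 : L'.toAddSubgroup.relIndex (sat L') ≠ 0 := by
        intro h
        rw [h, mul_zero] at hmul
        exact h0 hmul.symm
      have h4 : L'.toAddSubgroup.relIndex (sat L') * 2 ≤ L.toAddSubgroup.relIndex (sat L') := by
        rw [← hmul, mul_comm]
        exact Nat.mul_le_mul_right _ (by omega)
      have h5 := Nat.log_mono_right (b := 2) h4
      rw [Nat.log_mul_base (by norm_num) h3] at h5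
      have h6 := Nat.log_mono_right (b := 2) hb
      rw [Nat.log_pow (by norm_num)] at h6
      omega

end Pool.Agent.MP_17db17_lc.H93
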