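import Pool.Agent.MP_17db17_lc.H93.Spec

set_option autoImplicit false

namespace Pool.Agent.MP_17db17_lc.H93

open Matrix

namespace Lat2

variable {σ κ : Type} [Fintype σ] [DecidableEq σ] [Fintype κ]

theorem det_ne (B : Matrix σ κ ℤ) (hB : ∀ c : σ → ℤ, c ᵥ* B = 0 → c = 0) :
    (B * Bᵀ).det ≠ 0 := by
  intro h
  obtain ⟨c, hc, h0⟩ := Matrix.exists_vecMul_eq_zero_iff.2 h
  apply hc
  apply hB
  rw [← dotProduct_self_eq_zero]
  have h1 : (c ᵥ* B) ⬝ᵥ (c ᵥ* B) = (c ᵥ* (B * Bᵀ)) ⬝ᵥ c := by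
    rw [← Matrix.vecMul_vecMul, Matrix.vecMul_transpose, dotProduct_comm (B *ᵥ (c ᵥ* B)) c,
      Matrix.dotProduct_mulVec]
  rw [h1, h0, zero_dotProduct]

theorem cramer (B : Matrix σ κ ℤ) (c : σ → ℤ) :
    ((c ᵥ* B) ᵥ* Bᵀ) ᵥ* (B * Bᵀ).adjugate = (B * Bᵀ).det • c := by
  rw [Matrix.vecMul_vecMul, Matrix.vecMul_vecMul, ← Matrix.mul_assoc, Matrix.mul_adjugate,
    Matrix.vecMul_smul, Matrix.vecMul_one]

theorem abs_sum_le {ι : Type} [Fintype ι] (f : ι → ℤ) (x : ℤ) (h : ∀ i, |f i| ≤ x) :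
    |∑ i, f i| ≤ Fintype.card ι * x := by
  refine (Finset.abs_sum_le_sum_abs _ _).trans ?_
  refine (Finset.sum_le_sum fun i _ => h i).trans ?_
  simp

omit [Fintype σ] [DecidableEq σ] in
theorem gram_le (B : Matrix σ κ ℤ) (hb : ∀ j i, |B j i| ≤ 4) (j k : σ) :
    |(B * Bᵀ) j k| ≤ 16 * Fintype.card κ + 1 := by
  rw [Matrix.mul_apply]
  have := abs_sum_le (fun i => B j i * Bᵀ i k) 16 (fun i => by
    rw [abs_mul, Matrix.transpose_apply]
    have h1 := hb j i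
    have h2 := hb k i
    nlinarith [abs_nonneg (B j i), abs_nonneg (B k i)])
  linarith

theorem det_bd (A : Matrix σ σ ℤ) (x : ℤ) (h : ∀ j k, |A j k| ≤ x) :
    |A.det| ≤ (Fintype.card σ).factorial * x ^ Fintype.card σ := by
  have := Matrix.det_le (A := A) (abv := AbsoluteValue.abs) (x := x) (fun i j => h i j)
  simpa using this

theorem adj_bd (A : Matrix σ σ ℤ) (x : ℤ) (hx : 1 ≤ x) (h : ∀ j k, |A j k| ≤ x) (j k : σ) :
    |A.adjugate j k| ≤ (Fintype.card σ).factorial * x ^ Fintype.card σ := by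
  rw [Matrix.adjugate_apply]
  apply det_bd
  intro a b
  rw [Matrix.updateRow_apply]
  split_ifs
  · rw [Pi.single_apply]
    split_ifs
    · simpa using hx
    · simp only [abs_zero]; linarith
  · exact h a b

theorem num (r d : ℕ) (h : r ≤ d) :
    (16 * d ^ 2 + 1) * (r.factorial * (16 * d + 1) ^ r) ^ 2 ≤ 2 ^ (20 * (d + 1) ^ 2) := by
  have hd : d < 2 ^ d := Nat.lt_two_pow_self
  have h1 : r.factorial ≤ 2 ^ (d * d) := by
    calc r.factorial ≤ d.factorial := Nat.factorial_le h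
      _ ≤ d ^ d := Nat.factorial_le_pow d
      _ ≤ (2 ^ d) ^ d := Nat.pow_le_pow_left hd.le d
      _ = 2 ^ (d * d) := by rw [← pow_mul]
  have h2 : (16 * d + 1) ^ r ≤ 2 ^ ((d + 4) * d) := by
    calc (16 * d + 1) ^ r ≤ (16 * d + 1) ^ d := Nat.pow_le_pow_right (by omega) h
      _ ≤ (2 ^ (d + 4)) ^ d := Nat.pow_le_pow_left (by rw [pow_add]; omega) d
      _ = 2 ^ ((d + 4) * d) := by rw [← pow_mul]
  have h3 : 16 * d ^ 2 + 1 ≤ 2 ^ (2 * d + 4) := by
    have : (d + 1) ^ 2 ≤ (2 ^ d) ^ 2 := Nat.pow_le_pow_left hd 2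
    have e : 2 ^ (2 * d + 4) = 16 * (2 ^ d) ^ 2 := by ring
    rw [e]; nlinarith
  calc (16 * d ^ 2 + 1) * (r.factorial * (16 * d + 1) ^ r) ^ 2
      ≤ 2 ^ (2 * d + 4) * (2 ^ (d * d) * 2 ^ ((d + 4) * d)) ^ 2 :=
        Nat.mul_le_mul h3 (Nat.pow_le_pow_left (Nat.mul_le_mul h1 h2) 2)
    _ = 2 ^ (2 * d + 4 + (d * d + (d + 4) * d) * 2) := by
        rw [← pow_add, ← pow_mul, ← pow_add]
    _ ≤ 2 ^ (20 * (d + 1) ^ 2) := Nat.pow_le_pow_right (by norm_num) (by nlinarith)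

theorem fin (R J d r : ℕ) (hr : r ≤ d) (x D : ℤ) (hD : D = r.factorial * (16 * d + 1) ^ r)
    (hD1 : 1 ≤ D) (h1 : |x| ≤ D + d * (d * (4 * (R + J * (4 * D))) * D)) :
    x.natAbs ≤ (R + J + 1) * 2 ^ (20 * (d + 1) ^ 2) := by
  have h2 : ((16 * d ^ 2 + 1 : ℕ) : ℤ) * D ^ 2 ≤ 2 ^ (20 * (d + 1) ^ 2) := by
    have := num r d hr
    rw [hD]; exact_mod_cast this
  clear hD
  have h3 : D + d * (d * (4 * (R + J * (4 * D))) * D) ≤
      (R + J + 1) * (((16 * d ^ 2 + 1 : ℕ) : ℤ) * D ^ 2) := by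
    clear h1 h2
    push_cast
    have a1 : (0 : ℤ) ≤ R := Int.natCast_nonneg _
    have a2 : (0 : ℤ) ≤ J := Int.natCast_nonneg _
    have a4 : D ≤ D ^ 2 := by nlinarith
    have a6 : (R : ℤ) * d ^ 2 * D ≤ R * d ^ 2 * D ^ 2 :=
      mul_le_mul_of_nonneg_left a4 (by positivity)
    have a7 : (0 : ℤ) ≤ R * d ^ 2 * D ^ 2 := by positivity
    have a8 : (0 : ℤ) ≤ (d : ℤ) ^ 2 * D ^ 2 := by positivity
    have a9 : (0 : ℤ) ≤ R * D ^ 2 := by positivity
    have a10 : (0 : ℤ) ≤ J * D ^ 2 := by positivity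
    nlinarith
  have h4 : ((R + J + 1 : ℕ) : ℤ) * (((16 * d ^ 2 + 1 : ℕ) : ℤ) * D ^ 2) ≤
      ((R + J + 1 : ℕ) : ℤ) * 2 ^ (20 * (d + 1) ^ 2) :=
    mul_le_mul_of_nonneg_left h2 (Int.natCast_nonneg _)
  have h5 := h1.trans h3
  rw [Int.abs_eq_natAbs] at h5
  have h6 : ((x.natAbs : ℕ) : ℤ) ≤ ((R + J + 1 : ℕ) : ℤ) * 2 ^ (20 * (d + 1) ^ 2) := by
    refine le_trans ?_ h4
    push_cast at h5 ⊢
    exact h5
  exact_mod_cast h6

end Lat2

open Lat2 in
theorem lat2 : Lat2Stmt := by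
  intro κ _ J h v R hh hv hs
  classical
  obtain ⟨s, hind, hmax⟩ := exists_maximal_linearIndepOn ℤ h
  let B : Matrix s κ ℤ := fun j i => h j i
  have hvm : ∀ c : s → ℤ, c ᵥ* B = ∑ j : s, c j • h j := by
    intro c; funext i
    simp [Matrix.vecMul, dotProduct, B, Finset.sum_apply]
  have hB : ∀ c : s → ℤ, c ᵥ* B = 0 → c = 0 := by
    intro c hc
    rw [hvm] at hc
    funext j
    exact Fintype.linearIndependent_iff.1 hind c hc j
  have hr : Fintype.card s ≤ Fintype.card κ := by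
    have := LinearIndependent.fintype_card_le_finrank hind
    simpa using this
  set d := Fintype.card κ with hd
  set r := Fintype.card s with hrdef
  set N := (B * Bᵀ).det with hN
  have hN0 : N ≠ 0 := det_ne B hB
  have hb : ∀ j i, |B j i| ≤ 4 := fun j i => hh j i
  set D : ℤ := r.factorial * (16 * d + 1) ^ r with hD
  have hND : |N| ≤ D := det_bd _ _ (gram_le B hb)
  have hN1 : 1 ≤ |N| := Int.one_le_abs hN0
  have hadj : ∀ j k, |(B * Bᵀ).adjugate j k| ≤ D :=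
    adj_bd _ _ (by have : (0 : ℤ) ≤ d := Int.natCast_nonneg _; linarith) (gram_le B hb)
  have hsp : ∀ w ∈ Submodule.span ℤ (h '' s), ∃ c : s → ℤ, c ᵥ* B = w := by
    intro w hw
    rw [Set.image_eq_range, Submodule.mem_span_range_iff_exists_fun] at hw
    obtain ⟨c, hc⟩ := hw
    exact ⟨c, by rw [hvm]; exact hc⟩
  have hu : ∀ j, ∃ u : s → ℤ, u ᵥ* B = N • h j := by
    intro j
    have : ∃ a : ℤ, a ≠ 0 ∧ a • h j ∈ Submodule.span ℤ (h '' s) := by
      by_cases hj : j ∈ s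
      · exact ⟨1, one_ne_zero, by
          rw [one_smul]; exact Submodule.subset_span ⟨j, hj, rfl⟩⟩
      · exact hmax j hj
    obtain ⟨a, ha, hm⟩ := this
    obtain ⟨c, hc⟩ := hsp _ hm
    refine ⟨(h j ᵥ* Bᵀ) ᵥ* (B * Bᵀ).adjugate, ?_⟩
    have h1 := cramer B c
    rw [hc, Matrix.smul_vecMul, Matrix.smul_vecMul] at h1
    apply smul_right_injective (κ → ℤ) ha
    show a • _ = a • _
    rw [← Matrix.smul_vecMul, h1, Matrix.smul_vecMul, hc, smul_comm]
  choose u hu using hu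
  obtain ⟨t, ht⟩ := (Submodule.mem_span_range_iff_exists_fun ℤ).1 hs
  let c : s → ℤ := ∑ j, (t j / N) • u j
  let w : κ → ℤ := v - ∑ j, (t j % N) • h j
  have hcw : c ᵥ* B = w := by
    have : c ᵥ* B = ∑ j, (t j / N) • (N • h j) := by
      simp only [c, Matrix.sum_vecMul, Matrix.smul_vecMul, hu]
    rw [this]
    simp only [w, ← ht, ← Finset.sum_sub_distrib, smul_smul, ← sub_smul]
    refine Finset.sum_congr rfl fun j _ => ?_
    congr 1
    have := Int.mul_ediv_add_emod (t j) N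
    linarith
  have hmod : ∀ j, |t j % N| ≤ D := by
    intro j
    have h1 := Int.emod_nonneg (t j) hN0
    have h2 := Int.emod_lt_abs (t j) hN0
    rw [abs_of_nonneg h1]; linarith
  have hD1 : 1 ≤ D := hN1.trans hND
  have hw : ∀ i, |w i| ≤ R + J * (4 * D) := by
    intro i
    have h1 : |v i| ≤ R := by
      have := hv i
      rw [Int.abs_eq_natAbs]; exact_mod_cast this
    have h2 := abs_sum_le (fun j => (t j % N) * h j i) (4 * D) (fun j => by
      rw [abs_mul]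
      have := hmod j
      have := hh j i
      nlinarith [abs_nonneg (t j % N), abs_nonneg (h j i)])
    have e : w i = v i - ∑ j, (t j % N) * h j i := by
      simp [w, Finset.sum_apply]
    rw [e]
    have := abs_sub (v i) (∑ j, (t j % N) * h j i)
    simp only [Fintype.card_fin] at h2
    linarith
  set Y : ℤ := R + J * (4 * D) with hY
  have hY0 : 0 ≤ Y := by positivity
  have hc : ∀ j, |c j| ≤ d * (d * (4 * Y) * D) := by
    intro j
    have h1 := congrFun (cramer B c) j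
    rw [hcw] at h1
    have h2 : ∀ k, |(w ᵥ* Bᵀ) k| ≤ d * (4 * Y) := by
      intro k
      refine abs_sum_le (fun i => w i * Bᵀ i k) (4 * Y) fun i => ?_
      rw [abs_mul, Matrix.transpose_apply]
      have := hw i
      have := hb k i
      nlinarith [abs_nonneg (w i), abs_nonneg (B k i)]
    have h3 : |((w ᵥ* Bᵀ) ᵥ* (B * Bᵀ).adjugate) j| ≤ r * (d * (4 * Y) * D) := by
      refine abs_sum_le (fun k => (w ᵥ* Bᵀ) k * (B * Bᵀ).adjugate k j) _ fun k => ?_
      rw [abs_mul]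
      exact mul_le_mul (h2 k) (hadj k j) (abs_nonneg _) (by positivity)
    rw [h1, Pi.smul_apply, smul_eq_mul, abs_mul] at h3
    have h4 : (r : ℤ) ≤ d := by exact_mod_cast hr
    have h5 : (0 : ℤ) ≤ d * (4 * Y) * D := by positivity
    have h6 : |c j| ≤ |N| * |c j| := le_mul_of_one_le_left (abs_nonneg _) hN1
    nlinarith
  have hpos : (0 : ℤ) ≤ d * (d * (4 * Y) * D) :=
    mul_nonneg (Int.natCast_nonneg _) (mul_nonneg (mul_nonneg (Int.natCast_nonneg _)
      (by linarith)) (by linarith))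
  refine ⟨fun j => t j % N + if hj : j ∈ s then c ⟨j, hj⟩ else 0, ?_, ?_⟩
  · simp only [add_smul, Finset.sum_add_distrib]
    have : ∑ j, (if hj : j ∈ s then c ⟨j, hj⟩ else 0) • h j = ∑ j : s, c j • h j := by
      rw [← Fintype.sum_subtype_add_sum_subtype (· ∈ s)]
      have e1 : ∑ j : {j // ¬ j ∈ s}, (if hj : j.1 ∈ s then c ⟨j.1, hj⟩ else 0) • h j.1 = 0 :=
        Finset.sum_eq_zero fun j _ => by rw [dif_neg j.2, zero_smul]
      rw [e1, add_zero]
      exact Finset.sum_congr rfl fun j _ => by rw [dif_pos j.2]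
    rw [this, ← hvm, hcw]
    simp [w]
  · intro j
    have h1 : |t j % N + if hj : j ∈ s then c ⟨j, hj⟩ else 0| ≤ D + d * (d * (4 * Y) * D) := by
      refine (abs_add_le _ _).trans (add_le_add (hmod j) ?_)
      split_ifs with hj
      · exact hc _
      · rw [abs_zero]; exact hpos
    exact fin R J d r hr _ D hD hD1 h1

end Pool.Agent.MP_17db17_lc.H93
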