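import Pool.Agent.MP_17db17_lc.H93.Basic

set_option autoImplicit false

namespace Pool.Agent.MP_17db17_lc.H93

namespace RowLeaf

variable {ι V : Type} {G : Gr ι V} {D : Sys ι V ℤ} {F : ι → Prop} {f0 : ι} {N T : ℕ}
  {lo hi : ι → ℕ → ℤ}

/-! ### The order of the gaps -/

lemma hi_le (gp : Gaps D G F f0 N T lo hi) {g : ι} (hg : F g) {s t : ℕ} (hs : s ≤ T) (ht : t ≤ T)
    (h : lo g s < lo g t) : hi g s ≤ lo g t :=
  (gp.gap g hg s hs _ (gp.mem g hg t ht).1).resolve_left (not_le.2 h)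

lemma tri (gp : Gaps D G F f0 N T lo hi) {g : ι} (hg : F g) {s t : ℕ} (hs : s ≤ T) (ht : t ≤ T)
    (h : s ≠ t) : lo g s < lo g t ∨ lo g t < lo g s :=
  lt_or_gt_of_ne fun e => h (gp.inj g hg s hs t ht e)

lemma oa1 (hG : G.Symm) (gp : Gaps D G F f0 N T lo hi) {g : ι} (hg : F g) {s t : ℕ} (hs : s ≤ T)
    (ht : t ≤ T) (h : lo f0 s < lo f0 t) : lo g s < lo g t := by
  have hne : s ≠ t := fun e => by rw [e] at h; exact lt_irrefl _ h
  have hc := gp.conn g hg
  clear hg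
  induction hc with
  | refl => exact h
  | tail _ hab ih =>
    obtain ⟨ha, hb, hab⟩ := hab
    refine (tri gp hb hs ht hne).resolve_right fun h2 => ?_
    have a1 := hi_le gp ha hs ht ih
    have a2 := hi_le gp hb ht hs h2
    have a3 := gp.adj _ _ ha hb hab s hs
    have a4 := gp.adj _ _ hb ha (hG _ _ hab) t ht
    omega

lemma oa2 (hG : G.Symm) (gp : Gaps D G F f0 N T lo hi) {g : ι} (hg : F g) {s t : ℕ} (hs : s ≤ T)
    (ht : t ≤ T) (h : lo g s < lo g t) : lo f0 s < lo f0 t :=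
  (tri gp gp.base hs ht fun e => by rw [e] at h; exact lt_irrefl _ h).resolve_right
    fun h2 => lt_asymm h (oa1 hG gp hg ht hs h2)

/-! ### New places -/

/-- the cell of a place with respect to a finite set -/
def io (Φ : Finset ℤ) (y : ℤ) : ℤ := rank Φ y + rank Φ (y + 1)

lemma rank_le (Φ : Finset ℤ) {y y' : ℤ} (h : y ≤ y') : rank Φ y ≤ rank Φ y' := by
  unfold rank
  exact_mod_cast Finset.card_le_card fun z hz => by
    simp only [Finset.mem_filter] at hz ⊢; exact ⟨hz.1, hz.2.trans_le h⟩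

lemma io_le (Φ : Finset ℤ) {y y' : ℤ} (h : y ≤ y') : io Φ y ≤ io Φ y' :=
  add_le_add (rank_le Φ h) (rank_le Φ (by omega))

lemma io_lt {Φ : Finset ℤ} {y y' : ℤ} (h : y < y') (h' : y ∈ Φ ∨ y' ∈ Φ) : io Φ y < io Φ y' := by
  rcases h' with h' | h'
  · exact add_lt_add_of_lt_of_le (rank_lt h' h) (rank_le Φ (by omega))
  · exact add_lt_add_of_le_of_lt (rank_le Φ h.le)
      ((rank_le Φ (by omega)).trans_lt (rank_lt h' (lt_add_one y')))

lemma io_eq {Φ : Finset ℤ} {y y' : ℤ} (h : ∀ z ∈ Φ, (z < y ∧ z < y') ∨ (y < z ∧ y' < z)) :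
    io Φ y = io Φ y' := by
  unfold io rank
  rw [Finset.filter_congr (q := (· < y')) fun z hz => by have := h z hz; omega,
    Finset.filter_congr (p := (· < y + 1)) (q := (· < y' + 1)) fun z hz => by
      have := h z hz; omega]

lemma lex_lt {a a' c c' : ℤ} {b b' : ℕ} (h : a < a' ∨ (a ≤ a' ∧ (b < b' ∨ (b ≤ b' ∧ c < c')))) :
    toLex (a, toLex (b, c)) < toLex (a', toLex (b', c')) := by
  simp only [Prod.Lex.toLex_lt_toLex]
  omega

/-- the properties of the new places -/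
structure Keys {β : Type} [LinearOrder β] (G : Gr ι V) (D : Sys ι V ℤ) (F : ι → Prop) (f0 : ι)
    (T : ℕ) (lo hi : ι → ℕ → ℤ) (φV : V → β) (φ : ι → ℤ → β) (L : ℕ → β) : Prop where
  ok : RemapOK G D φV φ
  k2 : ∀ g, F g → ∀ y ∈ D.mid g, ∀ t ≤ T,
    (y ≤ lo g t → φ g y < L t) ∧ (hi g t ≤ y → L t < φ g y)
  kV : ∀ x, ∀ t ≤ T, (D.pos x < lo f0 t → φV x < L t) ∧ (lo f0 t < D.pos x → L t < φV x)
  kI : ∀ e, G.Nb F e → ∀ y ∈ D.mid e, ∀ t ≤ T,
    (y < lo f0 t → φ e y < L t) ∧ (lo f0 t < y → L t < φ e y)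
  k4 : ∀ s ≤ T, ∀ t ≤ T, lo f0 s < lo f0 t → L s < L t
  k5 : ∀ e, ∀ y ∈ D.mid e, ∀ t ≤ T, φ e y ≠ L t

lemma keys_lex [Fintype ι] [Fintype V] (hG : G.Symm) (hv : D.Valid G)
    (gp : Gaps D G F f0 N T lo hi) : ∃ (φV : V → ℤ ×ₗ ℕ ×ₗ ℤ) (φ : ι → ℤ → ℤ ×ₗ ℕ ×ₗ ℤ)
      (L : ℕ → ℤ ×ₗ ℕ ×ₗ ℤ), Keys G D F f0 T lo hi φV φ L := by
  classical
  obtain ⟨Φ, hΦ⟩ : ∃ Φ : Finset ℤ, ∀ y, y ∈ Φ ↔ Fixed D G F y :=
    ⟨Finset.univ.image D.pos ∪
      (Finset.univ.filter (G.Nb F)).biUnion fun e => (D.mid e).toFinset, fun y => by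
        simp [Fixed, eq_comm]⟩
  have fV : ∀ x, D.pos x ∈ Φ := fun x => (hΦ _).2 (.inl ⟨x, rfl⟩)
  have fI : ∀ e, G.Nb F e → ∀ y ∈ D.mid e, y ∈ Φ := fun e he y hy => (hΦ _).2 (.inr ⟨e, he, hy⟩)
  let sl : ι → ℤ → ℕ := fun e y => if F e ∧ y ∈ D.mid e then
    2 * ((Finset.range (T + 1)).filter fun t => hi e t ≤ y).card else 0
  let nb : ℕ → ℕ := fun t => ((Finset.range (T + 1)).filter fun s => lo f0 s < lo f0 t).card
  have sF : ∀ e, F e → ∀ y ∈ D.mid e,
      sl e y = 2 * ((Finset.range (T + 1)).filter fun t => hi e t ≤ y).card :=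
    fun e he y hy => if_pos ⟨he, hy⟩
  have sN : ∀ e, ¬ F e → ∀ y, sl e y = 0 := fun e he y => if_neg fun h => he h.1
  refine ⟨fun x => toLex (io Φ (D.pos x), toLex (0, D.pos x)),
    fun e y => toLex (io Φ y, toLex (sl e y, y)),
    fun t => toLex (io Φ (lo f0 t), toLex (2 * nb t + 1, 0)),
    ⟨fun e x => ?_, fun x y h => lex_lt (.inl (io_lt h (.inl (fV x)))),
      fun e e' he y y' hy hy' h => ?_, fun e e' he y hy y' hy' h => ?_⟩,
    fun g hg y hy t ht => ⟨fun h => ?_, fun h => ?_⟩,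
    fun x t _ => ⟨fun h => lex_lt (.inl (io_lt h (.inl (fV x)))),
      fun h => lex_lt (.inl (io_lt h (.inr (fV x))))⟩,
    fun e he y hy t _ => ⟨fun h => lex_lt (.inl (io_lt h (.inl (fI e he y hy)))),
      fun h => lex_lt (.inl (io_lt h (.inr (fI e he y hy))))⟩,
    fun s hs t ht h => lex_lt (.inr ⟨io_le Φ h.le, .inl ?_⟩), fun e y hy t _ h => ?_⟩
  · rw [show sl e (D.pos x) = 0 from if_neg fun h => hv.notV e x h.2]
  · by_cases h1 : y ∈ Φ ∨ y' ∈ Φ
    · exact lex_lt (.inl (io_lt h h1))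
    have m1 : y ∈ D.mid e := hy.resolve_right fun ⟨x, e⟩ => h1 (.inl (e ▸ fV x))
    have m2 : y' ∈ D.mid e' := hy'.resolve_right fun ⟨x, e⟩ => h1 (.inr (e ▸ fV x))
    refine lex_lt (.inr ⟨io_le Φ h.le, .inr ⟨?_, h⟩⟩)
    by_cases h2 : F e
    · have h3 : F e' := by
        by_contra h3
        rcases he with rfl | he
        exacts [h3 h2, h1 (.inr (fI e' ⟨h3, e, h2, he⟩ y' m2))]
      rw [sF e h2 y m1, sF e' h3 y' m2]
      refine Nat.mul_le_mul_left 2 (Finset.card_le_card fun t ht => ?_)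
      simp only [Finset.mem_filter, Finset.mem_range] at ht ⊢
      refine ⟨ht.1, ?_⟩
      rcases he with rfl | he
      · omega
      · have a1 := gp.adj _ _ h2 h3 he t (by omega)
        have a2 := gp.gap _ h3 t (by omega) y' m2
        omega
    · rw [sN e h2]
      exact Nat.zero_le _
  · have e1 : y = y' := congrArg (fun p => (ofLex (ofLex p).2).2) h
    exact hv.disj e e' he y hy (e1 ▸ hy')
  · have e1 : io Φ (lo g t) = io Φ (lo f0 t) := io_eq fun z hz => by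
      have := gp.core g hg t ht z ((hΦ z).1 hz)
      have := gp.lt g hg t ht
      have := gp.lt f0 gp.base t ht
      omega
    refine lex_lt (.inr ⟨e1 ▸ io_le Φ h, .inl ?_⟩)
    rw [sF g hg y hy]
    refine Nat.lt_succ_of_le (Nat.mul_le_mul_left 2 (Finset.card_le_card fun s hs => ?_))
    simp only [Finset.mem_filter, Finset.mem_range] at hs ⊢
    have := gp.lt g hg s (by omega)
    exact ⟨hs.1, oa2 hG gp hg (by omega) ht (by omega)⟩
  · have e1 : io Φ (hi g t) = io Φ (lo f0 t) := io_eq fun z hz => by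
      have := gp.core g hg t ht z ((hΦ z).1 hz)
      have := gp.lt g hg t ht
      have := gp.lt f0 gp.base t ht
      omega
    refine lex_lt (.inr ⟨e1 ▸ io_le Φ h, .inl ?_⟩)
    rw [sF g hg y hy]
    have : nb t < ((Finset.range (T + 1)).filter fun s => hi g s ≤ y).card := by
      refine Finset.card_lt_card ⟨fun s hs => ?_, fun h' => ?_⟩
      · simp only [Finset.mem_filter, Finset.mem_range] at hs ⊢
        have := hi_le gp hg (by omega) ht (oa1 hG gp hg (s := s) (by omega) ht hs.2)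
        have := gp.lt g hg t ht
        exact ⟨hs.1, by omega⟩
      · have := h' (Finset.mem_filter.2 ⟨Finset.mem_range.2 (Nat.lt_succ_of_le ht), h⟩)
        simp at this
    omega
  · have : nb s < nb t := by
      refine Finset.card_lt_card ⟨fun r hr => ?_, fun h' => ?_⟩
      · simp only [Finset.mem_filter] at hr ⊢
        exact ⟨hr.1, hr.2.trans h⟩
      · have := h' (Finset.mem_filter.2 ⟨Finset.mem_range.2 (Nat.lt_succ_of_le hs), h⟩)
        simp at this
    omega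
  · have e1 : sl e y = 2 * nb t + 1 := congrArg (fun p => (ofLex (ofLex p).2).1) h
    simp only [sl] at e1
    split_ifs at e1
    omega

lemma keys_int [Fintype ι] [Fintype V] {β : Type} [LinearOrder β] {φV : V → β} {φ : ι → ℤ → β}
    {L : ℕ → β} (k : Keys G D F f0 T lo hi φV φ L) :
    ∃ (φV : V → ℤ) (φ : ι → ℤ → ℤ) (L : ℕ → ℤ), Keys G D F f0 T lo hi φV φ L := by
  classical
  let S : Finset β := Finset.univ.image φV ∪ (Finset.range (T + 1)).image L ∪
    Finset.univ.biUnion fun e => (D.mid e).toFinset.image (φ e)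
  have s1 : ∀ x, φV x ∈ S := fun x => by simp [S]
  have s2 : ∀ t ≤ T, L t ∈ S := fun t ht => Finset.mem_union_left _ (Finset.mem_union_right _
    (Finset.mem_image_of_mem _ (Finset.mem_range.2 (Nat.lt_succ_of_le ht))))
  have s3 : ∀ e, ∀ y ∈ D.mid e, φ e y ∈ S := fun e y hy => Finset.mem_union_right _
    (Finset.mem_biUnion.2 ⟨e, Finset.mem_univ _, Finset.mem_image_of_mem _ (List.mem_toFinset.2 hy)⟩)
  have ne : ∀ a ∈ S, ∀ b ∈ S, a ≠ b → rank S a ≠ rank S b := fun a ha b hb h =>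
    (lt_or_gt_of_ne h).elim (fun h => (rank_lt ha h).ne) fun h => (rank_lt hb h).ne'
  refine ⟨fun x => rank S (φV x), fun e y => rank S (φ e y), fun t => rank S (L t),
    ⟨fun e x => by rw [k.ok.vert], fun x y h => rank_lt (s1 x) (k.ok.ord x y h),
      fun e e' he y y' hy hy' h => rank_lt ?_ (k.ok.mono e e' he y y' hy hy' h),
      fun e e' he y hy y' hy' => ne _ (s3 e y hy) _ (s3 e' y' hy') (k.ok.disj e e' he y hy y' hy')⟩,
    fun g hg y hy t ht => ⟨fun h => rank_lt (s3 g y hy) ((k.k2 g hg y hy t ht).1 h),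
      fun h => rank_lt (s2 t ht) ((k.k2 g hg y hy t ht).2 h)⟩,
    fun x t ht => ⟨fun h => rank_lt (s1 x) ((k.kV x t ht).1 h),
      fun h => rank_lt (s2 t ht) ((k.kV x t ht).2 h)⟩,
    fun e he y hy t ht => ⟨fun h => rank_lt (s3 e y hy) ((k.kI e he y hy t ht).1 h),
      fun h => rank_lt (s2 t ht) ((k.kI e he y hy t ht).2 h)⟩,
    fun s hs t ht h => rank_lt (s2 s hs) (k.k4 s hs t ht h),
    fun e y hy t ht => ne _ (s3 e y hy) _ (s2 t ht) (k.k5 e y hy t ht)⟩
  rcases hy with hy | ⟨x, rfl⟩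
  · exact s3 e y hy
  · rw [k.ok.vert]; exact s1 x

/-! ### The chords of the leaf -/

variable {φV : V → ℤ} {φ : ι → ℤ → ℤ} {L : ℕ → ℤ}

/-- A chord that starts weakly under a chord stays weakly under it. -/
lemma under (hv : D.Valid G) {g e : ι} (he : g = e ∨ G.H g e) {π : Bool} {u v p q : ℤ}
    (hu : u ∈ D.mid g) (hw : v ∈ D.mid g) (c : D.Ch G g π u v) (d : D.Ch G e π p q) (h1 : u ≤ p)
    (h2 : p ≤ v) : u ≤ q ∧ q ≤ v := by
  have eq : p ∈ D.mid g → g = e := fun h => by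
    by_contra h'
    exact hv.not_mem_path h' h d.mem.1
  rcases h1.eq_or_lt with rfl | h1
  · obtain rfl := eq hu
    rw [hv.ch_unique d c]
    exact ⟨h2, le_rfl⟩
  rcases h2.eq_or_lt with rfl | h2
  · obtain rfl := eq hw
    rw [hv.ch_unique d c.symm]
    exact ⟨le_rfl, h1.le⟩
  have := hv.ch_not_cross he c d
  simp only [Cross, Btw, Out, true_and] at this
  omega

/-- the gaps at the times `s` and `t` are joined on page `π` -/
def Lk (D : Sys ι V ℤ) (G : Gr ι V) (F : ι → Prop) (lo hi : ι → ℕ → ℤ) (π : Bool) (s t : ℕ) :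
    Prop := ∀ g, F g → D.Ch G g π (lo g s) (hi g t) ∧ D.Ch G g π (hi g s) (lo g t)

lemma Lk.symm {π : Bool} {s t : ℕ} (h : Lk D G F lo hi π s t) : Lk D G F lo hi π t s :=
  fun g hg => ⟨(h g hg).2.symm, (h g hg).1.symm⟩

lemma side (gp : Gaps D G F f0 N T lo hi) (k : Keys G D F f0 T lo hi φV φ L) {g e : ι} (hg : F g)
    (he : g = e ∨ G.Nb F e) {y : ℤ} (hy : D.Pt e y) {t : ℕ} (ht : t ≤ T) :
    (y ≤ lo g t ∧ φ e y < L t) ∨ (hi g t ≤ y ∧ L t < φ e y) := by
  have h0 := gp.lt f0 gp.base t ht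
  rcases hy with hy | ⟨x, rfl⟩
  · rcases he with rfl | he
    · exact (gp.gap g hg t ht y hy).imp (fun h => ⟨h, (k.k2 g hg y hy t ht).1 h⟩)
        fun h => ⟨h, (k.k2 g hg y hy t ht).2 h⟩
    · exact (gp.core g hg t ht y (.inr ⟨e, he, hy⟩)).imp
        (fun h => ⟨h.1.le, (k.kI e he y hy t ht).1 h.2⟩)
        fun h => ⟨h.1.le, (k.kI e he y hy t ht).2 (h0.trans h.2)⟩
  · rw [k.ok.vert]
    exact (gp.core g hg t ht _ (.inl ⟨x, rfl⟩)).imp (fun h => ⟨h.1.le, (k.kV x t ht).1 h.2⟩)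
      fun h => ⟨h.1.le, (k.kV x t ht).2 (h0.trans h.2)⟩

lemma avoid1 (hv : D.Valid G) (gp : Gaps D G F f0 N T lo hi)
    (k : Keys G D F f0 T lo hi φV φ L) {π : Bool} {s t : ℕ} (hs : s ≤ T) (ht : t ≤ T)
    (hl : Lk D G F lo hi π s t) (h : lo f0 s < lo f0 t) {e : ι} (he : F e ∨ G.Nb F e) {p q : ℤ}
    (d : D.Ch G e π p q) : ¬ Cross (π, L s, L t) (π, φ e p, φ e q) := by
  obtain ⟨g, hg, h1, h2⟩ : ∃ g, F g ∧ (g = e ∨ G.H g e) ∧ (g = e ∨ G.Nb F e) := by
    rcases he with he | he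
    · exact ⟨e, he, .inl rfl, .inl rfl⟩
    · obtain ⟨g, hg, h'⟩ := he.2
      exact ⟨g, hg, .inr h', .inr he⟩
  have a1 := side gp k hg h2 (Sys.pt_of_mem_path d.mem.1) hs
  have a2 := side gp k hg h2 (Sys.pt_of_mem_path d.mem.1) ht
  have a3 := side gp k hg h2 (Sys.pt_of_mem_path d.mem.2) hs
  have a4 := side gp k hg h2 (Sys.pt_of_mem_path d.mem.2) ht
  have a5 := under hv h1 (gp.mem g hg s hs).2 (gp.mem g hg t ht).1 (hl g hg).2 d
  have a6 := under hv h1 (gp.mem g hg s hs).2 (gp.mem g hg t ht).1 (hl g hg).2 d.symm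
  have a7 := k.k4 s hs t ht h
  have a8 := gp.lt g hg s hs
  have a9 := gp.lt g hg t ht
  simp only [Cross, Btw, Out, true_and]
  omega

lemma k4' (gp : Gaps D G F f0 N T lo hi) (k : Keys G D F f0 T lo hi φV φ L) {s t : ℕ} (hs : s ≤ T)
    (ht : t ≤ T) (h : L s < L t) : lo f0 s < lo f0 t :=
  (tri gp gp.base hs ht fun e => by rw [e] at h; exact lt_irrefl _ h).resolve_right
    fun h2 => lt_asymm h (k.k4 t ht s hs h2)

lemma self1 (hv : D.Valid G) (gp : Gaps D G F f0 N T lo hi) (k : Keys G D F f0 T lo hi φV φ L)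
    {π : Bool} {s t s' t' : ℕ} (hs : s ≤ T) (ht : t ≤ T) (hs' : s' ≤ T) (ht' : t' ≤ T)
    (hl : Lk D G F lo hi π s t) (hl' : Lk D G F lo hi π s' t') (h1 : L s < L s') (h2 : L s' < L t) :
    ¬ L t' < L s ∧ ¬ L t < L t' := by
  have b := gp.base
  have a1 := hi_le gp b hs hs' (k4' gp k hs hs' h1)
  have a2 := hi_le gp b hs' ht (k4' gp k hs' ht h2)
  have a3 := gp.lt f0 b s hs
  have a4 := gp.lt f0 b s' hs'
  have a5 := under hv (.inl rfl) (gp.mem f0 b s hs).2 (gp.mem f0 b t ht).1 (hl f0 b).2 (hl' f0 b).2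
    (by omega) a2
  exact ⟨fun h => by have := k4' gp k ht' hs h; omega, fun h => by have := k4' gp k ht ht' h; omega⟩

lemma sep1 (hr : D.Reduced G) (gp : Gaps D G F f0 N T lo hi) (k : Keys G D F f0 T lo hi φV φ L)
    {π : Bool} {s t : ℕ} (hs : s ≤ T) (ht : t ≤ T) (hl : Lk D G F lo hi π s t)
    (h : lo f0 s < lo f0 t) : (D.remap φV φ).Sep (L s) (L t) := by
  have b := gp.base
  obtain ⟨x, hx⟩ := hr.ch_sep (hl f0 b).2
  have a1 := hi_le gp b hs ht h
  have a2 := gp.lt f0 b s hs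
  have a3 := gp.core f0 b t ht _ (.inl ⟨x, rfl⟩)
  have a4 := gp.lt f0 b t ht
  unfold InW at hx
  exact ⟨x, .inl ⟨((k.kV x s hs).2 (by omega)).le, ((k.kV x t ht).1 (by omega)).le⟩⟩

lemma chords_range (L : ℕ → ℤ) (n a : ℕ) : chords (pg a) ((List.range' a (n + 1)).map L) =
    (List.range' a n).map fun s => (pg s, L s, L (s + 1)) := by
  induction n generalizing a with
  | zero => simp
  | succ n ih =>
    have := ih (a + 1)
    rw [pg_succ] at this
    rw [List.range'_succ, List.range'_succ (s := a) (n := n), List.map_cons, List.map_cons, ← this,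
      List.range'_succ, List.map_cons, chords_cons_cons]

lemma cov_range (c : ℕ → Chord ℤ) (z : ℤ) (a n : ℕ) :
    covL true ((List.range' 0 (a + n)).map c) z =
      covL true ((List.range' 0 a).map c) z + covL true ((List.range' a n).map c) z := by
  rw [← covL_append, ← List.map_append]
  congr 2
  simpa using (List.range'_append_1 (s := 0) (m := a) (n := n)).symm

end RowLeaf

open RowLeaf

theorem leaf : LeafStmt := by
  classical
  intro ι V _ _ G hG D hv hr F f0 T lo hi gp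
  obtain ⟨_, _, _, k0⟩ := keys_lex hG hv gp
  obtain ⟨φV, φ, L, k⟩ := keys_int k0
  obtain ⟨S, S1, S2, S3⟩ := gp.ret
  have b := gp.base
  let c : ℕ → Chord ℤ := fun s => (pg s, L s, L (s + 1))
  obtain ⟨a, ha, n, hn, hp⟩ : ∃ a ∈ S, ∃ n, a + (n + 1) ∈ S ∧
      ∀ x, Even (covL true ((List.range' a (n + 1)).map c) (φV x)) := by
    obtain ⟨s, hs, t, ht, hne, he⟩ := Finset.exists_ne_map_eq_of_card_lt_of_maps_to (s := S)
      (t := (Finset.univ : Finset (V → Bool))) (by simpa using S1)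
      (f := fun t x => decide (Even (covL true ((List.range' 0 t).map c) (φV x))))
      fun _ _ => Finset.mem_univ _
    wlog h : s < t generalizing s t
    · exact this t ht s hs hne.symm he.symm (by omega)
    obtain ⟨n, rfl⟩ : ∃ n, t = s + (n + 1) := ⟨t - s - 1, by omega⟩
    refine ⟨s, hs, n, ht, fun x => ?_⟩
    have := congrFun he x
    simp only [cov_range, decide_eq_decide, Int.even_add] at this
    tauto
  have hT := S2 _ hn
  have e : L a :: ((List.range' (a + 1) n).map L ++ [L (a + (n + 1))]) =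
      (List.range' a (n + 1 + 1)).map L := by
    rw [List.range'_succ, List.range'_concat]
    simp [add_assoc, add_comm 1 n]
  have mem : ∀ y ∈ (List.range' a (n + 1 + 1)).map L, ∃ t ≤ T, y = L t := fun y hy => by
    obtain ⟨t, ht, rfl⟩ := List.mem_map.1 hy
    exact ⟨t, by have := List.mem_range'_1.1 ht; omega, rfl⟩
  have memc : ∀ d ∈ chords (pg a) ((List.range' a (n + 1 + 1)).map L), ∃ π s t, s ≤ T ∧ t ≤ T ∧
      Lk D G F lo hi π s t ∧ lo f0 s < lo f0 t ∧ (d = (π, L s, L t) ∨ d = (π, L t, L s)) := by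
    intro d hd
    rw [chords_range] at hd
    obtain ⟨t, ht, rfl⟩ := List.mem_map.1 hd
    have h1 : t < T := by have := List.mem_range'_1.1 ht; omega
    have h2 : Lk D G F lo hi (pg t) t (t + 1) := fun g hg => gp.ch g hg t h1
    rcases tri gp b h1.le h1 (Nat.lt_succ_self t).ne with h | h
    · exact ⟨_, _, _, h1.le, h1, h2, h, .inl rfl⟩
    · exact ⟨_, _, _, h1, h1.le, h2.symm, h, .inr rfl⟩
  have out : ∀ y z, Fixed D G F y →
      (∀ t ≤ T, (y < lo f0 t → z < L t) ∧ (lo f0 t < y → L t < z)) →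
      ¬ InW (L a) (L (a + (n + 1))) z := by
    intro y z hy hz
    have a1 := S3 _ ha _ hn y hy
    have a2 := hz _ (S2 _ ha)
    have a3 := hz _ hT
    have a4 := gp.core f0 b _ (S2 _ ha) y hy
    have a5 := gp.core f0 b _ hT y hy
    have a6 := gp.lt f0 b _ (S2 _ ha)
    have a7 := gp.lt f0 b _ hT
    unfold InW
    omega
  refine ⟨D.remap φV φ, k.ok.valid hG hv, k.ok.reduced hG hv hr, k.ok.sameOrd hv,
    Sys.norm_remap _ _, k.ok.cv_eq hG hv, pg a, L a, (List.range' (a + 1) n).map L,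
    L (a + (n + 1)), ?_, fun x hx => ?_, fun g y hy hy' => ?_, fun d hd d' hd' => ?_,
    fun g hg d hd d' hd' => ?_, fun d hd => ?_, fun x => out _ _ (.inl ⟨x, rfl⟩) (k.kV x),
    fun g hg y hy => ?_, fun x => ?_, f0, b, ?_⟩
  · rw [e]
    refine List.Nodup.map_on (fun s hs t ht h => ?_) List.nodup_range'
    have h1 : s ≤ T := by have := List.mem_range'_1.1 hs; omega
    have h2 : t ≤ T := by have := List.mem_range'_1.1 ht; omega
    by_contra hne
    rcases tri gp b h1 h2 hne with h' | h'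
    exacts [(k.k4 s h1 t h2 h').ne h, (k.k4 t h2 s h1 h').ne' h]
  · rw [e] at hx
    obtain ⟨t, ht, h⟩ := mem _ hx
    have a1 := side gp k b (.inl rfl) (.inr ⟨x, rfl⟩) ht
    rw [k.ok.vert] at a1
    have h' : φV x = L t := h
    omega
  · rw [e] at hy'
    obtain ⟨t, ht, h⟩ := mem _ hy'
    obtain ⟨z, hz, rfl⟩ := List.mem_map.1 hy
    exact k.k5 g z hz t ht h
  · rw [e] at hd hd'
    obtain ⟨π, s, t, hs, ht, hl, h, hd⟩ := memc d hd
    obtain ⟨π', s', t', hs', ht', hl', h', hd'⟩ := memc d' hd'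
    have key : ¬ Cross (π, L s, L t) (π', L s', L t') := by
      rintro ⟨rfl : π = π', hc⟩
      have a1 := self1 hv gp k hs ht hs' ht' hl hl'
      have a2 := self1 hv gp k hs ht ht' hs' hl hl'.symm
      have a3 := k.k4 s hs t ht h
      simp only [Btw, Out] at hc
      omega
    rcases hd with rfl | rfl <;> rcases hd' with rfl | rfl
    exacts [key, mt cross_swap_right.1 key, mt cross_swap_left.1 key,
      mt (cross_swap_right.1 ∘ cross_swap_left.1) key]
  · rw [e] at hd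
    obtain ⟨π, s, t, hs, ht, hl, h, hd⟩ := memc d hd
    change d' ∈ (D.remap φV φ).chs G g at hd'
    rw [Sys.chs_remap k.ok.vert] at hd'
    obtain ⟨⟨π', p, q⟩, hc, rfl⟩ := List.mem_map.1 hd'
    have key : ¬ Cross (π, L s, L t) (π', φ g p, φ g q) := fun hx => by
      obtain rfl : π = π' := hx.1
      exact avoid1 hv gp k hs ht hl h hg (.inl hc) hx
    rcases hd with rfl | rfl
    exacts [key, mt cross_swap_left.1 key]
  · rw [e] at hd
    obtain ⟨π, s, t, hs, ht, hl, h, hd⟩ := memc d hd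
    have key := sep1 hr gp k hs ht hl h
    rcases hd with rfl | rfl
    exacts [key, key.symm]
  · obtain ⟨z, hz, rfl⟩ := List.mem_map.1 hy
    exact out _ _ (.inr ⟨g, hg, hz⟩) (k.kI g hg z hz)
  · rw [e, cov, chords_range]
    exact hp x
  · have h0 := S2 _ ha
    rcases tri gp b h0 hT (by omega) with h | h
    · have m := (gp.mem f0 b _ hT).1
      exact ⟨_, List.mem_map_of_mem m, .inl ⟨((k.k2 f0 b _ m _ h0).2 (hi_le gp b h0 hT h)).le,
        ((k.k2 f0 b _ m _ hT).1 le_rfl).le⟩⟩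
    · have m := (gp.mem f0 b _ h0).1
      exact ⟨_, List.mem_map_of_mem m, .inr ⟨((k.k2 f0 b _ m _ hT).2 (hi_le gp b hT h0 h)).le,
        ((k.k2 f0 b _ m _ h0).1 le_rfl).le⟩⟩

end Pool.Agent.MP_17db17_lc.H93
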