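import Pool.Agent.MP_17db17_lc.H93.Basic

set_option autoImplicit false

namespace Pool.Agent.MP_17db17_lc.H93

namespace MainAux

theorem ext_symm {N : NG} (h : N.gr.Symm) (J : ℕ) (I : ℕ → List ℕ) : (N.ext J I).gr.Symm := by
  intro e e' he
  change (N.ext J I).H e e' at he
  change (N.ext J I).H e' e
  simp only [NG.ext] at he ⊢
  split_ifs at he with h1
  · rw [if_pos h1.symm]; exact h ⟨e, h1.1⟩ ⟨e', h1.2⟩ he
  · rw [if_neg fun h2 => h1 h2.symm]; exact he.symm

theorem ext_H_congr (N : NG) (J J' : ℕ) {K : ℕ} {I I' : ℕ → List ℕ} (hI : ∀ j < K, I' j = I j) {e e' : ℕ}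
    (he : e < N.m + K) (he' : e' < N.m + K) : (N.ext J' I').H e e' ↔ (N.ext J I).H e e' := by
  simp only [NG.ext]
  split_ifs with h1
  · rfl
  · refine or_congr (and_congr_right fun h => ?_) (and_congr_right fun h => ?_)
    · rw [hI _ (by omega)]
    · rw [hI _ (by omega)]

/-- the invariant of the main loop -/
structure Inv (N : NG) (v : Fin N.m × Fin N.m → ℤ) (J : ℕ) (A I : ℕ → List ℕ)
    (D : Sys (Fin (N.ext J I).m) (Fin (N.ext J I).n) ℤ) : Prop where
  sepr : N.Sepr J A I
  lists : ∀ j, (A j).length ≤ N.m + J ∧ (I j).length ≤ N.m + J ∧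
    (∀ e ∈ A j, e < N.m + J) ∧ ∀ e ∈ I j, e < N.m + J
  valid : D.Valid (N.ext J I).gr
  small : ∀ j p, |N.hv J A I D j p| ≤ 4
  mem : (fun p => v p - N.algv J I D p) ∈ Submodule.span ℤ (Set.range (N.hv J A I D))

theorem hv_congr {N : NG} {J : ℕ} {A I : ℕ → List ℕ}
    {D D' : Sys (Fin (N.ext J I).m) (Fin (N.ext J I).n) ℤ}
    (h : ∀ e, (N.ext J I).gr.s e = (N.ext J I).gr.t e → ∀ x x',
      D'.cv (N.ext J I).gr e x - D'.cv (N.ext J I).gr e x' =
        D.cv (N.ext J I).gr e x - D.cv (N.ext J I).gr e x') :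
    N.hv J A I D' = N.hv J A I D := by
  funext j p
  have : (N.ext J I).gr.s (Fin.natAdd N.m j) = (N.ext J I).gr.t (Fin.natAdd N.m j) := by
    apply Fin.ext
    simp [NG.gr, NG.ext]
  simp only [NG.hv, tv, h _ this]

theorem cast_s (N : NG) (J : ℕ) (I : ℕ → List ℕ) (e : Fin N.m) :
    (N.ext J I).gr.s (Fin.castAdd J e) = Fin.castAdd J (N.gr.s e) := by
  apply Fin.ext
  simp [NG.gr, NG.ext]

theorem cast_t (N : NG) (J : ℕ) (I : ℕ → List ℕ) (e : Fin N.m) :
    (N.ext J I).gr.t (Fin.castAdd J e) = Fin.castAdd J (N.gr.t e) := by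
  apply Fin.ext
  simp [NG.gr, NG.ext]

open Classical in
/-- the numbers of the elements with property `F` -/
noncomputable def lst {k : ℕ} (F : Fin k → Prop) : List ℕ :=
  ((List.finRange k).filter fun e => decide (F e)).map Fin.val

theorem mem_lst {k : ℕ} {F : Fin k → Prop} {e : ℕ} : e ∈ lst F ↔ ∃ h : e < k, F ⟨e, h⟩ := by
  simp only [lst, List.mem_map, List.mem_filter, List.mem_finRange, true_and, decide_eq_true_eq]
  constructor
  · rintro ⟨a, ha, rfl⟩; exact ⟨a.2, ha⟩
  · rintro ⟨h, ha⟩; exact ⟨_, ha, rfl⟩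

theorem length_lst {k : ℕ} (F : Fin k → Prop) : (lst F).length ≤ k := by
  rw [lst, List.length_map]
  exact (List.length_filter_le _ _).trans (by simp)

theorem add_handle {N : NG} {v : Fin N.m × Fin N.m → ℤ} {J : ℕ} {A I : ℕ → List ℕ}
    {D : Sys (Fin (N.ext J I).m) (Fin (N.ext J I).n) ℤ} (h : Inv N v J A I D)
    (F : Fin (N.ext J I).m → Prop) (W : Fin (N.ext J I).n → ℤ) (hW : ∀ x x', |W x - W x'| ≤ 2)
    (D1 : Sys (Option (Fin (N.ext J I).m)) (Option (Fin (N.ext J I).n)) ℤ)
    (v1 : D1.Valid ((N.ext J I).gr.ext ((N.ext J I).gr.Nb F)))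
    (o1 : ∀ x y, D.pos x < D.pos y ↔ D1.pos (some x) < D1.pos (some y))
    (c1 : ∀ e x, D1.cv ((N.ext J I).gr.ext ((N.ext J I).gr.Nb F)) (some e) (some x) =
      D.cv (N.ext J I).gr e x)
    (w1 : ∀ x, D1.cv ((N.ext J I).gr.ext ((N.ext J I).gr.Nb F)) none (some x) = W x) :
    ∃ (A' I' : ℕ → List ℕ) (D' : Sys (Fin (N.ext (J + 1) I').m) (Fin (N.ext (J + 1) I').n) ℤ),
      Inv N v (J + 1) A' I' D' ∧ Set.range (N.hv (J + 1) A' I' D') =
        insert (fun p => tv (N.ext J I).gr F W (Fin.castAdd J p.1, Fin.castAdd J p.2))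
          (Set.range (N.hv J A I D)) := by
  classical
  let A' : ℕ → List ℕ := fun j => if j = J then lst F else A j
  let I' : ℕ → List ℕ := fun j => if j = J then lst ((N.ext J I).gr.Nb F) else I j
  have hI : ∀ j < J, I' j = I j := fun j hj => if_neg hj.ne
  have hA : ∀ j < J, A' j = A j := fun j hj => if_neg hj.ne
  have hIJ : I' J = lst ((N.ext J I).gr.Nb F) := if_pos rfl
  have hAJ : A' J = lst F := if_pos rfl
  let f : Fin (N.ext (J + 1) I').m → Option (Fin (N.ext J I).m) :=
    finSuccEquivLast (n := N.m + J)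
  let g : Fin (N.ext (J + 1) I').n → Option (Fin (N.ext J I).n) :=
    finSuccEquivLast (n := N.n + J)
  have f1 : ∀ e : Fin (N.m + J), f e.castSucc = some e := finSuccEquivLast_castSucc
  have f2 : f (Fin.last (N.m + J)) = none := finSuccEquivLast_last
  have g1 : ∀ e : Fin (N.n + J), g e.castSucc = some e := finSuccEquivLast_castSucc
  have g2 : g (Fin.last (N.n + J)) = none := finSuccEquivLast_last
  have r : ComapOK (N.ext (J + 1) I').gr ((N.ext J I).gr.ext ((N.ext J I).gr.Nb F)) f g := by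
    refine ⟨Equiv.injective _, Equiv.injective _, fun e => ?_, fun e => ?_, fun e e' => ?_⟩
    · induction e using Fin.lastCases (n := N.m + J) with
      | last =>
        rw [f2, show (N.ext (J + 1) I').gr.s (Fin.last (N.m + J)) = Fin.last (N.n + J) from
          Fin.ext (by simp [NG.gr, NG.ext]), g2]; rfl
      | cast e =>
        rw [f1, show (N.ext (J + 1) I').gr.s e.castSucc = ((N.ext J I).gr.s e).castSucc from rfl]
        exact g1 _
    · induction e using Fin.lastCases (n := N.m + J) with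
      | last =>
        rw [f2, show (N.ext (J + 1) I').gr.t (Fin.last (N.m + J)) = Fin.last (N.n + J) from
          Fin.ext (by simp [NG.gr, NG.ext]), g2]; rfl
      | cast e =>
        rw [f1, show (N.ext (J + 1) I').gr.t e.castSucc = ((N.ext J I).gr.t e).castSucc from rfl]
        exact g1 _
    · have key : ∀ e : Fin (N.m + J), ((N.ext (J + 1) I').H e (N.m + J) ∨
          (N.ext (J + 1) I').H (N.m + J) e) → (N.ext J I).gr.Nb F e := by
        intro e he
        have := e.2
        simp only [NG.ext, add_lt_iff_neg_left, not_lt_zero, and_false,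
          false_and, if_false, Nat.add_sub_cancel_left, hIJ, mem_lst] at he
        rcases he with (⟨-, _, he⟩ | ⟨he, -⟩) | (⟨he, -⟩ | ⟨-, _, he⟩)
        · exact he
        · omega
        · omega
        · exact he
      induction e using Fin.lastCases (n := N.m + J) with
      | last =>
        induction e' using Fin.lastCases (n := N.m + J) with
        | last => intro he; simp [NG.gr, NG.ext] at he
        | cast e' => intro he; rw [f1, f2]; exact key e' (Or.inr he)
      | cast e =>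
        induction e' using Fin.lastCases (n := N.m + J) with
        | last => intro he; rw [f1, f2]; exact key e (Or.inl he)
        | cast e' =>
          intro he; rw [f1, f1]
          exact (ext_H_congr N J (J + 1) hI e.2 e'.2).1 he
  have cv1 : ∀ (e : Fin (N.m + J)) (x : Fin (N.n + J)),
      (D1.comap f g).cv (N.ext (J + 1) I').gr e.castSucc x.castSucc = D.cv (N.ext J I).gr e x := by
    intro e x; rw [r.cv, f1, g1]; exact c1 e x
  have hv1 : ∀ j : Fin J, N.hv (J + 1) A' I' (D1.comap f g) j.castSucc = N.hv J A I D j := by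
    intro j
    unfold NG.hv
    congr 1
    · funext e; rw [Fin.val_castSucc, hA j j.2]
    · funext x; exact cv1 (Fin.natAdd N.m j) (Fin.castAdd J x)
  have hv2 : N.hv (J + 1) A' I' (D1.comap f g) (Fin.last J) =
      fun p => tv (N.ext J I).gr F W (Fin.castAdd J p.1, Fin.castAdd J p.2) := by
    funext p
    have e1 : ∀ x : Fin N.n, (D1.comap f g).cv (N.ext (J + 1) I').gr (Fin.natAdd N.m (Fin.last J))
        (Fin.castAdd (J + 1) x) = W (Fin.castAdd J x) := by
      intro x
      rw [r.cv, show f (Fin.natAdd N.m (Fin.last J)) = none from f2,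
        show g (Fin.castAdd (J + 1) x) = some (Fin.castAdd J x) from g1 (Fin.castAdd J x)]
      exact w1 _
    have e2 : ∀ e : Fin N.m, e.1 ∈ A' J ↔ F (Fin.castAdd J e) := by
      intro e
      rw [hAJ, mem_lst]
      exact ⟨fun ⟨_, h⟩ => h, fun h => ⟨_, h⟩⟩
    simp only [NG.hv, tv, e1, Fin.val_last, e2, cast_s, cast_t]
  have hr : Set.range (N.hv (J + 1) A' I' (D1.comap f g)) =
      insert (fun p => tv (N.ext J I).gr F W (Fin.castAdd J p.1, Fin.castAdd J p.2))
        (Set.range (N.hv J A I D)) := by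
    ext u
    simp only [Set.mem_range, Set.mem_insert_iff, Fin.exists_fin_succ', hv1, hv2]
    exact or_comm.trans (or_congr_left eq_comm)
  refine ⟨A', I', D1.comap f g, ⟨?_, ?_, r.valid v1, ?_, ?_⟩, hr⟩
  · intro j hj e he heA
    rcases Nat.lt_or_eq_of_le (Nat.le_of_lt_succ hj) with hj | rfl
    · rw [hA j hj] at heA ⊢
      rw [hI j hj]
      obtain ⟨h1, h2⟩ := h.sepr j hj e he heA
      exact ⟨h1, fun e' he' hH => h2 e' he' ((ext_H_congr N J (J + 1) hI (by omega) (by omega)).1 hH)⟩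
    · rw [hAJ] at heA ⊢
      rw [hIJ]
      obtain ⟨_, hF⟩ := mem_lst.1 heA
      refine ⟨fun h1 => (mem_lst.1 h1).2.1 hF, fun e' he' hH => ?_⟩
      by_cases h2 : F ⟨e', he'⟩
      · exact Or.inl (mem_lst.2 ⟨he', h2⟩)
      · exact Or.inr (mem_lst.2 ⟨he', h2, _, hF, (ext_H_congr N j (j + 1) hI he he').1 hH⟩)
  · intro j
    by_cases hj : j = J
    · subst hj
      rw [hAJ, hIJ]
      exact ⟨(length_lst _).trans (Nat.le_succ _), (length_lst _).trans (Nat.le_succ _),
        fun e he => Nat.lt_succ_of_lt (mem_lst.1 he).1, fun e he => Nat.lt_succ_of_lt (mem_lst.1 he).1⟩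
    · obtain ⟨h1, h2, h3, h4⟩ := h.lists j
      simp only [A', I', if_neg hj]
      exact ⟨by omega, by omega, fun e he => Nat.lt_succ_of_lt (h3 e he),
        fun e he => Nat.lt_succ_of_lt (h4 e he)⟩
  · intro j p
    induction j using Fin.lastCases with
    | last =>
      rw [hv2]
      simp only [tv, abs_mul]
      have h1 := hW ((N.ext J I).gr.t (Fin.castAdd J p.1)) ((N.ext J I).gr.s (Fin.castAdd J p.1))
      have h2 := hW ((N.ext J I).gr.t (Fin.castAdd J p.2)) ((N.ext J I).gr.s (Fin.castAdd J p.2))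
      have h3 := mul_le_mul h1 h2 (abs_nonneg _) (by norm_num)
      have h4 := mul_nonneg (abs_nonneg (W ((N.ext J I).gr.t (Fin.castAdd J p.1)) -
        W ((N.ext J I).gr.s (Fin.castAdd J p.1)))) (abs_nonneg (W ((N.ext J I).gr.t
          (Fin.castAdd J p.2)) - W ((N.ext J I).gr.s (Fin.castAdd J p.2))))
      split_ifs <;> simp <;> omega
    | cast j => rw [hv1]; exact h.small j p
  · rw [hr]
    refine Submodule.span_mono (Set.subset_insert _ _) ?_
    convert h.mem using 3 with p
    have i1 : ∀ x y : Fin (N.n + J), ind ((D1.comap f g).pos x.castSucc)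
        ((D1.comap f g).pos y.castSucc) = ind (D.pos x) (D.pos y) := by
      intro x y
      simp only [Sys.comap, g1, ind]
      exact if_congr (o1 x y).symm rfl rfl
    have := cv1 (Fin.castAdd J p.1)
    have := cv1 (Fin.castAdd J p.2)
    simp only [NG.algv, Sys.alg, cast_s, cast_t, ← cv1, ← i1]
    rfl

end MainAux

open MainAux in
theorem mainL (hred : RedStmt) (hcore : CoreStmt) (hlat : Lat1Stmt) : MainStmt := by
  classical
  intro N hs D hD
  obtain ⟨Φ, hΦ, hdec⟩ := hlat (Fin N.m × Fin N.m)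
  have key : ∀ φ nr J A I D', Inv N (fun p => D.alg N.gr p.1 p.2) J A I D' →
      Φ (Submodule.span ℤ (Set.range (N.hv J A I D'))) ≤ φ → D'.norm ≤ nr →
      ∃ J' A' I' D'', J' ≤ J + φ ∧ Inv N (fun p => D.alg N.gr p.1 p.2) J' A' I' D'' ∧
        D''.Reduced (N.ext J' I').gr ∧ D''.norm ≤ bigB (N.m + J') (N.n + J') := by
    intro φ
    induction φ using Nat.strong_induction_on with
    | _ φ ih1 =>
    intro nr
    induction nr using Nat.strong_induction_on with
    | _ nr ih2 =>
    intro J A I D1 h1 hφ hn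
    obtain ⟨D2, v2, r2, p2, n2, c2⟩ := hred _ _ _ (ext_symm hs J I) D1 h1.valid
    have e2 : N.hv J A I D2 = N.hv J A I D1 := hv_congr fun e _ x x' => by rw [c2, c2]
    have a2 : N.algv J I D2 = N.algv J I D1 := by
      funext p; exact Sys.alg_congr (fun x y => by rw [p2]) c2 _ _
    have h2 : Inv N (fun p => D.alg N.gr p.1 p.2) J A I D2 :=
      ⟨h1.sepr, h1.lists, v2, e2 ▸ h1.small, by rw [e2, a2]; exact h1.mem⟩
    by_cases hb : D2.norm ≤ bigB (N.m + J) (N.n + J)
    · exact ⟨J, A, I, D2, by omega, h2, r2, hb⟩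
    obtain ⟨F, D3, 𝒲, v3, n3, o3, l3, m3, w3⟩ := hcore _ _ _ (ext_symm hs J I) D2 v2
      (by rw [Fintype.card_fin, Fintype.card_fin]; exact not_le.1 hb)
    let R : (Fin (N.ext J I).m × Fin (N.ext J I).m → ℤ) →ₗ[ℤ] (Fin N.m × Fin N.m → ℤ) :=
      LinearMap.funLeft ℤ ℤ fun p => (Fin.castAdd J p.1, Fin.castAdd J p.2)
    by_cases hall : ∀ W ∈ 𝒲, R (tv (N.ext J I).gr F W) ∈
        Submodule.span ℤ (Set.range (N.hv J A I D2))
    · have e3 : N.hv J A I D3 = N.hv J A I D2 := hv_congr l3
      have m4 := Submodule.mem_map_of_mem (f := R) m3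
      rw [Submodule.map_span] at m4
      have m5 := (Submodule.span_le (p := Submodule.span ℤ (Set.range (N.hv J A I D2)))).2
        (by rintro _ ⟨_, ⟨W, hW, rfl⟩, rfl⟩; exact hall W hW) m4
      refine ih2 D3.norm (by omega) J A I D3 ⟨h1.sepr, h1.lists, v3, e3 ▸ h2.small, ?_⟩
        (by rw [e3, e2]; exact hφ) le_rfl
      rw [e3]
      convert Submodule.add_mem _ h2.mem m5 using 1
      funext p
      simp [R, NG.algv, LinearMap.funLeft]
    · push Not at hall
      obtain ⟨W, hW, hn⟩ := hall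
      obtain ⟨b4, D4, v4, o4, c4, w4⟩ := w3 W hW
      obtain ⟨A', I', D5, h5, e5⟩ := add_handle h2 F W b4 D4 v4 o4 c4 w4
      have hu : ∀ u ∈ Set.range (N.hv (J + 1) A' I' D5), ∀ p, |u p| ≤ 4 := by
        rintro _ ⟨j, rfl⟩ p; exact h5.small j p
      rw [e5] at hu
      have hlt := hdec _ _ (fun u h => hu u (Set.mem_insert_of_mem _ h))
        (hu _ (Set.mem_insert _ _)) hn
      rw [← e5, e2] at hlt
      obtain ⟨J', A'', I'', D6, k1, k2⟩ := ih1 (φ - 1) (by omega) _ (J + 1) A' I' D5 h5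
        (by omega) le_rfl
      exact ⟨J', A'', I'', D6, by omega, k2⟩
  have r0 : ComapOK (N.ext 0 fun _ => []).gr N.gr id id := by
    refine ⟨Function.injective_id, Function.injective_id, fun e => Fin.ext ?_, fun e => Fin.ext ?_,
      fun e e' he => ?_⟩
    · exact if_pos e.2
    · exact if_pos e.2
    · have : (N.ext 0 fun _ => []).H e e' = N.H e e' := if_pos ⟨e.2, e'.2⟩
      exact this.mp he
  obtain ⟨J, A, I, D', k1, k2, k3, k4⟩ := key _ _ 0 (fun _ => []) (fun _ => []) (D.comap id id)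
    ⟨fun j hj => absurd hj (Nat.not_lt_zero _), by simp, r0.valid hD, fun j => j.elim0, by
      have : (fun p => D.alg N.gr p.1 p.2 - N.algv 0 (fun _ => []) (D.comap id id) p) = 0 := by
        funext p
        rw [NG.algv, r0.alg]
        exact sub_self _
      rw [this]; exact Submodule.zero_mem _⟩ (hΦ _) le_rfl
  exact ⟨J, A, I, D', by simpa using k1, k2.sepr, k2.lists, k2.valid, k3, k4, k2.small, k2.mem⟩

end Pool.Agent.MP_17db17_lc.H93
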