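import Pool.Agent.MP_17db17_lc.H93.Defs

set_option autoImplicit false

namespace Pool.Agent.MP_17db17_lc.H93

open Classical

/-! ## The two page model -/

/-- A chord: page (`true` is the upper page), start, end. -/
abbrev Chord (α : Type) : Type := Bool × α × α

/-- The chords of a path through the listed points of the spine; pages alternate. -/
def chords {α : Type} : Bool → List α → List (Chord α)
  | b, x :: y :: l => (b, x, y) :: chords (!b) (y :: l)
  | _, _ => []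

section order
variable {α : Type} [LinearOrder α]

/-- strictly between -/
def Btw (p q z : α) : Prop := (p < z ∧ z < q) ∨ (q < z ∧ z < p)

/-- strictly outside -/
def Out (p q z : α) : Prop := (z < p ∧ z < q) ∨ (p < z ∧ q < z)

/-- weakly between -/
def InW (p q z : α) : Prop := (p ≤ z ∧ z ≤ q) ∨ (q ≤ z ∧ z ≤ p)

/-- Two chords of the same page interleave. -/
def Cross (c d : Chord α) : Prop :=
  c.1 = d.1 ∧ ((Btw c.2.1 c.2.2 d.2.1 ∧ Out c.2.1 c.2.2 d.2.2) ∨
    (Out c.2.1 c.2.2 d.2.1 ∧ Btw c.2.1 c.2.2 d.2.2))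

def NoCross (b : Bool) (l : List α) (b' : Bool) (l' : List α) : Prop :=
  ∀ c ∈ chords b l, ∀ d ∈ chords b' l', ¬ Cross c d

def ind (z p : α) : ℤ := if z < p then 1 else 0

/-- signed number of chords of page `π` in `C` that pass over (or under) the place just right
of `z` -/
def covL (π : Bool) (C : List (Chord α)) (z : α) : ℤ :=
  (C.map fun c => if c.1 = π then ind z c.2.2 - ind z c.2.1 else 0).sum

def cov (π b : Bool) (l : List α) (z : α) : ℤ := covL π (chords b l) z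

end order

/-- Elements with ends, and the pairs of elements that must not cross. -/
structure Gr (ι V : Type) where
  s : ι → V
  t : ι → V
  H : ι → ι → Prop

/-- A two page system. -/
structure Sys (ι V α : Type) where
  pos : V → α
  sp : ι → Bool
  mid : ι → List α

section sys
variable {ι V α : Type}

def Gr.Symm (G : Gr ι V) : Prop := ∀ e e', G.H e e' → G.H e' e

/-- elements that must not cross are different and do not have the same pair of ends -/
def Gr.NoPar (G : Gr ι V) : Prop := ∀ e e', G.H e e' →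
  e ≠ e' ∧ ¬ (G.s e = G.s e' ∧ G.t e = G.t e') ∧ ¬ (G.s e = G.t e' ∧ G.t e = G.s e')

/-- a simple graph with its adjacency of edges -/
structure Gr.Simple (G : Gr ι V) : Prop where
  adj : ∀ e f, G.H e f ↔ e ≠ f ∧ ∃ x, IsEnd G.s G.t e x ∧ IsEnd G.s G.t f x
  loop : ∀ e, G.s e ≠ G.t e
  par : G.NoPar

def Sys.path (D : Sys ι V α) (G : Gr ι V) (e : ι) : List α :=
  D.pos (G.s e) :: (D.mid e ++ [D.pos (G.t e)])

def Sys.chs (D : Sys ι V α) (G : Gr ι V) (e : ι) : List (Chord α) := chords (D.sp e) (D.path G e)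

/-- `x` and `y` are joined by a chord of `e` on page `π` -/
def Sys.Ch (D : Sys ι V α) (G : Gr ι V) (e : ι) (π : Bool) (x y : α) : Prop :=
  (π, x, y) ∈ D.chs G e ∨ (π, y, x) ∈ D.chs G e

def Sys.norm [Fintype ι] (D : Sys ι V α) : ℕ := ∑ e, (D.mid e).length

variable [LinearOrder α]

structure Sys.Valid (D : Sys ι V α) (G : Gr ι V) : Prop where
  inj : Function.Injective D.pos
  nodup : ∀ e, (D.mid e).Nodup
  disj : ∀ e e', e ≠ e' → ∀ y ∈ D.mid e, y ∉ D.mid e'
  notV : ∀ e x, D.pos x ∉ D.mid e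
  odd : ∀ e, G.s e = G.t e → Odd (D.mid e).length
  self : ∀ e, NoCross (D.sp e) (D.path G e) (D.sp e) (D.path G e)
  adj : ∀ e e', G.H e e' → NoCross (D.sp e) (D.path G e) (D.sp e') (D.path G e')

/-- some vertex lies weakly between `p` and `q` -/
def Sys.Sep (D : Sys ι V α) (p q : α) : Prop := ∃ x, InW p q (D.pos x)

def Sys.Reduced (D : Sys ι V α) (G : Gr ι V) : Prop := ∀ e, ∀ c ∈ D.chs G e, D.Sep c.2.1 c.2.2

def Sys.cv (D : Sys ι V α) (G : Gr ι V) (e : ι) (x : V) : ℤ :=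
  cov true (D.sp e) (D.path G e) (D.pos x)

/-- the algebraic crossing number of two elements with four different ends -/
def Sys.alg (D : Sys ι V α) (G : Gr ι V) (f g : ι) : ℤ :=
  D.cv G g (G.t f) - D.cv G g (G.s f) - D.cv G f (G.t g) + D.cv G f (G.s g) +
    (ind (D.pos (G.t g)) (D.pos (G.t f)) - ind (D.pos (G.t g)) (D.pos (G.s f))) -
    (ind (D.pos (G.s g)) (D.pos (G.t f)) - ind (D.pos (G.s g)) (D.pos (G.s f)))

def Sys.SameOrd {β : Type} [LinearOrder β] (D : Sys ι V α) (D' : Sys ι V β) : Prop :=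
  ∀ x y, D.pos x < D.pos y ↔ D'.pos x < D'.pos y

/-- the neighbours of `F` outside `F` -/
def Gr.Nb (G : Gr ι V) (F : ι → Prop) (e : ι) : Prop := ¬ F e ∧ ∃ g, F g ∧ G.H g e

/-- the sum of `|alg|` over unordered pairs of different non adjacent edges -/
noncomputable def Sys.cost [Fintype ι] [LinearOrder V] (D : Sys ι V α) (G : Gr ι V) : ℕ :=
  ∑ f, ∑ g, if G.s f < G.s g ∧ ¬ G.H f g then (D.alg G f g).natAbs else 0

end sys

/-- the model version of `acr₊ ≤ k` -/
def MReal {ι V : Type} [Fintype ι] [LinearOrder V] (G : Gr ι V) (k : ℕ) : Prop :=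
  ∃ D : Sys ι V ℤ, D.Valid G ∧ D.cost G ≤ k

/-- the edges of a graph with their adjacency -/
def grE {n : ℕ} (G : SimpleGraph (Fin n)) : Gr (Edge G) (Fin n) where
  s := Edge.src
  t := Edge.tgt
  H e f := e ≠ f ∧ ∃ x, IsEnd Edge.src Edge.tgt e x ∧ IsEnd Edge.src Edge.tgt f x

/-- one more element, a loop at a new vertex, which must not cross the elements of `I` -/
def Gr.ext {ι V : Type} (G : Gr ι V) (I : ι → Prop) : Gr (Option ι) (Option V) where
  s e := e.map G.s
  t e := e.map G.t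
  H
    | some e, some e' => G.H e e'
    | some e, none => I e
    | none, some e => I e
    | none, none => False

/-- change of `alg` under a twist of the elements of `A` along a closed curve with winding
function `W` -/
noncomputable def tv {ι V : Type} (G : Gr ι V) (A : ι → Prop) (W : V → ℤ) (p : ι × ι) : ℤ :=
  ((if A p.1 then 1 else 0) - (if A p.2 then 1 else 0)) *
    ((W (G.t p.1) - W (G.s p.1)) * (W (G.t p.2) - W (G.s p.2)))

/-- the norm above which a shortcut exists -/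
def bigK (m n : ℕ) : ℕ := (2 * (2 * n + 1) ^ 2 * (2 ^ n + 1) + 5) * (6 * m + 5)

def bigB (m n : ℕ) : ℕ := m * (2 * n + 1) * bigK m n ^ (m + 1)

/-! ## Windows, strips, gaps, leaves -/

section leaf
variable {ι V : Type}

/-- page used at time `t` -/
def pg (t : ℕ) : Bool := decide (t % 2 = 0)

/-- number of inner points of `e` in `[p, q]` -/
def Sys.cntw (D : Sys ι V ℤ) (e : ι) (p q : ℤ) : ℕ :=
  ((D.mid e).filter fun y => decide (p ≤ y ∧ y ≤ q)).length

structure Window (D : Sys ι V ℤ) (f0 : ι) (lo hi : ℤ) (κ K : ℕ) : Prop where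
  free : ∀ x, ¬ (lo ≤ D.pos x ∧ D.pos x ≤ hi)
  pos : 1 ≤ κ
  many : K * κ ≤ D.cntw f0 lo hi
  dense : ∀ g, (∃ y ∈ D.mid g, lo ≤ y ∧ y ≤ hi) → ∀ p q, lo ≤ p → q ≤ hi → κ < D.cntw f0 p q →
    ∃ y ∈ D.mid g, p ≤ y ∧ y ≤ q

structure Strip (D : Sys ι V ℤ) (G : Gr ι V) (f0 : ι) (lo hi : ℤ) (w M T : ℕ)
    (s : ℕ → ℕ → ℤ) : Prop where
  mem : ∀ j ≤ w, ∀ t ≤ T, s j t ∈ D.mid f0
  ch : ∀ j ≤ w, ∀ t < T, D.Ch G f0 (pg t) (s j t) (s j (t + 1))
  mono : ∀ j < w, ∀ t ≤ T, if t % 2 = 0 then s j t < s (j + 1) t else s (j + 1) t < s j t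
  free : ∀ t ≤ T, ∀ x, ¬ InW (s 0 t) (s w t) (D.pos x)
  start : ∀ j ≤ w, lo ≤ s j 0 ∧ s j 0 ≤ hi
  ret : ∃ S : Finset ℕ, M ≤ S.card ∧ ∀ t ∈ S, t ≤ T ∧ ∀ j ≤ w, lo ≤ s j t ∧ s j t ≤ hi

/-- vertices and inner points of the neighbours of `F` -/
def Fixed (D : Sys ι V ℤ) (G : Gr ι V) (F : ι → Prop) (y : ℤ) : Prop :=
  (∃ x, y = D.pos x) ∨ ∃ i, G.Nb F i ∧ y ∈ D.mid i

structure Gaps (D : Sys ι V ℤ) (G : Gr ι V) (F : ι → Prop) (f0 : ι) (M T : ℕ)
    (lo hi : ι → ℕ → ℤ) : Prop where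
  base : F f0
  conn : ∀ g, F g → Relation.ReflTransGen (fun a b => F a ∧ F b ∧ G.H a b) f0 g
  mem : ∀ g, F g → ∀ t ≤ T, lo g t ∈ D.mid g ∧ hi g t ∈ D.mid g
  lt : ∀ g, F g → ∀ t ≤ T, lo g t < hi g t
  gap : ∀ g, F g → ∀ t ≤ T, ∀ y ∈ D.mid g, y ≤ lo g t ∨ hi g t ≤ y
  adj : ∀ g g', F g → F g' → G.H g g' → ∀ t ≤ T, lo g' t < hi g t
  ch : ∀ g, F g → ∀ t < T,
    D.Ch G g (pg t) (lo g t) (hi g (t + 1)) ∧ D.Ch G g (pg t) (hi g t) (lo g (t + 1))
  inj : ∀ g, F g → ∀ t ≤ T, ∀ t' ≤ T, lo g t = lo g t' → t = t'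
  core : ∀ g, F g → ∀ t ≤ T, ∀ y, Fixed D G F y →
    (y < lo g t ∧ y < lo f0 t) ∨ (hi g t < y ∧ hi f0 t < y)
  ret : ∃ S : Finset ℕ, M ≤ S.card ∧ (∀ t ∈ S, t ≤ T) ∧
    ∀ t ∈ S, ∀ t' ∈ S, ∀ y, Fixed D G F y → (y < lo f0 t ↔ y < lo f0 t')

/-- a leaf from `a` to `a'` that no element of `F` and no neighbour of `F` crosses -/
structure Leaf (D : Sys ι V ℤ) (G : Gr ι V) (F : ι → Prop) (b : Bool) (a : ℤ) (M : List ℤ)
    (a' : ℤ) : Prop where
  nodup : (a :: (M ++ [a'])).Nodup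
  notV : ∀ x, D.pos x ∉ a :: (M ++ [a'])
  notM : ∀ e, ∀ y ∈ D.mid e, y ∉ a :: (M ++ [a'])
  self : NoCross b (a :: (M ++ [a'])) b (a :: (M ++ [a']))
  avoid : ∀ e, F e ∨ G.Nb F e → NoCross b (a :: (M ++ [a'])) (D.sp e) (D.path G e)
  red : ∀ c ∈ chords b (a :: (M ++ [a'])), D.Sep c.2.1 c.2.2
  noV : ∀ x, ¬ InW a a' (D.pos x)
  noI : ∀ e, G.Nb F e → ∀ y ∈ D.mid e, ¬ InW a a' y
  even : ∀ x, Even (cov true b (a :: (M ++ [a'])) (D.pos x))
  hit : ∃ e, F e ∧ ∃ y ∈ D.mid e, InW a a' y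

end leaf

section odd
variable {α : Type} [LinearOrder α]

/-- the chord lies on the odd sheet of the path `L` that starts on page `b` -/
def oddC (b : Bool) (L : List α) (c : Chord α) : Bool := decide (Odd (cov c.1 b L c.2.1))

/-- signed number of odd upper chords of the path `(bf, lf)` over `z` -/
def wodd (b : Bool) (L : List α) (bf : Bool) (lf : List α) (z : α) : ℤ :=
  covL true ((chords bf lf).filter (oddC b L)) z

end odd

/-- A piece of a path: page of the first chord, start, inner points, end. -/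
abbrev Piece (α : Type) : Type := Bool × α × List α × α

def Piece.l {α : Type} (p : Piece α) : List α := p.2.1 :: (p.2.2.1 ++ [p.2.2.2])

def Piece.chs {α : Type} (p : Piece α) : List (Chord α) := chords p.1 p.l

/-- page of the last chord -/
def Piece.lastPage {α : Type} (p : Piece α) : Bool :=
  if p.2.2.1.length % 2 = 0 then p.1 else !p.1

/-- the path `x :: (m ++ [y])` cut at the inner points satisfying `P` -/
def pieces {α : Type} (P : α → Bool) : Bool → α → List α → α → List (Piece α)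
  | b, x, [], y => [(b, x, [], y)]
  | b, x, z :: m, y =>
    if P z then (b, x, [], z) :: pieces P (!b) z m y else
      match pieces P (!b) z m y with
      | p :: r => (b, x, z :: p.2.2.1, p.2.2.2) :: r
      | [] => []

/-- a path with both ends in the window `[a, a']` and at least one inner point, all outside -/
structure Slit {α : Type} [LinearOrder α] (a a' : α) (p : Piece α) : Prop where
  s : InW a a' p.2.1
  t : InW a a' p.2.2.2
  out : ∀ y ∈ p.2.2.1, ¬ InW a a' y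
  ne : p.2.2.1 ≠ []

/-- the return arcs of a leaf to its window -/
noncomputable def arcs (b : Bool) (a : ℤ) (M : List ℤ) (a' : ℤ) : List (Piece ℤ) :=
  pieces (fun y => decide (InW a a' y)) b a M a'

/-- A closed curve through `z :: m`, starting on the upper page, built from chords that follow
the pieces in `S`. -/
structure Closing (a a' : ℤ) (S : List (Piece ℤ)) (z : ℤ) (m : List ℤ) : Prop where
  odd : Odd m.length
  nodup : (z :: m).Nodup
  sub : ∀ y ∈ z :: m, ∃ p ∈ S, y ∈ p.l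
  self : NoCross true (z :: (m ++ [z])) true (z :: (m ++ [z]))
  avoid : ∀ c : Chord ℤ, ¬ InW a a' c.2.1 → ¬ InW a a' c.2.2 →
    (∀ p ∈ S, c.2.1 ∉ p.l ∧ c.2.2 ∉ p.l ∧ ∀ d ∈ p.chs, ¬ Cross d c) →
    ∀ d ∈ chords true (z :: (m ++ [z])), ¬ Cross d c

/-! ## Numbered graphs and handles -/

structure NG where
  m : ℕ
  n : ℕ
  s : ℕ → ℕ
  t : ℕ → ℕ
  H : ℕ → ℕ → Prop
  hs : ∀ e < m, s e < n
  ht : ∀ e < m, t e < n

def NG.gr (N : NG) : Gr (Fin N.m) (Fin N.n) where
  s e := ⟨N.s e, N.hs e e.2⟩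
  t e := ⟨N.t e, N.ht e e.2⟩
  H e e' := N.H e e'

/-- `N` with `J` handles; handle `j` is element `m + j`, a loop at vertex `n + j`, and must not
cross the earlier elements listed in `I j` -/
def NG.ext (N : NG) (J : ℕ) (I : ℕ → List ℕ) : NG where
  m := N.m + J
  n := N.n + J
  s e := if e < N.m then N.s e else N.n + (e - N.m)
  t e := if e < N.m then N.t e else N.n + (e - N.m)
  H e e' := if e < N.m ∧ e' < N.m then N.H e e' else
    (e < e' ∧ e ∈ I (e' - N.m)) ∨ (e' < e ∧ e' ∈ I (e - N.m))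
  hs e he := by
    split_ifs with h
    · have := N.hs e h; omega
    · omega
  ht e he := by
    split_ifs with h
    · have := N.ht e h; omega
    · omega

/-- `(A j, I j)` separates the elements that come before handle `j` -/
def NG.Sepr (N : NG) (J : ℕ) (A I : ℕ → List ℕ) : Prop :=
  ∀ j < J, ∀ e < N.m + j, e ∈ A j → e ∉ I j ∧
    ∀ e' < N.m + j, (N.ext J I).H e e' → e' ∈ A j ∨ e' ∈ I j

/-- `alg` on pairs of original edges -/
def NG.algv (N : NG) (J : ℕ) (I : ℕ → List ℕ)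
    (D : Sys (Fin (N.ext J I).m) (Fin (N.ext J I).n) ℤ) (p : Fin N.m × Fin N.m) : ℤ :=
  D.alg (N.ext J I).gr (Fin.castAdd J p.1) (Fin.castAdd J p.2)

/-- the twist vector of handle `j` on pairs of original edges -/
noncomputable def NG.hv (N : NG) (J : ℕ) (A I : ℕ → List ℕ)
    (D : Sys (Fin (N.ext J I).m) (Fin (N.ext J I).n) ℤ) (j : Fin J) :
    Fin N.m × Fin N.m → ℤ :=
  tv N.gr (fun e => e.1 ∈ A j) fun x =>
    D.cv (N.ext J I).gr (Fin.natAdd N.m j) (Fin.castAdd J x)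

/-- bound on the number of handles -/
def latB (d : ℕ) : ℕ := (d + 1) * (10 * (d + 1) ^ 3 + 1)

end Pool.Agent.MP_17db17_lc.H93
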