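import Pool.Agent.MP_17db17_lc.H93.Spec

set_option autoImplicit false

namespace Pool.Agent.MP_17db17_lc.H93

open Pool.Agent.Shared.H56 Pool.Agent.Shared.H27

namespace RowMwc

/-- number of cut edges -/
def cst {α : Type} (lab : α → Fin 3) (E : List (α × α)) : ℕ :=
  (E.filter fun p => decide (lab p.1 ≠ lab p.2)).length

lemma cst_append {α : Type} (lab : α → Fin 3) (E E' : List (α × α)) :
    cst lab (E ++ E') = cst lab E + cst lab E' := by simp [cst]

lemma cst_map {α β : Type} (lab : β → Fin 3) (f : α → β) (E : List (α × α)) :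
    cst lab (E.map fun p => (f p.1, f p.2)) = cst (fun x => lab (f x)) E := by
  simp only [cst, List.filter_map, List.length_map]
  rfl

lemma cst_congr {α : Type} {lab lab' : α → Fin 3} {E : List (α × α)}
    (h : ∀ p ∈ E, lab p.1 = lab' p.1 ∧ lab p.2 = lab' p.2) : cst lab E = cst lab' E := by
  rw [cst, cst, List.filter_congr fun p hp => ?_]
  rw [(h p hp).1, (h p hp).2]

lemma cst_le {α β : Type} (lab : α → Fin 3) (g : β → List (α × α)) (L : List β)
    (h : ∀ x ∈ L, cst lab (g x) ≤ 92) : cst lab (L.flatMap g) ≤ 92 * L.length := by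
  induction L with
  | nil => simp [cst]
  | cons x L ih =>
    have h1 := h x List.mem_cons_self
    have h2 := ih fun y hy => h y (List.mem_cons_of_mem _ hy)
    rw [List.flatMap_cons, cst_append, List.length_cons]
    omega

lemma cst_ge {α β : Type} (lab : α → Fin 3) (g : β → List (α × α)) (h : ∀ x, 92 ≤ cst lab (g x))
    (L : List β) : 92 * L.length ≤ cst lab (L.flatMap g) ∧
      (cst lab (L.flatMap g) ≤ 92 * L.length → ∀ x ∈ L, cst lab (g x) ≤ 92) := by
  induction L with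
  | nil => simp
  | cons x L ih =>
    have h1 := h x
    rw [List.flatMap_cons, cst_append, List.length_cons]
    refine ⟨by omega, fun h2 y hy => ?_⟩
    rcases List.mem_cons.1 hy with rfl | hy
    · omega
    · exact ih.2 (by omega) y hy

/-- the gadget that asks for the labels `0, 1` or `1, 0` at `x, y` -/
def nq {α : Type} (s t u x y a b c d : α) : List (α × α) :=
  [(x, a), (a, b), (b, y), (y, c), (c, d), (d, x), (x, s), (x, s), (x, t), (x, t),
    (y, s), (y, s), (y, t), (y, t), (a, s), (a, s), (a, u), (a, u), (b, t), (b, t), (b, u), (b, u),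
    (c, s), (c, s), (c, u), (c, u), (d, t), (d, t), (d, u), (d, u)]

def Opp (x y : Fin 3) : Prop := (x = 0 ∧ y = 1) ∨ (x = 1 ∧ y = 0)

instance (x y : Fin 3) : Decidable (Opp x y) := inferInstanceAs (Decidable (_ ∨ _))

lemma nq_fin : ∀ x y a b c d : Fin 3, 15 ≤ cst id (nq 0 1 2 x y a b c d) ∧
    (cst id (nq 0 1 2 x y a b c d) ≤ 15 → Opp x y) := by decide +kernel

lemma nq_lo {l : ℕ → Fin 3} (h0 : l 0 = 0) (h1 : l 1 = 1) (h2 : l 2 = 2) (x y a b c d : ℕ) :
    15 ≤ cst l (nq 0 1 2 x y a b c d) ∧ (cst l (nq 0 1 2 x y a b c d) ≤ 15 → Opp (l x) (l y)) := by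
  have e := cst_map id l (nq 0 1 2 x y a b c d)
  have e' : ((nq 0 1 2 x y a b c d).map fun p => (l p.1, l p.2)) =
    nq (l 0) (l 1) (l 2) (l x) (l y) (l a) (l b) (l c) (l d) := rfl
  rw [e', h0, h1, h2] at e
  have := nq_fin (l x) (l y) (l a) (l b) (l c) (l d)
  rwa [e] at this

/-- the gadget of a clause: `3, 5, 7` are the literals and `4, 6, 8` their negations -/
def gad : List (ℕ × ℕ) :=
  nq 0 1 2 3 4 10 11 12 13 ++ (nq 0 1 2 5 6 14 15 16 17 ++ (nq 0 1 2 7 8 18 19 20 21 ++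
    (nq 0 1 2 3 5 22 23 24 25 ++ (nq 0 1 2 5 9 26 27 28 29 ++ (nq 0 1 2 3 9 30 31 32 33 ++
      [(9, 7), (9, 1), (7, 0)])))))

lemma imp_fin : ∀ z e : Fin 3, 1 ≤ cst id [(z, e), (z, 1), (e, 0)] ∧
    (cst id [(z, e), (z, 1), (e, 0)] ≤ 1 → z = 0 → e = 0) := by decide +kernel

lemma tri_fin : ∀ a b z : Fin 3, ¬ (Opp a b ∧ Opp b z ∧ Opp a z) ∧
    ((Opp a b ∨ Opp b z ∧ Opp a z) → a = 0 ∨ b = 0 ∨ z = 0) := by decide +kernel

lemma gad_lo {l : ℕ → Fin 3} (h0 : l 0 = 0) (h1 : l 1 = 1) (h2 : l 2 = 2) :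
    92 ≤ cst l gad ∧ (cst l gad ≤ 92 → Opp (l 3) (l 4) ∧ Opp (l 5) (l 6) ∧ Opp (l 7) (l 8) ∧
      (l 3 = 0 ∨ l 5 = 0 ∨ l 7 = 0)) := by
  have a1 := nq_lo h0 h1 h2 3 4 10 11 12 13
  have a2 := nq_lo h0 h1 h2 5 6 14 15 16 17
  have a3 := nq_lo h0 h1 h2 7 8 18 19 20 21
  have a4 := nq_lo h0 h1 h2 3 5 22 23 24 25
  have a5 := nq_lo h0 h1 h2 5 9 26 27 28 29
  have a6 := nq_lo h0 h1 h2 3 9 30 31 32 33
  have a7 := imp_fin (l 9) (l 7)
  have e : _ = cst l _ := cst_map id l [(9, 7), (9, 1), (7, 0)]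
  simp only [List.map_cons, List.map_nil, h0, h1] at e
  rw [e] at a7
  obtain ⟨t1, t2⟩ := tri_fin (l 3) (l 5) (l 9)
  have t3 : 46 ≤ cst l (nq 0 1 2 3 5 22 23 24 25) + cst l (nq 0 1 2 5 9 26 27 28 29) +
      cst l (nq 0 1 2 3 9 30 31 32 33) := by
    by_contra h
    exact t1 ⟨a4.2 (by omega), a5.2 (by omega), a6.2 (by omega)⟩
  simp only [gad, cst_append]
  refine ⟨by omega, fun h => ⟨a1.2 (by omega), a2.2 (by omega), a3.2 (by omega), ?_⟩⟩
  refine (t2 ?_).imp_right (Or.imp_right (a7.2 (by omega)))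
  by_cases h4 : cst l (nq 0 1 2 3 5 22 23 24 25) ≤ 15
  · exact .inl (a4.2 h4)
  · exact .inr ⟨a5.2 (by omega), a6.2 (by omega)⟩

/-- the label of a truth value -/
def val (b : Bool) : Fin 3 := if b then 0 else 1

/-- the best labels inside the small gadget -/
def ins (x y : Bool) : List (Fin 3) :=
  (if x && !y then [0, 1] else [2, 2]) ++ if y && !x then [0, 1] else [2, 2]

/-- the best labels of the gadget of a clause -/
def best (a b e : Bool) : List (Fin 3) :=
  [0, 1, 2, val a, val (!a), val b, val (!b), val e, val (!e), val (!a && !b)] ++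
    ins a (!a) ++ ins b (!b) ++ ins e (!e) ++ ins a b ++ ins b (!a && !b) ++ ins a (!a && !b)

lemma gad_up : ∀ a b e : Bool, (a || b || e) = true →
    cst (fun i => (best a b e).getD i 0) gad ≤ 92 := by decide +kernel

/-- the vertex of a literal -/
def lit (v : ℕ) (b : Bool) : ℕ := 4 * v + 4 + 2 * b.toNat

/-- the names of the vertices of the gadget of clause number `j` -/
def nm (j : ℕ) (c : List (ℕ × Bool)) (i : ℕ) : ℕ :=
  [0, 1, 2, lit (c.getD 0 (0, false)).1 (c.getD 0 (0, false)).2,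
    lit (c.getD 0 (0, false)).1 (!(c.getD 0 (0, false)).2),
    lit (c.getD 1 (0, false)).1 (c.getD 1 (0, false)).2,
    lit (c.getD 1 (0, false)).1 (!(c.getD 1 (0, false)).2),
    lit (c.getD 2 (0, false)).1 (c.getD 2 (0, false)).2,
    lit (c.getD 2 (0, false)).1 (!(c.getD 2 (0, false)).2)].getD i (2 * Nat.pair j i + 3)

/-- all gadgets -/
def raw (φ : CNF) : List (ℕ × ℕ) :=
  (List.range φ.length).flatMap fun j =>
    gad.map fun p => (nm j (φ.getD j []) p.1, nm j (φ.getD j []) p.2)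

/-- the vertices -/
def vs (E : List (ℕ × ℕ)) : List ℕ := 0 :: 1 :: 2 :: E.flatMap fun p => [p.1, p.2]

/-- renaming of the vertices by small numbers -/
def ren (E : List (ℕ × ℕ)) : List (ℕ × ℕ) := E.map fun p => ((vs E).idxOf p.1, (vs E).idxOf p.2)

lemma mem_vs {E : List (ℕ × ℕ)} {p : ℕ × ℕ} (h : p ∈ E) : p.1 ∈ vs E ∧ p.2 ∈ vs E := by
  simp only [vs, List.mem_cons, List.mem_flatMap]
  exact ⟨.inr (.inr (.inr ⟨p, h, .inl rfl⟩)), .inr (.inr (.inr ⟨p, h, .inr (.inl rfl)⟩))⟩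

lemma ren_lt (E : List (ℕ × ℕ)) :
    ∀ p ∈ ren E, p.1 < 3 + 2 * (ren E).length ∧ p.2 < 3 + 2 * (ren E).length := by
  have e : (vs E).length = 3 + 2 * (ren E).length := by
    simp only [vs, ren, List.length_cons, List.length_flatMap, List.length_nil, List.length_map,
      List.map_const', List.sum_replicate, smul_eq_mul]
    omega
  intro p hp
  obtain ⟨q, hq, rfl⟩ := List.mem_map.1 hp
  rw [← e]
  exact ⟨List.idxOf_lt_length_of_mem (mem_vs hq).1, List.idxOf_lt_length_of_mem (mem_vs hq).2⟩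

lemma mwc_ren (E : List (ℕ × ℕ)) (k : ℕ) : MWC (ren E) k ↔ MWC E k := by
  constructor
  · rintro ⟨l, h0, h1, h2, h⟩
    exact ⟨fun x => l ((vs E).idxOf x), by simpa [vs] using h0, by simpa [vs] using h1,
      by simpa [vs] using h2, (cst_map l (fun x => (vs E).idxOf x) E).ge.trans h⟩
  · rintro ⟨l, h0, h1, h2, h⟩
    have e : ∀ x ∈ vs E, (vs E).getD ((vs E).idxOf x) 0 = x := fun x hx => by
      rw [List.getD_eq_getElem _ _ (List.idxOf_lt_length_of_mem hx), List.getElem_idxOf]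
    refine ⟨fun i => l ((vs E).getD i 0), h0, h1, h2,
      (cst_map (fun i => l ((vs E).getD i 0)) (fun x => (vs E).idxOf x) E).le.trans
        ((cst_congr fun p hp => ?_).le.trans h)⟩
    rw [e _ (mem_vs hp).1, e _ (mem_vs hp).2]
    exact ⟨rfl, rfl⟩

lemma three {c : List (ℕ × Bool)} (h : c.length = 3) :
    c = [c.getD 0 (0, false), c.getD 1 (0, false), c.getD 2 (0, false)] := by
  obtain ⟨a, b, e, rfl⟩ := List.length_eq_three.1 h
  rfl

lemma sat_of_mwc {φ : CNF} (h3 : ∀ c ∈ φ, c.length = 3) (h : MWC (raw φ) (92 * φ.length)) :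
    Sat φ := by
  obtain ⟨l, h0, h1, h2, h⟩ := h
  have lo := fun j => gad_lo (l := fun i => l (nm j (φ.getD j []) i)) h0 h1 h2
  have key := (cst_ge l (fun j => gad.map fun p => (nm j (φ.getD j []) p.1, nm j (φ.getD j []) p.2))
    (fun j => (lo j).1.trans (cst_map l _ _).ge) (List.range φ.length)).2
    (by rw [List.length_range]; exact h)
  have tr : ∀ v b, Opp (l (lit v b)) (l (lit v (!b))) → l (lit v b) = 0 →
      decide (l (lit v true) = 0) = b := by
    intro v b ho hb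
    cases b
    · rcases ho with ho | ho
      · simp [show l (lit v true) = 1 from ho.2]
      · rw [hb] at ho
        exact absurd ho.1 (by decide)
    · simp [hb]
  refine ⟨fun v => decide (l (lit v true) = 0), fun c hc => ?_⟩
  obtain ⟨j, hj, rfl⟩ := List.getElem_of_mem hc
  obtain ⟨o1, o2, o3, o4⟩ := (lo j).2 ((cst_map l _ _).ge.trans (key j (List.mem_range.2 hj)))
  rw [List.getD_eq_getElem _ _ hj] at o1 o2 o3 o4
  rw [three (h3 _ hc)]
  rcases o4 with o | o | o
  · exact ⟨_, List.mem_cons_self, tr _ _ o1 o⟩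
  · exact ⟨_, List.mem_cons_of_mem _ List.mem_cons_self, tr _ _ o2 o⟩
  · exact ⟨_, List.mem_cons_of_mem _ (List.mem_cons_of_mem _ List.mem_cons_self), tr _ _ o3 o⟩

lemma mwc_of_sat {φ : CNF} (h3 : ∀ c ∈ φ, c.length = 3) (h : Sat φ) :
    MWC (raw φ) (92 * φ.length) := by
  obtain ⟨ν, hν⟩ := h
  let tv : ℕ → ℕ → Bool := fun j i =>
    ν ((φ.getD j []).getD i (0, false)).1 == ((φ.getD j []).getD i (0, false)).2
  let F : ℕ → ℕ → Fin 3 := fun j i => (best (tv j 0) (tv j 1) (tv j 2)).getD i 0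
  let l : ℕ → Fin 3 := fun n => if n < 3 then Fin.ofNat 3 n else if n % 2 = 0 then
    val (ν (n / 4 - 1) == decide (n % 4 = 2)) else F ((n - 3) / 2).unpair.1 ((n - 3) / 2).unpair.2
  have l1 : ∀ v b, l (lit v b) = val (ν v == b) := by
    intro v b
    have a1 : ¬ lit v b < 3 := by unfold lit; omega
    have a2 : lit v b % 2 = 0 := by unfold lit; omega
    have a3 : lit v b / 4 - 1 = v := by cases b <;> (simp [lit] <;> omega)
    have a4 : decide (lit v b % 4 = 2) = b := by cases b <;> (simp [lit] <;> omega)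
    simp only [l, a1, a2, a3, a4, if_true, if_false]
  have l2 : ∀ v b, l (lit v (!b)) = val (!(ν v == b)) := by
    intro v b
    rw [l1]
    cases b <;> cases ν v <;> rfl
  have l3 : ∀ j i, l (2 * Nat.pair j i + 3) = F j i := by
    intro j i
    have a1 : ¬ 2 * Nat.pair j i + 3 < 3 := by omega
    have a2 : ¬ (2 * Nat.pair j i + 3) % 2 = 0 := by omega
    have a3 : (2 * Nat.pair j i + 3 - 3) / 2 = Nat.pair j i := by omega
    simp only [l, a1, a2, a3, if_false, Nat.unpair_pair]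
  have l4 : ∀ j, (fun i => l (nm j (φ.getD j []) i)) = F j := by
    intro j
    funext i
    rcases i with _ | _ | _ | _ | _ | _ | _ | _ | _ | i
    exacts [rfl, rfl, rfl, l1 _ _, l2 _ _, l1 _ _, l2 _ _, l1 _ _, l2 _ _, l3 _ _]
  refine ⟨l, rfl, rfl, rfl, (cst_le l _ _ fun j hj => ?_).trans (by rw [List.length_range])⟩
  rw [cst_map, l4]
  refine gad_up _ _ _ ?_
  have hj' := List.mem_range.1 hj
  have hc : φ.getD j [] ∈ φ := by rw [List.getD_eq_getElem _ _ hj']; exact List.getElem_mem hj'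
  obtain ⟨x, hx, e⟩ := hν _ hc
  rw [three (h3 _ hc)] at hx
  simp only [List.mem_cons, List.not_mem_nil, or_false] at hx
  simp only [tv, Bool.or_eq_true, beq_iff_eq]
  rcases hx with rfl | rfl | rfl
  exacts [.inl (.inl e), .inl (.inr e), .inr e]

lemma pt_raw : PT raw := by
  unfold raw nm lit
  fun_prop

lemma pt_ren : PT ren := by
  unfold ren vs
  fun_prop

end RowMwc

open RowMwc

theorem mwc : MwcStmt := by
  refine ⟨fun φ => (ren (raw φ), 92 * φ.length), ?_, fun φ h => ⟨ren_lt _, ?_⟩⟩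
  · exact (pt_ren.comp pt_raw).prodMk (by fun_prop)
  · exact ⟨fun hs => (mwc_ren _ _).2 (mwc_of_sat h hs), fun hm => sat_of_mwc h ((mwc_ren _ _).1 hm)⟩

end Pool.Agent.MP_17db17_lc.H93
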