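import Pool.Agent.MP_17db17_lc.H93.Pack1

set_option autoImplicit false

namespace Pool.Agent.MP_17db17_lc.H93

namespace Pack

section sys
variable {ι V : Type} {G : Gr ι V} {D : Sys ι V ℤ} {vp : List ℤ} {N : ℕ}

/-- the chords of all elements -/
def AllCh (D : Sys ι V ℤ) (G : Gr ι V) (π : Bool) (x y : ℤ) : Prop := ∃ g, D.Ch G g π x y

theorem mem_mid (hvp : ∀ p, p ∈ vp ↔ ∃ x, p = D.pos x) {g : ι} {x : ℤ} (hx : x ∈ D.path G g)
    (hv : x ∉ vp) : x ∈ D.mid g := by
  rcases Sys.pt_of_mem_path hx with h | h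
  · exact h
  · exact absurd ((hvp x).2 h) hv

theorem same_elt (h : D.Valid G) (hvp : ∀ p, p ∈ vp ↔ ∃ x, p = D.pos x) {g g' : ι} {x : ℤ}
    (hx : x ∈ D.path G g) (hx' : x ∈ D.path G g') (hv : x ∉ vp) : g = g' := by
  by_contra hne
  exact h.not_mem_path hne (mem_mid hvp hx hv) hx'

theorem cs (h : D.Valid G) (hr : D.Reduced G) (hall : ∀ g g', g = g' ∨ G.H g g')
    (hvp : ∀ p, p ∈ vp ↔ ∃ x, p = D.pos x) (hrng : ∀ g, ∀ y ∈ D.path G g, 0 ≤ y ∧ y < N)
    (hcov : ∀ y : ℤ, 0 ≤ y → y < N → y ∉ vp → ∃ g, y ∈ D.mid g) : CS vp N (AllCh D G) where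
  symm := fun _ _ _ ⟨g, hg⟩ => ⟨g, hg.symm⟩
  cellne := by
    rintro π x y ⟨g, hg⟩
    obtain ⟨v, hv⟩ := hr.ch_sep hg
    have hne := h.ch_ne hg
    have hm : D.pos v ∈ vp := (hvp _).2 ⟨v, rfl⟩
    have key : ∀ a b : ℤ, a < b → a ≤ D.pos v → D.pos v ≤ b → cell vp a < cell vp b := by
      intro a b hab h1 h2
      rcases h1.eq_or_lt with h1 | h1
      · exact cell_lt vp hab (Or.inl (h1 ▸ hm))
      · exact (cell_lt vp h1 (Or.inr hm)).trans_le (cell_mono vp h2)
    rcases hv with hv | hv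
    · exact (key x y (by omega) hv.1 hv.2).ne
    · exact (key y x (by omega) hv.1 hv.2).ne'
  rng := fun _ _ _ ⟨g, hg⟩ => hrng g _ hg.mem.1
  uniq := by
    rintro π x y y' hv ⟨g, hg⟩ ⟨g', hg'⟩
    obtain rfl := same_elt h hvp hg.mem.1 hg'.mem.1 hv
    exact h.ch_unique hg hg'
  nc := fun _ _ _ _ _ ⟨g, hg⟩ ⟨g', hg'⟩ => h.ch_not_cross (hall g g') hg hg'
  cover := fun x h0 h1 hv π => by
    obtain ⟨g, hg⟩ := hcov x h0 h1 hv
    obtain ⟨y, hy⟩ := Sys.ch_exists G hg π
    exact ⟨y, g, hy⟩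

/-- first and last chord of an element -/
def ends (D : Sys ι V ℤ) (G : Gr ι V) (g : ι) : List (Chord ℤ) :=
  [(flipN (D.sp g) 0, (D.path G g).getD 0 0, (D.path G g).getD 1 0),
    (flipN (D.sp g) (D.mid g).length, (D.path G g).getD (D.mid g).length 0,
      (D.path G g).getD ((D.mid g).length + 1) 0)]

theorem mem_ends (h : D.Valid G) {g : ι} {π : Bool} {v : V} {y : ℤ}
    (hc : D.Ch G g π (D.pos v) y) :
    (π, D.pos v, y) ∈ ends D G g ∨ (π, y, D.pos v) ∈ ends D G g := by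
  obtain ⟨i, rfl, hi⟩ := Sys.ch_iff.1 hc
  have nm : ∀ j, (D.path G g)[j]? = some (D.pos v) → j = 0 ∨ j = (D.mid g).length + 1 := by
    intro j hj
    have h1 := Sys.le_of_path hj
    by_contra h2
    exact h.notV g v (Sys.mem_mid_iff.2 ⟨j, by omega, by omega, hj⟩)
  rcases hi with ⟨a1, a2⟩ | ⟨a1, a2⟩
  · have h1 := Sys.le_of_path a2
    have h2 := nm _ a1
    obtain rfl : i = 0 := by omega
    left
    simp only [ends, List.getD_eq_getElem?_getD, a1, List.mem_cons]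
    left
    simp only [Nat.zero_add] at a2
    simp [a2]
  · have h2 := nm _ a2
    obtain rfl : i = (D.mid g).length := by omega
    right
    simp [ends, List.getD_eq_getElem?_getD, a1, a2]

theorem acyc (h : D.Valid G) (hvp : ∀ p, p ∈ vp ↔ ∃ x, p = D.pos x) {π : Bool} {u v : ℤ}
    {m : List ℤ} (hc : ∀ c ∈ chords π (u :: (m ++ [v])), AllCh D G c.1 c.2.1 c.2.2)
    (hm : ∀ y ∈ m, y ∉ vp) : m.Nodup ∧ u ∉ m ∧ v ∉ m ∧ (u = v → u ∈ vp) := by
  let q : ℕ → ℤ := fun t => (u :: (m ++ [v])).getD t 0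
  have hlen : (u :: (m ++ [v])).length = m.length + 2 := by simp
  have hq0 : q 0 = u := rfl
  have hqT : q (m.length + 1) = v := by simp [q]
  have hqm : ∀ t, ∀ ht : t < m.length, q (t + 1) = m[t] := by
    intro t ht
    simp [q, List.getElem?_append_left ht, List.getElem?_eq_getElem ht]
  have hch : ∀ t < m.length + 1, AllCh D G (flipN π t) (q t) (q (t + 1)) := by
    intro t ht
    have h1 : t + 1 < (u :: (m ++ [v])).length := by omega
    have h2 := hc _ (mem_chords_iff.2 ⟨t, h1, rfl⟩)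
    simpa only [q, List.getD_eq_getElem _ _ h1, List.getD_eq_getElem _ _ (Nat.lt_of_succ_lt h1)]
      using h2
  have hnv : ∀ t, 0 < t → t < m.length + 1 → q t ∉ vp := by
    intro t h0 h1
    obtain ⟨t, rfl⟩ : ∃ s, t = s + 1 := ⟨t - 1, by omega⟩
    rw [hqm t (by omega)]
    exact hm _ (List.getElem_mem _)
  obtain ⟨g, hg⟩ := hch 0 (by omega)
  have hg' : ∀ t < m.length + 1, D.Ch G g (flipN π t) (q t) (q (t + 1)) := by
    intro t
    induction t with
    | zero => exact fun _ => hg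
    | succ t ih =>
      intro ht
      obtain ⟨g', h1⟩ := hch (t + 1) ht
      obtain rfl := same_elt h hvp (ih (by omega)).mem.2 h1.mem.1 (hnv _ (by omega) ht)
      exact h1
  have hmid : ∀ t, 0 < t → t < m.length + 1 → q t ∈ D.mid g := fun t h0 h1 =>
    mem_mid hvp (hg' t h1).mem.1 (hnv t h0 h1)
  have key : ∀ t t', t < t' → t' ≤ m.length + 1 → q t = q t' → q t ∈ vp := by
    intro t t' h1 h2 e
    have fin : ∀ i j : ℕ, i ≠ j → (D.path G g)[i]? = some (q t) → (D.path G g)[j]? = some (q t) →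
        q t ∈ vp := by
      intro i j hij a1 a2
      rcases h.path_inj a1 a2 with h3 | ⟨⟨h3, -⟩ | ⟨h3, -⟩, -⟩
      · exact absurd h3 hij
      · subst h3
        rw [Sys.path_zero] at a1
        exact (hvp _).2 ⟨_, (Option.some.inj a1).symm⟩
      · subst h3
        rw [Sys.path_zero] at a2
        exact (hvp _).2 ⟨_, (Option.some.inj a2).symm⟩
    obtain ⟨i, ⟨-, a⟩ | ⟨-, hi, a⟩⟩ := h.strand_index (Nat.succ_pos _) hg' hmid
    · exact fin (i + t) (i + t') (by omega) (a t (by omega)) (e ▸ a t' h2)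
    · exact fin (i - t) (i - t') (by omega) (a t (by omega)) (e ▸ a t' h2)
  refine ⟨?_, fun hu => ?_, fun hv => ?_, fun e => ?_⟩
  · rw [List.nodup_iff_pairwise_ne, List.pairwise_iff_getElem]
    intro i j hi hj hij e
    refine hnv (i + 1) (by omega) (by omega) (key (i + 1) (j + 1) (by omega) (by omega) ?_)
    rw [hqm i hi, hqm j hj, e]
  · obtain ⟨j, hj, e⟩ := List.getElem_of_mem hu
    refine hm u hu (key 0 (j + 1) (by omega) (by omega) ?_)
    rw [hq0, hqm j hj, e]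
  · obtain ⟨j, hj, e⟩ := List.getElem_of_mem hv
    refine hnv (j + 1) (by omega) (by omega) (key (j + 1) (m.length + 1) (by omega) le_rfl ?_)
    rw [hqT, hqm j hj, e]
  · exact key 0 (m.length + 1) (by omega) le_rfl (by rw [hq0, hqT, e])

/-- a system with two elements on the places `0, …, N - 1` -/
theorem packed (h : D.Valid G) (hr : D.Reduced G) (hall : ∀ g g', g = g' ∨ G.H g g') (a b : ι)
    (hab : ∀ g, g = a ∨ g = b) (hs : vp.Pairwise (· < ·))
    (hvp : ∀ p, p ∈ vp ↔ ∃ x, p = D.pos x) (hv : ∀ x, 0 ≤ D.pos x ∧ D.pos x < N)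
    (hrng : ∀ g, ∀ y ∈ D.path G g, 0 ≤ y ∧ y < N)
    (hcov : ∀ y : ℤ, 0 ≤ y → y < N → y ∉ vp → ∃ g, y ∈ D.mid g) :
    ∃ B, Packed vp B N ∧ B.length ≤ tsz vp + 4 ∧
      ∀ g, Walk vp B (D.sp g) (D.pos (G.s g)) (D.mid g) (D.pos (G.t g)) := by
  have c := cs h hr hall hvp hrng hcov
  obtain ⟨B, h1, h2, h3⟩ := c.blocks (ends D G a ++ ends D G b) (by
    rintro π x y ⟨g, hg⟩ hx
    obtain ⟨v, rfl⟩ := (hvp x).1 hx
    have := mem_ends h hg
    simp only [List.mem_append]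
    rcases hab g with rfl | rfl <;> tauto)
  refine ⟨B, ⟨hs, h1, fun v hv' => ?_, fun π x y hc => c.rng _ _ _ ((h3 _ _ _).1 hc),
    fun x h0 hN hx π => ?_, fun π u m v hw => ?_⟩, by simpa [ends] using h2, fun g => ⟨?_, ?_⟩⟩
  · obtain ⟨x, rfl⟩ := (hvp v).1 hv'
    exact hv x
  · obtain ⟨y, hy⟩ := c.cover x h0 hN hx π
    exact ⟨y, (h3 _ _ _).2 hy⟩
  · exact acyc h hvp (fun d hd => (h3 _ _ _).1 (hw.1 d hd)) hw.2
  · exact fun d hd => (h3 _ _ _).2 ⟨g, Or.inl hd⟩
  · intro y hy hy'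
    obtain ⟨x, rfl⟩ := (hvp y).1 hy'
    exact h.notV g x hy

end sys

theorem rank_range (S : Finset ℤ) {p : ℤ} (hp : p ∈ S) : 0 ≤ rank S p ∧ rank S p < S.card := by
  unfold rank
  refine ⟨Nat.cast_nonneg _, ?_⟩
  exact_mod_cast Finset.card_lt_card ⟨Finset.filter_subset _ _, fun h => by
    have := h hp
    simp at this⟩

theorem rank_inj {S : Finset ℤ} {p q : ℤ} (hp : p ∈ S) (hq : q ∈ S) (h : rank S p = rank S q) :
    p = q := by
  rcases lt_trichotomy p q with h1 | h1 | h1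
  · exact absurd h (rank_lt hp h1).ne
  · exact h1
  · exact absurd h (rank_lt hq h1).ne'

theorem rank_surj (S : Finset ℤ) {y : ℤ} (h0 : 0 ≤ y) (h1 : y < S.card) :
    ∃ p ∈ S, rank S p = y := by
  have h : S.image (rank S) = Finset.Ico (0 : ℤ) S.card := by
    refine Finset.eq_of_subset_of_card_le (fun z hz => ?_) ?_
    · obtain ⟨p, hp, rfl⟩ := Finset.mem_image.1 hz
      exact Finset.mem_Ico.2 (rank_range S hp)
    · rw [Finset.card_image_of_injOn fun p hp q hq e => rank_inj hp hq e]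
      simp
  exact Finset.mem_image.1 (h ▸ Finset.mem_Ico.2 ⟨h0, h1⟩)

theorem cell_rank {S : Finset ℤ} {vp : List ℤ} (hv : ∀ v ∈ vp, v ∈ S) {p : ℤ} (hp : p ∈ S) :
    cell (vp.map (rank S)) (rank S p) = cell vp p := by
  unfold cell
  have h1 : rank S p ∈ vp.map (rank S) ↔ p ∈ vp := by
    rw [List.mem_map]
    exact ⟨fun ⟨v, h, e⟩ => rank_inj (hv v h) hp e ▸ h, fun h => ⟨p, h, rfl⟩⟩
  rw [List.filter_map, List.length_map, if_congr h1 rfl rfl]
  congr 3
  refine List.filter_congr fun v h => ?_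
  simp only [Function.comp, rank_lt_iff (hv v h) hp]

theorem cnt_rank {S : Finset ℤ} {vp : List ℤ} (hv : ∀ v ∈ vp, v ∈ S) (b : Bool) {l : List ℤ}
    (hl : ∀ p ∈ l, p ∈ S) (j : ℕ) :
    cnt (vp.map (rank S)) b (l.map (rank S)) j = cnt vp b l j := by
  unfold cnt
  rw [chords_map, List.filter_map, List.length_map, List.length_map]
  congr 1
  refine List.filter_congr fun c hc => ?_
  obtain ⟨h1, h2⟩ := mem_of_mem_chords hc
  simp only [Function.comp, cell_rank hv (hl _ h1), cell_rank hv (hl _ h2)]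

end Pack

open Pack in
theorem pack : TabStmt → PackStmt := by
  intro tab ι V _ _ G hG D h hr e e' hee
  classical
  obtain ⟨t1, t2, -, t4, -⟩ := tab ι V G D h.inj
  let ι' : Type := {g : ι // g = e ∨ g = e'}
  let G' : Gr ι' V := ⟨fun g => G.s g.1, fun g => G.t g.1, fun g g' => G.H g.1 g'.1⟩
  have hG' : G'.Symm := fun g g' hh => hG _ _ hh
  have r : ComapOK G' G Subtype.val id :=
    ⟨Subtype.val_injective, Function.injective_id, fun _ => rfl, fun _ => rfl, fun _ _ hh => hh⟩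
  let D1 : Sys ι' V ℤ := D.comap Subtype.val id
  have h1 : D1.Valid G' := r.valid h
  have hr1 : D1.Reduced G' := fun g c hc => hr g.1 c hc
  let S : Finset ℤ := Finset.univ.image D.pos ∪ (D.mid e).toFinset ∪ (D.mid e').toFinset
  have s1 : ∀ x, D.pos x ∈ S := fun x => by simp [S]
  have s2 : ∀ g : ι', ∀ y ∈ D.mid g.1, y ∈ S := by
    rintro ⟨g, rfl | rfl⟩ y hy <;> simp_all [S]
  have s3 : ∀ g : ι', ∀ y ∈ D.path G g.1, y ∈ S := by
    intro g y hy
    rcases Sys.pt_of_mem_path hy with hy | ⟨x, rfl⟩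
    · exact s2 g y hy
    · exact s1 x
  have hvp0 : ∀ p, p ∈ D.vp ↔ ∃ x, p = D.pos x := by
    intro p
    simp [Sys.vp, eq_comm]
  have s4 : ∀ v ∈ D.vp, v ∈ S := by
    intro v hv
    obtain ⟨x, rfl⟩ := (hvp0 v).1 hv
    exact s1 x
  have rm : RemapOK G' D1 (fun x => rank S (D1.pos x)) fun _ => rank S := by
    refine remapOK_map h1 fun y y' hy _ => rank_lt ?_
    rcases hy with ⟨g, hy⟩ | ⟨x, rfl⟩
    · exact s2 g y hy
    · exact s1 x
  have h2 : (D1.map (rank S)).Valid G' := rm.valid hG' h1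
  have hr2 : (D1.map (rank S)).Reduced G' := rm.reduced hG' h1 hr1
  have hall : ∀ g g' : ι', g = g' ∨ G'.H g g' := by
    rintro ⟨g, rfl | rfl⟩ ⟨g', rfl | rfl⟩
    · exact Or.inl rfl
    · exact hee.imp (fun hh => Subtype.ext hh) id
    · exact hee.imp (fun hh => Subtype.ext hh.symm) (hG _ _)
    · exact Or.inl rfl
  have hsort : (D.vp.map (rank S)).Pairwise (· < ·) := by
    rw [List.pairwise_map]
    have : D.vp.Pairwise (· < ·) := (Finset.sortedLT_sort _).pairwise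
    exact this.imp_of_mem fun ha _ hab => rank_lt (s4 _ ha) hab
  have hvp : ∀ p, p ∈ D.vp.map (rank S) ↔ ∃ x, p = (D1.map (rank S)).pos x := by
    intro p
    rw [List.mem_map]
    constructor
    · rintro ⟨v, hv, rfl⟩
      obtain ⟨x, rfl⟩ := (hvp0 v).1 hv
      exact ⟨x, rfl⟩
    · rintro ⟨x, rfl⟩
      exact ⟨_, (hvp0 _).2 ⟨x, rfl⟩, rfl⟩
  obtain ⟨B, p1, p2, p3⟩ := packed (N := S.card) h2 hr2 hall ⟨e, Or.inl rfl⟩ ⟨e', Or.inr rfl⟩
    (fun g => g.2.imp (fun hh => Subtype.ext hh) fun hh => Subtype.ext hh) hsort hvp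
    (fun x => rank_range S (s1 x))
    (fun g y hy => by
      rw [Sys.path_map] at hy
      obtain ⟨p, hp, rfl⟩ := List.mem_map.1 hy
      exact rank_range S (s3 g p hp))
    (fun y y0 y1 hy => by
      obtain ⟨p, hp, rfl⟩ := rank_surj S y0 y1
      simp only [S, Finset.mem_union, Finset.mem_image, Finset.mem_univ, true_and,
        List.mem_toFinset] at hp
      rcases hp with (⟨x, rfl⟩ | hp) | hp
      · exact absurd ((hvp _).2 ⟨x, rfl⟩) hy
      · exact ⟨⟨e, Or.inl rfl⟩, List.mem_map_of_mem hp⟩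
      · exact ⟨⟨e', Or.inr rfl⟩, List.mem_map_of_mem hp⟩)
  have hget : ∀ x, (D.vp.map (rank S)).getD (D.rk x) 0 = rank S (D.pos x) := by
    intro x
    have hx : D.rk x < D.vp.length := t1 ▸ t2 x
    rw [List.getD_eq_getElem _ _ (by simpa using hx), List.getElem_map, ← t4 x,
      List.getD_eq_getElem _ _ hx]
  have hcnt : ∀ g : ι', ∀ j < tsz (D.vp.map (rank S)), cnt (D.vp.map (rank S)) (D.sp g.1)
      (rank S (D.pos (G.s g.1)) :: ((D.mid g.1).map (rank S) ++ [rank S (D.pos (G.t g.1))])) j =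
      (D.tab G g.1).getD j 0 := by
    intro g j hj
    have hj' : j < tsz D.vp := by simpa [tsz] using hj
    have e1 := cnt_rank s4 (D.sp g.1) (s3 g) j
    simp only [Sys.path, List.map_cons, List.map_append, List.map_nil] at e1
    rw [e1, Sys.tab, List.getD_eq_getElem _ _ (by simpa using hj'), List.getElem_map,
      List.getElem_range]
    rfl
  refine ⟨D.vp.map (rank S), B, S.card, (D.mid e).map (rank S), (D.mid e').map (rank S), p1,
    by rw [List.length_map, t1], ?_, p2, ?_, ?_, List.length_map _, List.length_map _, ?_, ?_⟩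
  · have n1 : ∀ g, (D.mid g).length ≤ D.norm := fun g =>
      Finset.single_le_sum (f := fun g => (D.mid g).length) (fun _ _ => Nat.zero_le _)
        (Finset.mem_univ g)
    have c1 : S.card ≤ (Finset.univ.image D.pos ∪ (D.mid e).toFinset).card +
      (D.mid e').toFinset.card := Finset.card_union_le _ _
    have c2 := Finset.card_union_le (Finset.univ.image D.pos) (D.mid e).toFinset
    have c3 : (Finset.univ.image D.pos).card ≤ Fintype.card V := Finset.card_image_le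
    have c4 := List.toFinset_card_le (D.mid e)
    have c5 := List.toFinset_card_le (D.mid e')
    have c6 := n1 e
    have c7 := n1 e'
    omega
  · rw [hget, hget]
    exact p3 ⟨e, Or.inl rfl⟩
  · rw [hget, hget]
    exact p3 ⟨e', Or.inr rfl⟩
  · rw [hget, hget]
    exact hcnt ⟨e, Or.inl rfl⟩
  · rw [hget, hget]
    exact hcnt ⟨e', Or.inr rfl⟩

end Pool.Agent.MP_17db17_lc.H93
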