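import Pool.Agent.MP_17db17_lc.H93.Basic

set_option autoImplicit false

namespace Pool.Agent.MP_17db17_lc.H93

namespace Pack

/-! ### Cells -/

theorem count_le (l : List ℤ) {x y : ℤ} (h : x < y) :
    (l.filter fun v => decide (v < x)).length + (if x ∈ l then 1 else 0) ≤
      (l.filter fun v => decide (v < y)).length := by
  induction l with
  | nil => simp
  | cons a l ih =>
    simp only [List.filter_cons, List.mem_cons]
    by_cases h1 : a < x
    · have h2 : a < y := h1.trans h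
      have h3 : ¬ x = a := by omega
      simp only [h1, h2, decide_true, if_true, List.length_cons, h3, false_or]
      omega
    · by_cases h3 : x = a
      · subst h3
        simp only [h1, h, decide_true, decide_false, if_true, List.length_cons, true_or]
        split_ifs at ih <;> simp_all <;> omega
      · simp only [h1, decide_false, h3, false_or]
        by_cases h2 : a < y
        · simp only [h2, decide_true, if_true, List.length_cons]
          simp only [Bool.false_eq_true, if_false]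
          omega
        · simp only [h2, decide_false, Bool.false_eq_true, if_false]
          exact ih

theorem cell_mono (vp : List ℤ) {x y : ℤ} (h : x ≤ y) : cell vp x ≤ cell vp y := by
  rcases h.eq_or_lt with h | h
  · rw [h]
  · have := count_le vp h
    unfold cell
    split_ifs at this ⊢ <;> omega

theorem cell_lt (vp : List ℤ) {x y : ℤ} (h : x < y) (hv : x ∈ vp ∨ y ∈ vp) :
    cell vp x < cell vp y := by
  have := count_le vp h
  unfold cell
  split_ifs at this ⊢ <;> first | omega | tauto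

theorem lt_of_cell_lt (vp : List ℤ) {x y : ℤ} (h : cell vp x < cell vp y) : x < y := by
  by_contra h1
  have := cell_mono vp (not_lt.1 h1)
  omega

/-- two different places in one cell are not vertices -/
theorem not_mem_of_cell_eq {vp : List ℤ} {x y : ℤ} (h : cell vp x = cell vp y) (hne : x ≠ y) :
    x ∉ vp := by
  intro hx
  rcases lt_or_gt_of_ne hne with h1 | h1
  · have := cell_lt vp h1 (Or.inl hx)
    omega
  · have := cell_lt vp h1 (Or.inr hx)
    omega

theorem cell_lt_size (vp : List ℤ) (x : ℤ) : cell vp x < 2 * vp.length + 1 := by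
  have h1 := count_le vp (lt_add_one x)
  have h2 := List.length_filter_le (fun v => decide (v < x + 1)) vp
  unfold cell
  split_ifs at h1 ⊢ <;> omega

theorem code_lt {C c c' : ℕ} (π : Bool) (h : c < C) (h' : c' < C) : code C π c c' < 2 * C * C := by
  unfold code
  have h1 : π.toNat * C + c + 1 ≤ 2 * C := by cases π <;> simp <;> omega
  have h2 := Nat.mul_le_mul_right C h1
  nlinarith

theorem code_inj {C c c' d d' : ℕ} {π π' : Bool} (h : c < C) (h' : c' < C) (k : d < C)
    (k' : d' < C) (e : code C π c c' = code C π' d d') : π = π' ∧ c = d ∧ c' = d' := by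
  unfold code at e
  have h1 : c' = d' := by
    have := congrArg (· % C) e
    simpa [Nat.mul_add_mod_self_right, Nat.mod_eq_of_lt h', Nat.mod_eq_of_lt k'] using this
  subst h1
  have h2 : π.toNat * C + c = π'.toNat * C + d :=
    Nat.eq_of_mul_eq_mul_right (by omega) (Nat.add_right_cancel e)
  cases π <;> cases π' <;> simp at h2 ⊢ <;> omega

/-! ### Blocks of an abstract system of chords -/

/-- a system of chords on the places `0, …, N - 1` -/
structure CS (vp : List ℤ) (N : ℕ) (C : Bool → ℤ → ℤ → Prop) : Prop where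
  symm : ∀ π x y, C π x y → C π y x
  cellne : ∀ π x y, C π x y → cell vp x ≠ cell vp y
  rng : ∀ π x y, C π x y → 0 ≤ x ∧ x < N
  uniq : ∀ π x y y', x ∉ vp → C π x y → C π x y' → y = y'
  nc : ∀ π x y x' y', C π x y → C π x' y' → ¬ Cross (π, x, y) (π, x', y')
  cover : ∀ x : ℤ, 0 ≤ x → x < N → x ∉ vp → ∀ π, ∃ y, C π x y

/-- the chord number `i` inside `(a, b)` is parallel to `(a, b)` -/
def Par (vp : List ℤ) (C : Bool → ℤ → ℤ → Prop) (π : Bool) (a b i : ℤ) : Prop :=
  C π (a + i) (b - i) ∧ cell vp (a + i) = cell vp a ∧ cell vp (b - i) = cell vp b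

/-- an outermost chord of a family of parallel chords -/
def Start (vp : List ℤ) (C : Bool → ℤ → ℤ → Prop) (π : Bool) (a b : ℤ) : Prop :=
  a < b ∧ C π a b ∧ ¬ Par vp C π a b (-1)

/-- a full block -/
def Full (vp : List ℤ) (C : Bool → ℤ → ℤ → Prop) (k : Block) : Prop :=
  Start vp C k.1 k.2.1 k.2.2.1 ∧ (∀ i : ℕ, i < k.2.2.2 → Par vp C k.1 k.2.1 k.2.2.1 i) ∧
    ¬ Par vp C k.1 k.2.1 k.2.2.1 k.2.2.2

variable {vp : List ℤ} {N : ℕ} {C : Bool → ℤ → ℤ → Prop}

theorem CS.cell_lt (h : CS vp N C) {π : Bool} {a b : ℤ} (hc : C π a b) (hab : a < b) :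
    cell vp a < cell vp b :=
  lt_of_le_of_ne (cell_mono vp hab.le) (h.cellne _ _ _ hc)

theorem CS.exists_width (h : CS vp N C) {π : Bool} {a b : ℤ} (hs : Start vp C π a b) :
    ∃ W, Full vp C (π, a, b, W) := by
  classical
  have hex : ∃ W : ℕ, ¬ Par vp C π a b W := by
    refine ⟨N, fun hp => ?_⟩
    have h1 := (h.rng _ _ _ hp.1).2
    have h2 := (h.rng _ _ _ hs.2.1).1
    omega
  exact ⟨Nat.find hex, hs, fun i hi => not_not.1 (Nat.find_min hex hi), Nat.find_spec hex⟩

theorem Full.one_le {k : Block} (hk : Full vp C k) : 1 ≤ k.2.2.2 := by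
  by_contra h
  have h0 : k.2.2.2 = 0 := by omega
  apply hk.2.2
  rw [h0]
  exact ⟨by simpa using hk.1.2.1, by simp, by simp⟩

theorem Full.last {k : Block} (hk : Full vp C k) :
    C k.1 (k.2.1 + k.2.2.2 - 1) (k.2.2.1 - k.2.2.2 + 1) ∧
      cell vp (k.2.1 + k.2.2.2 - 1) = cell vp k.2.1 ∧
      cell vp (k.2.2.1 - k.2.2.2 + 1) = cell vp k.2.2.1 := by
  have h1 := hk.one_le
  have h2 := hk.2.1 (k.2.2.2 - 1) (by omega)
  have e : ((k.2.2.2 - 1 : ℕ) : ℤ) = k.2.2.2 - 1 := by omega
  have e1 : k.2.1 + ((k.2.2.2 : ℤ) - 1) = k.2.1 + k.2.2.2 - 1 := by ring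
  have e2 : k.2.2.1 - ((k.2.2.2 : ℤ) - 1) = k.2.2.1 - k.2.2.2 + 1 := by ring
  unfold Par at h2
  rwa [e, e1, e2] at h2

theorem CS.blockOK (h : CS vp N C) {k : Block} (hk : Full vp C k) : blockOK vp k = true := by
  obtain ⟨-, h2, h3⟩ := hk.last
  have h4 := h.cell_lt hk.1.2.1 hk.1.1
  unfold H93.blockOK
  simp only [Bool.and_eq_true, decide_eq_true_eq]
  exact ⟨⟨⟨⟨hk.one_le, lt_of_cell_lt vp (by omega)⟩, h2.symm⟩, h3.symm⟩, h4.ne⟩

/-- the start of a block is not an inner chord of another block -/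
theorem Full.eq_of_common {k k' : Block} (hk : Full vp C k) (hk' : Full vp C k') (hp : k.1 = k'.1)
    {i : ℕ} (hi : i < k.2.2.2) (ha : k'.2.1 = k.2.1 + i) (hb : k'.2.2.1 = k.2.2.1 - i) :
    k = k' := by
  obtain ⟨π, a, b, W⟩ := k
  obtain ⟨π', a', b', W'⟩ := k'
  simp only at hp hi ha hb
  subst hp
  have h0 : i = 0 := by
    by_contra h0
    obtain ⟨j, rfl⟩ : ∃ j, i = j + 1 := ⟨i - 1, by omega⟩
    obtain ⟨p1, p2, p3⟩ := hk.2.1 j (by simpa using (by omega : j < W))
    obtain ⟨-, q2, q3⟩ := hk.2.1 (j + 1) hi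
    apply hk'.1.2.2
    have e1 : a' + -1 = a + j := by rw [ha]; push_cast; ring
    have e2 : b' - -1 = b - j := by rw [hb]; push_cast; ring
    refine ⟨?_, ?_, ?_⟩
    · simpa only [e1, e2] using p1
    · simp only [e1]
      rw [ha]
      exact p2.trans q2.symm
    · simp only [e2]
      rw [hb]
      exact p3.trans q3.symm
  subst h0
  simp only [Nat.cast_zero, add_zero, sub_zero] at ha hb
  subst ha hb
  have hW : W = W' := by
    rcases lt_trichotomy W W' with h | h | h
    · exact absurd (hk'.2.1 W h) hk.2.2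
    · exact h
    · exact absurd (hk.2.1 W' h) hk'.2.2
  rw [hW]

theorem leV_iff {x y : ℤ} : leV vp x y = true ↔ x < y ∨ (x = y ∧ x ∈ vp) := by
  simp [leV]

theorem CS.nest (h : CS vp N C) {k k' : Block} (hk : Full vp C k) (hk' : Full vp C k')
    (hp : k.1 = k'.1) (hne : k ≠ k') (ha : k.2.1 ≤ k'.2.1) (hb : k'.2.2.1 ≤ k.2.2.1) :
    leV vp (k.2.1 + k.2.2.2 - 1) k'.2.1 = true ∧
      leV vp k'.2.2.1 (k.2.2.1 - k.2.2.2 + 1) = true := by
  have c' : C k.1 k'.2.1 k'.2.2.1 := hp ▸ hk'.1.2.1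
  have left : ∀ i : ℕ, i < k.2.2.2 → k'.2.1 = k.2.1 + i → k'.2.1 ∈ vp := by
    intro i hi e
    by_contra hv
    refine hne (hk.eq_of_common hk' hp hi e ?_)
    exact h.uniq _ _ _ _ hv c' (e ▸ (hk.2.1 i hi).1)
  have right : ∀ i : ℕ, i < k.2.2.2 → k'.2.2.1 = k.2.2.1 - i → k'.2.2.1 ∈ vp := by
    intro i hi e
    by_contra hv
    refine hne (hk.eq_of_common hk' hp hi ?_ e)
    exact h.uniq _ _ _ _ hv (h.symm _ _ _ c') (e ▸ h.symm _ _ _ (hk.2.1 i hi).1)
  obtain ⟨-, l2, l3⟩ := hk.last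
  have h1 := hk.one_le
  rw [leV_iff, leV_iff]
  constructor
  · by_cases hl : k.2.1 + k.2.2.2 - 1 < k'.2.1
    · exact Or.inl hl
    · have hv := left (k'.2.1 - k.2.1).toNat (by omega) (by omega)
      have m1 := cell_mono vp ha
      have m2 := cell_mono vp (not_lt.1 hl)
      have e : k'.2.1 = k.2.1 + k.2.2.2 - 1 := by
        by_contra e
        exact not_mem_of_cell_eq (by omega) e hv
      exact Or.inr ⟨e.symm, e ▸ hv⟩
  · by_cases hl : k'.2.2.1 < k.2.2.1 - k.2.2.2 + 1
    · exact Or.inl hl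
    · have hv := right (k.2.2.1 - k'.2.2.1).toNat (by omega) (by omega)
      have m1 := cell_mono vp hb
      have m2 := cell_mono vp (not_lt.1 hl)
      have e : k'.2.2.1 = k.2.2.1 - k.2.2.2 + 1 := by
        by_contra e
        exact not_mem_of_cell_eq (by omega) e hv
      exact Or.inr ⟨e, hv⟩

theorem CS.blockPair (h : CS vp N C) {k k' : Block} (hk : Full vp C k) (hk' : Full vp C k') :
    blockPair vp k k' = true := by
  unfold H93.blockPair
  simp only [Bool.or_eq_true, Bool.and_eq_true, decide_eq_true_eq]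
  by_cases hne : k = k'
  · simp [hne]
  by_cases hp : k.1 = k'.1
  swap
  · simp [hp]
  have c : C k.1 k.2.1 k.2.2.1 := hk.1.2.1
  have c' : C k.1 k'.2.1 k'.2.2.1 := hp ▸ hk'.1.2.1
  have hab := hk.1.1
  have hab' := hk'.1.1
  have hn := h.nc _ _ _ _ _ c c'
  simp only [Cross, Btw, Out, true_and] at hn
  by_cases h1 : k.2.1 ≤ k'.2.1 ∧ k'.2.2.1 ≤ k.2.2.1
  · exact Or.inl (Or.inr (h.nest hk hk' hp hne h1.1 h1.2))
  by_cases h2 : k'.2.1 ≤ k.2.1 ∧ k.2.2.1 ≤ k'.2.2.1
  · exact Or.inr (h.nest hk' hk hp.symm (Ne.symm hne) h2.1 h2.2)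
  refine Or.inl (Or.inl ?_)
  by_cases h3 : k.2.1 < k'.2.1
  · refine Or.inl (Or.inr (leV_iff.2 ?_))
    by_cases h4 : k.2.2.1 < k'.2.1
    · exact Or.inl h4
    · have e : k.2.2.1 = k'.2.1 := by omega
      refine Or.inr ⟨e, ?_⟩
      by_contra hv
      have := h.uniq _ _ _ _ hv (h.symm _ _ _ c) (e ▸ c')
      omega
  · refine Or.inr (leV_iff.2 ?_)
    by_cases h4 : k'.2.2.1 < k.2.1
    · exact Or.inl h4
    · have e : k'.2.2.1 = k.2.1 := by omega
      refine Or.inr ⟨e, ?_⟩
      by_contra hv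
      have := h.uniq _ _ _ _ hv (h.symm _ _ _ c') (e ▸ c)
      omega

/-- every chord lies in a full block -/
theorem CS.exists_full (h : CS vp N C) {π : Bool} : ∀ (n : ℕ) {x y : ℤ}, x ≤ n → x < y →
    C π x y → ∃ a b W, Full vp C (π, a, b, W) ∧ ∃ i : ℕ, i < W ∧ x = a + i ∧ y = b - i := by
  intro n
  induction n with
  | zero =>
    intro x y hx hxy hc
    have hs : Start vp C π x y := ⟨hxy, hc, fun hp => by
      have := (h.rng _ _ _ hp.1).1
      omega⟩
    obtain ⟨W, hW⟩ := h.exists_width hs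
    exact ⟨x, y, W, hW, 0, hW.one_le, by simp, by simp⟩
  | succ n ih =>
    intro x y hx hxy hc
    by_cases hp : Par vp C π x y (-1)
    · obtain ⟨a, b, W, hW, i, hi, e1, e2⟩ := ih (by omega) (by omega) hp.1
      have e3 : x = a + ((i + 1 : ℕ) : ℤ) := by omega
      have e4 : y = b - ((i + 1 : ℕ) : ℤ) := by omega
      refine ⟨a, b, W, hW, i + 1, ?_, e3, e4⟩
      by_contra hlt
      have e : W = i + 1 := by omega
      obtain ⟨-, p2, p3⟩ := hW.2.1 i hi
      apply hW.2.2
      simp only [e] at p2 p3 ⊢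
      refine ⟨by rw [← e3, ← e4]; exact hc, ?_, ?_⟩
      · rw [← e3, ← hp.2.1, e1]
        exact p2
      · rw [← e4, ← hp.2.2, e2]
        exact p3
    · obtain ⟨W, hW⟩ := h.exists_width ⟨hxy, hc, hp⟩
      exact ⟨x, y, W, hW, 0, hW.one_le, by simp, by simp⟩

/-- at most one start for each pair of open cells -/
theorem CS.start_lt (h : CS vp N C) {π : Bool} {a b a' b' : ℤ} (hs : Start vp C π a b)
    (hs' : Start vp C π a' b') (hb' : b' ∉ vp) (e1 : cell vp a = cell vp a')
    (e2 : cell vp b = cell vp b') : ¬ a < a' := by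
  intro hlt
  obtain ⟨hab, c, -⟩ := hs
  obtain ⟨hab', c', hn⟩ := hs'
  have k1 := h.cell_lt c hab
  have ha'b : a' < b := lt_of_cell_lt vp (by omega)
  have hbb : b' < b := by
    have n1 := h.nc _ _ _ _ _ c c'
    simp only [Cross, Btw, Out, true_and] at n1
    have : b' ≠ b := fun e => by
      have := h.uniq _ _ _ _ hb' (h.symm _ _ _ c') (e ▸ h.symm _ _ _ c)
      omega
    omega
  have r1 := h.rng _ _ _ c
  have r2 := h.rng _ _ _ (h.symm _ _ _ c)
  have r3 := h.rng _ _ _ (h.symm _ _ _ c')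
  have ca : cell vp (a' + -1) = cell vp a' := by
    have m1 := cell_mono vp (show a ≤ a' + -1 by omega)
    have m2 := cell_mono vp (show a' + -1 ≤ a' by omega)
    omega
  have cb : cell vp (b' - -1) = cell vp b' := by
    have m1 := cell_mono vp (show b' ≤ b' - -1 by omega)
    have m2 := cell_mono vp (show b' - -1 ≤ b by omega)
    omega
  have va : a' + -1 ∉ vp := not_mem_of_cell_eq ca (by omega)
  have va' : a' ∉ vp := not_mem_of_cell_eq ca.symm (by omega)
  have vb : b' - -1 ∉ vp := not_mem_of_cell_eq cb (by omega)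
  obtain ⟨y, cy⟩ := h.cover (a' + -1) (by omega) (by omega) va π
  obtain ⟨x, cx⟩ := h.cover (b' - -1) (by omega) (by omega) vb π
  have hy : b' < y ∧ y ≤ b := by
    have n1 := h.nc _ _ _ _ _ c cy
    have n2 := h.nc _ _ _ _ _ c' cy
    simp only [Cross, Btw, Out, true_and] at n1 n2
    have u1 : a' + -1 = a → y = b := fun e => h.uniq _ _ _ _ va cy (e ▸ c)
    have u2 : y ≠ b' := fun e => by
      have := h.uniq _ _ _ _ hb' (h.symm _ _ _ c') (e ▸ h.symm _ _ _ cy)
      omega
    have u3 : ¬ (a ≤ y ∧ y ≤ a') := fun hh => by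
      have m1 := cell_mono vp hh.1
      have m2 := cell_mono vp hh.2
      have := h.cellne _ _ _ cy
      omega
    omega
  have hyb : y = b' - -1 := by
    by_contra hne
    have n1 := h.nc _ _ _ _ _ cy cx
    have n2 := h.nc _ _ _ _ _ c' cx
    simp only [Cross, Btw, Out, true_and] at n1 n2
    have u1 : x ≠ a' + -1 := fun e => hne (h.uniq _ _ _ _ va cy (e ▸ h.symm _ _ _ cx))
    have u2 : x ≠ a' := fun e => by
      have := h.uniq _ _ _ _ va' c' (e ▸ h.symm _ _ _ cx)
      omega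
    have u3 : ¬ (b' ≤ x ∧ x ≤ b) := fun hh => by
      have m1 := cell_mono vp hh.1
      have m2 := cell_mono vp hh.2
      have := h.cellne _ _ _ cx
      omega
    omega
  exact hn ⟨hyb ▸ cy, ca, cb⟩

/-- the blocks of a system of chords -/
theorem CS.blocks (h : CS vp N C) (E : List (Chord ℤ))
    (hE : ∀ π x y, C π x y → x ∈ vp → (π, x, y) ∈ E ∨ (π, y, x) ∈ E) :
    ∃ B : List Block, blocksOK vp B = true ∧ B.length ≤ tsz vp + E.length ∧
      ∀ π x y, BCh B π x y ↔ C π x y := by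
  classical
  let St : Finset (Chord ℤ) :=
    (Finset.univ ×ˢ Finset.Ico (0 : ℤ) N ×ˢ Finset.Ico (0 : ℤ) N).filter
      fun s => Start vp C s.1 s.2.1 s.2.2
  have hSt : ∀ s, s ∈ St ↔ Start vp C s.1 s.2.1 s.2.2 := by
    intro s
    simp only [St, Finset.mem_filter, Finset.mem_product, Finset.mem_univ, true_and,
      Finset.mem_Ico, and_iff_right_iff_imp]
    exact fun hs => ⟨h.rng _ _ _ hs.2.1, h.rng _ _ _ (h.symm _ _ _ hs.2.1)⟩
  have hW : ∀ s : Chord ℤ, ∃ W, Start vp C s.1 s.2.1 s.2.2 → Full vp C (s.1, s.2.1, s.2.2, W) := by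
    intro s
    by_cases hs : Start vp C s.1 s.2.1 s.2.2
    · obtain ⟨W, hW⟩ := h.exists_width hs
      exact ⟨W, fun _ => hW⟩
    · exact ⟨0, fun hs' => absurd hs' hs⟩
  choose W hW using hW
  have hB : ∀ k : Block, k ∈ St.toList.map (fun s => ((s.1, s.2.1, s.2.2, W s) : Block)) ↔
      Full vp C k := by
    intro k
    rw [List.mem_map]
    constructor
    · rintro ⟨s, hs, rfl⟩
      exact hW s ((hSt s).1 (Finset.mem_toList.1 hs))
    · intro hk
      refine ⟨(k.1, k.2.1, k.2.2.1), Finset.mem_toList.2 ((hSt _).2 hk.1), ?_⟩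
      exact (hk.eq_of_common (hW (k.1, k.2.1, k.2.2.1) hk.1) rfl hk.one_le (i := 0) (by simp)
        (by simp)).symm
  refine ⟨St.toList.map fun s => (s.1, s.2.1, s.2.2, W s), ?_, ?_, fun π x y => ⟨?_, ?_⟩⟩
  · unfold blocksOK
    simp only [List.all_eq_true, Bool.and_eq_true]
    exact fun k hk => ⟨h.blockOK ((hB k).1 hk), fun k' hk' =>
      h.blockPair ((hB k).1 hk) ((hB k').1 hk')⟩
  · rw [List.length_map, Finset.length_toList,
      ← Finset.card_filter_add_card_filter_not (fun s : Chord ℤ => s.2.1 ∉ vp ∧ s.2.2 ∉ vp)]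
    refine add_le_add ?_ ?_
    · rw [← Finset.card_range (tsz vp)]
      refine Finset.card_le_card_of_injOn
        (fun s => code (2 * vp.length + 1) s.1 (cell vp s.2.1) (cell vp s.2.2)) ?_ ?_
      · intro s _
        exact Finset.mem_coe.2 (Finset.mem_range.2
          (code_lt _ (cell_lt_size _ _) (cell_lt_size _ _)))
      · rintro ⟨π, a, b⟩ hs ⟨π', a', b'⟩ hs' e
        obtain ⟨hs, -, hb⟩ := Finset.mem_filter.1 (Finset.mem_coe.1 hs)
        obtain ⟨hs', ha', hb'⟩ := Finset.mem_filter.1 (Finset.mem_coe.1 hs')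
        obtain ⟨e0, e1, e2⟩ := code_inj (cell_lt_size _ _) (cell_lt_size _ _) (cell_lt_size _ _)
          (cell_lt_size _ _) e
        simp only at e0 e1 e2 hb ha' hb'
        subst e0
        have s1 : Start vp C π a b := (hSt _).1 hs
        have s2 : Start vp C π a' b' := (hSt _).1 hs'
        have l1 := h.start_lt s1 s2 hb' e1 e2
        have l2 := h.start_lt s2 s1 hb e1.symm e2.symm
        have e3 : a = a' := by omega
        subst e3
        rw [h.uniq _ _ _ _ ha' s1.2.1 s2.2.1]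
    · have hsub : St.filter (fun s : Chord ℤ => ¬ (s.2.1 ∉ vp ∧ s.2.2 ∉ vp)) ⊆
          (E.map fun c => ((c.1, min c.2.1 c.2.2, max c.2.1 c.2.2) : Chord ℤ)).toFinset := by
        rintro ⟨π, a, b⟩ hs
        obtain ⟨hs, hv⟩ := Finset.mem_filter.1 hs
        obtain ⟨hab, c, -⟩ := (hSt _).1 hs
        simp only at hab c hv
        have : (π, a, b) ∈ E ∨ (π, b, a) ∈ E := by
          by_cases ha : a ∈ vp
          · exact hE _ _ _ c ha
          · exact (hE _ _ _ (h.symm _ _ _ c) (by tauto)).symm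
        rw [List.mem_toFinset, List.mem_map]
        rcases this with h1 | h1
        · exact ⟨_, h1, by simp [hab.le]⟩
        · exact ⟨_, h1, by simp [hab.le]⟩
      exact (Finset.card_le_card hsub).trans ((List.toFinset_card_le _).trans (by simp))
  · rintro ⟨k, hk, rfl, i, hi, ⟨rfl, rfl⟩ | ⟨rfl, rfl⟩⟩
    · exact (((hB k).1 hk).2.1 i hi).1
    · exact h.symm _ _ _ (((hB k).1 hk).2.1 i hi).1
  · intro hc
    have hne : x ≠ y := fun e => h.cellne _ _ _ hc (by rw [e])
    rcases lt_or_gt_of_ne hne with hlt | hlt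
    · obtain ⟨a, b, w, hw, i, hi, e1, e2⟩ := h.exists_full N (h.rng _ _ _ hc).2.le hlt hc
      exact ⟨_, (hB _).2 hw, rfl, i, hi, Or.inl ⟨e1, e2⟩⟩
    · have hc' := h.symm _ _ _ hc
      obtain ⟨a, b, w, hw, i, hi, e1, e2⟩ := h.exists_full N (h.rng _ _ _ hc').2.le hlt hc'
      exact ⟨_, (hB _).2 hw, rfl, i, hi, Or.inr ⟨e1, e2⟩⟩

end Pack

end Pool.Agent.MP_17db17_lc.H93
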