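import Pool.Agent.MP_17db17_lc.H93.Spec

set_option autoImplicit false

namespace Pool.Agent.MP_17db17_lc.H93

namespace PairS

theorem sorted_of_check (vp : List ℤ) (n : ℕ) (hl : vp.length = n)
    (h : ((List.range n).all fun i => (List.range n).all fun j =>
      decide (j ≤ i) || decide (vp.getD i 0 < vp.getD j 0)) = true) :
    vp.Pairwise (· < ·) := by
  rw [List.pairwise_iff_getElem]
  intro i j hi hj hij
  simp only [List.all_eq_true, List.mem_range, Bool.or_eq_true, decide_eq_true_eq] at h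
  rcases h i (hl ▸ hi) j (hl ▸ hj) with h1 | h1
  · omega
  · rwa [List.getD_eq_getElem _ _ hi, List.getD_eq_getElem _ _ hj] at h1

theorem getD_mem (vp : List ℤ) (i : ℕ) (hi : i < vp.length) : vp.getD i 0 ∈ vp := by
  rw [List.getD_eq_getElem _ _ hi]
  exact List.getElem_mem hi

theorem getD_inj (vp : List ℤ) (hs : vp.Pairwise (· < ·)) (i j : ℕ) (hi : i < vp.length)
    (hj : j < vp.length) (h : vp.getD i 0 = vp.getD j 0) : i = j := by
  rw [List.getD_eq_getElem _ _ hi, List.getD_eq_getElem _ _ hj] at h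
  rw [List.pairwise_iff_getElem] at hs
  rcases lt_trichotomy i j with h1 | h1 | h1
  · exact absurd h (hs i j hi hj h1).ne
  · exact h1
  · exact absurd h (hs j i hj hi h1).ne'

/-- a final fact gives a walk with the prescribed table -/
theorem walk_of_final (vp : List ℤ) (B : List Block) (Γ : List Entry)
    (hΓ : ∀ x ∈ Γ, Holds vp B x.1) (b : Bool) (u v : ℤ) (w : List ℕ)
    (h : finalOK vp Γ b u v w = true) :
    ∃ m, Walk vp B b u m v ∧ (u = v → Odd m.length) ∧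
      ∀ j < tsz vp, cnt vp b (u :: (m ++ [v])) j = w.getD j 0 := by
  unfold finalOK at h
  simp only [List.any_eq_true, Bool.and_eq_true, decide_eq_true_eq, Bool.or_eq_true,
    List.all_eq_true, List.mem_range] at h
  obtain ⟨x, hx, ⟨⟨⟨⟨⟨hb, hu⟩, hv⟩, hw⟩, hodd⟩, htab⟩⟩ := h
  obtain ⟨m, hwalk, -, hpage, -, -, hcnt⟩ := hΓ x hx 0 (by omega)
  simp only [Nat.cast_zero, mul_zero, add_zero] at hwalk hcnt
  rw [hb, hu, hv] at hwalk hcnt
  rw [hb] at hpage
  refine ⟨m, hwalk, fun huv => ?_, fun j hj => ?_⟩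
  · rcases hodd with h1 | h1
    · exact absurd huv h1
    · rw [Nat.odd_iff]
      by_contra h2
      have h3 : m.length % 2 = 0 := by omega
      rw [if_pos h3] at hpage
      exact h1 hpage
  · rw [hcnt j hj]
    exact htab j hj

theorem noCross_of_walks (vp : List ℤ) (B : List Block)
    (h3 : ∀ π x y x' y', BCh B π x y → BCh B π x' y' → ¬ Cross (π, x, y) (π, x', y'))
    {b b' : Bool} {u v u' v' : ℤ} {m m' : List ℤ} (h : Walk vp B b u m v)
    (h' : Walk vp B b' u' m' v') :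
    NoCross b (u :: (m ++ [v])) b' (u' :: (m' ++ [v'])) := by
  rintro ⟨π, x, y⟩ hc ⟨π', x', y'⟩ hd hcr
  have e : π = π' := hcr.1
  subst e
  exact h3 π x y x' y' (h.1 _ hc) (h'.1 _ hd) hcr

end PairS

open PairS in
theorem pairS : DerStmt → DetStmt → PairStmt := by
  intro der det ι V G hpar n rk sp w hrk hlt e e' hee pc hok
  obtain ⟨vp, B, Γ⟩ := pc
  unfold pairOK at hok
  simp only [Bool.and_eq_true, decide_eq_true_eq] at hok
  obtain ⟨⟨⟨⟨⟨hl, hsort⟩, hB⟩, hD⟩, hf1⟩, hf2⟩ := hok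
  have hs := sorted_of_check vp n hl hsort
  have hΓ := der vp B Γ hB hD
  obtain ⟨-, d2, d3, d4, d5⟩ := det vp B hB
  obtain ⟨m1, hw1, ho1, hc1⟩ := walk_of_final vp B Γ hΓ _ _ _ _ hf1
  obtain ⟨m2, hw2, ho2, hc2⟩ := walk_of_final vp B Γ hΓ _ _ _ _ hf2
  have hlen : ∀ x, rk x < vp.length := fun x => hl ▸ hlt x
  have hmem : ∀ x, vp.getD (rk x) 0 ∈ vp := fun x => getD_mem vp _ (hlen x)
  have hinj : ∀ x y, vp.getD (rk x) 0 = vp.getD (rk y) 0 → x = y := fun x y h =>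
    hrk (getD_inj vp hs _ _ (hlen x) (hlen y) h)
  refine ⟨vp, m1, m2, hs, hl, ?_, ?_, ?_, noCross_of_walks vp B d3 hw1 hw2, hc1, hc2⟩
  · exact ⟨hmem _, hmem _, d4 _ _ _ _ hw1 (hmem _), hw1.2, ho1,
      noCross_of_walks vp B d3 hw1 hw1, fun c hc => (d2 _ _ _ (hw1.1 c hc)).2⟩
  · exact ⟨hmem _, hmem _, d4 _ _ _ _ hw2 (hmem _), hw2.2, ho2,
      noCross_of_walks vp B d3 hw2 hw2, fun c hc => (d2 _ _ _ (hw2.1 c hc)).2⟩
  · intro hne y hy1 hy2
    have hH : G.H e e' := hee.resolve_left hne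
    obtain ⟨-, hp1, hp2⟩ := hpar e e' hH
    rcases d5 _ _ _ _ _ _ _ _ hw1 hw2 (hmem _) (hmem _) (hmem _) (hmem _) ⟨y, hy1, hy2⟩ with
      ⟨h1, h2⟩ | ⟨h1, h2⟩
    · exact hp1 ⟨hinj _ _ h1, hinj _ _ h2⟩
    · exact hp2 ⟨hinj _ _ h1, hinj _ _ h2⟩

end Pool.Agent.MP_17db17_lc.H93
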