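import Pool.Agent.MP_17db17_lc.H93.Spec

set_option autoImplicit false

namespace Pool.Agent.MP_17db17_lc.H93

namespace Par

variable {a b c d : Pt}

lemma om_ll (ha : a.1 ≤ 0) (hb : b.1 ≤ 0) : om a b = 0 := by
  simp [om, ha.not_gt, hb.not_gt]

lemma om_rr (ha : 0 < a.1) (hb : 0 < b.1) : om a b = 0 := by
  simp [om, ha.not_ge, hb.not_ge]

lemma om_lr (ha : a.1 ≤ 0) (hb : 0 < b.1) : om a b = if det a b < 0 then 1 else 0 := by
  simp [om, ha, hb, hb.not_ge]

lemma om_rl (ha : 0 < a.1) (hb : b.1 ≤ 0) : om a b = if 0 < det a b then -1 else 0 := by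
  simp [om, ha, hb, ha.not_ge]

lemma det_swap (a b : Pt) : det b a = -det a b := by
  unfold det; ring

lemma om_swap (a b : Pt) : om b a = -om a b := by
  rcases le_or_gt a.1 0 with ha | ha <;> rcases le_or_gt b.1 0 with hb | hb
  · rw [om_ll ha hb, om_ll hb ha, neg_zero]
  · rw [om_lr ha hb, om_rl hb ha, det_swap a b]
    simp only [neg_pos]
    split_ifs <;> rfl
  · rw [om_rl ha hb, om_lr hb ha, det_swap a b]
    simp only [neg_lt_zero]
    split_ifs <;> rfl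
  · rw [om_rr ha hb, om_rr hb ha, neg_zero]

/-- The origin is a combination with weights `s`, `t`. -/
lemma mem_of {s t : ℝ} (hs : 0 ≤ s) (ht : 0 ≤ t) (h : 0 < s + t) (h1 : s * a.1 + t * b.1 = 0)
    (h2 : s * a.2 + t * b.2 = 0) : (0 : Pt) ∈ segment ℝ a b := by
  refine ⟨s / (s + t), t / (s + t), by positivity, by positivity, by field_simp, Prod.ext ?_ ?_⟩
  · simp only [Prod.fst_add, Prod.smul_fst, smul_eq_mul, Prod.fst_zero]
    field_simp
    linear_combination h1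
  · simp only [Prod.snd_add, Prod.smul_snd, smul_eq_mul, Prod.snd_zero]
    field_simp
    linear_combination h2

lemma det_ne (h : (0 : Pt) ∉ segment ℝ a b) (ha : a.1 ≤ 0) (hb : 0 < b.1) : det a b ≠ 0 :=
  fun e => h (mem_of (s := b.1) (t := -a.1) hb.le (by linarith) (by linarith) (by ring)
    (by unfold det at e; linarith))

lemma det_ne' (h : (0 : Pt) ∉ segment ℝ a b) (ha : 0 < a.1) (hb : b.1 ≤ 0) : det a b ≠ 0 := by
  rw [det_swap b a, neg_ne_zero]
  exact det_ne (by rwa [segment_symm]) hb ha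

def Pos (a b c d : Pt) : Prop := 0 < det a b ∧ 0 < det b c ∧ 0 < det c d ∧ 0 < det d a

def Neg (a b c d : Pt) : Prop := det a b < 0 ∧ det b c < 0 ∧ det c d < 0 ∧ det d a < 0

/-- The winding number of the quadrilateral. -/
def Wn (a b c d : Pt) : Prop :=
  (Pos a b c d → om a b + om b c + om c d + om d a = -1) ∧
  (Neg a b c d → om a b + om b c + om c d + om d a = 1) ∧
  (¬ Pos a b c d → ¬ Neg a b c d → om a b + om b c + om c d + om d a = 0)

lemma Wn.rot (h : Wn b c d a) : Wn a b c d := by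
  have e : om a b + om b c + om c d + om d a = om b c + om c d + om d a + om a b := by ring
  unfold Wn Pos Neg at *
  rw [e]
  tauto

/-- A parallelogram with the origin on no side. -/
structure Pg (a b c d : Pt) : Prop where
  x : a.1 + c.1 = b.1 + d.1
  y : a.2 + c.2 = b.2 + d.2
  ab : (0 : Pt) ∉ segment ℝ a b
  bc : (0 : Pt) ∉ segment ℝ b c
  cd : (0 : Pt) ∉ segment ℝ c d
  da : (0 : Pt) ∉ segment ℝ d a

lemma Pg.rot (h : Pg a b c d) : Pg b c d a := ⟨by linarith [h.x], by linarith [h.y], h.bc, h.cd,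
  h.da, h.ab⟩

lemma Pg.e1 (h : Pg a b c d) : det b c = det a b + det b d := by
  unfold det
  linear_combination b.1 * h.y - b.2 * h.x

lemma Pg.e2 (h : Pg a b c d) : det c d = det d a + det b d := by
  unfold det
  linear_combination d.2 * h.x - d.1 * h.y

lemma tri (a b c : Pt) : a.1 * det b c + b.1 * det c a + c.1 * det a b = 0 := by
  unfold det; ring

lemma wn_ll (h : Pg a b c d) (ha : a.1 ≤ 0) (hb : b.1 ≤ 0) (hc : c.1 ≤ 0) (hd : d.1 ≤ 0) :
    Wn a b c d := by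
  have key : ∀ P Q R S x : ℝ, 0 < P → 0 < Q → 0 < R → 0 < S → a.1 * x + b.1 * S + d.1 * P = 0 →
      b.1 * R - c.1 * x + d.1 * Q = 0 → det a b = 0 := by
    intro P Q R S x hP hQ hR hS e e'
    have hbd : b.1 = 0 ∧ d.1 = 0 := by
      rcases le_total 0 x with hx | hx
      · constructor <;> nlinarith [mul_nonneg (neg_nonneg.2 ha) hx]
      · constructor <;> nlinarith [mul_nonneg (neg_nonneg.2 hc) (neg_nonneg.2 hx)]
    have : a.1 = 0 := by linarith [h.x, hbd.1, hbd.2]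
    simp [det, this, hbd.1]
  have t1 := tri a b d
  have t2 := tri b c d
  rw [det_swap b d] at t2
  rw [Wn, om_ll ha hb, om_ll hb hc, om_ll hc hd, om_ll hd ha]
  refine ⟨fun ⟨h1, h2, h3, h4⟩ => ?_, fun ⟨h1, h2, h3, h4⟩ => ?_, fun _ _ => rfl⟩
  · exact absurd (key _ _ _ _ (det b d) h1 h2 h3 h4 t1 (by linarith)) h1.ne'
  · exact absurd (key _ _ _ _ (-det b d) (neg_pos.2 h1) (neg_pos.2 h2) (neg_pos.2 h3) (neg_pos.2 h4)
      (by linarith) (by linarith)) h1.ne

lemma wn_rr (ha : 0 < a.1) (hb : 0 < b.1) (hc : 0 < c.1) (hd : 0 < d.1) : Wn a b c d := by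
  have key : ∀ P Q R S x : ℝ, 0 < P → 0 < Q → 0 < R → 0 < S → a.1 * x + b.1 * S + d.1 * P = 0 →
      b.1 * R - c.1 * x + d.1 * Q = 0 → False := by
    intro P Q R S x hP hQ hR hS e e'
    rcases le_total 0 x with hx | hx
    · nlinarith [mul_nonneg ha.le hx, mul_pos hb hS, mul_pos hd hP]
    · nlinarith [mul_nonneg hc.le (neg_nonneg.2 hx), mul_pos hb hR, mul_pos hd hQ]
  have t1 := tri a b d
  have t2 := tri b c d
  rw [det_swap b d] at t2
  rw [Wn, om_rr ha hb, om_rr hb hc, om_rr hc hd, om_rr hd ha]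
  refine ⟨fun ⟨h1, h2, h3, h4⟩ => ?_, fun ⟨h1, h2, h3, h4⟩ => ?_, fun _ _ => rfl⟩
  · exact (key _ _ _ _ (det b d) h1 h2 h3 h4 t1 (by linarith)).elim
  · exact (key _ _ _ _ (-det b d) (neg_pos.2 h1) (neg_pos.2 h2) (neg_pos.2 h3) (neg_pos.2 h4)
      (by linarith) (by linarith)).elim

/-- Two sides with nonzero determinants decide everything. -/
lemma wn_of {P S : ℝ} (hP : P ≠ 0) (hS : S ≠ 0)
    (e : om a b + om b c + om c d + om d a = (if P < 0 then 1 else 0) + if 0 < S then -1 else 0)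
    (h1 : Pos a b c d ↔ 0 < P ∧ 0 < S) (h2 : Neg a b c d ↔ P < 0 ∧ S < 0) : Wn a b c d := by
  rw [Wn, e, h1, h2]
  rcases hP.lt_or_gt with hP | hP <;> rcases hS.lt_or_gt with hS | hS <;>
    simp [hP, hS, hP.not_gt, hS.not_gt]

lemma wn_lrrr (h : Pg a b c d) (ha : a.1 ≤ 0) (hb : 0 < b.1) (hc : 0 < c.1) (hd : 0 < d.1) :
    Wn a b c d := by
  have key : ∀ P S x : ℝ, 0 < P → 0 < S → a.1 * x + b.1 * S + d.1 * P = 0 → 0 ≤ x := by
    intro P S x hP hS e
    by_contra hx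
    nlinarith [mul_nonneg (neg_nonneg.2 ha) (neg_nonneg.2 (not_le.1 hx).le), mul_pos hb hS,
      mul_pos hd hP]
  have t1 := tri a b d
  have e1 := h.e1
  have e2 := h.e2
  refine wn_of (det_ne h.ab ha hb) (det_ne' h.da hd ha)
    (by rw [om_lr ha hb, om_rr hb hc, om_rr hc hd, om_rl hd ha]; ring)
    ⟨fun p => ⟨p.1, p.2.2.2⟩, fun ⟨p, q⟩ => ?_⟩ ⟨fun p => ⟨p.1, p.2.2.2⟩, fun ⟨p, q⟩ => ?_⟩
  · have := key _ _ _ p q t1
    exact ⟨p, by linarith, by linarith, q⟩
  · have := key _ _ (-det b d) (neg_pos.2 p) (neg_pos.2 q) (by linarith)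
    exact ⟨p, by linarith, by linarith, q⟩

lemma wn_rlll (h : Pg a b c d) (ha : 0 < a.1) (hb : b.1 ≤ 0) (hc : c.1 ≤ 0) (hd : d.1 ≤ 0) :
    Wn a b c d := by
  have key : ∀ P S x : ℝ, 0 < P → 0 < S → a.1 * x + b.1 * S + d.1 * P = 0 → 0 ≤ x := by
    intro P S x hP hS e
    by_contra hx
    nlinarith [mul_pos ha (neg_pos.2 (not_le.1 hx)), mul_nonneg (neg_nonneg.2 hb) hS.le,
      mul_nonneg (neg_nonneg.2 hd) hP.le]
  have t1 := tri a b d
  have e1 := h.e1
  have e2 := h.e2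
  refine wn_of (det_ne h.da hd ha) (det_ne' h.ab ha hb)
    (by rw [om_rl ha hb, om_ll hb hc, om_ll hc hd, om_lr hd ha]; ring)
    ⟨fun p => ⟨p.2.2.2, p.1⟩, fun ⟨q, p⟩ => ?_⟩ ⟨fun p => ⟨p.2.2.2, p.1⟩, fun ⟨q, p⟩ => ?_⟩
  · have := key _ _ _ p q t1
    exact ⟨p, by linarith, by linarith, q⟩
  · have := key _ _ (-det b d) (neg_pos.2 p) (neg_pos.2 q) (by linarith)
    exact ⟨p, by linarith, by linarith, q⟩

lemma wn_llrr (h : Pg a b c d) (ha : a.1 ≤ 0) (hb : b.1 ≤ 0) (hc : 0 < c.1) (hd : 0 < d.1) :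
    Wn a b c d := by
  have key : ∀ P Q R S : ℝ, 0 < Q → 0 < S → a.1 * (Q - P) + b.1 * S + d.1 * P = 0 →
      b.1 * R - c.1 * (R - S) + d.1 * Q = 0 → (0 < P ∨ (a.1 = 0 ∧ b.1 = 0)) ∧ 0 < R := by
    intro P Q R S hQ hS e e'
    have n1 := mul_nonneg (neg_nonneg.2 ha) hQ.le
    have n2 := mul_nonneg (neg_nonneg.2 hb) hS.le
    constructor
    · rcases lt_or_ge 0 P with hP | hP
      · exact Or.inl hP
      · have n3 := mul_nonneg (show 0 ≤ d.1 - a.1 by linarith) (neg_nonneg.2 hP)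
        exact Or.inr ⟨by nlinarith, by nlinarith⟩
    · by_contra hR
      nlinarith [mul_nonneg (show 0 ≤ c.1 - b.1 by linarith) (neg_nonneg.2 (not_lt.1 hR)),
        mul_pos hc hS, mul_pos hd hQ]
  have t1 := tri a b d
  have t2 := tri b c d
  rw [det_swap b d] at t2
  have e1 := h.e1
  have e2 := h.e2
  refine wn_of (det_ne h.bc hb hc) (det_ne' h.da hd ha)
    (by rw [om_ll ha hb, om_lr hb hc, om_rr hc hd, om_rl hd ha]; ring)
    ⟨fun p => ⟨p.2.1, p.2.2.2⟩, fun ⟨p, q⟩ => ?_⟩ ⟨fun p => ⟨p.2.1, p.2.2.2⟩, fun ⟨p, q⟩ => ?_⟩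
  · obtain ⟨k | ⟨k, k'⟩, r⟩ := key (det a b) _ (det c d) _ p q
      (by linear_combination t1 + a.1 * e1) (by linear_combination t2 - c.1 * e2)
    · exact ⟨k, p, r, q⟩
    · simp only [det, k, k', zero_mul, mul_zero, zero_sub, sub_zero] at p q
      have hb2 : b.2 < 0 := by nlinarith
      have ha2 : 0 < a.2 := by nlinarith
      exact absurd (mem_of (s := -b.2) (t := a.2) (by linarith) ha2.le (by linarith)
        (by rw [k, k']; ring) (by ring)) h.ab
  · obtain ⟨k | ⟨k, k'⟩, r⟩ := key (-det a b) _ (-det c d) _ (neg_pos.2 p) (neg_pos.2 q)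
      (by linear_combination -t1 - a.1 * e1) (by linear_combination -t2 + c.1 * e2)
    · exact ⟨neg_pos.1 k, p, neg_pos.1 r, q⟩
    · simp only [det, k, k', zero_mul, mul_zero, zero_sub, sub_zero] at p q
      have hb2 : 0 < b.2 := by nlinarith
      have ha2 : a.2 < 0 := by nlinarith
      exact absurd (mem_of (s := b.2) (t := -a.2) hb2.le (by linarith) (by linarith)
        (by rw [k, k']; ring) (by ring)) h.ab

lemma wn (h : Pg a b c d) : Wn a b c d := by
  have hx := h.x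
  rcases le_or_gt a.1 0 with ha | ha <;> rcases le_or_gt b.1 0 with hb | hb <;>
    rcases le_or_gt c.1 0 with hc | hc <;> rcases le_or_gt d.1 0 with hd | hd
  · exact wn_ll h ha hb hc hd
  · exact (wn_rlll h.rot.rot.rot hd ha hb hc).rot.rot.rot
  · exact (wn_rlll h.rot.rot hc hd ha hb).rot.rot
  · exact wn_llrr h ha hb hc hd
  · exact (wn_rlll h.rot hb hc hd ha).rot
  · linarith
  · exact (wn_llrr h.rot.rot.rot hd ha hb hc).rot.rot.rot
  · exact wn_lrrr h ha hb hc hd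
  · exact wn_rlll h ha hb hc hd
  · exact (wn_llrr h.rot hb hc hd ha).rot
  · linarith
  · exact (wn_lrrr h.rot hb hc hd ha).rot
  · exact (wn_llrr h.rot.rot hc hd ha hb).rot.rot
  · exact (wn_lrrr h.rot.rot hc hd ha hb).rot.rot
  · exact (wn_lrrr h.rot.rot.rot hd ha hb hc).rot.rot.rot
  · exact wn_rr ha hb hc hd

/-! ### The crossing sign -/

section cross

variable (p0 p1 q0 q1 : Pt)

lemma det_sum : det (p1 - p0) (q1 - q0) = det (q0 - p0) (q1 - p0) + det (q1 - p1) (q0 - p1) ∧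
    det (p1 - p0) (q1 - q0) = det (q1 - p0) (q1 - p1) + det (q0 - p1) (q0 - p0) := by
  simp only [det, Prod.fst_sub, Prod.snd_sub]
  constructor <;> ring

variable {p0 p1 q0 q1}

lemma meet_of {δ : ℝ} (e : δ = det (p1 - p0) (q1 - q0)) (h0 : δ ≠ 0)
    (h1 : 0 < det (q0 - p0) (q1 - p0) / δ) (h2 : 0 < det (q1 - p0) (q1 - p1) / δ)
    (h3 : 0 < det (q1 - p1) (q0 - p1) / δ) (h4 : 0 < det (q0 - p1) (q0 - p0) / δ) :
    (openSegment ℝ p0 p1 ∩ openSegment ℝ q0 q1).Nonempty := by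
  obtain ⟨s1, s2⟩ := det_sum p0 p1 q0 q1
  refine ⟨_, ⟨_, _, h3, h1, by rw [← add_div, add_comm, ← s1, ← e, div_self h0], rfl⟩,
    _, _, h2, h4, by rw [← add_div, ← s2, ← e, div_self h0], Prod.ext ?_ ?_⟩
  all_goals
    simp only [det, Prod.fst_add, Prod.smul_fst, Prod.snd_add, Prod.smul_snd, smul_eq_mul,
      Prod.fst_sub, Prod.snd_sub]
    field_simp
    ring

lemma of_meet (h : (openSegment ℝ p0 p1 ∩ openSegment ℝ q0 q1).Nonempty) :
    ∃ s s' t t' : ℝ, 0 < s ∧ 0 < s' ∧ 0 < t ∧ 0 < t' ∧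
      det (q0 - p0) (q1 - p0) = s * det (p1 - p0) (q1 - q0) ∧
      det (q1 - p0) (q1 - p1) = t * det (p1 - p0) (q1 - q0) ∧
      det (q1 - p1) (q0 - p1) = s' * det (p1 - p0) (q1 - q0) ∧
      det (q0 - p1) (q0 - p0) = t' * det (p1 - p0) (q1 - q0) := by
  obtain ⟨z, ⟨s', s, hs', hs, e, rfl⟩, t, t', ht, ht', e', h⟩ := h
  have h1 := congrArg Prod.fst h
  have h2 := congrArg Prod.snd h
  simp only [Prod.fst_add, Prod.smul_fst, Prod.snd_add, Prod.smul_snd, smul_eq_mul] at h1 h2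
  obtain rfl : s' = 1 - s := by linarith
  obtain rfl : t = 1 - t' := by linarith
  refine ⟨s, 1 - s, 1 - t', t', hs, hs', ht, ht', ?_, ?_, ?_, ?_⟩ <;>
    simp only [det, Prod.fst_sub, Prod.snd_sub]
  · linear_combination (q1.2 - q0.2) * h1 - (q1.1 - q0.1) * h2
  · linear_combination (p0.2 - p1.2) * h1 - (p0.1 - p1.1) * h2
  · linear_combination (q0.2 - q1.2) * h1 - (q0.1 - q1.1) * h2
  · linear_combination (p1.2 - p0.2) * h1 - (p1.1 - p0.1) * h2

lemma cs_pos (h : Pos (q0 - p0) (q1 - p0) (q1 - p1) (q0 - p1)) :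
    crossSign (p0, p1) (q0, q1) = 1 := by
  obtain ⟨h1, h2, h3, h4⟩ := h
  have h0 : 0 < det (p1 - p0) (q1 - q0) := by linarith [(det_sum p0 p1 q0 q1).1]
  rw [crossSign, if_pos (meet_of rfl h0.ne' (div_pos h1 h0) (div_pos h2 h0) (div_pos h3 h0)
    (div_pos h4 h0)), sign_pos h0]
  rfl

lemma cs_neg (h : Neg (q0 - p0) (q1 - p0) (q1 - p1) (q0 - p1)) :
    crossSign (p0, p1) (q0, q1) = -1 := by
  obtain ⟨h1, h2, h3, h4⟩ := h
  have h0 : det (p1 - p0) (q1 - q0) < 0 := by linarith [(det_sum p0 p1 q0 q1).1]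
  rw [crossSign, if_pos (meet_of rfl h0.ne (div_pos_of_neg_of_neg h1 h0)
    (div_pos_of_neg_of_neg h2 h0) (div_pos_of_neg_of_neg h3 h0) (div_pos_of_neg_of_neg h4 h0)),
    sign_neg h0]
  rfl

lemma cs_zero (h : ¬ Pos (q0 - p0) (q1 - p0) (q1 - p1) (q0 - p1))
    (h' : ¬ Neg (q0 - p0) (q1 - p0) (q1 - p1) (q0 - p1)) : crossSign (p0, p1) (q0, q1) = 0 := by
  rw [crossSign]
  split_ifs with hm
  · obtain ⟨s, s', t, t', hs, hs', ht, ht', e1, e2, e3, e4⟩ := of_meet hm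
    rw [Pos, e1, e2, e3, e4] at h
    rw [Neg, e1, e2, e3, e4] at h'
    rcases lt_trichotomy (det (p1 - p0) (q1 - q0)) 0 with h0 | h0 | h0
    · exact (h' ⟨mul_neg_of_pos_of_neg hs h0, mul_neg_of_pos_of_neg ht h0,
        mul_neg_of_pos_of_neg hs' h0, mul_neg_of_pos_of_neg ht' h0⟩).elim
    · simp [h0]
    · exact (h ⟨mul_pos hs h0, mul_pos ht h0, mul_pos hs' h0, mul_pos ht' h0⟩).elim
  · rfl

end cross

lemma shift {p : Pt} (h : p ∉ segment ℝ a b) : (0 : Pt) ∉ segment ℝ (a - p) (b - p) := by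
  rintro ⟨s, t, hs, ht, e, h0⟩
  refine h ⟨s, t, hs, ht, e, ?_⟩
  rw [smul_sub, smul_sub, sub_add_sub_comm, ← add_smul, e, one_smul] at h0
  exact sub_eq_zero.1 h0

lemma shift' {p : Pt} (h : p ∉ segment ℝ a b) : (0 : Pt) ∉ segment ℝ (p - a) (p - b) := by
  rintro ⟨s, t, hs, ht, e, h0⟩
  refine h ⟨s, t, hs, ht, e, ?_⟩
  rw [smul_sub, smul_sub, sub_add_sub_comm, ← add_smul, e, one_smul] at h0
  exact (sub_eq_zero.1 h0).symm

lemma split (h : c ∈ segment ℝ a b) (ha : a.1 ≤ 0) (hb : 0 < b.1) : om a b = om a c + om c b := by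
  obtain ⟨s, t, hs, ht, e, h⟩ := h
  have h1 := congrArg Prod.fst h
  have h2 := congrArg Prod.snd h
  simp only [Prod.fst_add, Prod.smul_fst, Prod.snd_add, Prod.smul_snd, smul_eq_mul] at h1 h2
  rcases le_or_gt c.1 0 with hc | hc
  · have hs' : 0 < s := by
      refine hs.lt_of_ne fun h0 => ?_
      have : t = 1 := by linarith
      rw [← h0, this] at h1
      linarith
    have : det c b = s * det a b := by rw [det, det, ← h1, ← h2]; ring
    rw [om_lr ha hb, om_ll ha hc, om_lr hc hb, this, zero_add]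
    simp only [mul_neg_iff, hs', hs'.not_gt, true_and, false_and, or_false]
  · have ht' : 0 < t := by
      refine ht.lt_of_ne fun h0 => ?_
      have : s = 1 := by linarith
      rw [← h0, this] at h1
      linarith
    have : det a c = t * det a b := by rw [det, det, ← h1, ← h2]; ring
    rw [om_lr ha hb, om_lr ha hc, om_rr hc hb, this, add_zero]
    simp only [mul_neg_iff, ht', ht'.not_gt, true_and, false_and, or_false]

end Par

open Par in
theorem par : ParStmt := by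
  refine ⟨fun p0 p1 q0 q1 h1 h2 h3 h4 => ?_, fun a b c h _ => ?_⟩
  · obtain ⟨w1, w2, w3⟩ := wn (a := q0 - p0) (b := q1 - p0) (c := q1 - p1) (d := q0 - p1)
      ⟨by simp only [Prod.fst_sub]; ring, by simp only [Prod.snd_sub]; ring, shift h1, shift' h4,
        by rw [segment_symm]; exact shift h2, by rw [segment_symm]; exact shift' h3⟩
    rw [om_swap (q0 - p1) (q1 - p1), om_swap (q0 - p0) (q0 - p1)] at w1 w2 w3
    by_cases hp : Pos (q0 - p0) (q1 - p0) (q1 - p1) (q0 - p1)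
    · rw [cs_pos hp]; linarith [w1 hp]
    · by_cases hn : Neg (q0 - p0) (q1 - p0) (q1 - p1) (q0 - p1)
      · rw [cs_neg hn]; linarith [w2 hn]
      · rw [cs_zero hp hn]; linarith [w3 hp hn]
  · rcases le_or_gt a.1 0 with ha | ha <;> rcases le_or_gt b.1 0 with hb | hb
    · have hc : c.1 ≤ 0 := by
        obtain ⟨s, t, hs, ht, -, rfl⟩ := h
        simp only [Prod.fst_add, Prod.smul_fst, smul_eq_mul]
        nlinarith
      rw [om_ll ha hb, om_ll ha hc, om_ll hc hb, add_zero]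
    · exact split h ha hb
    · have := split (by rwa [segment_symm] : c ∈ segment ℝ b a) hb ha
      rw [om_swap a b, om_swap c b, om_swap a c] at this
      linarith
    · have hc : 0 < c.1 := by
        obtain ⟨s, t, hs, ht, e, rfl⟩ := h
        simp only [Prod.fst_add, Prod.smul_fst, smul_eq_mul]
        rcases hs.eq_or_lt with rfl | hs
        · rw [zero_add] at e; rw [e]; linarith
        · nlinarith
      rw [om_rr ha hb, om_rr ha hc, om_rr hc hb, add_zero]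

end Pool.Agent.MP_17db17_lc.H93
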