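import Pool.Agent.MP_17db17_lc.H93.Basic

set_option autoImplicit false

namespace Pool.Agent.MP_17db17_lc.H93

namespace Red

theorem split_chords {α : Type} {b : Bool} {l : List α} {c : Chord α} (h : c ∈ chords b l) :
    ∃ l1 l2, l = l1 ++ c.2.1 :: c.2.2 :: l2 ∧ c.1 = flipN b l1.length := by
  induction l generalizing b with
  | nil => simp at h
  | cons x l ih =>
    cases l with
    | nil => simp at h
    | cons y l =>
      rw [chords_cons_cons, List.mem_cons] at h
      rcases h with rfl | h
      · exact ⟨[], l, rfl, rfl⟩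
      · obtain ⟨l1, l2, e1, e2⟩ := ih h
        exact ⟨x :: l1, l2, by rw [e1]; rfl, by rw [e2, List.length_cons, flipN_succ, flipN_not]⟩

/-- a chord between two inner points, and the path without these two points -/
theorem split_path {α : Type} {b π : Bool} {x y p q : α} {m : List α}
    (h : (π, p, q) ∈ chords b (x :: (m ++ [y]))) (hp : p ≠ x) (hq : q ≠ y) :
    ∃ (m1 m2 : List α) (A B : List (Chord α)) (u v : α), m = m1 ++ p :: q :: m2 ∧
      chords b (x :: (m ++ [y])) = A ++ (!π, u, p) :: (π, p, q) :: (!π, q, v) :: B ∧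
      chords b (x :: (m1 ++ m2 ++ [y])) = A ++ (!π, u, v) :: B := by
  obtain ⟨l1, l2, e1, e2⟩ := split_chords h
  simp only at e1 e2
  cases l1 with
  | nil => simp at e1; exact absurd e1.1.symm hp
  | cons x' m1 =>
    obtain rfl : x = x' := by simpa using (List.cons.inj e1).1
    have e3 : m ++ [y] = m1 ++ p :: q :: l2 := (List.cons.inj e1).2
    rcases List.eq_nil_or_concat l2 with rfl | ⟨m2, y', rfl⟩
    · have : m ++ [y] = (m1 ++ [p]) ++ [q] := by rw [e3]; simp
      exact absurd (List.append_inj' this rfl).2 (by simpa using hq.symm)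
    · have e4 : m ++ [y] = (m1 ++ p :: q :: m2) ++ [y'] := by rw [e3]; simp
      obtain ⟨e5, e6⟩ := List.append_inj' e4 rfl
      obtain rfl : y = y' := by simpa using e6
      obtain ⟨k1, u, hu⟩ : ∃ k1 u, x :: m1 = k1 ++ [u] := by
        rcases List.eq_nil_or_concat (x :: m1) with h0 | ⟨k1, u, h0⟩
        · simp at h0
        · exact ⟨k1, u, by simpa using h0⟩
      obtain ⟨v, k2, hv⟩ : ∃ v k2, m2 ++ [y] = v :: k2 := by
        cases m2 with
        | nil => exact ⟨y, [], rfl⟩
        | cons v m2 => exact ⟨v, m2 ++ [y], rfl⟩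
      have hπ : flipN b k1.length = !π := by
        rw [e2, hu, List.length_append, List.length_singleton, flipN_succ, Bool.not_not]
      refine ⟨m1, m2, chords b (k1 ++ [u]), chords π (v :: k2), u, v, e5, ?_, ?_⟩
      · have : x :: (m ++ [y]) = k1 ++ u :: p :: q :: v :: k2 := by
          rw [e5, ← hv]
          have : k1 ++ u :: p :: q :: (m2 ++ [y]) = (k1 ++ [u]) ++ p :: q :: (m2 ++ [y]) := by simp
          rw [this, ← hu]; simp
        rw [this, chords_append, hπ]; simp
      · have : x :: (m1 ++ m2 ++ [y]) = k1 ++ u :: v :: k2 := by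
          rw [← hv]
          have : k1 ++ u :: (m2 ++ [y]) = (k1 ++ [u]) ++ (m2 ++ [y]) := by simp
          rw [this, ← hu]; simp
        rw [this, chords_append, hπ]; simp

theorem not_cross_join {β : Bool} {u p q v : ℤ} {d : Chord ℤ} (h1 : ¬ Cross (β, u, p) d)
    (h2 : ¬ Cross (β, q, v) d) (h3 : ¬ InW p q d.2.1) (h4 : ¬ InW p q d.2.2) :
    ¬ Cross (β, u, v) d := by
  obtain ⟨β', r, s⟩ := d
  by_cases hβ : β = β'
  · subst hβ
    simp only [Cross, Btw, Out, InW, true_and] at h1 h2 h3 h4 ⊢
    omega
  · simp [Cross, hβ]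

theorem not_cross_self (c : Chord ℤ) : ¬ Cross c c := fun h => h.ne.2.2.1 rfl

variable {ι V : Type} {G : Gr ι V}

theorem step [Fintype ι] (hs : G.Symm) {D : Sys ι V ℤ} (h : D.Valid G) (hr : ¬ D.Reduced G) :
    ∃ D' : Sys ι V ℤ, D'.Valid G ∧ D'.pos = D.pos ∧ D'.norm < D.norm ∧
      ∀ e x, D'.cv G e x = D.cv G e x := by
  classical
  have hex : ∃ n : ℕ, ∃ f π p q, (π, p, q) ∈ D.chs G f ∧ ¬ D.Sep p q ∧ (p - q).natAbs = n := by
    simp only [Sys.Reduced, not_forall] at hr
    obtain ⟨f, c, hc, hn⟩ := hr
    exact ⟨_, f, c.1, c.2.1, c.2.2, hc, hn, rfl⟩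
  obtain ⟨f, π, p, q, hc, hn, hmin⟩ := Nat.find_spec hex
  have hV : ∀ x, ¬ InW p q (D.pos x) := fun x hx => hn ⟨x, hx⟩
  have hpV : ∀ x, p ≠ D.pos x := fun x e => hV x (by rw [← e]; unfold InW; omega)
  have hqV : ∀ x, q ≠ D.pos x := fun x e => hV x (by rw [← e]; unfold InW; omega)
  have hbtw : ∀ e, f = e ∨ G.H f e → ∀ y ∈ D.path G e, ¬ Btw p q y := by
    intro e he y hy hb
    rcases Sys.pt_of_mem_path hy with hy | ⟨x, rfl⟩
    · obtain ⟨y', hy'⟩ := Sys.ch_exists G hy π
      have hx := h.ch_not_cross he (Or.inl hc) hy'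
      have hin : InW p q y' := by
        simp only [Cross, Btw, Out, InW, true_and] at hx hb ⊢
        omega
      have hns : ¬ D.Sep y y' := by
        rintro ⟨x, hx'⟩
        refine hV x ?_
        simp only [Btw, InW] at hx' hb hin ⊢
        omega
      have hlt : (y - y').natAbs < Nat.find hex := by
        rw [← hmin]
        simp only [Btw, InW] at hb hin
        omega
      rcases hy' with hy' | hy'
      · exact Nat.find_min hex hlt ⟨e, π, y, y', hy', hns, rfl⟩
      · exact Nat.find_min hex hlt ⟨e, π, y', y, hy', fun h' => hns h'.symm, by omega⟩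
    · refine hV x ?_
      simp only [Btw, InW] at hb ⊢
      omega
  obtain ⟨m1, m2, A, B, u, v, e1, e2, e3⟩ := split_path hc (hpV _) (hqV _)
  let D' : Sys ι V ℤ := ⟨D.pos, D.sp, Function.update D.mid f (m1 ++ m2)⟩
  have mf : D'.mid f = m1 ++ m2 := by simp [D']
  have mne : ∀ e, e ≠ f → D'.mid e = D.mid e := fun e he => by simp [D', he]
  have sub : ∀ e, (D'.mid e).Sublist (D.mid e) := by
    intro e
    by_cases he : e = f
    · subst he
      rw [mf, e1]
      exact (List.Sublist.refl m1).append (((List.Sublist.refl m2).cons _).cons _)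
    · rw [mne e he]
  have cf : D.chs G f = A ++ (!π, u, p) :: (π, p, q) :: (!π, q, v) :: B := e2
  have cf' : D'.chs G f = A ++ (!π, u, v) :: B := by
    rw [← e3, ← mf]; rfl
  have cne : ∀ e, e ≠ f → D'.chs G e = D.chs G e := fun e he => by
    simp only [Sys.chs, Sys.path, mne e he]; rfl
  have hnd := h.nodup f
  rw [e1] at hnd
  have hout : ∀ e, f = e ∨ G.H f e → ∀ y ∈ D'.path G e, ¬ InW p q y := by
    intro e he y hy
    have hy0 : y ∈ D.path G e := by
      rw [Sys.mem_path] at hy ⊢
      exact hy.imp_right (Or.imp_left fun a => (sub e).subset a)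
    have h1 := hbtw e he y hy0
    have h2 : y ≠ p ∧ y ≠ q := by
      rcases Sys.pt_of_mem_path hy with hy | ⟨x, rfl⟩
      · by_cases hef : e = f
        · subst hef
          rw [mf] at hy
          simp only [List.nodup_append, List.nodup_cons, List.mem_cons, List.mem_append] at hnd hy
          grind
        · rw [mne e hef] at hy
          constructor <;> rintro rfl <;> exact h.disj e f hef _ hy (by rw [e1]; simp)
      · exact ⟨(hpV x).symm, (hqV x).symm⟩
    simp only [Btw, InW] at h1 ⊢
    omega
  have old : ∀ e, ∀ c ∈ D'.chs G e, c ∈ D.chs G e ∨ (e = f ∧ c = (!π, u, v)) := by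
    intro e c hc'
    by_cases he : e = f
    · subst he
      rw [cf'] at hc'
      rw [cf]
      simp only [List.mem_append, List.mem_cons] at hc' ⊢
      tauto
    · rw [cne e he] at hc'; exact Or.inl hc'
  have new : ∀ e, f = e ∨ G.H f e → ∀ d ∈ D'.chs G e, ¬ Cross (!π, u, v) d := by
    intro e he d hd
    rcases old e d hd with hd0 | ⟨-, rfl⟩
    · obtain ⟨d1, d2⟩ := mem_of_mem_chords hd
      exact not_cross_join (h.noCross he _ (show _ ∈ D.chs G f by rw [cf]; simp) d hd0)
        (h.noCross he _ (show _ ∈ D.chs G f by rw [cf]; simp) d hd0) (hout e he _ d1)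
        (hout e he _ d2)
    · exact not_cross_self _
  have nc : ∀ e e', e = e' ∨ G.H e e' →
      NoCross (D'.sp e) (D'.path G e) (D'.sp e') (D'.path G e') := by
    intro e e' he c hc' d hd
    rcases old e c hc' with hc0 | ⟨rfl, rfl⟩
    · rcases old e' d hd with hd0 | ⟨rfl, rfl⟩
      · exact h.noCross he c hc0 d hd0
      · exact fun hx => new e (he.imp Eq.symm (hs _ _)) c hc' (cross_symm hx)
    · exact new e' he d hd
  refine ⟨D', ⟨h.inj, fun e => (h.nodup e).sublist (sub e), fun e e' he y hy hy' =>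
    h.disj e e' he y ((sub e).subset hy) ((sub e').subset hy'),
    fun e x hx => h.notV e x ((sub e).subset hx), fun e he => ?_, fun e => nc e e (Or.inl rfl),
    fun e e' he => nc e e' (Or.inr he)⟩, rfl, ?_, fun e x => ?_⟩
  · have := h.odd e he
    by_cases hef : e = f
    · subst hef
      rw [mf]
      rw [e1] at this
      simp only [List.length_append, List.length_cons, Nat.odd_iff] at this ⊢
      omega
    · rwa [mne e hef]
  · refine Finset.sum_lt_sum (fun e _ => (sub e).length_le) ⟨f, Finset.mem_univ _, ?_⟩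
    rw [mf, e1]
    simp only [List.length_append, List.length_cons]
    omega
  · change covL true (D'.chs G e) (D.pos x) = covL true (D.chs G e) (D.pos x)
    by_cases hef : e = f
    · subst hef
      have h1 : ind (D.pos x) p = ind (D.pos x) q := by
        have := hV x
        simp only [InW, ind] at this ⊢
        split_ifs <;> omega
      rw [cf, cf']
      simp only [covL_append, covL_cons, h1]
      cases π
      · simp only [Bool.not_false, if_true, Bool.false_eq_true, if_false]; omega
      · simp only [Bool.not_true, if_true, Bool.false_eq_true, if_false]; omega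
    · rw [cne e hef]

end Red

theorem red : RedStmt := by
  intro ι V _ G hs D h
  induction hn : D.norm using Nat.strong_induction_on generalizing D with
  | _ n ih =>
    by_cases hr : D.Reduced G
    · exact ⟨D, h, hr, rfl, hn.le, fun _ _ => rfl⟩
    · obtain ⟨D1, h1, p1, n1, c1⟩ := Red.step hs h hr
      obtain ⟨D2, h2, r2, p2, n2, c2⟩ := ih D1.norm (hn ▸ n1) D1 h1 rfl
      exact ⟨D2, h2, r2, p2.trans p1, by omega, fun e x => (c2 e x).trans (c1 e x)⟩

end Pool.Agent.MP_17db17_lc.H93
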