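import Pool.Agent.MP_17db17_lc.H93.MainL

set_option autoImplicit false

namespace Pool.Agent.MP_17db17_lc.H93

open MainAux in
theorem sound (htw : TwistStmt) : SoundStmt := by
  classical
  intro N hs J A I
  induction J with
  | zero =>
    intro _ D' hD τ
    have r0 : ComapOK N.gr (N.ext 0 I).gr id id := by
      refine ⟨Function.injective_id, Function.injective_id, fun e => Fin.ext ?_,
        fun e => Fin.ext ?_, fun e e' he => ?_⟩
      · exact (if_pos e.2).symm
      · exact (if_pos e.2).symm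
      · have : (N.ext 0 I).H e e' = N.H e e' := if_pos ⟨e.2, e'.2⟩
        exact this.mpr he
    refine ⟨D'.comap id id, r0.valid hD, fun p => ?_⟩
    rw [r0.alg]
    simp only [Finset.univ_eq_empty, Finset.sum_empty, add_zero]
    rfl
  | succ J ih =>
    intro hsep D' hD τ
    let e0 : Fin (N.ext (J + 1) I).m := Fin.last (N.m + J)
    let A0 : Fin (N.ext (J + 1) I).m → Prop := fun e => e.1 < N.m + J ∧ e.1 ∈ A J
    have s0 : ((N.ext (J + 1) I).gr.s e0).1 = N.n + J := by simp [NG.gr, NG.ext, e0]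
    have t0 : ((N.ext (J + 1) I).gr.t e0).1 = N.n + J := by simp [NG.gr, NG.ext, e0]
    have hH : ∀ e : Fin (N.ext (J + 1) I).m, e.1 < N.m + J →
        ((N.ext (J + 1) I).gr.H e0 e ↔ e.1 ∈ I J) := by
      intro e he
      simp only [NG.gr, NG.ext, e0, Fin.val_last, add_lt_iff_neg_left, not_lt_zero, false_and,
        if_false, Nat.add_sub_cancel_left]
      constructor
      · rintro (h | h)
        · omega
        · exact h.2
      · exact fun h => Or.inr ⟨he, h⟩
    have hh : Handle (N.ext (J + 1) I).gr A0 e0 := by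
      refine ⟨Fin.ext (s0.trans t0.symm), fun e he => ?_, fun h => lt_irrefl _ h.1,
        fun e he => ?_, fun e e' he hH' => ?_⟩
      · have h1 : e.1 < N.m + J := Fin.val_lt_last he
        have h2 := (N.ext J I).hs e h1
        have h3 := (N.ext J I).ht e h1
        exact ⟨fun h => h2.ne ((congrArg Fin.val h).trans s0),
          fun h => h3.ne ((congrArg Fin.val h).trans s0)⟩
      · rw [hH e he.1]; exact (hsep J (by omega) e he.1 he.2).1
      · by_cases h1 : e' = e0
        · subst h1
          exact absurd ((hH e he.1).1 (ext_symm hs _ _ _ _ hH')) (hsep J (by omega) e he.1 he.2).1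
        · have h2 : e'.1 < N.m + J := Fin.val_lt_last h1
          rw [hH e' h2]
          exact ((hsep J (by omega) e he.1 he.2).2 e' h2 hH').imp_left fun h => ⟨h2, h⟩
    obtain ⟨D2, v2, o2, c2⟩ := htw _ _ _ (ext_symm hs _ _) A0 e0 hh D' hD (-τ (Fin.last J))
    let f : Fin (N.ext J I).m → Fin (N.ext (J + 1) I).m := Fin.castSucc (n := N.m + J)
    let g : Fin (N.ext J I).n → Fin (N.ext (J + 1) I).n := Fin.castSucc (n := N.n + J)
    have r : ComapOK (N.ext J I).gr (N.ext (J + 1) I).gr f g :=
      ⟨Fin.castSucc_injective _, Fin.castSucc_injective _, fun _ => rfl, fun _ => rfl,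
        fun _ _ h => h⟩
    have gne : ∀ x, g x ≠ (N.ext (J + 1) I).gr.s e0 := fun x h =>
      x.2.ne ((congrArg Fin.val h).trans s0)
    obtain ⟨D, v, a⟩ := ih (fun j hj => hsep j (by omega)) (D2.comap f g) (r.valid v2)
      fun j => τ j.castSucc
    refine ⟨D, v, fun p => ?_⟩
    have hv1 : ∀ j : Fin J, N.hv J A I (D2.comap f g) j p = N.hv (J + 1) A I D' j.castSucc p := by
      intro j
      have e1 : ∀ x : Fin N.n, (D2.comap f g).cv (N.ext J I).gr (Fin.natAdd N.m j)
          (Fin.castAdd J x) = D'.cv (N.ext (J + 1) I).gr (Fin.natAdd N.m j.castSucc)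
            (Fin.castAdd (J + 1) x) := by
        intro x
        have : (N.ext (J + 1) I).gr.t (f (Fin.natAdd N.m j)) =
            (N.ext (J + 1) I).gr.s (f (Fin.natAdd N.m j)) := Fin.ext (by simp [NG.gr, NG.ext, f])
        rw [r.cv, c2 _ _ (gne _), this]
        simp only [sub_self, mul_zero, zero_mul, ite_self, add_zero]
        rfl
      simp only [NG.hv, e1, Fin.val_castSucc]
    have c3 : ∀ (e : Fin N.m) (x : Fin N.n), D2.cv (N.ext (J + 1) I).gr (Fin.castAdd (J + 1) e)
        (Fin.castAdd (J + 1) x) = D'.cv (N.ext (J + 1) I).gr (Fin.castAdd (J + 1) e)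
          (Fin.castAdd (J + 1) x) + if e.1 ∈ A J then -τ (Fin.last J) *
            (D'.cv (N.ext (J + 1) I).gr e0 (Fin.castAdd (J + 1) (N.gr.t e)) -
              D'.cv (N.ext (J + 1) I).gr e0 (Fin.castAdd (J + 1) (N.gr.s e))) *
                D'.cv (N.ext (J + 1) I).gr e0 (Fin.castAdd (J + 1) x) else 0 := by
      intro e x
      refine (c2 (Fin.castAdd (J + 1) e) (Fin.castAdd (J + 1) x) (gne (Fin.castAdd J x))).trans ?_
      rw [cast_s, cast_t]
      congr 1
      have h1 : A0 (Fin.castAdd (J + 1) e) ↔ e.1 ∈ A J :=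
        ⟨fun h => h.2, fun h => ⟨Nat.lt_add_right J e.2, h⟩⟩
      by_cases h2 : e.1 ∈ A J
      · rw [if_pos h2, if_pos (h1.2 h2)]
      · rw [if_neg h2, if_neg (mt h1.1 h2)]
    have a2 : N.algv J I (D2.comap f g) p = N.algv (J + 1) I D2 p := r.alg _ _
    rw [a p, Fin.sum_univ_castSucc, a2]
    simp only [hv1]
    have e2 : (Fin.natAdd N.m (Fin.last J) : Fin (N.ext (J + 1) I).m) = e0 := rfl
    simp only [NG.algv, Sys.alg, cast_s, cast_t, c3, o2.ind_eq, NG.hv, tv, Fin.val_last, e2]
    split_ifs <;> ring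

end Pool.Agent.MP_17db17_lc.H93
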