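import Pool.Agent.MP_17db17_lc.H93.Cert

set_option autoImplicit false

namespace Pool.Agent.MP_17db17_lc.H93

open Pool.Agent.Shared.H56 Pool.Agent.Shared.H27

/-! ## Geometry -/

open Classical in
/-- signed crossing of the directed segment `a b` with the open upward ray from the origin -/
noncomputable def om (a b : Pt) : ℤ :=
  if a.1 ≤ 0 ∧ 0 < b.1 ∧ det a b < 0 then 1 else
    if b.1 ≤ 0 ∧ 0 < a.1 ∧ 0 < det a b then -1 else 0

/-- row GA -/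
def ParStmt : Prop :=
  (∀ p0 p1 q0 q1 : Pt, p0 ∉ segment ℝ q0 q1 → p1 ∉ segment ℝ q0 q1 → q0 ∉ segment ℝ p0 p1 →
    q1 ∉ segment ℝ p0 p1 →
    crossSign (p0, p1) (q0, q1) =
      om (q0 - p1) (q1 - p1) - om (q0 - p0) (q1 - p0) +
        om (q0 - p0) (q0 - p1) - om (q1 - p0) (q1 - p1)) ∧
  (∀ a b c : Pt, c ∈ segment ℝ a b → (0 : Pt) ∉ segment ℝ a b → om a b = om a c + om c b)

/-- row G1 -/
def G1Stmt : Prop :=
  ∀ (ι V : Type) [Fintype ι] [Fintype V] (G : Gr ι V), G.Simple →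
    ∀ d : Drawing ι V, d.IsPlus G.s G.t → ∃ D : Sys ι V ℤ, D.Valid G ∧
      ∀ e f, e ≠ f → ¬ G.H e f →
        (algCross (d.arc G.s G.t e) (d.arc G.s G.t f)).natAbs = (D.alg G e f).natAbs

/-- row G2 -/
def G2Stmt : Prop :=
  ∀ (ι V : Type) [Fintype ι] [Fintype V] (G : Gr ι V), G.Simple →
    ∀ D : Sys ι V ℤ, D.Valid G → ∃ d : Drawing ι V, d.IsPlus G.s G.t ∧
      ∀ e f, e ≠ f → ¬ G.H e f →
        (algCross (d.arc G.s G.t e) (d.arc G.s G.t f)).natAbs = (D.alg G e f).natAbs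

/-- row GB (from G1 and G2) -/
def BridgeStmt : Prop :=
  ∀ (n : ℕ) (G : SimpleGraph (Fin n)) (k : ℕ),
    AcrPlusLE G k ↔ @MReal _ _ (Fintype.ofFinite _) _ (grE G) k

/-! ## Removing bigons, twisting -/

/-- row RED -/
def RedStmt : Prop :=
  ∀ (ι V : Type) [Fintype ι] (G : Gr ι V), G.Symm → ∀ D : Sys ι V ℤ, D.Valid G →
    ∃ D' : Sys ι V ℤ, D'.Valid G ∧ D'.Reduced G ∧ D'.pos = D.pos ∧ D'.norm ≤ D.norm ∧
      ∀ e x, D'.cv G e x = D.cv G e x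

/-- `e0` is a loop at a vertex of its own, and `A` is cut off by the neighbours of `e0` -/
structure Handle {ι V : Type} (G : Gr ι V) (A : ι → Prop) (e0 : ι) : Prop where
  loop : G.s e0 = G.t e0
  own : ∀ e, e ≠ e0 → G.s e ≠ G.s e0 ∧ G.t e ≠ G.s e0
  notA : ¬ A e0
  far : ∀ e, A e → ¬ G.H e0 e
  sep : ∀ e e', A e → G.H e e' → A e' ∨ G.H e0 e'

/-- no chord of an element of `A` crosses chord number `i` of `e0` -/
def Clear {ι V : Type} (G : Gr ι V) (A : ι → Prop) (e0 : ι) (D : Sys ι V ℤ) (i : ℕ) : Prop :=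
  ∀ e, A e → ∀ c ∈ D.chs G e, ∀ d, (D.chs G e0)[i]? = some d → ¬ Cross c d

/-- row COMB: push the crossings with chord `i` of the handle on to the next chord -/
def CombStmt : Prop :=
  ∀ (ι V : Type) [Fintype ι] [Fintype V] (G : Gr ι V), G.Symm → ∀ (A : ι → Prop) (e0 : ι),
    Handle G A e0 → ∀ D : Sys ι V ℤ, D.Valid G → ∀ i, i < (D.chs G e0).length →
    ∃ D' : Sys ι V ℤ, D'.Valid G ∧ D.SameOrd D' ∧ (D'.mid e0).length = (D.mid e0).length ∧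
      (∀ e x, x ≠ G.s e0 → D'.cv G e x = D.cv G e x) ∧ Clear G A e0 D' i ∧
      ∀ j, j ≠ (i + 1) % (D.chs G e0).length → Clear G A e0 D j → Clear G A e0 D' j

open Classical in
/-- row SPIN: one full turn, in either direction, of a combed system -/
def SpinStmt : Prop :=
  ∀ (ι V : Type) [Fintype ι] [Fintype V] (G : Gr ι V), G.Symm → ∀ (A : ι → Prop) (e0 : ι),
    Handle G A e0 → ∀ D : Sys ι V ℤ, D.Valid G → (∀ j, j ≠ 0 → Clear G A e0 D j) →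
    ∀ ε : ℤ, (ε = 1 ∨ ε = -1) → ∃ D' : Sys ι V ℤ, D'.Valid G ∧ D.SameOrd D' ∧
      ∀ e x, x ≠ G.s e0 → D'.cv G e x = D.cv G e x +
        if A e then ε * (D.cv G e0 (G.t e) - D.cv G e0 (G.s e)) * D.cv G e0 x else 0

open Classical in
/-- row TW (from COMB and SPIN) -/
def TwistStmt : Prop :=
  ∀ (ι V : Type) [Fintype ι] [Fintype V] (G : Gr ι V), G.Symm → ∀ (A : ι → Prop) (e0 : ι),
    Handle G A e0 → ∀ D : Sys ι V ℤ, D.Valid G → ∀ τ : ℤ,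
    ∃ D' : Sys ι V ℤ, D'.Valid G ∧ D.SameOrd D' ∧
      ∀ e x, x ≠ G.s e0 → D'.cv G e x = D.cv G e x +
        if A e then τ * (D.cv G e0 (G.t e) - D.cv G e0 (G.s e)) * D.cv G e0 x else 0

/-! ## The leaf -/

/-- row WA -/
def WinStmt : Prop :=
  ∀ (ι V : Type) [Fintype ι] [Fintype V] (G : Gr ι V) (D : Sys ι V ℤ), D.Valid G → ∀ K, 1 ≤ K →
    Fintype.card ι * (2 * Fintype.card V + 1) * K ^ (Fintype.card ι + 1) < D.norm →
    ∃ f0 lo hi κ, Window D f0 lo hi κ K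

/-- row WB -/
def StripStmt : Prop :=
  ∀ (ι V : Type) [Fintype ι] [Fintype V] (G : Gr ι V) (D : Sys ι V ℤ), D.Valid G → D.Reduced G →
    ∀ f0 lo hi w M, (∀ x, ¬ (lo ≤ D.pos x ∧ D.pos x ≤ hi)) → 1 ≤ w →
    (2 * (2 * Fintype.card V + 1) ^ 2 * M + 5) * w ≤ D.cntw f0 lo hi →
    ∃ T s, Strip D G f0 lo hi w M T s

/-- row WC -/
def GapsStmt : Prop :=
  ∀ (ι V : Type) [Fintype ι] [Fintype V] (G : Gr ι V), G.Symm → ∀ D : Sys ι V ℤ, D.Valid G →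
    D.Reduced G → ∀ f0 lo hi κ K M T s, Window D f0 lo hi κ K →
    Strip D G f0 lo hi ((6 * Fintype.card ι + 4) * κ + 1) M T s →
    ∃ F l h, Gaps D G F f0 M T l h

/-- row WD -/
def LeafStmt : Prop :=
  ∀ (ι V : Type) [Fintype ι] [Fintype V] (G : Gr ι V), G.Symm → ∀ D : Sys ι V ℤ, D.Valid G →
    D.Reduced G → ∀ F f0 T l h, Gaps D G F f0 (2 ^ Fintype.card V + 1) T l h →
    ∃ D' : Sys ι V ℤ, D'.Valid G ∧ D'.Reduced G ∧ D.SameOrd D' ∧ D'.norm = D.norm ∧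
      (∀ e x, D'.cv G e x = D.cv G e x) ∧ ∃ b a M a', Leaf D' G F b a M a'

/-! ## The shortcut -/

/-- row SYM -/
def SymStmt : Prop :=
  ∀ (b : Bool) (a : ℤ) (M : List ℤ) (a' : ℤ) (f g : Piece ℤ),
    (∀ y ∈ f.l, y ∉ a :: (M ++ [a'])) → (∀ y ∈ g.l, y ∉ a :: (M ++ [a'])) →
    (∀ y ∈ f.l, y ∉ g.l) →
    NoCross b (a :: (M ++ [a'])) f.1 f.l → NoCross b (a :: (M ++ [a'])) g.1 g.l →
    Even (cov true b (a :: (M ++ [a'])) f.2.1) → Even (cov true b (a :: (M ++ [a'])) f.2.2.2) →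
    Even (cov true b (a :: (M ++ [a'])) g.2.1) → Even (cov true b (a :: (M ++ [a'])) g.2.2.2) →
    wodd b (a :: (M ++ [a'])) f.1 f.l g.2.2.2 - wodd b (a :: (M ++ [a'])) f.1 f.l g.2.1 =
      wodd b (a :: (M ++ [a'])) g.1 g.l f.2.2.2 - wodd b (a :: (M ++ [a'])) g.1 g.l f.2.1

open Classical in
/-- row FIL (from SYM) -/
def FilterStmt : Prop :=
  ∀ (ι V : Type) [Fintype ι] (G : Gr ι V), G.Symm → ∀ D : Sys ι V ℤ, D.Valid G → D.Reduced G →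
    ∀ F b a M a', Leaf D G F b a M a' →
    ∃ D' : Sys ι V ℤ, D'.Valid G ∧ D'.pos = D.pos ∧ D'.norm < D.norm ∧
      ∀ e x, D'.cv G e x = D.cv G e x -
        if F e then wodd b (a :: (M ++ [a'])) (D.sp e) (D.path G e) (D.pos x) else 0

/-- row LAM -/
def LamStmt : Prop :=
  (∀ (a a' : ℤ) (p q : Piece ℤ), Slit a a' p → Slit a a' q →
    (∀ y ∈ p.2.2.1, y ∉ q.2.2.1) → NoCross p.1 p.l q.1 q.l →
    (∀ y ∈ q.2.2.1, ∀ y' ∈ q.2.2.1, cov true p.1 p.l y = cov true p.1 p.l y') ∧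
    ∀ x, ¬ InW a a' x → x ∉ p.2.2.1 → x ∉ q.2.2.1 → ∀ y ∈ q.2.2.1, ∀ z ∈ p.2.2.1,
      cov true p.1 p.l x ≠ cov true p.1 p.l y → cov true q.1 q.l x = cov true q.1 q.l z) ∧
  (∀ (a a' : ℤ) (p : Piece ℤ), Slit a a' p → p.2.2.1.Nodup → NoCross p.1 p.l p.1 p.l →
    ∃ ε : ℤ, (ε = 1 ∨ ε = -1) ∧ ∀ x, ¬ InW a a' x → x ∉ p.2.2.1 →
      cov true p.1 p.l x = 0 ∨ cov true p.1 p.l x = ε)

/-- row REF: a path that avoids `L`, with inner points next to points of `L` -/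
def RefStmt : Prop :=
  ∀ (b : Bool) (L : List ℤ), L.Nodup → (∀ y ∈ L, 8 ∣ y) → NoCross b L b L →
    ∀ k : ℤ, 1 ≤ k → k ≤ 3 → ∀ u v : ℤ, (∀ y ∈ L, 4 ≤ |u - y| ∧ 4 ≤ |v - y|) →
    ∃ m : List ℤ, (∀ y ∈ m, ∃ z ∈ L, y = z + k ∨ y = z - k) ∧
      NoCross b L true (u :: (m ++ [v]))

/-- row TF (from SYM, LAM, REF): the linking form of the leaf -/
def FormStmt : Prop :=
  ∀ (ι V : Type) [Fintype ι] [Fintype V] (G : Gr ι V) (D : Sys ι V ℤ), D.Valid G → D.Reduced G →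
    ∀ F b a M a', Leaf D G F b a M a' →
    ∃ T : V → V → ℤ, (∀ x y, T x y = T y x) ∧
      (∀ e, F e → ∀ x x', wodd b (a :: (M ++ [a'])) (D.sp e) (D.path G e) (D.pos x) -
          wodd b (a :: (M ++ [a'])) (D.sp e) (D.path G e) (D.pos x') =
        T x (G.t e) - T x (G.s e) - T x' (G.t e) + T x' (G.s e)) ∧
      ∀ x x', (∀ p ∈ arcs b a M a', cov true p.1 p.l (D.pos x) = cov true p.1 p.l (D.pos x')) →
        ∀ y, T y x = T y x'

/-- row CLO: closed curves from one or two return arcs -/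
def CloseStmt : Prop :=
  (∀ (a a' : ℤ) (p : Piece ℤ), Slit a a' p → p.l.Nodup → NoCross p.1 p.l p.1 p.l →
    ∃ z m, Closing a a' [p] z m ∧ ∀ x, ¬ InW a a' x →
      cov true true (z :: (m ++ [z])) x = cov true p.1 p.l x) ∧
  (∀ (a a' : ℤ) (p q : Piece ℤ), Slit a a' p → Slit a a' q → p.l.Nodup → q.l.Nodup →
    NoCross p.1 p.l p.1 p.l → NoCross q.1 q.l q.1 q.l → NoCross p.1 p.l q.1 q.l →
    (∀ y ∈ p.2.2.1, y ∉ q.2.2.1) → p.2.1 ≠ q.2.1 → p.2.1 ≠ q.2.2.2 → p.2.2.2 ≠ q.2.2.2 →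
    (p.2.2.2 = q.2.1 → p.lastPage ≠ q.1) →
    ∃ z m, Closing a a' [p, q] z m ∧ ∃ δ : ℤ, (δ = 1 ∨ δ = -1) ∧ ∀ x, ¬ InW a a' x →
      cov true true (z :: (m ++ [z])) x = cov true p.1 p.l x + δ * cov true q.1 q.l x)

/-- second differences of a form -/
def dd {V : Type} (T : V → V → ℤ) (p : (V × V) × V × V) : ℤ :=
  T p.1.1 p.2.1 - T p.1.1 p.2.2 - T p.1.2 p.2.1 + T p.1.2 p.2.2

/-- row ALG -/
def AlgStmt : Prop :=
  ∀ (V κ : Type) [Fintype V] [Fintype κ] (W : κ → V → ℤ) (𝒲 : Set (V → ℤ)) (T : V → V → ℤ),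
    (∀ i, ∃ ε : ℤ, (ε = 1 ∨ ε = -1) ∧ ∀ x, W i x = 0 ∨ W i x = ε) →
    (∀ i j, i ≠ j → ∃ r s : ℤ, ∀ x, W i x ≠ r → W j x = s) →
    (∀ i, W i ∈ 𝒲) → (∀ i j, i ≠ j → W i + W j ∈ 𝒲 ∨ W i - W j ∈ 𝒲 ∨ W j - W i ∈ 𝒲) →
    (∀ x y, T x y = T y x) → (∀ x x', (∀ i, W i x = W i x') → ∀ y, T y x = T y x') →
    dd T ∈ Submodule.span ℤ ((fun U : V → ℤ => dd fun x y => U x * U y) '' 𝒲)

/-- row CORE (from RED, WA, WB, WC, WD, FIL, LAM, TF, CLO, ALG) -/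
def CoreStmt : Prop :=
  ∀ (ι V : Type) [Fintype ι] [Fintype V] (G : Gr ι V), G.Symm → ∀ D : Sys ι V ℤ, D.Valid G →
    bigB (Fintype.card ι) (Fintype.card V) < D.norm →
    ∃ (F : ι → Prop) (D' : Sys ι V ℤ) (𝒲 : Set (V → ℤ)), D'.Valid G ∧ D'.norm < D.norm ∧
      D.SameOrd D' ∧
      (∀ e, G.s e = G.t e → ∀ x x', D'.cv G e x - D'.cv G e x' = D.cv G e x - D.cv G e x') ∧
      (fun p : ι × ι => D.alg G p.1 p.2 - D'.alg G p.1 p.2) ∈
        Submodule.span ℤ (tv G F '' 𝒲) ∧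
      ∀ W ∈ 𝒲, (∀ x x', |W x - W x'| ≤ 2) ∧
        ∃ D1 : Sys (Option ι) (Option V) ℤ, D1.Valid (G.ext (G.Nb F)) ∧
          (∀ x y, D.pos x < D.pos y ↔ D1.pos (some x) < D1.pos (some y)) ∧
          (∀ e x, D1.cv (G.ext (G.Nb F)) (some e) (some x) = D.cv G e x) ∧
          ∀ x, D1.cv (G.ext (G.Nb F)) none (some x) = W x

/-! ## Lattices and the two loops -/

/-- row LAT1 -/
def Lat1Stmt : Prop :=
  ∀ (κ : Type) [Fintype κ], ∃ Φ : Submodule ℤ (κ → ℤ) → ℕ, (∀ L, Φ L ≤ latB (Fintype.card κ)) ∧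
    ∀ (S : Set (κ → ℤ)) (v : κ → ℤ), (∀ u ∈ S, ∀ i, |u i| ≤ 4) → (∀ i, |v i| ≤ 4) →
      v ∉ Submodule.span ℤ S → Φ (Submodule.span ℤ (insert v S)) < Φ (Submodule.span ℤ S)

/-- row LAT2 -/
def Lat2Stmt : Prop :=
  ∀ (κ : Type) [Fintype κ] (J : ℕ) (h : Fin J → κ → ℤ) (v : κ → ℤ) (R : ℕ),
    (∀ j i, |h j i| ≤ 4) → (∀ i, (v i).natAbs ≤ R) → v ∈ Submodule.span ℤ (Set.range h) →
    ∃ τ : Fin J → ℤ, v = ∑ j, τ j • h j ∧
      ∀ j, (τ j).natAbs ≤ (R + J + 1) * 2 ^ (20 * (Fintype.card κ + 1) ^ 2)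

/-- row MAIN (from RED, CORE, LAT1) -/
def MainStmt : Prop :=
  ∀ N : NG, N.gr.Symm → ∀ D : Sys (Fin N.m) (Fin N.n) ℤ, D.Valid N.gr →
    ∃ (J : ℕ) (A I : ℕ → List ℕ) (D' : Sys (Fin (N.ext J I).m) (Fin (N.ext J I).n) ℤ),
      J ≤ latB (N.m * N.m) ∧ N.Sepr J A I ∧
      (∀ j, (A j).length ≤ N.m + J ∧ (I j).length ≤ N.m + J ∧
        (∀ e ∈ A j, e < N.m + J) ∧ ∀ e ∈ I j, e < N.m + J) ∧
      D'.Valid (N.ext J I).gr ∧ D'.Reduced (N.ext J I).gr ∧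
      D'.norm ≤ bigB (N.m + J) (N.n + J) ∧ (∀ j p, |N.hv J A I D' j p| ≤ 4) ∧
      (fun p => D.alg N.gr p.1 p.2 - N.algv J I D' p) ∈
        Submodule.span ℤ (Set.range (N.hv J A I D'))

/-- row SND (from TW) -/
def SoundStmt : Prop :=
  ∀ N : NG, N.gr.Symm → ∀ (J : ℕ) (A I : ℕ → List ℕ), N.Sepr J A I →
    ∀ D' : Sys (Fin (N.ext J I).m) (Fin (N.ext J I).n) ℤ, D'.Valid (N.ext J I).gr →
    ∀ τ : Fin J → ℤ, ∃ D : Sys (Fin N.m) (Fin N.n) ℤ, D.Valid N.gr ∧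
      ∀ p, D.alg N.gr p.1 p.2 = N.algv J I D' p + ∑ j, τ j * N.hv J A I D' j p

/-! ## Compressed descriptions -/

/-- row UNI: the chord counts determine the sequence of cells -/
def UniqStmt : Prop :=
  ∀ (vp vp' : List ℤ) (b : Bool) (i j : ℕ) (m m' : List ℤ), vp.Pairwise (· < ·) →
    vp'.Pairwise (· < ·) → vp.length = vp'.length → i < vp.length → j < vp.length →
    PathOK vp b (vp.getD i 0) m (vp.getD j 0) → PathOK vp' b (vp'.getD i 0) m' (vp'.getD j 0) →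
    (∀ k < tsz vp, cnt vp b (vp.getD i 0 :: (m ++ [vp.getD j 0])) k =
      cnt vp' b (vp'.getD i 0 :: (m' ++ [vp'.getD j 0])) k) →
    m.map (cell vp) = m'.map (cell vp')

/-- row KEY (from UNI): pairwise drawings with the same counts fit together -/
def GlueStmt : Prop :=
  ∀ (ι V : Type) [Fintype ι] [Fintype V] (G : Gr ι V), G.Symm → G.NoPar →
    ∀ (n : ℕ) (rk : V → ℕ) (sp : ι → Bool) (w : ι → List ℕ), Function.Injective rk →
    (∀ x, rk x < n) → (∀ e e', e = e' ∨ G.H e e' → PairSys G n rk sp w e e') →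
    ∃ D : Sys ι V ℤ, D.Valid G ∧ (∀ x y, D.pos x < D.pos y ↔ rk x < rk y) ∧
      ∀ e x, D.cv G e x = cvOf n (w e) (rk x)

/-- row DER: soundness of derivations -/
def DerStmt : Prop :=
  ∀ vp B Γ, blocksOK vp B = true → derivOK vp B Γ = true → ∀ x ∈ Γ, Holds vp B x.1

/-- row DET: consequences of `blocksOK` -/
def DetStmt : Prop :=
  ∀ vp B, blocksOK vp B = true →
    (∀ π x y y', x ∉ vp → BCh B π x y → BCh B π x y' → y = y') ∧
    (∀ π x y, BCh B π x y → x ≠ y ∧ cell vp x ≠ cell vp y) ∧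
    (∀ π x y x' y', BCh B π x y → BCh B π x' y' → ¬ Cross (π, x, y) (π, x', y')) ∧
    (∀ π u m v, Walk vp B π u m v → u ∈ vp → m.Nodup) ∧
    (∀ π u m v π' u' m' v', Walk vp B π u m v → Walk vp B π' u' m' v' → u ∈ vp → v ∈ vp →
      u' ∈ vp → v' ∈ vp → (∃ y ∈ m, y ∈ m') → (u = u' ∧ v = v') ∨ (u = v' ∧ v = u'))

/-- row PSND (from DER, DET) -/
def PairStmt : Prop :=
  ∀ (ι V : Type) (G : Gr ι V), G.NoPar → ∀ (n : ℕ) (rk : V → ℕ) (sp : ι → Bool)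
    (w : ι → List ℕ), Function.Injective rk → (∀ x, rk x < n) → ∀ e e', e = e' ∨ G.H e e' →
    ∀ pc, pairOK n pc (sp e) (rk (G.s e)) (rk (G.t e)) (w e) (sp e') (rk (G.s e')) (rk (G.t e'))
      (w e') = true → PairSys G n rk sp w e e'

/-- row ZOR: short derivations exist -/
def ZorStmt : Prop :=
  ∀ vp B N lam, Packed vp B N → N + 1 ≤ 2 ^ lam → ∀ π u m v, Walk vp B π u m v → u ∈ vp →
    v ∈ vp → (u = v → Odd m.length) → ∀ w : List ℕ,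
    (∀ j < tsz vp, cnt vp π (u :: (m ++ [v])) j = w.getD j 0) →
    ∃ Γ, derivOK vp B Γ = true ∧ Γ.length ≤ zB B.length lam ∧
      (∀ x ∈ Γ, SmallE vp (2 * N + 2) x) ∧ finalOK vp Γ π u v w = true

open Classical in
/-- rank of a vertex -/
noncomputable def Sys.rk {ι V : Type} [Fintype V] (D : Sys ι V ℤ) (x : V) : ℕ :=
  (Finset.univ.filter fun y => D.pos y < D.pos x).card

open Classical in
/-- the places of the vertices in increasing order -/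
noncomputable def Sys.vp {ι V : Type} [Fintype V] (D : Sys ι V ℤ) : List ℤ :=
  (Finset.univ.image D.pos).sort (· ≤ ·)

/-- table of chord counts of an element -/
noncomputable def Sys.tab {ι V : Type} [Fintype V] (D : Sys ι V ℤ) (G : Gr ι V) (e : ι) : List ℕ :=
  (List.range (tsz D.vp)).map (cnt D.vp (D.sp e) (D.path G e))

/-- row PACK: two elements of a reduced system, described by few blocks -/
def PackStmt : Prop :=
  ∀ (ι V : Type) [Fintype ι] [Fintype V] (G : Gr ι V), G.Symm → ∀ D : Sys ι V ℤ, D.Valid G →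
    D.Reduced G → ∀ e e', e = e' ∨ G.H e e' →
    ∃ (vp : List ℤ) (B : List Block) (N : ℕ) (m1 m2 : List ℤ), Packed vp B N ∧
      vp.length = Fintype.card V ∧ N ≤ 2 * D.norm + Fintype.card V ∧ B.length ≤ tsz vp + 4 ∧
      Walk vp B (D.sp e) (vp.getD (D.rk (G.s e)) 0) m1 (vp.getD (D.rk (G.t e)) 0) ∧
      Walk vp B (D.sp e') (vp.getD (D.rk (G.s e')) 0) m2 (vp.getD (D.rk (G.t e')) 0) ∧
      m1.length = (D.mid e).length ∧ m2.length = (D.mid e').length ∧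
      (∀ j < tsz vp, cnt vp (D.sp e)
        (vp.getD (D.rk (G.s e)) 0 :: (m1 ++ [vp.getD (D.rk (G.t e)) 0])) j = (D.tab G e).getD j 0) ∧
      (∀ j < tsz vp, cnt vp (D.sp e')
        (vp.getD (D.rk (G.s e')) 0 :: (m2 ++ [vp.getD (D.rk (G.t e')) 0])) j =
          (D.tab G e').getD j 0)

/-- row TAB -/
def TabStmt : Prop :=
  ∀ (ι V : Type) [Fintype V] (G : Gr ι V) (D : Sys ι V ℤ), Function.Injective D.pos →
    D.vp.length = Fintype.card V ∧ (∀ x, D.rk x < Fintype.card V) ∧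
    (∀ x y, D.pos x < D.pos y ↔ D.rk x < D.rk y) ∧ (∀ x, D.vp.getD (D.rk x) 0 = D.pos x) ∧
    ∀ e x, D.cv G e x = cvOf (Fintype.card V) (D.tab G e) (D.rk x)

/-- row VPT -/
def VerPTStmt : Prop := PT fun p : Inp × Crt => check p.1.1.length (EL p.1.1) p.1.2 p.2

/-- edges with ends in increasing order, without repetition -/
structure GoodE (n : ℕ) (E : List (ℕ × ℕ)) : Prop where
  lt : ∀ p ∈ E, p.1 < p.2
  bd : ∀ p ∈ E, p.1 < n ∧ p.2 < n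
  nodup : E.Nodup

/-- row VS (from SND, KEY, PSND) -/
def VerSoundStmt : Prop :=
  ∀ n E (h : GoodE n E) k c, check n E k c = true → MReal (ngOf n E h.bd).gr k

/-- row VC (from MAIN, LAT2, PACK, ZOR, TAB) -/
def VerComplStmt : Prop :=
  ∃ P : Polynomial ℕ, ∀ n E (h : GoodE n E) k, MReal (ngOf n E h.bd).gr k →
    ∃ c, check n E k c = true ∧ sz c ≤ P.eval (n + E.length + sz k)

/-- row ENUM -/
def EnumStmt : Prop :=
  ∀ A : List (List Bool), ∃ h : GoodE A.length (EL A), ∀ k,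
    MReal (ngOf A.length (EL A) h.bd).gr k ↔
      @MReal _ _ (Fintype.ofFinite _) _ (grE (graphOf A)) k

/-! ## Hardness -/

/-- row MWC -/
def MwcStmt : Prop :=
  ∃ g : CNF → List (ℕ × ℕ) × ℕ, PT g ∧ ∀ φ : CNF, (∀ c ∈ φ, c.length = 3) →
    (∀ p ∈ (g φ).1, p.1 < 3 + 2 * (g φ).1.length ∧ p.2 < 3 + 2 * (g φ).1.length) ∧
    (Sat φ ↔ MWC (g φ).1 (g φ).2)

/-- row GPT -/
def GadPTStmt : Prop := PT fun p : List (ℕ × ℕ) × ℕ => ((gMat p.1, gK p.1 p.2) : Inp)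

/-- row GUP -/
def GadUpStmt : Prop :=
  ∀ E κ, (∀ p ∈ E, p.1 < 3 + 2 * E.length ∧ p.2 < 3 + 2 * E.length) → MWC E κ →
    @MReal _ _ (Fintype.ofFinite _) _ (grE (graphOf (gMat E))) (gK E κ)

/-- row GLO -/
def GadLoStmt : Prop :=
  ∀ E κ, (∀ p ∈ E, p.1 < 3 + 2 * E.length ∧ p.2 < 3 + 2 * E.length) →
    @MReal _ _ (Fintype.ofFinite _) _ (grE (graphOf (gMat E))) (gK E κ) → MWC E κ

end Pool.Agent.MP_17db17_lc.H93
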