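import Pool.Agent.MP_17db17_lc.H93.Spin0

set_option autoImplicit false

namespace Pool.Agent.MP_17db17_lc.H93

namespace Spin

open Classical

/-- the end inside the handle chord -/
noncomputable def yy (a b : ℤ) (c : Chord ℤ) : ℤ := if Btw a b c.2.1 then c.2.1 else c.2.2

/-- the end outside the handle chord -/
noncomputable def bb (a b : ℤ) (c : Chord ℤ) : ℤ := if Btw a b c.2.1 then c.2.2 else c.2.1

theorem tok_facts {π : Bool} {a b : ℤ} {c : Chord ℤ} (h : Cross c (π, a, b)) :
    c.1 = π ∧ Btw a b (yy a b c) ∧ Out a b (bb a b c) ∧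
      (c = (π, yy a b c, bb a b c) ∨ c = (π, bb a b c, yy a b c)) := by
  obtain ⟨π', p, q⟩ := c
  obtain ⟨h1, h2⟩ := cross_symm h
  simp only at h1 h2
  subst h1
  unfold yy bb
  split_ifs with h3
  · refine ⟨rfl, h3, ?_, Or.inl rfl⟩
    simp only [Btw, Out] at *
    omega
  · refine ⟨rfl, ?_, ?_, Or.inr rfl⟩
    · simp only [Btw, Out] at *
      omega
    · simp only [Btw, Out] at *
      omega

theorem tok_cross {π : Bool} {a b : ℤ} {c : Chord ℤ} (h : Cross c (π, a, b)) (d : Chord ℤ) :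
    Cross (π, yy a b c, bb a b c) d ↔ Cross c d := by
  rcases (tok_facts h).2.2.2 with h | h
  · rw [← h]
  · rw [cross_swap_left, ← h]

theorem ord_of_key {π : Bool} {a b y β y' β' : ℤ} (b1 : Btw a b y) (b2 : Out a b β)
    (b3 : Btw a b y') (b4 : Out a b β') (n : ¬ Cross (π, y, β) (π, y', β'))
    (h : y < y' ∨ (y = y' ∧ ((if a < β then (1 : ℤ) else 0) < (if a < β' then 1 else 0) ∨
      ((if a < β then (1 : ℤ) else 0) = (if a < β' then 1 else 0) ∧ β' ≤ β)))) :
    Ord a b y β y' β' := by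
  simp only [Cross, Btw, Out, Ord, true_and] at *
  split_ifs at h <;> omega

variable {ι V : Type} {G : Gr ι V} {D : Sys ι V ℤ}

theorem ex_k [Fintype ι] (G : Gr ι V) (D : Sys ι V ℤ) (π : Bool) (a b : ℤ) :
    ∃ k : ι → Chord ℤ → ℤ, (∀ e c, 1 ≤ k e c) ∧ ∀ e e', ∀ c ∈ D.chs G e, ∀ c' ∈ D.chs G e',
      Cross c (π, a, b) → Cross c' (π, a, b) → (k e c = k e' c' → e = e' ∧ c = c') ∧
        (k e c < k e' c' → ¬ Cross c c' →
          Ord a b (yy a b c) (bb a b c) (yy a b c') (bb a b c')) := by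
  let key : ι → Chord ℤ → ℤ ×ₗ ℤ ×ₗ ℤ ×ₗ ℤ ×ₗ ℤ := fun e c =>
    toLex (yy a b c, toLex (if a < bb a b c then 1 else 0, toLex (-bb a b c,
      toLex (((Fintype.equivFin ι e : ℕ) : ℤ), c.2.1))))
  let S : Finset (ℤ ×ₗ ℤ ×ₗ ℤ ×ₗ ℤ ×ₗ ℤ) :=
    Finset.univ.biUnion fun e => ((D.chs G e).map (key e)).toFinset
  have hS : ∀ e, ∀ c ∈ D.chs G e, key e c ∈ S := fun e c hc =>
    Finset.mem_biUnion.2 ⟨e, Finset.mem_univ _, List.mem_toFinset.2 (List.mem_map_of_mem hc)⟩
  refine ⟨fun e c => rank S (key e c) + 1, fun e c => ?_, fun e e' c hc c' hc' t t' => ⟨?_, ?_⟩⟩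
  · simp only [rank]
    omega
  · intro h
    simp only at h
    have h1 : key e c = key e' c' := by
      rcases lt_trichotomy (key e c) (key e' c') with h2 | h2 | h2
      · have := rank_lt (hS e c hc) h2
        omega
      · exact h2
      · have := rank_lt (hS e' c' hc') h2
        omega
    simp only [key, toLex_inj, Prod.mk.injEq, neg_inj, Nat.cast_inj] at h1
    obtain ⟨h2, -, h3, h4, h5⟩ := h1
    refine ⟨(Fintype.equivFin ι).injective (Fin.ext h4), ?_⟩
    obtain ⟨-, f1, f2, f3⟩ := tok_facts t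
    obtain ⟨-, -, -, f3'⟩ := tok_facts t'
    rw [← h2, ← h3] at f3'
    have hne : yy a b c ≠ bb a b c := by
      intro h
      rw [← h] at f2
      simp only [Btw, Out] at f1 f2
      omega
    rcases f3 with f3 | f3 <;> rcases f3' with f3' | f3'
    · exact f3.trans f3'.symm
    · exact absurd ((congrArg (·.2.1) f3).symm.trans (h5.trans (congrArg (·.2.1) f3'))) hne
    · exact absurd ((congrArg (·.2.1) f3).symm.trans (h5.trans (congrArg (·.2.1) f3'))) hne.symm
    · exact f3.trans f3'.symm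
  · intro h n
    simp only at h
    have h1 : key e c < key e' c' := (rank_lt_iff (hS e c hc) (hS e' c' hc')).1 (by omega)
    obtain ⟨-, f1, f2, -⟩ := tok_facts t
    obtain ⟨-, f1', f2', -⟩ := tok_facts t'
    refine ord_of_key (π := π) f1 f2 f1' f2' ?_ ?_
    · intro hx
      rw [tok_cross t] at hx
      have := cross_symm hx
      rw [tok_cross t'] at this
      exact n (cross_symm this)
    · simp only [key, Prod.Lex.toLex_lt_toLex] at h1
      omega

/-- the inserted points -/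
noncomputable def ins (A : ι → Prop) (π : Bool) (a b : ℤ) (m : List ℤ) (k : ι → Chord ℤ → ℤ)
    (e : ι) (c : Chord ℤ) : List ZZ :=
  if A e ∧ Cross c (π, a, b) then
    (if Btw a b c.2.1 then cp (-k e c) (b :: (m ++ [a]))
      else (cp (-k e c) (b :: (m ++ [a]))).reverse)
  else []

variable {A : ι → Prop} {π : Bool} {a b : ℤ} {m : List ℤ} {k : ι → Chord ℤ → ℤ}

theorem spc_old {e : ι} {c : Chord ℤ} (h : ¬ (A e ∧ Cross c (π, a, b))) :
    spc emb (ins A π a b m k e) c = [emb c.2.1, emb c.2.2] := by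
  simp only [spc, ins, if_neg h, List.nil_append]

theorem spc_fw {e : ι} {c : Chord ℤ} (h : A e ∧ Cross c (π, a, b)) (h' : Btw a b c.2.1) :
    spc emb (ins A π a b m k e) c = fw a b m (k e c) (yy a b c) (bb a b c) := by
  simp only [spc, ins, if_pos h, if_pos h', fw, yy, bb]

theorem spc_bw {e : ι} {c : Chord ℤ} (h : A e ∧ Cross c (π, a, b)) (h' : ¬ Btw a b c.2.1) :
    spc emb (ins A π a b m k e) c = (fw a b m (k e c) (yy a b c) (bb a b c)).reverse := by
  simp only [spc, ins, if_pos h, if_neg h', fw, yy, bb, List.reverse_cons, List.reverse_append,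
    List.reverse_nil, List.nil_append, List.cons_append]

theorem flip_fw (hm : m.length % 2 = 0) (π : Bool) (k y β : ℤ) :
    flipN π (fw a b m k y β).length = π := by
  unfold flipN
  rw [length_fw, if_pos (by omega)]

theorem mem_new (hm : m.length % 2 = 0) {e : ι} {c : Chord ℤ} (h : A e ∧ Cross c (π, a, b))
    {d : Chord ZZ} (hd : d ∈ chords c.1 (spc emb (ins A π a b m k e) c)) :
    ∃ d0, New π a b m (k e c) (yy a b c) (bb a b c) d0 ∧ ∀ x, Cross d x ↔ Cross d0 x := by
  rw [(tok_facts h.2).1] at hd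
  by_cases h' : Btw a b c.2.1
  · rw [spc_fw h h'] at hd
    exact ⟨d, new_of_mem hm hd, fun _ => Iff.rfl⟩
  · rw [spc_bw h h', ← flip_fw hm π, chords_reverse, List.mem_reverse] at hd
    obtain ⟨d0, h0, rfl⟩ := List.mem_map.1 hd
    exact ⟨d0, new_of_mem hm h0, fun _ => cross_swap_left⟩

theorem mem_ins {e : ι} {c : Chord ℤ} {z : ZZ} (h : z ∈ ins A π a b m k e c) :
    (A e ∧ Cross c (π, a, b)) ∧ ∃ r, z = nw r (k e c) ∨ z = nw r (-k e c) := by
  unfold ins at h
  by_cases h1 : A e ∧ Cross c (π, a, b)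
  · rw [if_pos h1] at h
    have : z ∈ cp (-k e c) (b :: (m ++ [a])) := by
      split_ifs at h
      · exact h
      · exact List.mem_reverse.1 h
    obtain ⟨r, -, h⟩ := mem_cp this
    rw [neg_neg] at h
    exact ⟨h1, r, h.symm⟩
  · rw [if_neg h1] at h
    exact absurd h List.not_mem_nil

/-- hypotheses on the closed curve `a :: b :: (m ++ [a])` -/
structure OK (G : Gr ι V) (D : Sys ι V ℤ) (A : ι → Prop) (π : Bool) (a b : ℤ) (m : List ℤ) :
    Prop where
  even : m.length % 2 = 0
  nodup : (b :: (m ++ [a])).Nodup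
  self : NoCross π (a :: b :: (m ++ [a])) π (a :: b :: (m ++ [a]))
  off : ∀ e e', A e → e = e' ∨ G.H e e' → ∀ y ∈ D.path G e', y ∉ b :: (m ++ [a])
  clear : ∀ e e', A e → e = e' ∨ G.H e e' → ∀ c ∈ D.chs G e',
    ∀ d ∈ chords (!π) (b :: (m ++ [a])), ¬ Cross c d
  first : ∀ e e', A e → G.H e e' → ¬ A e' → ∀ c ∈ D.chs G e', ¬ Cross c (π, a, b)

theorem OK.tk (o : OK G D A π a b m) {e : ι} {c : Chord ℤ} (hc : c ∈ D.chs G e)
    (h : A e ∧ Cross c (π, a, b)) : Tk π a b m (yy a b c) (bb a b c) := by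
  obtain ⟨-, f1, f2, -⟩ := tok_facts h.2
  obtain ⟨c1, c2⟩ := mem_of_mem_chords hc
  refine ⟨f1, f2, o.off e e h.1 (Or.inl rfl) _ ?_, o.off e e h.1 (Or.inl rfl) _ ?_,
    fun d hd => ?_⟩
  · unfold yy; split_ifs <;> assumption
  · unfold bb; split_ifs <;> assumption
  · rw [tok_cross h.2]
    exact o.clear e e h.1 (Or.inl rfl) c hc d hd

theorem OK.tok_old (o : OK G D A π a b m) (hv : D.Valid G) {e e' : ι} (he : e = e' ∨ G.H e e')
    {c c' : Chord ℤ} (hc : c ∈ D.chs G e) (hc' : c' ∈ D.chs G e') (h : A e ∧ Cross c (π, a, b))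
    (h' : ¬ (A e' ∧ Cross c' (π, a, b))) :
    NoCross c.1 (spc emb (ins A π a b m k e) c) c'.1 (spc emb (ins A π a b m k e') c') := by
  intro d hd d' hd'
  obtain ⟨d0, h0, hx⟩ := mem_new o.even h hd
  rw [spc_old h'] at hd'
  have e1 : d' = (c'.1, emb c'.2.1, emb c'.2.2) := List.mem_singleton.1 hd'
  obtain ⟨c1, c2⟩ := mem_of_mem_chords hc'
  rw [hx, e1]
  refine new_old h0 (o.tk hc h) (o.off e e' h.1 he _ c1) (o.off e e' h.1 he _ c2) ?_ ?_
    (o.clear e e' h.1 he c' hc')
  · rw [tok_cross h.2]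
    exact hv.noCross he c hc c' hc'
  · by_cases hA : A e'
    · exact fun hx => h' ⟨hA, hx⟩
    · rcases he with rfl | he
      · exact absurd h.1 hA
      · exact o.first e e' h.1 he hA c' hc'

theorem OK.subst (o : OK G D A π a b m) (hs : G.Symm) (hv : D.Valid G) (k1 : ∀ e c, 1 ≤ k e c)
    (k2 : ∀ e e', ∀ c ∈ D.chs G e, ∀ c' ∈ D.chs G e',
      Cross c (π, a, b) → Cross c' (π, a, b) → (k e c = k e' c' → e = e' ∧ c = c') ∧
        (k e c < k e' c' → ¬ Cross c c' →
          Ord a b (yy a b c) (bb a b c) (yy a b c') (bb a b c'))) :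
    SubstOK G D emb (ins A π a b m k) := by
  refine ⟨emb_mono, fun e c _ => ?_, fun e c _ => ?_, fun e c _ w hw => ?_,
    fun e e' c hc c' hc' hne z hz hz' => ?_, fun e e' he c hc c' hc' => ?_⟩
  · have := o.even
    unfold ins
    split_ifs <;> simp [length_cp] <;> omega
  · unfold ins
    split_ifs
    · exact nodup_cp _ o.nodup
    · exact List.nodup_reverse.2 (nodup_cp _ o.nodup)
    · exact List.nodup_nil
  · have := k1 e c
    obtain ⟨-, r, h | h⟩ := mem_ins hw <;> have := (nw_inj h).2 <;> omega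
  · obtain ⟨h1, r, h⟩ := mem_ins hz
    obtain ⟨h1', r', h'⟩ := mem_ins hz'
    have := k1 e c
    have := k1 e' c'
    have hk : k e c = k e' c' := by
      rcases h with h | h <;> rcases h' with h' | h' <;>
        have := (nw_inj (h.symm.trans h')).2 <;> omega
    have := (k2 e e' c hc c' hc' h1.2 h1'.2).1 hk
    tauto
  · have he' : e' = e ∨ G.H e' e := he.imp Eq.symm (hs _ _)
    by_cases h : A e ∧ Cross c (π, a, b) <;> by_cases h' : A e' ∧ Cross c' (π, a, b)
    · intro d hd d' hd' hx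
      obtain ⟨d0, h0, h1⟩ := mem_new o.even h hd
      obtain ⟨d0', h0', h1'⟩ := mem_new o.even h' hd'
      have n := hv.noCross he c hc c' hc'
      refine new_new o.even o.nodup o.self h0 h0' (o.tk hc h) (o.tk hc' h')
        (fun hk => (k2 e e' c hc c' hc' h.2 h'.2).2 hk n)
        (fun hk => (k2 e' e c' hc' c hc h'.2 h.2).2 hk fun hx => n (cross_symm hx))
        (fun hk => ?_) (cross_symm ((h1' _).1 (cross_symm ((h1 _).1 hx))))
      rw [((k2 e e' c hc c' hc' h.2 h'.2).1 hk).2]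
      exact ⟨rfl, rfl⟩
    · exact o.tok_old hv he hc hc' h h'
    · exact (o.tok_old hv he' hc' hc h' h).symm
    · intro d hd d' hd' hx
      rw [spc_old h] at hd
      rw [spc_old h'] at hd'
      have e1 : d = (c.1, emb c.2.1, emb c.2.2) := List.mem_singleton.1 hd
      have e2 : d' = (c'.1, emb c'.2.1, emb c'.2.2) := List.mem_singleton.1 hd'
      rw [e1, e2] at hx
      exact hv.noCross he c hc c' hc'
        (proj (Or.inr rfl) (Or.inr rfl) (Or.inr rfl) (Or.inr rfl) hx)

/-- the sign of the turn -/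
def sg (π : Bool) (a b : ℤ) : ℤ := (if π = true then 1 else -1) * (if a < b then -1 else 1)

theorem xs_tok {c : Chord ℤ} (h : Cross c (π, a, b)) :
    sg π a b * xs c (π, a, b) = if Btw a b c.2.1 then 1 else -1 := by
  obtain ⟨π', p, q⟩ := c
  obtain ⟨h1, h2⟩ := cross_symm h
  simp only at h1 h2
  subst h1
  simp only [sg, xs, if_true, ind, Btw, Out] at *
  split_ifs <;> omega

theorem cov_old (b : Bool) (p q X : ℤ) :
    cov true b [emb p, emb q] (emb X) = if b = true then ind X q - ind X p else 0 := by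
  simp only [cov, chords_cons_cons, chords_single, covL_cons, covL_nil, ind_emb, add_zero]

theorem OK.cov_spc (o : OK G D A π a b m) {e : ι} (hA : A e) {c : Chord ℤ} (hc : c ∈ D.chs G e)
    {X : ℤ} (hX : X ∉ b :: (m ++ [a])) :
    cov true c.1 (spc emb (ins A π a b m k e) c) (emb X) =
      (if c.1 = true then ind X c.2.2 - ind X c.2.1 else 0) +
        ((chords π (a :: b :: (m ++ [a]))).map fun d => xs c d).sum *
          (sg π a b * cov true π (a :: b :: (m ++ [a])) X) := by
  obtain ⟨c1, c2⟩ := mem_of_mem_chords hc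
  have o1 := o.off e e hA (Or.inl rfl) _ c1
  have o2 := o.off e e hA (Or.inl rfl) _ c2
  have h0 : ((chords π (a :: b :: (m ++ [a]))).map fun d => xs c d).sum = xs c (π, a, b) := by
    rw [chords_cons_cons, List.map_cons, List.sum_cons, List.sum_eq_zero, add_zero]
    intro x hx
    obtain ⟨d, hd, rfl⟩ := List.mem_map.1 hx
    obtain ⟨d1, d2⟩ := mem_of_mem_chords hd
    exact (xs_eq_zero_iff (c := c) (d := d) fun _ => ⟨fun h => o1 (h ▸ d1), fun h => o1 (h ▸ d2),
      fun h => o2 (h ▸ d1), fun h => o2 (h ▸ d2)⟩).2 (o.clear e e hA (Or.inl rfl) c hc d hd)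
  rw [h0, mul_left_comm, ← mul_assoc]
  by_cases h : Cross c (π, a, b)
  · have hp := (tok_facts h).1
    rw [xs_tok h, hp]
    by_cases h' : Btw a b c.2.1
    · rw [spc_fw ⟨hA, h⟩ h', cov_fw π a b o.even _ _ _ hX, if_pos h']
      simp only [yy, bb, if_pos h', one_mul]
    · have h2 := cov_reverse true π (fw a b m (k e c) (yy a b c) (bb a b c)) (emb X)
      rw [flip_fw o.even] at h2
      rw [spc_bw ⟨hA, h⟩ h', h2, cov_fw π a b o.even _ _ _ hX, if_neg h']
      simp only [yy, bb, if_neg h']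
      split_ifs <;> ring
  · rw [spc_old fun h' => h h'.2, cov_old, (xs_eq_zero_iff fun _ =>
      ⟨fun h => o1 (by simp [h]), fun h => o1 (by simp [h]), fun h => o2 (by simp [h]),
        fun h => o2 (by simp [h])⟩).2 h]
    ring

theorem OK.core [Fintype ι] [Fintype V] (o : OK G D A π a b m) (hs : G.Symm) (hv : D.Valid G) :
    ∃ D' : Sys ι V ℤ, D'.Valid G ∧ D.SameOrd D' ∧ ∀ e x, D.pos x ∉ b :: (m ++ [a]) →
      D'.cv G e x = D.cv G e x + if A e then sg π a b *
        (cov true π (a :: b :: (m ++ [a])) (D.pos (G.t e)) -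
          cov true π (a :: b :: (m ++ [a])) (D.pos (G.s e))) *
        cov true π (a :: b :: (m ++ [a])) (D.pos x) else 0 := by
  obtain ⟨k, k1, k2⟩ := ex_k G D π a b
  have r := o.subst hs hv k1 k2
  obtain ⟨ρ, -, -, -, -, -, -, h1, h2, h3, -⟩ := Sys.toInt hs (r.valid hv) ∅
  refine ⟨_, h1, r.sameOrd.trans h2, fun e x hx => ?_⟩
  rw [h3, r.cv]
  have e0 : D.cv G e x = ((D.chs G e).map fun c =>
      if c.1 = true then ind (D.pos x) c.2.2 - ind (D.pos x) c.2.1 else 0).sum := rfl
  split_ifs with hA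
  · rw [List.map_congr_left fun c hc => o.cov_spc hA hc hx, List.sum_map_add,
      List.sum_map_mul_right, ← e0]
    have h4 := XS_path (D.sp e) (D.pos (G.s e)) (D.mid e) (D.pos (G.t e)) π a (b :: m) a
      (fun z hz hz' => o.off e e hA (Or.inl rfl) z hz (by
        simp only [List.cons_append, List.mem_cons, List.mem_append] at hz' ⊢
        tauto))
    rw [sub_self, add_zero] at h4
    have h5 : ((D.chs G e).map fun c =>
        ((chords π (a :: b :: (m ++ [a]))).map fun d => xs c d).sum).sum = _ := h4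
    rw [h5]
    simp only [List.cons_append]
    ring
  · rw [add_zero, e0]
    congr 1
    refine List.map_congr_left fun c _ => ?_
    rw [spc_old fun h => hA h.1, cov_old]

theorem OK.rev (o : OK G D A π a b m) : OK G D A π b a m.reverse ∧
    ∀ X, cov true π (b :: a :: (m.reverse ++ [b])) X = -cov true π (a :: b :: (m ++ [a])) X := by
  have e1 : a :: (m.reverse ++ [b]) = (b :: (m ++ [a])).reverse := by simp
  have e2 : flipN (!π) (b :: (m ++ [a])).length = !π := by
    have := o.even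
    unfold flipN
    rw [if_pos (by simp; omega)]
  have e3 := chords_reverse (!π) (b :: (m ++ [a]))
  rw [e2, ← e1] at e3
  have k1 : ∀ d ∈ chords (!π) (a :: (m.reverse ++ [b])),
      ∃ d0 ∈ chords (!π) (b :: (m ++ [a])), ∀ x, Cross d x ↔ Cross d0 x := by
    intro d hd
    rw [e3, List.mem_reverse] at hd
    obtain ⟨d0, h0, rfl⟩ := List.mem_map.1 hd
    exact ⟨d0, h0, fun _ => cross_swap_left⟩
  have k2 : ∀ d ∈ chords π (b :: a :: (m.reverse ++ [b])),
      ∃ d0 ∈ chords π (a :: b :: (m ++ [a])), ∀ x, Cross d x ↔ Cross d0 x := by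
    intro d hd
    rcases List.mem_cons.1 hd with rfl | hd
    · exact ⟨(π, a, b), List.mem_cons_self, fun _ => cross_swap_left⟩
    · obtain ⟨d0, h0, h⟩ := k1 d hd
      exact ⟨d0, List.mem_cons_of_mem _ h0, h⟩
  refine ⟨⟨by rw [List.length_reverse]; exact o.even, e1 ▸ List.nodup_reverse.2 o.nodup,
    fun c hc d hd hx => ?_, fun e e' hA he y hy => ?_, fun e e' hA he c hc d hd hx => ?_,
    fun e e' hA he hA' c hc => ?_⟩, fun X => ?_⟩
  · obtain ⟨c0, h0, h⟩ := k2 c hc
    obtain ⟨d0, h0', h'⟩ := k2 d hd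
    exact o.self c0 h0 d0 h0' (cross_symm ((h' _).1 (cross_symm ((h _).1 hx))))
  · rw [e1, List.mem_reverse]
    exact o.off e e' hA he y hy
  · obtain ⟨d0, h0, h⟩ := k1 d hd
    exact o.clear e e' hA he c hc d0 h0 (cross_symm ((h _).1 (cross_symm hx)))
  · rw [cross_swap_right]
    exact o.first e e' hA he hA' c hc
  · have h := cov_reverse true (!π) (b :: (m ++ [a])) X
    rw [e2, ← e1] at h
    unfold cov at h ⊢
    rw [chords_cons_cons, chords_cons_cons π a b, covL_cons, covL_cons, h]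
    simp only
    split_ifs <;> ring

end Spin

open Classical in
theorem spin : SpinStmt := by
  intro ι V _ _ G hs A e0 hh D hv hcl ε hε
  have hodd := Nat.odd_iff.1 (hv.odd e0 hh.loop)
  obtain ⟨b, m, hm⟩ : ∃ b m, D.mid e0 = b :: m := by
    cases h : D.mid e0 with
    | nil => rw [h] at hodd; simp at hodd
    | cons b m => exact ⟨b, m, rfl⟩
  have hp : D.path G e0 = D.pos (G.s e0) :: b :: (m ++ [D.pos (G.s e0)]) := by
    simp only [Sys.path, hm, ← hh.loop, List.cons_append]
  have hne : ∀ e e', A e → e = e' ∨ G.H e e' → e' ≠ e0 := by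
    rintro e e' hA (rfl | he) rfl
    · exact hh.notA hA
    · exact hh.far e hA (hs _ _ he)
  have hsub : ∀ y ∈ b :: (m ++ [D.pos (G.s e0)]), y ∈ D.mid e0 ∨ y = D.pos (G.s e0) := by
    intro y hy
    rw [hm]
    simp only [List.mem_cons, List.mem_append, List.not_mem_nil, or_false] at hy ⊢
    tauto
  have hch : D.chs G e0 = (D.sp e0, D.pos (G.s e0), b) ::
      chords (!D.sp e0) (b :: (m ++ [D.pos (G.s e0)])) := by
    rw [Sys.chs, hp, chords_cons_cons]
  have o : Spin.OK G D A (D.sp e0) (D.pos (G.s e0)) b m := by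
    refine ⟨?_, ?_, hp ▸ hv.self e0, fun e e' hA he y hy hy' => ?_,
      fun e e' hA he c hc d hd => ?_, fun e e' hA he hA' c hc hx => ?_⟩
    · rw [hm, List.length_cons] at hodd
      omega
    · have := hv.nodup_tail e0
      rwa [hm, ← hh.loop] at this
    · have h1 := hne e e' hA he
      rcases hsub y hy' with h | rfl
      · exact hv.not_mem_path h1.symm h hy
      · rcases Sys.mem_path.1 hy with h | h | h
        · exact (hh.own e' h1).1 (hv.inj h).symm
        · exact hv.notV _ _ h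
        · exact (hh.own e' h1).2 (hv.inj h).symm
    · have h2 : A e' ∨ G.H e0 e' := by
        rcases he with rfl | he
        · exact Or.inl hA
        · exact hh.sep e e' hA he
      rcases h2 with h2 | h2
      · obtain ⟨j, hj⟩ := List.mem_iff_getElem?.1 hd
        exact hcl (j + 1) (by omega) e' h2 c hc d (by rw [hch]; exact hj)
      · exact fun hx => hv.adj e0 e' h2 d
          (show d ∈ D.chs G e0 from hch ▸ List.mem_cons_of_mem _ hd) c hc (cross_symm hx)
    · exact hv.adj e0 e' ((hh.sep e e' hA he).resolve_left hA') _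
        (show _ ∈ D.chs G e0 from hch ▸ List.mem_cons_self) c hc (cross_symm hx)
  have hx : ∀ x, x ≠ G.s e0 → D.pos x ∉ b :: (m ++ [D.pos (G.s e0)]) := by
    intro x h hy
    rcases hsub _ hy with h' | h'
    · exact hv.notV _ _ h'
    · exact h (hv.inj h')
  have hcv : ∀ x, cov true (D.sp e0) (D.pos (G.s e0) :: b :: (m ++ [D.pos (G.s e0)])) (D.pos x) =
      D.cv G e0 x := fun x => by rw [Sys.cv, hp]
  have hab : D.pos (G.s e0) ≠ b := fun h => hv.notV e0 (G.s e0) (by rw [hm, h]; simp)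
  by_cases h : Spin.sg (D.sp e0) (D.pos (G.s e0)) b = ε
  · obtain ⟨D', h1, h2, h3⟩ := o.core hs hv
    refine ⟨D', h1, h2, fun e x h4 => ?_⟩
    rw [h3 e x (hx x h4), h, hcv, hcv, hcv]
  · obtain ⟨o', hr⟩ := o.rev
    obtain ⟨D', h1, h2, h3⟩ := o'.core hs hv
    have h5 : Spin.sg (D.sp e0) b (D.pos (G.s e0)) = ε := by
      unfold Spin.sg at h ⊢
      split_ifs at h ⊢ <;> omega
    refine ⟨D', h1, h2, fun e x h4 => ?_⟩
    have h6 := hx x h4
    rw [h3 e x (by
      simp only [List.mem_cons, List.mem_append, List.mem_reverse] at h6 ⊢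
      tauto), h5, hr, hr, hr, hcv, hcv, hcv]
    split_ifs <;> ring

end Pool.Agent.MP_17db17_lc.H93
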