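import Pool.Agent.MP_17db17_lc.H93.Basic

set_option autoImplicit false

namespace Pool.Agent.MP_17db17_lc.H93

namespace Spin

abbrev ZZ : Type := ℤ ×ₗ ℤ

/-- the place next to `r` with offset `k` -/
def nw (r k : ℤ) : ZZ := toLex (r, k)

theorem nw_lt {r k r' k' : ℤ} : nw r k < nw r' k' ↔ r < r' ∨ (r = r' ∧ k < k') :=
  Prod.Lex.toLex_lt_toLex

theorem nw_inj {r k r' k' : ℤ} (h : nw r k = nw r' k') : r = r' ∧ k = k' := by
  have := toLex.injective h
  exact ⟨congrArg Prod.fst this, congrArg Prod.snd this⟩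

def emb (r : ℤ) : ZZ := nw r 0

theorem emb_mono : StrictMono emb := fun _ _ h => nw_lt.2 (Or.inl h)

theorem ind_nw {X r : ℤ} (k : ℤ) (h : X ≠ r) : ind (emb X) (nw r k) = ind X r := by
  unfold ind emb
  simp only [nw_lt, h, false_and, or_false]

theorem ind_emb (X r : ℤ) : ind (emb X) (emb r) = ind X r := by
  unfold ind
  simp only [emb_mono.lt_iff_lt]

/-- a parallel copy of a path -/
def cp : ℤ → List ℤ → List ZZ
  | _, [] => []
  | k, r :: R => nw r k :: cp (-k) R

theorem length_cp (k : ℤ) (R : List ℤ) : (cp k R).length = R.length := by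
  induction R generalizing k with
  | nil => rfl
  | cons r R ih => simp [cp, ih]

theorem mem_cp {k : ℤ} {R : List ℤ} {z : ZZ} (h : z ∈ cp k R) :
    ∃ r ∈ R, z = nw r k ∨ z = nw r (-k) := by
  induction R generalizing k with
  | nil => simp [cp] at h
  | cons r R ih =>
    rcases List.mem_cons.1 h with h | h
    · exact ⟨r, List.mem_cons_self, Or.inl h⟩
    · obtain ⟨r', hr, h⟩ := ih h
      rw [neg_neg] at h
      exact ⟨r', List.mem_cons_of_mem _ hr, h.symm⟩

theorem nodup_cp (k : ℤ) {R : List ℤ} (h : R.Nodup) : (cp k R).Nodup := by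
  induction R generalizing k with
  | nil => exact List.nodup_nil
  | cons r R ih =>
    rw [List.nodup_cons] at h
    refine List.nodup_cons.2 ⟨fun hz => ?_, ih _ h.2⟩
    obtain ⟨r', hr, h' | h'⟩ := mem_cp hz <;> exact h.1 ((nw_inj h').1 ▸ hr)

theorem cp_concat (k : ℤ) (m : List ℤ) (a : ℤ) :
    cp k (m ++ [a]) = cp k m ++ [nw a (if m.length % 2 = 0 then k else -k)] := by
  induction m generalizing k with
  | nil => rfl
  | cons r m ih =>
    simp only [List.cons_append, cp, ih, List.length_cons, neg_neg]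
    rcases Nat.mod_two_eq_zero_or_one m.length with h | h
    · rw [if_pos h, if_neg (by omega)]
    · rw [if_neg (by omega), if_pos (by omega)]

/-- the copy of a chord -/
def lift (b : Bool) (k : ℤ) (c : Chord ℤ) : Chord ZZ :=
  (c.1, nw c.2.1 (if c.1 = b then k else -k), nw c.2.2 (if c.1 = b then -k else k))

theorem lift_not (b : Bool) (k : ℤ) : lift (!b) (-k) = lift b k := by
  funext c
  obtain ⟨π, p, q⟩ := c
  cases π <;> cases b <;> simp [lift]

theorem chords_cp (b : Bool) (k : ℤ) (R : List ℤ) :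
    chords b (cp k R) = (chords b R).map (lift b k) := by
  induction R generalizing b k with
  | nil => simp [cp]
  | cons x R ih =>
    cases R with
    | nil => simp [cp]
    | cons y R =>
      have := ih (!b) (-k)
      simp only [cp, chords_cons_cons, List.map_cons, lift_not] at this ⊢
      rw [this]
      simp [lift]

/-- the path that replaces a chord from `y` to `β` -/
def fw (a b : ℤ) (m : List ℤ) (k y β : ℤ) : List ZZ :=
  emb y :: (cp (-k) (b :: (m ++ [a])) ++ [emb β])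

theorem chords_fw (π : Bool) (a b : ℤ) {m : List ℤ} (hm : m.length % 2 = 0) (k y β : ℤ) :
    chords π (fw a b m k y β) = (π, emb y, nw b (-k)) ::
      ((chords (!π) (b :: (m ++ [a]))).map (lift π k) ++ [(π, nw a k, emb β)]) := by
  have h1 : cp (-k) (b :: (m ++ [a])) = (nw b (-k) :: cp k m) ++ [nw a k] := by
    simp only [cp, neg_neg, cp_concat, if_pos hm, List.cons_append]
  have h2 := chords_cp (!π) (-k) (b :: (m ++ [a]))
  rw [lift_not] at h2
  rw [← h2, h1]
  unfold fw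
  rw [h1]
  have h3 := chords_concat (!π) (nw b (-k) :: cp k m) (nw a k) (emb β)
  have h4 : flipN (!π) (nw b (-k) :: cp k m).length = π := by
    unfold flipN
    rw [List.length_cons, length_cp, if_neg (by omega), Bool.not_not]
  rw [h4] at h3
  rw [← h3]
  simp

theorem length_fw (a b : ℤ) (m : List ℤ) (k y β : ℤ) :
    (fw a b m k y β).length = m.length + 4 := by
  simp [fw, length_cp]

theorem covL_lift (π b : Bool) (k : ℤ) {C : List (Chord ℤ)} {X : ℤ}
    (h : ∀ c ∈ C, X ≠ c.2.1 ∧ X ≠ c.2.2) : covL π (C.map (lift b k)) (emb X) = covL π C X := by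
  induction C with
  | nil => simp
  | cons c C ih =>
    obtain ⟨h1, h2⟩ := h c List.mem_cons_self
    rw [List.map_cons, covL_cons, covL_cons, ih fun c' hc' => h c' (List.mem_cons_of_mem _ hc')]
    simp only [lift, ind_nw _ h1, ind_nw _ h2]

theorem cov_fw (π : Bool) (a b : ℤ) {m : List ℤ} (hm : m.length % 2 = 0) (k y β : ℤ) {X : ℤ}
    (hX : X ∉ b :: (m ++ [a])) :
    cov true π (fw a b m k y β) (emb X) =
      (if π = true then ind X β - ind X y else 0) + cov true π (a :: b :: (m ++ [a])) X := by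
  have ha : X ≠ a := fun h => hX (by simp [h])
  have hb : X ≠ b := fun h => hX (by simp [h])
  unfold cov
  rw [chords_fw π a b hm, chords_cons_cons, covL_cons, covL_cons, covL_append, covL_cons,
    covL_lift]
  · simp only [ind_nw _ ha, ind_nw _ hb, ind_emb, covL_nil]
    split_ifs <;> ring
  · intro c hc
    obtain ⟨h1, h2⟩ := mem_of_mem_chords hc
    exact ⟨fun h => hX (h ▸ h1), fun h => hX (h ▸ h2)⟩

theorem nd_ne {b : Bool} {l : List ℤ} (hn : l.Nodup) {c : Chord ℤ} (hc : c ∈ chords b l) :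
    c.2.1 ≠ c.2.2 := by
  obtain ⟨i, hi, rfl⟩ := mem_chords_iff.1 hc
  intro h
  have := hn.getElem_inj_iff.1 h
  omega

theorem nd_pair {b : Bool} {l : List ℤ} (hn : l.Nodup) {c c' : Chord ℤ} (hc : c ∈ chords b l)
    (hc' : c' ∈ chords b l) (h : c.1 = c'.1) :
    c = c' ∨ (c.2.1 ≠ c'.2.1 ∧ c.2.1 ≠ c'.2.2 ∧ c.2.2 ≠ c'.2.1 ∧ c.2.2 ≠ c'.2.2) := by
  obtain ⟨i, hi, rfl⟩ := mem_chords_iff.1 hc
  obtain ⟨j, hj, rfl⟩ := mem_chords_iff.1 hc'
  have hp := (flipN_eq_iff _ _ _).1 h
  by_cases hij : i = j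
  · subst hij; exact Or.inl rfl
  · right
    refine ⟨fun h => ?_, fun h => ?_, fun h => ?_, fun h => ?_⟩ <;>
      have := hn.getElem_inj_iff.1 h <;> omega

theorem nd_ends {π : Bool} {a b : ℤ} {m : List ℤ} (hm : m.length % 2 = 0)
    (hn : (b :: (m ++ [a])).Nodup) {c : Chord ℤ} (hc : c ∈ chords (!π) (b :: (m ++ [a])))
    (h : c.1 = π) : c.2.1 ≠ a ∧ c.2.1 ≠ b ∧ c.2.2 ≠ a ∧ c.2.2 ≠ b := by
  obtain ⟨i, hi, rfl⟩ := mem_chords_iff.1 hc
  have hl : (b :: (m ++ [a])).length = m.length + 2 := by simp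
  have hp : i % 2 = 1 := by
    by_contra h2
    unfold flipN at h
    rw [if_pos (by omega)] at h
    revert h; cases π <;> simp
  have h0 : b = (b :: (m ++ [a]))[0] := rfl
  have h1 : a = (b :: (m ++ [a]))[m.length + 1]'(by omega) := by simp
  refine ⟨fun h => ?_, fun h => ?_, fun h => ?_, fun h => ?_⟩
  · have := hn.getElem_inj_iff.1 (h.trans h1); omega
  · have := hn.getElem_inj_iff.1 (h.trans h0); omega
  · have := hn.getElem_inj_iff.1 (h.trans h1); omega
  · have := hn.getElem_inj_iff.1 (h.trans h0); omega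

/-- the chords of the new path -/
def New (π : Bool) (a b : ℤ) (m : List ℤ) (k y β : ℤ) (d : Chord ZZ) : Prop :=
  d = (π, emb y, nw b (-k)) ∨ (∃ c ∈ chords (!π) (b :: (m ++ [a])), d = lift π k c) ∨
    d = (π, nw a k, emb β)

theorem new_of_mem {π : Bool} {a b : ℤ} {m : List ℤ} (hm : m.length % 2 = 0) {k y β : ℤ}
    {d : Chord ZZ} (h : d ∈ chords π (fw a b m k y β)) : New π a b m k y β d := by
  rw [chords_fw π a b hm] at h
  rcases List.mem_cons.1 h with h | h
  · exact Or.inl h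
  · rcases List.mem_append.1 h with h | h
    · obtain ⟨c, hc, rfl⟩ := List.mem_map.1 h
      exact Or.inr (Or.inl ⟨c, hc, rfl⟩)
    · exact Or.inr (Or.inr (List.mem_singleton.1 h))

theorem proj {π π' : Bool} {p q r s i j k l : ℤ} (h1 : p ≠ r ∨ i = k) (h2 : p ≠ s ∨ i = l)
    (h3 : q ≠ r ∨ j = k) (h4 : q ≠ s ∨ j = l)
    (h : Cross (π, nw p i, nw q j) (π', nw r k, nw s l)) : Cross (π, p, q) (π', r, s) := by
  refine ⟨h.1, ?_⟩
  have := h.2
  simp only [Btw, Out, nw_lt] at this ⊢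
  omega

/-- the two end chords of a new path against a chord that avoids the old chord and the handle -/
theorem ends_old {π π' : Bool} {a b y β p q : ℤ} (hy : Btw a b y) (hβ : Out a b β)
    (h1 : p ≠ a) (h2 : p ≠ b) (h3 : q ≠ a) (h4 : q ≠ b) (n1 : ¬ Cross (π, y, β) (π', p, q))
    (n2 : ¬ Cross (π', p, q) (π, a, b)) :
    ¬ Cross (π, y, b) (π', p, q) ∧ ¬ Cross (π, a, β) (π', p, q) := by
  by_cases h : π = π'
  · subst h
    simp only [Cross, Btw, Out, true_and] at *
    omega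
  · exact ⟨fun h' => h h'.1, fun h' => h h'.1⟩

/-- data of a chord that crosses the first chord of the handle -/
structure Tk (π : Bool) (a b : ℤ) (m : List ℤ) (y β : ℤ) : Prop where
  btw : Btw a b y
  out : Out a b β
  hy : y ∉ b :: (m ++ [a])
  hβ : β ∉ b :: (m ++ [a])
  nc : ∀ d ∈ chords (!π) (b :: (m ++ [a])), ¬ Cross (π, y, β) d

theorem new_old {π π' : Bool} {a b : ℤ} {m : List ℤ} {k y β p q : ℤ} {d : Chord ZZ}
    (hd : New π a b m k y β d) (t : Tk π a b m y β) (hp : p ∉ b :: (m ++ [a]))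
    (hq : q ∉ b :: (m ++ [a])) (n1 : ¬ Cross (π, y, β) (π', p, q))
    (n2 : ¬ Cross (π', p, q) (π, a, b))
    (n3 : ∀ d ∈ chords (!π) (b :: (m ++ [a])), ¬ Cross (π', p, q) d) :
    ¬ Cross d (π', emb p, emb q) := by
  have h1 : p ≠ a := fun h => hp (by simp [h])
  have h2 : p ≠ b := fun h => hp (by simp [h])
  have h3 : q ≠ a := fun h => hq (by simp [h])
  have h4 : q ≠ b := fun h => hq (by simp [h])
  have he := ends_old t.btw t.out h1 h2 h3 h4 n1 n2
  rcases hd with rfl | ⟨c, hc, rfl⟩ | rfl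
  · exact fun h => he.1 (proj (Or.inr rfl) (Or.inr rfl) (Or.inl h2.symm) (Or.inl h4.symm) h)
  · obtain ⟨c1, c2⟩ := mem_of_mem_chords hc
    exact fun h => n3 c hc (cross_symm (proj (Or.inl fun e => hp (e ▸ c1))
      (Or.inl fun e => hq (e ▸ c1)) (Or.inl fun e => hp (e ▸ c2)) (Or.inl fun e => hq (e ▸ c2)) h))
  · exact fun h => he.2 (proj (Or.inl h1.symm) (Or.inl h3.symm) (Or.inr rfl) (Or.inr rfl) h)

/-- order of two chords that cross the handle but not each other -/
def Ord (a b y β y' β' : ℤ) : Prop :=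
  y ≤ y' ∧ ((β' ≤ β ∧ β < a ∧ β < b) ∨ (β < a ∧ β < b ∧ a < β' ∧ b < β') ∨
    (a < β' ∧ b < β' ∧ β' ≤ β))

theorem end_mid {π : Bool} {a b : ℤ} {m : List ℤ} (hm : m.length % 2 = 0)
    (hn : (b :: (m ++ [a])).Nodup)
    (hs : NoCross π (a :: b :: (m ++ [a])) π (a :: b :: (m ++ [a]))) {k k' y β : ℤ}
    (t : Tk π a b m y β) {c : Chord ℤ} (hc : c ∈ chords (!π) (b :: (m ++ [a]))) :
    ¬ Cross (π, emb y, nw b (-k)) (lift π k' c) ∧ ¬ Cross (π, nw a k, emb β) (lift π k' c) := by
  by_cases h : c.1 = π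
  · obtain ⟨h1, h2, h3, h4⟩ := nd_ends hm hn hc h
    obtain ⟨c1, c2⟩ := mem_of_mem_chords hc
    have he := ends_old (π := π) (π' := c.1) t.btw t.out h1 h2 h3 h4 (t.nc c hc)
      (hs c (List.mem_cons_of_mem _ hc) _ List.mem_cons_self)
    exact ⟨fun h => he.1 (proj (Or.inl fun e => t.hy (e ▸ c1)) (Or.inl fun e => t.hy (e ▸ c2))
        (Or.inl h2.symm) (Or.inl h4.symm) h),
      fun h => he.2 (proj (Or.inl h1.symm) (Or.inl h3.symm) (Or.inl fun e => t.hβ (e ▸ c1))
        (Or.inl fun e => t.hβ (e ▸ c2)) h)⟩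
  · exact ⟨fun h' => h h'.1.symm, fun h' => h h'.1.symm⟩

theorem mid_mid {π : Bool} {a b : ℤ} {m : List ℤ} (hn : (b :: (m ++ [a])).Nodup)
    (hs : NoCross π (a :: b :: (m ++ [a])) π (a :: b :: (m ++ [a]))) {k k' : ℤ}
    {c c' : Chord ℤ} (hc : c ∈ chords (!π) (b :: (m ++ [a])))
    (hc' : c' ∈ chords (!π) (b :: (m ++ [a]))) : ¬ Cross (lift π k c) (lift π k' c') := by
  intro h
  rcases nd_pair hn hc hc' h.1 with rfl | ⟨h1, h2, h3, h4⟩
  · have h0 := nd_ne hn hc
    have := h.2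
    simp only [lift, Btw, Out, nw_lt] at this
    split_ifs at this <;> omega
  · exact hs c (List.mem_cons_of_mem _ hc) c' (List.mem_cons_of_mem _ hc')
      (proj (Or.inl h1) (Or.inl h2) (Or.inl h3) (Or.inl h4) h)

theorem new_new {π : Bool} {a b : ℤ} {m : List ℤ} (hm : m.length % 2 = 0)
    (hn : (b :: (m ++ [a])).Nodup)
    (hs : NoCross π (a :: b :: (m ++ [a])) π (a :: b :: (m ++ [a]))) {k y β k' y' β' : ℤ}
    {d d' : Chord ZZ} (hd : New π a b m k y β d) (hd' : New π a b m k' y' β' d')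
    (t : Tk π a b m y β) (t' : Tk π a b m y' β') (o1 : k < k' → Ord a b y β y' β')
    (o2 : k' < k → Ord a b y' β' y β) (o3 : k = k' → y = y' ∧ β = β') : ¬ Cross d d' := by
  have b1 := t.btw
  have b2 := t.out
  have b3 := t'.btw
  have b4 := t'.out
  rcases hd with rfl | ⟨c, hc, rfl⟩ | rfl <;> rcases hd' with rfl | ⟨c', hc', rfl⟩ | rfl
  · simp only [Cross, Btw, Out, emb, nw_lt, Ord, true_and] at *
    omega
  · exact (end_mid (k := k) hm hn hs t hc').1
  · simp only [Cross, Btw, Out, emb, nw_lt, Ord, true_and] at *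
    omega
  · exact fun h => (end_mid (k := k') hm hn hs t' hc).1 (cross_symm h)
  · exact mid_mid hn hs hc hc'
  · exact fun h => (end_mid (k := k') hm hn hs t' hc).2 (cross_symm h)
  · simp only [Cross, Btw, Out, emb, nw_lt, Ord, true_and] at *
    omega
  · exact (end_mid (k := k) hm hn hs t hc').2
  · simp only [Cross, Btw, Out, emb, nw_lt, Ord, true_and] at *
    omega

end Spin

end Pool.Agent.MP_17db17_lc.H93
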