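import Pool.Agent.MP_17db17_lc.H93.Basic

set_option autoImplicit false

namespace Pool.Agent.MP_17db17_lc.H93

open Classical

namespace StripAux

/-! ## An abstract counting lemma for orbits -/

section orbit
variable {X : Type} (f : X → X) (Live Good In : X → Prop)

/-- the first bad time -/
noncomputable def tau (x : X) : ℕ :=
  if h : ∃ t, ¬ Good (f^[t] x) then Nat.find h else 0

/-- the visits to `In` up to the first bad time -/
noncomputable def visS (x : X) : Finset ℕ :=
  (Finset.range (tau f Good x + 1)).filter fun t => In (f^[t] x)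

variable {f Live Good In}

theorem tau_bad {x : X} (h : ∃ t, ¬ Good (f^[t] x)) : ¬ Good (f^[tau f Good x] x) := by
  unfold tau; rw [dif_pos h]; exact Nat.find_spec h

theorem tau_good {x : X} {t : ℕ} (ht : t < tau f Good x) : Good (f^[t] x) := by
  unfold tau at ht
  split_ifs at ht with h
  · exact not_not.1 (Nat.find_min h ht)
  · omega

theorem live_iter (h1 : ∀ x, Live x → Good x → Live (f x)) {x : X} (hx : Live x) {t : ℕ}
    (ht : t ≤ tau f Good x) : Live (f^[t] x) := by
  induction t with
  | zero => exact hx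
  | succ t ih =>
    rw [Function.iterate_succ_apply']
    exact h1 _ (ih (by omega)) (tau_good (by omega))

theorem back (h1 : ∀ x, Live x → Good x → Live (f x))
    (h2 : ∀ x y, Live x → Live y → f x = f y → x = y) {x y : X} (hx : Live x) (hy : Live y)
    {d k : ℕ} (hk : k ≤ tau f Good x) (hk' : k + d ≤ tau f Good y)
    (e : f^[k] x = f^[k + d] y) : x = f^[d] y := by
  induction k with
  | zero => simpa using e
  | succ k ih =>
    refine ih (by omega) (by omega) (h2 _ _ (live_iter h1 hx (by omega))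
      (live_iter h1 hy (by omega)) ?_)
    rw [show k + 1 + d = (k + d) + 1 by omega, Function.iterate_succ_apply',
      Function.iterate_succ_apply'] at e
    exact e

theorem eq_of_end (h1 : ∀ x, Live x → Good x → Live (f x))
    (h2 : ∀ x y, Live x → Live y → f x = f y → x = y) {x y : X} (hx : Live x) (hy : Live y)
    (hi : In y) (hle : tau f Good x ≤ tau f Good y)
    (e : f^[tau f Good x] x = f^[tau f Good y] y)
    (hv : (visS f Good In x).card = (visS f Good In y).card) : x = y := by
  obtain ⟨d, hd⟩ := Nat.exists_eq_add_of_le hle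
  have hxy : x = f^[d] y := back h1 h2 hx hy le_rfl hd.ge (by rw [← hd]; exact e)
  rcases Nat.eq_zero_or_pos d with rfl | hd0
  · simpa using hxy
  exfalso
  have hsub : insert 0 ((visS f Good In x).image (· + d)) ⊆ visS f Good In y := by
    intro t ht
    rcases Finset.mem_insert.1 ht with rfl | ht
    · simp [visS, hi]
    · obtain ⟨u, hu, rfl⟩ := Finset.mem_image.1 ht
      simp only [visS, Finset.mem_filter, Finset.mem_range] at hu ⊢
      refine ⟨by omega, ?_⟩
      rw [Function.iterate_add_apply, ← hxy]; exact hu.2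
  have hc := Finset.card_le_card hsub
  rw [Finset.card_insert_of_notMem (by simp; omega),
    Finset.card_image_of_injective _ (add_left_injective d)] at hc
  omega

theorem count {Y : Type} (h1 : ∀ x, Live x → Good x → Live (f x))
    (h2 : ∀ x y, Live x → Live y → f x = f y → x = y)
    (h3 : ∀ x, Live x → ∃ t, ¬ Good (f^[t] x)) (code : X → Y) (B : Finset Y)
    (h4 : ∀ x, code x ∈ B)
    (h5 : ∀ x y, Live x → Live y → ¬ Good x → ¬ Good y → code x = code y → x = y)
    (M : ℕ) (S : Finset X) (hS : ∀ x ∈ S, Live x ∧ In x ∧ (visS f Good In x).card < M) :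
    S.card ≤ B.card * M := by
  have : S.card ≤ (B ×ˢ Finset.range M).card := by
    refine Finset.card_le_card_of_injOn
      (fun x => (code (f^[tau f Good x] x), (visS f Good In x).card)) (fun x hx => ?_) ?_
    · simp only [Finset.coe_product, Set.mem_prod, Finset.mem_coe, Finset.mem_range]
      exact ⟨h4 _, (hS x hx).2.2⟩
    · intro x hx y hy e
      obtain ⟨a1, a2, -⟩ := hS x hx
      obtain ⟨b1, b2, -⟩ := hS y hy
      simp only [Prod.mk.injEq] at e
      have e1 := h5 _ _ (live_iter h1 a1 le_rfl) (live_iter h1 b1 le_rfl) (tau_bad (h3 x a1))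
        (tau_bad (h3 y b1)) e.1
      rcases le_total (tau f Good x) (tau f Good y) with h | h
      · exact eq_of_end h1 h2 a1 b1 b2 h e1 e.2
      · exact (eq_of_end h1 h2 b1 a1 a2 h e1.symm e.2.symm).symm
  simpa using this

end orbit

/-! ## Gaps of one element -/

variable {ι V : Type} {G : Gr ι V} {D : Sys ι V ℤ} {f0 : ι}

/-- no vertex weakly between -/
def Free (D : Sys ι V ℤ) (a b : ℤ) : Prop := ∀ x, ¬ InW a b (D.pos x)

theorem Free.symm {a b : ℤ} (h : Free D a b) : Free D b a := fun x hx => h x (Or.symm hx)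

theorem Free.mem {a b : ℤ} (h : Free D a b) (ha : a ∈ D.path G f0) : a ∈ D.mid f0 := by
  rcases Sys.pt_of_mem_path ha with ha | ⟨x, rfl⟩
  · exact ha
  · exact absurd (by unfold InW; omega) (h x)

theorem Free.sub {a b p q : ℤ} (h : Free D a b) (hp : InW a b p) (hq : InW a b q) :
    Free D p q := fun x hx => h x (by unfold InW at *; omega)

theorem nc_btw {π : Bool} {p q r s : ℤ} (h : ¬ Cross (π, p, q) (π, r, s)) (hb : Btw p q r) :
    InW p q s := by
  by_contra hn
  exact h ⟨rfl, Or.inl ⟨hb, by simp only [InW, Out] at hn ⊢; omega⟩⟩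

theorem nc_out {π : Bool} {p q r s : ℤ} (h : ¬ Cross (π, p, q) (π, r, s)) (hb : Out p q r) :
    ¬ Btw p q s := fun hn => h ⟨rfl, Or.inr ⟨hb, hn⟩⟩

theorem far {a a' r r' u : ℤ} (hx : InW a a' u) (x1 : ¬ InW a r u) (x2 : ¬ InW a' r' u) :
    (a < u ∧ r < u ∧ u < a' ∧ u < r') ∨ (a' < u ∧ r' < u ∧ u < a ∧ u < r) := by
  unfold InW at *
  omega

/-- sandwich -/
theorem sandwich (hv : D.Valid G) (hr : D.Reduced G) {π : Bool} {a a' r r' q q' : ℤ}
    (ha : D.Ch G f0 π a a') (hb : D.Ch G f0 π r r') (hq : D.Ch G f0 π q q')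
    (h1 : Free D a r) (h2 : Free D a' r') (h3 : InW a r q) : InW a' r' q' := by
  wlog hlt : a ≤ r generalizing a a' r r'
  · exact Or.symm (this hb ha h1.symm h2.symm (Or.symm h3) (by omega))
  by_cases e1 : q = a
  · subst e1; rw [hv.ch_unique hq ha]; unfold InW; omega
  by_cases e2 : q = r
  · subst e2; rw [hv.ch_unique hq hb]; unfold InW; omega
  have k : a < q ∧ q < r := by unfold InW at h3; omega
  obtain ⟨x, hx⟩ := hr.ch_sep ha
  obtain ⟨y, hy⟩ := hr.ch_sep hq
  have c1 := hv.ch_not_cross (Or.inl rfl) ha hq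
  have c2 := hv.ch_not_cross (Or.inl rfl) hb hq
  have y1 := h1 y
  rcases far hx (h1 x) (h2 x) with h | h
  · have d1 := nc_btw c1 (Or.inl ⟨by omega, by omega⟩)
    have d2 := nc_out c2 (Or.inl ⟨by omega, by omega⟩)
    have d3 : r < q' := by unfold InW at hy y1 d1; omega
    unfold InW Btw at *
    omega
  · have d1 := nc_btw c2 (Or.inr ⟨by omega, by omega⟩)
    have d2 := nc_out c1 (Or.inr ⟨by omega, by omega⟩)
    have d3 : q' < a := by unfold InW at hy y1 d1; omega
    unfold InW Btw at *
    omega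

/-- orientation is reversed -/
theorem reverse (hv : D.Valid G) (hr : D.Reduced G) {π : Bool} {a a' r r' : ℤ}
    (ha : D.Ch G f0 π a a') (hb : D.Ch G f0 π r r')
    (h1 : Free D a r) (h2 : Free D a' r') (h3 : a < r) : r' < a' := by
  have e : a' ≠ r' := fun e => by
    subst e; exact h3.ne (hv.ch_unique ha.symm hb.symm)
  obtain ⟨x, hx⟩ := hr.ch_sep ha
  have c3 := hv.ch_not_cross (Or.inl rfl) ha hb
  rcases far hx (h1 x) (h2 x) with h | h
  · have d1 := nc_btw c3 (Or.inl ⟨by omega, by omega⟩)
    unfold InW at d1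
    omega
  · have d2 := nc_out c3 (Or.inr ⟨by omega, by omega⟩)
    unfold Btw at d2
    omega

/-- two consecutive inner points without a vertex between them -/
structure Gap (D : Sys ι V ℤ) (f0 : ι) (a b : ℤ) : Prop where
  lt : a < b
  l : a ∈ D.mid f0
  r : b ∈ D.mid f0
  con : ∀ y ∈ D.mid f0, ¬ (a < y ∧ y < b)
  free : Free D a b

/-- the partner on page `π` -/
noncomputable def nx (D : Sys ι V ℤ) (G : Gr ι V) (f0 : ι) (π : Bool) (y : ℤ) : ℤ :=
  if h : y ∈ D.mid f0 then (Sys.ch_exists G h π).choose else y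

theorem nx_ch {y : ℤ} (h : y ∈ D.mid f0) (π : Bool) : D.Ch G f0 π y (nx D G f0 π y) := by
  unfold nx; rw [dif_pos h]; exact (Sys.ch_exists G h π).choose_spec

theorem Gap.next (hv : D.Valid G) (hr : D.Reduced G) {a b : ℤ} (h : Gap D f0 a b) {π : Bool}
    (hg : Free D (nx D G f0 π a) (nx D G f0 π b)) :
    Gap D f0 (nx D G f0 π b) (nx D G f0 π a) := by
  have ca := nx_ch (G := G) h.l π
  have cb := nx_ch (G := G) h.r π
  refine ⟨reverse hv hr ca cb h.free hg h.lt, hg.symm.mem cb.mem.2, hg.mem ca.mem.2,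
    fun y hy hb => ?_, hg.symm⟩
  have cy := nx_ch (G := G) hy π
  have hz := sandwich hv hr ca.symm cb.symm cy hg h.free (by unfold InW; omega)
  have hm : nx D G f0 π y ∈ D.mid f0 := (h.free.sub hz hz).mem cy.mem.2
  have n1 : nx D G f0 π y ≠ a := fun e => by
    rw [e] at cy; have := hv.ch_unique cy.symm ca; omega
  have n2 : nx D G f0 π y ≠ b := fun e => by
    rw [e] at cy; have := hv.ch_unique cy.symm cb; omega
  have := h.lt
  exact h.con _ hm (by unfold InW at hz; omega)

/-- states: page and two points -/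
abbrev St : Type := Bool × ℤ × ℤ

noncomputable def step (D : Sys ι V ℤ) (G : Gr ι V) (f0 : ι) (σ : St) : St :=
  (!σ.1, nx D G f0 σ.1 σ.2.1, nx D G f0 σ.1 σ.2.2)

def Live (D : Sys ι V ℤ) (f0 : ι) (σ : St) : Prop :=
  if σ.1 = true then Gap D f0 σ.2.1 σ.2.2 else Gap D f0 σ.2.2 σ.2.1

def Good (D : Sys ι V ℤ) (G : Gr ι V) (f0 : ι) (σ : St) : Prop :=
  Free D (nx D G f0 σ.1 σ.2.1) (nx D G f0 σ.1 σ.2.2)

theorem Live.mem {σ : St} (h : Live D f0 σ) : σ.2.1 ∈ D.mid f0 ∧ σ.2.2 ∈ D.mid f0 := by
  unfold Live at h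
  split_ifs at h
  · exact ⟨h.l, h.r⟩
  · exact ⟨h.r, h.l⟩

theorem live_step (hv : D.Valid G) (hr : D.Reduced G) (σ : St) (h : Live D f0 σ)
    (hg : Good D G f0 σ) : Live D f0 (step D G f0 σ) := by
  obtain ⟨π, a, b⟩ := σ
  cases π
  · exact Gap.next hv hr (a := b) (b := a) h (Free.symm hg)
  · exact Gap.next hv hr (a := a) (b := b) h hg

theorem step_inj (hv : D.Valid G) (σ σ' : St) (h : Live D f0 σ) (h' : Live D f0 σ')
    (e : step D G f0 σ = step D G f0 σ') : σ = σ' := by
  obtain ⟨π, a, b⟩ := σ
  obtain ⟨π', a', b'⟩ := σ'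
  simp only [step, Prod.mk.injEq, Bool.not_inj_iff] at e
  obtain ⟨rfl, e1, e2⟩ := e
  have a1 := nx_ch (G := G) h.mem.1 π
  have a2 := nx_ch (G := G) h'.mem.1 π
  have b1 := nx_ch (G := G) h.mem.2 π
  have b2 := nx_ch (G := G) h'.mem.2 π
  simp only at a1 a2 b1 b2
  rw [e1] at a1
  rw [e2] at b1
  rw [hv.ch_unique a1.symm a2.symm, hv.ch_unique b1.symm b2.symm]

/-- the strand of a point -/
noncomputable def st (D : Sys ι V ℤ) (G : Gr ι V) (f0 : ι) (b : Bool) (y : ℤ) : ℕ → ℤ
  | 0 => y
  | t + 1 => nx D G f0 (flipN b t) (st D G f0 b y t)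

theorem iter_step (π : Bool) (a b : ℤ) (t : ℕ) :
    (step D G f0)^[t] (π, a, b) = (flipN π t, st D G f0 π a t, st D G f0 π b t) := by
  induction t with
  | zero => rfl
  | succ t ih => rw [Function.iterate_succ_apply', ih, flipN_succ]; rfl

theorem dies (hv : D.Valid G) (hr : D.Reduced G) (σ : St) (h : Live D f0 σ) :
    ∃ t, ¬ Good D G f0 ((step D G f0)^[t] σ) := by
  by_contra hn
  push Not at hn
  have hl : ∀ t, Live D f0 ((step D G f0)^[t] σ) := by
    intro t
    induction t with
    | zero => exact h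
    | succ t ih => rw [Function.iterate_succ_apply']; exact live_step hv hr _ ih (hn t)
  obtain ⟨π, a, b⟩ := σ
  have hm : ∀ t, st D G f0 π a t ∈ D.mid f0 := fun t => by
    have := (hl t).mem.1
    rwa [iter_step] at this
  have := (hv.strand_inj (e := f0) (b := π) (q := st D G f0 π a) (T := (D.mid f0).length)
    (fun t _ => nx_ch (hm t) _) fun t _ => hm t).1
  omega

/-! ## Cells -/

variable [Fintype V]

noncomputable def cell (D : Sys ι V ℤ) (y : ℤ) : ℕ :=
  (Finset.univ.filter fun x => D.pos x < y).card + (Finset.univ.filter fun x => D.pos x ≤ y).card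

theorem cell_lt (y : ℤ) : cell D y < 2 * Fintype.card V + 1 := by
  unfold cell
  have h1 := Finset.card_le_univ (Finset.univ.filter fun x => D.pos x < y)
  have h2 := Finset.card_le_univ (Finset.univ.filter fun x => D.pos x ≤ y)
  omega

theorem free_of_cell {y y' : ℤ} (h : cell D y = cell D y') (hne : y ≠ y') : Free D y y' := by
  wlog hlt : y < y' generalizing y y'
  · exact (this h.symm hne.symm (by omega)).symm
  intro x hx
  have s1 : (Finset.univ.filter fun x => D.pos x < y) ⊆ Finset.univ.filter fun x => D.pos x < y' :=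
    fun z hz => by simp only [Finset.mem_filter, Finset.mem_univ, true_and] at hz ⊢; omega
  have s2 : (Finset.univ.filter fun x => D.pos x ≤ y) ⊆ Finset.univ.filter fun x => D.pos x ≤ y' :=
    fun z hz => by simp only [Finset.mem_filter, Finset.mem_univ, true_and] at hz ⊢; omega
  have c1 := Finset.card_le_card s1
  have c2 := Finset.card_le_card s2
  unfold cell at h
  unfold InW at hx
  by_cases e : D.pos x = y
  · have := Finset.card_lt_card (Finset.ssubset_iff_of_subset s1 |>.2 ⟨x, by simp; omega, by simp; omega⟩)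
    omega
  · have := Finset.card_lt_card (Finset.ssubset_iff_of_subset s2 |>.2 ⟨x, by simp; omega, by simp; omega⟩)
    omega

noncomputable def code (D : Sys ι V ℤ) (G : Gr ι V) (f0 : ι) (σ : St) : Bool × ℕ × ℕ :=
  (σ.1, cell D σ.2.1, cell D (nx D G f0 σ.1 σ.2.1))

theorem code_inj (hv : D.Valid G) (hr : D.Reduced G) (σ σ' : St) (h : Live D f0 σ)
    (h' : Live D f0 σ') (b1 : ¬ Good D G f0 σ) (b2 : ¬ Good D G f0 σ')
    (e : code D G f0 σ = code D G f0 σ') : σ = σ' := by
  wlog hle : σ.2.1 ≤ σ'.2.1 generalizing σ σ'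
  · exact (this σ' σ h' h b2 b1 e.symm (by omega)).symm
  obtain ⟨π, a, b⟩ := σ
  obtain ⟨π', a', b'⟩ := σ'
  simp only [code, Prod.mk.injEq] at e
  obtain ⟨rfl, e1, e2⟩ := e
  have m1 := h.mem
  have m2 := h'.mem
  simp only at hle m1 m2
  rcases hle.eq_or_lt with rfl | hlt
  · have : b = b' := by
      cases π
      · have g : Gap D f0 b a := h
        have g' : Gap D f0 b' a := h'
        have := g.con _ g'.l
        have := g'.con _ g.l
        have := g.lt
        have := g'.lt
        omega
      · have g : Gap D f0 a b := h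
        have g' : Gap D f0 a b' := h'
        have := g.con _ g'.r
        have := g'.con _ g.r
        have := g.lt
        have := g'.lt
        omega
    rw [this]
  exfalso
  have ca := nx_ch (G := G) m1.1 π
  have ca' := nx_ch (G := G) m2.1 π
  have f1 := free_of_cell e1 hlt.ne
  have f2 := free_of_cell e2 fun e => by
    rw [e] at ca; exact hlt.ne (hv.ch_unique ca.symm ca'.symm)
  cases π
  · have g' : Gap D f0 b' a' := h'
    have := g'.con _ m1.1
    have := g'.lt
    have hz := sandwich hv hr ca ca' (nx_ch m2.2 _) f1 f2 (by unfold InW; omega)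
    exact b2 (f2.sub (by unfold InW; simp only; omega) hz)
  · have g : Gap D f0 a b := h
    have := g.con _ m2.1
    have := g.lt
    have hz := sandwich hv hr ca ca' (nx_ch m1.2 _) f1 f2 (by unfold InW; omega)
    exact b1 (f2.sub (by unfold InW; simp only; omega) hz)

/-! ## Ranks -/

omit [Fintype V]

noncomputable def rk (D : Sys ι V ℤ) (f0 : ι) (y : ℤ) : ℕ :=
  ((D.mid f0).toFinset.filter (· < y)).card

theorem rk_mono {y y' : ℤ} (h : y ≤ y') : rk D f0 y ≤ rk D f0 y' :=
  Finset.card_le_card fun z hz => by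
    simp only [Finset.mem_filter] at hz ⊢; exact ⟨hz.1, by omega⟩

theorem rk_lt {y y' : ℤ} (hy : y ∈ D.mid f0) (h : y < y') : rk D f0 y < rk D f0 y' :=
  Finset.card_lt_card (Finset.ssubset_iff_of_subset (fun z hz => by
    simp only [Finset.mem_filter] at hz ⊢; exact ⟨hz.1, by omega⟩) |>.2
      ⟨y, by simp [hy, h], by simp⟩)

theorem Gap.rk {a b : ℤ} (h : Gap D f0 a b) : rk D f0 b = rk D f0 a + 1 := by
  unfold StripAux.rk
  have : (D.mid f0).toFinset.filter (· < b) = insert a ((D.mid f0).toFinset.filter (· < a)) := by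
    ext z
    simp only [Finset.mem_filter, List.mem_toFinset, Finset.mem_insert]
    have := h.lt
    constructor
    · rintro ⟨h1, h2⟩
      have := h.con z h1
      by_cases e : z = a
      · exact Or.inl e
      · exact Or.inr ⟨h1, by omega⟩
    · rintro (rfl | ⟨h1, h2⟩)
      · exact ⟨h.l, h.lt⟩
      · exact ⟨h1, by omega⟩
  rw [this, Finset.card_insert_of_notMem (by simp)]

theorem rk_surj {k : ℕ} (hk : k < (D.mid f0).toFinset.card) : ∃ p ∈ D.mid f0, rk D f0 p = k := by
  have := Finset.surj_on_of_inj_on_of_card_le (s := (D.mid f0).toFinset)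
    (t := Finset.range (D.mid f0).toFinset.card) (fun p _ => rk D f0 p) (fun p hp => ?_)
    (fun p q hp hq e => ?_) (by simp only [Finset.card_range, le_refl]) k (Finset.mem_range.2 hk)
  · obtain ⟨p, hp, e⟩ := this
    exact ⟨p, List.mem_toFinset.1 hp, e.symm⟩
  · rw [Finset.mem_range]
    exact Finset.card_lt_card (Finset.ssubset_iff_of_subset (Finset.filter_subset _ _) |>.2
      ⟨p, hp, by simp⟩)
  · rcases lt_trichotomy p q with h | h | h
    · exact absurd e (rk_lt (List.mem_toFinset.1 hp) h).ne
    · exact h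
    · exact absurd e (rk_lt (List.mem_toFinset.1 hq) h).ne'

theorem rk_cntw (hv : D.Valid G) {lo hi : ℤ} (h : 0 < D.cntw f0 lo hi) :
    rk D f0 lo + D.cntw f0 lo hi ≤ rk D f0 (hi + 1) := by
  have hle : lo ≤ hi := by
    obtain ⟨y, hy⟩ := List.exists_mem_of_length_pos h
    simp only [List.mem_filter, decide_eq_true_eq] at hy
    omega
  unfold rk Sys.cntw
  rw [← List.toFinset_card_of_nodup ((hv.nodup f0).filter _), ← Finset.card_union_of_disjoint]
  · refine Finset.card_le_card fun z hz => ?_
    simp only [Finset.mem_union, Finset.mem_filter, List.mem_toFinset, List.mem_filter,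
      decide_eq_true_eq] at hz ⊢
    rcases hz with hz | hz
    · exact ⟨hz.1, by omega⟩
    · exact ⟨hz.1, by omega⟩
  · rw [Finset.disjoint_left]
    intro z h1 h2
    simp only [Finset.mem_filter, List.mem_toFinset, List.mem_filter, decide_eq_true_eq] at h1 h2
    omega

theorem in_of_rk {lo hi p : ℤ} (hp : p ∈ D.mid f0) (h1 : rk D f0 lo ≤ rk D f0 p)
    (h2 : rk D f0 p < rk D f0 (hi + 1)) : lo ≤ p ∧ p ≤ hi := by
  constructor
  · by_contra h
    have := rk_lt (y' := lo) hp (by omega)
    omega
  · by_contra h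
    have := rk_mono (D := D) (f0 := f0) (y := hi + 1) (y' := p) (by omega)
    omega

end StripAux

open StripAux in
theorem strip : StripStmt := by
  intro ι V _ _ G D hv hr f0 lo hi w M hfree hw hc
  set C := 2 * Fintype.card V + 1 with hC
  set L := rk D f0 lo with hL
  set H := rk D f0 (hi + 1) with hH
  set c := 2 * C ^ 2 * M with hc'
  have hcw : (c + 5) * w = c * w + 5 * w := by ring
  have hLH : L + (c * w + 5 * w) ≤ H := by
    have := rk_cntw hv (f0 := f0) (lo := lo) (hi := hi) (by omega)
    omega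
  have hHP : H ≤ (D.mid f0).toFinset.card := Finset.card_le_card (Finset.filter_subset _ _)
  have hp : ∀ k, ∃ p, k < H → p ∈ D.mid f0 ∧ rk D f0 p = k := fun k => by
    by_cases hk : k < H
    · obtain ⟨p, h1, h2⟩ := rk_surj (D := D) (f0 := f0) (k := k) (by omega)
      exact ⟨p, fun _ => ⟨h1, h2⟩⟩
    · exact ⟨0, fun h => absurd h hk⟩
  choose p hp using hp
  have pin : ∀ k, L ≤ k → k < H → lo ≤ p k ∧ p k ≤ hi := fun k h1 h2 =>
    in_of_rk (hp k h2).1 (by rw [(hp k h2).2]; exact h1) (by rw [(hp k h2).2]; exact h2)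
  have live : ∀ k, L ≤ k → k + 1 < H → Live D f0 (true, p k, p (k + 1)) := by
    intro k h1 h2
    obtain ⟨a1, a2⟩ := hp k (by omega)
    obtain ⟨b1, b2⟩ := hp (k + 1) h2
    have i1 := pin k h1 (by omega)
    have i2 := pin (k + 1) (by omega) h2
    change Gap D f0 (p k) (p (k + 1))
    refine ⟨?_, a1, b1, fun y hy hb => ?_, fun x hx => hfree x ?_⟩
    · by_contra h
      have := rk_mono (D := D) (f0 := f0) (not_lt.1 h)
      omega
    · have := rk_lt a1 hb.1
      have := rk_lt hy hb.2
      omega
    · unfold InW at hx; omega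
  let In : St → Prop := fun σ => L + w ≤ rk D f0 σ.2.1 ∧ rk D f0 σ.2.1 + w < H
  have cnt := count (f := step D G f0) (Live := Live D f0) (Good := Good D G f0) (In := In)
    (live_step hv hr) (step_inj hv) (dies hv hr) (StripAux.code D G f0)
    (Finset.univ ×ˢ Finset.range C ×ˢ Finset.range C)
    (fun σ => Finset.mem_product.2 ⟨Finset.mem_univ _, Finset.mem_product.2
      ⟨Finset.mem_range.2 (cell_lt _), Finset.mem_range.2 (cell_lt _)⟩⟩) (code_inj hv hr) M
  have hB : (Finset.univ ×ˢ Finset.range C ×ˢ Finset.range C : Finset (Bool × ℕ × ℕ)).card * M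
      = c := by
    rw [Finset.card_product, Finset.card_product, Finset.card_range, Finset.card_univ,
      Fintype.card_bool, hc']
    ring
  rw [hB] at cnt
  have blk : ∀ i ≤ c, ∀ j ≤ w, L + w + i * w + j + w < H := fun i hi j hj => by
    have := Nat.mul_le_mul_right w hi
    omega
  obtain ⟨i, hi', hM⟩ : ∃ i ≤ c, ∀ j < w, M ≤ (visS (step D G f0) (Good D G f0) In
      (true, p (L + w + i * w + j), p (L + w + i * w + j + 1))).card := by
    by_contra hn
    push Not at hn
    choose! J hJ using hn
    have hinj : Set.InjOn (fun i => ((true, p (L + w + i * w + J i), p (L + w + i * w + J i + 1)) : St))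
        (Finset.range (c + 1) : Finset ℕ) := by
      intro i hi i' hi' e
      simp only [Finset.coe_range, Set.mem_Iio] at hi hi'
      simp only [Prod.mk.injEq, true_and] at e
      obtain ⟨j1, -⟩ := hJ i (by omega)
      obtain ⟨j2, -⟩ := hJ i' (by omega)
      have r1 := (hp _ (by have := blk i (by omega) _ j1.le; omega : L + w + i * w + J i < H)).2
      have r2 := (hp _ (by have := blk i' (by omega) _ j2.le; omega : L + w + i' * w + J i' < H)).2
      rw [e.1, r2] at r1
      rcases lt_trichotomy i i' with h | h | h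
      · have := Nat.mul_le_mul_right w (Nat.succ_le_of_lt h)
        rw [Nat.succ_mul] at this
        omega
      · exact h
      · have := Nat.mul_le_mul_right w (Nat.succ_le_of_lt h)
        rw [Nat.succ_mul] at this
        omega
    have := cnt ((Finset.range (c + 1)).image fun i =>
        ((true, p (L + w + i * w + J i), p (L + w + i * w + J i + 1)) : St)) (fun σ hσ => by
      obtain ⟨i, hi, rfl⟩ := Finset.mem_image.1 hσ
      rw [Finset.mem_range] at hi
      obtain ⟨j1, j2⟩ := hJ i (by omega)
      have b := blk i (by omega) _ j1.le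
      refine ⟨live _ (by omega) (by omega), ?_, j2⟩
      change L + w ≤ rk D f0 (p _) ∧ rk D f0 (p _) + w < H
      rw [(hp _ (by omega)).2]
      omega)
    rw [Finset.card_image_of_injOn hinj, Finset.card_range] at this
    omega
  set k0 := L + w + i * w with hk0
  have b := blk i hi'
  obtain ⟨j0, hj0, hmin⟩ := Finset.exists_min_image (Finset.range w)
    (fun j => tau (step D G f0) (Good D G f0) (true, p (k0 + j), p (k0 + j + 1)))
    ⟨0, Finset.mem_range.2 hw⟩
  rw [Finset.mem_range] at hj0
  set T := tau (step D G f0) (Good D G f0) (true, p (k0 + j0), p (k0 + j0 + 1)) with hT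
  let s : ℕ → ℕ → ℤ := fun j t => st D G f0 true (p (k0 + j)) t
  have gap : ∀ j < w, ∀ t ≤ T, Live D f0 (pg t, s j t, s (j + 1) t) := by
    intro j hj t ht
    have := live_iter (live_step hv hr) (live (k0 + j) (by omega) (by have := b j hj.le; omega))
      (ht.trans (hmin j (Finset.mem_range.2 hj)))
    rwa [iter_step, ← pg_eq] at this
  have mem : ∀ j ≤ w, ∀ t ≤ T, s j t ∈ D.mid f0 := by
    intro j hj t ht
    rcases hj.eq_or_lt with rfl | hj
    · have := (gap (j - 1) (by omega) t ht).mem.2
      rwa [show j - 1 + 1 = j by omega] at this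
    · exact (gap j hj t ht).mem.1
  have ge : ∀ j < w, ∀ t ≤ T, t % 2 = 0 → Gap D f0 (s j t) (s (j + 1) t) := by
    intro j hj t ht h
    have := gap j hj t ht
    simpa [Live, pg, h] using this
  have go : ∀ j < w, ∀ t ≤ T, ¬ t % 2 = 0 → Gap D f0 (s (j + 1) t) (s j t) := by
    intro j hj t ht h
    have := gap j hj t ht
    simpa [Live, pg, h] using this
  have fr : ∀ t ≤ T, ∀ j, j < w → Free D (s 0 t) (s (j + 1) t) := by
    intro t ht j hj
    have f1 : ∀ j < w, Free D (s j t) (s (j + 1) t) := fun j hj => by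
      by_cases h : t % 2 = 0
      · exact (ge j hj t ht h).free
      · exact (go j hj t ht h).free.symm
    induction j with
    | zero => exact f1 0 hj
    | succ j ih =>
      intro x hx
      have := ih (by omega) x
      have := f1 (j + 1) hj x
      unfold InW at *
      omega
  have rr : ∀ t ≤ T, ∀ j ≤ w, if t % 2 = 0 then rk D f0 (s j t) = rk D f0 (s 0 t) + j else
      rk D f0 (s j t) + j = rk D f0 (s 0 t) := by
    intro t ht j hj
    induction j with
    | zero => simp
    | succ j ih =>
      have := ih (by omega)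
      split_ifs at this ⊢ with h
      · have := (ge j (by omega) t ht h).rk
        omega
      · have := (go j (by omega) t ht h).rk
        omega
  refine ⟨T, s, mem, fun j hj t ht => ?_, fun j hj t ht => ?_, fun t ht => ?_, fun j hj => ?_,
    ⟨_, hM j0 hj0, fun t ht => ?_⟩⟩
  · rw [pg_eq]; exact nx_ch (mem j hj t ht.le) _
  · split_ifs with h
    · exact (ge j hj t ht h).lt
    · exact (go j hj t ht h).lt
  · have := fr t ht (w - 1) (by omega)
    rwa [show w - 1 + 1 = w by omega] at this
  · exact pin (k0 + j) (by omega) (by have := b j hj; omega)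
  · simp only [visS, Finset.mem_filter, Finset.mem_range] at ht
    obtain ⟨h1, h2⟩ := ht
    rw [iter_step] at h2
    change L + w ≤ rk D f0 (s j0 t) ∧ rk D f0 (s j0 t) + w < H at h2
    have ht : t ≤ T := by omega
    refine ⟨ht, fun j hj => ?_⟩
    have r1 := rr t ht j hj
    have r2 := rr t ht j0 hj0.le
    refine in_of_rk (mem j hj t ht) ?_ ?_ <;> split_ifs at r1 r2 <;> omega

end Pool.Agent.MP_17db17_lc.H93
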