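import Pool.Agent.MP_17db17_lc.H93.Basic

set_option autoImplicit false

namespace Pool.Agent.MP_17db17_lc.H93

namespace Sym

/-- weighted boundary -/
def wb (C : List (Chord ℤ)) (w : Chord ℤ → ℤ) (φ : ℤ → ℤ) : ℤ :=
  (C.map fun c => w c * (φ c.2.2 - φ c.2.1)).sum

/-- pairing of two chords that forgets the pages -/
def pr (c d : Chord ℤ) : ℤ :=
  (ind c.2.2 d.2.2 - ind c.2.2 d.2.1) - (ind c.2.1 d.2.2 - ind c.2.1 d.2.1)

/-- double sum -/
def ds (F G : List (Chord ℤ)) (h : Chord ℤ → Chord ℤ → ℤ) : ℤ :=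
  (F.map fun c => (G.map fun d => h c d).sum).sum

theorem ds_swap (F G : List (Chord ℤ)) (h : Chord ℤ → Chord ℤ → ℤ) :
    ds F G h = ds G F fun d c => h c d := by
  unfold ds
  induction F with
  | nil => simp
  | cons c F ih => simp only [List.map_cons, List.sum_cons, ih, List.sum_map_add]

theorem ds_add (F G : List (Chord ℤ)) (h h' : Chord ℤ → Chord ℤ → ℤ) :
    ds F G h + ds F G h' = ds F G fun c d => h c d + h' c d := by
  simp only [ds, List.sum_map_add]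

theorem ds_congr {F G : List (Chord ℤ)} {h h' : Chord ℤ → Chord ℤ → ℤ}
    (e : ∀ c ∈ F, ∀ d ∈ G, h c d = h' c d) : ds F G h = ds F G h' := by
  unfold ds
  congr 1
  refine List.map_congr_left fun c hc => ?_
  congr 1
  exact List.map_congr_left fun d hd => e c hc d hd

theorem ds_zero (F G : List (Chord ℤ)) : (ds F G fun _ _ => 0) = 0 := by simp [ds]

theorem wb_sub (C : List (Chord ℤ)) (w : Chord ℤ → ℤ) (φ ψ : ℤ → ℤ) :
    wb C w φ - wb C w ψ = wb C w fun y => φ y - ψ y := by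
  unfold wb
  induction C with
  | nil => simp
  | cons c C ih => simp only [List.map_cons, List.sum_cons, ← ih]; ring

theorem wb_const (C : List (Chord ℤ)) (w : Chord ℤ → ℤ) (k : ℤ) : (wb C w fun _ => k) = 0 := by
  simp [wb]

theorem wb_wb (F G : List (Chord ℤ)) (w w' : Chord ℤ → ℤ) :
    (wb F w fun z => wb G w' (ind z)) = ds F G fun c d => w c * w' d * pr c d := by
  unfold ds
  conv_lhs => unfold wb
  congr 1
  refine List.map_congr_left fun c _ => ?_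
  induction G with
  | nil => simp
  | cons d G ih =>
    simp only [List.map_cons, List.sum_cons] at ih ⊢
    rw [← ih, pr]
    ring

theorem pr_swap {c d : Chord ℤ}
    (h : c.2.1 ≠ d.2.1 ∧ c.2.1 ≠ d.2.2 ∧ c.2.2 ≠ d.2.1 ∧ c.2.2 ≠ d.2.2) : pr d c = -pr c d := by
  obtain ⟨a1, a2, a3, a4⟩ := h
  have := ind_add_ind a1; have := ind_add_ind a2
  have := ind_add_ind a3; have := ind_add_ind a4
  unfold pr
  omega

theorem pr_eq_zero {c d : Chord ℤ} (h0 : c.1 = d.1)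
    (h : c.2.1 ≠ d.2.1 ∧ c.2.1 ≠ d.2.2 ∧ c.2.2 ≠ d.2.1 ∧ c.2.2 ≠ d.2.2) (hx : ¬ Cross c d) :
    pr c d = 0 := by
  have h1 := (xs_eq_zero_iff fun _ => h).2 hx
  unfold xs at h1
  rw [if_pos h0] at h1
  unfold pr
  split_ifs at h1 <;> omega

theorem bd_eq_wb (C : List (Chord ℤ)) (φ : ℤ → ℤ) : bd C φ = wb C (fun _ => 1) φ := by
  simp [bd, wb]

theorem covL_filter (C : List (Chord ℤ)) (P : Chord ℤ → Bool) (z : ℤ) :
    covL true (C.filter P) z = wb C (fun c => if P c = true ∧ c.1 = true then 1 else 0) (ind z) := by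
  unfold wb
  induction C with
  | nil => simp
  | cons c C ih =>
    rw [List.map_cons, List.sum_cons, ← ih]
    cases h : P c
    · simp [h]
    · rw [List.filter_cons_of_pos h, covL_cons]
      cases h' : c.1 <;> simp [h, h']

/-- telescoping with a weight that is a function of the end points -/
theorem wb_path {b : Bool} {x : ℤ} {m : List ℤ} {y : ℤ} {w : Chord ℤ → ℤ} {φ κ : ℤ → ℤ}
    (h : ∀ c ∈ chords b (x :: (m ++ [y])),
      w c * φ c.2.1 = κ c.2.1 * φ c.2.1 ∧ w c * φ c.2.2 = κ c.2.2 * φ c.2.2)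
    (hx : κ x = 0) (hy : κ y = 0) : wb (chords b (x :: (m ++ [y]))) w φ = 0 := by
  have h1 := sum_chords (fun z => κ z * φ z) b x m y
  simp only [hx, hy, zero_mul, sub_zero] at h1
  rw [← h1]
  unfold wb
  congr 1
  refine List.map_congr_left fun c hc => ?_
  rw [mul_sub, (h c hc).1, (h c hc).2]

/-- covering principle -/
theorem cover {π : Bool} {p q r s u v : ℤ} (hx : Cross (π, p, q) (π, r, s))
    (h1 : ¬ Cross (π, u, v) (π, p, q)) (h2 : ¬ Cross (π, u, v) (π, r, s))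
    (a1 : p ≠ u) (a2 : p ≠ v) (a3 : q ≠ u) (a4 : q ≠ v) (a5 : r ≠ u) (a6 : r ≠ v) (a7 : s ≠ u)
    (a8 : s ≠ v) : ind p v - ind p u = ind r v - ind r u := by
  rw [not_cross_iff a1 a2 a3 a4] at h1
  rw [not_cross_iff a5 a6 a7 a8] at h2
  simp only [Cross, Btw, Out, true_and] at hx
  unfold ind at h1 h2 ⊢
  split_ifs at h1 h2 ⊢ <;> omega

section leaf

variable (b : Bool) (a : ℤ) (M : List ℤ) (a' : ℤ)

/-- indicator of the odd upper sheet -/
def up (z : ℤ) : ℤ := if Odd (cov true b (a :: (M ++ [a'])) z) then 1 else 0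

/-- odd chords -/
def wo (c : Chord ℤ) : ℤ := if oddC b (a :: (M ++ [a'])) c = true then 1 else 0

/-- odd upper chords and even lower chords -/
def wt (c : Chord ℤ) : ℤ := if oddC b (a :: (M ++ [a'])) c = c.1 then 1 else 0

/-- the path avoids the leaf -/
structure Av (f : Piece ℤ) : Prop where
  pts : ∀ y ∈ f.l, y ∉ a :: (M ++ [a'])
  nc : NoCross b (a :: (M ++ [a'])) f.1 f.l
  s : Even (cov true b (a :: (M ++ [a'])) f.2.1)
  t : Even (cov true b (a :: (M ++ [a'])) f.2.2.2)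

variable {b a M a'}

theorem Av.ne {f : Piece ℤ} (h : Av b a M a' f) {c : Chord ℤ} (hc : c ∈ chords f.1 f.l)
    {e : Chord ℤ} (he : e ∈ chords b (a :: (M ++ [a']))) :
    c.2.1 ≠ e.2.1 ∧ c.2.1 ≠ e.2.2 ∧ c.2.2 ≠ e.2.1 ∧ c.2.2 ≠ e.2.2 := by
  obtain ⟨h1, h2⟩ := mem_of_mem_chords hc
  obtain ⟨h3, h4⟩ := mem_of_mem_chords he
  exact ⟨fun e => h.pts _ h1 (e ▸ h3), fun e => h.pts _ h1 (e ▸ h4), fun e => h.pts _ h2 (e ▸ h3),
    fun e => h.pts _ h2 (e ▸ h4)⟩

theorem Av.cov_eq {f : Piece ℤ} (h : Av b a M a' f) {c : Chord ℤ} (hc : c ∈ chords f.1 f.l) :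
    cov c.1 b (a :: (M ++ [a'])) c.2.1 = cov c.1 b (a :: (M ++ [a'])) c.2.2 :=
  covL_eq_of_not_cross (fun e he => h.nc e he c hc) fun _ he _ => h.ne hc he

theorem up_s {f : Piece ℤ} (h : Av b a M a' f) : up b a M a' f.2.1 = 0 :=
  if_neg (Int.not_odd_iff_even.2 h.s)

theorem up_t {f : Piece ℤ} (h : Av b a M a' f) : up b a M a' f.2.2.2 = 0 :=
  if_neg (Int.not_odd_iff_even.2 h.t)

theorem wo_eq {c : Chord ℤ} {z : ℤ}
    (h : cov c.1 b (a :: (M ++ [a'])) c.2.1 = cov c.1 b (a :: (M ++ [a'])) z)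
    (hz : ind z a' = ind z a) : wo b a M a' c = up b a M a' z := by
  have h1 := cov_add b a M a' z
  unfold wo up oddC
  rw [h]
  cases c.1
  · simp only [decide_eq_true_eq, Int.odd_iff]
    split_ifs <;> omega
  · simp only [decide_eq_true_eq]

theorem wt_eq {c : Chord ℤ} {z : ℤ}
    (h : cov c.1 b (a :: (M ++ [a'])) c.2.1 = cov c.1 b (a :: (M ++ [a'])) z)
    (hz : ind z a' ≠ ind z a) : wt b a M a' c = up b a M a' z := by
  have h1 := cov_add b a M a' z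
  unfold wt up oddC
  rw [h]
  unfold ind at hz h1
  cases c.1
  · simp only [decide_eq_false_iff_not, Int.odd_iff]
    split_ifs at hz h1 ⊢ <;> omega
  · simp only [decide_eq_true_eq]

/-- the boundary of the odd chords lies in the window -/
theorem wb_wo {f : Piece ℤ} (h : Av b a M a' f) {φ : ℤ → ℤ}
    (hφ : ∀ z, ind z a' ≠ ind z a → φ z = 0) : wb (chords f.1 f.l) (wo b a M a') φ = 0 := by
  refine wb_path (κ := up b a M a') (fun c hc => ⟨?_, ?_⟩) (up_s h) (up_t h)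
  · by_cases hz : ind c.2.1 a' = ind c.2.1 a
    · rw [wo_eq rfl hz]
    · rw [hφ _ hz, mul_zero, mul_zero]
  · by_cases hz : ind c.2.2 a' = ind c.2.2 a
    · rw [wo_eq (h.cov_eq hc) hz]
    · rw [hφ _ hz, mul_zero, mul_zero]

/-- the boundary of the odd upper and even lower chords lies outside the window -/
theorem wb_wt {f : Piece ℤ} (h : Av b a M a' f) {φ : ℤ → ℤ}
    (hφ : ∀ z, ind z a' = ind z a → φ z = 0) : wb (chords f.1 f.l) (wt b a M a') φ = 0 := by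
  refine wb_path (κ := up b a M a') (fun c hc => ⟨?_, ?_⟩) (up_s h) (up_t h)
  · by_cases hz : ind c.2.1 a' = ind c.2.1 a
    · rw [hφ _ hz, mul_zero, mul_zero]
    · rw [wt_eq rfl hz]
  · by_cases hz : ind c.2.2 a' = ind c.2.2 a
    · rw [hφ _ hz, mul_zero, mul_zero]
    · rw [wt_eq (h.cov_eq hc) hz]

theorem ds_wo_wt {f g : Piece ℤ} (hf : Av b a M a' f) (hg : Av b a M a' g) :
    (ds (chords f.1 f.l) (chords g.1 g.l) fun c d =>
      wo b a M a' c * wt b a M a' d * pr c d) = 0 := by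
  rw [← wb_wb]
  have h1 := wb_sub (chords f.1 f.l) (wo b a M a')
    (fun z => wb (chords g.1 g.l) (wt b a M a') (ind z))
    (fun _ => wb (chords g.1 g.l) (wt b a M a') (ind (min a a')))
  rw [wb_const, sub_zero] at h1
  rw [h1]
  refine wb_wo hf fun z hz => ?_
  rw [wb_sub]
  refine wb_wt hg fun y hy => ?_
  unfold ind at hz hy ⊢
  split_ifs at hz hy ⊢ <;> omega

theorem pr_odd_even {f g : Piece ℤ} (hf : Av b a M a' f) (hg : Av b a M a' g)
    {c d : Chord ℤ} (hc : c ∈ chords f.1 f.l) (hd : d ∈ chords g.1 g.l) (h0 : c.1 = d.1)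
    (h : c.2.1 ≠ d.2.1 ∧ c.2.1 ≠ d.2.2 ∧ c.2.2 ≠ d.2.1 ∧ c.2.2 ≠ d.2.2)
    (ho : oddC b (a :: (M ++ [a'])) c ≠ oddC b (a :: (M ++ [a'])) d) : pr c d = 0 := by
  refine pr_eq_zero h0 h fun hx => ho ?_
  obtain ⟨π, p, q⟩ := c
  obtain ⟨π', r, s⟩ := d
  obtain rfl : π = π' := h0
  have : cov π b (a :: (M ++ [a'])) p = cov π b (a :: (M ++ [a'])) r := by
    refine covL_congr fun e he h1 => ?_
    obtain ⟨π', u, v⟩ := e
    obtain rfl : π' = π := h1
    obtain ⟨a1, a2, a3, a4⟩ := hf.ne hc he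
    obtain ⟨a5, a6, a7, a8⟩ := hg.ne hd he
    exact cover hx (hf.nc _ he _ hc) (hg.nc _ he _ hd) a1 a2 a3 a4 a5 a6 a7 a8
  unfold oddC
  simp only [this]

theorem wodd_sub (f g : Piece ℤ) :
    wodd b (a :: (M ++ [a'])) f.1 f.l g.2.2.2 - wodd b (a :: (M ++ [a'])) f.1 f.l g.2.1 =
      ds (chords g.1 g.l) (chords f.1 f.l) fun d c =>
        1 * (if oddC b (a :: (M ++ [a'])) c = true ∧ c.1 = true then 1 else 0) * pr d c := by
  rw [← wb_wb, ← bd_eq_wb, Piece.l, Piece.l, bd_path]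
  unfold wodd
  rw [covL_filter, covL_filter]

end leaf

end Sym

theorem sym : SymStmt := by
  intro b a M a' f g h1 h2 h3 h4 h5 h6 h7 h8 h9
  have hf : Sym.Av b a M a' f := ⟨h1, h4, h6, h7⟩
  have hg : Sym.Av b a M a' g := ⟨h2, h5, h8, h9⟩
  have hne : ∀ c ∈ chords f.1 f.l, ∀ d ∈ chords g.1 g.l,
      c.2.1 ≠ d.2.1 ∧ c.2.1 ≠ d.2.2 ∧ c.2.2 ≠ d.2.1 ∧ c.2.2 ≠ d.2.2 := by
    intro c hc d hd
    obtain ⟨a1, a2⟩ := mem_of_mem_chords hc
    obtain ⟨a3, a4⟩ := mem_of_mem_chords hd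
    exact ⟨fun e => h3 _ a1 (e ▸ a3), fun e => h3 _ a1 (e ▸ a4), fun e => h3 _ a2 (e ▸ a3),
      fun e => h3 _ a2 (e ▸ a4)⟩
  have e1 := Sym.ds_wo_wt hf hg
  have e2 := Sym.ds_wo_wt hg hf
  rw [Sym.ds_swap] at e2
  rw [Sym.wodd_sub f g, Sym.wodd_sub g f, Sym.ds_swap]
  refine (add_zero _).symm.trans (((congrArg _ e1.symm).trans ?_).trans
    ((congrArg _ e2).trans (add_zero _)))
  rw [Sym.ds_add, Sym.ds_add]
  refine Sym.ds_congr fun c hc d hd => ?_
  rw [Sym.pr_swap (hne c hc d hd)]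
  have h := fun h0 => Sym.pr_odd_even hf hg hc hd h0 (hne c hc d hd)
  unfold Sym.wo Sym.wt
  revert h
  cases c.1 <;> cases d.1 <;> cases oddC b (a :: (M ++ [a'])) c <;>
    cases oddC b (a :: (M ++ [a'])) d <;> simp [eq_comm]

end Pool.Agent.MP_17db17_lc.H93
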