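import Pool.Agent.MP_17db17_lc.H93.Basic

/-!
Tables of chord counts, the enumeration of the edges of a matrix, and the passage between drawings
and two page systems.
-/

set_option autoImplicit false

namespace Pool.Agent.MP_17db17_lc.H93

namespace Tab

lemma cell_lt (vp : List ℤ) (p : ℤ) : cell vp p < 2 * vp.length + 1 := by
  unfold cell
  split_ifs with h
  · have : (vp.filter fun v => decide (v < p)).length < vp.length :=
      List.length_filter_lt_length_iff_exists.2 ⟨p, h, by simp⟩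
    omega
  · have := List.length_filter_le (fun v => decide (v < p)) vp
    omega

lemma dig {C p a p' a' : ℕ} (ha : a < C) (ha' : a' < C) (h : p * C + a = p' * C + a') :
    p = p' ∧ a = a' := by
  have e : a = a' := by
    rw [← Nat.mul_add_mod_of_lt (a := p) ha, h, Nat.mul_add_mod_of_lt ha']
  subst e
  exact ⟨Nat.eq_of_mul_eq_mul_right (by omega) (Nat.add_right_cancel h), rfl⟩

lemma code_inj {C : ℕ} {π π' : Bool} {a b a' b' : ℕ} (ha : a < C) (hb : b < C) (ha' : a' < C)
    (hb' : b' < C) : code C π a b = code C π' a' b' ↔ π = π' ∧ a = a' ∧ b = b' := by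
  refine ⟨fun h => ?_, by rintro ⟨rfl, rfl, rfl⟩; rfl⟩
  obtain ⟨h1, h2⟩ := dig hb hb' h
  obtain ⟨h3, h4⟩ := dig ha ha' h1
  refine ⟨?_, h4, h2⟩
  cases π <;> cases π' <;> simp_all

lemma code_lt {C : ℕ} (π : Bool) {a b : ℕ} (ha : a < C) (hb : b < C) :
    code C π a b < 2 * C * C := by
  have h0 : π.toNat ≤ 1 := Bool.toNat_le π
  unfold code
  have h1 : π.toNat * C + a + 1 ≤ 2 * C := by nlinarith
  nlinarith

lemma sum_range (n : ℕ) (f : ℕ → ℤ) :
    ((List.range n).map f).sum = ∑ i ∈ Finset.range n, f i := rfl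

/-- Grouping a sum over chords by the type of the chord. -/
lemma group (vp : List ℤ) (f : ℕ → ℕ → ℤ) (L : List (Chord ℤ)) :
    (L.map fun c => if c.1 = true then f (cell vp c.2.1) (cell vp c.2.2) else 0).sum =
      ∑ a ∈ Finset.range (2 * vp.length + 1), ∑ b ∈ Finset.range (2 * vp.length + 1),
        ((L.filter fun c => decide (code (2 * vp.length + 1) c.1 (cell vp c.2.1) (cell vp c.2.2) =
          code (2 * vp.length + 1) true a b)).length : ℤ) * f a b := by
  induction L with
  | nil => simp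
  | cons c L ih =>
    have h1 := cell_lt vp c.2.1
    have h2 := cell_lt vp c.2.2
    have e : (if c.1 = true then f (cell vp c.2.1) (cell vp c.2.2) else 0) =
        ∑ a ∈ Finset.range (2 * vp.length + 1), ∑ b ∈ Finset.range (2 * vp.length + 1),
          if c.1 = true ∧ cell vp c.2.1 = a ∧ cell vp c.2.2 = b then f a b else 0 := by
      rw [Finset.sum_eq_single_of_mem _ (Finset.mem_range.2 h1),
        Finset.sum_eq_single_of_mem _ (Finset.mem_range.2 h2)]
      · simp
      · exact fun b _ hb => if_neg fun h => hb h.2.2.symm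
      · exact fun a _ ha => Finset.sum_eq_zero fun b _ => if_neg fun h => ha h.2.1.symm
    rw [List.map_cons, List.sum_cons, ih, e, ← Finset.sum_add_distrib]
    refine Finset.sum_congr rfl fun a ha => ?_
    rw [← Finset.sum_add_distrib]
    refine Finset.sum_congr rfl fun b hb => ?_
    simp only [List.filter_cons, decide_eq_true_eq,
      code_inj h1 h2 (Finset.mem_range.1 ha) (Finset.mem_range.1 hb)]
    split_ifs
    · rw [List.length_cons, Nat.cast_succ]
      ring
    · rw [zero_add]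

lemma getD_sorted : ∀ (l : List ℤ), l.Pairwise (· < ·) → ∀ a ∈ l,
    l.getD (l.filter fun v => decide (v < a)).length 0 = a
  | [], _, a, ha => by simp at ha
  | b :: l, h, a, ha => by
    rw [List.pairwise_cons] at h
    rcases List.mem_cons.1 ha with rfl | ha
    · rw [List.filter_eq_nil_iff.2]
      · rfl
      · intro c hc
        rcases List.mem_cons.1 hc with rfl | hc
        · simp
        · simpa using (h.1 c hc).le
    · rw [List.filter_cons_of_pos (by simpa using h.1 a ha)]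
      exact getD_sorted l h.2 a ha

variable {ι V : Type} [Fintype V] (D : Sys ι V ℤ)

open Classical in
lemma filter_vp (h : Function.Injective D.pos) (q : ℤ) :
    (D.vp.filter fun v => decide (v < q)).length =
      (Finset.univ.filter fun y => D.pos y < q).card := by
  rw [← Finset.card_image_of_injective _ h, Sys.vp,
    ← List.toFinset_card_of_nodup ((Finset.sort_nodup _ _).filter _)]
  congr 1
  ext v
  simp only [List.mem_toFinset, List.mem_filter, Finset.mem_sort, Finset.mem_image,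
    Finset.mem_univ, true_and, decide_eq_true_eq, Finset.mem_filter]
  constructor
  · rintro ⟨⟨y, rfl⟩, hy⟩
    exact ⟨y, hy, rfl⟩
  · rintro ⟨y, hy, rfl⟩
    exact ⟨⟨y, rfl⟩, hy⟩

open Classical in
lemma lt_iff (x : V) (q : ℤ) :
    D.pos x < q ↔ D.rk x < (Finset.univ.filter fun y => D.pos y < q).card := by
  refine ⟨fun h => Finset.card_lt_card ⟨fun y hy => ?_, fun h' => ?_⟩, fun h => ?_⟩
  · simp only [Finset.mem_filter, Finset.mem_univ, true_and] at hy ⊢
    exact hy.trans h
  · have := h' (Finset.mem_filter.2 ⟨Finset.mem_univ x, h⟩)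
    simp at this
  · by_contra h'
    refine absurd h (not_lt.2 (Finset.card_le_card fun y hy => ?_))
    simp only [Finset.mem_filter, Finset.mem_univ, true_and] at hy ⊢
    omega

lemma ind_eq (h : Function.Injective D.pos) (x : V) (q : ℤ) :
    ind (D.pos x) q = if 2 * D.rk x + 1 < cell D.vp q then 1 else 0 := by
  refine if_congr ?_ rfl rfl
  rw [lt_iff, cell, filter_vp D h]
  split_ifs <;> omega

/-- Renaming of the elements. -/
lemma mreal_equiv {ι ι' V : Type} [Fintype ι] [Fintype ι'] [LinearOrder V] {G : Gr ι V}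
    {G' : Gr ι' V} (φ : ι' ≃ ι) (hs : ∀ e, G'.s e = G.s (φ e)) (ht : ∀ e, G'.t e = G.t (φ e))
    (hH : ∀ e e', G'.H e e' ↔ G.H (φ e) (φ e')) {k : ℕ} (h : MReal G k) : MReal G' k := by
  classical
  obtain ⟨D, h1, h2⟩ := h
  have r : ComapOK G' G φ id :=
    ⟨φ.injective, Function.injective_id, hs, ht, fun e e' => (hH e e').1⟩
  refine ⟨D.comap φ id, r.valid h1, le_of_eq_of_le ?_ h2⟩
  unfold Sys.cost
  refine Fintype.sum_equiv φ _ _ fun f => Fintype.sum_equiv φ _ _ fun g => ?_
  rw [r.alg, hs, hs]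
  simp only [hH]

lemma mem_EL {A : List (List Bool)} {p : ℕ × ℕ} : p ∈ EL A ↔ p.1 < A.length ∧ p.2 < A.length ∧
    p.1 < p.2 ∧ ((A.getD p.1 []).getD p.2 false = true ∨ (A.getD p.2 []).getD p.1 false = true) := by
  obtain ⟨i, j⟩ := p
  simp only [EL, List.mem_filter, List.mem_flatMap, List.mem_range, List.mem_map, Prod.mk.injEq,
    Bool.and_eq_true, decide_eq_true_eq, Bool.or_eq_true]
  constructor
  · rintro ⟨⟨a, h1, b, h2, rfl, rfl⟩, h3⟩
    exact ⟨h1, h2, h3⟩
  · rintro ⟨h1, h2, h3⟩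
    exact ⟨⟨i, h1, j, h2, rfl, rfl⟩, h3⟩

lemma good (A : List (List Bool)) : GoodE A.length (EL A) where
  lt _ hp := (mem_EL.1 hp).2.2.1
  bd _ hp := ⟨(mem_EL.1 hp).1, (mem_EL.1 hp).2.1⟩
  nodup := (List.Nodup.product List.nodup_range List.nodup_range).filter _

lemma simple {n : ℕ} (G : SimpleGraph (Fin n)) : (grE G).Simple where
  adj _ _ := Iff.rfl
  loop e := e.2.1.ne
  par e e' h := by
    refine ⟨h.1, fun h' => h.1 (Subtype.ext (Prod.ext h'.1 h'.2)), fun h' => ?_⟩
    have h1 : e.1.1 = e'.1.2 := h'.1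
    have h2 : e.1.2 = e'.1.1 := h'.2
    exact lt_asymm e.2.1 (h1 ▸ h2 ▸ e'.2.1)

lemma algCross_zero {l l' : List Pt} (h : ∀ z, ¬ ProperCrossing l l' z) : algCross l l' = 0 := by
  refine List.sum_eq_zero fun _ hx => ?_
  obtain ⟨p, hp, rfl⟩ := List.mem_map.1 hx
  refine List.sum_eq_zero fun _ hy => ?_
  obtain ⟨q, hq, rfl⟩ := List.mem_map.1 hy
  unfold crossSign
  split_ifs with h1
  · obtain ⟨z, h2, h3⟩ := h1
    have : det (p.2 - p.1) (q.2 - q.1) = 0 := by
      by_contra h4
      exact h z ⟨p, hp, q, hq, h2, h3, h4⟩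
    rw [this, sign_zero]
    rfl
  · rfl

lemma acr_eq {n : ℕ} {G : SimpleGraph (Fin n)} {d : Drawing (Edge G) (Fin n)}
    (hd : d.IsPlus Edge.src Edge.tgt) {D : Sys (Edge G) (Fin n) ℤ}
    (h : ∀ e f, e ≠ f → ¬ (grE G).H e f →
      (algCross (d.arc Edge.src Edge.tgt e) (d.arc Edge.src Edge.tgt f)).natAbs =
        (D.alg (grE G) e f).natAbs) :
    acr d = @Sys.cost _ _ _ _ (Fintype.ofFinite _) _ D (grE G) := by
  classical
  unfold acr Sys.cost
  refine Finset.sum_congr (by ext; simp) fun e _ => Finset.sum_congr (by ext; simp) fun f _ => ?_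
  by_cases hH : (grE G).H e f
  · rw [algCross_zero (hd.plus e f hH.1 hH.2)]
    simp [hH]
  · by_cases hef : e = f
    · subst hef
      simp
    · have hne : e.1.1 ≠ f.1.1 := fun h' => hH ⟨hef, e.src, Or.inl rfl, Or.inl h'⟩
      rw [h e f hef hH]
      have : toLex e.1 < toLex f.1 ↔ (grE G).s e < (grE G).s f ∧ ¬ (grE G).H e f := by
        rw [Prod.Lex.toLex_lt_toLex]
        exact ⟨fun h' => ⟨h'.resolve_right fun h2 => hne h2.1, hH⟩, fun h' => Or.inl h'.1⟩
      simp only [this]

end Tab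

theorem tab : TabStmt := by
  intro ι V _ G D h
  classical
  have hl : D.vp.length = Fintype.card V := by
    rw [Sys.vp, Finset.length_sort, Finset.card_image_of_injective _ h, Finset.card_univ]
  refine ⟨hl, fun x => ?_, fun x y => Tab.lt_iff D x _, fun x => ?_, fun e x => ?_⟩
  · refine Finset.card_lt_card ⟨Finset.subset_univ _, fun h' => ?_⟩
    have := h' (Finset.mem_univ x)
    simp at this
  · rw [Sys.rk, ← Tab.filter_vp D h]
    refine Tab.getD_sorted _ ?_ _ (by simp [Sys.vp])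
    exact ((Finset.pairwise_sort _ _).and (Finset.sort_nodup _ _)).imp fun h => lt_of_le_of_ne h.1 h.2
  · simp only [Sys.cv, cov, covL, Tab.ind_eq D h]
    rw [Tab.group D.vp fun a b =>
      (if 2 * D.rk x + 1 < b then 1 else 0) - (if 2 * D.rk x + 1 < a then 1 else 0), cvOf,
      Tab.sum_range, ← hl]
    refine Finset.sum_congr rfl fun a ha => ?_
    rw [Tab.sum_range]
    refine Finset.sum_congr rfl fun b hb => ?_
    have h1 : code (2 * D.vp.length + 1) true a b < tsz D.vp :=
      Tab.code_lt _ (Finset.mem_range.1 ha) (Finset.mem_range.1 hb)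
    rw [Sys.tab, List.getD_eq_getElem _ _ (by simpa using h1), List.getElem_map,
      List.getElem_range, cnt]

theorem enumS : EnumStmt := by
  intro A
  have h := Tab.good A
  refine ⟨h, fun k => ?_⟩
  let _ : Fintype (Edge (graphOf A)) := Fintype.ofFinite _
  have hm : ∀ e : Fin (EL A).length, (EL A).getD e (0, 0) ∈ EL A := fun e => by
    rw [List.getD_eq_getElem _ _ e.2]
    exact List.getElem_mem _
  let f : Fin (EL A).length → Edge (graphOf A) := fun e =>
    ⟨(⟨_, (h.bd _ (hm e)).1⟩, ⟨_, (h.bd _ (hm e)).2⟩), h.lt _ (hm e),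
      (SimpleGraph.fromRel_adj _ _ _).2
        ⟨Fin.ne_of_val_ne (h.lt _ (hm e)).ne, (Tab.mem_EL.1 (hm e)).2.2.2⟩⟩
  have hf : Function.Bijective f := by
    refine ⟨fun e e' he => ?_, fun p => ?_⟩
    · have h1 : (EL A).getD e (0, 0) = (EL A).getD e' (0, 0) :=
        Prod.ext (congrArg (fun p : Edge (graphOf A) => p.1.1.1) he)
          (congrArg (fun p : Edge (graphOf A) => p.1.2.1) he)
      rw [List.getD_eq_getElem _ _ e.2, List.getD_eq_getElem _ _ e'.2] at h1
      exact Fin.ext (h.nodup.getElem_inj_iff.1 h1)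
    · obtain ⟨i, hi, e⟩ := List.getElem_of_mem ((Tab.mem_EL (p := (p.1.1.1, p.1.2.1))).2
        ⟨p.1.1.2, p.1.2.2, p.2.1, ((SimpleGraph.fromRel_adj _ _ _).1 p.2.2).2⟩)
      rw [← List.getD_eq_getElem _ (0, 0) hi] at e
      exact ⟨⟨i, hi⟩, Subtype.ext (Prod.ext (Fin.ext (congrArg Prod.fst e))
        (Fin.ext (congrArg Prod.snd e)))⟩
  let φ := Equiv.ofBijective f hf
  have hH : ∀ e e' : Fin (EL A).length, (ngOf A.length (EL A) h.bd).gr.H e e' ↔
      (grE (graphOf A)).H (φ e) (φ e') := fun e e' => by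
    change adjN (EL A) e e' = true ↔ f e ≠ f e' ∧ ∃ x, (x = (f e).1.1 ∨ x = (f e).1.2) ∧
      (x = (f e').1.1 ∨ x = (f e').1.2)
    simp only [or_and_right, exists_or, exists_eq_left]
    simp only [adjN, Bool.and_eq_true, Bool.or_eq_true, decide_eq_true_eq, hf.1.eq_iff,
      Fin.ext_iff, ne_eq, or_assoc]
    rfl
  refine ⟨Tab.mreal_equiv φ.symm (fun e => ?_) (fun e => ?_) fun e e' => ?_,
    Tab.mreal_equiv φ (fun _ => rfl) (fun _ => rfl) hH⟩
  · conv_lhs => rw [← φ.apply_symm_apply e]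
    rfl
  · conv_lhs => rw [← φ.apply_symm_apply e]
    rfl
  · rw [hH, φ.apply_symm_apply, φ.apply_symm_apply]

theorem bridge : G1Stmt → G2Stmt → BridgeStmt := by
  intro g1 g2 n G k
  let _ : Fintype (Edge G) := Fintype.ofFinite _
  constructor
  · rintro ⟨d, hd, hk⟩
    obtain ⟨D, h1, h2⟩ := g1 _ _ _ (Tab.simple G) d hd
    exact ⟨D, h1, Tab.acr_eq hd h2 ▸ hk⟩
  · rintro ⟨D, h1, hk⟩
    obtain ⟨d, hd, h2⟩ := g2 _ _ _ (Tab.simple G) D h1
    exact ⟨d, hd, (Tab.acr_eq hd h2).trans_le hk⟩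

end Pool.Agent.MP_17db17_lc.H93
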