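import Pool.Agent.MP_17db17_lc.H93.Basic

set_option autoImplicit false

namespace Pool.Agent.MP_17db17_lc.H93

namespace Uniq

open Finset

/-- a non crossing matching with cells -/
structure NC (C : ℕ) (D : Finset (ℤ × ℤ)) (κ : ℤ → ℕ) : Prop where
  mono : Monotone κ
  bd : ∀ x, κ x < C
  symm : ∀ p q, (p, q) ∈ D → (q, p) ∈ D
  uniq : ∀ p q q', (p, q) ∈ D → (p, q') ∈ D → q = q'
  nc : ∀ p q r s, (p, q) ∈ D → (r, s) ∈ D → ¬ (p < r ∧ r < q ∧ q < s)
  red : ∀ p q, (p, q) ∈ D → κ p ≠ κ q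

/-- order of the cells of the partners inside the cell `c` -/
def bef (c a a' : ℕ) : Prop := (a < c ∧ (a' < a ∨ c < a')) ∨ (c < a ∧ c < a' ∧ a' < a)

instance (c a a' : ℕ) : Decidable (bef c a a') := by unfold bef; infer_instance

def rk (D : Finset (ℤ × ℤ)) (κ : ℤ → ℕ) (p : ℤ) : ℕ := #{x ∈ D | κ x.1 = κ p ∧ x.1 < p}

def MM (D : Finset (ℤ × ℤ)) (κ : ℤ → ℕ) (c a : ℕ) : ℕ := #{x ∈ D | κ x.1 = c ∧ κ x.2 = a}

def rho (D : Finset (ℤ × ℤ)) (κ : ℤ → ℕ) (p q : ℤ) : ℕ :=
  #{x ∈ D | (κ x.1 = κ p ∧ κ x.2 = κ q) ∧ x.1 < p}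

def AA (C : ℕ) (M : ℕ → ℕ → ℕ) (c a' : ℕ) : ℕ := ∑ a ∈ range C with bef c a a', M c a

variable {C : ℕ} {D D' : Finset (ℤ × ℤ)} {κ κ' : ℤ → ℕ}

theorem lt_of (h : NC C D κ) {x y : ℤ} (hxy : κ x < κ y) : x < y :=
  lt_of_not_ge fun e => absurd (h.mono e) (by omega)

theorem lt_iff (h : NC C D κ) {p q r s : ℤ} (h1 : (p, q) ∈ D) (h2 : (r, s) ∈ D)
    (e : κ r = κ p) (hne : κ s ≠ κ q) : r < p ↔ bef (κ p) (κ s) (κ q) := by
  have n1 := h.nc _ _ _ _ h1 h2
  have n2 := h.nc _ _ _ _ h2 h1
  have n3 := h.nc _ _ _ _ (h.symm _ _ h1) (h.symm _ _ h2)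
  have n4 := h.nc _ _ _ _ (h.symm _ _ h2) (h.symm _ _ h1)
  have n5 := h.nc _ _ _ _ (h.symm _ _ h1) h2
  have n6 := h.nc _ _ _ _ (h.symm _ _ h2) h1
  have r1 := h.red _ _ h1
  have r2 := h.red _ _ h2
  have u : r ≠ p := fun e' => hne (congrArg κ (h.uniq p s q (e' ▸ h2) h1))
  have a1 := @lt_of _ _ _ h p q
  have a2 := @lt_of _ _ _ h q p
  have a3 := @lt_of _ _ _ h r s
  have a4 := @lt_of _ _ _ h s r
  have a5 := @lt_of _ _ _ h q s
  have a6 := @lt_of _ _ _ h s q
  have a7 := @lt_of _ _ _ h p s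
  have a8 := @lt_of _ _ _ h s p
  have a9 := @lt_of _ _ _ h r q
  have a10 := @lt_of _ _ _ h q r
  unfold bef
  omega

theorem rev_iff (h : NC C D κ) {p q r s : ℤ} (h1 : (p, q) ∈ D) (h2 : (r, s) ∈ D)
    (e : κ r = κ p) (e' : κ s = κ q) : p < r ↔ s < q := by
  have n1 := h.nc _ _ _ _ h1 h2
  have n2 := h.nc _ _ _ _ h2 h1
  have n3 := h.nc _ _ _ _ (h.symm _ _ h1) (h.symm _ _ h2)
  have n4 := h.nc _ _ _ _ (h.symm _ _ h2) (h.symm _ _ h1)
  have r1 := h.red _ _ h1
  have u : r = p → s = q := fun e' => h.uniq _ _ _ (e' ▸ h2) h1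
  have u' : s = q → r = p := fun e' => h.uniq _ _ _ (e' ▸ h.symm _ _ h2) (h.symm _ _ h1)
  have a1 := @lt_of _ _ _ h p q
  have a2 := @lt_of _ _ _ h q p
  have a3 := @lt_of _ _ _ h r s
  have a4 := @lt_of _ _ _ h s r
  have a7 := @lt_of _ _ _ h p s
  have a8 := @lt_of _ _ _ h s p
  have a9 := @lt_of _ _ _ h r q
  have a10 := @lt_of _ _ _ h q r
  omega

theorem rk_eq (h : NC C D κ) {p q : ℤ} (h1 : (p, q) ∈ D) :
    rk D κ p = AA C (MM D κ) (κ p) (κ q) + rho D κ p q := by
  have e1 : AA C (MM D κ) (κ p) (κ q) = #{x ∈ D | κ x.1 = κ p ∧ bef (κ p) (κ x.2) (κ q)} := by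
    rw [card_eq_sum_card_fiberwise (f := fun x : ℤ × ℤ => κ x.2)
      (t := {a ∈ range C | bef (κ p) a (κ q)})]
    · refine sum_congr rfl fun a ha => ?_
      unfold MM
      congr 1
      ext x
      simp only [mem_filter] at ha ⊢
      constructor
      · rintro ⟨a1, a2, a3⟩; exact ⟨⟨a1, a2, a3 ▸ ha.2⟩, a3⟩
      · rintro ⟨⟨a1, a2, -⟩, a3⟩; exact ⟨a1, a2, a3⟩
    · intro x hx
      simp only [coe_filter, Set.mem_ofPred_eq, mem_range] at hx ⊢
      exact ⟨h.bd _, hx.2.2⟩
  rw [e1, rk, rho, ← card_union_of_disjoint]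
  · congr 1
    ext ⟨r, s⟩
    simp only [mem_filter, mem_union]
    by_cases hs : κ s = κ q
    · have : ¬ bef (κ p) (κ s) (κ q) := by unfold bef; omega
      tauto
    · constructor
      · rintro ⟨a1, a2, a3⟩; exact Or.inl ⟨a1, a2, (lt_iff h h1 a1 a2 hs).1 a3⟩
      · rintro (⟨a1, a2, a3⟩ | ⟨a1, a2, a3⟩)
        · exact ⟨a1, a2, (lt_iff h h1 a1 a2 hs).2 a3⟩
        · exact absurd a2.2 hs
  · rw [disjoint_left]
    intro x hx hx'
    simp only [mem_filter] at hx hx'
    have := hx.2.2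
    rw [hx'.2.1.2] at this
    unfold bef at this; omega

theorem rho_add (h : NC C D κ) {p q : ℤ} (h1 : (p, q) ∈ D) :
    rho D κ p q + rho D κ q p + 1 = MM D κ (κ p) (κ q) := by
  have e1 : rho D κ q p = #{x ∈ D | (κ x.1 = κ p ∧ κ x.2 = κ q) ∧ p < x.1} := by
    refine card_bij' (fun x _ => x.swap) (fun x _ => x.swap) ?_ ?_ (by simp) (by simp)
    · rintro ⟨r, s⟩ hx
      simp only [mem_filter, Prod.swap] at hx ⊢
      exact ⟨h.symm _ _ hx.1, ⟨hx.2.1.2, hx.2.1.1⟩,
        (rev_iff h h1 (h.symm _ _ hx.1) hx.2.1.2 hx.2.1.1).2 hx.2.2⟩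
    · rintro ⟨r, s⟩ hx
      simp only [mem_filter, Prod.swap] at hx ⊢
      exact ⟨h.symm _ _ hx.1, ⟨hx.2.1.2, hx.2.1.1⟩, (rev_iff h h1 hx.1 hx.2.1.1 hx.2.1.2).1 hx.2.2⟩
  rw [e1, rho, ← card_union_of_disjoint, ← card_insert_of_notMem (a := (p, q))]
  · unfold MM
    congr 1
    ext ⟨r, s⟩
    simp only [mem_filter, mem_union, mem_insert, Prod.mk.injEq]
    constructor
    · rintro (⟨rfl, rfl⟩ | a | a)
      · exact ⟨h1, rfl, rfl⟩
      · exact ⟨a.1, a.2.1⟩
      · exact ⟨a.1, a.2.1⟩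
    · rintro ⟨a1, a2⟩
      rcases lt_trichotomy r p with a | rfl | a
      · exact Or.inr (Or.inl ⟨a1, a2, a⟩)
      · exact Or.inl ⟨rfl, h.uniq _ _ _ a1 h1⟩
      · exact Or.inr (Or.inr ⟨a1, a2, a⟩)
  · simp
  · rw [disjoint_left]
    intro x hx hx'
    simp only [mem_filter] at hx hx'
    omega

theorem AA_le {M : ℕ → ℕ → ℕ} {c a a' : ℕ} (ha : a < C) (h : bef c a a') :
    AA C M c a + M c a ≤ AA C M c a' := by
  unfold AA
  rw [add_comm, ← sum_insert (f := M c) (by simp only [mem_filter]; unfold bef; omega)]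
  refine sum_le_sum_of_subset fun x hx => ?_
  simp only [mem_insert, mem_filter, mem_range] at hx ⊢
  unfold bef at *
  omega

theorem step (h : NC C D κ) (h' : NC C D' κ')
    (hM : ∀ c < C, ∀ a < C, MM D κ c a = MM D' κ' c a) {p q p' q' : ℤ} (h1 : (p, q) ∈ D)
    (h1' : (p', q') ∈ D') (e : κ p = κ' p') (er : rk D κ p = rk D' κ' p') :
    κ q = κ' q' ∧ rk D κ q = rk D' κ' q' := by
  have hA : ∀ c < C, ∀ a, AA C (MM D κ) c a = AA C (MM D' κ') c a := fun c hc a =>
    sum_congr rfl fun x hx => hM c hc x (mem_range.1 (mem_filter.1 hx).1)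
  have a1 := rk_eq h h1
  have a2 := rk_eq h' h1'
  have a3 := rho_add h h1
  have a4 := rho_add h' h1'
  have b1 := rk_eq h (h.symm _ _ h1)
  have b2 := rk_eq h' (h'.symm _ _ h1')
  rw [← e] at a2 a4 b2
  rw [← hA _ (h.bd p)] at a2
  rw [← hM _ (h.bd p) _ (h'.bd q')] at a4
  have eq : κ q = κ' q' := by
    by_contra hne
    have r1 := h.red _ _ h1
    have r2 := h'.red _ _ h1'
    have : bef (κ p) (κ q) (κ' q') ∨ bef (κ p) (κ' q') (κ q) := by unfold bef; omega
    rcases this with t | t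
    · have := AA_le (M := MM D κ) (h.bd q) t; omega
    · have := AA_le (M := MM D κ) (h'.bd q') t; omega
  rw [← eq] at a2 a4 b2
  rw [← hA _ (h.bd q)] at b2
  exact ⟨eq, by omega⟩

/-! cells -/

theorem cell_mono (vp : List ℤ) : Monotone (cell vp) := by
  intro x y hxy
  rcases hxy.eq_or_lt with rfl | hlt
  · exact le_rfl
  unfold cell
  simp only [← List.countP_eq_length_filter]
  have key : ∀ l : List ℤ, l.countP (fun v => decide (v < x)) + (if x ∈ l then 1 else 0) ≤
      l.countP fun v => decide (v < y) := by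
    intro l
    induction l with
    | nil => simp
    | cons z l ih =>
      simp only [List.countP_cons, List.mem_cons, decide_eq_true_eq]
      split_ifs at ih ⊢ <;> simp_all <;> omega
  have := key vp
  split_ifs at this ⊢ <;> omega

theorem cell_odd (vp : List ℤ) (x : ℤ) : cell vp x % 2 = 1 ↔ x ∈ vp := by
  unfold cell; split_ifs with h <;> simp [h]

theorem cell_lt (vp : List ℤ) (x : ℤ) : cell vp x < 2 * vp.length + 1 := by
  unfold cell
  split_ifs with h
  · have : (vp.filter fun v => decide (v < x)).length < vp.length :=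
      List.length_filter_lt_length_iff_exists.2 ⟨x, h, by simp⟩
    omega
  · have := List.length_filter_le (fun v => decide (v < x)) vp
    omega

theorem cell_lt_vertex (vp : List ℤ) {x y : ℤ} (hy : y ∈ vp) (h : x < y) :
    cell vp x < cell vp y := by
  by_cases hx : x ∈ vp
  · unfold cell
    simp only [← List.countP_eq_length_filter, hx, hy, if_true]
    have key : ∀ l : List ℤ, l.countP (fun v => decide (v < x)) + (if x ∈ l then 1 else 0) ≤
        l.countP fun v => decide (v < y) := by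
      intro l
      induction l with
      | nil => simp
      | cons z l ih =>
        simp only [List.countP_cons, List.mem_cons, decide_eq_true_eq]
        split_ifs at ih ⊢ <;> simp_all <;> omega
    have := key vp
    rw [if_pos hx] at this
    omega
  · have h1 := cell_mono vp h.le
    have h2 := (cell_odd vp y).2 hy
    have h3 := mt (cell_odd vp x).1 hx
    omega

theorem cell_getD {vp : List ℤ} (h : vp.Pairwise (· < ·)) {i : ℕ} (hi : i < vp.length) :
    cell vp (vp.getD i 0) = 2 * i + 1 := by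
  have key : ∀ (l : List ℤ) (i : ℕ) (hi : i < l.length), l.Pairwise (· < ·) →
      l.countP (fun v => decide (v < l[i])) = i := by
    intro l
    induction l with
    | nil => simp
    | cons z l ih =>
      intro i hi h
      rw [List.pairwise_cons] at h
      cases i with
      | zero =>
        simp only [List.getElem_cons_zero, List.countP_cons, lt_irrefl, decide_false]
        simp only [Bool.false_eq_true, if_false, add_zero, List.countP_eq_zero, decide_eq_true_eq]
        exact fun a ha => not_lt_of_gt (h.1 a ha)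
      | succ i =>
        simp only [List.getElem_cons_succ, List.countP_cons, decide_eq_true_eq]
        rw [ih i _ h.2, if_pos (h.1 _ (List.getElem_mem _))]
  unfold cell
  rw [List.getD_eq_getElem _ _ hi, ← List.countP_eq_length_filter, key vp i hi h,
    if_pos (List.getElem_mem _)]

/-! the matching of a page -/

def Dl (π : Bool) : List (Chord ℤ) → List (ℤ × ℤ)
  | [] => []
  | c :: L => if c.1 = π then (c.2.1, c.2.2) :: (c.2.2, c.2.1) :: Dl π L else Dl π L

theorem mem_Dl {π : Bool} {L : List (Chord ℤ)} {p q : ℤ} :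
    (p, q) ∈ Dl π L ↔ (π, p, q) ∈ L ∨ (π, q, p) ∈ L := by
  induction L with
  | nil => simp [Dl]
  | cons c L ih =>
    obtain ⟨b, x, y⟩ := c
    unfold Dl
    split_ifs with h
    · simp only at h
      subst h
      simp only [List.mem_cons, ih, Prod.mk.injEq]
      tauto
    · simp only [List.mem_cons, ih, Prod.mk.injEq]
      have : π ≠ b := fun e => h e.symm
      tauto

theorem count_fst (π : Bool) (Q : ℤ → Bool) (v : ℤ) (m : List ℤ) : ∀ (b : Bool) (u : ℤ),
    (Dl π (chords b (u :: (m ++ [v])))).countP (fun x => Q x.1) =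
      (if b = π ∧ Q u then 1 else 0) + m.countP Q +
        if flipN b m.length = π ∧ Q v then 1 else 0 := by
  induction m with
  | nil =>
    intro b u
    simp only [List.nil_append, chords_cons_cons, chords_single, Dl, List.length_nil, flipN_zero]
    by_cases h : b = π <;> cases h1 : Q u <;> cases h2 : Q v <;> simp [h, h1, h2]
  | cons z m ih =>
    intro b u
    have := ih (!b) z
    simp only [List.cons_append, chords_cons_cons, Dl, List.length_cons, List.countP_cons]
    rw [flipN_not, ← flipN_succ] at this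
    cases b <;> cases π <;> cases h1 : Q u <;> cases h2 : Q z <;>
      simp [h1, h2] at this ⊢ <;> omega

theorem code_inj {C c a c' a' : ℕ} {π π' : Bool} (h1 : c < C) (h2 : a < C) (h3 : c' < C)
    (h4 : a' < C) : code C π' c' a' = code C π c a ↔ π' = π ∧ c' = c ∧ a' = a := by
  refine ⟨fun h => ?_, by rintro ⟨rfl, rfl, rfl⟩; rfl⟩
  unfold code at h
  have key : ∀ {x y x' y' : ℕ}, y < C → y' < C → x' * C + y' = x * C + y → x' = x ∧ y' = y := by
    intro x y x' y' a b e
    have e1 := congrArg (· % C) e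
    simp only [Nat.mul_add_mod_self_right, Nat.mod_eq_of_lt a, Nat.mod_eq_of_lt b] at e1
    subst e1
    exact ⟨Nat.eq_of_mul_eq_mul_right (by omega) (Nat.add_right_cancel e), rfl⟩
  obtain ⟨e1, e2⟩ := key h2 h4 h
  obtain ⟨e3, e4⟩ := key h1 h3 e1
  refine ⟨?_, e4, e2⟩
  cases π <;> cases π' <;> simp_all

theorem code_lt {vp : List ℤ} {c a : ℕ} (π : Bool) (h1 : c < 2 * vp.length + 1)
    (h2 : a < 2 * vp.length + 1) : code (2 * vp.length + 1) π c a < tsz vp := by
  unfold code tsz
  generalize 2 * vp.length + 1 = C at *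
  have h3 : π.toNat * C + c + 1 ≤ 2 * C := by cases π <;> simp <;> omega
  have := Nat.mul_le_mul_right C h3
  nlinarith

theorem count_cells (vp : List ℤ) (π : Bool) {c a : ℕ} (h1 : c < 2 * vp.length + 1)
    (h2 : a < 2 * vp.length + 1) (b : Bool) (l : List ℤ) :
    (Dl π (chords b l)).countP (fun x => decide (cell vp x.1 = c ∧ cell vp x.2 = a)) =
      cnt vp b l (code (2 * vp.length + 1) π c a) + cnt vp b l (code (2 * vp.length + 1) π a c) := by
  unfold cnt
  simp only [← List.countP_eq_length_filter]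
  generalize chords b l = L
  induction L with
  | nil => simp [Dl]
  | cons d L ih =>
    unfold Dl
    simp only [List.countP_cons, decide_eq_true_eq, code_inj h1 h2 (cell_lt _ _) (cell_lt _ _),
      code_inj h2 h1 (cell_lt _ _) (cell_lt _ _)] at ih ⊢
    by_cases h : d.1 = π
    · simp only [h, if_true, List.countP_cons, decide_eq_true_eq, ih, true_and, and_comm]
      omega
    · simp only [h, if_false, ih, false_and]
      omega

variable {vp : List ℤ} {b : Bool} {u v : ℤ} {m : List ℤ}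

theorem nodup_fst (h : PathOK vp b u m v) (π : Bool) :
    ((Dl π (chords b (u :: (m ++ [v])))).map Prod.fst).Nodup := by
  rw [List.nodup_iff_count_le_one]
  intro y
  rw [List.count, List.countP_map]
  have := count_fst π (fun x => x == y) v m b u
  simp only [Function.comp_def]
  rw [this]
  have h1 : m.countP (fun x => x == y) ≤ 1 := List.nodup_iff_count_le_one.1 h.nodup y
  have h2 : y ∈ vp → m.countP (fun x => x == y) = 0 := fun hy =>
    List.countP_eq_zero.2 fun a ha e => h.notV a ha (by rw [beq_iff_eq.1 e]; exact hy)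
  split_ifs with a1 a2 a2
  · exfalso
    have e1 := beq_iff_eq.1 a1.2
    have e2 := beq_iff_eq.1 a2.2
    have := Nat.odd_iff.1 (h.odd (e1.trans e2.symm))
    have e3 := a2.1.trans a1.1.symm
    unfold flipN at e3
    rw [if_neg (by omega)] at e3
    simp at e3
  · have := h2 (beq_iff_eq.1 a1.2 ▸ h.hu); omega
  · have := h2 (beq_iff_eq.1 a2.2 ▸ h.hv); omega
  · omega

/-- the matching as a finite set -/
def DD (π b : Bool) (u : ℤ) (m : List ℤ) (v : ℤ) : Finset (ℤ × ℤ) :=
  (Dl π (chords b (u :: (m ++ [v])))).toFinset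

theorem nc_DD (h : PathOK vp b u m v) (π : Bool) :
    NC (2 * vp.length + 1) (DD π b u m v) (cell vp) where
  mono := cell_mono vp
  bd := cell_lt vp
  symm p q hx := by
    simp only [DD, List.mem_toFinset, mem_Dl] at hx ⊢; exact hx.symm
  uniq p q q' h1 h2 := by
    simp only [DD, List.mem_toFinset] at h1 h2
    exact congrArg Prod.snd (List.inj_on_of_nodup_map (nodup_fst h π) h1 h2 rfl)
  nc p q r s h1 h2 h3 := by
    simp only [DD, List.mem_toFinset, mem_Dl] at h1 h2
    have : Cross (π, p, q) (π, r, s) := ⟨rfl, Or.inl ⟨Or.inl ⟨h3.1, h3.2.1⟩,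
      Or.inr ⟨(h3.1.trans h3.2.1).trans h3.2.2, h3.2.2⟩⟩⟩
    rcases h1 with h1 | h1 <;> rcases h2 with h2 | h2
    · exact h.self _ h1 _ h2 this
    · exact h.self _ h1 _ h2 (cross_swap_right.2 this)
    · exact h.self _ h1 _ h2 (cross_swap_left.2 this)
    · exact h.self _ h1 _ h2 (cross_swap_left.2 (cross_swap_right.2 this))
  red p q h1 := by
    simp only [DD, List.mem_toFinset, mem_Dl] at h1
    rcases h1 with h1 | h1
    · exact h.red _ h1
    · exact (h.red _ h1).symm

theorem MM_DD (h : PathOK vp b u m v) (π : Bool) {c a : ℕ} (h1 : c < 2 * vp.length + 1)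
    (h2 : a < 2 * vp.length + 1) : MM (DD π b u m v) (cell vp) c a =
      cnt vp b (u :: (m ++ [v])) (code (2 * vp.length + 1) π c a) +
        cnt vp b (u :: (m ++ [v])) (code (2 * vp.length + 1) π a c) := by
  rw [← count_cells vp π h1 h2, MM, DD, (List.Nodup.of_map _ (nodup_fst h π)).card_eq_countP]

theorem rk_vertex (D : Finset (ℤ × ℤ)) {y : ℤ} (hy : y ∈ vp) : rk D (cell vp) y = 0 := by
  rw [rk, card_eq_zero, filter_eq_empty_iff]
  intro x _ hx
  exact absurd hx.1 (cell_lt_vertex vp hy hx.2).ne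

theorem rk_flip (h : PathOK vp b u m v) (π π' : Bool) {y : ℤ} (hy : y ∈ m) :
    rk (DD π b u m v) (cell vp) y = rk (DD π' b u m v) (cell vp) y := by
  have h0 : ∀ x ∈ vp, cell vp x ≠ cell vp y := fun x hx e =>
    h.notV y hy ((cell_odd vp y).1 (e ▸ (cell_odd vp x).2 hx))
  have key : ∀ π, rk (DD π b u m v) (cell vp) y =
      m.countP fun x => decide (cell vp x = cell vp y ∧ x < y) := by
    intro π
    rw [rk, DD, (List.Nodup.of_map _ (nodup_fst h π)).card_eq_countP,
      count_fst π (fun x => decide (cell vp x = cell vp y ∧ x < y))]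
    simp [h0 u h.hu, h0 v h.hv]
  rw [key, key]

end Uniq

open Uniq in
theorem uniq : UniqStmt := by
  intro vp vp' b i j m m' hs hs' hl hi hj h h' hc
  set u := vp.getD i 0
  set v := vp.getD j 0
  set u' := vp'.getD i 0
  set v' := vp'.getD j 0
  have hM : ∀ π, ∀ c < 2 * vp.length + 1, ∀ a < 2 * vp.length + 1,
      MM (DD π b u m v) (cell vp) c a = MM (DD π b u' m' v') (cell vp') c a := by
    intro π c h1 a h2
    rw [MM_DD h π h1 h2, MM_DD h' π (hl ▸ h1) (hl ▸ h2), ← hl, hc _ (code_lt π h1 h2),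
      hc _ (code_lt π h2 h1)]
  have key : ∀ (t t' : List ℤ) (x x' : ℤ) (β : Bool),
      (∀ c ∈ chords β (x :: (t ++ [v])), c ∈ chords b (u :: (m ++ [v]))) → (∀ y ∈ t, y ∈ m) →
      (∀ c ∈ chords β (x' :: (t' ++ [v'])), c ∈ chords b (u' :: (m' ++ [v']))) →
      (∀ y ∈ t', y ∈ m') → cell vp x = cell vp' x' →
      rk (DD β b u m v) (cell vp) x = rk (DD β b u' m' v') (cell vp') x' →
      t.map (cell vp) = t'.map (cell vp') := by
    have st : ∀ {β : Bool} {x x' z z' : ℤ}, (β, x, z) ∈ chords b (u :: (m ++ [v])) →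
        (β, x', z') ∈ chords b (u' :: (m' ++ [v'])) → cell vp x = cell vp' x' →
        rk (DD β b u m v) (cell vp) x = rk (DD β b u' m' v') (cell vp') x' →
        cell vp z = cell vp' z' ∧
          rk (DD β b u m v) (cell vp) z = rk (DD β b u' m' v') (cell vp') z' :=
      fun a a' e er => step (nc_DD h _) (hl ▸ nc_DD h' _) (hM _)
        (List.mem_toFinset.2 (mem_Dl.2 (Or.inl a))) (List.mem_toFinset.2 (mem_Dl.2 (Or.inl a')))
        e er
    intro t
    induction t with
    | nil =>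
      intro t' x x' β a1 _ a3 a4 e er
      cases t' with
      | nil => rfl
      | cons z' t' =>
        exfalso
        have := (st (a1 (β, x, v) (by simp)) (a3 (β, x', z') (by simp)) e er).1
        exact h'.notV z' (a4 z' (by simp)) ((cell_odd vp' z').1 (this ▸ (cell_odd vp v).2 h.hv))
    | cons z t ih =>
      intro t' x x' β a1 a2 a3 a4 e er
      cases t' with
      | nil =>
        exfalso
        have := (st (a1 (β, x, z) (by simp)) (a3 (β, x', v') (by simp)) e er).1
        exact h.notV z (a2 z (by simp)) ((cell_odd vp z).1 (this ▸ (cell_odd vp' v').2 h'.hv))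
      | cons z' t' =>
        obtain ⟨e1, e2⟩ := st (a1 (β, x, z) (by simp)) (a3 (β, x', z') (by simp)) e er
        rw [List.map_cons, List.map_cons, e1]
        congr 1
        refine ih t' z z' (!β) (fun c hc => a1 c ?_) (fun y hy => a2 y (List.mem_cons_of_mem _ hy))
          (fun c hc => a3 c ?_) (fun y hy => a4 y (List.mem_cons_of_mem _ hy)) e1 ?_
        · exact List.mem_cons_of_mem _ hc
        · exact List.mem_cons_of_mem _ hc
        · rw [rk_flip h _ β (a2 z (by simp)), rk_flip h' _ β (a4 z' (by simp)), e2]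
  refine key m m' u u' b (fun _ a => a) (fun _ a => a) (fun _ a => a) (fun _ a => a) ?_ ?_
  · rw [cell_getD hs hi, cell_getD hs' (hl ▸ hi)]
  · rw [rk_vertex _ h.hu, rk_vertex _ h'.hu]

end Pool.Agent.MP_17db17_lc.H93
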