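import Pool.Agent.MP_17db17_lc.H93.Basic

set_option autoImplicit false

namespace Pool.Agent.MP_17db17_lc.H93

open Pool.Agent.Shared.H56 Pool.Agent.Shared.H27 Polynomial

namespace VC

/-! ## Small objects -/

/-- all lists have length at most `y` and all numbers are below `2 ^ y` -/
class Sm (α : Type) [N487b59b3 α] where
  sm : ℕ → α → Prop
  bd : ∃ P : Polynomial ℕ, ∀ y a, sm y a → sz a ≤ P.eval y

open Sm

instance smNat : Sm ℕ := ⟨fun y n => n < 2 ^ y, X, fun y a h => by simpa using sz_nat_le.2 h⟩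

instance smInt : Sm ℤ := ⟨fun y z => z.natAbs < 2 ^ y, 2 * X + 1, fun y a h => by
  have h1 := sz_int_le a
  have h2 := sz_nat_le.2 h
  simp only [eval_add, eval_mul, eval_ofNat, eval_X, eval_one]
  omega⟩

instance smBool : Sm Bool := ⟨fun _ _ => True, 1, fun y a _ => by simp⟩

instance smProd {α β : Type} [N487b59b3 α] [N487b59b3 β] [Sm α] [Sm β] : Sm (α × β) :=
  ⟨fun y p => sm y p.1 ∧ sm y p.2, by
    obtain ⟨P, hP⟩ := Sm.bd (α := α)
    obtain ⟨Q, hQ⟩ := Sm.bd (α := β)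
    refine ⟨2 * P + 1 + Q, fun y ⟨a, b⟩ h => ?_⟩
    have h1 := hP y a h.1
    have h2 := hQ y b h.2
    simp only [sz_pair, eval_add, eval_mul, eval_ofNat, eval_one]
    omega⟩

instance smList {α : Type} [N487b59b3 α] [Sm α] : Sm (List α) :=
  ⟨fun y l => l.length ≤ y ∧ ∀ x ∈ l, sm y x, by
    obtain ⟨P, hP⟩ := Sm.bd (α := α)
    refine ⟨X * (2 * P + 1), fun y l h => ?_⟩
    refine (sz_le_of_forall fun x hx => hP y x (h.2 x hx)).trans ?_
    simp only [eval_add, eval_mul, eval_ofNat, eval_one, eval_X]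
    exact Nat.mul_le_mul_right _ h.1⟩

theorem sm_nat {y n : ℕ} : sm y n ↔ n < 2 ^ y := Iff.rfl
theorem sm_int {y : ℕ} {z : ℤ} : sm y z ↔ z.natAbs < 2 ^ y := Iff.rfl
theorem sm_bool {y : ℕ} {b : Bool} : sm y b ↔ True := Iff.rfl
theorem sm_prod {α β : Type} [N487b59b3 α] [N487b59b3 β] [Sm α] [Sm β] {y : ℕ} {p : α × β} :
    sm y p ↔ sm y p.1 ∧ sm y p.2 := Iff.rfl
theorem sm_list {α : Type} [N487b59b3 α] [Sm α] {y : ℕ} {l : List α} :
    sm y l ↔ l.length ≤ y ∧ ∀ x ∈ l, sm y x := Iff.rfl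

theorem sm_ofFn {α : Type} [N487b59b3 α] [Sm α] {y n : ℕ} {f : Fin n → α} (hn : n ≤ y)
    (h : ∀ i, sm y (f i)) : sm y (List.ofFn f) :=
  ⟨by simpa using hn, fun x hx => by
    obtain ⟨i, rfl⟩ := List.mem_ofFn.1 hx
    exact h i⟩

theorem sm_entry {vp : List ℤ} {N y : ℕ} {x : Entry} (h : SmallE vp N x) (h1 : N < 2 ^ y)
    (h2 : tsz vp ≤ y) : sm y x := by
  obtain ⟨a1, a2, a3, a4, a5, a6, a7, a8, a9, a10, a11, a12⟩ := h
  simp only [sm_prod, sm_nat, sm_int, sm_bool, sm_list, true_and]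
  refine ⟨⟨⟨?_, ?_, ?_⟩, ⟨?_, ?_, ?_⟩, ?_, ?_, ?_, fun z hz => (a10 z hz).trans_lt h1⟩, ?_, ?_⟩ <;>
    omega

theorem sm_block {vp : List ℤ} {B : List Block} {N y : ℕ} (h : Packed vp B N) (h1 : N < 2 ^ y)
    {k : Block} (hk : k ∈ B) : sm y k := by
  have h2 := h.ok
  simp only [blocksOK, List.all_eq_true, Bool.and_eq_true, blockOK, decide_eq_true_eq] at h2
  obtain ⟨⟨⟨⟨⟨a1, a2⟩, -⟩, -⟩, -⟩, -⟩ := h2 k hk
  have b1 := h.bin k.1 k.2.1 k.2.2.1 ⟨k, hk, rfl, 0, a1, Or.inl ⟨by simp, by simp⟩⟩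
  have b2 := h.bin k.1 k.2.2.1 k.2.1 ⟨k, hk, rfl, 0, a1, Or.inr ⟨by simp, by simp⟩⟩
  simp only [sm_prod, sm_nat, sm_int, sm_bool, true_and]
  omega

/-! ## Appending derivations -/

theorem stepOK_mono {vp : List ℤ} {B : List Block} {P P' : List Entry} (h : ∀ x ∈ P, x ∈ P')
    {x : Entry} (hx : stepOK vp B P x = true) : stepOK vp B P' x = true := by
  simp only [stepOK, Bool.or_eq_true, List.any_eq_true] at hx ⊢
  rcases hx with hx | ⟨y, hy, hx | ⟨z, hz, hx⟩⟩
  · exact Or.inl hx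
  · exact Or.inr ⟨y, h y hy, Or.inl hx⟩
  · exact Or.inr ⟨y, h y hy, Or.inr ⟨z, h z hz, hx⟩⟩

theorem derivOK_append {vp : List ℤ} {B : List Block} {Γ Γ' : List Entry}
    (h : derivOK vp B Γ = true) (h' : derivOK vp B Γ' = true) :
    derivOK vp B (Γ ++ Γ') = true := by
  simp only [derivOK, List.all_eq_true, List.mem_range, List.length_append] at h h' ⊢
  intro i hi
  by_cases h1 : i < Γ.length
  · rw [List.getD_append _ _ _ _ h1, List.take_append_of_le_length h1.le]
    exact h i h1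
  · rw [List.getD_append_right _ _ _ _ (not_lt.1 h1)]
    refine stepOK_mono (fun x hx => ?_) (h' (i - Γ.length) (by omega))
    rw [List.take_append]
    exact List.mem_append_right _ hx

theorem finalOK_mono {vp : List ℤ} {Γ Γ' : List Entry} (h : ∀ x ∈ Γ, x ∈ Γ') {b : Bool} {u v : ℤ}
    {w : List ℕ} (hx : finalOK vp Γ b u v w = true) : finalOK vp Γ' b u v w = true := by
  simp only [finalOK, List.any_eq_true] at hx ⊢
  obtain ⟨x, h1, h2⟩ := hx
  exact ⟨x, h x h1, h2⟩

theorem getD_mem {vp : List ℤ} {i : ℕ} (hi : i < vp.length) : vp.getD i 0 ∈ vp := by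
  rw [List.getD_eq_getElem _ _ hi]
  exact List.getElem_mem hi

theorem getD_lt {vp : List ℤ} (h : vp.Pairwise (· < ·)) {i j : ℕ} (hij : i < j)
    (hj : j < vp.length) : vp.getD i 0 < vp.getD j 0 := by
  rw [List.getD_eq_getElem _ _ hj, List.getD_eq_getElem _ _ (hij.trans hj)]
  exact List.pairwise_iff_getElem.1 h i j _ _ hij

/-! ## Pair data -/

theorem pair (hP : PackStmt) (hZ : ZorStmt) (hT : TabStmt) {ι V : Type} [Fintype ι] [Fintype V]
    {G : Gr ι V} (hs : G.Symm) {D : Sys ι V ℤ} (hv : D.Valid G) (hr : D.Reduced G) {lam y : ℕ}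
    (h1 : 2 * D.norm + Fintype.card V + 1 ≤ 2 ^ lam) (h2 : lam + 2 ≤ y)
    (h3 : 2 * zB (2 * (2 * Fintype.card V + 1) * (2 * Fintype.card V + 1) + 4) lam ≤ y)
    (h4 : 2 * (2 * Fintype.card V + 1) * (2 * Fintype.card V + 1) + 4 ≤ y) (e e' : ι) :
    ∃ pc : PC, sm y pc ∧ (e = e' ∨ G.H e e' →
      pairOK (Fintype.card V) pc (D.sp e) (D.rk (G.s e)) (D.rk (G.t e)) (D.tab G e)
        (D.sp e') (D.rk (G.s e')) (D.rk (G.t e')) (D.tab G e') = true) := by
  by_cases he : e = e' ∨ G.H e e'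
  swap
  · exact ⟨([], [], []), by simp [sm_prod, sm_list], fun h => absurd h he⟩
  obtain ⟨vp, B, N, m1, m2, hp, hl, hN, hB, w1, w2, l1, l2, c1, c2⟩ := hP ι V G hs D hv hr e e' he
  obtain ⟨-, t1, t2, -, -⟩ := hT ι V G D hv.inj
  have hm : ∀ x, vp.getD (D.rk x) 0 ∈ vp := fun x => getD_mem (hl ▸ t1 x)
  have hi : ∀ x x', vp.getD (D.rk x) 0 = vp.getD (D.rk x') 0 → x = x' := fun x x' h => by
    rcases lt_trichotomy (D.pos x) (D.pos x') with h' | h' | h'
    · exact absurd h (getD_lt hp.sorted ((t2 _ _).1 h') (hl ▸ t1 _)).ne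
    · exact hv.inj h'
    · exact absurd h (getD_lt hp.sorted ((t2 _ _).1 h') (hl ▸ t1 _)).ne'
  obtain ⟨Γ1, d1, g1, s1, f1⟩ := hZ vp B N lam hp (by omega) _ _ m1 _ w1 (hm _) (hm _)
    (fun h => l1 ▸ hv.odd e (hi _ _ h)) _ c1
  obtain ⟨Γ2, d2, g2, s2, f2⟩ := hZ vp B N lam hp (by omega) _ _ m2 _ w2 (hm _) (hm _)
    (fun h => l2 ▸ hv.odd e' (hi _ _ h)) _ c2
  have ht : tsz vp = 2 * (2 * Fintype.card V + 1) * (2 * Fintype.card V + 1) := by rw [tsz, hl]
  have hy : 2 ^ lam * 4 ≤ 2 ^ y := by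
    rw [show 4 = 2 ^ 2 from rfl, ← pow_add]
    exact Nat.pow_le_pow_right two_pos h2
  have hz : zB B.length lam ≤
      zB (2 * (2 * Fintype.card V + 1) * (2 * Fintype.card V + 1) + 4) lam := by
    unfold zB
    gcongr
    omega
  refine ⟨(vp, B, Γ1 ++ Γ2), ⟨⟨by nlinarith, fun v hv' => ?_⟩, ⟨by dsimp only; omega, fun k hk =>
    sm_block hp (by omega) hk⟩, by simp only [List.length_append]; omega, fun x hx => ?_⟩,
    fun _ => ?_⟩
  · have := hp.vin v hv'
    rw [sm_int]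
    omega
  · rcases List.mem_append.1 hx with hx | hx
    · exact sm_entry (s1 x hx) (by omega) (by omega)
    · exact sm_entry (s2 x hx) (by omega) (by omega)
  · simp only [pairOK, Bool.and_eq_true, decide_eq_true_eq, List.all_eq_true, List.mem_range,
      Bool.or_eq_true]
    refine ⟨⟨⟨⟨⟨hl, fun i _ j hj => ?_⟩, hp.ok⟩, derivOK_append d1 d2⟩,
      finalOK_mono (fun x => List.mem_append_left _) f1⟩,
      finalOK_mono (fun x => List.mem_append_right _) f2⟩
    rcases le_or_gt j i with h | h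
    · exact Or.inl h
    · exact Or.inr (getD_lt hp.sorted h (hl ▸ hj))

/-! ## Numerical bounds -/

section poly
variable {R : Type} [CommSemiring R]

/-- bound for the number of elements and of vertices -/
def pa (x : R) : R := x + (x * x + 1) * (10 * (x * x + 1) ^ 3 + 1)

/-- bound for the logarithm of the norm -/
def pb (a : R) : R := 2 * a + 1 + (4 * a + 7) * (a + 1)

/-- bound for all lengths and all logarithms -/
def py (a : R) : R :=
  200 * (2 * (2 * a + 1) * (2 * a + 1) + 4 + (pb a + 2) + 1) ^ 4 +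
    (2 * (2 * a + 1) * (2 * a + 1) + 4) + (pb a + 4) + 20 * (a * a + 1) ^ 2 + a

end poly

theorem eval_py (x : ℕ) : (py (pa (X : Polynomial ℕ))).eval x = py (pa x) := by
  simp [py, pa, pb]

theorem bigB_le {m n a : ℕ} (hm : m ≤ a) (hn : n ≤ a) : bigB m n ≤ 2 ^ pb a := by
  have h0 : a < 2 ^ a := Nat.lt_two_pow_self
  have h1 : 2 ^ n ≤ 2 ^ a := Nat.pow_le_pow_right two_pos hn
  have hK : bigK m n ≤ 2 ^ (4 * a + 7) := by
    rw [pow_add, mul_comm 4 a, pow_mul]
    unfold bigK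
    generalize 2 ^ a = u at *
    have h2 : 1 ≤ u ^ 3 := Nat.one_le_pow _ _ (by omega)
    calc _ ≤ (2 * (2 * u) ^ 2 * (2 * u) + 5 * u ^ 3) * (6 * u) := by gcongr <;> omega
      _ = u ^ 4 * 126 := by ring
      _ ≤ u ^ 4 * 2 ^ 7 := by gcongr; norm_num
  unfold bigB pb
  calc _ ≤ 2 ^ a * (2 * 2 ^ a) * (2 ^ (4 * a + 7)) ^ (a + 1) := by
        refine Nat.mul_le_mul (Nat.mul_le_mul (by omega) (by omega)) ?_
        exact (Nat.pow_le_pow_left hK _).trans
          (Nat.pow_le_pow_right (Nat.two_pow_pos _) (by omega))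
    _ = _ := by rw [← pow_mul]; ring

theorem abs_alg_le {ι V : Type} [Fintype ι] (D : Sys ι V ℤ) (G : Gr ι V) (f g : ι) :
    (D.alg G f g).natAbs ≤ 4 * D.norm + 6 := by
  have h : ∀ e x, |D.cv G e x| ≤ (D.norm : ℤ) + 1 := fun e x => by
    have h1 := abs_covL_le true (D.chs G e) (D.pos x)
    have h2 : (D.mid e).length ≤ D.norm :=
      Finset.single_le_sum (f := fun e => (D.mid e).length) (fun _ _ => Nat.zero_le _)
        (Finset.mem_univ e)
    rw [Sys.length_chs] at h1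
    refine le_trans h1 ?_
    push_cast
    omega
  have h1 := abs_le.1 (h g (G.t f))
  have h2 := abs_le.1 (h g (G.s f))
  have h3 := abs_le.1 (h f (G.t g))
  have h4 := abs_le.1 (h f (G.s g))
  unfold Sys.alg ind
  split_ifs <;> omega

theorem tab_le {ι V : Type} [Fintype ι] [Fintype V] (D : Sys ι V ℤ) (G : Gr ι V) (e : ι) :
    ∀ z ∈ D.tab G e, z ≤ D.norm + 1 := by
  intro z hz
  obtain ⟨i, -, rfl⟩ := List.mem_map.1 hz
  have h2 : (D.mid e).length ≤ D.norm :=
    Finset.single_le_sum (f := fun e => (D.mid e).length) (fun _ _ => Nat.zero_le _)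
      (Finset.mem_univ e)
  refine (List.length_filter_le _ _).trans ?_
  have := D.length_chs G e
  unfold Sys.chs at this
  omega

theorem getD_ofFn {α : Type} {n : ℕ} (f : Fin n → α) {i : ℕ} (hi : i < n) (d : α) :
    (List.ofFn f).getD i d = f ⟨i, hi⟩ := by
  rw [List.getD_eq_getElem _ _ (by simpa using hi), List.getElem_ofFn]

theorem sum_range {M : Type} [AddCommMonoid M] (f : ℕ → M) (n : ℕ) :
    ((List.range n).map f).sum = ∑ i : Fin n, f i := by
  rw [Fin.sum_univ_eq_sum_range]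
  induction n with
  | zero => simp
  | succ n ih => rw [List.range_succ, List.map_append, List.sum_append, ih, Finset.sum_range_succ]; simp

theorem ng_symm {n : ℕ} {E : List (ℕ × ℕ)} (h : ∀ p ∈ E, p.1 < n ∧ p.2 < n) :
    (ngOf n E h).gr.Symm := by
  intro e e' he
  simp only [NG.gr, ngOf, adjN, Bool.and_eq_true, Bool.or_eq_true, decide_eq_true_eq] at he ⊢
  omega

theorem ext_symm {N : NG} (h : N.gr.Symm) (J : ℕ) (I : ℕ → List ℕ) : (N.ext J I).gr.Symm := by
  intro e e' he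
  simp only [NG.gr, NG.ext] at he ⊢
  split_ifs at he with h1
  · rw [if_pos h1.symm]
    exact h ⟨_, h1.1⟩ ⟨_, h1.2⟩ he
  · rw [if_neg fun h2 => h1 h2.symm]
    exact he.symm

/-! ## The certificate -/

section cert
variable {n : ℕ} {E : List (ℕ × ℕ)} (h : ∀ p ∈ E, p.1 < n ∧ p.2 < n) {J : ℕ} (A : ℕ → List ℕ)
  {I : ℕ → List ℕ}

theorem HN_iff {e e' : ℕ} (he : e < E.length + J) (he' : e' < E.length + J) :
    HN E (List.ofFn fun j : Fin J => (A j, I j)) e e' = true ↔ ((ngOf n E h).ext J I).H e e' := by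
  unfold HN NG.ext ngOf
  dsimp only
  split_ifs with h1
  · rfl
  · rw [getD_ofFn _ (show e' - E.length < J by omega), getD_ofFn _ (show e - E.length < J by omega)]
    simp

variable (D : Sys (Fin ((ngOf n E h).ext J I).m) (Fin ((ngOf n E h).ext J I).n) ℤ) (τ : Fin J → ℤ)
  (pc : Fin ((ngOf n E h).ext J I).m → Fin ((ngOf n E h).ext J I).m → PC)

/-- the certificate read off a system with handles -/
noncomputable def crt : Crt :=
  (List.ofFn fun j : Fin J => (A j, I j), List.ofFn τ, List.ofFn D.rk, List.ofFn D.sp,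
    List.ofFn (D.tab ((ngOf n E h).ext J I).gr), List.ofFn fun e => List.ofFn (pc e))

theorem crt_len : (crt h A D τ pc).1.length = J := by simp [crt]

theorem crt_hs {j : ℕ} (hj : j < J) : (crt h A D τ pc).1.getD j ([], []) = (A j, I j) :=
  getD_ofFn _ hj _

theorem crt_tw (j : Fin J) : (crt h A D τ pc).2.1.getD j 0 = τ j := getD_ofFn _ j.2 _

theorem crt_rk {x : ℕ} (hx : x < n + J) : (crt h A D τ pc).2.2.1.getD x 0 = D.rk ⟨x, hx⟩ :=
  getD_ofFn _ hx _

theorem crt_sp {e : ℕ} (he : e < E.length + J) :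
    (crt h A D τ pc).2.2.2.1.getD e false = D.sp ⟨e, he⟩ := getD_ofFn _ he _

theorem crt_tab {e : ℕ} (he : e < E.length + J) :
    (crt h A D τ pc).2.2.2.2.1.getD e [] = D.tab ((ngOf n E h).ext J I).gr ⟨e, he⟩ :=
  getD_ofFn _ he _

theorem crt_pc {e e' : ℕ} (he : e < E.length + J) (he' : e' < E.length + J) :
    ((crt h A D τ pc).2.2.2.2.2.getD e []).getD e' ([], [], []) = pc ⟨e, he⟩ ⟨e', he'⟩ := by
  rw [show (crt h A D τ pc).2.2.2.2.2.getD e [] = List.ofFn (pc ⟨e, he⟩) from getD_ofFn _ he _]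
  exact getD_ofFn _ he' _

theorem crt_cv (hT : TabStmt) (hv : Function.Injective D.pos) {e x : ℕ} (he : e < E.length + J)
    (hx : x < n + J) :
    cvC (n + J) (crt h A D τ pc) e x = D.cv ((ngOf n E h).ext J I).gr ⟨e, he⟩ ⟨x, hx⟩ := by
  rw [cvC, crt_tab h A D τ pc he, crt_rk h A D τ pc hx, (hT _ _ _ D hv).2.2.2.2, Fintype.card_fin]
  rfl

theorem crt_ind (hT : TabStmt) (hv : Function.Injective D.pos) {x y : ℕ} (hx : x < n + J)
    (hy : y < n + J) :
    indN ((crt h A D τ pc).2.2.1.getD x 0) ((crt h A D τ pc).2.2.1.getD y 0) =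
      ind (D.pos ⟨x, hx⟩) (D.pos ⟨y, hy⟩) := by
  rw [crt_rk h A D τ pc hx, crt_rk h A D τ pc hy, indN, ind]
  simp only [(hT _ _ ((ngOf n E h).ext J I).gr D hv).2.2.1]

theorem crt_alg (hT : TabStmt) (hv : Function.Injective D.pos) (f g : Fin E.length) :
    algC n E (crt h A D τ pc) f g =
      (ngOf n E h).algv J I D (f, g) + ∑ j, τ j * (ngOf n E h).hv J A I D j (f, g) := by
  have hs : ∀ e : Fin E.length, sN n E e < n + J := fun e =>
    ((ngOf n E h).ext J I).hs e (Nat.lt_add_right J e.2)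
  have ht : ∀ e : Fin E.length, tN n E e < n + J := fun e =>
    ((ngOf n E h).ext J I).ht e (Nat.lt_add_right J e.2)
  have hf := Nat.lt_add_right J f.2
  have hg := Nat.lt_add_right J g.2
  rw [algC, crt_len, sum_range, crt_cv h A D τ pc hT hv hg (ht f), crt_cv h A D τ pc hT hv hg (hs f),
    crt_cv h A D τ pc hT hv hf (ht g), crt_cv h A D τ pc hT hv hf (hs g),
    crt_ind h A D τ pc hT hv (ht g) (ht f), crt_ind h A D τ pc hT hv (ht g) (hs f),
    crt_ind h A D τ pc hT hv (hs g) (ht f), crt_ind h A D τ pc hT hv (hs g) (hs f)]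
  congr 1
  refine Finset.sum_congr rfl fun j _ => ?_
  have hj : E.length + j < E.length + J := Nat.add_lt_add_left j.2 _
  rw [crt_tw, crt_hs h A D τ pc j.2, crt_cv h A D τ pc hT hv hj (ht f),
    crt_cv h A D τ pc hT hv hj (hs f), crt_cv h A D τ pc hT hv hj (ht g),
    crt_cv h A D τ pc hT hv hj (hs g)]
  have e1 : ∀ e : Fin E.length, (⟨sN n E e, hs e⟩ : Fin ((ngOf n E h).ext J I).n) =
      Fin.castAdd J ((ngOf n E h).gr.s e) := fun e => Fin.ext (if_pos e.2)
  have e2 : ∀ e : Fin E.length, (⟨tN n E e, ht e⟩ : Fin ((ngOf n E h).ext J I).n) =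
      Fin.castAdd J ((ngOf n E h).gr.t e) := fun e => Fin.ext (if_pos e.2)
  rw [e1, e1, e2, e2]
  unfold NG.hv tv
  congr

theorem check_ok (hT : TabStmt) (hv : Function.Injective D.pos) (hS : (ngOf n E h).Sepr J A I)
    (hpc : ∀ e e', e = e' ∨ ((ngOf n E h).ext J I).gr.H e e' →
      pairOK (n + J) (pc e e') (D.sp e) (D.rk (((ngOf n E h).ext J I).gr.s e))
        (D.rk (((ngOf n E h).ext J I).gr.t e)) (D.tab ((ngOf n E h).ext J I).gr e)
        (D.sp e') (D.rk (((ngOf n E h).ext J I).gr.s e')) (D.rk (((ngOf n E h).ext J I).gr.t e'))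
        (D.tab ((ngOf n E h).ext J I).gr e') = true) {k : ℕ}
    (hk : ∑ f : Fin E.length, ∑ g : Fin E.length, (if sN n E f < sN n E g ∧ adjN E f g = false then
      ((ngOf n E h).algv J I D (f, g) + ∑ j, τ j * (ngOf n E h).hv J A I D j (f, g)).natAbs
        else 0) ≤ k) :
    check n E k (crt h A D τ pc) = true := by
  obtain ⟨-, t1, t2, -, -⟩ := hT _ _ ((ngOf n E h).ext J I).gr D hv
  rw [Fintype.card_fin] at t1
  simp only [check, crt_len, Bool.and_eq_true, List.all_eq_true, List.mem_range, decide_eq_true_eq,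
    Bool.or_eq_true, Bool.not_eq_true', decide_eq_false_iff_not]
  refine ⟨⟨⟨fun x hx => ⟨?_, fun y hy => ?_⟩, fun j hj e he => ?_⟩, fun e he e' he' => ?_⟩, ?_⟩
  · rw [crt_rk h A D τ pc hx]
    exact t1 _
  · rw [crt_rk h A D τ pc hx, crt_rk h A D τ pc hy]
    rcases lt_trichotomy (D.pos ⟨x, hx⟩) (D.pos ⟨y, hy⟩) with h' | h' | h'
    · exact Or.inr ((t2 _ _).1 h').ne
    · exact Or.inl (congrArg Fin.val (hv h'))
    · exact Or.inr ((t2 _ _).1 h').ne'
  · rw [crt_hs h A D τ pc hj]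
    by_cases hA : e ∈ A j
    · obtain ⟨a1, a2⟩ := hS j hj e he hA
      refine Or.inr ⟨a1, fun e' he' => ?_⟩
      by_cases hH : HN E (crt h A D τ pc).1 e e' = true
      · rw [or_assoc]
        exact Or.inr (a2 e' he' ((HN_iff h A (by omega) (by omega)).1 hH))
      · exact Or.inl (Or.inl (by simpa using hH))
    · exact Or.inl hA
  · by_cases hH : e = e' ∨ HN E (crt h A D τ pc).1 e e' = true
    · refine Or.inr ?_
      rw [crt_pc h A D τ pc he he', crt_sp h A D τ pc he, crt_sp h A D τ pc he',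
        crt_tab h A D τ pc he, crt_tab h A D τ pc he',
        crt_rk h A D τ pc (x := sN n E e) (((ngOf n E h).ext J I).hs e he),
        crt_rk h A D τ pc (x := tN n E e) (((ngOf n E h).ext J I).ht e he),
        crt_rk h A D τ pc (x := sN n E e') (((ngOf n E h).ext J I).hs e' he'),
        crt_rk h A D τ pc (x := tN n E e') (((ngOf n E h).ext J I).ht e' he')]
      exact hpc ⟨e, he⟩ ⟨e', he'⟩ (hH.imp Fin.ext (HN_iff h A he he').1)
    · exact Or.inl (by simpa using hH)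
  · simp only [sum_range, crt_alg h A D τ pc hT hv]
    exact hk

end cert

end VC

open VC VC.Sm in
theorem vcompl (_ : DerStmt) (hM : MainStmt) (hL : Lat2Stmt) (hP : PackStmt) (hZ : ZorStmt)
    (hT : TabStmt) : VerComplStmt := by
  classical
  obtain ⟨Q, hQ⟩ := Sm.bd (α := Crt)
  refine ⟨Q.comp (py (pa X)), fun n E h k ⟨D, hv, hc⟩ => ?_⟩
  rw [eval_comp, eval_py]
  obtain ⟨J, A, I, D', hJ, hS, hAI, hv', hr', hn', h4, hsp⟩ := hM _ (ng_symm h.bd) D hv
  have hk := lt_two_pow_sz k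
  generalize hx : n + E.length + sz k = x
  have hm : (ngOf n E h.bd).m = E.length := rfl
  have hn : (ngOf n E h.bd).n = n := rfl
  have hxx : E.length * E.length ≤ x * x := Nat.mul_le_mul (by omega) (by omega)
  have hJ' : x + J ≤ pa x := by
    unfold pa
    refine Nat.add_le_add_left (hJ.trans ?_) _
    unfold latB
    rw [hm]
    gcongr
  have hxa : x ≤ pa x := by omega
  generalize pa x = a at hJ' hxa
  have hab : a ≤ pb a := by unfold pb; omega
  have hb : D'.norm ≤ 2 ^ pb a := hn'.trans (bigB_le (by omega) (by omega))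
  have ha : a < 2 ^ pb a := Nat.lt_two_pow_self.trans_le (Nat.pow_le_pow_right two_pos hab)
  have hk' : k < 2 ^ pb a := hk.trans_le (Nat.pow_le_pow_right two_pos (by omega))
  have y1 : 2 * zB (2 * (2 * a + 1) * (2 * a + 1) + 4) (pb a + 2) ≤ py a := by
    unfold zB py; omega
  have y2 : 2 * (2 * a + 1) * (2 * a + 1) + 4 ≤ py a := by unfold py; omega
  have y3 : pb a + 4 + 20 * (a * a + 1) ^ 2 ≤ py a := by unfold py; omega
  have y4 : a ≤ py a := by unfold py; omega
  have y5 : 2 ^ pb a * 16 ≤ 2 ^ py a := by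
    rw [show 16 = 2 ^ 4 from rfl, ← pow_add]
    exact Nat.pow_le_pow_right two_pos (by omega)
  have hcard : Fintype.card (Fin ((ngOf n E h.bd).ext J I).n) = n + J := Fintype.card_fin _
  have hT' : 2 * (2 * (n + J) + 1) * (2 * (n + J) + 1) ≤ 2 * (2 * a + 1) * (2 * a + 1) := by
    gcongr <;> omega
  -- pair data
  choose pc pc1 pc2 using pair hP hZ hT (ext_symm (ng_symm h.bd) J I) hv' hr' (lam := pb a + 2)
    (y := py a) (by rw [hcard, pow_add]; omega) (by omega)
    (by rw [hcard]; refine le_trans ?_ y1; unfold zB; gcongr) (by rw [hcard]; omega)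
  rw [hcard] at pc2
  -- twist numbers
  let K : Type :=
    {p : Fin E.length × Fin E.length // sN n E p.1 < sN n E p.2 ∧ adjN E p.1 p.2 = false}
  have hK : ∀ f g : Fin E.length, (sN n E f < sN n E g ∧ adjN E f g = false) ↔
      ((ngOf n E h.bd).gr.s f < (ngOf n E h.bd).gr.s g ∧ ¬ (ngOf n E h.bd).gr.H f g) := fun f g => by
    rw [sN, sN, if_pos f.2, if_pos g.2, ← Bool.not_eq_true]
    rfl
  have hD : ∀ p : K, (D.alg (ngOf n E h.bd).gr p.1.1 p.1.2).natAbs ≤ k := fun p => by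
    refine le_trans ?_ hc
    unfold Sys.cost
    refine le_trans ?_ (Finset.single_le_sum (fun _ _ => Nat.zero_le _) (Finset.mem_univ p.1.1))
    refine le_trans ?_ (Finset.single_le_sum (fun _ _ => Nat.zero_le _) (Finset.mem_univ p.1.2))
    rw [if_pos ((hK _ _).1 p.2)]
  obtain ⟨τ, hτ, hτ'⟩ := hL K J (fun j p => (ngOf n E h.bd).hv J A I D' j p.1)
    (fun p => D.alg (ngOf n E h.bd).gr p.1.1 p.1.2 - (ngOf n E h.bd).algv J I D' p.1)
    (k + (4 * D'.norm + 6)) (fun j p => h4 j p.1)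
    (fun p => (Int.natAbs_sub_le _ _).trans (add_le_add (hD p) (abs_alg_le _ _ _ _))) (by
      obtain ⟨c, hc⟩ := (Submodule.mem_span_range_iff_exists_fun ℤ).1 hsp
      refine (Submodule.mem_span_range_iff_exists_fun ℤ).2 ⟨c, funext fun p => ?_⟩
      exact (Finset.sum_apply p _ _).trans ((Finset.sum_apply p.1 Finset.univ
        fun i => c i • (ngOf n E h.bd).hv J A I D' i).symm.trans (congrFun hc p.1)))
  refine ⟨crt h.bd A D' τ pc, check_ok h.bd A D' τ pc hT hv'.inj hS pc2 ?_, hQ _ _ ?_⟩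
  · refine le_trans (le_of_eq ?_) hc
    unfold Sys.cost
    refine Finset.sum_congr rfl fun f _ => Finset.sum_congr rfl fun g _ => ?_
    by_cases hfg : sN n E f < sN n E g ∧ adjN E f g = false
    · rw [if_pos hfg, if_pos ((hK _ _).1 hfg)]
      have := congrFun hτ ⟨(f, g), hfg⟩
      simp only [Finset.sum_apply, Pi.smul_apply, smul_eq_mul] at this
      exact congrArg Int.natAbs (sub_eq_iff_eq_add'.1 this).symm
    · rw [if_neg hfg, if_neg fun h' => hfg ((hK _ _).2 h')]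
  · have hme : ((ngOf n E h.bd).ext J I).m ≤ py a := by
      show E.length + J ≤ _
      omega
    have hne : ((ngOf n E h.bd).ext J I).n ≤ py a := by
      show n + J ≤ _
      omega
    obtain ⟨t0, t1, -, -, -⟩ := hT _ _ ((ngOf n E h.bd).ext J I).gr D' hv'.inj
    rw [hcard] at t0 t1
    refine ⟨sm_ofFn (by omega) fun j => ?_, sm_ofFn (by omega) fun j => ?_,
      sm_ofFn hne fun x => ?_, sm_ofFn hme fun _ => trivial, sm_ofFn hme fun e => ⟨?_, ?_⟩,
      sm_ofFn hme fun e => sm_ofFn hme (pc1 e)⟩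
    · obtain ⟨a1, a2, a3, a4⟩ := hAI j
      refine ⟨⟨by dsimp only; omega, fun e he => ?_⟩, by dsimp only; omega, fun e he => ?_⟩
      · have := a3 e he
        rw [sm_nat]
        omega
      · have := a4 e he
        rw [sm_nat]
        omega
    · have hc : Fintype.card K ≤ a * a := by
        refine (Fintype.card_subtype_le _).trans ?_
        rw [Fintype.card_prod, Fintype.card_fin]
        exact Nat.mul_le_mul (by omega) (by omega)
      refine (hτ' j).trans_lt (lt_of_lt_of_le ?_ (Nat.pow_le_pow_right two_pos y3))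
      rw [pow_add, pow_add]
      refine Nat.mul_lt_mul_of_lt_of_le (by omega) (by gcongr; omega) (Nat.two_pow_pos _)
    · have := t1 x
      rw [sm_nat]
      omega
    · rw [Sys.tab, List.length_map, List.length_range, tsz, t0]
      omega
    · intro z hz
      have := tab_le D' _ e z hz
      rw [sm_nat]
      omega

end Pool.Agent.MP_17db17_lc.H93
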