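import Pool.Agent.MP_17db17_lc.H93.Basic

set_option autoImplicit false

namespace Pool.Agent.MP_17db17_lc.H93

namespace VSound

theorem sum_range {M : Type} [AddCommMonoid M] (f : ℕ → M) (m : ℕ) :
    ((List.range m).map f).sum = ∑ i : Fin m, f i := by
  rw [← Finset.sum_range]
  induction m with
  | zero => simp
  | succ m ih =>
    rw [List.range_succ, List.map_append, List.sum_append, ih, Finset.sum_range_succ]
    simp

theorem ite_iff {α : Type} {p q : Prop} {hp : Decidable p} {hq : Decidable q} (h : p ↔ q)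
    (x y : α) : @ite α p hp x y = @ite α q hq x y := if_congr h rfl rfl

/-- first lists of the handles -/
def AA (hs : List (List ℕ × List ℕ)) (j : ℕ) : List ℕ := (hs.getD j ([], [])).1

/-- second lists of the handles -/
def II (hs : List (List ℕ × List ℕ)) (j : ℕ) : List ℕ := (hs.getD j ([], [])).2

variable {n : ℕ} {E : List (ℕ × ℕ)}

theorem H_iff (h : ∀ p ∈ E, p.1 < n ∧ p.2 < n) (hs : List (List ℕ × List ℕ)) (J e e' : ℕ) :
    ((ngOf n E h).ext J (II hs)).H e e' ↔ HN E hs e e' = true := by
  show (if e < E.length ∧ e' < E.length then adjN E e e' = true else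
    (e < e' ∧ e ∈ II hs (e' - E.length)) ∨ (e' < e ∧ e' ∈ II hs (e - E.length))) ↔ _
  unfold HN II
  split_ifs
  · rfl
  · simp only [Bool.or_eq_true, Bool.and_eq_true, decide_eq_true_eq]

theorem adjN_symm {e e' : ℕ} (h : adjN E e e' = true) : adjN E e' e = true := by
  unfold adjN at h ⊢
  simp only [Bool.or_eq_true, Bool.and_eq_true, decide_eq_true_eq] at h ⊢
  omega

theorem HN_symm {hs : List (List ℕ × List ℕ)} {e e' : ℕ} (h : HN E hs e e' = true) :
    HN E hs e' e = true := by
  unfold HN at h ⊢
  by_cases c : e < E.length ∧ e' < E.length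
  · rw [if_pos c] at h
    rw [if_pos c.symm]
    exact adjN_symm h
  · rw [if_neg c] at h
    rw [if_neg fun d => c d.symm, Bool.or_comm]
    exact h

theorem HN_noPar (g : GoodE n E) {hs : List (List ℕ × List ℕ)} {e e' : ℕ}
    (h : HN E hs e e' = true) : e ≠ e' ∧ ¬ (sN n E e = sN n E e' ∧ tN n E e = tN n E e') ∧
      ¬ (sN n E e = tN n E e' ∧ tN n E e = sN n E e') := by
  have b : ∀ i, i < E.length → (E.getD i (0, 0)).1 < (E.getD i (0, 0)).2 ∧
      (E.getD i (0, 0)).2 < n := fun i hi => by
    rw [List.getD_eq_getElem _ _ hi]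
    exact ⟨g.lt _ (List.getElem_mem hi), (g.bd _ (List.getElem_mem hi)).2⟩
  unfold HN at h
  unfold sN tN
  by_cases c : e < E.length ∧ e' < E.length
  · rw [if_pos c] at h
    unfold adjN at h
    simp only [Bool.and_eq_true, decide_eq_true_eq] at h
    have b1 := b e c.1
    have b2 := b e' c.2
    simp only [if_pos c.1, if_pos c.2]
    refine ⟨h.1, fun d => h.1 ?_, by omega⟩
    have : E.getD e (0, 0) = E.getD e' (0, 0) := Prod.ext d.1 d.2
    rw [List.getD_eq_getElem _ _ c.1, List.getD_eq_getElem _ _ c.2] at this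
    exact (g.nodup.getElem_inj_iff).1 this
  · rw [if_neg c] at h
    simp only [Bool.or_eq_true, Bool.and_eq_true, decide_eq_true_eq] at h
    have b1 := b e
    have b2 := b e'
    split_ifs <;> omega

end VSound

open VSound in
theorem vsound : SoundStmt → GlueStmt → PairStmt → VerSoundStmt := by
  intro hS hG hP n E g k c hc
  unfold check at hc
  simp only [Bool.and_eq_true, List.all_eq_true, List.mem_range, decide_eq_true_eq,
    Bool.or_eq_true, Bool.not_eq_true', decide_eq_false_iff_not] at hc
  obtain ⟨⟨⟨c1, c2⟩, c3⟩, c4⟩ := hc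
  have sy : ((ngOf n E g.bd).ext c.1.length (II c.1)).gr.Symm := fun e e' he =>
    (H_iff g.bd c.1 c.1.length _ _).2
      (HN_symm ((H_iff g.bd c.1 c.1.length _ _).1 he))
  have np : ((ngOf n E g.bd).ext c.1.length (II c.1)).gr.NoPar := fun e e' he => by
    obtain ⟨a1, a2, a3⟩ := HN_noPar g ((H_iff g.bd c.1 c.1.length _ _).1 he)
    exact ⟨fun d => a1 (congrArg Fin.val d),
      fun d => a2 ⟨congrArg Fin.val d.1, congrArg Fin.val d.2⟩,
      fun d => a3 ⟨congrArg Fin.val d.1, congrArg Fin.val d.2⟩⟩
  have rinj : Function.Injective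
      fun x : Fin ((ngOf n E g.bd).ext c.1.length (II c.1)).n => c.2.2.1.getD x 0 := by
    intro x y hxy
    rcases (c1 x x.2).2 y y.2 with d | d
    · exact Fin.ext d
    · exact absurd hxy d
  have rlt : ∀ x : Fin ((ngOf n E g.bd).ext c.1.length (II c.1)).n,
      c.2.2.1.getD x 0 < n + c.1.length := fun x => (c1 x x.2).1
  obtain ⟨D', v', o', w'⟩ := hG _ _ _ sy np (n + c.1.length) (fun x => c.2.2.1.getD x 0)
    (fun e => c.2.2.2.1.getD e false) (fun e => c.2.2.2.2.1.getD e []) rinj rlt (by
      intro e e' he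
      refine hP _ _ _ np _ _ _ _ rinj rlt e e' he ((c.2.2.2.2.2.getD e []).getD e' ([], [], [])) ?_
      rcases c3 e e.2 e' e'.2 with d | d
      · rw [Bool.or_eq_false_iff, decide_eq_false_iff_not] at d
        rcases he with he | he
        · exact absurd (congrArg Fin.val he) d.1
        · rw [(H_iff g.bd c.1 c.1.length _ _).1 he] at d
          exact absurd d.2 (by simp)
      · exact d)
  have sep : (ngOf n E g.bd).Sepr c.1.length (AA c.1) (II c.1) := by
    intro j hj e he ha
    rcases c2 j hj e he with d | d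
    · exact absurd ha d
    · refine ⟨d.1, fun e' he' hh => ?_⟩
      rcases d.2 e' he' with (d' | d') | d'
      · rw [(H_iff g.bd c.1 c.1.length _ _).1 hh] at d'
        exact absurd d' (by simp)
      · exact Or.inl d'
      · exact Or.inr d'
  obtain ⟨D, v, a⟩ := hS (ngOf n E g.bd) (fun e e' he => adjN_symm he) c.1.length (AA c.1)
    (II c.1) sep D' v' fun j => c.2.1.getD j 0
  refine ⟨D, v, le_trans (le_of_eq ?_) c4⟩
  have io : ∀ x y, ind (D'.pos x) (D'.pos y) = indN (c.2.2.1.getD x 0) (c.2.2.1.getD y 0) := by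
    intro x y
    unfold ind indN
    exact if_congr (o' x y) rfl rfl
  have es : ∀ f : Fin E.length, ((ngOf n E g.bd).gr.s f : ℕ) = sN n E f := fun f =>
    (if_pos f.2).symm
  have et : ∀ f : Fin E.length, ((ngOf n E g.bd).gr.t f : ℕ) = tN n E f := fun f =>
    (if_pos f.2).symm
  have key : ∀ f f' : Fin E.length, D.alg (ngOf n E g.bd).gr f f' = algC n E c f f' := by
    intro f f'
    rw [a (f, f')]
    unfold algC
    rw [sum_range]
    congr 1
    · unfold NG.algv Sys.alg
      simp only [w', io]
      rfl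
    · refine Finset.sum_congr rfl fun j _ => ?_
      congr 1
      unfold NG.hv tv
      simp only [w']
      rw [← es, ← es, ← et, ← et]
      congr 2
      · exact ite_iff Iff.rfl _ _
      · exact ite_iff Iff.rfl _ _
  unfold Sys.cost
  rw [sum_range]
  refine Finset.sum_congr rfl fun f _ => ?_
  rw [sum_range]
  refine Finset.sum_congr rfl fun f' _ => ?_
  rw [key]
  refine ite_iff (and_congr ?_ ?_) _ _
  · rw [← es, ← es]
    exact Iff.rfl
  · exact (Bool.not_eq_true _).to_iff

end Pool.Agent.MP_17db17_lc.H93
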