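import Pool.Agent.MP_17db17_lc.H93.Spec

/-!
A long system has a vertex free window in which one element has many points and every element
that enters the window is dense.
-/

set_option autoImplicit false

namespace Pool.Agent.MP_17db17_lc.H93

namespace Win

open Classical

variable {ι V : Type} [Fintype ι] (D : Sys ι V ℤ)

/-- the elements with a point in `[p, q]` -/
noncomputable def users (p q : ℤ) : Finset ι :=
  Finset.univ.filter fun g => ∃ y ∈ D.mid g, p ≤ y ∧ y ≤ q

theorem mem_users {p q : ℤ} {g : ι} : g ∈ users D p q ↔ ∃ y ∈ D.mid g, p ≤ y ∧ y ≤ q := by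
  simp [users]

/-- shrink the window until every element in it is dense -/
theorem shrink (f0 : ι) {K : ℕ} (hK : 1 ≤ K) (r : ℕ) : ∀ lo hi : ℤ,
    (∀ x, ¬ (lo ≤ D.pos x ∧ D.pos x ≤ hi)) → (users D lo hi).card ≤ r →
    K ^ r ≤ D.cntw f0 lo hi → ∃ lo hi κ, Window D f0 lo hi κ K := by
  induction r with
  | zero =>
    intro lo hi _ h1 h2
    obtain ⟨y, hy⟩ := List.exists_mem_of_length_pos
      (l := (D.mid f0).filter fun y => decide (lo ≤ y ∧ y ≤ hi)) h2
    rw [List.mem_filter, decide_eq_true_iff] at hy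
    have h3 := Finset.card_pos.2 ⟨f0, (mem_users D).2 ⟨y, hy.1, hy.2⟩⟩
    omega
  | succ r ih =>
    intro lo hi h0 h1 h2
    have h3 : K ^ r ≤ D.cntw f0 lo hi / K := (Nat.le_div_iff_mul_le hK).2 (by rwa [← pow_succ])
    by_cases hd : ∀ g, (∃ y ∈ D.mid g, lo ≤ y ∧ y ≤ hi) → ∀ p q, lo ≤ p → q ≤ hi →
        D.cntw f0 lo hi / K < D.cntw f0 p q → ∃ y ∈ D.mid g, p ≤ y ∧ y ≤ q
    · exact ⟨lo, hi, _, h0, (Nat.one_le_pow _ _ hK).trans h3, Nat.mul_div_le _ _, hd⟩
    · simp only [not_forall] at hd
      obtain ⟨g, hg, p, q, hp, hq, h4, h5⟩ := hd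
      refine ih p q (fun x hx => h0 x ⟨hp.trans hx.1, hx.2.trans hq⟩) ?_ (h3.trans h4.le)
      have h6 : (users D p q).card < (users D lo hi).card := by
        refine Finset.card_lt_card ⟨fun e he => ?_, fun h => ?_⟩
        · obtain ⟨y, hy, a, b⟩ := (mem_users D).1 he
          exact (mem_users D).2 ⟨y, hy, hp.trans a, b.trans hq⟩
        · exact h5 ((mem_users D).1 (h ((mem_users D).2 hg)))
      omega

variable [Fintype V]

/-- the number of vertices below a point -/
noncomputable def below (y : ℤ) : ℕ := (Finset.univ.filter fun x => D.pos x < y).card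

omit [Fintype ι] in
/-- an element with many points has many points between two consecutive vertices -/
theorem first {G : Gr ι V} (h : D.Valid G) (f0 : ι) {N : ℕ}
    (hN : (Fintype.card V + 1) * N < (D.mid f0).length) :
    ∃ lo hi, (∀ x, ¬ (lo ≤ D.pos x ∧ D.pos x ≤ hi)) ∧ N ≤ D.cntw f0 lo hi := by
  obtain ⟨j, -, hj⟩ := Finset.exists_lt_card_fiber_of_mul_lt_card_of_maps_to
    (s := (D.mid f0).toFinset) (t := Finset.range (Fintype.card V + 1)) (f := below D) (n := N)
    (fun y _ => Finset.mem_range.2 (Nat.lt_succ_of_le (Finset.card_le_univ _)))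
    (by rwa [Finset.card_range, List.toFinset_card_of_nodup (h.nodup f0)])
  set S := (D.mid f0).toFinset.filter fun y => below D y = j with hS
  have hne : S.Nonempty := Finset.card_pos.1 (by omega)
  have hm : ∀ y ∈ S, y ∈ D.mid f0 ∧ below D y = j := fun y hy => by
    simpa only [hS, Finset.mem_filter, List.mem_toFinset] using hy
  refine ⟨S.min' hne, S.max' hne, fun x hx => ?_, hj.le.trans ?_⟩
  · have h1 := hm _ (S.min'_mem hne)
    have h2 := hm _ (S.max'_mem hne)
    have h3 : D.pos x < S.max' hne := lt_of_le_of_ne hx.2 fun e => h.notV f0 x (e ▸ h2.1)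
    have h4 : below D (S.min' hne) < below D (S.max' hne) := by
      refine Finset.card_lt_card ⟨fun z hz => ?_, fun h' => ?_⟩
      · simp only [Finset.mem_filter, Finset.mem_univ, true_and] at hz ⊢
        exact hz.trans_le (hx.1.trans hx.2)
      · have := h' (Finset.mem_filter.2 ⟨Finset.mem_univ x, h3⟩)
        exact absurd (Finset.mem_filter.1 this).2 (not_lt.2 hx.1)
    omega
  · refine le_trans (Finset.card_le_card fun y hy => ?_) (List.toFinset_card_le _)
    rw [List.mem_toFinset, List.mem_filter, decide_eq_true_iff]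
    exact ⟨(hm y hy).1, S.min'_le y hy, S.le_max' y hy⟩

end Win

theorem win : WinStmt := by
  intro ι V _ _ G D h K hK hn
  have h1 : ∑ _e : ι, (2 * Fintype.card V + 1) * K ^ (Fintype.card ι + 1) <
      ∑ e, (D.mid e).length := by
    rwa [Finset.sum_const, Finset.card_univ, smul_eq_mul, ← mul_assoc]
  obtain ⟨f0, -, h2⟩ := Finset.exists_lt_of_sum_lt h1
  obtain ⟨lo, hi, h3, h4⟩ := Win.first D h f0 (N := K ^ (Fintype.card ι + 1))
    ((Nat.mul_le_mul_right _ (by omega)).trans_lt h2)
  exact ⟨f0, Win.shrink D f0 hK _ lo hi h3 ((Finset.card_le_univ _).trans (Nat.le_succ _)) h4⟩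

end Pool.Agent.MP_17db17_lc.H93
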