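import Pool.Agent.MP_17db17_lc.H93.Zor2

/-!
Short derivations exist: the potential, the loop, the first and the last state.
-/

set_option autoImplicit false

namespace Pool.Agent.MP_17db17_lc.H93

namespace Zor

open Der

variable {vp : List ℤ} {B : List Block} {N : ℕ} {c : Chord ℤ}

/-- room for doubling a height -/
def pot (k lam h : ℕ) : ℕ := (k + 1) * (lam + 1 - Nat.log 2 h)

theorem pot_anti (k lam : ℕ) {a b : ℕ} (h : a ≤ b) : pot k lam b ≤ pot k lam a :=
  Nat.mul_le_mul_left _ (by have := Nat.log_mono_right (b := 2) h; omega)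

theorem log_le {lam a : ℕ} (h : a ≤ 2 ^ lam) : Nat.log 2 a ≤ lam := by
  simpa [Nat.log_pow] using Nat.log_mono_right (b := 2) h

theorem pot_pos (k : ℕ) {lam a : ℕ} (h : a ≤ 2 ^ lam) : k + 1 ≤ pot k lam a :=
  Nat.le_mul_of_pos_right _ (by have := log_le h; omega)

theorem pot_double (k : ℕ) {lam a b : ℕ} (h1 : 1 ≤ a) (h : a ≤ 2 ^ lam) (h2 : a * 2 ≤ b) :
    pot k lam b + (k + 1) ≤ pot k lam a := by
  have a1 := log_le h
  have a2 := Nat.log_mono_right (b := 2) h2
  rw [Nat.log_mul_base (by norm_num) (by omega)] at a2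
  unfold pot
  rw [← Nat.mul_succ]
  exact Nat.mul_le_mul_left _ (by omega)

/-- the part of the potential that belongs to the facts which do not lead -/
def rest (k lam t : ℕ) (S : Multiset Fact) : ℕ :=
  (S.map fun φ => pot k lam φ.2.2.2.1 + if φ.2.2.2.1 < t then 1 else 0).sum

theorem rest_cons (k lam t : ℕ) (φ : Fact) (S : Multiset Fact) : rest k lam t (φ ::ₘ S) =
    (pot k lam φ.2.2.2.1 + if φ.2.2.2.1 < t then 1 else 0) + rest k lam t S := by simp [rest]

theorem rest_le (k lam t t' : ℕ) (S : Multiset Fact) :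
    rest k lam t S ≤ rest k lam t' S + S.card := by
  induction S using Multiset.induction_on with
  | empty => simp [rest]
  | cons φ S ih =>
    rw [rest_cons, rest_cons, Multiset.card_cons]
    split_ifs <;> omega

theorem rest_rel (k lam : ℕ) {t t' : ℕ} (h : t' ≤ t) {Φ : Fact} {S S' : Multiset Fact}
    (r : Multiset.Rel (RRel vp B c Φ) S S') : rest k lam t' S' ≤ rest k lam t S :=
  rel_sum r (f := fun a => pot k lam a + if a < t then 1 else 0)
    (g := fun a => pot k lam a + if a < t' then 1 else 0) fun a b hab => by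
    have := pot_anti k lam hab
    split_ifs <;> omega

section loop
variable (P : Packed vp B N) {lam k : ℕ} (hN : N + 1 ≤ 2 ^ lam) (hc : c.2.1 ∈ vp)
  {F : List Entry → Prop}
  (hF : ∀ Γ M S, Good vp B N Γ → St vp B c Γ M S → M ≤ 0 → ∃ Γ', Ext vp B N Γ Γ' 2 ∧ F Γ')

/-- with a leading fact and potential below `n` the derivation ends after `r` more entries -/
def Cl (vp : List ℤ) (B : List Block) (N : ℕ) (c : Chord ℤ) (F : List Entry → Prop)
    (k lam n r : ℕ) : Prop :=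
  ∀ Γ M K S, Good vp B N Γ → St vp B c Γ M (K ::ₘ S) → Kg K (M - 1) → S.card ≤ k →
    pot k lam K.2.2.2.1 + rest k lam K.2.2.2.1 S < n → ∃ Γ', Ext vp B N Γ Γ' r ∧ F Γ'

include P hF in
theorem noKing {n r : ℕ} (h : Cl vp B N c F k lam n r) : ∀ (m : ℕ) (Γ : List Entry) (M : ℤ)
    (S : Multiset Fact), M ≤ m → Good vp B N Γ → St vp B c Γ M S → S.card ≤ k →
    rest k lam 0 S + k < n → ∃ Γ', Ext vp B N Γ Γ' (r + 2) ∧ F Γ' := by
  intro m
  induction m with
  | zero =>
    intro Γ M S hM g s _ _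
    obtain ⟨Γ', x, f⟩ := hF Γ M S g s hM
    exact ⟨Γ', x.mono (by omega), f⟩
  | succ m ih =>
    intro Γ M S hM g s hk hn
    by_cases h0 : M ≤ m
    · exact ih Γ M S h0 g s hk hn
    by_cases hv : M - 1 ∈ vp
    · refine ih Γ (M - 1) S (by omega) g ⟨s.ok, fun q x hx => ?_, s.trk⟩ hk hn
      have : x ≠ M - 1 := fun e => hx (e ▸ hv)
      rw [s.cnt q x hx]
      exact if_congr (by omega) rfl rfl
    obtain ⟨φ, hφ, hp⟩ := exists_of_NS (S := S) (q := true) (x := M - 1)
      (by rw [s.cnt _ _ hv, if_pos (by omega)])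
    obtain ⟨T, rfl⟩ := Multiset.exists_cons_of_mem hφ
    obtain ⟨Γ1, K, x1, s1, k1, e1⟩ := kingOf P g s hv hp
    rw [Multiset.card_cons] at hk
    rw [rest_cons] at hn
    obtain ⟨Γ2, x2, f⟩ := h Γ1 M K T x1.good s1 k1 (by omega) (by
      have := rest_le k lam K.2.2.2.1 0 T
      rw [e1] at this ⊢
      omega)
    exact ⟨Γ2, (x1.trans x2).mono (by omega), f⟩

include P hN hF in
theorem round1 {n r : ℕ} (h : Cl vp B N c F k lam n r) {Γ : List Entry} {M : ℤ} {K : Fact}
    {S : Multiset Fact} (g : Good vp B N Γ) (s : St vp B c Γ M (K ::ₘ S)) (kg : Kg K (M - 1))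
    (no : NoOv K) (hk : S.card ≤ k) (hn : pot k lam K.2.2.2.1 + rest k lam K.2.2.2.1 S < n + 1) :
    ∃ Γ', Ext vp B N Γ Γ' (r + (5 * k + 11)) ∧ F Γ' := by
  have hb : ∀ φ ∈ K ::ₘ S, 1 ≤ φ.2.2.2.1 ∧ φ.2.2.2.1 ≤ 2 ^ lam := fun φ hφ => by
    have := hgt_le P ((s.ok φ hφ).holds P g) (s.ok φ hφ).2
    omega
  obtain ⟨a1, a2⟩ := hb K (Multiset.mem_cons_self _ _)
  rcases step1 P g s kg no with ⟨Γ1, M1, S1, x1, s1, r1⟩ |
    ⟨Γ1, M1, K', C, C', S0, S0', rfl, x1, s1, k1, r1, b1, b2⟩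
  · have := Multiset.card_eq_card_of_rel r1
    obtain ⟨Γ2, x2, f⟩ := noKing P hF h M1.toNat Γ1 M1 S1 (by omega) x1.good s1 (by omega) (by
      have := rest_rel k lam (Nat.zero_le K.2.2.2.1) r1
      have := pot_pos k a2
      omega)
    exact ⟨Γ2, (x1.trans x2).mono (by omega), f⟩
  · have e := Multiset.card_eq_card_of_rel r1
    obtain ⟨c1, c2⟩ := hb C (by simp)
    rw [Multiset.card_cons] at hk
    obtain ⟨Γ2, x2, f⟩ := h Γ1 M1 K' _ x1.good s1 k1 (by rw [Multiset.card_cons]; omega) (by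
      rw [rest_cons] at hn ⊢
      have d1 := rest_le k lam K'.2.2.2.1 K.2.2.2.1 S0'
      have d2 := rest_rel k lam (le_refl K.2.2.2.1) r1
      have d3 := pot_anti k lam (show C.2.2.2.1 ≤ K'.2.2.2.1 by omega)
      have d4 := pot_anti k lam (show K.2.2.2.1 ≤ C'.2.2.2.1 by omega)
      by_cases h1 : K.2.2.2.1 ≤ C.2.2.2.1
      · have := pot_double k a1 a2 (show _ ≤ C'.2.2.2.1 by omega)
        split_ifs at hn ⊢ <;> omega
      · rcases b2 with b2 | b2
        · have := rest_rel k lam (show K'.2.2.2.1 ≤ K.2.2.2.1 by omega) r1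
          split_ifs at hn ⊢ <;> omega
        · have := pot_double k c1 c2 (show _ ≤ K'.2.2.2.1 by omega)
          split_ifs at hn ⊢ <;> omega)
    exact ⟨Γ2, (x1.trans x2).mono (by rw [Multiset.card_cons]; omega), f⟩

include P hN hc hF in
theorem loop (n : ℕ) : Cl vp B N c F k lam n (n * (6 * lam + 10 * k + 13)) := by
  induction n with
  | zero => intro _ _ _ _ _ _ _ _ h; omega
  | succ n ih =>
    intro Γ M K S g s kg hk hn
    rw [Nat.succ_mul]
    by_cases no : NoOv K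
    · obtain ⟨Γ1, x1, f⟩ := round1 P hN hF ih g s kg no hk hn
      exact ⟨Γ1, x1.mono (by omega), f⟩
    · obtain ⟨Γ1, M1, K1, S1, x1, s1, k1, n1, e1, Φ, r1⟩ := step2 P hN hc g s kg no
      have := Multiset.card_eq_card_of_rel r1
      obtain ⟨Γ2, x2, f⟩ := round1 P hN hF ih x1.good s1 k1 n1 (by omega) (by
        have := rest_rel k lam (le_refl K.2.2.2.1) r1
        rw [e1]
        omega)
      exact ⟨Γ2, (x1.trans x2).mono (by omega), f⟩

end loop

/-! ## The first state -/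

theorem basics (P : Packed vp B N) : ∀ l : List Block, (∀ k ∈ l, k ∈ B) →
    ∃ Γ, Ext vp B N [] Γ l.length ∧ ∀ k ∈ l, OK vp Γ (basicF vp k)
  | [], _ => ⟨[], Ext.refl ⟨rfl, by simp⟩, by simp⟩
  | k :: l, h => by
    obtain ⟨Γ, x, o⟩ := basics P l fun k hk => h k (List.mem_cons_of_mem _ hk)
    obtain ⟨Γ', x', o'⟩ := ok_basic P x.good (h k List.mem_cons_self)
    refine ⟨Γ', x.trans x', fun k' hk' => ?_⟩
    rcases List.mem_cons.1 hk' with rfl | hk'
    · exact o'
    · exact (o k' hk').ext x'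

theorem nn_basic (k : Block) (q : Bool) (x : ℤ) : nn (basicF vp k) q x =
    (if k.1 = q ∧ k.2.1 ≤ x ∧ x < k.2.1 + k.2.2.2 then 1 else 0) +
      if k.1 = q ∧ k.2.2.1 - k.2.2.2 < x ∧ x ≤ k.2.2.1 then 1 else 0 := by
  simp only [nn, ns, On, basicF]
  congr 1 <;> exact if_congr (and_congr_right fun _ => by omega) rfl rfl

theorem sum_le_one {f : Block → ℕ} : ∀ l : List Block, l.Nodup → (∀ k ∈ l, f k ≤ 1) →
    (∀ k ∈ l, ∀ k' ∈ l, 1 ≤ f k → 1 ≤ f k' → k = k') → (l.map f).sum ≤ 1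
  | [], _, _, _ => by simp
  | k :: l, h, h1, h2 => by
    rw [List.nodup_cons] at h
    rw [List.map_cons, List.sum_cons]
    have ih := sum_le_one l h.2 (fun a ha => h1 a (List.mem_cons_of_mem _ ha))
      fun a ha b hb => h2 a (List.mem_cons_of_mem _ ha) b (List.mem_cons_of_mem _ hb)
    by_cases h3 : 1 ≤ f k
    · have : (l.map f).sum = 0 := by
        refine List.sum_eq_zero fun y hy => ?_
        obtain ⟨a, ha, rfl⟩ := List.mem_map.1 hy
        by_contra h4
        exact h.1 (h2 k List.mem_cons_self a (List.mem_cons_of_mem _ ha) h3 (by omega) ▸ ha)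
      have := h1 k List.mem_cons_self
      omega
    · omega

theorem first_cnt (P : Packed vp B N) (q : Bool) (x : ℤ) (hx : x ∉ vp) :
    NS (B.dedup.map (basicF vp) : List Fact) q x = if 0 ≤ x ∧ x < N then 1 else 0 := by
  have le : NS (B.dedup.map (basicF vp) : List Fact) q x ≤ 1 := by
    simp only [NS, Multiset.map_coe, Multiset.sum_coe, List.map_map]
    refine sum_le_one _ (List.nodup_dedup B) (fun k hk => ?_) fun k hk k' hk' h h' => ?_
    · have := (Det.ok1 P.ok (List.mem_dedup.1 hk)).2.1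
      simp only [Function.comp, nn_basic]
      split_ifs <;> omega
    · have a := (Det.ok1 P.ok (List.mem_dedup.1 hk)).2.1
      have a' := (Det.ok1 P.ok (List.mem_dedup.1 hk')).2.1
      simp only [Function.comp, nn_basic] at h h'
      have b : k.1 = q ∧ (k.2.1 ≤ x ∧ x < k.2.1 + k.2.2.2 ∨ k.2.2.1 - k.2.2.2 < x ∧ x ≤ k.2.2.1) := by
        split_ifs at h <;> tauto
      have b' : k'.1 = q ∧
          (k'.2.1 ≤ x ∧ x < k'.2.1 + k'.2.2.2 ∨ k'.2.2.1 - k'.2.2.2 < x ∧ x ≤ k'.2.2.1) := by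
        split_ifs at h' <;> tauto
      have b2 := b.2
      have b2' := b'.2
      rcases Det.ok2 P.ok (List.mem_dedup.1 hk) (List.mem_dedup.1 hk') (b.1.trans b'.1.symm) with
        c | c | c | ⟨c, d⟩ | ⟨c, d⟩
      · exact c
      · have := Det.leV_ne hx c
        omega
      · have := Det.leV_ne hx c
        omega
      · have := Det.leV_ne hx c
        have := Det.leV_ne hx d
        omega
      · have := Det.leV_ne hx c
        have := Det.leV_ne hx d
        omega
  split_ifs with h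
  · obtain ⟨y, k, hk, hq, i, hi, e⟩ := P.cover x h.1 h.2 hx q
    have := nn_le_NS (S := (B.dedup.map (basicF vp) : List Fact)) (φ := basicF vp k)
      (Multiset.mem_coe.2 (List.mem_map_of_mem (List.mem_dedup.2 hk))) q x
    rw [nn_basic] at this
    simp only [hq, true_and] at this
    split_ifs at this <;> omega
  · by_contra h0
    obtain ⟨φ, hφ, h1⟩ := exists_of_NS (Nat.one_le_iff_ne_zero.2 h0)
    obtain ⟨k, hk, rfl⟩ := List.mem_map.1 (Multiset.mem_coe.1 hφ)
    rw [nn_basic] at h1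
    by_cases h2 : k.1 = q ∧ k.2.1 ≤ x ∧ x < k.2.1 + k.2.2.2
    · exact h (P.bin q x _ ⟨k, List.mem_dedup.1 hk, h2.1, (x - k.2.1).toNat, by omega,
        Or.inl ⟨by omega, rfl⟩⟩)
    · rw [if_neg h2] at h1
      split_ifs at h1 with h3
      · exact h (P.bin q x _ ⟨k, List.mem_dedup.1 hk, h3.1, (k.2.2.1 - x).toNat, by omega,
          Or.inr ⟨rfl, by omega⟩⟩)
      · omega

theorem first_uses (P : Packed vp B N) (h : BCh B c.1 c.2.1 c.2.2) :
    ∃ k ∈ B, Uses vp B c (basicF vp k) := by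
  obtain ⟨k, hk, hq, i, hi, e⟩ := h
  have hb : blockOK vp k = true := by
    have := P.ok
    simp only [blocksOK, List.all_eq_true, Bool.and_eq_true] at this
    exact (this k hk).1
  obtain ⟨m, hm⟩ := Der.basic hk hb i hi
  have : m = [] := List.length_eq_zero_iff.1 (by have : m.length + 1 = 1 := hm.2.1; omega)
  subst this
  refine ⟨k, hk, i, hi, [], hm, ?_⟩
  obtain ⟨π, x, y⟩ := c
  simp only [chs, basicF, List.nil_append, chords, List.mem_singleton, rv, Prod.mk.injEq] at hq e ⊢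
  rcases e with e | e
  · exact Or.inl ⟨hq.symm, by omega, by omega⟩
  · exact Or.inr ⟨hq.symm, by omega, by omega⟩

/-! ## The last state -/

theorem last (P : Packed vp B N) {π : Bool} {u v y : ℤ} {m : List ℤ} (hw : Walk vp B π u m v)
    (hu : u ∈ vp) (hv : v ∈ vp) (ho : u = v → Odd m.length) {w : List ℕ}
    (ht : ∀ j < tsz vp, cnt vp π (u :: (m ++ [v])) j = w.getD j 0)
    (hy : (m ++ [v]).head? = some y) (Γ : List Entry) (M : ℤ) (S : Multiset Fact)
    (g : Good vp B N Γ) (s : St vp B (π, u, y) Γ M S) (hM : M ≤ 0) :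
    ∃ Γ', Ext vp B N Γ Γ' 2 ∧ finalOK vp Γ' π u v w = true := by
  have key : ∀ (Γ : List Entry) (φ : Fact) (i : ℕ) (m' : List ℤ), Good vp B N Γ → OK vp Γ φ →
      i < φ.2.2.1 → HW vp B φ i m' → (π, u, y) ∈ chs φ i m' →
      φ.2.1.2.1 + φ.2.1.2.2.1 * i ∈ vp →
      ∃ Γ', Ext vp B N Γ Γ' 1 ∧ finalOK vp Γ' π u v w = true := by
    intro Γ φ i m' g o hi h hc hb
    obtain ⟨e1, e2, e3⟩ := first_chord h.1 hc hu
    dsimp only at e1 e2 e3
    obtain ⟨h1, -, h3, -, -, h6⟩ := h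
    rw [← e1, ← e2] at h1 h6
    obtain ⟨rfl, e4⟩ := walk_det P.ok hv hb m m' π u hw h1 (hy.trans e3.symm)
    obtain ⟨Γ', x, ⟨z, hz, ez⟩, -⟩ := ok_sub P g o (o := i) (δ := 1) (L := 1) (Or.inl rfl) le_rfl
      (by omega) (by omega) (by omega) (by omega)
    refine ⟨Γ', x, ?_⟩
    simp only [finalOK, List.any_eq_true, Bool.and_eq_true, Bool.or_eq_true, decide_eq_true_eq,
      List.all_eq_true, List.mem_range]
    refine ⟨z, hz, ?_⟩
    rw [ez]
    refine ⟨⟨⟨⟨⟨e1.symm, e2.symm⟩, e4.symm⟩, le_rfl⟩, ?_⟩, fun j hj => ?_⟩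
    · by_cases e : u = v
      · right
        have := Nat.odd_iff.1 (ho e)
        change φ.2.1.1 ≠ π
        rw [h3, if_neg (by omega), ← e1]
        simp
      · exact Or.inl e
    · change φ.2.2.2.2.getD j 0 = _
      rw [← h6 j hj, ← e4, ht j hj]
  obtain ⟨φ, hφ, i, hi, m', h, hc⟩ := s.trk
  have o := s.ok φ hφ
  have vx : ∀ q x, 1 ≤ nn φ q x → x ∈ vp := fun q x hn => by
    by_contra hx
    have := s.lt (q := q) hx (hn.trans (nn_le_NS hφ q x))
    omega
  rcases hc with hc | hc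
  · obtain ⟨Γ', x, f⟩ := key Γ φ i m' g o hi h hc
      (vx _ _ (nn_pos.2 (Or.inr (on_of_idx o.2.e2' hi))))
    exact ⟨Γ', x.mono (by omega), f⟩
  · obtain ⟨Γ1, x1, o1⟩ := ok_swap P g o
    obtain ⟨Γ', x, f⟩ := key Γ1 _ i _ x1.good o1 hi (hw_swap h).1
      (by rw [(hw_swap h).2]; exact List.mem_reverse.2 (List.mem_map.2 ⟨_, hc, rfl⟩))
      (vx _ _ (nn_pos.2 (Or.inl (on_of_idx o.2.e1 hi))))
    exact ⟨Γ', x1.trans x, f⟩

theorem bound (k lam : ℕ) :
    k + ((k * ((k + 1) * (lam + 1)) + k + 1) * (6 * lam + 10 * k + 13) + 2) ≤ zB k lam := by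
  obtain ⟨s, hs⟩ : ∃ s, s = k + lam + 1 := ⟨_, rfl⟩
  have h1 : k * ((k + 1) * (lam + 1)) ≤ s * (s * s) :=
    Nat.mul_le_mul (by omega) (Nat.mul_le_mul (by omega) (by omega))
  have h2 : s ≤ s * (s * s) := Nat.le_mul_of_pos_right _ (Nat.mul_pos (by omega) (by omega))
  have h3 : (k * ((k + 1) * (lam + 1)) + k + 1) * (6 * lam + 10 * k + 13) ≤
      (2 * (s * (s * s))) * (13 * s) := Nat.mul_le_mul (by omega) (by omega)
  have h4 : s * (s * s) ≤ s * (s * s) * s := Nat.le_mul_of_pos_right _ (by omega)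
  have h5 : 2 * (s * (s * s)) * (13 * s) = 26 * (s * (s * s) * s) := by ring
  have h6 : zB k lam = 100 * (s * (s * s) * s) := by rw [zB, ← hs]; ring
  omega

end Zor

open Zor in
theorem zor : ZorStmt := by
  intro vp B N lam P hN π u m v hw hu hv ho w ht
  obtain ⟨y, hy, hb⟩ : ∃ y, (m ++ [v]).head? = some y ∧ BCh B π u y := by
    cases m with
    | nil => exact ⟨v, rfl, hw.1 (π, u, v) (by simp)⟩
    | cons t l => exact ⟨t, rfl, hw.1 (π, u, t) (by simp)⟩
  obtain ⟨Γ, x, o⟩ := basics P B.dedup fun k hk => List.mem_dedup.1 hk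
  have hl : B.dedup.length ≤ B.length := (List.dedup_sublist B).length_le
  have s : St vp B (π, u, y) Γ N (B.dedup.map (basicF vp) : List Fact) := by
    refine ⟨fun φ hφ => ?_, first_cnt P, ?_⟩
    · obtain ⟨k, hk, rfl⟩ := List.mem_map.1 (Multiset.mem_coe.1 hφ)
      exact o k hk
    · obtain ⟨k, hk, us⟩ := first_uses (c := (π, u, y)) P hb
      exact ⟨_, Multiset.mem_coe.2 (List.mem_map_of_mem (List.mem_dedup.2 hk)), us⟩
  have hF := last P hw hu hv ho ht hy
  have hr : rest B.length lam 0 (B.dedup.map (basicF vp) : List Fact) ≤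
      B.length * ((B.length + 1) * (lam + 1)) := by
    refine (Multiset.sum_le_card_nsmul _ ((B.length + 1) * (lam + 1)) fun z hz => ?_).trans ?_
    · obtain ⟨φ, -, rfl⟩ := Multiset.mem_map.1 hz
      rw [if_neg (Nat.not_lt_zero _), add_zero]
      exact Nat.mul_le_mul_left _ (Nat.sub_le _ _)
    · rw [Multiset.card_map, Multiset.coe_card, List.length_map, smul_eq_mul]
      exact Nat.mul_le_mul_right _ hl
  obtain ⟨Γ', x', f⟩ := noKing P hF (loop (k := B.length) P hN hu hF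
    (B.length * ((B.length + 1) * (lam + 1)) + B.length + 1)) N Γ N _ le_rfl x.good s
    (by simpa using hl) (by omega)
  have h1 := (x.trans x').len
  have h2 := bound B.length lam
  rw [List.length_nil] at h1
  exact ⟨Γ', x'.good.1, by omega, x'.good.2, f⟩

end Pool.Agent.MP_17db17_lc.H93
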