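import Pool.Agent.MP_17db17_lc.H93.Der
import Pool.Agent.MP_17db17_lc.H93.Det
import Pool.Agent.MP_17db17_lc.H93.Basic0

/-!
Short derivations, part 0: the rules as steps that extend a derivation, and walks that use a given
chord.
-/

set_option autoImplicit false

namespace Pool.Agent.MP_17db17_lc.H93

namespace Zor

open Der

/-- the walk `m` witnesses the fact `φ` at index `i` -/
def HW (vp : List ℤ) (B : List Block) (φ : Fact) (i : ℕ) (m : List ℤ) : Prop :=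
  Walk vp B φ.1.1 (φ.1.2.1 + φ.1.2.2.1 * i) m (φ.2.1.2.1 + φ.2.1.2.2.1 * i) ∧
    m.length + 1 = φ.2.2.2.1 ∧
    φ.2.1.1 = (if m.length % 2 = 0 then φ.1.1 else !φ.1.1) ∧
    cell vp (φ.1.2.1 + φ.1.2.2.1 * i) = φ.1.2.2.2 ∧
    cell vp (φ.2.1.2.1 + φ.2.1.2.2.1 * i) = φ.2.1.2.2.2 ∧
    ∀ j < tsz vp, cnt vp φ.1.1
      ((φ.1.2.1 + φ.1.2.2.1 * i) :: (m ++ [φ.2.1.2.1 + φ.2.1.2.2.1 * i])) j = φ.2.2.2.2.getD j 0

/-- the chords of the witness -/
def chs (φ : Fact) (i : ℕ) (m : List ℤ) : List (Chord ℤ) :=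
  chords φ.1.1 ((φ.1.2.1 + φ.1.2.2.1 * i) :: (m ++ [φ.2.1.2.1 + φ.2.1.2.2.1 * i]))

variable {vp : List ℤ} {B : List Block} {N : ℕ}

theorem hw_swap {φ : Fact} {i : ℕ} {m : List ℤ} (h : HW vp B φ i m) :
    HW vp B (swapF vp φ) i m.reverse ∧
      chs (swapF vp φ) i m.reverse = ((chs φ i m).map rv).reverse := by
  obtain ⟨⟨h1, h2⟩, h3, h4, h5, h6, h7⟩ := h
  change φ.2.1.1 = pgN φ.1.1 m.length at h4
  refine ⟨⟨⟨fun c hc => ?_, fun y hy => h2 y (List.mem_reverse.1 hy)⟩,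
    by rw [List.length_reverse]; exact h3, ?_, h6, h5, fun j hj => ?_⟩, ?_⟩
  · simp only [swapF, h4, chords_rev, List.mem_reverse, List.mem_map] at hc
    obtain ⟨d, hd, rfl⟩ := hc
    exact bch_symm (h1 d hd)
  · change φ.1.1 = pgN φ.2.1.1 m.reverse.length
    rw [h4, List.length_reverse, pgN_pgN]
  · simp only [swapF, getD_tab _ _ hj]
    rw [← h7 _ (trIdx_lt hj), h4, cnt, cnt, chords_rev, List.filter_reverse, List.length_reverse,
      List.filter_map, List.length_map]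
    congr 2
    funext c
    exact decide_eq_decide.2 (code_tr _ (cell_lt _ _) (cell_lt _ _) j)
  · simp only [chs, swapF, h4, chords_rev]

theorem hw_sub {φ : Fact} {i i' : ℕ} {m : List ℤ} (h : HW vp B φ i' m) {o δ : ℤ} (L : ℕ)
    (e : o + δ * i = i') :
    HW vp B (subF φ o δ L) i m ∧ chs (subF φ o δ L) i m = chs φ i' m := by
  have e1 : ∀ x s : ℤ, x + s * o + s * δ * i = x + s * i' := fun x s => by rw [← e]; ring
  constructor
  · simpa only [HW, subF, e1] using h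
  · simp only [chs, subF, e1]

theorem hw_comp {φ ψ : Fact} {i : ℕ} {m m' : List ℤ} (h : HW vp B φ i m) (h' : HW vp B ψ i m')
    (ho : compOK φ ψ = true) :
    ∃ m'', HW vp B (compF vp φ ψ) i m'' ∧ chs (compF vp φ ψ) i m'' = chs φ i m ++ chs ψ i m' := by
  simp only [compOK, Bool.and_eq_true, decide_eq_true_eq] at ho
  obtain ⟨⟨a1, a2⟩, a3⟩ := ho
  obtain ⟨⟨h1, h2⟩, h3, h4, h5, h6, h7⟩ := h
  obtain ⟨⟨g1, g2⟩, g3, g4, -, g6, g7⟩ := h'
  change φ.2.1.1 = pgN φ.1.1 m.length at h4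
  change ψ.2.1.1 = pgN ψ.1.1 m'.length at g4
  simp only [a1, h4] at g1 g4 g7
  refine ⟨m ++ (φ.2.1.2.1 + φ.2.1.2.2.1 * i) :: m', ⟨⟨fun c hc => ?_, fun y hy => ?_⟩, ?_, ?_, h5,
    g6, fun j hj => ?_⟩, ?_⟩
  · simp only [compF] at hc
    rw [List.append_assoc, List.cons_append, chords_app, List.mem_append] at hc
    exact hc.elim (h1 c) (g1 c)
  · rcases List.mem_append.1 hy with hy | hy
    · exact h2 y hy
    · rcases List.mem_cons.1 hy with rfl | hy
      · exact not_mem_of_even (h6 ▸ a2)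
      · exact g2 y hy
  · simp only [compF, List.length_append, List.length_cons]
    omega
  · change ψ.2.1.1 = pgN φ.1.1 _
    rw [g4, List.length_append, List.length_cons, pgN_add, pgN_succ]
  · simp only [compF, getD_tab _ _ hj]
    rw [← h7 j hj, ← g7 j hj, cnt, cnt, cnt, List.append_assoc, List.cons_append, chords_app,
      List.filter_append, List.length_append]
  · simp only [chs, compF, a1, h4]
    rw [List.append_assoc, List.cons_append, chords_app]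

/-- the walk of `φ` at index `i` runs through the chord `c` -/
def UsesAt (vp : List ℤ) (B : List Block) (c : Chord ℤ) (φ : Fact) (i : ℕ) : Prop :=
  ∃ m, HW vp B φ i m ∧ (c ∈ chs φ i m ∨ rv c ∈ chs φ i m)

def Uses (vp : List ℤ) (B : List Block) (c : Chord ℤ) (φ : Fact) : Prop :=
  ∃ i < φ.2.2.1, UsesAt vp B c φ i

variable {c : Chord ℤ}

theorem UsesAt.swap {φ : Fact} {i : ℕ} (h : UsesAt vp B c φ i) : UsesAt vp B c (swapF vp φ) i := by
  obtain ⟨m, h1, h2⟩ := h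
  refine ⟨_, (hw_swap h1).1, ?_⟩
  rw [(hw_swap h1).2]
  simp only [List.mem_reverse, List.mem_map]
  rcases h2 with h2 | h2
  · exact Or.inr ⟨_, h2, rfl⟩
  · exact Or.inl ⟨_, h2, rfl⟩

theorem UsesAt.sub {φ : Fact} {i i' : ℕ} (h : UsesAt vp B c φ i') {o δ : ℤ} (L : ℕ)
    (e : o + δ * i = i') : UsesAt vp B c (subF φ o δ L) i := by
  obtain ⟨m, h1, h2⟩ := h
  refine ⟨m, (hw_sub h1 L e).1, ?_⟩
  rw [(hw_sub h1 L e).2]
  exact h2

theorem UsesAt.compL {φ ψ : Fact} {i : ℕ} (h : UsesAt vp B c φ i) (h' : ∃ m, HW vp B ψ i m)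
    (ho : compOK φ ψ = true) : UsesAt vp B c (compF vp φ ψ) i := by
  obtain ⟨m, h1, h2⟩ := h
  obtain ⟨m', h3⟩ := h'
  obtain ⟨m'', h4, h5⟩ := hw_comp h1 h3 ho
  refine ⟨m'', h4, ?_⟩
  rw [h5, List.mem_append, List.mem_append]
  tauto

theorem UsesAt.compR {φ ψ : Fact} {i : ℕ} (h : ∃ m, HW vp B φ i m) (h' : UsesAt vp B c ψ i)
    (ho : compOK φ ψ = true) : UsesAt vp B c (compF vp φ ψ) i := by
  obtain ⟨m, h1⟩ := h
  obtain ⟨m', h3, h2⟩ := h'
  obtain ⟨m'', h4, h5⟩ := hw_comp h1 h3 ho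
  refine ⟨m'', h4, ?_⟩
  rw [h5, List.mem_append, List.mem_append]
  tauto

theorem UsesAt.vertex {φ : Fact} {i : ℕ} (h : UsesAt vp B c φ i) (hc : c.2.1 ∈ vp) :
    φ.1.2.1 + φ.1.2.2.1 * i ∈ vp ∨ φ.2.1.2.1 + φ.2.1.2.2.1 * i ∈ vp := by
  obtain ⟨m, h1, h2 | h2⟩ := h
  · rcases (mem_of_mem_chords' h2).1 with e | e
    · exact Or.inl (e ▸ hc)
    · exact absurd hc (h1.1.2 _ e)
  · rcases (mem_of_mem_chords' h2).2 with e | e
    · exact absurd hc (h1.1.2 _ e)
    · exact Or.inr (e ▸ hc)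

/-- a walk to a vertex is determined by its first chord -/
theorem walk_det (hB : blocksOK vp B = true) {v v' : ℤ} (hv : v ∈ vp) (hv' : v' ∈ vp) :
    ∀ (m m' : List ℤ) (π : Bool) (u : ℤ), Walk vp B π u m v → Walk vp B π u m' v' →
      (m ++ [v]).head? = (m' ++ [v']).head? → m = m' ∧ v = v'
  | [], [], _, _, _, _, e => by simpa using e
  | [], y :: m', _, _, _, h', e => by
    have : v = y := by simpa using e
    exact absurd (this ▸ hv) (h'.2 y (by simp))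
  | y :: m, [], _, _, h, _, e => by
    have : y = v' := by simpa using e
    exact absurd (this ▸ hv') (h.2 y (by simp))
  | y :: m, y' :: m', π, u, h, h', e => by
    have : y = y' := by simpa using e
    subst this
    have w : Walk vp B (!π) y m v :=
      ⟨fun c hc => h.1 c (List.mem_cons_of_mem _ hc), fun z hz => h.2 z (List.mem_cons_of_mem _ hz)⟩
    have w' : Walk vp B (!π) y m' v' :=
      ⟨fun c hc => h'.1 c (List.mem_cons_of_mem _ hc),
        fun z hz => h'.2 z (List.mem_cons_of_mem _ hz)⟩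
    have key : ∀ (l : List ℤ) (z : ℤ), Walk vp B (!π) y l z →
        ∃ t, (l ++ [z]).head? = some t ∧ BCh B (!π) y t := by
      intro l z hw
      cases l with
      | nil => exact ⟨z, rfl, hw.1 (!π, y, z) (by simp)⟩
      | cons t l => exact ⟨t, rfl, hw.1 (!π, y, t) (by simp)⟩
    obtain ⟨t, e1, b1⟩ := key _ _ w
    obtain ⟨t', e2, b2⟩ := key _ _ w'
    have := Det.uniq hB (h.2 y (by simp)) b1 b2
    obtain ⟨r1, r2⟩ := walk_det hB hv hv' m m' _ _ w w' (by rw [e1, e2, this])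
    exact ⟨by rw [r1], r2⟩

/-- a chord of a walk that starts at a vertex is the first one -/
theorem first_chord {π : Bool} {u v : ℤ} {m : List ℤ} (h : Walk vp B π u m v)
    (hc : c ∈ chords π (u :: (m ++ [v]))) (hv : c.2.1 ∈ vp) :
    c.1 = π ∧ c.2.1 = u ∧ (m ++ [v]).head? = some c.2.2 := by
  cases m with
  | nil =>
    have : c = (π, u, v) := by simpa using hc
    subst this
    simp
  | cons y m =>
    simp only [List.cons_append, chords_cons_cons, List.mem_cons] at hc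
    rcases hc with rfl | hc
    · simp
    · rcases (mem_of_mem_chords' hc).1 with e | e
      · exact absurd (e ▸ hv) (h.2 y (by simp))
      · exact absurd hv (h.2 _ (List.mem_cons_of_mem _ e))

/-! ## Shape and size of facts -/

structure Nice (vp : List ℤ) (φ : Fact) : Prop where
  len : 1 ≤ φ.2.2.1
  e1 : φ.1.2.2.1 = 1 ∨ φ.1.2.2.1 = -1
  e2 : φ.2.1.2.2.1 = if φ.1.1 = φ.2.1.1 then -φ.1.2.2.1 else φ.1.2.2.1
  tab : φ.2.2.2.2.length ≤ tsz vp

theorem Nice.e2' {φ : Fact} (h : Nice vp φ) : φ.2.1.2.2.1 = 1 ∨ φ.2.1.2.2.1 = -1 := by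
  have := h.e1
  have := h.e2
  split_ifs at this <;> omega

theorem length_le_of_range {l : List ℤ} (h : l.Nodup) (h' : ∀ y ∈ l, 0 ≤ y ∧ y < N) :
    l.length ≤ N := by
  rw [← List.toFinset_card_of_nodup h]
  have : l.toFinset ⊆ Finset.Ico (0 : ℤ) N := fun y hy =>
    Finset.mem_Ico.2 (h' y (List.mem_toFinset.1 hy))
  simpa using Finset.card_le_card this

theorem walk_range (P : Packed vp B N) {v : ℤ} : ∀ (m : List ℤ) (π : Bool) (u : ℤ),
    (∀ c ∈ chords π (u :: (m ++ [v])), BCh B c.1 c.2.1 c.2.2) →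
    ∀ y ∈ u :: (m ++ [v]), 0 ≤ y ∧ y < N
  | [], π, u, h, y, hy => by
    have := h (π, u, v) (by simp)
    simp only [List.nil_append, List.mem_cons, List.not_mem_nil, or_false] at hy
    rcases hy with rfl | rfl
    · exact P.bin _ _ _ this
    · exact P.bin _ _ _ (bch_symm this)
  | z :: m, π, u, h, y, hy => by
    rcases List.mem_cons.1 hy with rfl | hy
    · exact P.bin _ _ _ (h (π, y, z) (by simp))
    · exact walk_range P m (!π) z (fun c hc => h c (List.mem_cons_of_mem _ hc)) y hy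

theorem hw_range (P : Packed vp B N) {φ : Fact} {i : ℕ} {m : List ℤ} (h : HW vp B φ i m) :
    (0 ≤ φ.1.2.1 + φ.1.2.2.1 * i ∧ φ.1.2.1 + φ.1.2.2.1 * i < N) ∧
    (0 ≤ φ.2.1.2.1 + φ.2.1.2.2.1 * i ∧ φ.2.1.2.1 + φ.2.1.2.2.1 * i < N) ∧
    1 ≤ φ.2.2.2.1 ∧ φ.2.2.2.1 ≤ N + 1 := by
  have r := walk_range P _ _ _ h.1.1
  have := length_le_of_range (P.acyc _ _ _ _ h.1).1 fun y hy => r y (by simp [hy])
  have := h.2.1
  exact ⟨r _ (by simp), r _ (by simp), by omega, by omega⟩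

theorem len_le (P : Packed vp B N) {φ : Fact} (h : Holds vp B φ) (n : Nice vp φ) :
    φ.2.2.1 ≤ N := by
  have := n.len
  obtain ⟨m, h0⟩ := h 0 (by omega)
  obtain ⟨m', h1⟩ := h (φ.2.2.1 - 1) (by omega)
  have r0 := (hw_range P h0).1
  have r1 := (hw_range P h1).1
  rcases n.e1 with e | e <;> rw [e] at r0 r1 <;> omega

theorem hgt_le (P : Packed vp B N) {φ : Fact} (h : Holds vp B φ) (n : Nice vp φ) :
    1 ≤ φ.2.2.2.1 ∧ φ.2.2.2.1 ≤ N + 1 := by
  obtain ⟨m, h0⟩ := h 0 n.len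
  exact (hw_range P h0).2.2

theorem small (P : Packed vp B N) {φ : Fact} (h : Holds vp B φ) (n : Nice vp φ) {o δ : ℤ}
    (ho : o.natAbs ≤ 2 * N + 2) (hδ : δ.natAbs ≤ 2 * N + 2) : SmallE vp (2 * N + 2) (φ, o, δ) := by
  obtain ⟨m, h0⟩ := h 0 n.len
  obtain ⟨r1, r2, r3, r4⟩ := hw_range P h0
  have l1 := len_le P h n
  have hvp : vp.length ≤ N :=
    length_le_of_range (P.sorted.imp fun h => ne_of_lt h) P.vin
  obtain ⟨-, a2, -, a4, a5, a6⟩ := h0
  have c1 := cell_lt vp (φ.1.2.1 + φ.1.2.2.1 * (0 : ℕ))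
  have c2 := cell_lt vp (φ.2.1.2.1 + φ.2.1.2.2.1 * (0 : ℕ))
  have e1 := n.e1
  have e2 := n.e2'
  simp only [Nat.cast_zero, mul_zero, add_zero] at r1 r2
  refine ⟨by dsimp only; omega, by dsimp only; omega, by dsimp only; omega, by dsimp only; omega,
    by dsimp only; omega, by dsimp only; omega, by dsimp only; omega, by dsimp only; omega, n.tab,
    fun y hy => ?_, ho, hδ⟩
  obtain ⟨j, hj, rfl⟩ := List.getElem_of_mem (show y ∈ φ.2.2.2.2 from hy)
  have := a6 j (hj.trans_le n.tab)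
  rw [List.getD_eq_getElem _ _ hj] at this
  have h1 := List.length_filter_le (fun c : Chord ℤ =>
    decide (code (2 * vp.length + 1) c.1 (cell vp c.2.1) (cell vp c.2.2) = j))
    (chords φ.1.1 ((φ.1.2.1 + φ.1.2.2.1 * (0 : ℕ)) :: (m ++ [φ.2.1.2.1 + φ.2.1.2.2.1 * (0 : ℕ)])))
  rw [length_chords] at h1
  simp only [List.length_cons, List.length_append, List.length_nil] at h1
  unfold cnt at this
  omega

/-! ## Extending a derivation -/

def Good (vp : List ℤ) (B : List Block) (N : ℕ) (Γ : List Entry) : Prop :=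
  derivOK vp B Γ = true ∧ ∀ x ∈ Γ, SmallE vp (2 * N + 2) x

/-- `φ` has been derived -/
def OK (vp : List ℤ) (Γ : List Entry) (φ : Fact) : Prop := (∃ x ∈ Γ, x.1 = φ) ∧ Nice vp φ

/-- `Γ'` extends `Γ` by at most `r` entries -/
structure Ext (vp : List ℤ) (B : List Block) (N : ℕ) (Γ Γ' : List Entry) (r : ℕ) : Prop where
  good : Good vp B N Γ'
  sub : ∀ x ∈ Γ, x ∈ Γ'
  len : Γ'.length ≤ Γ.length + r

variable {Γ Γ' Γ'' : List Entry}

theorem Ext.refl (g : Good vp B N Γ) : Ext vp B N Γ Γ 0 := ⟨g, fun _ h => h, le_rfl⟩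

theorem Ext.mono {r r' : ℕ} (h : Ext vp B N Γ Γ' r) (hr : r ≤ r') : Ext vp B N Γ Γ' r' :=
  ⟨h.good, h.sub, h.len.trans (by omega)⟩

theorem Ext.trans {r r' : ℕ} (h : Ext vp B N Γ Γ' r) (h' : Ext vp B N Γ' Γ'' r') :
    Ext vp B N Γ Γ'' (r + r') :=
  ⟨h'.good, fun x hx => h'.sub x (h.sub x hx), by have := h.len; have := h'.len; omega⟩

theorem OK.ext {φ : Fact} {r : ℕ} (h : OK vp Γ φ) (e : Ext vp B N Γ Γ' r) : OK vp Γ' φ := by
  obtain ⟨⟨x, h1, h2⟩, n⟩ := h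
  exact ⟨⟨x, e.sub x h1, h2⟩, n⟩

theorem OK.holds (P : Packed vp B N) (g : Good vp B N Γ) {φ : Fact} (h : OK vp Γ φ) :
    Holds vp B φ := by
  obtain ⟨⟨x, h1, rfl⟩, -⟩ := h
  exact der vp B Γ P.ok g.1 x h1

theorem add_step (P : Packed vp B N) (g : Good vp B N Γ) {φ : Fact} {o δ : ℤ}
    (s : stepOK vp B Γ (φ, o, δ) = true) (n : Nice vp φ) (ho : o.natAbs ≤ 2 * N + 2)
    (hδ : δ.natAbs ≤ 2 * N + 2) : ∃ Γ', Ext vp B N Γ Γ' 1 ∧ OK vp Γ' φ := by
  have hh : Holds vp B φ := Der.step P.ok (der vp B Γ P.ok g.1) s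
  refine ⟨Γ ++ [(φ, o, δ)], ⟨⟨?_, fun x hx => ?_⟩, fun x hx => List.mem_append_left _ hx, by simp⟩,
    ⟨(φ, o, δ), by simp, rfl⟩, n⟩
  · have h := g.1
    simp only [derivOK, List.all_eq_true, List.mem_range, List.length_append,
      List.length_singleton] at h ⊢
    intro i hi
    by_cases h1 : i < Γ.length
    · rw [List.getD_append _ _ _ _ h1, List.take_append_of_le_length h1.le]
      exact h i h1
    · have : i = Γ.length := by omega
      subst this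
      rw [List.getD_append_right _ _ _ _ le_rfl, List.take_left']
      · simpa using s
      · rfl
  · rcases List.mem_append.1 hx with hx | hx
    · exact g.2 x hx
    · rw [List.mem_singleton.1 hx]
      exact small P hh n ho hδ

theorem ok_basic (P : Packed vp B N) (g : Good vp B N Γ) {k : Block} (hk : k ∈ B) :
    ∃ Γ', Ext vp B N Γ Γ' 1 ∧ OK vp Γ' (basicF vp k) := by
  refine add_step P g (o := 0) (δ := 0) ?_ ⟨(Det.ok1 P.ok hk).1, Or.inl rfl, by simp [basicF],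
    by simp [basicF]⟩ (by simp) (by simp)
  simp only [stepOK, Bool.or_eq_true, List.any_eq_true, decide_eq_true_eq]
  exact Or.inl ⟨k, hk, rfl⟩

theorem ok_swap (P : Packed vp B N) (g : Good vp B N Γ) {φ : Fact} (h : OK vp Γ φ) :
    ∃ Γ', Ext vp B N Γ Γ' 1 ∧ OK vp Γ' (swapF vp φ) := by
  obtain ⟨⟨x, h1, rfl⟩, n⟩ := h
  refine add_step P g (o := 0) (δ := 0) ?_ ⟨n.len, n.e2', ?_, by simp [swapF]⟩ (by simp) (by simp)
  · simp only [stepOK, Bool.or_eq_true, List.any_eq_true, decide_eq_true_eq]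
    exact Or.inr ⟨x, h1, Or.inl (Or.inl rfl)⟩
  · have := n.e2
    simp only [swapF]
    split_ifs at this ⊢ with a b b
    · omega
    · exact absurd a.symm b
    · exact absurd b.symm a
    · omega

theorem ok_sub (P : Packed vp B N) (g : Good vp B N Γ) {φ : Fact} (h : OK vp Γ φ) {o δ : ℤ}
    {L : ℕ} (hδ : δ = 1 ∨ δ = -1) (hL : 1 ≤ L) (h1 : 0 ≤ o) (h2 : o < φ.2.2.1)
    (h3 : 0 ≤ o + δ * (L - 1)) (h4 : o + δ * (L - 1) < φ.2.2.1) :
    ∃ Γ', Ext vp B N Γ Γ' 1 ∧ OK vp Γ' (subF φ o δ L) := by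
  have hl := len_le P (h.holds P g) h.2
  obtain ⟨⟨x, hx, rfl⟩, n⟩ := h
  refine add_step P g (o := o) (δ := δ) ?_ ⟨hL, ?_, ?_, n.tab⟩ (by omega) (by omega)
  · simp only [stepOK, Bool.or_eq_true, List.any_eq_true, Bool.and_eq_true, decide_eq_true_eq]
    refine Or.inr ⟨x, hx, Or.inl (Or.inr ⟨?_, rfl⟩)⟩
    simp only [subOK, Bool.and_eq_true, decide_eq_true_eq]
    exact ⟨⟨⟨h1, h2⟩, h3⟩, h4⟩
  · simp only [subF]
    rcases n.e1 with e | e <;> rcases hδ with rfl | rfl <;> simp [e]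
  · simp only [subF, n.e2]
    split_ifs <;> ring

theorem ok_comp (P : Packed vp B N) (g : Good vp B N Γ) {φ ψ : Fact} (h : OK vp Γ φ)
    (h' : OK vp Γ ψ) (ho : compOK φ ψ = true) :
    ∃ Γ', Ext vp B N Γ Γ' 1 ∧ OK vp Γ' (compF vp φ ψ) := by
  obtain ⟨⟨x, hx, rfl⟩, n⟩ := h
  obtain ⟨⟨y, hy, rfl⟩, n'⟩ := h'
  refine add_step P g (o := 0) (δ := 0) ?_ ⟨n.len, n.e1, ?_, by simp [compF]⟩ (by simp) (by simp)
  · simp only [stepOK, Bool.or_eq_true, List.any_eq_true, Bool.and_eq_true, decide_eq_true_eq]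
    exact Or.inr ⟨x, hx, Or.inr ⟨y, hy, ho, rfl⟩⟩
  · simp only [compOK, Bool.and_eq_true, decide_eq_true_eq] at ho
    have e := n.e2
    have e' := n'.e2
    simp only [ho.1.1] at e'
    simp only [compF, e', e]
    cases x.1.1.1 <;> cases x.1.2.1.1 <;> cases y.1.2.1.1 <;> simp

end Zor

end Pool.Agent.MP_17db17_lc.H93
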