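import Pool.Agent.MP_17db17_lc.H93.Zor0

/-!
Short derivations, part 1: counting sides over a port, rerouting sides through a fact, powers.
-/

set_option autoImplicit false

namespace Pool.Agent.MP_17db17_lc.H93

namespace Zor

open Der

/-- the side `s` of width `L` contains the place `x` of page `q` -/
def On (s : Side) (L : ℕ) (q : Bool) (x : ℤ) : Prop :=
  s.1 = q ∧ 0 ≤ s.2.2.1 * (x - s.2.1) ∧ s.2.2.1 * (x - s.2.1) < L

instance (s : Side) (L : ℕ) (q : Bool) (x : ℤ) : Decidable (On s L q x) := by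
  unfold On; infer_instance

def ns (s : Side) (L : ℕ) (q : Bool) (x : ℤ) : ℕ := if On s L q x then 1 else 0

def nn (φ : Fact) (q : Bool) (x : ℤ) : ℕ := ns φ.1 φ.2.2.1 q x + ns φ.2.1 φ.2.2.1 q x

def NS (S : Multiset Fact) (q : Bool) (x : ℤ) : ℕ := (S.map fun φ => nn φ q x).sum

/-- the places under the first side of `Φ`, on the other page -/
def InR (Φ : Fact) (q : Bool) (x : ℤ) : Prop :=
  q = !Φ.1.1 ∧ Φ.1.2.1 - Φ.2.2.1 < x ∧ x ≤ Φ.1.2.1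

instance (Φ : Fact) (q : Bool) (x : ℤ) : Decidable (InR Φ q x) := by
  unfold InR; infer_instance

/-- move a counting function along `Φ` -/
def U (Φ : Fact) (f : Bool → ℤ → ℕ) (q : Bool) (x : ℤ) : ℕ :=
  (if InR Φ q x then 0 else f q x) +
    if On Φ.2.1 Φ.2.2.1 q x then f (!Φ.1.1) (Φ.1.2.1 - Φ.2.1.2.2.1 * (x - Φ.2.1.2.1)) else 0

theorem U_add (Φ : Fact) {f g h : Bool → ℤ → ℕ} (e : ∀ q x, h q x = f q x + g q x) (q : Bool)
    (x : ℤ) : U Φ h q x = U Φ f q x + U Φ g q x := by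
  simp only [U, e]
  split_ifs <;> omega

@[simp] theorem NS_zero (q : Bool) (x : ℤ) : NS 0 q x = 0 := rfl

@[simp] theorem NS_cons (φ : Fact) (S : Multiset Fact) (q : Bool) (x : ℤ) :
    NS (φ ::ₘ S) q x = nn φ q x + NS S q x := by simp [NS]

theorem nn_le_NS {φ : Fact} {S : Multiset Fact} (h : φ ∈ S) (q : Bool) (x : ℤ) :
    nn φ q x ≤ NS S q x := by
  obtain ⟨T, rfl⟩ := Multiset.exists_cons_of_mem h
  simp

theorem exists_of_NS {S : Multiset Fact} {q : Bool} {x : ℤ} (h : 1 ≤ NS S q x) :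
    ∃ φ ∈ S, 1 ≤ nn φ q x := by
  induction S using Multiset.induction_on with
  | empty => simp at h
  | cons φ S ih =>
    rw [NS_cons] at h
    by_cases h1 : 1 ≤ nn φ q x
    · exact ⟨φ, Multiset.mem_cons_self _ _, h1⟩
    · obtain ⟨ψ, a, b⟩ := ih (by omega)
      exact ⟨ψ, Multiset.mem_cons_of_mem a, b⟩

theorem nn_pos {φ : Fact} {q : Bool} {x : ℤ} :
    1 ≤ nn φ q x ↔ On φ.1 φ.2.2.1 q x ∨ On φ.2.1 φ.2.2.1 q x := by
  unfold nn ns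
  split_ifs <;> simp [*]

theorem on_idx {s : Side} {L : ℕ} {q : Bool} {x : ℤ} (e : s.2.2.1 = 1 ∨ s.2.2.1 = -1)
    (h : On s L q x) : ∃ i : ℕ, i < L ∧ x = s.2.1 + s.2.2.1 * i := by
  obtain ⟨-, h1, h2⟩ := h
  refine ⟨(s.2.2.1 * (x - s.2.1)).toNat, by omega, ?_⟩
  rw [Int.toNat_of_nonneg h1]
  rcases e with e | e <;> rw [e] <;> ring

theorem on_of_idx {s : Side} {L i : ℕ} (e : s.2.2.1 = 1 ∨ s.2.2.1 = -1) (h : i < L) :
    On s L s.1 (s.2.1 + s.2.2.1 * i) := by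
  refine ⟨rfl, ?_⟩
  rcases e with e | e <;> rw [e] <;> omega

variable {vp : List ℤ} {B : List Block} {N : ℕ} {c : Chord ℤ} {Γ : List Entry}

theorem on_cell1 {φ : Fact} (h : Holds vp B φ) (n : Nice vp φ) {q : Bool} {x : ℤ}
    (o : On φ.1 φ.2.2.1 q x) : cell vp x = φ.1.2.2.2 := by
  obtain ⟨i, hi, rfl⟩ := on_idx n.e1 o
  obtain ⟨m, hm⟩ := h i hi
  exact hm.2.2.2.1

theorem on_cell2 {φ : Fact} (h : Holds vp B φ) (n : Nice vp φ) {q : Bool} {x : ℤ}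
    (o : On φ.2.1 φ.2.2.1 q x) : cell vp x = φ.2.1.2.2.2 := by
  obtain ⟨i, hi, rfl⟩ := on_idx n.e2' o
  obtain ⟨m, hm⟩ := h i hi
  exact hm.2.2.2.2.1

theorem even_of_not_mem {x : ℤ} (h : x ∉ vp) : cell vp x % 2 = 0 := by
  rw [cell, if_neg h]
  omega

theorem Uses.swap {φ : Fact} (h : Uses vp B c φ) : Uses vp B c (swapF vp φ) := by
  obtain ⟨i, hi, h⟩ := h
  exact ⟨i, hi, h.swap⟩

/-- the same ports, the same height -/
structure Same (vp : List ℤ) (B : List Block) (c : Chord ℤ) (φ φ' : Fact) : Prop where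
  cnt : ∀ q x, nn φ' q x = nn φ q x
  hgt : φ'.2.2.2.1 = φ.2.2.2.1
  us : Uses vp B c φ → Uses vp B c φ'

theorem orient1 (P : Packed vp B N) (g : Good vp B N Γ) {φ : Fact} (h : OK vp Γ φ) :
    ∃ Γ' φ', Ext vp B N Γ Γ' 1 ∧ OK vp Γ' φ' ∧ φ'.1.2.2.1 = -1 ∧
      On φ'.1 φ'.2.2.1 = On φ.1 φ.2.2.1 ∧ Same vp B c φ φ' := by
  rcases h.2.e1 with e | e
  · have l := h.2.len
    obtain ⟨Γ', x, o⟩ := ok_sub P g h (o := φ.2.2.1 - 1) (δ := -1) (L := φ.2.2.1) (Or.inr rfl) l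
      (by omega) (by omega) (by omega) (by omega)
    have e1 : On (subF φ (φ.2.2.1 - 1) (-1) φ.2.2.1).1 φ.2.2.1 = On φ.1 φ.2.2.1 := by
      funext q z
      simp only [On, subF, e, eq_iff_iff]
      refine and_congr_right fun _ => ?_
      omega
    have e2 : On (subF φ (φ.2.2.1 - 1) (-1) φ.2.2.1).2.1 φ.2.2.1 = On φ.2.1 φ.2.2.1 := by
      funext q z
      simp only [On, subF, eq_iff_iff]
      refine and_congr_right fun _ => ?_
      rcases h.2.e2' with e' | e' <;> rw [e'] <;> omega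
    refine ⟨Γ', _, x, o, by simp [subF, e], e1, fun q z => ?_, rfl, ?_⟩
    · change ns _ φ.2.2.1 q z + ns _ φ.2.2.1 q z = _
      simp only [nn, ns, e1, e2]
    · rintro ⟨i, hi, u⟩
      exact ⟨φ.2.2.1 - 1 - i, show _ < φ.2.2.1 by omega, u.sub _ (by omega)⟩
  · exact ⟨Γ, φ, (Ext.refl g).mono (by omega), h, e, rfl, fun _ _ => rfl, rfl, id⟩

/-- turn a fact so that a chosen side is the first one and runs downwards -/
theorem orient (P : Packed vp B N) (g : Good vp B N Γ) {φ : Fact} (h : OK vp Γ φ)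
    (Q : (Bool → ℤ → Prop) → Prop) (hQ : Q (On φ.1 φ.2.2.1) ∨ Q (On φ.2.1 φ.2.2.1)) :
    ∃ Γ' φ', Ext vp B N Γ Γ' 2 ∧ OK vp Γ' φ' ∧ φ'.1.2.2.1 = -1 ∧
      Q (On φ'.1 φ'.2.2.1) ∧ Same vp B c φ φ' := by
  rcases hQ with hQ | hQ
  · obtain ⟨Γ', φ', a1, a2, a3, a4, a5⟩ := orient1 (c := c) P g h
    exact ⟨Γ', φ', a1.mono (by omega), a2, a3, a4 ▸ hQ, a5⟩
  · obtain ⟨Γ1, x, o⟩ := ok_swap P g h
    obtain ⟨Γ', φ', a1, a2, a3, a4, a5⟩ := orient1 (c := c) P x.good o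
    refine ⟨Γ', φ', x.trans a1, a2, a3, a4 ▸ hQ, fun q z => ?_, a5.hgt, fun u => a5.us u.swap⟩
    rw [a5.cnt]
    exact add_comm _ _

/-- the first side runs downwards from `t` through places that are not vertices -/
structure Kg (Φ : Fact) (t : ℤ) : Prop where
  pos : Φ.1.2.1 = t
  step : Φ.1.2.2.1 = -1
  even : Φ.1.2.2.2 % 2 = 0

theorem Kg.cell {Φ : Fact} {t : ℤ} (k : Kg Φ t) (h : Holds vp B Φ) (n : Nice vp Φ) {x : ℤ}
    (h1 : t - Φ.2.2.1 < x) (h2 : x ≤ t) : cell vp x = Φ.1.2.2.2 :=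
  on_cell1 h n (q := Φ.1.1) ⟨rfl, by rw [k.pos, k.step]; omega⟩

theorem Kg.not_mem {Φ : Fact} {t : ℤ} (k : Kg Φ t) (h : Holds vp B Φ) (n : Nice vp Φ) {x : ℤ}
    (h1 : t - Φ.2.2.1 < x) (h2 : x ≤ t) : x ∉ vp :=
  not_mem_of_even (by rw [k.cell h n h1 h2]; exact k.even)

/-- reroute the second side of `φ` through `Φ` if it lies under `Φ` -/
theorem half (P : Packed vp B N) (g : Good vp B N Γ) {Φ φ : Fact} {t : ℤ} (k : Kg Φ t)
    (hΦ : OK vp Γ Φ) (h : OK vp Γ φ) (lt : ∀ x ∉ vp, On φ.2.1 φ.2.2.1 (!Φ.1.1) x → x ≤ t)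
    (di : ¬ (On φ.2.1 φ.2.2.1 (!Φ.1.1) (t - Φ.2.2.1) ∧
      On φ.2.1 φ.2.2.1 (!Φ.1.1) (t - Φ.2.2.1 + 1))) :
    ∃ Γ' φ', Ext vp B N Γ Γ' 2 ∧ OK vp Γ' φ' ∧ φ'.1 = φ.1 ∧ φ'.2.2.1 = φ.2.2.1 ∧
      (∀ q x, ns φ'.2.1 φ.2.2.1 q x = U Φ (ns φ.2.1 φ.2.2.1) q x) ∧
      (φ'.2.2.2.1 = φ.2.2.2.1 ∨ φ'.2.2.2.1 = φ.2.2.2.1 + Φ.2.2.2.1) ∧
      (Uses vp B c φ → Uses vp B c φ') ∧
      ∀ q x, InR Φ q x → On φ.2.1 φ.2.2.1 q x → φ'.2.2.2.1 = φ.2.2.2.1 + Φ.2.2.2.1 ∧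
        ∀ i : ℕ, (i : ℤ) = t - x → UsesAt vp B c Φ i → Uses vp B c φ' := by
  have eB := hΦ.2.e2'
  have eb := h.2.e2'
  have kp := k.pos
  by_cases hA : ∃ x, InR Φ (!Φ.1.1) x ∧ On φ.2.1 φ.2.2.1 (!Φ.1.1) x
  · obtain ⟨x, ⟨-, x1, x2⟩, ox⟩ := hA
    rw [kp] at x1 x2
    have hc : φ.2.1.2.2.2 = Φ.1.2.2.2 := by
      rw [← on_cell2 (h.holds P g) h.2 ox, k.cell (hΦ.holds P g) hΦ.2 x1 x2]
    have hp : φ.2.1.1 = !Φ.1.1 := ox.1
    have hin : ∀ z, On φ.2.1 φ.2.2.1 (!Φ.1.1) z → t - Φ.2.2.1 < z ∧ z ≤ t := by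
      intro z oz
      refine ⟨?_, lt z (not_mem_of_even ?_) oz⟩
      · by_contra hz
        apply di
        simp only [On, hp, true_and] at ox oz ⊢
        rcases eb with e | e <;> rw [e] at ox oz ⊢ <;> omega
      · rw [on_cell2 (h.holds P g) h.2 oz, hc]
        exact k.even
    have l := h.2.len
    have b0 := hin _ (hp ▸ on_of_idx eb (i := 0) l)
    have b1 := hin _ (hp ▸ on_of_idx eb (i := φ.2.2.1 - 1) (L := φ.2.2.1) (by omega))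
    rw [Nat.cast_sub l] at b1
    simp only [Nat.cast_zero, mul_zero, add_zero, Nat.cast_one] at b0 b1
    obtain ⟨Γ1, x1', o1⟩ := ok_sub P g hΦ (o := t - φ.2.1.2.1) (δ := -φ.2.1.2.2.1) (L := φ.2.2.1)
      (by omega) l (by omega) (by omega)
      (by rcases eb with e | e <;> rw [e] at b1 ⊢ <;> omega)
      (by rcases eb with e | e <;> rw [e] at b1 ⊢ <;> omega)
    have co : compOK φ (subF Φ (t - φ.2.1.2.1) (-φ.2.1.2.2.1) φ.2.2.1) = true := by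
      simp only [compOK, subF, Bool.and_eq_true, decide_eq_true_eq, hp, Bool.not_not, kp, k.step,
        hc, k.even, and_true]
      refine Prod.ext rfl (Prod.ext (by simp) (Prod.ext (by simp) hc.symm))
    obtain ⟨Γ2, x2', o2⟩ := ok_comp P x1'.good (h.ext x1') o1 co
    refine ⟨Γ2, _, x1'.trans x2', o2, rfl, rfl, fun q z => ?_, Or.inr rfl, ?_, fun q z r oz => ⟨rfl, ?_⟩⟩
    · have i1 : (if InR Φ q z then 0 else ns φ.2.1 φ.2.2.1 q z) = 0 := by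
        unfold ns
        split_ifs with r o
        · rfl
        · have hq : q = !Φ.1.1 := o.1 ▸ hp
          exact absurd ⟨hq, by rw [kp]; exact hin z (hq ▸ o)⟩ r
        · rfl
      have i2 : On (compF vp φ (subF Φ (t - φ.2.1.2.1) (-φ.2.1.2.2.1) φ.2.2.1)).2.1 φ.2.2.1 q z ↔
          On Φ.2.1 Φ.2.2.1 q z ∧
            On φ.2.1 φ.2.2.1 (!Φ.1.1) (Φ.1.2.1 - Φ.2.1.2.2.1 * (z - Φ.2.1.2.1)) := by
        simp only [On, compF, subF, hp, kp, true_and, and_assoc]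
        refine and_congr_right fun _ => ?_
        rcases eb with e | e <;> rcases eB with e' | e' <;> rw [e] at b1 ⊢ <;> rw [e'] <;> omega
      rw [U, i1, zero_add]
      simp only [ns, i2, ite_and]
    · rintro ⟨i, hi, u⟩
      exact ⟨i, hi, u.compL (o1.holds P x1'.good i hi) co⟩
    · intro i hi u
      obtain ⟨j, hj, rfl⟩ := on_idx eb oz
      exact ⟨j, hj, UsesAt.compR (h.holds P g j hj) (u.sub _ (by rw [hi]; ring)) co⟩
  · refine ⟨Γ, φ, (Ext.refl g).mono (by omega), h, rfl, rfl, fun q z => ?_, Or.inl rfl, id,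
      fun q z r oz => absurd ⟨z, r.1 ▸ r, r.1 ▸ oz⟩ hA⟩
    push Not at hA
    have h2 : On Φ.2.1 Φ.2.2.1 q z →
        ¬ On φ.2.1 φ.2.2.1 (!Φ.1.1) (Φ.1.2.1 - Φ.2.1.2.2.1 * (z - Φ.2.1.2.1)) := fun o =>
      hA _ ⟨rfl, by have := o.2.2; omega, by have := o.2.1; omega⟩
    have h1 : InR Φ q z → ¬ On φ.2.1 φ.2.2.1 q z := fun r => r.1 ▸ hA z (r.1 ▸ r)
    simp only [U, ns]
    split_ifs <;> simp_all

/-- `φ'` is `φ` rerouted through `Φ` -/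
structure RRel (vp : List ℤ) (B : List Block) (c : Chord ℤ) (Φ φ φ' : Fact) : Prop where
  cnt : ∀ q x, nn φ' q x = U Φ (nn φ) q x
  h1 : φ'.2.2.2.1 = φ.2.2.2.1 ∨ φ.2.2.2.1 + Φ.2.2.2.1 ≤ φ'.2.2.2.1
  us : Uses vp B c φ → Uses vp B c φ'
  h2 : ∀ q x, InR Φ q x → 1 ≤ nn φ q x → φ.2.2.2.1 + Φ.2.2.2.1 ≤ φ'.2.2.2.1 ∧
    ∀ i : ℕ, (i : ℤ) = Φ.1.2.1 - x → UsesAt vp B c Φ i → Uses vp B c φ'

/-- no side of `φ` contains both `y` and `y + 1` on page `q` -/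
def Dich (φ : Fact) (q : Bool) (y : ℤ) : Prop :=
  ¬ (On φ.1 φ.2.2.1 q y ∧ On φ.1 φ.2.2.1 q (y + 1)) ∧
    ¬ (On φ.2.1 φ.2.2.1 q y ∧ On φ.2.1 φ.2.2.1 q (y + 1))

theorem dich_of_zero {φ : Fact} {q : Bool} {y : ℤ} (h : nn φ q y = 0) : Dich φ q y := by
  have := mt (nn_pos (φ := φ) (q := q) (x := y)).2 (by omega)
  exact ⟨fun a => this (Or.inl a.1), fun a => this (Or.inr a.1)⟩

theorem rr (P : Packed vp B N) (g : Good vp B N Γ) {Φ φ : Fact} {t : ℤ} (k : Kg Φ t)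
    (hΦ : OK vp Γ Φ) (h : OK vp Γ φ) (lt : ∀ q, ∀ x ∉ vp, 1 ≤ nn φ q x → x ≤ t)
    (di : Dich φ (!Φ.1.1) (t - Φ.2.2.1)) :
    ∃ Γ' φ', Ext vp B N Γ Γ' 5 ∧ OK vp Γ' φ' ∧ RRel vp B c Φ φ φ' := by
  obtain ⟨Γ1, φ1, x1, o1, a1, a2, a3, a4, a5, a6⟩ := half (c := c) P g k hΦ h
    (fun x hx o => lt _ x hx (nn_pos.2 (Or.inr o))) di.2
  obtain ⟨Γ2, x2, o2⟩ := ok_swap P x1.good o1
  obtain ⟨Γ3, φ3, x3, o3, b1, b2, b3, b4, b5, b6⟩ := half (c := c) P x2.good k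
    ((hΦ.ext x1).ext x2) o2
    (fun x hx o => lt _ x hx (nn_pos.2 (Or.inl (by simpa only [swapF, a1, a2] using o))))
    (by simpa only [swapF, a1, a2] using di.1)
  simp only [swapF, a1, a2] at b1 b2 b3 b4 b6
  refine ⟨Γ3, φ3, (x1.trans x2).trans x3, o3, fun q x => ?_, by omega,
    fun u => b5 (a5 u).swap, fun q x r hn => ?_⟩
  · rw [U_add Φ (h := nn φ) (fun _ _ => rfl), nn, b1, b2, a3, b3, add_comm]
  · rw [k.pos]
    rcases nn_pos.1 hn with o | o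
    · exact ⟨by have := (b6 q x r o).1; omega, (b6 q x r o).2⟩
    · exact ⟨by have := (a6 q x r o).1; omega, fun i hi u => b5 ((a6 q x r o).2 i hi u).swap⟩

theorem rrAll (P : Packed vp B N) {Φ : Fact} {t : ℤ} (k : Kg Φ t) (S : Multiset Fact) :
    ∀ Γ, Good vp B N Γ → OK vp Γ Φ → (∀ φ ∈ S, OK vp Γ φ) →
      (∀ q, ∀ x ∉ vp, 1 ≤ NS S q x → x ≤ t) → (∀ φ ∈ S, Dich φ (!Φ.1.1) (t - Φ.2.2.1)) →
      ∃ Γ' S', Ext vp B N Γ Γ' (5 * S.card) ∧ (∀ φ ∈ S', OK vp Γ' φ) ∧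
        Multiset.Rel (RRel vp B c Φ) S S' := by
  induction S using Multiset.induction_on with
  | empty => exact fun Γ g _ _ _ _ => ⟨Γ, 0, Ext.refl g, by simp, Multiset.Rel.zero⟩
  | cons φ S ih =>
    intro Γ g hΦ hS lt di
    obtain ⟨Γ1, φ1, x1, o1, r1⟩ := rr (c := c) P g k hΦ (hS φ (Multiset.mem_cons_self _ _))
      (fun q x hx hn => lt q x hx (by rw [NS_cons]; omega)) (di φ (Multiset.mem_cons_self _ _))
    obtain ⟨Γ2, S2, x2, o2, r2⟩ := ih Γ1 x1.good (hΦ.ext x1)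
      (fun ψ hψ => (hS ψ (Multiset.mem_cons_of_mem hψ)).ext x1)
      (fun q x hx hn => lt q x hx (by rw [NS_cons]; omega))
      (fun ψ hψ => di ψ (Multiset.mem_cons_of_mem hψ))
    refine ⟨Γ2, φ1 ::ₘ S2, (x1.trans x2).mono (by rw [Multiset.card_cons]; omega),
      fun ψ hψ => ?_, r2.cons r1⟩
    rcases Multiset.mem_cons.1 hψ with rfl | hψ
    · exact o1.ext x2
    · exact o2 ψ hψ

section rel
variable {Φ : Fact} {S S' : Multiset Fact}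

theorem rel_NS (r : Multiset.Rel (RRel vp B c Φ) S S') (q : Bool) (x : ℤ) :
    NS S' q x = U Φ (NS S) q x := by
  induction r with
  | zero => simp [U]
  | cons h _ ih => rw [U_add Φ (NS_cons _ _), NS_cons, h.cnt, ih]

theorem rel_sum (r : Multiset.Rel (RRel vp B c Φ) S S') {f g : ℕ → ℕ}
    (h : ∀ a b, a ≤ b → g b ≤ f a) :
    (S'.map fun φ => g φ.2.2.2.1).sum ≤ (S.map fun φ => f φ.2.2.2.1).sum := by
  induction r with
  | zero => simp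
  | cons r _ ih =>
    simp only [Multiset.map_cons, Multiset.sum_cons]
    exact add_le_add (h _ _ (by have := r.h1; omega)) ih

theorem rel_ex (r : Multiset.Rel (RRel vp B c Φ) S S') {φ : Fact} (h : φ ∈ S) :
    ∃ φ' ∈ S', RRel vp B c Φ φ φ' :=
  Multiset.exists_mem_of_rel_of_mem r h

end rel

/-! ## Powers of a translation -/

/-- translation by `e`, with the largest width that a translation by `d` of width `a` allows -/
structure Pw (p : Bool) (t : ℤ) (cl : ℕ) (a d e : ℤ) (φ : Fact) : Prop where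
  s1 : φ.1 = (p, t, -1, cl)
  s2 : φ.2.1 = (!p, t - e, -1, cl)
  len : (φ.2.2.1 : ℤ) = a + d - e

theorem join (P : Packed vp B N) (g : Good vp B N Γ) {p : Bool} {t : ℤ} {cl : ℕ} {a d e e' : ℤ}
    (hc : cl % 2 = 0) {φ ψ : Fact} (h : OK vp Γ φ) (h' : OK vp Γ ψ) (w : Pw p t cl a d e φ)
    (w' : Pw p t cl a d e' ψ) (h1 : 0 ≤ e) (h2 : 0 ≤ e') (h3 : e + e' < a + d) :
    ∃ Γ' χ, Ext vp B N Γ Γ' 3 ∧ OK vp Γ' χ ∧ Pw p t cl a d (e + e') χ := by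
  have l := w.len
  have l' := w'.len
  obtain ⟨Γ1, x1, o1⟩ := ok_sub P g h (o := 0) (δ := 1) (L := (a + d - (e + e')).toNat)
    (Or.inl rfl) (by omega) le_rfl (by omega) (by omega) (by omega)
  obtain ⟨Γ2, x2, o2⟩ := ok_sub P x1.good (h'.ext x1) (o := e) (δ := 1)
    (L := (a + d - (e + e')).toNat) (Or.inl rfl) (by omega) h1 (by omega) (by omega) (by omega)
  obtain ⟨Γ3, x3, o3⟩ := ok_comp P x2.good (o1.ext x2) o2 (by
    simp [compOK, subF, w.s2, w'.s1, hc, sub_eq_add_neg])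
  refine ⟨Γ3, _, (x1.trans x2).trans x3, o3, ?_, ?_, ?_⟩
  · simp [compF, subF, w.s1]
  · simp only [compF, subF, w'.s2]
    refine Prod.ext rfl (Prod.ext (by dsimp only; ring) (Prod.ext (by simp) rfl))
  · simp only [compF, subF]
    omega

theorem power (P : Packed vp B N) (g : Good vp B N Γ) {p : Bool} {t : ℤ} {cl : ℕ} {a d : ℤ}
    (hc : cl % 2 = 0) (hd : 0 ≤ d) {φ : Fact} (h : OK vp Γ φ) (w : Pw p t cl a d d φ) :
    ∀ (l q : ℕ), 1 ≤ q → q < 2 ^ l → q * d < a + d →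
      ∃ Γ' χ, Ext vp B N Γ Γ' (6 * l) ∧ OK vp Γ' χ ∧ Pw p t cl a d (q * d) χ := by
  intro l
  induction l with
  | zero => intro q h1 h2; omega
  | succ l ih =>
    intro q h1 h2 h3
    by_cases hq : q = 1
    · subst hq
      exact ⟨Γ, φ, (Ext.refl g).mono (by omega), h, by simpa using w⟩
    have hr : 0 ≤ ((q / 2 : ℕ) : ℤ) * d := mul_nonneg (Int.natCast_nonneg _) hd
    rcases Nat.mod_two_eq_zero_or_one q with e | e
    · have e1 : (q : ℤ) * d = (q / 2 : ℕ) * d + (q / 2 : ℕ) * d := by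
        rw [← add_mul]; congr 1; omega
      obtain ⟨Γ1, χ, x1, o1, w1⟩ := ih (q / 2) (by omega) (by rw [pow_succ] at h2; omega) (by omega)
      obtain ⟨Γ2, χ2, x2, o2, w2⟩ := join P x1.good hc o1 o1 w1 w1 hr hr (by omega)
      exact ⟨Γ2, χ2, (x1.trans x2).mono (by omega), o2, e1 ▸ w2⟩
    · have e1 : (q : ℤ) * d = (q / 2 : ℕ) * d + (q / 2 : ℕ) * d + d := by
        rw [← add_mul, ← add_one_mul]; congr 1; omega
      obtain ⟨Γ1, χ, x1, o1, w1⟩ := ih (q / 2) (by omega) (by rw [pow_succ] at h2; omega) (by omega)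
      obtain ⟨Γ2, χ2, x2, o2, w2⟩ := join P x1.good hc o1 o1 w1 w1 hr hr (by omega)
      obtain ⟨Γ3, χ3, x3, o3, w3⟩ := join P x2.good hc o2 ((h.ext x1).ext x2) w2 w (by omega) hd
        (by omega)
      exact ⟨Γ3, χ3, ((x1.trans x2).trans x3).mono (by omega), o3, e1 ▸ w3⟩

end Zor

end Pool.Agent.MP_17db17_lc.H93
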