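import Pool.Agent.MP_17db17_lc.H93.Zor1

/-!
Short derivations, part 2: the steps of the accelerated induction.
-/

set_option autoImplicit false

namespace Pool.Agent.MP_17db17_lc.H93

namespace Zor

open Der

/-- the facts `S` cover every port below `M` exactly once -/
structure St (vp : List ℤ) (B : List Block) (c : Chord ℤ) (Γ : List Entry) (M : ℤ)
    (S : Multiset Fact) : Prop where
  ok : ∀ φ ∈ S, OK vp Γ φ
  cnt : ∀ q, ∀ x ∉ vp, NS S q x = if 0 ≤ x ∧ x < M then 1 else 0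
  trk : ∃ φ ∈ S, Uses vp B c φ

variable {vp : List ℤ} {B : List Block} {N : ℕ} {c : Chord ℤ} {Γ : List Entry} {M : ℤ}
  {K : Fact} {S : Multiset Fact}

theorem St.lt (s : St vp B c Γ M S) {q : Bool} {x : ℤ} (hx : x ∉ vp) (h : 1 ≤ NS S q x) :
    0 ≤ x ∧ x < M := by
  have := s.cnt q x hx
  split_ifs at this with h'
  · exact h'
  · omega

theorem St.le_one (s : St vp B c Γ M S) (q : Bool) {x : ℤ} (hx : x ∉ vp) : NS S q x ≤ 1 := by
  have := s.cnt q x hx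
  split_ifs at this <;> omega

theorem St.same {Γ' : List Entry} {r : ℕ} {φ φ' : Fact} (s : St vp B c Γ M (φ ::ₘ S))
    (x : Ext vp B N Γ Γ' r) (o : OK vp Γ' φ') (e : Same vp B c φ φ') :
    St vp B c Γ' M (φ' ::ₘ S) := by
  refine ⟨fun ψ hψ => ?_, fun q z hz => ?_, ?_⟩
  · rcases Multiset.mem_cons.1 hψ with rfl | hψ
    · exact o
    · exact (s.ok ψ (Multiset.mem_cons_of_mem hψ)).ext x
  · rw [← s.cnt q z hz, NS_cons, NS_cons, e.cnt]
  · obtain ⟨ψ, hψ, u⟩ := s.trk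
    rcases Multiset.mem_cons.1 hψ with rfl | hψ
    · exact ⟨φ', Multiset.mem_cons_self _ _, e.us u⟩
    · exact ⟨ψ, Multiset.mem_cons_of_mem hψ, u⟩

/-- a fact with a side at the top becomes the leading fact -/
theorem kingOf (P : Packed vp B N) (g : Good vp B N Γ) {φ : Fact} (s : St vp B c Γ M (φ ::ₘ S))
    (hM : M - 1 ∉ vp) {q : Bool} (h : 1 ≤ nn φ q (M - 1)) :
    ∃ Γ' K, Ext vp B N Γ Γ' 2 ∧ St vp B c Γ' M (K ::ₘ S) ∧ Kg K (M - 1) ∧
      K.2.2.2.1 = φ.2.2.2.1 := by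
  obtain ⟨Γ', K, x, o, e, on, sm⟩ := orient (c := c) P g (s.ok φ (Multiset.mem_cons_self _ _))
    (fun O => O q (M - 1)) (nn_pos.1 h)
  have s' := s.same x o sm
  have hh := o.holds P x.good
  have ev : K.1.2.2.2 % 2 = 0 := by
    rw [← on_cell1 hh o.2 on]
    exact even_of_not_mem hM
  have o0 : On K.1 K.2.2.1 K.1.1 K.1.2.1 := by simpa using on_of_idx o.2.e1 (i := 0) o.2.len
  have := (s'.lt (q := K.1.1) (not_mem_of_even (by rw [on_cell1 hh o.2 o0]; exact ev))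
    (by rw [NS_cons]; have := nn_pos.2 (Or.inl o0); omega)).2
  refine ⟨Γ', K, x, s', ⟨?_, e, ev⟩, sm.hgt⟩
  have := on.2.1
  rw [e] at this
  omega

/-- the second side of `K` does not lie under the first one -/
def NoOv (K : Fact) : Prop := ∀ q x, InR K q x → ¬ On K.2.1 K.2.2.1 q x

/-- the leading fact is a translation that overlaps itself: reroute through a power of it -/
theorem step2 (P : Packed vp B N) {lam : ℕ} (hN : N + 1 ≤ 2 ^ lam) (hc : c.2.1 ∈ vp)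
    (g : Good vp B N Γ) (s : St vp B c Γ M (K ::ₘ S)) (k : Kg K (M - 1)) (ov : ¬ NoOv K) :
    ∃ Γ' M' K' S', Ext vp B N Γ Γ' (6 * lam + 2 + 5 * S.card) ∧ St vp B c Γ' M' (K' ::ₘ S') ∧
      Kg K' (M' - 1) ∧ NoOv K' ∧ K'.2.2.2.1 = K.2.2.2.1 ∧
      ∃ Φ, Multiset.Rel (RRel vp B c Φ) S S' := by
  simp only [NoOv, not_forall, not_not] at ov
  obtain ⟨q0, x0, ⟨rfl, r1, r2⟩, on⟩ := ov
  have o := s.ok K (Multiset.mem_cons_self _ _)
  have hh := o.holds P g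
  have hl := len_le P hh o.2
  have nv : ∀ x, M - 1 - K.2.2.1 < x → x ≤ M - 1 → x ∉ vp := fun x => k.not_mem hh o.2
  have c2 : K.2.1.2.2.2 = K.1.2.2.2 := by
    rw [← on_cell2 hh o.2 on, k.cell hh o.2 (k.pos ▸ r1) (k.pos ▸ r2)]
  have nv2 : ∀ q x, On K.2.1 K.2.2.1 q x → x ∉ vp := fun q x h =>
    not_mem_of_even (by rw [on_cell2 hh o.2 h, c2]; exact k.even)
  have e2 : K.2.1.2.2.1 = -1 := by
    rw [o.2.e2, on.1, k.step, if_neg (by simp)]
  have nu : ¬ Uses vp B c K := by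
    rintro ⟨i, hi, u⟩
    rcases u.vertex hc with h | h
    · exact nv _ (by rw [k.pos, k.step]; omega) (by rw [k.pos, k.step]; omega) h
    · exact nv2 _ _ (on_of_idx o.2.e2' hi) h
  have o0 : On K.2.1 K.2.2.1 (!K.1.1) K.2.1.2.1 := by
    simpa [on.1] using on_of_idx o.2.e2' (i := 0) o.2.len
  have n0 := nn_pos.2 (Or.inr o0)
  have b1 := (s.lt (q := !K.1.1) (nv2 _ _ o0) (by rw [NS_cons]; omega)).2
  have b2 : K.2.1.2.1 ≠ M - 1 := by
    intro e
    obtain ⟨m, hm, -⟩ := hh 0 o.2.len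
    have := (P.acyc _ _ _ _ hm).2.2.2 (by simp [k.pos, e])
    exact nv _ (by have := o.2.len; simp [k.pos]; omega) (by simp [k.pos]) this
  have z0 : NS S (!K.1.1) K.2.1.2.1 = 0 := by
    have := s.le_one (!K.1.1) (nv2 _ _ o0)
    rw [NS_cons] at this
    omega
  obtain ⟨⟨p, t, ε, cl⟩, ⟨p', b, ε', cl'⟩, a, h, w⟩ := K
  have kp := k.pos
  have ks := k.step
  have ke := k.even
  have hp := on.1
  have on2 := on.2
  dsimp only at kp ks ke hp c2 e2 b1 b2 r1 r2 hl on2 nv z0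
  subst kp ks hp c2 e2
  obtain ⟨d, hd⟩ : ∃ d : ℕ, b = M - 1 - d := ⟨(M - 1 - b).toNat, by omega⟩
  subst hd
  obtain ⟨q, q1, q2, q3, q4⟩ : ∃ q : ℕ, 1 ≤ q ∧ q < 2 ^ lam ∧ q * d < a ∧ a ≤ q * d + d := by
    have h1 := Nat.div_add_mod' (a - 1) d
    have h2 := Nat.mod_lt (a - 1) (show 0 < d by omega)
    have h3 := Nat.div_le_self (a - 1) d
    exact ⟨(a - 1) / d, Nat.div_pos (by omega) (by omega), by omega, by omega, by omega⟩
  have q5 : d ≤ q * d := Nat.le_mul_of_pos_left _ q1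
  obtain ⟨Γ1, χ, x1, o1, w1⟩ := power P g (p := p) (t := M - 1) (a := a) (d := d) ke (by omega) o
    ⟨rfl, rfl, by simp⟩ lam q q1 q2 (by rw [← Nat.cast_mul]; omega)
  rw [← Nat.cast_mul] at w1
  generalize q * d = e at *
  have l1 := w1.len
  obtain ⟨Γ2, x2, o2⟩ := ok_sub P x1.good o1 (o := 0) (δ := 1) (L := d) (Or.inl rfl) (by omega)
    le_rfl (by omega) (by omega) (by omega)
  obtain ⟨Γ3, x3, o3⟩ := ok_sub P x2.good ((o.ext x1).ext x2) (o := e) (δ := 1) (L := a - e)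
    (Or.inl rfl) (by omega) (by omega) (by dsimp only; omega) (by omega) (by dsimp only; omega)
  have x4 := (x1.trans x2).trans x3
  have f1 : (subF χ 0 1 d).1 = (p, M - 1, -1, cl') := by simp [subF, w1.s1]
  have f2 : (subF χ 0 1 d).2.1 = (!p, M - 1 - e, -1, cl') := by simp [subF, w1.s2]
  have f3 : (subF χ 0 1 d).2.2.1 = d := rfl
  generalize subF χ 0 1 d = Φ at *
  obtain ⟨Γ5, S', x5, o5, r5⟩ := rrAll (c := c) P (Φ := Φ) (t := M - 1)
    ⟨by rw [f1], by rw [f1], by rw [f1]; exact ke⟩ S Γ3 x3.good (o2.ext x3)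
    (fun φ hφ => (s.ok φ (Multiset.mem_cons_of_mem hφ)).ext x4)
    (fun q x hx hn => by have := s.lt (q := q) hx (by rw [NS_cons]; omega); omega)
    (fun φ hφ => dich_of_zero (by
      have := nn_le_NS hφ (!p) (M - 1 - d)
      rw [f1, f3]
      dsimp only
      omega))
  refine ⟨Γ5, M - e, subF ((p, M - 1, -1, cl'), (!p, M - 1 - d, -1, cl'), a, h, w) e 1 (a - e), S',
    (x4.trans x5).mono (by omega), ⟨fun ψ hψ => ?_, fun q x hx => ?_, ?_⟩,
    ⟨by simp only [subF]; ring, by simp [subF], ke⟩, ?_, rfl, Φ, r5⟩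
  · rcases Multiset.mem_cons.1 hψ with rfl | hψ
    · exact o3.ext x5
    · exact o5 ψ hψ
  · have H1 := s.cnt q x hx
    have H2 := fun h1 h2 => s.cnt (!p) (M - 1 - -1 * (x - (M - 1 - e))) (nv _ h1 h2)
    rw [NS_cons, rel_NS r5]
    simp only [NS_cons, nn, ns, On, U, InR, f1, f2, f3, subF, true_and, Nat.cast_sub q3.le]
      at H1 H2 ⊢
    generalize NS S q x = n1 at *
    generalize NS S (!p) (M - 1 - -1 * (x - (M - 1 - e))) = n2 at *
    cases p <;> cases q <;> simp only [Bool.not_true, Bool.not_false, Bool.false_eq_true,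
      Bool.true_eq_false, false_and, true_and, if_false] at H1 H2 ⊢ <;>
      split_ifs at H1 H2 ⊢ <;> omega
  · obtain ⟨ψ, hψ, u⟩ := s.trk
    rcases Multiset.mem_cons.1 hψ with rfl | hψ
    · exact absurd u nu
    · obtain ⟨ψ', a1, a2⟩ := rel_ex r5 hψ
      exact ⟨ψ', Multiset.mem_cons_of_mem a1, a2.us u⟩
  · intro q x r on
    simp only [InR, On, subF, Nat.cast_sub q3.le] at r on
    omega

/-- no overlap and no side is cut: the leading fact is used up -/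
theorem consume (P : Packed vp B N) (g : Good vp B N Γ) (s : St vp B c Γ M (K ::ₘ S))
    (k : Kg K (M - 1)) (no : NoOv K) (di : ∀ φ ∈ S, Dich φ (!K.1.1) (M - 1 - K.2.2.1)) :
    ∃ Γ' S', Ext vp B N Γ Γ' (5 * S.card) ∧ St vp B c Γ' (M - K.2.2.1) S' ∧
      Multiset.Rel (RRel vp B c K) S S' := by
  have o := s.ok K (Multiset.mem_cons_self _ _)
  have hh := o.holds P g
  have nv : ∀ x, M - 1 - K.2.2.1 < x → x ≤ M - 1 → x ∉ vp := fun x => k.not_mem hh o.2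
  have one : ∀ x, M - 1 - K.2.2.1 < x → x ≤ M - 1 → NS S (!K.1.1) x = 1 := by
    intro x h1 h2
    have a1 := s.lt (q := K.1.1) (nv x h1 h2) (by
      have := nn_pos.2 (Or.inl (show On K.1 K.2.2.1 K.1.1 x from
        ⟨rfl, by rw [k.pos, k.step]; omega⟩))
      rw [NS_cons]; omega)
    have a2 := s.cnt (!K.1.1) x (nv x h1 h2)
    rw [if_pos a1, NS_cons, nn, ns, ns, if_neg (no _ x ⟨rfl, by rw [k.pos]; omega⟩),
      if_neg (fun h => by simpa using h.1)] at a2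
    omega
  obtain ⟨Γ', S', x, o', r⟩ := rrAll (c := c) P k S Γ g o
    (fun φ hφ => s.ok φ (Multiset.mem_cons_of_mem hφ))
    (fun q x hx hn => by have := s.lt (q := q) hx (by rw [NS_cons]; omega); omega) di
  refine ⟨Γ', S', x, ⟨o', fun q z hz => ?_, ?_⟩, r⟩
  · have H1 := s.cnt q z hz
    have H2 : On K.2.1 K.2.2.1 q z →
        NS S (!K.1.1) (K.1.2.1 - K.2.1.2.2.1 * (z - K.2.1.2.1)) = 1 := fun h =>
      one _ (by have := h.2.2; rw [k.pos]; omega) (by have := h.2.1; rw [k.pos]; omega)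
    have H3 := no q z
    have H4 : On K.1 K.2.2.1 q z ↔ q = K.1.1 ∧ M - 1 - K.2.2.1 < z ∧ z ≤ M - 1 := by
      simp only [On, k.pos, k.step, eq_comm (a := q)]
      exact and_congr_right fun _ => by omega
    rw [rel_NS r]
    simp only [NS_cons, nn, ns, U, InR, H4, k.pos] at H1 H2 H3 ⊢
    generalize K.1.1 = p at *
    by_cases hA : On K.2.1 K.2.2.1 q z <;> cases p <;> cases q <;> simp only [Bool.not_true, Bool.not_false,
      Bool.false_eq_true, Bool.true_eq_false, false_and, true_and, if_false, hA, if_true,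
      forall_const, not_true, imp_false] at H1 H2 H3 ⊢ <;> split_ifs at H1 ⊢ <;> omega
  · obtain ⟨ψ, hψ, u⟩ := s.trk
    rcases Multiset.mem_cons.1 hψ with rfl | hψ
    · obtain ⟨i, hi, u⟩ := u
      obtain ⟨φ, hφ, hn⟩ := exists_of_NS (one (M - 1 - i) (by omega) (by omega)).ge
      obtain ⟨φ', a1, a2⟩ := rel_ex r hφ
      exact ⟨φ', a1, (a2.h2 _ _ ⟨rfl, by rw [k.pos]; omega, by rw [k.pos]; omega⟩ hn).2 i
        (by rw [k.pos]; omega) u⟩
    · obtain ⟨ψ', a1, a2⟩ := rel_ex r hψ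
      exact ⟨ψ', a1, a2.us u⟩

/-- cut a fact whose first side runs downwards through `y + 1` and `y` -/
theorem split (P : Packed vp B N) (g : Good vp B N Γ) {C : Fact} (o : OK vp Γ C)
    (e : C.1.2.2.1 = -1) {q : Bool} {y : ℤ} (h1 : On C.1 C.2.2.1 q y)
    (h2 : On C.1 C.2.2.1 q (y + 1)) (h3 : nn C q y ≤ 1) :
    ∃ Γ' C1 C2, Ext vp B N Γ Γ' 2 ∧ OK vp Γ' C1 ∧ OK vp Γ' C2 ∧
      (∀ q x, nn C1 q x + nn C2 q x = nn C q x) ∧ C1.2.2.2.1 = C.2.2.2.1 ∧
      C2.2.2.2.1 = C.2.2.2.1 ∧ (Uses vp B c C → Uses vp B c C1 ∨ Uses vp B c C2) ∧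
      Dich C1 q y ∧ Dich C2 q y ∧ 1 ≤ nn C1 q y ∧ 1 ≤ nn C2 q (y + 1) := by
  have h4 : ¬ On C.2.1 C.2.2.1 q y := fun h => by
    rw [nn, ns, ns, if_pos h1, if_pos h] at h3
    omega
  obtain ⟨hq, a1, a2⟩ := h1
  obtain ⟨-, a3, a4⟩ := h2
  rw [e] at a1 a2 a3 a4
  obtain ⟨r, hr⟩ : ∃ r : ℕ, C.1.2.1 = y + r := ⟨(C.1.2.1 - y).toNat, by omega⟩
  have hr' : r ≤ C.2.2.1 := by omega
  obtain ⟨Γ1, x1, o1⟩ := ok_sub P g o (o := r) (δ := 1) (L := C.2.2.1 - r) (Or.inl rfl) (by omega)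
    (by omega) (by omega) (by omega) (by omega)
  obtain ⟨Γ2, x2, o2⟩ := ok_sub P x1.good (o.ext x1) (o := 0) (δ := 1) (L := r) (Or.inl rfl)
    (by omega) le_rfl (by omega) (by omega) (by omega)
  have key : ∀ (s : Side) (q : Bool) (x : ℤ), s.2.2.1 = 1 ∨ s.2.2.1 = -1 →
      ns (s.1, s.2.1 + s.2.2.1 * r, s.2.2.1 * 1, s.2.2.2) (C.2.2.1 - r) q x +
        ns (s.1, s.2.1 + s.2.2.1 * 0, s.2.2.1 * 1, s.2.2.2) r q x = ns s C.2.2.1 q x := by
    intro s q x hs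
    simp only [ns, On, Nat.cast_sub hr']
    by_cases hq : s.1 = q
    · simp only [hq, true_and]
      rcases hs with hs | hs <;> rw [hs] <;> split_ifs <;> omega
    · simp [hq]
  have eb := o.2.e2'
  refine ⟨Γ2, _, _, x1.trans x2, o1.ext x2, o2, fun q x => ?_, rfl, rfl, ?_, ⟨?_, ?_⟩, ⟨?_, ?_⟩,
    nn_pos.2 (Or.inl ?_), nn_pos.2 (Or.inl ?_)⟩
  · have k1 := key C.1 q x o.2.e1
    have k2 := key C.2.1 q x eb
    simp only [nn, subF]
    omega
  · rintro ⟨i, hi, u⟩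
    by_cases h : i < r
    · exact Or.inr ⟨i, h, u.sub _ (by omega)⟩
    · exact Or.inl ⟨i - r, show _ < C.2.2.1 - r by omega, u.sub _ (by omega)⟩
  · simp only [On, subF, e]
    omega
  · refine fun h => h4 ⟨h.1.1, ?_⟩
    have := h.1.2
    simp only [subF, Nat.cast_sub hr'] at this
    rcases eb with e' | e' <;> rw [e'] at this ⊢ <;> omega
  · simp only [On, subF, e]
    omega
  · refine fun h => h4 ⟨h.1.1, ?_⟩
    have := h.1.2
    simp only [subF] at this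
    rcases eb with e' | e' <;> rw [e'] at this ⊢ <;> omega
  · refine ⟨hq, ?_⟩
    simp only [subF, e, Nat.cast_sub hr']
    omega
  · refine ⟨hq, ?_⟩
    simp only [subF, e]
    omega

/-- no overlap: either the leading fact dies, or a cut fact takes over -/
theorem step1 (P : Packed vp B N) (g : Good vp B N Γ) (s : St vp B c Γ M (K ::ₘ S))
    (k : Kg K (M - 1)) (no : NoOv K) :
    (∃ Γ' M' S', Ext vp B N Γ Γ' (5 * S.card) ∧ St vp B c Γ' M' S' ∧
      Multiset.Rel (RRel vp B c K) S S') ∨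
    ∃ Γ' M' K' C C' S0 S0', S = C ::ₘ S0 ∧ Ext vp B N Γ Γ' (5 * S.card + 11) ∧
      St vp B c Γ' M' (K' ::ₘ C' ::ₘ S0') ∧ Kg K' (M' - 1) ∧ Multiset.Rel (RRel vp B c K) S0 S0' ∧
      C.2.2.2.1 + K.2.2.2.1 ≤ C'.2.2.2.1 ∧
      (K'.2.2.2.1 = C.2.2.2.1 ∨ C.2.2.2.1 + K.2.2.2.1 ≤ K'.2.2.2.1) := by
  by_cases di : ∀ φ ∈ S, Dich φ (!K.1.1) (M - 1 - K.2.2.1)
  · obtain ⟨Γ', S', a1, a2, a3⟩ := consume P g s k no di
    exact Or.inl ⟨Γ', _, S', a1, a2, a3⟩
  right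
  simp only [not_forall, Dich, not_and_or] at di
  obtain ⟨C, hC, di⟩ := di
  obtain ⟨S0, rfl⟩ := Multiset.exists_cons_of_mem hC
  have o := s.ok K (Multiset.mem_cons_self _ _)
  have l := o.2.len
  obtain ⟨Γ1, C0, x1, o1, e1, ⟨on1, on2⟩, sm⟩ := orient (c := c) P g
    (s.ok C (Multiset.mem_cons_of_mem hC))
    (fun O => O (!K.1.1) (M - 1 - K.2.2.1) ∧ O (!K.1.1) (M - 1 - K.2.2.1 + 1))
    (by simpa only [not_or, not_not] using di)
  have hy : M - 1 - K.2.2.1 ∉ vp := by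
    refine not_mem_of_even ?_
    rw [on_cell1 (o1.holds P x1.good) o1.2 on1, ← on_cell1 (o1.holds P x1.good) o1.2 on2,
      k.cell (o.holds P g) o.2 (by omega) (by omega)]
    exact k.even
  have n1 := s.le_one (!K.1.1) hy
  have n2 := nn_pos.2 (Or.inl on1)
  rw [NS_cons, NS_cons, ← sm.cnt] at n1
  obtain ⟨Γ2, C1, C2, x2, o2, o3, a1, a2, a3, a4, a5, a6, a7, a8⟩ :=
    split (c := c) P x1.good o1 e1 on1 on2 (by omega)
  have s2 : St vp B c Γ2 M (K ::ₘ C1 ::ₘ C2 ::ₘ S0) := by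
    refine ⟨fun ψ hψ => ?_, fun q z hz => ?_, ?_⟩
    · simp only [Multiset.mem_cons] at hψ
      rcases hψ with rfl | rfl | rfl | hψ
      · exact (o.ext x1).ext x2
      · exact o2
      · exact o3
      · exact ((s.ok ψ (by simp [hψ])).ext x1).ext x2
    · rw [← s.cnt q z hz]
      simp only [NS_cons, ← sm.cnt, ← a1, add_assoc]
    · obtain ⟨ψ, hψ, u⟩ := s.trk
      simp only [Multiset.mem_cons] at hψ
      rcases hψ with rfl | rfl | hψ
      · exact ⟨ψ, by simp, u⟩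
      · rcases a4 (sm.us u) with u | u
        · exact ⟨C1, by simp, u⟩
        · exact ⟨C2, by simp, u⟩
      · exact ⟨ψ, by simp [hψ], u⟩
  obtain ⟨Γ3, S3, x3, s3, r3⟩ := consume P x2.good s2 k no (fun ψ hψ => by
    simp only [Multiset.mem_cons] at hψ
    rcases hψ with rfl | rfl | hψ
    · exact a5
    · exact a6
    · exact dich_of_zero (by have := nn_le_NS hψ (!K.1.1) (M - 1 - K.2.2.1); omega))
  obtain ⟨D1, S4, r1, r4, rfl⟩ := Multiset.rel_cons_left.1 r3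
  obtain ⟨D2, S5, r2, r5, rfl⟩ := Multiset.rel_cons_left.1 r4
  have ey : M - K.2.2.1 - 1 = M - 1 - K.2.2.1 := by ring
  obtain ⟨Γ4, K', x4, s4, k4, e4⟩ := kingOf P x3.good s3 (ey ▸ hy) (q := !K.1.1) (by
    rw [ey, r1.cnt, U, if_neg (fun h => by have := h.2.1; rw [k.pos] at this; omega)]
    omega)
  have hs := sm.hgt
  refine ⟨Γ4, _, K', C, D2, S0, S5, rfl, (((x1.trans x2).trans x3).trans x4).mono ?_, s4, k4, r5,
    ?_, ?_⟩
  · simp only [Multiset.card_cons]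
    omega
  · have := (r2.h2 _ _ ⟨rfl, by rw [k.pos]; omega, by rw [k.pos]; omega⟩ a8).1
    omega
  · have := r1.h1
    omega

end Zor

end Pool.Agent.MP_17db17_lc.H93
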